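import Pool.Agent.MP_154433_an.t3.Defs

/-! Statements of the rows (note 154433_T3prime_h17). -/

set_option autoImplicit false
set_option linter.unusedVariables false
set_option warn.classDefReducibility false

open MeasureTheory ProbabilityTheory Filter Topology Function Finset ComplexConjugate
open scoped BigOperators
open Fib27 (BM sup pr Oc Orow F23 LInd Mem)
open Pool.Agent.MP_154433_an.SG (Uni ufn)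

noncomputable section

namespace T3x

/-! ### basic calculus -/

/-- null sets and pull-backs -/
structure BasA : Prop where
  nul_le : ∀ {Ω : Type} {m0 : MeasurableSpace Ω} (μ : Measure Ω), nul μ ≤ m0
  mem : ∀ {Ω : Type} (B : MeasurableSpace Ω) {m0 : MeasurableSpace Ω} (μ : Measure Ω), B ≤ m0 →
    ∀ A, MeasurableSet[B ⊔ nul μ] A ↔ MeasurableSet[m0] A ∧ ∃ A', MeasurableSet[B] A' ∧ A =ᵐ[μ] A'
  aesm : ∀ {Ω : Type} (B : MeasurableSpace Ω) {m0 : MeasurableSpace Ω} (μ : Measure Ω), B ≤ m0 →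
    ∀ f : Ω → ℂ, AEStronglyMeasurable[B ⊔ nul μ] f μ ↔ AEStronglyMeasurable[B] f μ
  ce : ∀ {Ω : Type} (B : MeasurableSpace Ω) {m0 : MeasurableSpace Ω} (μ : Measure Ω)
    [IsProbabilityMeasure μ], B ≤ m0 → ∀ f : Ω → ℂ, μ[f | B ⊔ nul μ] =ᵐ[μ] μ[f | B]
  rep : ∀ {Ω : Type} (B : MeasurableSpace Ω) {m0 : MeasurableSpace Ω} (μ : Measure Ω) (f : Ω → ℂ)
    (C : ℝ), 0 ≤ C → AEStronglyMeasurable[B] f μ → (∀ᵐ x ∂μ, ‖f x‖ ≤ C) →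
    ∃ f' : Ω → ℂ, Measurable[B] f' ∧ (∀ x, ‖f' x‖ ≤ C) ∧ f =ᵐ[μ] f'
  fact : ∀ {Ω Ω' : Type} (B : MeasurableSpace Ω') {m0 : MeasurableSpace Ω} (μ : Measure Ω)
    (p : Ω → Ω') (f : Ω → ℂ) (C : ℝ), B.comap p ≤ m0 → 0 ≤ C →
    AEStronglyMeasurable[pull μ p B] f μ → (∀ᵐ x ∂μ, ‖f x‖ ≤ C) →
    ∃ f' : Ω' → ℂ, Measurable[B] f' ∧ (∀ x, ‖f' x‖ ≤ C) ∧ f =ᵐ[μ] fun x => f' (p x)
  pull_le : ∀ {Ω Ω' : Type} (B : MeasurableSpace Ω') {m0 : MeasurableSpace Ω}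
    {m0' : MeasurableSpace Ω'} (μ : Measure Ω) (μ' : Measure Ω') (p : Ω → Ω'),
    MeasurePreserving p μ μ' → B ≤ m0' → pull μ p B ≤ m0
  bm_comp : ∀ {Ω Ω' : Type} (B : MeasurableSpace Ω') {m0 : MeasurableSpace Ω}
    {m0' : MeasurableSpace Ω'} (μ : Measure Ω) (μ' : Measure Ω') (p : Ω → Ω') (f : Ω' → ℂ),
    MeasurePreserving p μ μ' → BM μ' B f → BM μ (pull μ p B) fun x => f (p x)
  ce_comp : ∀ {Ω Ω' : Type} (B : MeasurableSpace Ω') {m0 : MeasurableSpace Ω}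
    {m0' : MeasurableSpace Ω'} (μ : Measure Ω) (μ' : Measure Ω') [IsProbabilityMeasure μ]
    [IsProbabilityMeasure μ'] (p : Ω → Ω') (f : Ω' → ℂ), MeasurePreserving p μ μ' → B ≤ m0' →
    Integrable f μ' → μ[fun x => f (p x) | pull μ p B] =ᵐ[μ] fun x => (μ'[f | B]) (p x)
  pull_comp : ∀ {Ω Ω' Ω'' : Type} (B : MeasurableSpace Ω'') {m0 : MeasurableSpace Ω}
    {m0' : MeasurableSpace Ω'} (μ : Measure Ω) (μ' : Measure Ω') (p : Ω → Ω') (q : Ω' → Ω''),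
    MeasurePreserving p μ μ' → pull μ p (pull μ' q B) = pull μ (q ∘ p) B
  pull_sup : ∀ {Ω Ω' : Type} (B C : MeasurableSpace Ω') {m0 : MeasurableSpace Ω} (μ : Measure Ω)
    (p : Ω → Ω'), pull μ p (B ⊔ C) = pull μ p B ⊔ pull μ p C
  keq_pull : ∀ {Ω Ω' : Type} (B : MeasurableSpace Ω') {m0 : MeasurableSpace Ω} (μ : Measure Ω)
    (p p' : Ω → Ω'), B.comap p ≤ m0 → B.comap p' ≤ m0 → KEq μ B p p' → pull μ p B = pull μ p' B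
  keq_fun : ∀ {Ω Ω' : Type} (B : MeasurableSpace Ω') {m0 : MeasurableSpace Ω}
    {m0' : MeasurableSpace Ω'} (μ : Measure Ω) (μ' : Measure Ω') (p p' : Ω → Ω') (f : Ω' → ℂ),
    MeasurePreserving p μ μ' → MeasurePreserving p' μ μ' → KEq μ B p p' →
    AEStronglyMeasurable[B] f μ' → (fun x => f (p x)) =ᵐ[μ] fun x => f (p' x)
  keq_of : ∀ {Ω Ω' : Type} (B : MeasurableSpace Ω') {m0 : MeasurableSpace Ω} (μ : Measure Ω)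
    (p p' : Ω → Ω'), (∀ f : Ω' → ℂ, Measurable[B] f → (∀ x, ‖f x‖ ≤ 1) →
      (fun x => f (p x)) =ᵐ[μ] fun x => f (p' x)) → KEq μ B p p'

/-- powers of the map, factors, embeddings -/
structure BasT : Prop where
  mp : ∀ (X : Sys) (n : ℤ), MeasurePreserving (X.Tz n) X.μ X.μ
  zero : ∀ (X : Sys) x, X.Tz 0 x = x
  one : ∀ (X : Sys) x, X.Tz 1 x = X.T x
  add : ∀ (X : Sys) (n m : ℤ) x, X.Tz (n + m) x = X.Tz n (X.Tz m x)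
  inv : ∀ (X : Sys) B (n : ℤ), Fac X B → B.comap (X.Tz n) = B
  bm : ∀ (X : Sys) B (n : ℤ) f, Fac X B → BM X.μ B f → BM X.μ B fun x => f (X.Tz n x)
  ce : ∀ (X : Sys) B (n : ℤ) (f : X.X → ℂ), Fac X B → Integrable f X.μ →
    X.μ[fun x => f (X.Tz n x) | B] =ᵐ[X.μ] fun x => (X.μ[f | B]) (X.Tz n x)
  emb_z : ∀ (Y X : Sys) p (n : ℤ), Emb Y X p → KEq Y.μ X.ms (p ∘ Y.Tz n) (X.Tz n ∘ p)
  emb_id : ∀ X : Sys, Emb X X id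
  emb_comp : ∀ (Z Y X : Sys) p q, Emb Z Y p → Emb Y X q → Emb Z X (q ∘ p)
  top : ∀ X : Sys, Fac X X.ms
  bot : ∀ X : Sys, Fac X (nul X.μ)
  finv : ∀ X : Sys, Fac X (Inv X)
  fpull : ∀ (Y X : Sys) p B, Emb Y X p → Fac X B → Fac Y (pull Y.μ p B)
  fsup : ∀ (X : Sys) B C, Fac X B → Fac X C → Fac X (B ⊔ C)
  fisup : ∀ (X : Sys) (ι : Type) (B : MeasurableSpace X.X) (C : ι → MeasurableSpace X.X),
    Fac X B → (∀ i, Fac X (C i)) → Fac X (B ⊔ ⨆ i, C i)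
  fsSup : ∀ (X : Sys) (𝒞 : Set (MeasurableSpace X.X)), 𝒞.Nonempty → (∀ C ∈ 𝒞, Fac X C) →
    Fac X (sSup 𝒞)
  fsp : ∀ (X : Sys) (ι : Type) (B : MeasurableSpace X.X) (C : ι → MeasurableSpace X.X)
    (S : Finset ι), Fac X B → (∀ i, Fac X (C i)) → Fac X (sup C S ⊔ B)
  inv_iff : ∀ (X : Sys) (f : X.X → ℂ), AEStronglyMeasurable f X.μ →
    (AEStronglyMeasurable[Inv X] f X.μ ↔ (fun x => f (X.T x)) =ᵐ[X.μ] f)

/-- density, chains, essential suprema -/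
structure BasD : Prop where
  perp : ∀ {Ω : Type} {m0 : MeasurableSpace Ω} (μ : Measure Ω) [IsProbabilityMeasure μ]
    (T : Set (Ω → ℂ)), (∀ φ ∈ T, φ ∈ Bdd Ω) → (∃ φ ∈ T, φ =ᵐ[μ] fun _ => 1) →
    (∀ φ ∈ T, ∀ φ' ∈ T, ∃ χ ∈ T, χ =ᵐ[μ] fun x => φ x * φ' x) →
    (∀ φ ∈ T, ∃ χ ∈ T, χ =ᵐ[μ] fun x => conj (φ x)) → ∀ g : Ω → ℂ, Integrable g μ →
    (∀ φ ∈ T, ∫ x, g x * φ x ∂μ = 0) → μ[g | gen T id ⊔ nul μ] =ᵐ[μ] 0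
  apx : ∀ {Ω : Type} {m0 : MeasurableSpace Ω} (μ : Measure Ω) [IsProbabilityMeasure μ]
    (T : Set (Ω → ℂ)), (∀ φ ∈ T, φ ∈ Bdd Ω) → (∃ φ ∈ T, φ =ᵐ[μ] fun _ => 1) →
    (∀ φ ∈ T, ∀ φ' ∈ T, ∃ χ ∈ T, χ =ᵐ[μ] fun x => φ x * φ' x) →
    (∀ φ ∈ T, ∃ χ ∈ T, χ =ᵐ[μ] fun x => conj (φ x)) → ∀ g : Ω → ℂ, MemLp g 2 μ →
    AEStronglyMeasurable[gen T id ⊔ nul μ] g μ → ∀ ε : ℝ, 0 < ε →
    ∃ φ ∈ Submodule.span ℂ T, ∫ x, ‖g x - φ x‖ ^ 2 ∂μ ≤ ε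
  /-- products of bounded functions of the members span the join -/
  iperp : ∀ {Ω ι : Type} (p : ι → MeasurableSpace Ω) {m0 : MeasurableSpace Ω} (μ : Measure Ω)
    [IsProbabilityMeasure μ], (∀ i, p i ≤ m0) → ∀ g : Ω → ℂ, Integrable g μ →
    (∀ (S : Finset ι) (f : ι → Ω → ℂ), (∀ i ∈ S, BM μ (p i) (f i)) → ∫ x, g x * pr f S x ∂μ = 0) →
    μ[g | ⨆ i, p i] =ᵐ[μ] 0
  apx2 : ∀ {Ω : Type} (A B : MeasurableSpace Ω) {m0 : MeasurableSpace Ω} (μ : Measure Ω)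
    [IsProbabilityMeasure μ], A ≤ m0 → B ≤ m0 → ∀ g : Ω → ℂ, MemLp g 2 μ →
    AEStronglyMeasurable[A ⊔ B] g μ → ∀ ε : ℝ, 0 < ε → ∃ (n : ℕ) (a b : Fin n → Ω → ℂ),
      (∀ i, BM μ A (a i)) ∧ (∀ i, BM μ B (b i)) ∧ ∫ x, ‖g x - ∑ i, a i x * b i x‖ ^ 2 ∂μ ≤ ε
  chain : ∀ {Ω : Type} (𝒞 : Set (MeasurableSpace Ω)) {m0 : MeasurableSpace Ω} (μ : Measure Ω)
    [IsProbabilityMeasure μ], 𝒞.Nonempty → DirectedOn (· ≤ ·) 𝒞 → (∀ C ∈ 𝒞, C ≤ m0) →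
    ∀ g : Ω → ℂ, MemLp g 2 μ → ∀ ε : ℝ, 0 < ε →
    ∃ C ∈ 𝒞, ∀ C' ∈ 𝒞, C ≤ C' → ∫ x, ‖(μ[g | sSup 𝒞]) x - (μ[g | C']) x‖ ^ 2 ∂μ ≤ ε
  ess : ∀ {Ω : Type} {m0 : MeasurableSpace Ω} (μ : Measure Ω) [IsProbabilityMeasure μ]
    (𝒜 : Set (Set Ω)), (∀ A ∈ 𝒜, MeasurableSet A) →
    ∃ 𝒜' ⊆ 𝒜, 𝒜'.Countable ∧ ∀ A ∈ 𝒜, A ≤ᵐ[μ] (⋃₀ 𝒜' : Set Ω)
  /-- a closed subspace test: limits in `L²` of a.e. `B`-measurable functions -/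
  closed : ∀ {Ω : Type} (B : MeasurableSpace Ω) {m0 : MeasurableSpace Ω} (μ : Measure Ω)
    [IsProbabilityMeasure μ], B ≤ m0 → ∀ g : Ω → ℂ, MemLp g 2 μ →
    (∀ ε : ℝ, 0 < ε → ∃ φ : Ω → ℂ, MemLp φ 2 μ ∧ AEStronglyMeasurable[B] φ μ ∧
      ∫ x, ‖g x - φ x‖ ^ 2 ∂μ ≤ ε) → AEStronglyMeasurable[B] g μ
  /-- equal norms force equal conditional expectations -/
  eqn : ∀ {Ω : Type} (B C : MeasurableSpace Ω) {m0 : MeasurableSpace Ω} (μ : Measure Ω)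
    [IsProbabilityMeasure μ], B ≤ C → C ≤ m0 → ∀ g : Ω → ℂ, MemLp g 2 μ →
    ∫ x, ‖(μ[g | B]) x‖ ^ 2 ∂μ ≤ ∫ x, ‖(μ[g | C]) x‖ ^ 2 ∂μ ∧
    (∫ x, ‖(μ[g | C]) x‖ ^ 2 ∂μ ≤ ∫ x, ‖(μ[g | B]) x‖ ^ 2 ∂μ → μ[g | C] =ᵐ[μ] μ[g | B])

/-- conditional independence -/
structure BasC : Prop where
  ext : ∀ {Ω ι : Type} (β : MeasurableSpace Ω) (p : ι → MeasurableSpace Ω) (S : Finset ι)
    {m0 : MeasurableSpace Ω} (μ : Measure Ω) [IsProbabilityMeasure μ], β ≤ m0 → (∀ i, p i ≤ m0) →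
    CInd β p S μ → CInd β (fun i => p i ⊔ β) S μ
  sub : ∀ {Ω ι : Type} (β : MeasurableSpace Ω) (p : ι → MeasurableSpace Ω) (S S' : Finset ι)
    {m0 : MeasurableSpace Ω} (μ : Measure Ω) [IsProbabilityMeasure μ], β ≤ m0 → (∀ i, p i ≤ m0) →
    S' ⊆ S → CInd β p S μ → CInd β p S' μ
  grp : ∀ {Ω ι : Type} (β : MeasurableSpace Ω) (p : ι → MeasurableSpace Ω) (S S1 S2 : Finset ι)
    {m0 : MeasurableSpace Ω} (μ : Measure Ω) [IsProbabilityMeasure μ], β ≤ m0 → (∀ i, p i ≤ m0) →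
    CInd β p S μ → S1 ⊆ S → S2 ⊆ S → Disjoint S1 S2 → ∀ f g : Ω → ℂ,
    BM μ (sup p S1 ⊔ β) f → BM μ (sup p S2 ⊔ β) g →
    μ[fun x => f x * g x | β] =ᵐ[μ] fun x => (μ[f | β]) x * (μ[g | β]) x
  cp_iff : ∀ {Ω : Type} (Y D C : MeasurableSpace Ω) {m0 : MeasurableSpace Ω} (μ : Measure Ω)
    [IsProbabilityMeasure μ], Y ≤ m0 → C ≤ m0 → D ≤ C → (CP Y D C μ ↔ ∀ f g : Ω → ℂ, BM μ Y f →
      BM μ C g → μ[fun x => f x * g x | D] =ᵐ[μ] fun x => (μ[f | D]) x * (μ[g | D]) x)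
  cp_symm : ∀ {Ω : Type} (Y D C : MeasurableSpace Ω) {m0 : MeasurableSpace Ω} (μ : Measure Ω)
    [IsProbabilityMeasure μ], Y ≤ m0 → C ≤ m0 → D ≤ C → D ≤ Y → CP Y D C μ → CP C D Y μ
  drop : ∀ {Ω : Type} (Y D C O : MeasurableSpace Ω) {m0 : MeasurableSpace Ω} (μ : Measure Ω)
    [IsProbabilityMeasure μ], Y ≤ m0 → C ≤ m0 → D ≤ C → D ≤ Y → O ≤ Y → CP Y D C μ →
    CP Y (O ⊔ D) (O ⊔ C) μ
  cp_sup : ∀ {Ω : Type} (Y D C : MeasurableSpace Ω) {m0 : MeasurableSpace Ω} (μ : Measure Ω)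
    [IsProbabilityMeasure μ], Y ≤ m0 → C ≤ m0 → D ≤ C → CP Y D C μ → CP (Y ⊔ D) D C μ
  /-- enlarge the base by parts of the members -/
  grow : ∀ {Ω ι : Type} (β : MeasurableSpace Ω) (p d : ι → MeasurableSpace Ω) (S : Finset ι)
    {m0 : MeasurableSpace Ω} (μ : Measure Ω) [IsProbabilityMeasure μ], β ≤ m0 → (∀ i, p i ≤ m0) →
    (∀ i, d i ≤ p i) → CInd β p S μ → CInd (sup d S ⊔ β) p S μ ∧
      ∀ i ∈ S, CP (p i) (d i ⊔ β) (sup d S ⊔ β) μ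

/-- the mean ergodic theorem in terms of conditional expectations -/
def MetS : Prop := ∀ (X : Sys) (f : X.X → ℂ), MemLp f 2 X.μ → Tendsto (fun N : ℕ =>
  ∫ x, ‖(N : ℂ)⁻¹ * ∑ n ∈ range N, f (X.Tz n x) - (X.μ[f | Inv X]) x‖ ^ 2 ∂X.μ) atTop (𝓝 0)

/-- correlations along ergodic weights -/
structure Mix (ν : Wt) : Prop where
  zero : ∀ (X : Sys) (r : ℤ) (f : X.X → ℂ), MemLp f 2 X.μ →
    (∀ g : X.X → ℂ, MemLp g 2 X.μ → (fun x => g (X.Tz r x)) =ᵐ[X.μ] g → ∫ x, f x * g x ∂X.μ = 0) →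
    Tendsto (fun M => ∫ x, ‖ν.av M fun d => f (X.Tz (r * d) x)‖ ^ 2 ∂X.μ) atTop (𝓝 0)
  dom : ∀ (X : Sys) (r : ℤ) (A A' : Set X.X), r ≠ 0 → MeasurableSet A → MeasurableSet A' →
    ∃ a : ℝ, Tendsto (fun M => ν.av M fun d => X.μ.real (A ∩ X.Tz (r * d) ⁻¹' A')) atTop (𝓝 a) ∧
      a ≤ |(r : ℝ)| * ∫ x, (X.μ[A.indicator fun _ => (1 : ℝ) | Inv X]) x *
        (X.μ[A'.indicator fun _ => (1 : ℝ) | Inv X]) x ∂X.μ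

def MixS : Prop := ∀ ν, ERG ν → Mix ν

/-! ### constructions -/

def RealS : Prop := ∀ (S : Type) (A : Set (S → ℂ)) (Λ : (S → ℂ) → ℂ) (t : S ≃ S), SAlg A →
  (∀ F ∈ A, ∀ G ∈ A, Λ (fun s => F s + G s) = Λ F + Λ G) →
  (∀ (c : ℂ), ∀ F ∈ A, Λ (fun s => c * F s) = c * Λ F) → Λ (fun _ => 1) = 1 →
  (∀ F ∈ A, (∀ s, 0 ≤ (F s).re ∧ (F s).im = 0) → 0 ≤ (Λ F).re ∧ (Λ F).im = 0) →
  (∀ F ∈ A, (fun s => F (t s)) ∈ A) → (∀ F ∈ A, (fun s => F (t.symm s)) ∈ A) →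
  (∀ F ∈ A, Λ (fun s => F (t s)) = Λ F) →
  ∃ (W : Sys) (hat : (S → ℂ) → W.X → ℂ), Realz A Λ t W hat

def Nice0S : Prop := ∀ X : Sys, ∃ (X' : Sys) (e : X.X → X'.X), Nice X' ∧ Emb X X' e ∧
  ∀ f ∈ Bdd X.X, ∃ f' ∈ Bdd X'.X, ∀ x, f' (e x) = f x

def LimS : Prop := ∀ (X : ℕ → Sys) (p : ∀ k, (X (k + 1)).X → (X k).X), (∀ k, Nice (X k)) →
  (∀ k, Emb (X (k + 1)) (X k) (p k)) → ∃ (Z : Sys) (e : ∀ k, Z.X → (X k).X), Nice Z ∧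
    (∀ k, Emb Z (X k) (e k)) ∧ (∀ k, KEq Z.μ (X k).ms (p k ∘ e (k + 1)) (e k)) ∧
    Z.ms ≤ ⨆ k, pull Z.μ (e k) (X k).ms

def RPS : Prop := ∀ (ι : Type) (X : ι → Sys) (C : Sys) (D : MeasurableSpace C.X)
  (q : ∀ i, (X i).X → C.X) (i0 : ι), (∀ i, Nice (X i)) → Fac C D →
  (∀ i, @MeasurePreserving _ _ (X i).ms C.ms (q i) (X i).μ C.μ) →
  (∀ i, KEq (X i).μ D (q i ∘ (X i).Tz 1) (C.Tz 1 ∘ q i)) →
  ∃ (Z : Sys) (p : ∀ i, Z.X → (X i).X), IsRP X C D q i0 Z p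

def LineS : Prop := ∀ (ν : Wt) (U : Ultrafilter ℕ) (X : Sys), Nice X → Nonempty (Ln ν U X)

/-- lifts of embeddings to the lines -/
structure LfA : Prop where
  ex : ∀ {ν U} {X' X : Sys} (L' : Ln ν U X') (L : Ln ν U X) p, Emb X' X p → ∃ Lp, IsLift L' L p Lp
  slot : ∀ {ν U} {X' X : Sys} (L' : Ln ν U X') (L : Ln ν U X) p Lp s, Emb X' X p →
    IsLift L' L p Lp → KEq L'.W.μ X.ms (L.π s ∘ Lp) (p ∘ L'.π s)
  shp : ∀ {ν U} {X' X : Sys} (L' : Ln ν U X') (L : Ln ν U X) p Lp B B', Emb X' X p →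
    IsLift L' L p Lp → Fac X B → Fac X' B' → pull X'.μ p B ≤ B' →
    pull L'.W.μ Lp (L.shp B) ≤ L'.shp B'
  uniq : ∀ {ν U} {X' X : Sys} (L' : Ln ν U X') (L : Ln ν U X) p p' Lp Lp', Emb X' X p →
    Emb X' X p' → KEq X'.μ X.ms p p' → IsLift L' L p Lp → IsLift L' L p' Lp' →
    KEq L'.W.μ L.W.ms Lp Lp'
  comp : ∀ {ν U} {X'' X' X : Sys} (L'' : Ln ν U X'') (L' : Ln ν U X') (L : Ln ν U X) q p Lq Lp,
    Emb X'' X' q → Emb X' X p → IsLift L'' L' q Lq → IsLift L' L p Lp →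
    IsLift L'' L (p ∘ q) (Lp ∘ Lq)

/-- internal functions and internal sets -/
structure LfB : Prop where
  congr : ∀ {ν U} {X : Sys} (L : Ln ν U X), ∀ F ∈ FamS X.ms, ∀ F' ∈ FamS X.ms,
    (∀ l, (fun x => F (l, x)) =ᵐ[X.μ] fun x => F' (l, x)) → L.hat F =ᵐ[L.W.μ] L.hat F'
  nrm : ∀ {ν U} {X : Sys} (L : Ln ν U X), ∀ F ∈ FamS X.ms, ∀ w,
    L.hat (fun z => (‖F z‖ : ℂ)) w = (‖L.hat F w‖ : ℂ)
  fac : ∀ {ν U} {X : Sys} (L : Ln ν U X) B, Fac X B → Fac L.W (L.shp B)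
  top : ∀ {ν U} {X : Sys} (L : Ln ν U X), L.shp X.ms = L.W.ms
  mono : ∀ {ν U} {X : Sys} (L : Ln ν U X) (B B' : MeasurableSpace X.X), B ≤ B' →
    L.shp B ≤ L.shp B'
  slot : ∀ {ν U} {X : Sys} (L : Ln ν U X) B s, Fac X B → pull L.W.μ (L.π s) B ≤ L.shp B
  ce : ∀ {ν U} {X : Sys} (L : Ln ν U X) B, Fac X B → ∀ F ∈ FamS X.ms, ∀ F' ∈ FamS B,
    (∀ l, (fun x => F' (l, x)) =ᵐ[X.μ] X.μ[fun x => F (l, x) | B]) →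
    L.W.μ[L.hat F | L.shp B] =ᵐ[L.W.μ] L.hat F'
  cex : ∀ (X : Sys) B, Fac X B → ∀ F ∈ FamS X.ms, ∃ F' ∈ FamS B,
    ∀ l, (fun x => F' (l, x)) =ᵐ[X.μ] X.μ[fun x => F (l, x) | B]
  apx : ∀ {ν U} {X : Sys} (L : Ln ν U X) B, Fac X B → ∀ (g : L.W.X → ℂ) (C ε : ℝ), 0 ≤ C → 0 < ε →
    AEStronglyMeasurable[L.shp B] g L.W.μ → (∀ᵐ w ∂L.W.μ, ‖g w‖ ≤ C) →
    ∃ F ∈ FamS B, (∀ z, ‖F z‖ ≤ C) ∧ ∫ w, ‖g w - L.hat F w‖ ^ 2 ∂L.W.μ ≤ ε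
  inv : ∀ {ν U} {X : Sys} (L : Ln ν U X) s s', KEq L.W.μ (Inv X) (L.π s) (L.π s')

structure LfC : Prop where
  hs_ind : ∀ {ν U} {X : Sys} (L : Ln ν U X) (A : Lab → Set X.X), (∀ l, MeasurableSet (A l)) → ∀ w,
    L.hat (fun z => (A z.1).indicator (fun _ => (1 : ℂ)) z.2) w =
      (L.hs A).indicator (fun _ => (1 : ℂ)) w
  hs_meas : ∀ {ν U} {X : Sys} (L : Ln ν U X) B (A : Lab → Set X.X), Fac X B →
    (∀ l, MeasurableSet[B] (A l)) → MeasurableSet[L.shp B] (L.hs A)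
  hs_lim : ∀ {ν U} {X : Sys} (L : Ln ν U X) (A : Lab → Set X.X), (∀ l, MeasurableSet (A l)) →
    Tendsto (fun M => ν.av2 M fun l => X.μ.real (A l)) U (𝓝 (L.W.μ.real (L.hs A)))
  hs_inter : ∀ {ν U} {X : Sys} (L : Ln ν U X) (A A' : Lab → Set X.X), (∀ l, MeasurableSet (A l)) →
    (∀ l, MeasurableSet (A' l)) → L.hs (fun l => A l ∩ A' l) = L.hs A ∩ L.hs A'
  hs_compl : ∀ {ν U} {X : Sys} (L : Ln ν U X) (A : Lab → Set X.X), (∀ l, MeasurableSet (A l)) →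
    L.hs (fun l => (A l)ᶜ) = (L.hs A)ᶜ
  hs_slot : ∀ {ν U} {X : Sys} (L : Ln ν U X) s (A : Set X.X), MeasurableSet A →
    L.hs (fun l => X.Tz (rho s l) ⁻¹' A) =ᵐ[L.W.μ] L.π s ⁻¹' A
  hs_T : ∀ {ν U} {X : Sys} (L : Ln ν U X) (n : ℤ) (A : Lab → Set X.X),
    (∀ l, MeasurableSet (A l)) → L.hs (fun l => X.Tz n ⁻¹' A l) = L.W.Tz n ⁻¹' L.hs A
  hs_lift : ∀ {ν U} {X' X : Sys} (L' : Ln ν U X') (L : Ln ν U X) p Lp (A : Lab → Set X.X),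
    Emb X' X p → IsLift L' L p Lp → (∀ l, MeasurableSet (A l)) →
    L'.hs (fun l => p ⁻¹' A l) =ᵐ[L'.W.μ] Lp ⁻¹' L.hs A
  satu : ∀ {ν U} {X : Sys} (L : Ln ν U X) B, (U : Filter ℕ) ≤ atTop → Fac X B →
    ∀ E : Set L.W.X, MeasurableSet[L.shp B] E →
    ∃ A : Lab → Set X.X, (∀ l, MeasurableSet[B] (A l)) ∧ E =ᵐ[L.W.μ] L.hs A

/-- commuting squares -/
structure LfD : Prop where
  cs : ∀ {ν U} {X' X : Sys} (L' : Ln ν U X') (L : Ln ν U X) p Lp s, Emb X' X p →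
    IsLift L' L p Lp → ∀ g g0, BM X'.μ X'.ms g → BM X.μ X.ms g0 →
    (fun x => g0 (p x)) =ᵐ[X'.μ] X'.μ[g | pull X'.μ p X.ms] →
    L'.W.μ[fun w => g (L'.π s w) | pull L'.W.μ Lp L.W.ms] =ᵐ[L'.W.μ] fun w => g0 (p (L'.π s w))
  cs' : ∀ {ν U} {X' X : Sys} (L' : Ln ν U X') (L : Ln ν U X) p Lp s, Emb X' X p →
    IsLift L' L p Lp → ∀ g g0, BM L.W.μ L.W.ms g → BM X.μ X.ms g0 →
    (fun w => g0 (L.π s w)) =ᵐ[L.W.μ] L.W.μ[g | L.P s] →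
    L'.W.μ[fun w => g (Lp w) | L'.P s] =ᵐ[L'.W.μ] fun w => g0 (p (L'.π s w))
  /-- a lift is independent of the internal base when the embedding is independent of the base -/
  base : ∀ {ν U} {X' X : Sys} (L' : Ln ν U X') (L : Ln ν U X) p Lp B B', Emb X' X p →
    IsLift L' L p Lp → Fac X B → Fac X' B' → pull X'.μ p B ≤ B' →
    CP (pull X'.μ p X.ms) (pull X'.μ p B) B' X'.μ →
    CP (pull L'.W.μ Lp L.W.ms) (pull L'.W.μ Lp (L.shp B)) (L'.shp B') L'.W.μ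
  /-- independence over the base passes to the lifts label by label -/
  cind : ∀ {ν U} {X' X : Sys} (L' : Ln ν U X') (L : Ln ν U X) {ι : Type} (p : ι → X'.X → X.X)
    (Lp : ι → L'.W.X → L.W.X) (S : Finset ι) B', (∀ i, Emb X' X (p i)) →
    (∀ i, IsLift L' L (p i) (Lp i)) → Fac X' B' →
    CInd B' (fun i => pull X'.μ (p i) X.ms) S X'.μ →
    CInd (L'.shp B') (fun i => pull L'.W.μ (Lp i) L.W.ms) S L'.W.μ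

/-! ### weak mixing and the hull -/

structure KfA : Prop where
  /-- in a relative square: orthogonality to all convolutions is weak mixing -/
  wm_iff : ∀ (X : Sys) C Z p, Fac X C → Pair X C Z p → ∀ f : X.X → ℂ, MemLp f 2 X.μ →
    (WM X C f ↔ ∀ (H : Z.X → ℂ) (g : X.X → ℂ), BM Z.μ (Inv Z) H → BM X.μ X.ms g →
      ∫ z, f (p false z) * H z * g (p true z) ∂Z.μ = 0)
  star : ∀ (X : Sys) C Z p, Fac X C → Pair X C Z p → ∀ (H : Z.X → ℂ) (g : X.X → ℂ),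
    BM Z.μ Z.ms H → BM X.μ X.ms g → ∃ k, BM X.μ X.ms k ∧ Star p H g k
  mul : ∀ (X : Sys) C Z p, Nice X → Fac X C → Pair X C Z p → ∀ (f : X.X → ℂ) (H : Z.X → ℂ)
    (g k : X.X → ℂ), WM X C f → BM Z.μ (Inv Z) H → BM X.μ X.ms g → BM X.μ X.ms k → Star p H g k →
    WM X C fun x => f x * k x
  weak : ∀ (X : Sys) C, Nice X → Fac X C → ∀ f, BM X.μ X.ms f → (∀ ε : ℝ, 0 < ε → ∃ᶠ N : ℕ in atTop,
    (N : ℝ)⁻¹ * ∑ n ∈ range N, ∫ x, ‖(X.μ[fun y => f (X.Tz n y) * conj (f y) | C]) x‖ ∂X.μ ≤ ε) →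
    WM X C f
  mult : ∀ (X : Sys) C, Nice X → Fac X C → ∀ f, WM X C f → ∀ (r : ℤ), r ≠ 0 →
    ∀ g, BM X.μ X.ms g → Tendsto (fun N : ℕ => (N : ℝ)⁻¹ * ∑ n ∈ range N,
      ∫ x, ‖(X.μ[fun y => f (X.Tz (r * n) y) * g y | C]) x‖ ∂X.μ) atTop (𝓝 0)

structure KfB : Prop where
  fac : ∀ (X : Sys) C, Nice X → Fac X C → Fac X (KK X C)
  le : ∀ (X : Sys) C, Nice X → Fac X C → C ≤ KK X C
  inv : ∀ (X : Sys) C, Nice X → Fac X C → Inv X ≤ KK X C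
  mono : ∀ (X : Sys) C C', Nice X → Fac X C → Fac X C' → C ≤ C' → KK X C ≤ KK X C'
  wm : ∀ (X : Sys) C, Nice X → Fac X C → ∀ f : X.X → ℂ, MemLp f 2 X.μ →
    (WM X C f ↔ X.μ[f | KK X C] =ᵐ[X.μ] 0)
  mem : ∀ (X : Sys) C, Nice X → Fac X C → ∀ g, BM X.μ X.ms g →
    (∀ f, WM X C f → ∫ x, f x * g x ∂X.μ = 0) → BM X.μ (KK X C) g
  span : ∀ (X : Sys) C Z p, Nice X → Fac X C → Pair X C Z p → ∀ k, BM X.μ (KK X C) k →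
    ∀ ε : ℝ, 0 < ε → ∃ (n : ℕ) (H : Fin n → Z.X → ℂ) (g k' : Fin n → X.X → ℂ),
      (∀ i, BM Z.μ (Inv Z) (H i) ∧ BM X.μ X.ms (g i) ∧ BM X.μ X.ms (k' i) ∧
        Star p (H i) (g i) (k' i)) ∧ ∫ x, ‖k x - ∑ i, k' i x‖ ^ 2 ∂X.μ ≤ ε
  /-- closure properties of weakly mixing functions -/
  lin : ∀ (X : Sys) C, Nice X → Fac X C → ∀ f : X.X → ℂ, MemLp f 2 X.μ →
    (∀ ε : ℝ, 0 < ε → ∃ (n : ℕ) (a : Fin n → X.X → ℂ), (∀ i, WM X C (a i)) ∧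
      ∫ x, ‖f x - ∑ i, a i x‖ ^ 2 ∂X.μ ≤ ε) → WM X C f

structure Hf : Prop where
  kc : ∀ (X : Sys) B, Nice X → Fac X B → KC X (hull X B)
  le : ∀ (X : Sys) B, B ≤ hull X B
  min : ∀ (X : Sys) B C, B ≤ C → KC X C → hull X B ≤ C
  mono : ∀ (X : Sys) B C, B ≤ C → hull X B ≤ hull X C
  ind : ∀ (X : Sys) B (Q : MeasurableSpace X.X → Prop), Nice X → Fac X B → Q B →
    (∀ C, Fac X C → B ≤ C → Q C → Q (KK X C)) →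
    (∀ 𝒞 : Set (MeasurableSpace X.X), 𝒞.Nonempty → IsChain (· ≤ ·) 𝒞 →
      (∀ C ∈ 𝒞, Fac X C ∧ B ≤ C ∧ Q C) → Q (sSup 𝒞)) → Q (hull X B)
  disj : ∀ (X : Sys) Y D C, Nice X → Fac X Y → Fac X D → Fac X C → D ≤ Y → D ≤ C → RWM X Y D →
    CP Y D C X.μ → CP Y D (hull X C) X.μ
  rwm : ∀ (X' X : Sys) p B, Nice X' → Nice X → Emb X' X p → KC X B →
    RWM X' (pull X'.μ p X.ms) (pull X'.μ p B)
  fn : ∀ (X' X : Sys) p B, Nice X' → Nice X → Emb X' X p → Fac X B →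
    pull X'.μ p (hull X B) ≤ hull X' (pull X'.μ p B)
  adm : ∀ (X' X : Sys) p B C, Nice X' → Nice X → Emb X' X p → KC X B → Fac X' C →
    pull X'.μ p B ≤ C → CP (pull X'.μ p X.ms) (pull X'.μ p B) C X'.μ → Adm X' (hull X' C) X B p
  trans : ∀ (X'' X' X : Sys) B'' B' B q p, Fac X B → Adm X'' B'' X' B' q → Adm X' B' X B p →
    Adm X'' B'' X B (p ∘ q)

/-- independent relatively weakly mixing extensions stay independent over the hull -/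
def ProdS : Prop := ∀ (Z : Sys) (ι : Type) (Y D : ι → MeasurableSpace Z.X) (S : Finset ι)
  (C : MeasurableSpace Z.X), Nice Z → Fac Z C → (∀ i, Fac Z (Y i)) → (∀ i, Fac Z (D i)) →
  (∀ i, D i ≤ Y i) → (∀ i ∈ S, D i ≤ C) → (∀ i, RWM Z (Y i) (D i)) →
  (∀ i ∈ S, CP (Y i) (D i) C Z.μ) → CInd C Y S Z.μ →
  CInd (hull Z C) Y S Z.μ ∧ CP (sup Y S ⊔ C) C (hull Z C) Z.μ ∧
    ∀ i ∈ S, CP (Y i) (D i) (hull Z C) Z.μ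

structure Bas : Prop where
  a : BasA
  t : BasT
  d : BasD
  c : BasC

/-- all foundations -/
structure Fd : Prop where
  a : BasA
  t : BasT
  d : BasD
  c : BasC
  met : MetS
  mix : MixS
  nice0 : Nice0S
  lim : LimS
  rp : RPS
  line : LineS
  la : LfA
  lb : LfB
  lc : LfC
  ld : LfD
  ka : KfA
  kb : KfB
  h : Hf
  prod : ProdS

def BasAS : Prop := BasA
def BasTS : Prop := BasA → BasT
def BasDS : Prop := BasA → BasD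
def BasCS : Prop := BasA → BasD → BasC
def MetR : Prop := Bas → MetS
def MixR : Prop := Bas → MetS → MixS
def RealR : Prop := Bas → RealS
def Nice0R : Prop := Bas → RealS → Nice0S
def LimR : Prop := Bas → RealS → LimS
def RPR : Prop := Bas → RealS → RPS
def LineR : Prop := Bas → RealS → LineS
def LfBR : Prop := Bas → LfB
def LfAR : Prop := Bas → LfB → LfA
def LfCR : Prop := Bas → LfB → LfC
def LfDR : Prop := Bas → LfA → LfB → LfD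
def KfAR : Prop := Bas → MetS → RPS → KfA
def KfBR : Prop := Bas → MetS → RPS → KfA → KfB
def HfR : Prop := Bas → KfA → KfB → Hf
def ProdR : Prop := Bas → KfA → KfB → Hf → ProdS

/-! ### tuples on a line over a base -/

structure Rc : Prop where
  meas : ∀ {Ω : Type} (β : MeasurableSpace Ω) {m0 : MeasurableSpace Ω} (μ : Measure Ω)
    (F : Ω → ℂ), MeasurableSet[β] (Th β μ F)
  eq : ∀ {Ω : Type} (β : MeasurableSpace Ω) {m0 : MeasurableSpace Ω} (μ : Measure Ω)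
    [IsProbabilityMeasure μ] (F : Ω → ℂ), β ≤ m0 → Um m0 μ F →
    ∀ᵐ x ∂μ, x ∈ Th β μ F → F x = (μ[F | β]) x
  of : ∀ {Ω : Type} (β : MeasurableSpace Ω) {m0 : MeasurableSpace Ω} (μ : Measure Ω)
    [IsProbabilityMeasure μ] (F k : Ω → ℂ) (E : Set Ω), β ≤ m0 → Um m0 μ F → BM μ β k →
    MeasurableSet[β] E → (∀ᵐ x ∂μ, x ∈ E → F x = k x) → E ≤ᵐ[μ] Th β μ F
  loc : ∀ {Ω : Type} (β : MeasurableSpace Ω) {m0 : MeasurableSpace Ω} (μ : Measure Ω)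
    [IsProbabilityMeasure μ] (F F' k : Ω → ℂ) (E : Set Ω), β ≤ m0 → BM μ m0 F → BM μ m0 F' →
    BM μ β k → MeasurableSet[β] E → (∀ᵐ x ∂μ, x ∈ E → F x = k x * F' x) →
    ∀ᵐ x ∂μ, x ∈ E → (μ[F | β]) x = k x * (μ[F' | β]) x
  mul : ∀ {Ω : Type} (β : MeasurableSpace Ω) {m0 : MeasurableSpace Ω} (μ : Measure Ω)
    [IsProbabilityMeasure μ] (F F' : Ω → ℂ), β ≤ m0 → Um m0 μ F → Um m0 μ F' →
    (Th β μ F ∩ Th β μ F' : Set Ω) ≤ᵐ[μ] Th β μ fun x => F x * F' x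
  cj : ∀ {Ω : Type} (β : MeasurableSpace Ω) {m0 : MeasurableSpace Ω} (μ : Measure Ω)
    [IsProbabilityMeasure μ] (F : Ω → ℂ), β ≤ m0 → Um m0 μ F →
    Th β μ (fun x => conj (F x)) =ᵐ[μ] Th β μ F
  uniq : ∀ {Ω ι : Type} (β : MeasurableSpace Ω) (p : ι → MeasurableSpace Ω) (S : Finset ι)
    {m0 : MeasurableSpace Ω} (μ : Measure Ω) [IsProbabilityMeasure μ] (φ : ι → Ω → ℂ), β ≤ m0 →
    (∀ i, p i ≤ m0) → CInd β p S μ → (∀ k ∈ S, Um (p k ⊔ β) μ (φ k)) →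
    ∀ k ∈ S, Th β μ (pr φ S) ≤ᵐ[μ] Th β μ (φ k)
  cm : ∀ {Ω ι : Type} [Fintype ι] [DecidableEq ι] (β : MeasurableSpace Ω)
    (p : ι → MeasurableSpace Ω) {m0 : MeasurableSpace Ω} (μ : Measure Ω) [IsProbabilityMeasure μ]
    (φ : ι → Ω → ℂ), β ≤ m0 → (∀ i, p i ≤ m0) → 3 ≤ Fintype.card ι → CLine β p μ →
    (∀ k, Um (p k ⊔ β) μ (φ k)) → ∀ q, ∀ᵐ x ∂μ, x ∈ Th β μ (pr φ univ) → (μ[φ q | β]) x ≠ 0 →
      ∀ k, x ∈ Th β μ (φ k)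

def SelS : Prop := ∀ {Ω ι : Type} [Fintype ι] [DecidableEq ι] (β : MeasurableSpace Ω)
  (p : ι → MeasurableSpace Ω) {m0 : MeasurableSpace Ω} (μ : Measure Ω) [IsProbabilityMeasure μ]
  (v : ℕ → ι → Ω → ℂ) (v0 : ι → Ω → ℂ) (η : ℝ), β ≤ m0 → (∀ i, p i ≤ m0) → 3 ≤ Fintype.card ι →
  CLine β p μ → (∀ i k, Lb (p k) μ (v i k)) → (∀ k, Lb (p k) μ (v0 k)) → 0 < η → η ≤ 1 / 100 →
  ∃ φ : ι → Ω → ℂ, (∀ k, Um (p k ⊔ β) μ (φ k)) ∧ ∀ᵐ x ∂μ, x ∈ DS β μ v v0 η →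
    x ∈ Th β μ (pr φ univ) ∧ ∀ k, ((μ[fun y => φ k y * conj (v0 k y) | β]) x).im = 0 ∧
      1 - η ≤ ((μ[fun y => φ k y * conj (v0 k y) | β]) x).re ∧
      (μ[fun y => ‖φ k y - v0 k y‖ ^ 2 | β]) x ≤ η ^ 2

/-- a tuple is approximated by labels on a part of positive measure -/
def ApxS : Prop := ∀ {Ω ι : Type} [Fintype ι] [DecidableEq ι] (β : MeasurableSpace Ω)
  (p : ι → MeasurableSpace Ω) {m0 : MeasurableSpace Ω} (μ : Measure Ω) [IsProbabilityMeasure μ]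
  (φ : ι → Ω → ℂ) (E : Set Ω) (η : ℝ), β ≤ m0 → (∀ i, p i ≤ m0) → (∀ k, Um (p k ⊔ β) μ (φ k)) →
  MeasurableSet[β] E → μ E ≠ 0 → E ≤ᵐ[μ] Th β μ (pr φ univ) → 0 < η →
  ∃ (v : ℕ → ι → Ω → ℂ) (v0 : ι → Ω → ℂ) (E' : Set Ω), (∀ i k, Lb (p k) μ (v i k)) ∧
    (∀ k, Lb (p k) μ (v0 k)) ∧ MeasurableSet[β] E' ∧ E' ⊆ E ∧ μ E' ≠ 0 ∧
    ∀ᵐ x ∂μ, x ∈ E' → x ∈ DS β μ v v0 η ∧ ∀ k, (μ[fun y => ‖φ k y - v0 k y‖ ^ 2 | β]) x ≤ η ^ 2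

def RcR : Prop := Bas → Rc
def SelR : Prop := Bas → Rc → SelS
def ApxR : Prop := Bas → Rc → ApxS

/-! ### from the global half grid to the fibres and back -/

def HMultS : Prop :=
  ∀ (Ω : Type) (m0 : MeasurableSpace Ω) (κ : Measure Ω) [IsProbabilityMeasure κ]
    (ι : Type) [Fintype ι] [DecidableEq ι] (G : ι → ι → MeasurableSpace Ω), HGrid κ G →
    3 ≤ Fintype.card ι → ∀ (q0 j0 q q' : ι), q ≠ q0 → q' ≠ q0 → ∀ ρ ρ' τ τ' : ι → Ω → ℂ,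
    (∀ k, BM κ (G k j0) (ρ k)) → (∀ k, BM κ (G k j0) (ρ' k)) → (∀ k, BM κ (G k j0) (τ k)) →
    (∀ k, BM κ (G k j0) (τ' k)) → ∀ c : Ω → ℂ, Fib27.Gd κ G q0 j0 c → BM κ (Orow G q0 j0) c →
    Fib27.Gd κ G q0 j0 (Fib27.CG κ G q0 j0 q ρ ρ' c) ∧
    BM κ (Orow G q0 j0) (Fib27.CG κ G q0 j0 q ρ ρ' c) ∧
    Fib27.CG κ G q0 j0 q ρ ρ' (Fib27.CG κ G q0 j0 q' τ τ' c) =ᵐ[κ]
      Fib27.CG κ G q0 j0 q' τ τ' (Fib27.CG κ G q0 j0 q ρ ρ' c)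

def FSpanS : Prop :=
  ∀ (Ω : Type) (m0 : MeasurableSpace Ω) (κ : Measure Ω) [IsProbabilityMeasure κ]
    (ι : Type) [Fintype ι] [DecidableEq ι] (G : ι → ι → MeasurableSpace Ω), HGrid κ G →
    3 ≤ Fintype.card ι → ∀ (q0 j0 : ι) (h : Ω → ℂ), Fib27.Gd κ G q0 j0 h →
    BM κ (Orow G q0 j0) h → ¬ h =ᵐ[κ] 0 →
    ∃ v, Mem κ (fun q => G q j0) q0 v ∧ ∫ x, h x * conj (v x) ∂κ ≠ 0

/-- a countable model of a half grid -/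
structure GM {Ω ι : Type} [Fintype ι] [DecidableEq ι] (β : MeasurableSpace Ω)
    (G : ι → ι → MeasurableSpace Ω) (q j : ι) {m0 : MeasurableSpace Ω} (μ : Measure Ω)
    (h : Ω → ℂ) (W : Ω → Cf ι) (Z : Ω → ℕ → ℝ) : Prop where
  mW : Measurable W
  mZ : Measurable Z
  Zle : MeasurableSpace.comap Z inferInstance ≤ β
  Wle : ∀ q j, (PC q j).comap W ≤ G q j
  mom : ∀ Φ ∈ Bdd (Cf ι), μ[fun x => Φ (W x) | β] =ᵐ[μ]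
    μ[fun x => Φ (W x) | MeasurableSpace.comap Z inferInstance]
  hg : HG (MeasurableSpace.comap Z inferInstance) (fun q j => (PC q j).comap W) μ
  vv : VV (MeasurableSpace.comap Z inferInstance) (fun q j => (PC q j).comap W) q j μ h

def GGaS : Prop := ∀ {Ω ι : Type} [Fintype ι] [DecidableEq ι] (β : MeasurableSpace Ω)
  (G : ι → ι → MeasurableSpace Ω) (q j : ι) {m0 : MeasurableSpace Ω} (μ : Measure Ω)
  [IsProbabilityMeasure μ] (h : Ω → ℂ), HG β G μ → VV β G q j μ h → ∃ W Z, GM β G q j μ h W Z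

def GGbS : Prop := ∀ {Ω ι : Type} [Fintype ι] [DecidableEq ι] {m0 : MeasurableSpace Ω}
  (μ : Measure Ω) [IsProbabilityMeasure μ] (W : Ω → Cf ι) (Z : Ω → ℕ → ℝ), Measurable W →
  Measurable Z → HG (MeasurableSpace.comap Z inferInstance) (fun q j => (PC q j).comap W) μ →
  ∀ᵐ z ∂μ.map Z, (∀ q j : ι, PC q j ≤ (inferInstance : MeasurableSpace (Cf ι))) ∧
    LInd (condDistrib W Z μ z) (fun q : ι => sup (PC q) univ) ∧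
    LInd (condDistrib W Z μ z) (fun j : ι => sup (fun q => PC q j) univ) ∧
    (∀ q j a, BM (condDistrib W Z μ z) (PC q j) a →
      BM (condDistrib W Z μ z) (PC q j) ((condDistrib W Z μ z)[a | Oc PC q j])) ∧
    ∀ q j a, BM (condDistrib W Z μ z) (PC q j) a →
      BM (condDistrib W Z μ z) (PC q j) ((condDistrib W Z μ z)[a | Orow PC q j])

def GGcS : Prop := ∀ {Ω ι : Type} [Fintype ι] [DecidableEq ι] {m0 : MeasurableSpace Ω}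
  (μ : Measure Ω) [IsProbabilityMeasure μ] (W : Ω → Cf ι) (Z : Ω → ℕ → ℝ), Measurable W →
  Measurable Z → HG (MeasurableSpace.comap Z inferInstance) (fun q j => (PC q j).comap W) μ →
  ∀ᵐ z ∂μ.map Z, ∀ (q : ι) (a : ι → Cf ι → ℂ), (∀ k, BM (condDistrib W Z μ z) (PC q k) (a k)) →
    ∀ j j', ∫ ω, ((condDistrib W Z μ z)[a j | Oc PC q j]) ω * pr a (univ.erase j) ω
        ∂condDistrib W Z μ z =
      ∫ ω, ((condDistrib W Z μ z)[a j' | Oc PC q j']) ω * pr a (univ.erase j') ω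
        ∂condDistrib W Z μ z

/-- the function `h` on the fibres -/
def GGdS : Prop := ∀ {Ω ι : Type} [Fintype ι] [DecidableEq ι] (q j : ι) {m0 : MeasurableSpace Ω}
  (μ : Measure Ω) [IsProbabilityMeasure μ] (W : Ω → Cf ι) (Z : Ω → ℕ → ℝ) (h : Ω → ℂ) (C : ℝ),
  Measurable W → Measurable Z → 0 ≤ C → (∀ᵐ x ∂μ, ‖h x‖ ≤ C) →
  VV (MeasurableSpace.comap Z inferInstance) (fun q j => (PC q j).comap W) q j μ h →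
  ∃ h' : (ℕ → ℝ) × Cf ι → ℂ, Measurable h' ∧ (∀ y, ‖h' y‖ ≤ C) ∧
    h =ᵐ[μ] (fun x => h' (Z x, W x)) ∧ ∀ᵐ z ∂μ.map Z,
      Fib27.Gd (condDistrib W Z μ z) PC q j (fun ω => h' (z, ω)) ∧
      BM (condDistrib W Z μ z) (Orow PC q j) fun ω => h' (z, ω)

/-- a countable family of labels that is dense for every measure -/
def LabS : Prop := ∀ (ι : Type) [Fintype ι] [DecidableEq ι] (j : ι),
  ∃ v : ℕ → ι → Cf ι → ℂ, (∀ i k, Measurable[PC k j] (v i k) ∧ ∀ ω, ‖v i k ω‖ ≤ 1) ∧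
    ∀ (κ : Measure (Cf ι)) [IsProbabilityMeasure κ] (χ : ι → Cf ι → ℂ),
      (∀ k, AEStronglyMeasurable[PC k j] (χ k) κ ∧ ∀ᵐ ω ∂κ, ‖χ k ω‖ ≤ 1) → ∀ ε : ℝ, 0 < ε →
      ∃ i, ∀ k, ∫ ω, ‖v i k ω - χ k ω‖ ^ 2 ∂κ ≤ ε

def GGS : Prop := ∀ {Ω ι : Type} [Fintype ι] [DecidableEq ι] (β : MeasurableSpace Ω)
  (G : ι → ι → MeasurableSpace Ω) (q j : ι) {m0 : MeasurableSpace Ω} (μ : Measure Ω)
  [IsProbabilityMeasure μ] (h : Ω → ℂ) (C : ℝ), HG β G μ → 3 ≤ Fintype.card ι → VV β G q j μ h →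
  0 ≤ C → (∀ᵐ x ∂μ, ‖h x‖ ≤ C) → ¬ h =ᵐ[μ] 0 →
  ∃ (v : ℕ → ι → Ω → ℂ) (v0 : ι → Ω → ℂ) (η : ℝ), (∀ i k, Lb (G k j) μ (v i k)) ∧
    (∀ k, Lb (G k j) μ (v0 k)) ∧ 0 < η ∧ η ≤ 1 / 100 ∧
    μ (DS β μ v v0 η ∩ {x | C * η < ‖(μ[fun y => h y * conj (v0 q y) | β]) x‖}) ≠ 0

/-- the properties of a half grid for functions with coefficients in the base -/
structure HGX {Ω ι : Type} [Fintype ι] [DecidableEq ι] (β : MeasurableSpace Ω)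
    (G : ι → ι → MeasurableSpace Ω) {m0 : MeasurableSpace Ω} (μ : Measure Ω) : Prop where
  f2c : ∀ q j a, BM μ (G q j ⊔ β) a → BM μ (G q j ⊔ β) (μ[a | Oc G q j ⊔ β])
  f2r : ∀ q j a, BM μ (G q j ⊔ β) a → BM μ (G q j ⊔ β) (μ[a | Orow G q j ⊔ β])
  f3 : ∀ (q : ι) (a : ι → Ω → ℂ), (∀ k, BM μ (G q k ⊔ β) (a k)) → ∀ j j',
    ∫ x, (μ[a j | Oc G q j ⊔ β]) x * pr a (univ.erase j) x ∂μ =
      ∫ x, (μ[a j' | Oc G q j' ⊔ β]) x * pr a (univ.erase j') x ∂μ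
  /-- the dual function of a slot, when another slot is determined by its column -/
  dual : ∀ (q i j : ι) (a : ι → Ω → ℂ), i ≠ j → (∀ k, BM μ (G q k ⊔ β) (a k)) →
    BM μ (Oc G q j ⊔ β) (a j) → VV β G q i μ (μ[pr a (univ.erase i) | G q i ⊔ β])

def HGXS : Prop := ∀ {Ω ι : Type} [Fintype ι] [DecidableEq ι] (β : MeasurableSpace Ω)
  (G : ι → ι → MeasurableSpace Ω) {m0 : MeasurableSpace Ω} (μ : Measure Ω)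
  [IsProbabilityMeasure μ], HG β G μ → HGX β G μ

def HGXR : Prop := Bas → HGXS
def FSpanR : Prop := HMultS → FSpanS
def GGaR : Prop := Bas → GGaS
def GGbR : Prop := Bas → GGbS
def GGcR : Prop := Bas → GGcS
def GGdR : Prop := Bas → GGdS
def GGR : Prop := Bas → FSpanS → GGaS → GGbS → GGcS → GGdS → LabS → GGS

/-! ### the induction step -/

def Ind2R : Prop := Fd → ∀ (ν : Wt) (U : Ultrafilter ℕ), (U : Filter ℕ) ≤ atTop → ERG ν → IND ν U 2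

/-- the energy grows under admissible extensions and failure of independence is inherited -/
structure SatA : Prop where
  ob : ∀ {ν U} {X' X : Sys} (L' : Ln ν U X') (L : Ln ν U X) B' B p Lp {ι : Type} [Fintype ι]
    [DecidableEq ι] (sl : ι → Slot) (q : ι), Fac X B → Fac X' B' → Emb X' X p →
    pull X'.μ p B ≤ B' →
    IsLift L' L p Lp → pull L'.W.μ Lp (L.OB B sl q) ≤ L'.OB B' sl q ∧
      pull L'.W.μ Lp (L.B2 B) ≤ L'.B2 B'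
  fail : ∀ {ν U} {X' X : Sys} (L' : Ln ν U X') (L : Ln ν U X) B' B p {ι : Type} [Fintype ι]
    (sl : ι → Slot), Nice X → KC X B → Adm X' B' X B p →
    IndOver L' B' (L'.shp B') sl univ → IndOver L B (L.shp B) sl univ
  /-- amalgamation of any family of admissible extensions -/
  amal : ∀ (X : Sys) B (κ : Type) (Y : κ → Sys) (D : ∀ k, MeasurableSpace (Y k).X)
    (p : ∀ k, (Y k).X → X.X), Nice X → KC X B → (∀ k, Adm (Y k) (D k) X B (p k)) →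
    ∃ (Z : Sys) (C : MeasurableSpace Z.X) (q : Z.X → X.X) (e : ∀ k, Z.X → (Y k).X),
      Adm Z C X B q ∧ ∀ k, Emb Z (Y k) (e k) ∧ pull Z.μ (e k) (D k) ≤ C ∧
        KEq Z.μ X.ms (p k ∘ e k) q
  lim : ∀ (X : ℕ → Sys) (B : ∀ k, MeasurableSpace (X k).X) (p : ∀ k, (X (k + 1)).X → (X k).X),
    Nice (X 0) → KC (X 0) (B 0) → (∀ k, Adm (X (k + 1)) (B (k + 1)) (X k) (B k) (p k)) →
    ∃ (Z : Sys) (C : MeasurableSpace Z.X) (e : ∀ k, Z.X → (X k).X),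
      (∀ k, Adm Z C (X k) (B k) (e k)) ∧ (∀ k, KEq Z.μ (X k).ms (p k ∘ e (k + 1)) (e k)) ∧
      Z.ms ≤ ⨆ k, pull Z.μ (e k) (X k).ms

def SatS : Prop := ∀ (ν : Wt) (U : Ultrafilter ℕ) (X : Sys) (B : MeasurableSpace X.X) (ι : Type)
  [Fintype ι] [DecidableEq ι] (sl : ι → Slot), Nice X → KC X B →
  ∃ (X' : Sys) (B' : MeasurableSpace X'.X) (p : X'.X → X.X) (L' : Ln ν U X'),
    Adm X' B' X B p ∧ SAT L' B' sl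

def SatAR : Prop := Fd → SatA
def SatR : Prop := Fd → SatA → SatS
def GIR : Prop := Fd → ∀ c : Ctx, c.GI
def F3R : Prop := Fd → ∀ c : Ctx, c.GI → c.Sat → c.F3
/-- two columns and one row -/
def R2P (c : Ctx) : Prop := ∀ (q j k : c.ι) (h Y u : c.W.X → ℂ), j ≠ k → BM c.W.μ c.W.ms h →
  BM c.W.μ c.W.ms Y → BM c.W.μ c.W.ms u → c.W.μ[h | c.P q ⊔ c.L.shp c.B] =ᵐ[c.W.μ] 0 →
  ∫ x, h (c.Bc j x) * Y (c.Bc k x) * u (c.A q x) ∂c.W2.μ = 0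
def R2PR : Prop := Fd → ∀ c : Ctx, c.GI → R2P c
def F2R : Prop := Fd → ∀ c : Ctx, c.GI → c.Sat → R2P c → c.F2
def HGR : Prop := Fd → HGXS → ∀ c : Ctx, c.GI → c.F2 → c.F3 → HG c.β c.G c.W2.μ ∧
  (c.Fail → ∃ (j : c.ι) (h : c.W2.X → ℂ), VV c.β c.G j j c.W2.μ h ∧ ¬ h =ᵐ[c.W2.μ] 0 ∧
    c.W2.μ[h | c.β] =ᵐ[c.W2.μ] 0)
def GSp1R : Prop := Fd → Rc → SelS → GGS → ∀ c : Ctx, c.GI → HG c.β c.G c.W2.μ → c.GSp c.Tup1
def FullR : Prop := Fd → Rc → HGXS → ∀ (c : Ctx) (C : (c.ι → c.W.X → ℂ) → Prop), c.GI →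
  HG c.β c.G c.W2.μ → (∀ φ, C φ → c.Tup1 φ) → c.GSp C → c.Full C
/-- a member of a column tuple that is also a member of a row tuple is a function of the point -/
def Rep (c : Ctx) : Prop := ∀ (j k : c.ι) (Φ : c.ι → c.ι → c.W.X → ℂ) (E : Set c.W2.X),
  (∀ i, c.Tup1 (Φ i)) → MeasurableSet[c.β] E → c.W2.μ E ≠ 0 → E ≤ᵐ[c.W2.μ] c.Bc j ⁻¹' c.Θ (Φ j) →
  E ≤ᵐ[c.W2.μ] (Th c.β c.W2.μ fun x => ∏ i, Φ i k (c.Bc i x)) →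
  ∃ (E' : Set c.W2.X) (g : Uni c.X.X), MeasurableSet[c.β] E' ∧ E' ⊆ E ∧ c.W2.μ E' ≠ 0 ∧
    E' ≤ᵐ[c.W2.μ] Th c.β c.W2.μ fun x => Φ j k (c.Bc j x) * conj (ufn g (c.π k (c.Bc j x)))
def RepR : Prop := Fd → Rc → SelS → ApxS → ∀ c : Ctx, c.GI → c.Full c.Tup1 → Rep c
def GSpUR : Prop := Fd → Rc → ∀ c : Ctx, c.GI → HG c.β c.G c.W2.μ → c.GSp c.Tup1 →
  c.Full c.Tup1 → Rep c → c.GSp c.TupU
def T5R : Prop := Fd → Rc → ∀ c : Ctx, c.GI → c.GSp c.TupU → c.Full c.TupU → c.CL ∧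
  ((∃ (j : c.ι) (h : c.W2.X → ℂ), VV c.β c.G j j c.W2.μ h ∧ ¬ h =ᵐ[c.W2.μ] 0 ∧
    c.W2.μ[h | c.β] =ᵐ[c.W2.μ] 0) → ∃ g, c.T5 g)

def ExhR : Prop := Fd → Rc → ∀ (c : Ctx) (g : c.ι → Uni c.X.X),
  ∃ (𝒱 : Subgroup (Uni c.X.X)) (s : 𝒱 ≃* 𝒱), c.Exh 𝒱 s ∧ ∀ k, g k ∈ 𝒱
def HatR : Prop := Fd → ∀ c : Ctx, c.GI → Nonempty c.Hat
def TyR : Prop := Fd → Rc → ∀ (c : Ctx) (H : c.Hat) 𝒱 s, c.CL → c.Exh 𝒱 s → H.Ty 𝒱
def PosR : Prop := Fd → Rc → ∀ (c : Ctx) (H : c.Hat) 𝒱 s (g : c.ι → Uni c.X.X), c.GI →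
  c.Exh 𝒱 s → H.Ty 𝒱 → (∀ k, g k ∈ 𝒱) → c.T5 g → ∃ j k, H.Pos 𝒱 g j k

/-- the functions `ψ` and what the line over the extension knows about them -/
def PsiR : Prop := Fd → Rc → ∀ (c : Ctx) (H : c.Hat) 𝒱 s (g0 : Uni c.X.X), c.GI → c.Exh 𝒱 s →
  g0 ∈ 𝒱 → ∃ (HH : 𝒱 → Set H.X1.X) (sg : AddAut (𝒱 →₀ ℤ)) (ψ : (𝒱 →₀ ℤ) → H.X1.X → ℂ),
    (∀ g x, x ∈ HH g ↔ (∃ a, H.τ 𝒱 g0 (H.p2 x) a) ∧
      ∀ a, H.τ 𝒱 g0 (H.p2 x) a → H.τ 𝒱 g.1 (H.p1 x) a) ∧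
    (∀ g, MeasurableSet[H.B1] (HH g)) ∧ Psi H.X1 H.B1 sg ψ ∧
    (∀ g x, x ∈ HH g → ψ (Finsupp.single g 1) x = ufn g.1 (H.p x)) ∧
    ∀ g x, x ∉ HH g → ψ (Finsupp.single g 1) x = 1

def BunR : Prop := Fd → Rc → SatA → PsiR → GIR → ∀ (c : Ctx) (H : c.Hat) 𝒱 s
  (g : c.ι → Uni c.X.X) (j k : c.ι), c.GI → c.Exh 𝒱 s → H.Ty 𝒱 → (∀ i, g i ∈ 𝒱) →
  H.Pos 𝒱 g j k → ∃ (c1 : Ctx) (V : Type) (_ : AddCommGroup V) (_ : Countable V) (sg : AddAut V)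
    (ψ : V → c1.X.X → ℂ), Psi c1.X c1.B sg ψ ∧ c1.Bun ψ

/-- the events of the algebraic step in the line -/
def Ctx.SV (c : Ctx) {V : Type} (ψ : V → c.X.X → ℂ) (i1 i2 : c.ι) (a a' : V) : Set c.W.X :=
  c.UU ψ ∩ ⋃ v ∈ {v : c.ι → V | v i1 = a ∧ v i2 = a'}, c.ΘV ψ v

/-- properties of the steps in the line and in the grid -/
structure Ctx.Stp (c : Ctx) {V : Type} [AddCommGroup V] (sg : AddAut V) (ψ : V → c.X.X → ℂ)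
    (i1 i2 : c.ι) : Prop where
  sub : ∀ a a' b b', (c.SV ψ i1 i2 a a' ∩ c.SV ψ i1 i2 b b' : Set c.W.X) ≤ᵐ[c.W.μ]
    c.SV ψ i1 i2 (a - b) (a' - b')
  zero : c.SV ψ i1 i2 0 0 =ᵐ[c.W.μ] c.UU ψ
  triv : ∀ a a', ∀ᵐ w ∂c.W.μ, w ∈ c.UU ψ → w ∉ c.Nt i1 (ψ a) → w ∉ c.Nt i2 (ψ a') →
    w ∈ c.SV ψ i1 i2 a a'
  ker : ∀ (v : c.ι → V) (j k : c.ι), ∀ᵐ w ∂c.W.μ, w ∈ c.ΘV ψ v →
    (w ∈ c.Nt j (ψ (v j)) ↔ w ∈ c.Nt k (ψ (v k)))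
  sh : ∀ a a', c.SV ψ i1 i2 (sg a) (sg a') =ᵐ[c.W.μ] c.W.T ⁻¹' c.SV ψ i1 i2 a a'
  flat : ∀ a b a' b', ∀ᵐ x ∂c.W2.μ, c.A i1 x ∈ c.SV ψ i1 i2 a b → c.A i2 x ∈ c.SV ψ i1 i2 a' b' →
    (c.Bc i1 x ∈ c.SV ψ i1 i2 a a' ↔ c.Bc i2 x ∈ c.SV ψ i1 i2 b b')

def StpR : Prop := Fd → Rc → ∀ (c : Ctx) (V : Type) [AddCommGroup V] [Countable V]
  (sg : AddAut V) (ψ : V → c.X.X → ℂ) (i1 i2 : c.ι), i1 ≠ i2 → c.GI → Psi c.X c.B sg ψ →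
  c.Stp sg ψ i1 i2

/-- the algebraic step -/
def AlgS : Prop := ∀ (ν : Wt) (U : Ultrafilter ℕ) (X : Sys) (V : Type) [AddCommGroup V]
  [Countable V] (sg : AddAut V) (N : V → Set X.X) (Sg : Lab → V → V → Set X.X) (ι : Type)
  [Fintype ι] (sl : ι → Slot) (i1 i2 : ι) (n : Lab → ℤ) (v0 : ι → V),
  ¬ AlgD ν U X sg N Sg sl i1 i2 n v0

/-- exact relations and decay at the finite level -/
def RelR : Prop := Fd → Rc → ∀ (c : Ctx) (V : Type) [AddCommGroup V] [Countable V]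
  (sg : AddAut V) (ψ : V → c.X.X → ℂ), Psi c.X c.B sg ψ →
  (∀ v : c.ι → V, Th (c.L.shp c.B) c.W.μ (c.FF ψ v) =ᵐ[c.W.μ]
    c.L.hs fun l => Th c.B c.X.μ (ψ (∑ k, (rho (c.sl k) l • sg) (v k)))) ∧
  (∀ᵐ x ∂c.X.μ, x ∈ Th c.B c.X.μ (ψ 0)) ∧
  (∀ v v', ∀ᵐ x ∂c.X.μ, x ∈ Th c.B c.X.μ (ψ v) → x ∈ Th c.B c.X.μ (ψ v') →
    x ∈ Th c.B c.X.μ (ψ (v - v'))) ∧
  (∀ (n : ℤ) v, ∀ᵐ x ∂c.X.μ,
    x ∈ Th c.B c.X.μ (ψ ((n • sg) v)) ↔ c.X.Tz n x ∈ Th c.B c.X.μ (ψ v)) ∧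
  ∀ a a', Nl c.ν c.U c.X fun l =>
    Th c.B c.X.μ (ψ (((l.2.1 - l.2.2) • sg) a - a')) \ Th c.B c.X.μ (ψ a')

def OnhR : Prop := Fd → Rc → RelR → ∀ (c : Ctx) (V : Type) [AddCommGroup V] [Countable V]
  (sg : AddAut V) (ψ : V → c.X.X → ℂ), Psi c.X c.B sg ψ → c.ONH ψ ∧ c.HI ψ

def AlgIR : Prop := Fd → Rc → StpR → RelR → AlgS → ∀ (c : Ctx) (V : Type) [AddCommGroup V]
  [Countable V] (sg : AddAut V) (ψ : V → c.X.X → ℂ), c.GI → Psi c.X c.B sg ψ → c.ONH ψ → c.HI ψ →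
  ¬ c.Bun ψ

/-- no saturated context fails -/
def StepS : Prop := ∀ c : Ctx, c.Sat → ¬ c.Fail

def IndS : Prop := ∀ (ν : Wt) (U : Ultrafilter ℕ), (U : Filter ℕ) ≤ atTop → ERG ν → ∀ n, IND ν U n

def IndR : Prop := Fd → Ind2R → SatA → SatS → StepS → IndS

/-! ### good factors -/

/-- goodness may be tested on a family with dense span; it passes to joins of chains -/
structure Gf : Prop where
  dense : ∀ (ν ν' : Wt) (X : Sys) (ι : Type) [Fintype ι] [DecidableEq ι] (r : ι → ℤ) C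
    (T : Set (X.X → ℂ)), Fac X C → (∀ φ ∈ T, BM X.μ X.ms φ) →
    (∀ g, BM X.μ C g → ∀ ε : ℝ, 0 < ε → ∃ (n : ℕ) (a : Fin n → X.X → ℂ), (∀ i, a i ∈ T) ∧
      ∫ x, ‖g x - ∑ i, a i x‖ ^ 2 ∂X.μ ≤ ε) →
    (∀ f : ι → X.X → ℂ, (∀ i, f i ∈ T) → Tendsto
      (fun M => ∫ x, ‖avg ν M X r f x - avg ν' M X r f x‖ ^ 2 ∂X.μ) atTop (𝓝 0)) → Good ν ν' X r C
  chain : ∀ (ν ν' : Wt) (X : Sys) (ι : Type) [Fintype ι] [DecidableEq ι] (r : ι → ℤ)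
    (𝒞 : Set (MeasurableSpace X.X)), 𝒞.Nonempty → IsChain (· ≤ ·) 𝒞 →
    (∀ C ∈ 𝒞, Fac X C ∧ Good ν ν' X r C) → Good ν ν' X r (sSup 𝒞)
  down : ∀ (ν ν' : Wt) (X X' : Sys) e (ι : Type) [Fintype ι] [DecidableEq ι] (r : ι → ℤ),
    Emb X X' e → (∀ f ∈ Bdd X.X, ∃ f' ∈ Bdd X'.X, ∀ x, f' (e x) = f x) →
    Good ν ν' X' r X'.ms → Good ν ν' X r X.ms

/-- averages of convolutions vanish when one function is orthogonal to the good factor -/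
def CptA : Prop := ∀ (ν' ν'' : Wt) (X : Sys) (ι : Type) [Fintype ι] [DecidableEq ι] (r : ι → ℤ)
  B0 C Z p, Nice X → Fac X B0 → Fac X C → B0 ≤ C → Pair X C Z p → Good ν'' ν' X r C →
  G0 ν' X r B0 → ∀ (H : ι → Z.X → ℂ) (g k : ι → X.X → ℂ) (i0 : ι),
  (∀ i, BM Z.μ (Inv Z) (H i) ∧ BM X.μ X.ms (g i) ∧ BM X.μ X.ms (k i) ∧ Star p (H i) (g i) (k i)) →
  X.μ[g i0 | C] =ᵐ[X.μ] 0 → Tendsto (fun M => ∫ x, ‖avg ν'' M X r k x‖ ^ 2 ∂X.μ) atTop (𝓝 0)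

def CptS : Prop := ∀ (ν ν' : Wt) (X : Sys) (ι : Type) [Fintype ι] [DecidableEq ι] (r : ι → ℤ)
  B0 C, Nice X → Fac X B0 → Fac X C → B0 ≤ C → Inv X ≤ C → Good ν ν' X r C → G0 ν' X r B0 →
  Good ν ν' X r (KK X C)

def TopS : Prop := ∀ (ν ν' : Wt) (X : Sys) (ι : Type) [Fintype ι] [DecidableEq ι] (r : ι → ℤ) C,
  ERG ν → ERG ν' → Injective r → (∀ i, r i ≠ 0) → Nice X → KC X C → Good ν ν' X r C →
  Good ν ν' X r X.ms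

def DET : Prop := ∀ (ν ν' : Wt) (ι : Type) [Fintype ι] [DecidableEq ι] (r : ι → ℤ),
  ERG ν → ERG ν' → Injective r → (∀ i, r i ≠ 0) → HasB0 ν ν' r → ∀ X : Sys, Good ν ν' X r X.ms

def DETW : Prop := ∀ (ν ν' : Wt) (ι : Type) [Fintype ι] [DecidableEq ι] (r : ι → ℤ),
  ERG ν → ERG ν' → Injective r → (∀ i, r i ≠ 0) → ∀ X : Sys,
  Ergodic (Prod.map X.T X.T) (X.μ.prod X.μ) → Good ν ν' X r X.ms

def GfR : Prop := Bas → Gf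
def CptAR : Prop := Fd → CptA
def CptR : Prop := Fd → Gf → CptA → CptS
def TopR : Prop := Fd → Gf → IndS → TopS
def DetR : Prop := Fd → Gf → CptS → TopS → DET ∧ DETW

end T3x

end
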