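import Pool.Agent.MP_154433_an.t3.Spec

/-! Row `Apx`: a tuple is approximated by countably many labels. -/

set_option autoImplicit false
set_option linter.unusedVariables false

open MeasureTheory ProbabilityTheory Filter Topology Function Finset ComplexConjugate
open scoped BigOperators
open Fib27 (BM sup pr)

noncomputable section

namespace T3x

namespace ApxL

variable {Ω : Type} {β p m0 : MeasurableSpace Ω} {μ : Measure Ω}

lemma lin [IsProbabilityMeasure μ] (hβ : β ≤ m0) {ι : Type} (s : Finset ι) {Z : Set Ω}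
    (hZ : MeasurableSet[β] Z) {f : Ω → ℝ} {g : ι → Ω → ℝ} (a c : ℝ) (hf : Integrable f μ)
    (hg : ∀ i, Integrable (g i) μ) (h : ∀ᵐ x ∂μ, x ∈ Z → f x ≤ c + a * ∑ i ∈ s, g i x) :
    ∀ᵐ x ∂μ, x ∈ Z → (μ[f | β]) x ≤ c + a * ∑ i ∈ s, (μ[g i | β]) x := by
  have hS : Integrable (∑ i ∈ s, g i) μ := integrable_finsetSum' _ fun i _ => hg i
  have hG : Integrable ((fun _ => c) + a • ∑ i ∈ s, g i) μ :=
    (integrable_const c).add (hS.smul a)
  have h1 := condExp_mono (m := β) (hf.indicator (hβ _ hZ)) (hG.indicator (hβ _ hZ)) (by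
    filter_upwards [h] with x hx
    by_cases hz : x ∈ Z
    · simpa [hz, Finset.sum_apply] using hx hz
    · simp [hz])
  filter_upwards [h1, condExp_indicator hf hZ, condExp_indicator hG hZ,
    condExp_add (integrable_const c) (hS.smul a) β, condExp_smul a (∑ i ∈ s, g i) β,
    condExp_finsetSum (s := s) (fun i _ => hg i) β] with x h1 h2 h3 h4 h5 h6 hz
  rw [h2, h3, Set.indicator_of_mem hz, Set.indicator_of_mem hz, h4, Pi.add_apply, h5,
    Pi.smul_apply, h6, condExp_const hβ, Finset.sum_apply, smul_eq_mul] at h1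
  exact h1

lemma isq {f g : Ω → ℂ} (hf : MemLp f 2 μ) (hg : MemLp g 2 μ) :
    Integrable (fun x => ‖f x - g x‖ ^ 2) μ :=
  (hf.sub hg).integrable_norm_pow two_ne_zero

lemma lb2 [IsProbabilityMeasure μ] (hp : p ≤ m0) {v : Ω → ℂ} (hv : Lb p μ v) : MemLp v 2 μ :=
  MemLp.of_bound (hv.1.mono hp) 1 (ae_of_all _ hv.2)

lemma um2 [IsProbabilityMeasure μ] (hp : p ≤ m0) {v : Ω → ℂ} (hv : Um p μ v) : MemLp v 2 μ :=
  MemLp.of_bound (hv.1.mono hp) 1 (hv.2.mono fun _ h => h.le)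

lemma tri (a b c : ℂ) : ‖a - c‖ ^ 2 ≤ 2 * ‖a - b‖ ^ 2 + 2 * ‖b - c‖ ^ 2 := by
  have h := norm_sub_le_norm_sub_add_norm_sub a b c
  have h2 := pow_le_pow_left₀ (norm_nonneg _) h 2
  nlinarith [sq_nonneg (‖a - b‖ - ‖b - c‖)]

def clip (w : ℂ) : ℂ := w / ((max 1 ‖w‖ : ℝ) : ℂ)

lemma clip_cont : Continuous clip :=
  continuous_id.div (Complex.continuous_ofReal.comp (continuous_const.max continuous_norm))
    fun w => by
      have : (0 : ℝ) < max 1 ‖w‖ := lt_of_lt_of_le one_pos (le_max_left _ _)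
      exact_mod_cast this.ne'

lemma clip_le (w : ℂ) : ‖clip w‖ ≤ 1 := by
  have h : (0 : ℝ) < max 1 ‖w‖ := lt_of_lt_of_le one_pos (le_max_left _ _)
  rw [clip, norm_div, Complex.norm_real, Real.norm_eq_abs, abs_of_pos h, div_le_one h]
  exact le_max_right _ _

lemma clip_sub {z : ℂ} (hz : ‖z‖ = 1) (w : ℂ) : ‖z - clip w‖ ≤ 2 * ‖z - w‖ := by
  rcases le_total ‖w‖ 1 with h | h
  · rw [clip, max_eq_left h]; simp only [Complex.ofReal_one, div_one]
    linarith [norm_nonneg (z - w)]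
  · have h0 : (0 : ℝ) < ‖w‖ := lt_of_lt_of_le one_pos h
    have h1 : w - clip w = w * (((‖w‖ - 1) / ‖w‖ : ℝ) : ℂ) := by
      have : (‖w‖ : ℂ) ≠ 0 := by exact_mod_cast h0.ne'
      rw [clip, max_eq_right h]; push_cast; field_simp
    have h2 : ‖w - clip w‖ = ‖w‖ - 1 := by
      rw [h1, norm_mul, Complex.norm_real, Real.norm_eq_abs,
        abs_of_nonneg (div_nonneg (by linarith) h0.le)]
      field_simp
    have h3 := norm_sub_le_norm_sub_add_norm_sub z w (clip w)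
    have h4 := norm_sub_norm_le w z
    rw [norm_sub_rev] at h4
    linarith

lemma one [IsProbabilityMeasure μ] (hβ : β ≤ m0) (hp : p ≤ m0) {φ : Ω → ℂ} (hφ : Um m0 μ φ)
    {n : ℕ} {a b : Fin n → Ω → ℂ} (ha : ∀ i, BM μ p (a i)) (hb : ∀ i, BM μ β (b i))
    {θ : ℝ} (hθ : 0 < θ) :
    ∃ u : ℕ → Ω → ℂ, (∀ j, Lb p μ (u j)) ∧ ∀ᵐ x ∂μ, ∃ j,
      (μ[fun y => ‖φ y - u j y‖ ^ 2 | β]) x ≤
        8 * θ ^ 2 + 8 * (μ[fun y => ‖φ y - ∑ i, a i y * b i y‖ ^ 2 | β]) x := by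
  choose C hC using fun i => (ha i).2
  choose D hD using fun i => (hb i).2
  set S : ℝ := ∑ i, |C i| + 1 with hS
  have S0 : 0 < S := by positivity
  set c : ℕ → Fin n → ℂ := TopologicalSpace.denseSeq (Fin n → ℂ) with hc
  set b' : Fin n → Ω → ℂ := fun i => (hb i).1.mk (b i) with hb'
  have hs : ∀ j (s : Finset (Fin n)),
      AEStronglyMeasurable[p] (fun y => ∑ i ∈ s, a i y * c j i) μ := fun j s => by
    induction s using Finset.induction_on with
    | empty => simpa using aestronglyMeasurable_const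
    | insert i s hi ih =>
      simp only [sum_insert hi]
      exact ((ha i).1.mul aestronglyMeasurable_const).add ih
  have hu : ∀ j, Lb p μ fun y => clip (∑ i, a i y * c j i) := fun j =>
    ⟨clip_cont.comp_aestronglyMeasurable (hs j univ), fun _ => clip_le _⟩
  refine ⟨_, hu, ?_⟩
  have ψ2 : MemLp (fun y => ∑ i, a i y * b i y) 2 μ := memLp_finsetSum _ fun i _ =>
    MemLp.of_bound (((ha i).1.mono hp).mul ((hb i).1.mono hβ)) (|C i| * |D i|) (by
      filter_upwards [hC i, hD i] with x h1 h2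
      rw [norm_mul]
      exact mul_le_mul (h1.trans (le_abs_self _)) (h2.trans (le_abs_self _)) (norm_nonneg _)
        (abs_nonneg _))
  have hj : ∀ j, ∀ᵐ x ∂μ, x ∈ (⋂ i, {x | ‖b' i x - c j i‖ ≤ θ / S}) →
      (μ[fun y => ‖φ y - clip (∑ i, a i y * c j i)‖ ^ 2 | β]) x ≤
        8 * θ ^ 2 + 8 * ∑ _k ∈ ({()} : Finset Unit),
          (μ[fun y => ‖φ y - ∑ i, a i y * b i y‖ ^ 2 | β]) x := by
    intro j
    refine lin hβ _ (MeasurableSet.iInter fun i => ?_) 8 _ (isq (um2 le_rfl hφ) (lb2 hp (hu j)))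
      (fun _ => isq (um2 le_rfl hφ) ψ2) ?_
    · exact @measurableSet_le ℝ Ω _ _ _ β _ _ _ _ _
        ((hb i).1.stronglyMeasurable_mk.sub stronglyMeasurable_const).norm.measurable
        measurable_const
    · filter_upwards [hφ.2, ae_all_iff.2 hC, ae_all_iff.2 fun i => (hb i).1.ae_eq_mk]
        with x h1 h2 h3 hz
      rw [Set.mem_iInter] at hz
      have h4 : ‖∑ i, a i x * b i x - ∑ i, a i x * c j i‖ ≤ θ := by
        rw [← sum_sub_distrib]
        refine (norm_sum_le _ _).trans ?_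
        have h5 : ∀ i, ‖a i x * b i x - a i x * c j i‖ ≤ |C i| * (θ / S) := fun i => by
          rw [← mul_sub, norm_mul, h3 i]
          exact mul_le_mul ((h2 i).trans (le_abs_self _)) (hz i) (norm_nonneg _) (abs_nonneg _)
        refine (sum_le_sum fun i _ => h5 i).trans ?_
        rw [← sum_mul, ← mul_div_assoc, div_le_iff₀ S0, hS]
        nlinarith
      have h6 := pow_le_pow_left₀ (norm_nonneg _) (clip_sub h1 (∑ i, a i x * c j i)) 2
      have h7 := tri (φ x) (∑ i, a i x * b i x) (∑ i, a i x * c j i)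
      have h8 := pow_le_pow_left₀ (norm_nonneg _) h4 2
      rw [sum_singleton]
      nlinarith
  filter_upwards [ae_all_iff.2 hj] with x hx
  obtain ⟨j, hj⟩ := (TopologicalSpace.denseRange_denseSeq (Fin n → ℂ)).exists_dist_lt
    (fun i => b' i x) (div_pos hθ S0)
  refine ⟨j, ?_⟩
  have h := hx j (Set.mem_iInter.2 fun i => by
    have h1 := (dist_le_pi_dist (fun i => b' i x) (c j) i).trans hj.le
    rwa [dist_eq_norm] at h1)
  rwa [sum_singleton] at h

lemma slot (bs : Bas) [IsProbabilityMeasure μ] (hβ : β ≤ m0) (hp : p ≤ m0) {φ : Ω → ℂ}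
    (hφ : Um (p ⊔ β) μ φ) {θ : ℝ} (hθ : 0 < θ) :
    ∃ u : ℕ → Ω → ℂ, (∀ j, Lb p μ (u j)) ∧ ∀ᵐ x ∂μ, ∃ j,
      (μ[fun y => ‖φ y - u j y‖ ^ 2 | β]) x ≤ θ ^ 2 := by
  have h0 : Um m0 μ φ := ⟨hφ.1.mono (sup_le hp hβ), hφ.2⟩
  choose n a b ha hb hab using fun m : ℕ =>
    bs.d.apx2 p β μ hp hβ φ (um2 le_rfl h0) hφ.1 (1 / ((m : ℝ) + 1)) Nat.one_div_pos_of_nat
  choose u hu hle using fun m : ℕ => one hβ hp h0 (ha m) (hb m) (θ := θ / 4) (by positivity)
  refine ⟨fun j => u j.unpair.1 j.unpair.2, fun j => hu _ _, ?_⟩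
  set R : ℕ → Ω → ℝ := fun m => μ[fun y => ‖φ y - ∑ i, a m i y * b m i y‖ ^ 2 | β] with hR
  have hN : μ {x | ¬ ∃ m, R m x ≤ θ ^ 2 / 16} = 0 := by
    rw [← measureReal_eq_zero_iff]
    refine le_antisymm ?_ measureReal_nonneg
    have t0 : 0 < θ ^ 2 / 16 := by positivity
    refine le_of_mul_le_mul_left ?_ t0
    rw [mul_zero]
    refine ge_of_tendsto' tendsto_one_div_add_atTop_nhds_zero_nat fun m => ?_
    have h1 := mul_meas_ge_le_integral_of_nonneg (f := R m)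
      (condExp_nonneg (ae_of_all _ fun y => sq_nonneg _)) integrable_condExp (θ ^ 2 / 16)
    rw [integral_condExp hβ] at h1
    refine le_trans (mul_le_mul_of_nonneg_left (measureReal_mono fun x hx => ?_) t0.le)
      (h1.trans (hab m))
    exact (not_le.1 fun h => hx ⟨m, h⟩).le
  filter_upwards [ae_iff.2 hN, ae_all_iff.2 hle] with x ⟨m, hm⟩ hx
  obtain ⟨j, hj⟩ := hx m
  refine ⟨Nat.pair m j, ?_⟩
  simp only [Nat.unpair_pair]
  have h2 : (μ[fun y => ‖φ y - ∑ i, a m i y * b m i y‖ ^ 2 | β]) x ≤ θ ^ 2 / 16 := hm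
  nlinarith

lemma prod_sub {ι : Type} (s : Finset ι) (a b : ι → ℂ) (ha : ∀ i, ‖a i‖ ≤ 1)
    (hb : ∀ i, ‖b i‖ ≤ 1) : ‖∏ i ∈ s, a i - ∏ i ∈ s, b i‖ ≤ ∑ i ∈ s, ‖a i - b i‖ := by
  classical
  induction s using Finset.induction_on with
  | empty => simp
  | insert i s hi ih =>
    rw [prod_insert hi, prod_insert hi, sum_insert hi]
    have h1 : a i * ∏ j ∈ s, a j - b i * ∏ j ∈ s, b j =
        (a i - b i) * ∏ j ∈ s, b j + a i * (∏ j ∈ s, a j - ∏ j ∈ s, b j) := by ring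
    have h2 : ‖∏ j ∈ s, b j‖ ≤ 1 := by
      rw [norm_prod]; exact prod_le_one (fun _ _ => norm_nonneg _) fun j _ => hb j
    rw [h1]
    refine (norm_add_le _ _).trans (add_le_add ?_ ?_)
    · rw [norm_mul]; exact mul_le_of_le_one_right (norm_nonneg _) h2
    · rw [norm_mul]; exact (mul_le_of_le_one_left (norm_nonneg _) (ha i)).trans ih

lemma prd [IsProbabilityMeasure μ] (hβ : β ≤ m0) {ι : Type} [Fintype ι] {φ v : ι → Ω → ℂ}
    (hφ : ∀ k, Um m0 μ (φ k)) (hv : ∀ k, Lb m0 μ (v k)) {t : ℝ} (ht : 0 < t) :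
    ∀ᵐ x ∂μ, (∀ k, (μ[fun y => ‖φ k y - v k y‖ ^ 2 | β]) x ≤ t ^ 2) →
      ‖(μ[pr φ univ | β]) x‖ - Fintype.card ι * t ≤ ‖(μ[pr v univ | β]) x‖ := by
  have ip : ∀ w : ι → Ω → ℂ, (∀ k, AEStronglyMeasurable (w k) μ) →
      (∀ k, ∀ᵐ x ∂μ, ‖w k x‖ ≤ 1) → Integrable (pr w univ) μ := fun w h1 h2 =>
    Integrable.of_bound (Finset.aestronglyMeasurable_fun_prod _ fun k _ => h1 k) 1 (by
      filter_upwards [ae_all_iff.2 h2] with x hx
      rw [pr, norm_prod]; exact prod_le_one (fun _ _ => norm_nonneg _) fun j _ => hx j)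
  have i1 := ip φ (fun k => (hφ k).1) fun k => (hφ k).2.mono fun _ h => h.le
  have i2 := ip v (fun k => (hv k).1) fun k => ae_of_all _ (hv k).2
  have h := lin hβ (univ : Finset ι) (Z := Set.univ) MeasurableSet.univ
    (f := fun x => ‖(pr φ univ - pr v univ) x‖) (g := fun k y => ‖φ k y - v k y‖ ^ 2) (1 / (2 * t))
    (Fintype.card ι * (t / 2)) (i1.sub i2).norm
    (fun k => isq (um2 le_rfl (hφ k)) (lb2 le_rfl (hv k))) (by
      filter_upwards [ae_all_iff.2 fun k => (hφ k).2] with x hx _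
      refine (prod_sub univ _ _ (fun k => (hx k).le) fun k => (hv k).2 x).trans ?_
      rw [mul_sum, ← card_univ, ← nsmul_eq_mul, ← sum_const, ← sum_add_distrib]
      refine sum_le_sum fun k _ => ?_
      have h1 : t / 2 + 1 / (2 * t) * ‖φ k x - v k x‖ ^ 2 - ‖φ k x - v k x‖ =
          (‖φ k x - v k x‖ - t) ^ 2 / (2 * t) := by field_simp; ring
      have h2 : 0 ≤ (‖φ k x - v k x‖ - t) ^ 2 / (2 * t) := by positivity
      linarith)
  filter_upwards [h, norm_condExp_le (μ := μ) (m := β) (pr φ univ - pr v univ),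
    condExp_sub i1 i2 β] with x h1 h2 h3 hk
  have h4 := h2.trans (h1 (Set.mem_univ _))
  rw [h3, Pi.sub_apply] at h4
  have h5 : ∑ k, (μ[fun y => ‖φ k y - v k y‖ ^ 2 | β]) x ≤ Fintype.card ι * t ^ 2 := by
    rw [← card_univ, ← nsmul_eq_mul, ← sum_const]; exact sum_le_sum fun k _ => hk k
  have h6 : 1 / (2 * t) * (Fintype.card ι * t ^ 2) = Fintype.card ι * (t / 2) := by field_simp
  have h7 := mul_le_mul_of_nonneg_left h5 (by positivity : (0 : ℝ) ≤ 1 / (2 * t))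
  have h8 := norm_sub_norm_le ((μ[pr φ univ | β]) x) ((μ[pr v univ | β]) x)
  linarith

lemma tr2 [IsProbabilityMeasure μ] (hβ : β ≤ m0) {φ v w : Ω → ℂ} (hφ : MemLp φ 2 μ)
    (hv : MemLp v 2 μ) (hw : MemLp w 2 μ) :
    ∀ᵐ x ∂μ, (μ[fun y => ‖v y - w y‖ ^ 2 | β]) x ≤
      2 * ((μ[fun y => ‖φ y - v y‖ ^ 2 | β]) x + (μ[fun y => ‖φ y - w y‖ ^ 2 | β]) x) := by
  have h := lin hβ (univ : Finset Bool) (Z := Set.univ) MeasurableSet.univ
    (f := fun y => ‖v y - w y‖ ^ 2) (g := fun i y => ‖φ y - (bif i then v else w) y‖ ^ 2) 2 0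
    (isq hv hw) (fun i => by cases i; exacts [isq hφ hw, isq hφ hv]) (ae_of_all _ fun x _ => by
      have h1 := tri (v x) (φ x) (w x)
      rw [norm_sub_rev (v x) (φ x)] at h1
      simp only [Fintype.sum_bool, cond_true, cond_false]
      linarith)
  filter_upwards [h] with x hx
  simpa only [Fintype.sum_bool, cond_true, cond_false, zero_add] using hx (Set.mem_univ _)

end ApxL

open ApxL

theorem apx : ApxR := by
  intro bs _ Ω ι _ _ β p m0 μ _ φ E η hβ hp hφ hE hE0 hTh hη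
  have h0 : ∀ k, Um m0 μ (φ k) := fun k => ⟨(hφ k).1.mono (sup_le (hp k) hβ), (hφ k).2⟩
  set t : ℕ → ℝ := fun n => min (η / 2) ((1 / 4 : ℝ) ^ n / (Fintype.card ι + 1)) with ht
  have t0 : ∀ n, 0 < t n := fun n => lt_min (by positivity) (by positivity)
  choose u hu hle using fun (n : ℕ) (k : ι) => slot bs hβ (hp k) (hφ k) (t0 n)
  have um : ∀ n k j, Lb m0 μ (u n k j) := fun n k j => ⟨(hu n k j).1.mono (hp k), (hu n k j).2⟩
  obtain ⟨e, he⟩ := exists_surjective_nat (ℕ × (ι → ℕ))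
  set Z : (ι → ℕ) → Set Ω := fun c =>
    ⋂ k, {x | (μ[fun y => ‖φ k y - u 0 k (c k) y‖ ^ 2 | β]) x ≤ t 0 ^ 2} with hZ
  have mZ : ∀ c, MeasurableSet[β] (Z c) := fun c => MeasurableSet.iInter fun k =>
    @measurableSet_le ℝ Ω _ _ _ β _ _ _ _ _ stronglyMeasurable_condExp.measurable measurable_const
  obtain ⟨c, hc⟩ : ∃ c, μ (E ∩ Z c) ≠ 0 := by
    by_contra hn
    push Not at hn
    refine hE0 (measure_mono_null_ae ?_ (measure_iUnion_null hn))
    filter_upwards [ae_all_iff.2 (hle 0)] with x hx hxE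
    choose c hc using hx
    exact Set.mem_iUnion.2 ⟨c, hxE, Set.mem_iInter.2 hc⟩
  refine ⟨fun i k => u (e i).1 k ((e i).2 k), fun k => u 0 k (c k), E ∩ Z c, fun i k => hu _ _ _,
    fun k => hu _ _ _, hE.inter (mZ c), Set.inter_subset_left, hc, ?_⟩
  have tη : ∀ n, t n ^ 2 ≤ η ^ 2 / 4 := fun n => by
    have := pow_le_pow_left₀ (t0 n).le (min_le_left _ _ : t n ≤ η / 2) 2
    linarith
  filter_upwards [hTh, ae_all_iff.2 fun n => ae_all_iff.2 (hle n),
    ae_all_iff.2 fun n => ae_all_iff.2 fun d : ι → ℕ =>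
      prd hβ h0 (v := fun k => u n k (d k)) (fun k => um n k _) (t0 n),
    ae_all_iff.2 fun n => ae_all_iff.2 fun k => ae_all_iff.2 fun j =>
      tr2 hβ (um2 le_rfl (h0 k)) (lb2 le_rfl (um n k j)) (lb2 le_rfl (um 0 k (c k)))]
    with x h1 h2 h3 h4 hx
  have h5 : ∀ k, (μ[fun y => ‖φ k y - u 0 k (c k) y‖ ^ 2 | β]) x ≤ t 0 ^ 2 := by
    have := hx.2
    simp only [hZ, Set.mem_iInter] at this
    exact this
  refine ⟨Set.mem_iInter.2 fun n => ?_, fun k => ?_⟩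
  · choose d hd using h2 n
    obtain ⟨i, hi⟩ := he (n, d)
    refine Set.mem_iUnion.2 ⟨i, ?_, fun k => ?_⟩
    · have h6 := h3 n d hd
      have h7 : ‖(μ[pr φ univ | β]) x‖ = 1 := h1 hx.1
      have h8 : t n * (Fintype.card ι + 1) ≤ (1 / 4 : ℝ) ^ n :=
        (le_div_iff₀ (by positivity)).1 (min_le_right _ _)
      simp only [hi]
      nlinarith [t0 n]
    · simp only [hi]
      linarith [h4 n k (d k), hd k, h5 k, tη n, tη 0]
  · nlinarith [h5 k, tη 0, sq_nonneg η]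

end T3x

end
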