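import Pool.Agent.MP_154433_an.t3.Spec

/-! Conditional independence calculus. -/

set_option autoImplicit false

open MeasureTheory Filter
open Finset hiding le_sup' sup
open Fib27

noncomputable section

namespace T3x

namespace BasCx

variable {Ω ι : Type} {Y Y' D C C' O β : MeasurableSpace Ω} {p : ι → MeasurableSpace Ω}
  {S : Finset ι} {m0 : MeasurableSpace Ω} {μ : Measure Ω} [IsProbabilityMeasure μ]

theorem cp_perp (hY : Y ≤ m0) (hC : C ≤ m0) (h : CP Y D C μ) {f : Ω → ℂ} (hf : BM μ Y f) :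
    Perp μ C fun x => f x - (μ[f | D]) x := fun c hc => by
  rw [← perp_sub_ce hC (hf.mono hY) c hc]
  refine integral_congr_ae ?_
  filter_upwards [h f hf] with x hx
  rw [hx]

theorem cp_of (hY : Y ≤ m0) (hC : C ≤ m0) (hD : D ≤ C)
    (h : ∀ f, BM μ Y f → Perp μ C fun x => f x - (μ[f | D]) x) : CP Y D C μ := fun f hf =>
  ce_eq_of_perp hC (hf.mono hY) ((hf.ce D).mono hD) (h f hf)

theorem cp_mono (hY : Y ≤ m0) (hC : C ≤ m0) (h : CP Y D C μ) (h1 : Y' ≤ Y) (h2 : D ≤ C')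
    (h3 : C' ≤ C) : CP Y' D C' μ :=
  cp_of (h1.trans hY) (h3.trans hC) h2 fun _ hf => (cp_perp hY hC h (hf.mono h1)).mono h3

theorem flip (hC : C ≤ m0) (hD : D ≤ C) {f g a : Ω → ℂ} (hf : BM μ m0 f)
    (h : Perp μ C fun x => f x - (μ[f | D]) x) (hg : BM μ C g) (ha : BM μ D a) :
    ∫ x, (g x - (μ[g | D]) x) * (a x * f x) ∂μ = 0 := by
  have h0 := hg.sub ((hg.ce D).mono hD)
  have h1 := h _ (h0.mul (ha.mono hD))
  have h2 := perp_sub_ce (hD.trans hC) (hg.mono hC) _ (ha.mul (hf.ce D))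
  rw [int_sub_mul hf ((hf.ce D).mono (hD.trans hC)) ((h0.mul (ha.mono hD)).mono hC),
    sub_eq_zero] at h1
  calc _ = ∫ x, f x * ((g x - (μ[g | D]) x) * a x) ∂μ :=
        integral_congr_ae (Eventually.of_forall fun x => by simp only; ring)
    _ = _ := h1
    _ = _ := integral_congr_ae (Eventually.of_forall fun x => by simp only; ring)
    _ = 0 := h2

theorem cp_mul (hY : Y ≤ m0) (hC : C ≤ m0) (hD : D ≤ C) (h : CP Y D C μ) {f g : Ω → ℂ}
    (hf : BM μ Y f) (hg : BM μ C g) :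
    μ[fun x => f x * g x | D] =ᵐ[μ] fun x => (μ[f | D]) x * (μ[g | D]) x := by
  have hD0 := hD.trans hC
  refine ce_eq_of_tests hD0 ((hf.mono hY).mul (hg.mono hC)) ((hf.ce D).mul (hg.ce D))
    fun d hd => ?_
  have h1 := flip hC hD (hf.mono hY) (cp_perp hY hC h hf) hg hd
  rw [int_sub_mul (hg.mono hC) ((hg.ce D).mono hD0) ((hd.mono hD0).mul (hf.mono hY)),
    sub_eq_zero] at h1
  calc _ = ∫ x, g x * (d x * f x) ∂μ :=
        integral_congr_ae (Eventually.of_forall fun x => by simp only; ring)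
    _ = _ := h1
    _ = ∫ x, f x * ((μ[g | D]) x * d x) ∂μ :=
        integral_congr_ae (Eventually.of_forall fun x => by simp only; ring)
    _ = _ := (int_ce_mul hD0 (hf.mono hY) ((hg.ce D).mul hd)).symm
    _ = _ := integral_congr_ae (Eventually.of_forall fun x => by simp only; ring)

theorem perp_of_mul (hC : C ≤ m0) (hD : D ≤ m0) {f g : Ω → ℂ} (hf : BM μ m0 f) (hg : BM μ C g)
    (h : μ[fun x => f x * g x | D] =ᵐ[μ] fun x => (μ[f | D]) x * (μ[g | D]) x) {a : Ω → ℂ}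
    (ha : BM μ D a) : ∫ x, (f x - (μ[f | D]) x) * (a x * g x) ∂μ = 0 := by
  rw [int_sub_mul hf ((hf.ce D).mono hD) ((ha.mono hD).mul (hg.mono hC)), sub_eq_zero]
  calc _ = ∫ x, f x * g x * a x ∂μ :=
        integral_congr_ae (Eventually.of_forall fun x => by simp only; ring)
    _ = _ := (int_ce_mul hD (hf.mul (hg.mono hC)) ha).symm
    _ = ∫ x, (μ[g | D]) x * ((μ[f | D]) x * a x) ∂μ := integral_congr_ae (by
        filter_upwards [h] with x hx
        rw [hx]; ring)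
    _ = _ := int_ce_mul hD (hg.mono hC) ((hf.ce D).mul ha)
    _ = _ := integral_congr_ae (Eventually.of_forall fun x => by simp only; ring)

theorem cp_of_mul (hY : Y ≤ m0) (hC : C ≤ m0) (hD : D ≤ C) (h : ∀ f g : Ω → ℂ, BM μ Y f →
    BM μ C g → μ[fun x => f x * g x | D] =ᵐ[μ] fun x => (μ[f | D]) x * (μ[g | D]) x) :
    CP Y D C μ :=
  cp_of hY hC hD fun f hf c hc => by
    simpa using perp_of_mul hC (hD.trans hC) (hf.mono hY) hc (h f c hf hc) (BM.const 1)

theorem cp_symm (hY : Y ≤ m0) (hC : C ≤ m0) (hD : D ≤ C) (hD' : D ≤ Y) (h : CP Y D C μ) :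
    CP C D Y μ :=
  cp_of_mul hC hY hD' fun f g hf hg => by
    simpa only [mul_comm] using cp_mul hY hC hD h hg hf

theorem drop (hY : Y ≤ m0) (hC : C ≤ m0) (hD : D ≤ C) (hD' : D ≤ Y) (hO : O ≤ Y)
    (h : CP Y D C μ) : CP Y (O ⊔ D) (O ⊔ C) μ := by
  have hO0 := hO.trans hY
  have h1 : O ⊔ D ≤ Y := sup_le hO hD'
  refine cp_of hY (sup_le hO0 hC) (sup_le_sup_left hD _) fun f hf => ?_
  have h2 := hf.sub ((hf.ce (O ⊔ D)).mono h1)
  refine perp_sup hO0 hC (h2.mono hY) fun a c ha hc => ?_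
  have h3 := h2.mul (ha.mono hO)
  have h4 := perp_sub_ce (h1.trans hY) (hf.mono hY) _
    ((ha.mono le_sup_left).mul ((hc.ce D).mono le_sup_right))
  calc _ = ∫ x, (f x - (μ[f | O ⊔ D]) x) * a x * c x ∂μ := by simp only [mul_assoc]
    _ = _ := (int_ce_mul hC (h3.mono hY) hc).symm
    _ = ∫ x, (μ[fun x => (f x - (μ[f | O ⊔ D]) x) * a x | D]) x * c x ∂μ :=
        integral_congr_ae (by
          filter_upwards [h _ h3] with x hx
          rw [hx])
    _ = _ := int_ce_symm (hD.trans hC) (h3.mono hY) (hc.mono hC)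
    _ = 0 := by simpa only [mul_assoc] using h4

theorem cp_sup (hY : Y ≤ m0) (hC : C ≤ m0) (hD : D ≤ C) (h : CP Y D C μ) : CP (Y ⊔ D) D C μ := by
  have h1 : Y ⊔ D ≤ m0 := sup_le hY (hD.trans hC)
  refine cp_symm hC h1 le_sup_right hD (cp_of hC h1 le_sup_right fun g hg => ?_)
  refine perp_sup hY (hD.trans hC) ((hg.sub ((hg.ce D).mono hD)).mono hC) fun a b ha hb => ?_
  simpa only [mul_comm (a _)] using flip hC hD (ha.mono hY) (cp_perp hY hC h ha) hg hb

theorem sub {S' : Finset ι} (hβ : β ≤ m0) (hS : S' ⊆ S) (h : CInd β p S μ) : CInd β p S' μ := by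
  classical
  intro f hf
  have h1 := h (fun k => if k ∈ S' then f k else fun _ => 1) fun k _ => by
    split_ifs with hk
    exacts [hf k hk, BM.const 1]
  have e : ∀ F : ι → Ω → ℂ, (∀ k, k ∉ S' → ∀ x, F k x = 1) → ∀ x,
      ∏ k ∈ S, F k x = ∏ k ∈ S', F k x := fun F hF x =>
    (prod_subset hS fun k _ hk => hF k hk x).symm
  have e1 : pr (fun k => if k ∈ S' then f k else fun _ => 1) S = pr f S' := funext fun x =>
    (e _ (fun k hk x => by rw [if_neg hk]) x).trans (prod_congr rfl fun k hk => by rw [if_pos hk])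
  rw [e1] at h1
  refine h1.trans (Eventually.of_forall fun x => ?_)
  refine (e (fun k => μ[if k ∈ S' then f k else fun _ => 1 | β]) (fun k hk x => ?_) x).trans
    (prod_congr rfl fun k hk => by rw [if_pos hk])
  rw [if_neg hk, condExp_const hβ]

theorem grp (hβ : β ≤ m0) (hp : ∀ i, p i ≤ m0) (h : CInd β p S μ) {S1 S2 : Finset ι}
    (h1 : S1 ⊆ S) (h2 : S2 ⊆ S) (hd : Disjoint S1 S2) :
    CP (sup p S1 ⊔ β) β (sup p S2 ⊔ β) μ := by
  classical
  have l : ∀ T, sup p T ≤ m0 := fun T => sup_le' fun j _ => hp j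
  have key : ∀ ρ : ι → Ω → ℂ, (∀ k, BM μ (p k) (ρ k)) →
      Perp μ (β ⊔ sup p S1) fun x => pr ρ S2 x - (μ[pr ρ S2 | β]) x := fun ρ hρ => by
    have b2 : BM μ m0 (pr ρ S2) := BM.pr fun k _ => (hρ k).mono (hp k)
    refine perp_sup_pr hβ hp (b2.sub ((b2.ce β).mono hβ)) fun a ρ' ha hρ' => ?_
    refine perp_of_mul (l S1) hβ b2 (BM.pr_sup fun k _ => hρ' k) ?_ ha
    have n : ∀ k ∈ S1, k ∉ S2 := fun k hk => disjoint_left.1 hd hk
    have c := sub hβ (union_subset h2 h1) h (fun k => if k ∈ S2 then ρ k else ρ' k) fun k _ => by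
      split_ifs
      exacts [hρ k, hρ' k]
    have e : pr (fun k => if k ∈ S2 then ρ k else ρ' k) (S2 ∪ S1) =
        fun x => pr ρ S2 x * pr ρ' S1 x := funext fun x => by
      rw [pr, prod_union hd.symm, prod_congr rfl fun k hk => by rw [if_pos hk],
        prod_congr (s₁ := S1) rfl fun k hk => by rw [if_neg (n k hk)]]
      rfl
    rw [e] at c
    filter_upwards [c, sub hβ h2 h ρ fun k _ => hρ k, sub hβ h1 h ρ' fun k _ => hρ' k]
      with x c0 c2 c1
    rw [c0, c1, c2, prod_union hd.symm, prod_congr rfl fun k hk => by rw [if_pos hk],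
      prod_congr (s₁ := S1) rfl fun k hk => by rw [if_neg (n k hk)]]
  rw [sup_comm _ β, sup_comm _ β]
  refine cp_of (sup_le hβ (l _)) (sup_le hβ (l _)) le_sup_left fun g hg => ?_
  refine perp_sup_pr hβ hp ((hg.sub ((hg.ce β).mono le_sup_left)).mono (sup_le hβ (l _)))
    fun a ρ ha hρ => ?_
  exact flip (sup_le hβ (l _)) le_sup_left (BM.pr fun k _ => (hρ k).mono (hp k)) (key ρ hρ) hg ha

theorem cind_of (hβ : β ≤ m0) (hp : ∀ i, p i ≤ m0)
    (h : ∀ i ∈ S, ∀ T ⊆ S, i ∉ T → CP (p i) β (sup p T ⊔ β) μ) : CInd β p S μ := by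
  classical
  intro f hf
  have key : ∀ T ⊆ S, μ[pr f T | β] =ᵐ[μ] fun x => ∏ k ∈ T, (μ[f k | β]) x := by
    intro T
    induction T using Finset.induction_on with
    | empty =>
      intro _
      have e : pr f ∅ = fun _ => 1 := funext fun _ => prod_empty
      rw [e, condExp_const hβ]
      exact Eventually.of_forall fun _ => prod_empty.symm
    | insert i T hi ih =>
      intro hT
      have a1 := hT (mem_insert_self _ _)
      have a2 := (subset_insert _ _).trans hT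
      have e : pr f (insert i T) = fun x => f i x * pr f T x := funext (pr_insert f hi)
      rw [e]
      filter_upwards [cp_mul (hp i) (sup_le (sup_le' fun j _ => hp j) hβ) le_sup_right
        (h i a1 T a2 hi) (hf i a1) ((BM.pr_sup fun k hk => hf k (a2 hk)).mono le_sup_left),
        ih a2] with x c1 c2
      rw [c1, c2, prod_insert hi]
  exact key S subset_rfl

theorem ext (hβ : β ≤ m0) (hp : ∀ i, p i ≤ m0) (h : CInd β p S μ) :
    CInd β (fun i => p i ⊔ β) S μ := by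
  have l : ∀ T, sup p T ⊔ β ≤ m0 := fun T => sup_le (sup_le' fun j _ => hp j) hβ
  refine cind_of hβ (fun i => sup_le (hp i) hβ) fun i hi T hT hiT => ?_
  refine cp_mono (l _) (l _) (grp hβ hp h (singleton_subset_iff.2 hi) hT
    (disjoint_singleton_left.2 hiT)) (by rw [sup_singleton']) le_sup_right
    (sup_le (sup_le' fun j hj => sup_le_sup_right (le_sup' p hj) _) le_sup_right)

theorem grow {d : ι → MeasurableSpace Ω} (hβ : β ≤ m0) (hp : ∀ i, p i ≤ m0) (hd : ∀ i, d i ≤ p i)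
    (h : CInd β p S μ) :
    CInd (sup d S ⊔ β) p S μ ∧ ∀ i ∈ S, CP (p i) (d i ⊔ β) (sup d S ⊔ β) μ := by
  classical
  have l : ∀ T, sup p T ⊔ β ≤ m0 := fun T => sup_le (sup_le' fun j _ => hp j) hβ
  have key : ∀ i ∈ S, ∀ T ⊆ S, i ∉ T → CP (p i) (d i ⊔ β) (sup p T ⊔ (sup d S ⊔ β)) μ := by
    intro i hi T hT hiT
    have a0 : p i ≤ sup p {i} ⊔ β := (le_sup' p (mem_singleton_self i)).trans le_sup_left
    have a1 := drop (l _) (l _) le_sup_right le_sup_right ((hd i).trans a0)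
      (grp hβ hp h (singleton_subset_iff.2 hi) (erase_subset i S)
        (disjoint_singleton_left.2 (notMem_erase i S)))
    refine cp_mono (l _) (sup_le ((hd i).trans (hp i)) (l _)) a1 a0
      ((sup_le_sup_right (le_sup' d hi) _).trans le_sup_right) (sup_le ?_ (sup_le ?_ ?_))
    · exact le_sup_of_le_right (le_sup_of_le_left (sup_mono' p (subset_erase.2 ⟨hT, hiT⟩)))
    · refine sup_le' fun j hj => ?_
      rcases eq_or_ne j i with rfl | e
      · exact le_sup_left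
      · exact le_sup_of_le_right (le_sup_of_le_left
          ((hd j).trans (le_sup' p (mem_erase.2 ⟨e, hj⟩))))
    · exact le_sup_of_le_right le_sup_right
  have l' : sup d S ⊔ β ≤ m0 := sup_le (sup_le' fun j _ => (hd j).trans (hp j)) hβ
  have two : ∀ i ∈ S, CP (p i) (d i ⊔ β) (sup d S ⊔ β) μ := fun i hi =>
    cp_mono (hp i) (sup_le (sup_le' fun j _ => hp j) l') (key i hi ∅ (empty_subset _)
      (notMem_empty i)) le_rfl (sup_le_sup_right (le_sup' d hi) _) le_sup_right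
  exact ⟨cind_of l' hp fun i hi T hT hiT f hf =>
    (key i hi T hT hiT f hf).trans (two i hi f hf).symm, two⟩

end BasCx

open BasCx in
theorem basC : BasCS := fun _ _ =>
  { ext := fun _ _ _ _ _ _ h1 h2 h => BasCx.ext h1 h2 h
    sub := fun _ _ _ _ _ _ _ h1 _ h3 h => BasCx.sub h1 h3 h
    grp := fun _ _ _ _ _ _ _ _ h1 h2 h h3 h4 h5 _ _ hf hg =>
      cp_mul (sup_le (sup_le' fun j _ => h2 j) h1) (sup_le (sup_le' fun j _ => h2 j) h1)
        le_sup_right (BasCx.grp h1 h2 h h3 h4 h5) hf hg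
    cp_iff := fun _ _ _ _ _ _ h1 h2 h3 =>
      ⟨fun h _ _ hf hg => cp_mul h1 h2 h3 h hf hg, cp_of_mul h1 h2 h3⟩
    cp_symm := fun _ _ _ _ _ _ => BasCx.cp_symm
    drop := fun _ _ _ _ _ _ _ => BasCx.drop
    cp_sup := fun _ _ _ _ _ _ => BasCx.cp_sup
    grow := fun _ _ _ _ _ _ _ => BasCx.grow }

end T3x

end
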