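import Pool.Agent.MP_154433_an.t3.Spec

/-! Density, chains, essential suprema, closedness, Pythagoras. -/

set_option autoImplicit false
set_option linter.unusedVariables false
set_option linter.unusedSectionVars false
set_option warn.classDefReducibility false

open MeasureTheory ProbabilityTheory Filter Topology Function Finset ComplexConjugate
open scoped BigOperators
open Fib27 (BM sup pr)

noncomputable section

namespace T3x

namespace BasDL

variable {Ω : Type} {m m0 : MeasurableSpace Ω} {μ : Measure Ω} [IsProbabilityMeasure μ]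
  {g u v : Ω → ℂ}

lemma int2 (h : MemLp g 2 μ) : Integrable g μ := h.integrable one_le_two

lemma cj2 (h : MemLp g 2 μ) : MemLp (fun x => conj (g x)) 2 μ :=
  h.congr_norm (Complex.continuous_conj.comp_aestronglyMeasurable h.1)
    (Eventually.of_forall fun x => (Complex.norm_conj _).symm)

lemma sq2 (h : MemLp g 2 μ) : Integrable (fun x => ‖g x‖ ^ 2) μ :=
  h.integrable_norm_pow two_ne_zero

lemma zero_of (hm : m ≤ m0) (hg : Integrable g μ)
    (h : ∀ s, MeasurableSet[m] s → ∫ x in s, g x ∂μ = 0) : μ[g | m] =ᵐ[μ] 0 :=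
  (ae_eq_condExp_of_forall_setIntegral_eq (g := fun _ => (0 : ℂ)) hm hg
    (fun s _ _ => integrableOn_zero) (fun s hs _ => by simp [h s hs])
    aestronglyMeasurable_const).symm

lemma set_eq {s : Set Ω} (hs : MeasurableSet s) :
    ∫ x in s, g x ∂μ = ∫ x, g x * s.indicator (fun _ => (1 : ℂ)) x ∂μ := by
  rw [← integral_indicator hs]
  refine integral_congr_ae (Eventually.of_forall fun x => ?_)
  by_cases h : x ∈ s <;> simp [h]

lemma orth (hm : m ≤ m0) (hu : MemLp u 2 μ) (hv : MemLp v 2 μ) (h0 : μ[u | m] =ᵐ[μ] 0)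
    (hvm : AEStronglyMeasurable[m] v μ) : ∫ x, u x * v x ∂μ = 0 := by
  have h := condExp_bilin_of_aestronglyMeasurable_right (ContinuousLinearMap.mul ℝ ℂ) hvm
    (hu.integrable_mul hv) (int2 hu)
  have e : ∫ x, u x * v x ∂μ = ∫ x, (μ[fun x => u x * v x | m]) x ∂μ := (integral_condExp hm).symm
  rw [e]
  refine integral_eq_zero_of_ae ?_
  filter_upwards [h, h0] with x h1 h2
  exact h1.trans (by simp [h2])

lemma pyth (hm : m ≤ m0) (hu : MemLp u 2 μ) (hv : MemLp v 2 μ) (h0 : μ[u | m] =ᵐ[μ] 0)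
    (hvm : AEStronglyMeasurable[m] v μ) :
    ∫ x, ‖u x + v x‖ ^ 2 ∂μ = ∫ x, ‖u x‖ ^ 2 ∂μ + ∫ x, ‖v x‖ ^ 2 ∂μ := by
  have h1 := orth hm hu (cj2 hv) h0 (Complex.continuous_conj.comp_aestronglyMeasurable hvm)
  have hi : Integrable (fun x => u x * conj (v x)) μ := hu.integrable_mul (cj2 hv)
  have h2 : ∫ x, (u x * conj (v x)).re ∂μ = 0 := by
    have := integral_re hi
    rw [h1] at this
    simpa using this
  have e : ∀ x, ‖u x + v x‖ ^ 2 = ‖u x‖ ^ 2 + ‖v x‖ ^ 2 + 2 * (u x * conj (v x)).re := fun x => by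
    simp only [← Complex.normSq_eq_norm_sq, Complex.normSq_add]
  simp only [e]
  refine (integral_add ((sq2 hu).add (sq2 hv)) (hi.re.const_mul 2)).trans ?_
  rw [integral_const_mul]
  exact (congrArg₂ (· + 2 * ·) (integral_add (sq2 hu) (sq2 hv)) h2).trans (by ring)

lemma res0 (hm : m ≤ m0) (hg : Integrable g μ) : μ[fun x => g x - (μ[g | m]) x | m] =ᵐ[μ] 0 := by
  filter_upwards [condExp_sub hg (integrable_condExp (f := g) (m := m)) m,
    condExp_condExp_of_le (f := g) (μ := μ) le_rfl hm] with x h1 h2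
  exact h1.trans (by simp [h2])

lemma best (hm : m ≤ m0) (hg : MemLp g 2 μ) (hv : MemLp v 2 μ)
    (hvm : AEStronglyMeasurable[m] v μ) :
    ∫ x, ‖g x - (μ[g | m]) x‖ ^ 2 ∂μ ≤ ∫ x, ‖g x - v x‖ ^ 2 ∂μ := by
  have c : MemLp (μ[g | m]) 2 μ := hg.condExp one_le_two
  have := pyth (u := fun x => g x - (μ[g | m]) x) (v := fun x => (μ[g | m]) x - v x) hm
    (hg.sub c) (c.sub hv) (res0 hm (int2 hg))
    (stronglyMeasurable_condExp.aestronglyMeasurable.sub hvm)
  simp only [sub_add_sub_cancel] at this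
  rw [this]
  exact le_add_of_nonneg_right (integral_nonneg fun x => by positivity)

lemma eq_of (hu : MemLp u 2 μ) (hv : MemLp v 2 μ) (h : ∫ x, ‖u x - v x‖ ^ 2 ∂μ ≤ 0) :
    u =ᵐ[μ] v := by
  have := (integral_eq_zero_iff_of_nonneg (fun x => by positivity) (sq2 (hu.sub hv))).1
    (le_antisymm h (integral_nonneg fun x => by positivity))
  filter_upwards [this] with x hx
  simpa [sub_eq_zero] using hx

/-- approximation from orthogonality -/
lemma clos (hm : m ≤ m0) (S : Submodule ℂ (Ω → ℂ)) (hS : ∀ φ ∈ S, MemLp φ 2 μ)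
    (h : ∀ k : Ω → ℂ, MemLp k 2 μ → (∀ φ ∈ S, ∫ x, k x * φ x ∂μ = 0) → μ[k | m] =ᵐ[μ] 0)
    (hg : MemLp g 2 μ) (hgm : AEStronglyMeasurable[m] g μ) {ε : ℝ} (hε : 0 < ε) :
    ∃ φ ∈ S, ∫ x, ‖g x - φ x‖ ^ 2 ∂μ ≤ ε := by
  let K : Submodule ℂ (Lp ℂ 2 μ) :=
    { carrier := {u | ∃ φ ∈ S, u =ᵐ[μ] φ}
      add_mem' := by
        rintro a b ⟨φ, hφ, ha⟩ ⟨φ', hφ', hb'⟩
        exact ⟨φ + φ', S.add_mem hφ hφ', (Lp.coeFn_add a b).trans (ha.add hb')⟩
      zero_mem' := ⟨0, S.zero_mem, Lp.coeFn_zero _ _ _⟩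
      smul_mem' := by
        rintro c a ⟨φ, hφ, ha⟩
        exact ⟨c • φ, S.smul_mem c hφ, (Lp.coeFn_smul c a).trans (ha.const_smul c)⟩ }
  have hK : hg.toLp g ∈ K.topologicalClosure := by
    rw [← Submodule.orthogonal_orthogonal_eq_closure, Submodule.mem_orthogonal]
    intro k hk
    have ho := h _ (cj2 (Lp.memLp k)) fun φ hφ => by
      have := (Submodule.mem_orthogonal' _ _).1 hk ((hS φ hφ).toLp φ)
        ⟨φ, hφ, (hS φ hφ).coeFn_toLp⟩
      rw [L2.inner_def] at this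
      rw [← this]
      refine integral_congr_ae ?_
      filter_upwards [(hS φ hφ).coeFn_toLp] with x hx
      simp [hx, mul_comm]
    rw [L2.inner_def, ← orth hm (cj2 (Lp.memLp k)) hg ho hgm]
    refine integral_congr_ae ?_
    filter_upwards [hg.coeFn_toLp] with x hx
    simp [hx, mul_comm]
  obtain ⟨w, ⟨φ, hφ, hw⟩, hd⟩ := Metric.mem_closure_iff.1
    (show hg.toLp g ∈ closure (K : Set (Lp ℂ 2 μ)) from hK) _ (Real.sqrt_pos.2 hε)
  refine ⟨φ, hφ, ?_⟩
  rw [dist_eq_norm] at hd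
  have h2 := pow_lt_pow_left₀ hd (norm_nonneg _) two_ne_zero
  rw [Real.sq_sqrt hε.le, ← inner_self_eq_norm_sq (𝕜 := ℂ), L2.inner_def,
    ← integral_re (L2.integrable_inner _ _)] at h2
  refine le_of_eq_of_le (integral_congr_ae ?_) h2.le
  filter_upwards [Lp.coeFn_sub (hg.toLp g) w, hg.coeFn_toLp, hw] with x h1 h3 h4
  rw [inner_self_eq_norm_sq, h1, Pi.sub_apply, h3, h4]

lemma iperp {ι : Type} (p : ι → MeasurableSpace Ω) (hp : ∀ i, p i ≤ m0) (hg : Integrable g μ)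
    (h : ∀ (S : Finset ι) (f : ι → Ω → ℂ), (∀ i ∈ S, BM μ (p i) (f i)) →
      ∫ x, g x * pr f S x ∂μ = 0) : μ[g | ⨆ i, p i] =ᵐ[μ] 0 := by
  have hm : ⨆ i, p i ≤ m0 := iSup_le hp
  have hgen := (generateFrom_piiUnionInter_measurableSet p Set.univ).symm
  simp only [Set.mem_univ, iSup_true] at hgen
  have hu : ∫ x, g x ∂μ = 0 := by simpa [pr] using h ∅ (fun _ _ => 1) (by simp)
  refine zero_of hm hg fun s hs => ?_
  induction s, hs using MeasurableSpace.induction_on_inter (m := ⨆ i, p i) hgen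
    (isPiSystem_piiUnionInter _ (fun i => @MeasurableSpace.isPiSystem_measurableSet Ω (p i)) _) with
  | empty => simp
  | basic s hs =>
    obtain ⟨t, -, f, hf, rfl⟩ := hs
    rw [set_eq (t.measurableSet_biInter fun i hi => hp i _ (hf i hi)),
      ← h t _ fun i hi => Fib27.BM.indicator (hf i hi)]
    refine integral_congr_ae (Eventually.of_forall fun x => ?_)
    beta_reduce
    by_cases e : ∀ i ∈ t, x ∈ f i
    · rw [Set.indicator_of_mem (Set.mem_iInter₂.2 e), pr,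
        Finset.prod_eq_one fun i hi => Set.indicator_of_mem (e i hi) _]
    · rw [Set.indicator_of_notMem fun h => e (Set.mem_iInter₂.1 h)]
      simp only [not_forall] at e
      obtain ⟨i, hi, e⟩ := e
      rw [pr, Finset.prod_eq_zero hi (Set.indicator_of_notMem e _)]
  | compl s hs ih =>
    have := integral_add_compl (hm s hs) hg
    rwa [ih, hu, zero_add] at this
  | iUnion s hd hs ih =>
    rw [integral_iUnion (fun i => hm _ (hs i)) hd hg.integrableOn]
    simp [ih]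

section T
variable {T : Set (Ω → ℂ)}

omit [IsProbabilityMeasure μ] in
lemma span_bm (hb : ∀ φ ∈ T, BM μ m0 φ) {φ : Ω → ℂ} (h : φ ∈ Submodule.span ℂ T) :
    BM μ m0 φ := by
  induction h using Submodule.span_induction with
  | mem φ h => exact hb φ h
  | zero => exact Fib27.BM.const 0
  | add a b _ _ h1 h2 => exact h1.add h2
  | smul c a _ h1 => exact h1.cmul c

omit [IsProbabilityMeasure μ] in
lemma bm_of {φ : Ω → ℂ} (h : φ ∈ @Bdd Ω m0) : BM μ m0 φ :=
  let ⟨h1, C, h2⟩ := h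
  ⟨h1.aestronglyMeasurable, C, Eventually.of_forall h2⟩

omit [IsProbabilityMeasure μ] in
lemma span_int (hb : ∀ φ ∈ T, BM μ m0 φ) (hg : Integrable g μ)
    (h0 : ∀ φ ∈ T, ∫ x, g x * φ x ∂μ = 0) {φ : Ω → ℂ} (h : φ ∈ Submodule.span ℂ T) :
    ∫ x, g x * φ x ∂μ = 0 := by
  have k : ∀ φ ∈ Submodule.span ℂ T, Integrable (fun x => g x * φ x) μ := fun φ h =>
    let ⟨h1, C, h2⟩ := span_bm hb h
    hg.mul_bdd h1 h2
  induction h using Submodule.span_induction with
  | mem φ h => exact h0 φ h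
  | zero => simp
  | add a b ha hb h1 h2 =>
    simp only [Pi.add_apply, mul_add]
    rw [integral_add (k a ha) (k b hb), h1, h2, add_zero]
  | smul c a _ h1 =>
    simp only [Pi.smul_apply, smul_eq_mul, mul_left_comm _ c]
    rw [integral_const_mul, h1, mul_zero]

/-- functions that agree a.e. with a member of the span -/
def W (μ : Measure Ω) (T : Set (Ω → ℂ)) : Submodule ℂ (Ω → ℂ) where
  carrier := {F | ∃ φ ∈ Submodule.span ℂ T, F =ᵐ[μ] φ}
  add_mem' := by
    rintro a b ⟨φ, hφ, ha⟩ ⟨φ', hφ', hb'⟩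
    exact ⟨φ + φ', Submodule.add_mem _ hφ hφ', ha.add hb'⟩
  zero_mem' := ⟨0, Submodule.zero_mem _, EventuallyEq.rfl⟩
  smul_mem' := by
    rintro c a ⟨φ, hφ, ha⟩
    exact ⟨c • φ, Submodule.smul_mem _ c hφ, ha.const_smul c⟩

lemma gen_le (hb : ∀ φ ∈ T, φ ∈ @Bdd Ω m0) : gen T id ≤ m0 :=
  iSup₂_le fun φ hφ => (hb φ hφ).1.comap_le

lemma perp0 (hb : ∀ φ ∈ T, φ ∈ @Bdd Ω m0) (h1 : ∃ φ ∈ T, φ =ᵐ[μ] fun _ => 1)
    (hm : ∀ φ ∈ T, ∀ φ' ∈ T, ∃ χ ∈ T, χ =ᵐ[μ] fun x => φ x * φ' x)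
    (hc : ∀ φ ∈ T, ∃ χ ∈ T, χ =ᵐ[μ] fun x => conj (φ x)) (hg : Integrable g μ)
    (h0 : ∀ φ ∈ T, ∫ x, g x * φ x ∂μ = 0) : μ[g | gen T id] =ᵐ[μ] 0 := by
  have wm : ∀ F ∈ W μ T, ∀ G ∈ W μ T, F * G ∈ W μ T := by
    rintro F ⟨φ, hφ, e⟩ G ⟨φ', hφ', e'⟩
    have k := Submodule.mul_mem_mul hφ hφ'
    rw [Submodule.span_mul_span] at k
    obtain ⟨χ, k1, k2⟩ := (Submodule.span_le (p := W μ T)).2 (by
      rintro _ ⟨a, ha, b, hb, rfl⟩
      obtain ⟨χ, k1, k2⟩ := hm a ha b hb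
      exact ⟨χ, Submodule.subset_span k1, k2.symm⟩) k
    exact ⟨χ, k1, (e.mul e').trans k2⟩
  let R : Set (Ω → ℝ) := {ψ | (Measurable ψ ∧ ∃ C : ℝ, ∀ x, |ψ x| ≤ C) ∧
    (fun x => (ψ x : ℂ)) ∈ W μ T}
  have r1 : (1 : Ω → ℝ) ∈ R := by
    obtain ⟨φ, k1, k2⟩ := h1
    exact ⟨⟨measurable_const, 1, fun x => by simp⟩, φ, Submodule.subset_span k1,
      by simpa using k2.symm⟩
  have r2 : ∀ φ ∈ R, ∀ φ' ∈ R, φ * φ' ∈ R := by
    rintro φ ⟨⟨a1, C, a2⟩, a3⟩ φ' ⟨⟨b1, D, b2⟩, b3⟩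
    refine ⟨⟨a1.mul b1, C * D, fun x => ?_⟩, ?_⟩
    · rw [Pi.mul_apply, abs_mul]
      exact mul_le_mul (a2 x) (b2 x) (abs_nonneg _) ((abs_nonneg _).trans (a2 x))
    · have := wm _ a3 _ b3
      simpa [Pi.mul_def] using this
  have le : gen T id ≤ ⨆ φ ∈ R, MeasurableSpace.comap φ inferInstance := by
    refine iSup₂_le fun φ hφ => Measurable.comap_le ?_
    obtain ⟨a1, C, a2⟩ := hb φ hφ
    obtain ⟨χ, k1, k2⟩ := hc φ hφ
    have w1 : φ ∈ W μ T := ⟨φ, Submodule.subset_span hφ, EventuallyEq.rfl⟩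
    have w2 : (fun x => conj (φ x)) ∈ W μ T := ⟨χ, Submodule.subset_span k1, k2.symm⟩
    have k : ∀ ψ ∈ R, Measurable[⨆ φ ∈ R, MeasurableSpace.comap φ inferInstance] ψ :=
      fun ψ hψ => Measurable.of_comap_le
        (le_iSup₂_of_le (f := fun φ (_ : φ ∈ R) => MeasurableSpace.comap φ inferInstance) ψ hψ
          le_rfl)
    refine @measurable_of_re_im _ _ _ (_) _ (k _ ⟨⟨RCLike.measurable_re.comp a1, C, fun x =>
      (Complex.abs_re_le_norm _).trans (a2 x)⟩, ?_⟩) (k _ ⟨⟨RCLike.measurable_im.comp a1, C,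
        fun x => (Complex.abs_im_le_norm _).trans (a2 x)⟩, ?_⟩)
    · have := (W μ T).smul_mem (1 / 2 : ℂ) ((W μ T).add_mem w1 w2)
      refine (congrArg (· ∈ W μ T) (funext fun x => ?_)).mp this
      simp [Complex.add_conj]
    · have := (W μ T).smul_mem (-Complex.I / 2 : ℂ) ((W μ T).sub_mem w1 w2)
      refine (congrArg (· ∈ W μ T) (funext fun x => ?_)).mp this
      simp only [Pi.smul_apply, Pi.sub_apply, Complex.sub_conj, smul_eq_mul, id, RCLike.im_to_complex]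
      push_cast
      linear_combination (-(φ x).im : ℂ) * Complex.I_mul_I
  have z : ∀ ψ ∈ R, ∫ x, g x * (ψ x : ℂ) ∂μ = 0 := by
    rintro ψ ⟨-, φ, k1, k2⟩
    rw [← span_int (fun φ h => bm_of (hb φ h)) hg h0 k1]
    refine integral_congr_ae ?_
    filter_upwards [k2] with x hx
    rw [hx]
  have zi : ∀ ψ ∈ R, Integrable (fun x => g x * (ψ x : ℂ)) μ := by
    rintro ψ ⟨⟨a1, C, a2⟩, -⟩
    exact hg.mul_bdd (Complex.measurable_ofReal.comp a1).aestronglyMeasurable (c := C)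
      (Eventually.of_forall fun x => by simpa using a2 x)
  have d := (Pool.Agent.MP_154433_an.SG.dens R r1 r2 fun φ h => h.1).1 μ
  have d1 := d _ hg.re fun ψ hψ => by
    have := integral_re (zi ψ hψ)
    rw [z ψ hψ] at this
    simpa using this
  have d2 := d _ hg.im fun ψ hψ => by
    have := integral_im (zi ψ hψ)
    rw [z ψ hψ] at this
    simpa using this
  refine zero_of (gen_le hb) hg fun s hs => ?_
  have ms := gen_le hb s hs
  have a : ∀ f : Ω → ℝ, ∫ x, f x * s.indicator (fun _ => (1 : ℝ)) x ∂μ = ∫ x in s, f x ∂μ :=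
    fun f => by
      rw [← integral_indicator ms]
      refine integral_congr_ae (Eventually.of_forall fun x => ?_)
      by_cases h : x ∈ s <;> simp [h]
  have b1 := (stronglyMeasurable_const (b := (1 : ℝ)).indicator (le s hs)).aestronglyMeasurable
    (μ := μ)
  have b2 : ∀ᵐ x ∂μ, ‖s.indicator (fun _ => (1 : ℝ)) x‖ ≤ 1 := Eventually.of_forall fun x => by
    by_cases h : x ∈ s <;> simp [h]
  have e1 := d1 _ ⟨b1, 1, b2⟩
  have e2 := d2 _ ⟨b1, 1, b2⟩
  rw [a, integral_re hg.integrableOn] at e1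
  rw [a, integral_im hg.integrableOn] at e2
  exact Complex.ext e1 e2

end T

end BasDL

open BasDL in
theorem basD : BasDS := fun hA =>
  have perp : ∀ {Ω : Type} {m0 : MeasurableSpace Ω} (μ : Measure Ω) [IsProbabilityMeasure μ]
      (T : Set (Ω → ℂ)), (∀ φ ∈ T, φ ∈ Bdd Ω) → (∃ φ ∈ T, φ =ᵐ[μ] fun _ => 1) →
      (∀ φ ∈ T, ∀ φ' ∈ T, ∃ χ ∈ T, χ =ᵐ[μ] fun x => φ x * φ' x) →
      (∀ φ ∈ T, ∃ χ ∈ T, χ =ᵐ[μ] fun x => conj (φ x)) → ∀ g : Ω → ℂ, Integrable g μ →
      (∀ φ ∈ T, ∫ x, g x * φ x ∂μ = 0) → μ[g | gen T id ⊔ nul μ] =ᵐ[μ] 0 :=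
    fun μ _ T hb h1 hm hc g hg h0 => (hA.ce _ μ (gen_le hb) g).trans (perp0 hb h1 hm hc hg h0)
  { perp := perp
    apx := fun μ _ T hb h1 hm hc g hg hgm ε hε =>
      clos (sup_le (gen_le hb) (hA.nul_le μ)) _
        (fun φ h => (span_bm (fun φ h => bm_of (hb φ h)) h).memLp 2)
        (fun k hk h => perp μ T hb h1 hm hc k (int2 hk) fun φ e => h φ (Submodule.subset_span e))
        hg hgm hε
    iperp := fun p _ μ _ hp g hg h => iperp p hp hg h
    apx2 := fun A B m0 μ _ h1 h2 g hg hgm ε hε => by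
      obtain ⟨φ, k1, k2⟩ := clos (sup_le h1 h2) (Submodule.span ℂ
        {φ | ∃ a b, BM μ A a ∧ BM μ B b ∧ φ = fun x => a x * b x})
        (fun φ h => (span_bm (by
          rintro _ ⟨a, b, ha, hb, rfl⟩
          exact (ha.mono h1).mul (hb.mono h2)) h).memLp 2) (fun k hk h => by
          have := iperp (fun i : Bool => cond i A B) (by rintro (_ | _) <;> assumption) (int2 hk)
            fun S f hf => h _ (Submodule.subset_span ⟨if true ∈ S then f true else fun _ => 1,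
              if false ∈ S then f false else fun _ => 1, ?_, ?_, funext fun x => ?_⟩)
          · rwa [iSup_bool_eq] at this
          · split_ifs with e
            exacts [hf _ e, Fib27.BM.const 1]
          · split_ifs with e
            exacts [hf _ e, Fib27.BM.const 1]
          · rw [pr, ← Finset.prod_ite_mem_eq, Fintype.prod_bool]
            congr 1 <;> split_ifs <;> rfl) hg hgm hε
      obtain ⟨n, c, f, rfl⟩ := Submodule.mem_span_set'.1 k1
      choose a b ha hb e using fun i => (f i).2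
      refine ⟨n, fun i x => c i * a i x, b, fun i => (ha i).cmul _, hb, le_of_eq_of_le ?_ k2⟩
      simp [e, mul_assoc]
    chain := fun {Ω} 𝒞 m0 μ _ hn hd hle g hg ε hε => by
      have hD : sSup 𝒞 ≤ m0 := sSup_le hle
      have := hn.to_subtype
      let S : Submodule ℂ (Ω → ℂ) :=
        { carrier := {φ | ∃ C ∈ 𝒞, BM μ C φ}
          add_mem' := by
            rintro a b ⟨C, h1, ha⟩ ⟨C', h2, hb⟩
            obtain ⟨D, h3, h4, h5⟩ := hd C h1 C' h2
            exact ⟨D, h3, (ha.mono h4).add (hb.mono h5)⟩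
          zero_mem' := let ⟨C, h⟩ := hn; ⟨C, h, Fib27.BM.const 0⟩
          smul_mem' := fun c a ⟨C, h, ha⟩ => ⟨C, h, ha.cmul c⟩ }
      have c2 : MemLp (μ[g | sSup 𝒞]) 2 μ := hg.condExp one_le_two
      obtain ⟨φ, ⟨C, k0, k1⟩, k2⟩ := clos hD S
        (fun φ ⟨C, h, k⟩ => (k.mono (hle C h)).memLp 2) (fun k hk h => by
          rw [sSup_eq_iSup']
          refine iperp (fun C : 𝒞 => C.1) (fun C => hle _ C.2) (int2 hk) fun s f hf => h _ ?_
          obtain ⟨D, e⟩ := hd.directed_val.finset_le s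
          exact ⟨D, D.2, Fib27.BM.pr fun i hi => (hf i hi).mono (e i hi)⟩) c2
        stronglyMeasurable_condExp.aestronglyMeasurable hε
      refine ⟨C, k0, fun C' h1 h2 => le_trans (le_of_eq_of_le (integral_congr_ae ?_)
        (best (hle C' h1) c2 ((k1.mono (hle C k0)).memLp 2) (k1.1.mono h2))) k2⟩
      filter_upwards [condExp_condExp_of_le (f := g) (μ := μ) (le_sSup h1) hD] with x hx
      rw [hx]
    ess := fun {Ω} m0 μ _ 𝒜 h => by
      obtain ⟨u, -, h1, h2⟩ := exists_seq_tendsto_sSup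
        (S := {r | ∃ a ⊆ 𝒜, a.Countable ∧ μ (⋃₀ a) = r})
        ⟨_, ∅, Set.empty_subset _, Set.countable_empty, rfl⟩ (OrderTop.bddAbove _)
      choose a a1 a2 a3 using h2
      have s1 : ⋃ n, a n ⊆ 𝒜 := Set.iUnion_subset a1
      have s2 : (⋃ n, a n).Countable := Set.countable_iUnion a2
      refine ⟨_, s1, s2, fun A hA => ae_le_set.2 ?_⟩
      have k1 := le_of_tendsto' h1 fun n => (a3 n).ge.trans
        (measure_mono (μ := μ) (Set.sUnion_mono (Set.subset_iUnion a n)))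
      have k2 := (le_sSup (s := {r | ∃ a ⊆ 𝒜, a.Countable ∧ μ (⋃₀ a) = r})
        ⟨insert A (⋃ n, a n), Set.insert_subset hA s1, s2.insert A, rfl⟩).trans k1
      rw [Set.sUnion_insert, Set.union_comm, ← measure_add_sdiff
        (MeasurableSet.sUnion s2 fun t ht => h t (s1 ht)).nullMeasurableSet] at k2
      exact le_zero_iff.1 ((ENNReal.add_le_add_iff_left (measure_ne_top μ _)).1
        (k2.trans_eq (add_zero _).symm))
    closed := fun B m0 μ _ hB g hg h => by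
      refine stronglyMeasurable_condExp.aestronglyMeasurable.congr
        (eq_of hg (hg.condExp (m := B) one_le_two) (le_of_forall_pos_le_add fun ε hε => ?_)).symm
      obtain ⟨φ, h1, h2, h3⟩ := h ε hε
      rw [zero_add]
      exact (best hB hg h1 h2).trans h3
    eqn := fun B C m0 μ _ h1 h2 g hg => by
      have cB : MemLp (μ[g | B]) 2 μ := hg.condExp one_le_two
      have cC : MemLp (μ[g | C]) 2 μ := hg.condExp one_le_two
      have t := condExp_condExp_of_le (f := g) (μ := μ) h1 h2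
      have := pyth (u := fun x => (μ[g | C]) x - (μ[g | B]) x) (h1.trans h2) (cC.sub cB) cB
        ((condExp_congr_ae (by
          filter_upwards [t] with x hx
          rw [hx])).trans (res0 (h1.trans h2) (int2 cC)))
        stronglyMeasurable_condExp.aestronglyMeasurable
      simp only [sub_add_cancel] at this
      have n : 0 ≤ ∫ x, ‖(μ[g | C]) x - (μ[g | B]) x‖ ^ 2 ∂μ := integral_nonneg fun x => by positivity
      exact ⟨by linarith, fun h => eq_of cC cB (by linarith)⟩ }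

end T3x

end
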