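import Pool.Agent.MP_154433_an.t3.Spec

/-! Powers of the map, factors, embeddings, invariant functions. -/

set_option autoImplicit false
set_option linter.unusedVariables false
set_option warn.classDefReducibility false

open MeasureTheory ProbabilityTheory Filter Topology Function Finset ComplexConjugate
open scoped BigOperators
open Fib27 (BM sup pr Oc Orow F23 LInd Mem)

noncomputable section

namespace T3x

namespace BasTx

lemma mp (X : Sys) (n : ℤ) : MeasurePreserving (X.Tz n) X.μ X.μ := by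
  let P : Subgroup (Equiv.Perm X.X) :=
    { carrier := {e | MeasurePreserving e X.μ X.μ ∧ MeasurePreserving e.symm X.μ X.μ}
      one_mem' := ⟨MeasurePreserving.id _, MeasurePreserving.id _⟩
      mul_mem' := fun ha hb => ⟨ha.1.comp hb.1, hb.2.comp ha.2⟩
      inv_mem' := fun ha => ⟨ha.2, ha.1⟩ }
  exact (P.zpow_mem (x := X.T.toEquiv) ⟨X.mp, X.mp.symm X.T⟩ n).1

lemma zero (X : Sys) (x : X.X) : X.Tz 0 x = x := by simp [Sys.Tz]

lemma one (X : Sys) (x : X.X) : X.Tz 1 x = X.T x := by simp [Sys.Tz]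

lemma add (X : Sys) (n m : ℤ) (x : X.X) : X.Tz (n + m) x = X.Tz n (X.Tz m x) := by
  simp only [Sys.Tz, zpow_add, Equiv.Perm.mul_apply]

lemma one' (X : Sys) : X.Tz 1 = X.T := funext (one X)

lemma cancel (X : Sys) (n : ℤ) (x : X.X) : X.Tz (-n) (X.Tz n x) = x := by
  rw [← add, neg_add_cancel, zero]

lemma cancel' (X : Sys) (n : ℤ) (x : X.X) : X.Tz n (X.Tz (-n) x) = x := by
  rw [← add, add_neg_cancel, zero]

lemma inv_le (X : Sys) (B : MeasurableSpace X.X) (n : ℤ) (hB : Fac X B) :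
    B.comap (X.Tz n) ≤ B := by
  induction n using Int.induction_on with
  | zero =>
    rintro _ ⟨A, hA, rfl⟩
    have e : X.Tz 0 ⁻¹' A = A := by
      ext x
      rw [Set.mem_preimage, zero]
    rwa [e]
  | succ k ih =>
    have e : X.Tz ((k : ℤ) + 1) = X.Tz k ∘ X.Tz 1 := funext (add X _ _)
    rw [e, ← MeasurableSpace.comap_comp]
    exact (MeasurableSpace.comap_mono ih).trans hB.inv
  | pred k ih =>
    have e : X.Tz (-(k : ℤ) - 1) = X.Tz (-(k : ℤ)) ∘ X.Tz (-1) := funext (add X _ _)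
    rw [e, ← MeasurableSpace.comap_comp]
    exact (MeasurableSpace.comap_mono ih).trans hB.inv'

lemma inv (X : Sys) (B : MeasurableSpace X.X) (n : ℤ) (hB : Fac X B) :
    B.comap (X.Tz n) = B := by
  refine le_antisymm (inv_le X B n hB) fun A hA => ?_
  refine ⟨X.Tz (-n) ⁻¹' A, inv_le X B (-n) hB _ ⟨A, hA, rfl⟩, ?_⟩
  ext x
  simp only [Set.mem_preimage, cancel]

lemma pull_tz (X : Sys) (B : MeasurableSpace X.X) (n : ℤ) (hB : Fac X B) :
    pull X.μ (X.Tz n) B = B := by
  rw [pull, inv X B n hB]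
  exact sup_eq_left.2 hB.nl

lemma nul_comap (X : Sys) (n : ℤ) : (nul X.μ).comap (X.Tz n) ≤ nul X.μ := by
  rw [nul, MeasurableSpace.comap_generateFrom]
  refine MeasurableSpace.generateFrom_mono ?_
  rintro _ ⟨A, ⟨hA, h0⟩, rfl⟩
  exact ⟨(mp X n).measurable hA, (mp X n).quasiMeasurePreserving.preimage_null h0⟩

section Emb

variable {Y X : Sys} {p : Y.X → X.X}

lemma emb_meas (hp : Emb Y X p) : Measurable p := hp.mp.measurable

lemma k_add {n m : ℤ} (hn : KEq Y.μ X.ms (p ∘ Y.Tz n) (X.Tz n ∘ p))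
    (hm : KEq Y.μ X.ms (p ∘ Y.Tz m) (X.Tz m ∘ p)) :
    KEq Y.μ X.ms (p ∘ Y.Tz (n + m)) (X.Tz (n + m) ∘ p) := by
  intro A hA
  have h1 := (mp Y m).quasiMeasurePreserving.preimage_ae_eq (hn A hA)
  have h2 := hm _ ((mp X n).measurable hA)
  have e1 : (p ∘ Y.Tz (n + m)) ⁻¹' A = Y.Tz m ⁻¹' ((p ∘ Y.Tz n) ⁻¹' A) := by
    ext y
    simp only [Set.mem_preimage, comp_apply, add]
  have e2 : (X.Tz (n + m) ∘ p) ⁻¹' A = (X.Tz m ∘ p) ⁻¹' (X.Tz n ⁻¹' A) := by
    ext y
    simp only [Set.mem_preimage, comp_apply, add]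
  rw [e1, e2]
  exact h1.trans h2

lemma k_neg {n : ℤ} (hn : KEq Y.μ X.ms (p ∘ Y.Tz n) (X.Tz n ∘ p)) :
    KEq Y.μ X.ms (p ∘ Y.Tz (-n)) (X.Tz (-n) ∘ p) := by
  intro A hA
  have h1 := (mp Y (-n)).quasiMeasurePreserving.preimage_ae_eq
    (hn _ ((mp X (-n)).measurable hA))
  have e1 : (p ∘ Y.Tz (-n)) ⁻¹' A =
      Y.Tz (-n) ⁻¹' ((X.Tz n ∘ p) ⁻¹' (X.Tz (-n) ⁻¹' A)) := by
    ext y
    simp only [Set.mem_preimage, comp_apply, cancel]
  have e2 : (X.Tz (-n) ∘ p) ⁻¹' A =
      Y.Tz (-n) ⁻¹' ((p ∘ Y.Tz n) ⁻¹' (X.Tz (-n) ⁻¹' A)) := by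
    ext y
    simp only [Set.mem_preimage, comp_apply, cancel']
  rw [e1, e2]
  exact h1.symm

lemma emb_z (n : ℤ) (hp : Emb Y X p) : KEq Y.μ X.ms (p ∘ Y.Tz n) (X.Tz n ∘ p) := by
  have h1 : KEq Y.μ X.ms (p ∘ Y.Tz 1) (X.Tz 1 ∘ p) := by
    rw [one', one']
    exact hp.eqv
  induction n using Int.induction_on with
  | zero => simpa using k_add h1 (k_neg h1)
  | succ k ih => exact k_add ih h1
  | pred k ih => exact k_add ih (k_neg h1)

end Emb

lemma fac_of (X : Sys) (B : MeasurableSpace X.X) (h1 : B ≤ X.ms) (h2 : nul X.μ ≤ B)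
    (h3 : ∀ n : ℤ, B.comap (X.Tz n) ≤ B) : Fac X B := ⟨h1, h2, h3 1, h3 (-1)⟩

lemma invar (X : Sys) (n : ℤ) (A : Set X.X) (hA : X.T ⁻¹' A = A) : X.Tz n ⁻¹' A = A := by
  have h1 : ∀ x, X.Tz 1 x ∈ A ↔ x ∈ A := fun x => by
    rw [one]
    exact Set.ext_iff.1 hA x
  ext x
  rw [Set.mem_preimage]
  induction n using Int.induction_on with
  | zero => rw [zero]
  | succ k ih => rw [add_comm, add, h1, ih]
  | pred k ih =>
    rw [← ih, ← h1, ← add, show 1 + (-(k : ℤ) - 1) = -(k : ℤ) by ring]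

lemma fisup (X : Sys) (ι : Type) (B : MeasurableSpace X.X) (C : ι → MeasurableSpace X.X)
    (P : ι → Prop) (hB : Fac X B) (hC : ∀ i, P i → Fac X (C i)) :
    Fac X (B ⊔ ⨆ i, ⨆ _ : P i, C i) := by
  refine fac_of X _ (sup_le hB.le (iSup₂_le fun i hi => (hC i hi).le))
    (hB.nl.trans le_sup_left) fun n => ?_
  rw [MeasurableSpace.comap_sup, MeasurableSpace.comap_iSup]
  refine sup_le_sup (inv_le X B n hB) (iSup_mono fun i => ?_)
  rw [MeasurableSpace.comap_iSup]
  exact iSup_mono fun hi => inv_le X _ n (hC i hi)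

end BasTx

open BasTx in
theorem basT : BasTS := fun hA =>
  { mp := mp
    zero := zero
    one := one
    add := add
    inv := inv
    bm := fun X B n f hB hf => by
      have h := hA.bm_comp B X.μ X.μ (X.Tz n) f (mp X n) hf
      rwa [pull_tz X B n hB] at h
    ce := fun X B n f hB hf => by
      have h := hA.ce_comp B X.μ X.μ (X.Tz n) f (mp X n) hB.le hf
      rwa [pull_tz X B n hB] at h
    emb_z := fun Y X p n hp => emb_z n hp
    emb_id := fun X => ⟨MeasurePreserving.id _, fun A hA => EventuallyEq.rfl⟩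
    emb_comp := fun Z Y X p q hp hq =>
      ⟨hq.mp.comp hp.mp, fun A hA =>
        (hp.eqv _ (hq.mp.measurable hA)).trans
          (hp.mp.quasiMeasurePreserving.preimage_ae_eq (hq.eqv A hA))⟩
    top := fun X => fac_of X _ le_rfl (hA.nul_le X.μ) fun n => (mp X n).measurable.comap_le
    bot := fun X => fac_of X _ (hA.nul_le X.μ) le_rfl (nul_comap X)
    finv := fun X => by
      refine fac_of X _ (sup_le (MeasurableSpace.invariants_le _) (hA.nul_le X.μ)) le_sup_right
        fun n => ?_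
      rw [Inv, MeasurableSpace.comap_sup]
      refine sup_le_sup ?_ (nul_comap X n)
      rintro _ ⟨A, hA', rfl⟩
      rwa [invar X n A hA'.2]
    fpull := fun Y X p B hp hB => by
      refine fac_of Y _ (hA.pull_le B Y.μ X.μ p hp.mp hB.le) le_sup_right fun n => ?_
      rw [pull, MeasurableSpace.comap_sup]
      refine sup_le ?_ ((nul_comap Y n).trans le_sup_right)
      rintro _ ⟨_, ⟨A, hA', rfl⟩, rfl⟩
      have hm : @Measurable _ _ Y.ms X.ms p := emb_meas hp
      have hle : B.comap p ≤ Y.ms := (MeasurableSpace.comap_mono hB.le).trans hm.comap_le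
      refine (hA.mem (B.comap p) Y.μ hle _).2
        ⟨(mp Y n).measurable (hm (hB.le A hA')), p ⁻¹' (X.Tz n ⁻¹' A),
          ⟨_, inv_le X B n hB _ ⟨A, hA', rfl⟩, rfl⟩, ?_⟩
      exact emb_z n hp A (hB.le A hA')
    fsup := fun X B C hB hC => by
      refine fac_of X _ (sup_le hB.le hC.le) (hB.nl.trans le_sup_left) fun n => ?_
      rw [MeasurableSpace.comap_sup]
      exact sup_le_sup (inv_le X B n hB) (inv_le X C n hC)
    fisup := fun X ι B C hB hC => by
      simpa using fisup X ι B C (fun _ => True) hB fun i _ => hC i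
    fsSup := fun X 𝒞 hne hC => by
      obtain ⟨B, hB⟩ := hne
      have h := fisup X _ B id (fun C => C ∈ 𝒞) (hC B hB) hC
      simp only [id] at h
      rwa [← sSup_eq_iSup, sup_eq_right.2 (le_sSup hB)] at h
    fsp := fun X ι B C S hB hC => by
      rw [sup_comm]
      exact fisup X ι B C (fun i => i ∈ S) hB fun i _ => hC i
    inv_iff := fun X f hf => by
      have hle : MeasurableSpace.invariants X.T ≤ X.ms := MeasurableSpace.invariants_le _
      have hq := X.mp.quasiMeasurePreserving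
      constructor
      · intro h
        obtain ⟨g, hg, hfg⟩ := (hA.aesm _ X.μ hle f).1 h
        have e := MeasurableSpace.comp_eq_of_measurable_invariants hg.measurable
        filter_upwards [hfg, hq.ae hfg] with x h1 h2
        rw [h1, h2]
        exact congrFun e x
      · intro h
        obtain ⟨g, hg, hfg⟩ := hf
        have hgT : (fun x => g (X.T x)) =ᵐ[X.μ] g := by
          filter_upwards [hfg, hq.ae hfg, h] with x h1 h2 h3
          rw [← h1, ← h2, h3]
        have hm : Measurable[Inv X] g := by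
          intro s hs
          have h1 : MeasurableSet[X.ms] (g ⁻¹' s) := hg.measurable hs
          obtain ⟨t, ht, hts, htT⟩ := hq.exists_preimage_eq_of_preimage_ae h1.nullMeasurableSet
            (hgT.preimage s)
          exact (hA.mem _ X.μ hle _).2 ⟨h1, t, ⟨ht, htT⟩, hts.symm⟩
        exact ⟨g, hm.stronglyMeasurable, hfg⟩ }

end T3x

end
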