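import Pool.Agent.MP_154433_an.t3.Spec3

/-! Row G2: the property F2 passes from the global space to almost every fibre. -/

set_option autoImplicit false
set_option linter.unusedVariables false

open MeasureTheory ProbabilityTheory Filter Topology Function Finset ComplexConjugate
open Fib27 (BM Perp)

noncomputable section

namespace T3x

namespace G2

/-- one fibre: from the sets of a generating algebra to all bounded functions -/
theorem ext {Ω : Type} {P O : MeasurableSpace Ω} {m0 : MeasurableSpace Ω} {κ : Measure Ω}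
    [IsProbabilityMeasure κ] (hP : P ≤ m0) (hO : O ≤ m0) {𝒜 : Set (Set Ω)}
    (hA : IsSetAlgebra 𝒜) (hg : P = MeasurableSpace.generateFrom 𝒜)
    (h : ∀ s ∈ 𝒜, BM κ P (κ[s.indicator (fun _ => (1 : ℂ)) | O])) {a : Ω → ℂ}
    (ha : BM κ P a) : BM κ P (κ[a | O]) := by
  have key : ∀ w, BM κ m0 w → Perp κ P w → Perp κ P (κ[w | O]) := fun w hw hp =>
    perp_pi hP hA.isSetRing.isSetSemiring.isPiSystem hA.univ_mem hg ((hw.ce O).mono hO)
      fun s hs => by
        have hs' : MeasurableSet[P] s := hg ▸ MeasurableSpace.measurableSet_generateFrom hs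
        rw [Fib27.int_ce_symm hO hw (BM.indicator (hP s hs'))]
        exact hp _ (h s hs)
  have hu : BM κ m0 (κ[a | O]) := (ha.ce O).mono hO
  refine (hu.ce P).congr (Fib27.ae_eq_of_tests le_rfl ((hu.ce P).mono hP) hu fun c hc => ?_)
  have hc' : BM κ m0 (κ[c | P]) := (hc.ce P).mono hP
  have e := key _ (hc.sub hc') (Fib27.perp_sub_ce hP hc) a ha
  rw [Fib27.int_ce_symm hO (hc.sub hc') (ha.mono hP), Fib27.int_sub_mul hc hc' hu,
    sub_eq_zero] at e
  rw [Fib27.int_ce_symm hP hu hc]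
  simpa only [mul_comm] using e.symm

end G2

theorem g2 : G2R := by
  intro F X Ω Zs P O mX m1 _ _ mZ μ _ W Z hW hZ hP hO cP cO hyp
  obtain ⟨𝒜, hc, hA, hg⟩ := cg_alg P cP
  have one : ∀ s ∈ 𝒜, ∀ᵐ z ∂μ.map Z, BM (condDistrib W Z μ z) P
      ((condDistrib W Z μ z)[s.indicator (fun _ => (1 : ℂ)) | O]) := by
    intro s hs
    have hs' : MeasurableSet[P] s := hg ▸ MeasurableSpace.measurableSet_generateFrom hs
    have hb : ∀ ω, ‖s.indicator (fun _ => (1 : ℂ)) ω‖ ≤ 1 := fun ω => by
      by_cases h : ω ∈ s <;> simp [h]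
    have hm : Measurable[P] (s.indicator fun _ => (1 : ℂ)) := measurable_const.indicator hs'
    have hm1 : Measurable[m1] (s.indicator fun _ => (1 : ℂ)) := hm.mono hP le_rfl
    have ha : BM μ (P.comap W) fun x => s.indicator (fun _ => (1 : ℂ)) (W x) :=
      ⟨(hm.comp (comap_measurable W)).stronglyMeasurable.aestronglyMeasurable, 1,
        Eventually.of_forall fun x => hb _⟩
    have hbd : ∀ᵐ x ∂μ, ‖(μ[fun x => s.indicator (fun _ => (1 : ℂ)) (W x) |
        O.comap W ⊔ cm Z]) x‖ ≤ 1 :=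
      ae_bdd_norm_condExp_of_ae_bdd_norm (Eventually.of_forall fun x => hb _)
    obtain ⟨h, h1, h2, h3, h4⟩ := F.rep O μ W Z _ 1 hO zero_le_one (ha.ce _).1 hbd
    obtain ⟨h', h1', h2', h3', h4'⟩ := F.rep P μ W Z _ 1 hP zero_le_one (hyp _ ha).1 hbd
    have e1 := F.ce O μ W Z hW hZ hO cO (fun y => s.indicator (fun _ => (1 : ℂ)) y.2)
      ⟨hm1.comp measurable_snd, 1, fun y => hb _⟩ h ⟨h1, 1, h2⟩ h3 h4
    have e2 := (F.ae μ W Z hW hZ h h' h1 h1').1 (h4.symm.trans h4')
    filter_upwards [e1, e2] with z z1 z2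
    have hz : BM (condDistrib W Z μ z) P fun ω => h' (z, ω) :=
      ⟨(h3' z).stronglyMeasurable.aestronglyMeasurable, 1, Eventually.of_forall fun ω => h2' _⟩
    exact hz.congr (EventuallyEq.trans z1 z2).symm
  filter_upwards [(ae_ball_iff hc).2 one] with z hz a ha
  exact G2.ext hP hO hA hg hz ha

end T3x

end
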