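import Pool.Agent.MP_154433_an.t3.Spec3

/-! The third property of a half grid passes to the fibres. -/

set_option autoImplicit false
set_option linter.unusedVariables false
set_option warn.classDefReducibility false

open MeasureTheory ProbabilityTheory Filter Topology Function Finset ComplexConjugate
open scoped BigOperators
open Fib27 (BM sup pr)

noncomputable section

namespace T3x

namespace G3h

lemma multi {Ω ι : Type} [Fintype ι] [DecidableEq ι] {p o : ι → MeasurableSpace Ω}
    {m0 : MeasurableSpace Ω} {μ : Measure Ω} [IsProbabilityMeasure μ] (hp : ∀ k, p k ≤ m0)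
    (ho : ∀ k, o k ≤ m0) {𝒜 : ι → Set (Set Ω)} (hA : ∀ k, IsSetAlgebra (𝒜 k))
    (hg : ∀ k, p k = MeasurableSpace.generateFrom (𝒜 k)) (j j' : ι)
    (h : ∀ a : ι → Ω → ℂ, (∀ k, ∃ s ∈ 𝒜 k, a k = s.indicator fun _ => (1 : ℂ)) →
      ∫ x, (μ[a j | o j]) x * pr a (univ.erase j) x ∂μ =
        ∫ x, (μ[a j' | o j']) x * pr a (univ.erase j') x ∂μ) (S : Finset ι) :
    ∀ a : ι → Ω → ℂ, (∀ k, BM μ (p k) (a k)) →
      (∀ k, k ∉ S → ∃ s ∈ 𝒜 k, a k = s.indicator fun _ => (1 : ℂ)) →
      ∫ x, (μ[a j | o j]) x * pr a (univ.erase j) x ∂μ =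
        ∫ x, (μ[a j' | o j']) x * pr a (univ.erase j') x ∂μ := by
  induction S using Finset.induction_on with
  | empty => exact fun a _ h2 => h a fun k => h2 k (notMem_empty k)
  | insert k S _ ih =>
    intro a h1 h2
    have h0 := fun i => (h1 i).mono (hp i)
    obtain ⟨W, hW, e⟩ := Fib27.R2c.lin (ho j) a h0 j k
    obtain ⟨W', hW', e'⟩ := Fib27.R2c.lin (ho j') a h0 j' k
    have hP := perp_pi (hp k) (hA k).isSetRing.isSetSemiring.isPiSystem (hA k).univ_mem (hg k)
      (hW.sub hW') (fun s hs => ?_)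
    · have := hP (a k) (h1 k)
      rwa [Fib27.int_sub_mul hW hW' (h0 k), sub_eq_zero, ← e _ (h0 k), ← e' _ (h0 k),
        Function.update_eq_self] at this
    have hs' : MeasurableSet[p k] s := hg k ▸ MeasurableSpace.measurableSet_generateFrom hs
    have hi : BM μ (p k) (s.indicator fun _ => (1 : ℂ)) := BM.indicator hs'
    rw [Fib27.int_sub_mul hW hW' (hi.mono (hp k)), sub_eq_zero, ← e _ (hi.mono (hp k)),
      ← e' _ (hi.mono (hp k))]
    refine ih _ (fun i => ?_) fun i hi' => ?_
    · by_cases c : i = k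
      · subst c
        simpa using hi
      · simpa [c] using h1 i
    · by_cases c : i = k
      · subst c
        exact ⟨s, hs, by simp⟩
      · simpa [c] using h2 i (by simp [c, hi'])

lemma ind_le {Ω : Type} (s : Set Ω) (x : Ω) : ‖s.indicator (fun _ => (1 : ℂ)) x‖ ≤ 1 := by
  by_cases h : x ∈ s <;> simp [h]

end G3h

open G3h in
theorem g3 : G3R := by
  intro fk X Ω Zs ι _ _ p o mX m1 _ _ mZ μ _ W Z hW hZ hp ho cp co H
  choose 𝒜 hc hA hg using fun k => cg_alg (p k) (cp k)
  have := fun k => (hc k).to_subtype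
  have key : ∀ (s : ∀ k, 𝒜 k) (j j' : ι), ∀ᵐ z ∂μ.map Z,
      ∫ x, ((condDistrib W Z μ z)[(s j).1.indicator fun _ => (1 : ℂ) | o j]) x *
          pr (fun k => (s k).1.indicator fun _ => (1 : ℂ)) (univ.erase j) x
            ∂condDistrib W Z μ z =
        ∫ x, ((condDistrib W Z μ z)[(s j').1.indicator fun _ => (1 : ℂ) | o j']) x *
          pr (fun k => (s k).1.indicator fun _ => (1 : ℂ)) (univ.erase j') x
            ∂condDistrib W Z μ z := by
    intro s j j'
    have hs : ∀ k, MeasurableSet[p k] (s k).1 := fun k =>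
      hg k ▸ MeasurableSpace.measurableSet_generateFrom (s k).2
    let i : ι → Ω → ℂ := fun k => (s k).1.indicator fun _ => (1 : ℂ)
    have im : ∀ k, Measurable[m1] (i k) := fun k => measurable_const.indicator (hp k _ (hs k))
    let a : ι → X → ℂ := fun k x => i k (W x)
    have ha : ∀ k, BM μ ((p k).comap W) (a k) := fun k =>
      BM.indicator (s := W ⁻¹' (s k).1) ⟨_, hs k, rfl⟩
    have hr : ∀ k, ∃ h : Zs × Ω → ℂ, h ∈ Bdd (Zs × Ω) ∧
        (∀ z, Measurable[o k] fun y => h (z, y)) ∧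
        μ[a k | (o k).comap W ⊔ cm Z] =ᵐ[μ] fun x => h (Z x, W x) := by
      intro k
      obtain ⟨b1, C, hC⟩ := (ha k).ce ((o k).comap W ⊔ cm Z)
      obtain ⟨h, h1, h2, h3, h4⟩ := fk.rep (o k) μ W Z _ (max C 0) (ho k) (le_max_right _ _) b1
        (hC.mono fun x hx => hx.trans (le_max_left _ _))
      exact ⟨h, ⟨h1, _, h2⟩, h3, h4⟩
    choose h hb hm he using hr
    have hce : ∀ k, ∀ᵐ z ∂μ.map Z, (condDistrib W Z μ z)[i k | o k] =ᵐ[condDistrib W Z μ z]
        fun y => h k (z, y) := fun k =>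
      fk.ce (o k) μ W Z hW hZ (ho k) (co k) (fun y => i k y.2)
        ⟨(im k).comp measurable_snd, 1, fun y => ind_le _ _⟩ (h k) (hb k) (hm k) (he k)
    have hH : ∀ k, (fun y : Zs × Ω => h k y * pr i (univ.erase k) y.2) ∈ Bdd (Zs × Ω) := by
      intro k
      obtain ⟨h1, C, hC⟩ := hb k
      refine ⟨h1.mul (Finset.measurable_prod _ fun l _ => (im l).comp measurable_snd), C * 1,
        fun y => norm_mul_le_of_le (hC y) ?_⟩
      rw [pr, norm_prod]
      exact Finset.prod_le_one (fun _ _ => norm_nonneg _) fun l _ => ind_le _ _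
    have e1 : ∀ (ψ : X → ℂ) (k : ι),
        ∫ x, ψ x * (h k (Z x, W x) * pr i (univ.erase k) (W x)) ∂μ =
          ∫ x, ψ x * ((μ[a k | (o k).comap W ⊔ cm Z]) x * pr a (univ.erase k) x) ∂μ :=
      fun ψ k => integral_congr_ae ((he k).mono fun x hx => by
        simp only [hx]
        rfl)
    filter_upwards [fk.eq μ W Z hW hZ _ (hH j) _ (hH j') fun ψ hψ => by
      rw [e1, e1]
      exact H a ψ ha hψ j j', hce j, hce j'] with z h1 h2 h3
    refine (integral_congr_ae (h2.mono fun x hx => ?_)).trans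
      (h1.trans (integral_congr_ae (h3.mono fun x hx => ?_)))
    · simp only [← hx]
      rfl
    · simp only [← hx]
      rfl
  filter_upwards [ae_all_iff.2 fun s => ae_all_iff.2 fun j => ae_all_iff.2 fun j' => key s j j']
    with z hz a ha j j'
  refine multi hp ho hA hg j j' (fun b hb => ?_) univ a ha fun k hk => absurd (mem_univ k) hk
  choose s hs e using hb
  obtain rfl : b = fun k => (s k).indicator fun _ => (1 : ℂ) := funext e
  exact hz (fun k => ⟨s k, hs k⟩) j j'

end T3x

end
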