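import Pool.Agent.MP_154433_an.t3.Spec3

/-! Row GA: a countable model of a half grid over the same base. -/

set_option autoImplicit false
set_option linter.unusedVariables false
set_option warn.classDefReducibility false

open MeasureTheory ProbabilityTheory Filter Topology Function Finset ComplexConjugate
open scoped BigOperators
open Fib27 (BM sup pr Oc Orow F23 LInd Mem)
open Pool.Agent.MP_154433_an.SG

noncomputable section

namespace T3x

namespace GA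

lemma both {α : Type} {ok : Set α} {Q Q' : Set α → Prop}
    (hm : ∀ S S', S ⊆ S' → Q S → Q S') (hm' : ∀ S S', S ⊆ S' → Q' S → Q' S')
    (h : ∃ S : Set α, S.Countable ∧ S ⊆ ok ∧ Q S) (h' : ∃ S : Set α, S.Countable ∧ S ⊆ ok ∧ Q' S) :
    ∃ S : Set α, S.Countable ∧ S ⊆ ok ∧ Q S ∧ Q' S := by
  obtain ⟨S, a1, a2, a3⟩ := h
  obtain ⟨T, b1, b2, b3⟩ := h'
  exact ⟨S ∪ T, a1.union b1, Set.union_subset a2 b2, hm _ _ Set.subset_union_left a3,
    hm' _ _ Set.subset_union_right b3⟩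

lemma fnC {α X : Type} (ok : Set α) (Φ : Set α → MeasurableSpace X) (hΦ : Monotone Φ)
    {m m0 : MeasurableSpace X} (μ : Measure[m0] X) (hm : m ≤ CntR.hull ok Φ hΦ) (g : X → ℂ)
    (hg : AEStronglyMeasurable[m] g μ) :
    ∃ S : Set α, S.Countable ∧ S ⊆ ok ∧ AEStronglyMeasurable[Φ S] g μ := by
  obtain ⟨S, s1, s2, s3, s4⟩ := both (ok := ok)
    (Q := fun S => AEStronglyMeasurable[Φ S] (fun x => (g x).re) μ)
    (Q' := fun S => AEStronglyMeasurable[Φ S] (fun x => (g x).im) μ)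
    (fun S S' h h' => h'.mono (hΦ h)) (fun S S' h h' => h'.mono (hΦ h))
    (CntR.fn ok Φ hΦ μ hm _ (Complex.continuous_re.comp_aestronglyMeasurable hg))
    (CntR.fn ok Φ hΦ μ hm _ (Complex.continuous_im.comp_aestronglyMeasurable hg))
  refine ⟨S, s1, s2, ?_⟩
  have h1 := Complex.continuous_ofReal.comp_aestronglyMeasurable s3
  have h2 := Complex.continuous_ofReal.comp_aestronglyMeasurable s4
  exact (h1.add (h2.mul (aestronglyMeasurable_const (b := Complex.I)))).congr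
    (Eventually.of_forall fun x => Complex.re_add_im (g x))

lemma keepD {Ω : Type} {P O D : MeasurableSpace Ω} {m0 : MeasurableSpace Ω} {μ : Measure Ω}
    [IsProbabilityMeasure μ] (hP : P ≤ m0) (hO : O ≤ m0) (hD : D ≤ m0) {𝒜 : Set (Set Ω)}
    (hA : IsPiSystem 𝒜) (hu : Set.univ ∈ 𝒜) (hg : P = MeasurableSpace.generateFrom 𝒜)
    (h : ∀ s ∈ 𝒜, AEStronglyMeasurable[D] (μ[s.indicator fun _ => (1 : ℂ) | O]) μ)
    {a : Ω → ℂ} (ha : BM μ P a) : BM μ D (μ[a | O]) := by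
  have ha0 := ha.mono hP
  have hV : BM μ m0 (μ[a | O]) := (ha.ce O).mono hO
  refine (hV.ce D).congr (Fib27.ae_eq_of_tests le_rfl ((hV.ce D).mono hD) hV fun T hT => ?_)
  have hT' : BM μ m0 (μ[T | D]) := (hT.ce D).mono hD
  have h1 : BM μ m0 (μ[μ[T | D] | O]) := (hT'.ce O).mono hO
  have h2 : BM μ m0 (μ[T | O]) := (hT.ce O).mono hO
  rw [Fib27.int_ce_symm hD hV hT, Fib27.int_ce_symm hO ha0 hT', Fib27.int_ce_symm hO ha0 hT]
  have key := perp_pi hP hA hu hg (h1.sub h2) (fun s hs => by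
    have hi : BM μ P (s.indicator fun _ => (1 : ℂ)) :=
      BM.indicator (hg ▸ MeasurableSpace.measurableSet_generateFrom hs)
    have hi0 := hi.mono hP
    rw [Fib27.int_sub_mul h1 h2 hi0, Fib27.int_ce_symm hO hT' hi0, Fib27.int_ce_symm hO hT hi0,
      Fib27.int_ce_mul hD hT ((hi.ce O).of_aesm (h s hs)), sub_self]) a ha
  rw [Fib27.int_sub_mul h1 h2 ha0, sub_eq_zero] at key
  simpa only [mul_comm] using key

lemma keepE {Ω : Type} {P O D : MeasurableSpace Ω} {m0 : MeasurableSpace Ω} {μ : Measure Ω}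
    [IsProbabilityMeasure μ] (hP : P ≤ m0) (hO : O ≤ m0) (hD : D ≤ O) {𝒜 : Set (Set Ω)}
    (hA : IsPiSystem 𝒜) (hu : Set.univ ∈ 𝒜) (hg : P = MeasurableSpace.generateFrom 𝒜)
    (h : ∀ s ∈ 𝒜, AEStronglyMeasurable[D] (μ[s.indicator fun _ => (1 : ℂ) | O]) μ)
    {a : Ω → ℂ} (ha : BM μ P a) : μ[a | D] =ᵐ[μ] μ[a | O] :=
  (condExp_condExp_of_le hD hO).symm.trans
    ((keepD hP hO (hD.trans hO) hA hu hg h ha).ce_self (hD.trans hO))

open Classical in
lemma comap_seq {Ω : Type} (f : ℕ → Set Ω) :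
    MeasurableSpace.comap (fun (x : Ω) (n : ℕ) => decide (x ∈ f n)) inferInstance =
      MeasurableSpace.generateFrom (Set.range f) := by
  refine le_antisymm ?_ (MeasurableSpace.generateFrom_le ?_)
  · let _ : MeasurableSpace Ω := MeasurableSpace.generateFrom (Set.range f)
    refine Measurable.comap_le (measurable_pi_iff.2 fun n => measurable_to_bool ?_)
    have : (fun x => decide (x ∈ f n)) ⁻¹' {true} = f n := by ext x; simp
    rw [this]
    exact MeasurableSpace.measurableSet_generateFrom ⟨n, rfl⟩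
  · rintro _ ⟨n, rfl⟩
    refine ⟨(fun ω : ℕ → Bool => ω n) ⁻¹' {true},
      measurable_pi_apply n (measurableSet_singleton true), ?_⟩
    ext x; simp

variable {Ω ι : Type}

/-- the sets of `S` at a point -/
def at' (S : Set ((ι × ι) × Set Ω)) (q j : ι) : Set (Set Ω) := {A | ((q, j), A) ∈ S}

def g (S : Set ((ι × ι) × Set Ω)) (q j : ι) : MeasurableSpace Ω :=
  MeasurableSpace.generateFrom (at' S q j)

def ok (G : ι → ι → MeasurableSpace Ω) : Set ((ι × ι) × Set Ω) :=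
  {a | MeasurableSet[G a.1.1 a.1.2] a.2}

lemma g_mono {S S' : Set ((ι × ι) × Set Ω)} (h : S ⊆ S') (q j : ι) : g S q j ≤ g S' q j :=
  MeasurableSpace.generateFrom_mono fun _ hA => h hA

lemma g_le {G : ι → ι → MeasurableSpace Ω} {S : Set ((ι × ι) × Set Ω)} (h : S ⊆ ok G) (q j : ι) :
    g S q j ≤ G q j :=
  MeasurableSpace.generateFrom_le fun _ hA => h hA

lemma b_le (G : ι → ι → MeasurableSpace Ω) (β : MeasurableSpace Ω)
    (Φ : Set ((ι × ι) × Set Ω) → MeasurableSpace Ω) (hΦ : Monotone Φ) (h : ∀ S, β ≤ Φ S) :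
    β ≤ CntR.hull (ok G) Φ hΦ := fun A hA =>
  ⟨∅, Set.countable_empty, Set.empty_subset _, h _ _ hA⟩

lemma p_le (G : ι → ι → MeasurableSpace Ω) (q j : ι)
    (Φ : Set ((ι × ι) × Set Ω) → MeasurableSpace Ω) (hΦ : Monotone Φ) (h : ∀ S, g S q j ≤ Φ S) :
    G q j ≤ CntR.hull (ok G) Φ hΦ := fun A hA =>
  ⟨{((q, j), A)}, Set.countable_singleton _, Set.singleton_subset_iff.2 hA,
    h _ _ (MeasurableSpace.measurableSet_generateFrom (show ((q, j), A) ∈ ({((q, j), A)} :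
      Set ((ι × ι) × Set Ω)) from rfl))⟩

variable [Fintype ι] [DecidableEq ι]

lemma oc_mono {G G' : ι → ι → MeasurableSpace Ω} (h : ∀ q j, G q j ≤ G' q j) (q j : ι) :
    Oc G q j ≤ Oc G' q j := Fib27.sup_mono'' subset_rfl fun k _ => h k j

lemma or_mono {G G' : ι → ι → MeasurableSpace Ω} (h : ∀ q j, G q j ≤ G' q j) (q j : ι) :
    Orow G q j ≤ Orow G' q j := Fib27.sup_mono'' subset_rfl fun k _ => h q k

def F1 (β : MeasurableSpace Ω) (q j : ι) (S : Set ((ι × ι) × Set Ω)) : MeasurableSpace Ω :=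
  g S q j ⊔ β

def F2 (β : MeasurableSpace Ω) (q j : ι) (S : Set ((ι × ι) × Set Ω)) : MeasurableSpace Ω :=
  Oc (g S) q j ⊔ β

def F3 (β : MeasurableSpace Ω) (q j : ι) (S : Set ((ι × ι) × Set Ω)) : MeasurableSpace Ω :=
  Orow (g S) q j ⊔ β

omit [Fintype ι] [DecidableEq ι] in
lemma F1_mono (β : MeasurableSpace Ω) (q j : ι) : Monotone (F1 β q j) :=
  fun _ _ h => sup_le_sup_right (g_mono h q j) _

lemma F2_mono (β : MeasurableSpace Ω) (q j : ι) : Monotone (F2 β q j) :=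
  fun _ _ h => sup_le_sup_right (oc_mono (g_mono h) q j) _

lemma F3_mono (β : MeasurableSpace Ω) (q j : ι) : Monotone (F3 β q j) :=
  fun _ _ h => sup_le_sup_right (or_mono (g_mono h) q j) _

omit [Fintype ι] [DecidableEq ι] in
lemma le1 (G : ι → ι → MeasurableSpace Ω) (β : MeasurableSpace Ω) (q j : ι) :
    G q j ⊔ β ≤ CntR.hull (ok G) (F1 β q j) (F1_mono β q j) :=
  sup_le (p_le G q j _ _ fun _ => le_sup_left) (b_le G β _ _ fun _ => le_sup_right)

lemma le2 (G : ι → ι → MeasurableSpace Ω) (β : MeasurableSpace Ω) (q j : ι) :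
    Oc G q j ⊔ β ≤ CntR.hull (ok G) (F2 β q j) (F2_mono β q j) :=
  sup_le (Fib27.sup_le' fun k hk => p_le G k j _ _ fun S =>
    le_sup_of_le_left (Fib27.le_sup' (fun q' => g S q' j) hk)) (b_le G β _ _ fun _ => le_sup_right)

lemma le3 (G : ι → ι → MeasurableSpace Ω) (β : MeasurableSpace Ω) (q j : ι) :
    Orow G q j ⊔ β ≤ CntR.hull (ok G) (F3 β q j) (F3_mono β q j) :=
  sup_le (Fib27.sup_le' fun k hk => p_le G q k _ _ fun S =>
    le_sup_of_le_left (Fib27.le_sup' (g S q) hk)) (b_le G β _ _ fun _ => le_sup_right)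

/-- the closed countable family -/
lemma fam (β : MeasurableSpace Ω) (G : ι → ι → MeasurableSpace Ω) (q j : ι)
    {m0 : MeasurableSpace Ω} (μ : Measure Ω) [IsProbabilityMeasure μ] (h : Ω → ℂ)
    (hG : HG β G μ) (hV : VV β G q j μ h) :
    ∃ S : Set ((ι × ι) × Set Ω), S.Countable ∧ S ⊆ ok G ∧ (∀ p, (p, Set.univ) ∈ S) ∧
      VV β (g S) q j μ h ∧ (∀ q j, IsPiSystem (at' S q j)) ∧ ∀ q j, ∀ s ∈ at' S q j,
      (AEStronglyMeasurable[F1 β q j S] (μ[s.indicator fun _ => (1 : ℂ) | Oc G q j ⊔ β]) μ ∧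
      AEStronglyMeasurable[F2 β q j S] (μ[s.indicator fun _ => (1 : ℂ) | Oc G q j ⊔ β]) μ) ∧
      AEStronglyMeasurable[F1 β q j S] (μ[s.indicator fun _ => (1 : ℂ) | Orow G q j ⊔ β]) μ ∧
      AEStronglyMeasurable[F3 β q j S] (μ[s.indicator fun _ => (1 : ℂ) | Orow G q j ⊔ β]) μ := by
  have mo : ∀ (Φ : Set ((ι × ι) × Set Ω) → MeasurableSpace Ω) (hΦ : Monotone Φ) (f : Ω → ℂ),
      ∀ S S', S ⊆ S' → AEStronglyMeasurable[Φ S] f μ → AEStronglyMeasurable[Φ S'] f μ :=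
    fun Φ hΦ f S S' e e' => e'.mono (hΦ e)
  obtain ⟨S0, c0, o0, u0, v1, v2, v3⟩ := both (ok := ok G)
    (Q := fun S => ∀ p : ι × ι, (p, Set.univ) ∈ S) (fun S S' e e' p => e (e' p))
    (fun S S' e e' => ⟨mo _ (F1_mono β q j) h S S' e e'.1, mo _ (F2_mono β q j) h S S' e e'.2.1,
      mo _ (F3_mono β q j) h S S' e e'.2.2⟩)
    ⟨Set.range fun p : ι × ι => (p, Set.univ), Set.countable_range _, by
      rintro _ ⟨p, rfl⟩
      exact @MeasurableSet.univ _ (G p.1 p.2), fun p => ⟨p, rfl⟩⟩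
    (both (mo _ (F1_mono β q j) h)
      (fun S S' e e' => ⟨mo _ (F2_mono β q j) h S S' e e'.1, mo _ (F3_mono β q j) h S S' e e'.2⟩)
      (fnC (ok G) _ (F1_mono β q j) μ (le1 G β q j) h hV.1.1)
      (both (mo _ (F2_mono β q j) h) (mo _ (F3_mono β q j) h)
        (fnC (ok G) _ (F2_mono β q j) μ (le2 G β q j) h hV.2.1.1)
        (fnC (ok G) _ (F3_mono β q j) μ (le3 G β q j) h hV.2.2.1)))
  let ec : (ι × ι) × Set Ω → Ω → ℂ := fun a =>
    μ[a.2.indicator fun _ => (1 : ℂ) | Oc G a.1.1 a.1.2 ⊔ β]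
  let er : (ι × ι) × Set Ω → Ω → ℂ := fun a =>
    μ[a.2.indicator fun _ => (1 : ℂ) | Orow G a.1.1 a.1.2 ⊔ β]
  let Pc : (ι × ι) × Set Ω → Set ((ι × ι) × Set Ω) → Prop := fun a S =>
    AEStronglyMeasurable[F1 β a.1.1 a.1.2 S] (ec a) μ ∧
      AEStronglyMeasurable[F2 β a.1.1 a.1.2 S] (ec a) μ
  let Pw : (ι × ι) × Set Ω → Set ((ι × ι) × Set Ω) → Prop := fun a S =>
    AEStronglyMeasurable[F1 β a.1.1 a.1.2 S] (er a) μ ∧
      AEStronglyMeasurable[F3 β a.1.1 a.1.2 S] (er a) μ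
  have mc : ∀ a S S', S ⊆ S' → Pc a S → Pc a S' := fun a S S' e e' =>
    ⟨mo _ (F1_mono β _ _) _ S S' e e'.1, mo _ (F2_mono β _ _) _ S S' e e'.2⟩
  have mw : ∀ a S S', S ⊆ S' → Pw a S → Pw a S' := fun a S S' e e' =>
    ⟨mo _ (F1_mono β _ _) _ S S' e e'.1, mo _ (F3_mono β _ _) _ S S' e e'.2⟩
  obtain ⟨S, c, o, s0, cl⟩ := CntR.closure (ok G)
    (fun a a' S => (a'.1 = a.1 → (a.1, a.2 ∩ a'.2) ∈ S) ∧ Pc a S ∧ Pw a S)
    (fun a a' S S' e e' => ⟨fun u => e (e'.1 u), mc a S S' e e'.2.1, mw a S S' e e'.2.2⟩)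
    (fun a ha a' ha' => by
      have hi : BM μ (G a.1.1 a.1.2) (a.2.indicator fun _ => (1 : ℂ)) := BM.indicator ha
      refine both (fun S S' e e' u => e (e' u))
        (fun S S' e e' => ⟨mc a S S' e e'.1, mw a S S' e e'.2⟩) ?_
        (both (mc a) (mw a)
          (both (mo _ (F1_mono β _ _) _) (mo _ (F2_mono β _ _) _)
            (fnC (ok G) _ (F1_mono β _ _) μ (le1 G β _ _) _ (hG.f2c _ _ _ hi).1)
            (fnC (ok G) _ (F2_mono β _ _) μ (le2 G β _ _) _ (hi.ce _).1))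
          (both (mo _ (F1_mono β _ _) _) (mo _ (F3_mono β _ _) _)
            (fnC (ok G) _ (F1_mono β _ _) μ (le1 G β _ _) _ (hG.f2r _ _ _ hi).1)
            (fnC (ok G) _ (F3_mono β _ _) μ (le3 G β _ _) _ (hi.ce _).1)))
      by_cases u : a'.1 = a.1
      · refine ⟨{(a.1, a.2 ∩ a'.2)}, Set.countable_singleton _, Set.singleton_subset_iff.2 ?_,
          fun _ => rfl⟩
        have h2 : MeasurableSet[G a.1.1 a.1.2] a'.2 := by rw [← u]; exact ha'
        exact MeasurableSet.inter (m := G a.1.1 a.1.2) ha h2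
      · exact ⟨∅, Set.countable_empty, Set.empty_subset _, fun u' => absurd u' u⟩)
    S0 c0 o0
  refine ⟨S, c, o, fun p => s0 (u0 p), ⟨hV.1.of_aesm (v1.mono (F1_mono β q j s0)),
    hV.1.of_aesm (v2.mono (F2_mono β q j s0)), hV.1.of_aesm (v3.mono (F3_mono β q j s0))⟩,
    fun q j s hs t ht _ => (cl _ hs _ ht).1 rfl, fun q j s hs => (cl _ hs _ hs).2⟩

end GA

open GA in
theorem ga : GAR := by
  intro _ Ω ι _ _ β G q j m0 μ _ h hG hV
  classical
  obtain ⟨S, c, o, u, v, pi, cl⟩ := fam β G q j μ h hG hV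
  have hle := g_le o
  have hc : ∀ p : ι × ι, ∃ f : ℕ → Set Ω, at' S p.1 p.2 = Set.range f := fun p =>
    Set.Countable.exists_eq_range
      (c.preimage_of_injOn (f := fun A : Set Ω => ((p.1, p.2), A))
        fun _ _ _ _ e => (Prod.ext_iff.1 e).2) ⟨Set.univ, u _⟩
  choose f hf using hc
  let W : Ω → Cf ι := fun x p n => decide (x ∈ f p n)
  have hW : (fun q' j' => (PC q' j').comap W) = g S := by
    funext q' j'
    rw [PC, MeasurableSpace.comap_comp, g, hf (q', j'), ← comap_seq]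
    rfl
  have h0 : ∀ q j, g S q j ≤ m0 := fun q j => (hle q j).trans (hG.le q j)
  have hOc : ∀ q j, Oc G q j ⊔ β ≤ m0 := fun q j =>
    sup_le (Fib27.sup_le' fun k _ => hG.le k j) hG.ble
  have hOr : ∀ q j, Orow G q j ⊔ β ≤ m0 := fun q j =>
    sup_le (Fib27.sup_le' fun k _ => hG.le q k) hG.ble
  have ec : ∀ q j a, BM μ (g S q j) a → μ[a | Oc (g S) q j ⊔ β] =ᵐ[μ] μ[a | Oc G q j ⊔ β] :=
    fun q j a ha => keepE (h0 q j) (hOc q j) (sup_le_sup_right (oc_mono hle q j) β) (pi q j) (u _)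
      rfl (fun s hs => (cl q j s hs).1.2) ha
  have er : ∀ q j a, BM μ (g S q j) a → μ[a | Orow (g S) q j ⊔ β] =ᵐ[μ] μ[a | Orow G q j ⊔ β] :=
    fun q j a ha => keepE (h0 q j) (hOr q j) (sup_le_sup_right (or_mono hle q j) β) (pi q j) (u _)
      rfl (fun s hs => (cl q j s hs).2.2) ha
  refine ⟨W, ?_, fun q' j' => ?_, ?_, ?_⟩
  · refine measurable_pi_iff.2 fun p => measurable_pi_iff.2 fun n => measurable_to_bool ?_
    have : (fun x => W x p n) ⁻¹' {true} = f p n := by ext x; simp [W]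
    rw [this]
    refine h0 p.1 p.2 _ (MeasurableSpace.measurableSet_generateFrom ?_)
    rw [hf p]
    exact ⟨n, rfl⟩
  · rw [congrFun (congrFun hW q') j']
    exact hle q' j'
  · rw [hW]
    refine ⟨h0, hG.ble, fun T hT a ha => hG.rows T hT a fun k hk =>
      (ha k hk).mono (Fib27.sup_mono'' subset_rfl fun i _ => hle k i),
      fun T hT a ha => hG.cols T hT a fun k hk =>
      (ha k hk).mono (Fib27.sup_mono'' subset_rfl fun i _ => hle i k),
      fun q j a ha => ?_, fun q j a ha => ?_, fun q a ψ ha hψ j j' => ?_⟩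
    · exact (keepD (h0 q j) (hOc q j) (sup_le (h0 q j) hG.ble) (pi q j) (u _) rfl
        (fun s hs => (cl q j s hs).1.1) ha).congr (ec q j a ha).symm
    · exact (keepD (h0 q j) (hOr q j) (sup_le (h0 q j) hG.ble) (pi q j) (u _) rfl
        (fun s hs => (cl q j s hs).2.1) ha).congr (er q j a ha).symm
    · have e : ∀ j, ∫ x, ψ x * ((μ[a j | Oc (g S) q j ⊔ β]) x * pr a (univ.erase j) x) ∂μ =
          ∫ x, ψ x * ((μ[a j | Oc G q j ⊔ β]) x * pr a (univ.erase j) x) ∂μ := fun j =>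
        integral_congr_ae ((ec q j _ (ha j)).mono fun x hx => by simp only [hx])
      rw [e, e]
      exact hG.f3 q a ψ (fun k => (ha k).mono (hle q k)) hψ j j'
  · rw [hW]
    exact v

end T3x

end
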