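import Pool.Agent.MP_154433_an.t3.Spec3

/-! Conditional independence becomes independence on the fibres. -/

set_option autoImplicit false
set_option linter.unusedVariables false

open MeasureTheory ProbabilityTheory Filter Topology Function Finset ComplexConjugate
open scoped BigOperators
open Fib27 (BM sup pr Oc Orow F23 LInd Mem)

noncomputable section

namespace T3x

namespace GB

theorem ind_le {Ω : Type} (A : Set Ω) (ω : Ω) : ‖A.indicator (fun _ => (1 : ℂ)) ω‖ ≤ 1 := by
  by_cases h : ω ∈ A <;> simp [h]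

theorem ce (fk : FK) {X Ω Zs : Type} [MeasurableSpace X] [MeasurableSpace Ω]
    [StandardBorelSpace Ω] [Nonempty Ω] [MeasurableSpace Zs] (μ : Measure X)
    [IsProbabilityMeasure μ] {W : X → Ω} {Z : X → Zs} (hW : Measurable W) (hZ : Measurable Z)
    {A : Set Ω} (hA : MeasurableSet A) :
    μ[fun x => A.indicator (fun _ => (1 : ℂ)) (W x) | cm Z] =ᵐ[μ]
      fun x => ((condDistrib W Z μ (Z x) A).toReal : ℂ) := by
  refine (fk.int μ W Z hW hZ (fun y => A.indicator (fun _ => (1 : ℂ)) y.2)
    ⟨(measurable_const.indicator hA).comp measurable_snd, 1, fun y => ind_le A _⟩).trans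
    (Eventually.of_forall fun x => ?_)
  simp only [integral_indicator_const _ hA, Complex.real_smul, mul_one]
  rfl

theorem key (fk : FK) {X Ω Zs ι : Type} [Fintype ι] (p : ι → MeasurableSpace Ω)
    [MeasurableSpace X] [m1 : MeasurableSpace Ω] [StandardBorelSpace Ω] [Nonempty Ω]
    [MeasurableSpace Zs] (μ : Measure X) [IsProbabilityMeasure μ] {W : X → Ω} {Z : X → Zs}
    (hW : Measurable W) (hZ : Measurable Z) (hp : ∀ k, p k ≤ m1)
    (hl : CLine (cm Z) (fun k => (p k).comap W) μ) (S : Finset ι) (hS : S ≠ univ)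
    (A : ι → Set Ω) (hA : ∀ k, MeasurableSet[p k] (A k)) :
    ∀ᵐ z ∂μ.map Z, condDistrib W Z μ z (⋂ k ∈ S, A k) = ∏ k ∈ S, condDistrib W Z μ z (A k) := by
  have hA' : ∀ k, MeasurableSet (A k) := fun k => hp k _ (hA k)
  have hI : MeasurableSet (⋂ k ∈ S, A k) := Finset.measurableSet_biInter S fun k _ => hA' k
  have h1 := hl S hS (fun k x => (A k).indicator (fun _ => (1 : ℂ)) (W x)) fun k _ => by
    refine ⟨Measurable.aestronglyMeasurable ?_, 1, Eventually.of_forall fun x => ind_le _ _⟩
    exact (@Measurable.indicator _ _ _ _ (p k) _ _ measurable_const (hA k)).comp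
      (@comap_measurable _ _ (p k) W)
  have e : pr (fun k x => (A k).indicator (fun _ => (1 : ℂ)) (W x)) S =
      fun x => (⋂ k ∈ S, A k).indicator (fun _ => (1 : ℂ)) (W x) := by
    funext x
    by_cases h : W x ∈ ⋂ k ∈ S, A k
    · rw [Set.indicator_of_mem h]
      exact Finset.prod_eq_one fun k hk => Set.indicator_of_mem (Set.mem_iInter₂.1 h k hk) _
    · rw [Set.indicator_of_notMem h]
      obtain ⟨k, hk, c⟩ : ∃ k ∈ S, W x ∉ A k := by simpa using h
      exact Finset.prod_eq_zero hk (Set.indicator_of_notMem c _)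
  rw [e] at h1
  rw [ae_map_iff hZ.aemeasurable (measurableSet_eq_fun (Kernel.measurable_coe _ hI)
    (Finset.measurable_prod S fun k _ => Kernel.measurable_coe _ (hA' k)))]
  filter_upwards [h1, ce fk μ hW hZ hI, ae_all_iff.2 fun k => ce fk μ hW hZ (hA' k)] with x a b c
  rw [b, Finset.prod_congr rfl fun k _ => c k, ← Complex.ofReal_prod, Complex.ofReal_inj,
    ← ENNReal.toReal_prod] at a
  exact (ENNReal.toReal_eq_toReal_iff' (measure_ne_top _ _)
    (ENNReal.prod_ne_top fun k _ => measure_ne_top _ _)).1 a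

theorem lind {Ω ι : Type} [Fintype ι] [DecidableEq ι] (p : ι → MeasurableSpace Ω)
    [m1 : MeasurableSpace Ω] (κ : Measure Ω) [IsProbabilityMeasure κ] (hp : ∀ k, p k ≤ m1)
    (𝒜 : ι → Set (Set Ω)) (h2 : ∀ k, IsSetAlgebra (𝒜 k))
    (h3 : ∀ k, p k = MeasurableSpace.generateFrom (𝒜 k))
    (h : ∀ S : Finset ι, S ≠ univ → ∀ A : ι → Set Ω, (∀ k, A k ∈ 𝒜 k) →
      κ (⋂ k ∈ S, A k) = ∏ k ∈ S, κ (A k)) : LInd κ p := by
  rintro S T hd ⟨q, qS, qT⟩
  have hi : iIndep (fun k => if k = q then ⊥ else p k) κ := by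
    refine iIndepSets.iIndep (fun k => ?_) (fun k => if k = q then {Set.univ} else 𝒜 k)
      (fun k => ?_) (fun k => ?_) ?_
    · split_ifs
      exacts [bot_le, hp k]
    · split_ifs
      exacts [IsPiSystem.singleton _, (h2 k).isSetRing.isSetSemiring.isPiSystem]
    · split_ifs
      exacts [MeasurableSpace.generateFrom_singleton_univ.symm, h3 k]
    · rw [iIndepSets_iff]
      intro s f hf
      have := h (s.erase q) (fun e => notMem_erase q s (e.symm ▸ Finset.mem_univ q))
        (fun k => if k ∈ s.erase q then f k else Set.univ) fun k => by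
          split_ifs with c
          · simpa only [if_neg (Finset.ne_of_mem_erase c)] using hf k (Finset.mem_of_mem_erase c)
          · exact (h2 k).univ_mem
      rw [Set.iInter₂_congr fun k hk => if_pos hk,
        Finset.prod_congr rfl fun k hk => by rw [if_pos hk]] at this
      by_cases c : q ∈ s
      · have e : f q = Set.univ := by simpa using hf q c
        rw [← Finset.insert_erase c, Finset.set_biInter_insert, Finset.prod_insert (notMem_erase _ _),
          e, Set.univ_inter, measure_univ, one_mul, this]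
      · rwa [Finset.erase_eq_of_notMem c] at this
  have := indep_iSup_of_disjoint (fun k => by
    split_ifs
    exacts [bot_le, hp k]) hi (Finset.disjoint_coe.2 hd)
  have e : ∀ U : Finset ι, q ∉ U →
      (⨆ k ∈ (U : Set ι), if k = q then ⊥ else p k) = sup p U := fun U hU =>
    iSup_congr fun k => iSup_congr fun hk => if_neg fun e : k = q => hU (e ▸ hk)
  rwa [e S qS, e T qT] at this

end GB

theorem gb : GBR := by
  intro fk X Ω Zs ι _ _ p _ m1 _ _ _ μ _ W Z hW hZ hp hc hl
  choose 𝒜 h1 h2 h3 using fun k => cg_alg (p k) (hc k)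
  have := fun k => (h1 k).to_subtype
  have a : ∀ᵐ z ∂μ.map Z, ∀ (S : Finset ι) (A : ∀ k, 𝒜 k), S ≠ univ →
      condDistrib W Z μ z (⋂ k ∈ S, A k) = ∏ k ∈ S, condDistrib W Z μ z (A k) := by
    refine ae_all_iff.2 fun S => ae_all_iff.2 fun A => ?_
    by_cases hS : S = univ
    · exact Eventually.of_forall fun z h => absurd hS h
    · refine (GB.key fk p μ hW hZ hp hl S hS (fun k => A k) fun k => ?_).mono fun z h _ => h
      rw [h3 k]
      exact MeasurableSpace.measurableSet_generateFrom (A k).2
  exact a.mono fun z hz => GB.lind p _ hp 𝒜 h2 h3 fun S hS A hA => hz S (fun k => ⟨A k, hA k⟩) hS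

end T3x

end
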