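import Pool.Agent.MP_154433_an.t3.Spec3

/-! Row GF: selection of labels in one fibre. -/

set_option autoImplicit false
set_option linter.unusedVariables false
set_option warn.classDefReducibility false

open MeasureTheory ProbabilityTheory Filter Topology Function Finset ComplexConjugate
open scoped BigOperators
open Fib27 (BM sup pr Oc Orow F23 LInd Mem)

noncomputable section

namespace T3x

namespace GF

theorem prod_sub {ι : Type} [DecidableEq ι] (a b : ι → ℂ) (ha : ∀ k, ‖a k‖ ≤ 1)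
    (hb : ∀ k, ‖b k‖ ≤ 1) (S : Finset ι) :
    ‖∏ k ∈ S, a k - ∏ k ∈ S, b k‖ ≤ ∑ k ∈ S, ‖a k - b k‖ := by
  induction S using Finset.induction_on with
  | empty => simp
  | insert i S hi ih =>
    rw [Finset.prod_insert hi, Finset.prod_insert hi, Finset.sum_insert hi]
    have hB : ‖∏ k ∈ S, b k‖ ≤ 1 := by
      rw [norm_prod]
      exact Finset.prod_le_one (fun k _ => norm_nonneg _) fun k _ => hb k
    have e : a i * ∏ k ∈ S, a k - b i * ∏ k ∈ S, b k =
        (a i - b i) * ∏ k ∈ S, b k + a i * (∏ k ∈ S, a k - ∏ k ∈ S, b k) := by ring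
    rw [e]
    refine (norm_add_le _ _).trans (add_le_add ?_ ?_)
    · rw [norm_mul]
      exact mul_le_of_le_one_right (norm_nonneg _) hB
    · rw [norm_mul]
      exact (mul_le_of_le_one_left (norm_nonneg _) (ha i)).trans ih

variable {Ω : Type} {m0 : MeasurableSpace Ω} {κ : Measure Ω} [IsProbabilityMeasure κ]

theorem int1 {f : Ω → ℂ} (hf : AEStronglyMeasurable f κ) (hb : ∀ᵐ x ∂κ, ‖f x‖ ≤ 2) :
    Integrable (fun x => ‖f x‖) κ :=
  (Integrable.of_bound hf 2 hb).norm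

theorem int2 {f : Ω → ℂ} (hf : AEStronglyMeasurable f κ) (hb : ∀ᵐ x ∂κ, ‖f x‖ ≤ 2) :
    Integrable (fun x => ‖f x‖ ^ 2) κ := by
  refine Integrable.of_bound (hf.norm.pow 2) 4 ?_
  filter_upwards [hb] with x hx
  rw [Real.norm_of_nonneg (by positivity)]
  nlinarith [norm_nonneg (f x)]

/-- the first moment is bounded by the root of the second one -/
theorem l1_le {f : Ω → ℂ} (hf : AEStronglyMeasurable f κ) (hb : ∀ᵐ x ∂κ, ‖f x‖ ≤ 2) {δ : ℝ}
    (hδ : 0 < δ) (h : ∫ x, ‖f x‖ ^ 2 ∂κ ≤ δ ^ 2) : ∫ x, ‖f x‖ ∂κ ≤ δ := by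
  have h1 : ∫ x, 2 * δ * ‖f x‖ ∂κ ≤ ∫ x, (‖f x‖ ^ 2 + δ ^ 2) ∂κ := by
    refine integral_mono ((int1 hf hb).const_mul _) ((int2 hf hb).add (integrable_const _))
      fun x => ?_
    show 2 * δ * ‖f x‖ ≤ ‖f x‖ ^ 2 + δ ^ 2
    nlinarith [sq_nonneg (‖f x‖ - δ)]
  rw [integral_const_mul, integral_add (int2 hf hb) (integrable_const _)] at h1
  simp only [integral_const, probReal_univ, smul_eq_mul, one_mul] at h1
  have h2 : δ * ∫ x, ‖f x‖ ∂κ ≤ δ * δ := by nlinarith
  exact le_of_mul_le_mul_left h2 hδ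

end GF

theorem gf3 : GFS := by
  intro Ω m0 κ _ ι _ _ G hG hc q j h C v hgd hrow hne hC hv hden
  obtain ⟨w, ⟨χ, ⟨hm, h1, γ, hγ⟩, rfl⟩, ha⟩ := fspanS Ω m0 κ ι G hG hc q j h hgd hrow hne
  have hm0 : ∀ k, AEStronglyMeasurable (χ k) κ := fun k => (hm k).mono (hG.le k j)
  have h1' : ∀ k, ∀ᵐ x ∂κ, ‖χ k x‖ ≤ 1 := fun k => (h1 k).mono fun x hx => hx.le
  have hd := hden χ fun k => ⟨hm k, h1' k⟩
  have hdm : ∀ i k, AEStronglyMeasurable (fun x => v i k x - χ k x) κ :=
    fun i k => (hv i k).1.sub (hm0 k)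
  have hdb : ∀ i k, ∀ᵐ x ∂κ, ‖v i k x - χ k x‖ ≤ 2 := fun i k => by
    filter_upwards [h1' k] with x hx
    have := norm_sub_le (v i k x) (χ k x)
    linarith [(hv i k).2 x]
  have hC0 : 0 ≤ C := by
    obtain ⟨x, hx⟩ := hC.exists
    exact (norm_nonneg _).trans hx
  have hhm : AEStronglyMeasurable h κ := hgd.1.1.mono (hG.le q j)
  have hγ1 : ‖γ‖ = 1 := by
    obtain ⟨x, hx, hx'⟩ := ((ae_all_iff.2 h1).and hγ).exists
    rw [← hx', norm_prod]
    exact Finset.prod_eq_one fun k _ => hx k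
  have hapos : 0 < ‖∫ x, h x * conj (χ q x) ∂κ‖ := norm_pos_iff.2 ha
  obtain ⟨n, hn⟩ := exists_nat_gt (2 * C / ‖∫ x, h x * conj (χ q x) ∂κ‖)
  have hN : (0 : ℝ) < 100 + n := by positivity
  obtain ⟨η, hη⟩ : ∃ η : ℝ, η = 1 / (100 + n : ℝ) := ⟨_, rfl⟩
  have hη0 : 0 < η := by rw [hη]; positivity
  have hCη : 2 * (C * η) < ‖∫ x, h x * conj (χ q x) ∂κ‖ := by
    rw [div_lt_iff₀ hapos] at hn
    have : 2 * (C * η) = 2 * C / (100 + n) := by rw [hη]; ring
    rw [this, div_lt_iff₀ hN]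
    nlinarith
  obtain ⟨i0, hi0⟩ := hd ((η / 2) ^ 2) (by positivity)
  have hcm : ∀ f : Ω → ℂ, AEStronglyMeasurable f κ → (∀ᵐ x ∂κ, ‖f x‖ ≤ 1) →
      Integrable (fun x => h x * conj (f x)) κ := fun f hf hb => by
    refine Integrable.of_bound (hhm.mul (Complex.continuous_conj.comp_aestronglyMeasurable hf))
      C ?_
    filter_upwards [hb, hC] with x hx hx'
    rw [norm_mul, Complex.norm_conj]
    exact (mul_le_of_le_one_right (norm_nonneg _) hx).trans hx'
  refine ⟨i0, n, ?_, fun n' => ?_⟩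
  · rw [← hη]
    have e1 := GF.l1_le (hdm i0 q) (hdb i0 q) (by positivity : 0 < η / 2) (hi0 q)
    have e2 : ‖∫ x, h x * conj (χ q x) ∂κ - ∫ x, h x * conj (v i0 q x) ∂κ‖ ≤
        ∫ x, C * ‖v i0 q x - χ q x‖ ∂κ := by
      rw [← integral_sub (hcm _ (hm0 q) (h1' q))
        (hcm _ (hv i0 q).1 (Eventually.of_forall (hv i0 q).2))]
      refine norm_integral_le_of_norm_le ((GF.int1 (hdm i0 q) (hdb i0 q)).const_mul C) ?_
      filter_upwards [hC] with x hx
      rw [← mul_sub, ← map_sub, norm_mul, Complex.norm_conj, norm_sub_rev]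
      exact mul_le_mul_of_nonneg_right hx (norm_nonneg _)
    rw [integral_const_mul] at e2
    have e3 := norm_sub_norm_le (∫ x, h x * conj (χ q x) ∂κ) (∫ x, h x * conj (v i0 q x) ∂κ)
    have e4 := mul_le_mul_of_nonneg_left e1 hC0
    have e5 : 0 ≤ C * η := mul_nonneg hC0 hη0.le
    linarith
  · rw [← hη]
    have hK : (0 : ℝ) < Fintype.card ι := by
      have : 0 < Fintype.card ι := by omega
      exact_mod_cast this
    obtain ⟨δ, hδ⟩ : ∃ δ : ℝ, δ = min (η / 2) ((1 / 4) ^ n' / Fintype.card ι) := ⟨_, rfl⟩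
    have hδ0 : 0 < δ := by rw [hδ]; positivity
    have hδ1 : δ ≤ η / 2 := by rw [hδ]; exact min_le_left _ _
    have hδ2 : Fintype.card ι * δ ≤ (1 / 4 : ℝ) ^ n' := by
      have : δ ≤ (1 / 4) ^ n' / Fintype.card ι := by rw [hδ]; exact min_le_right _ _
      rwa [le_div_iff₀ hK, mul_comm] at this
    obtain ⟨i, hi⟩ := hd (δ ^ 2) (by positivity)
    refine ⟨i, ?_, fun k => ?_⟩
    · have hpi : Integrable (pr (v i) univ) κ := by
        refine Integrable.of_bound
          (Finset.aestronglyMeasurable_fun_prod univ fun k _ => (hv i k).1) 1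
          (Eventually.of_forall fun x => ?_)
        show ‖∏ k, v i k x‖ ≤ 1
        rw [norm_prod]
        exact Finset.prod_le_one (fun k _ => norm_nonneg _) fun k _ => (hv i k).2 x
      have e0 : ∫ x, (pr (v i) univ x - γ) ∂κ = ∫ x, pr (v i) univ x ∂κ - γ := by
        rw [integral_sub hpi (integrable_const _)]
        simp
      have e1 : ‖∫ x, (pr (v i) univ x - γ) ∂κ‖ ≤ ∫ x, ∑ k, ‖v i k x - χ k x‖ ∂κ := by
        refine norm_integral_le_of_norm_le
          (integrable_finsetSum _ fun k _ => GF.int1 (hdm i k) (hdb i k)) ?_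
        filter_upwards [ae_all_iff.2 h1', hγ] with x hx hx'
        rw [← hx']
        exact GF.prod_sub _ _ (fun k => (hv i k).2 x) hx univ
      rw [e0, integral_finsetSum _ fun k _ => GF.int1 (hdm i k) (hdb i k)] at e1
      have e2 : ∑ k, ∫ x, ‖v i k x - χ k x‖ ∂κ ≤ ∑ _k : ι, δ :=
        Finset.sum_le_sum fun k _ => GF.l1_le (hdm i k) (hdb i k) hδ0 (hi k)
      rw [Finset.sum_const, Finset.card_univ, nsmul_eq_mul] at e2
      have e3 := norm_sub_norm_le γ (∫ x, pr (v i) univ x ∂κ)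
      rw [norm_sub_rev, hγ1] at e3
      linarith
    · have e1 : ∫ x, ‖v i k x - v i0 k x‖ ^ 2 ∂κ ≤
          ∫ x, (2 * ‖v i k x - χ k x‖ ^ 2 + 2 * ‖v i0 k x - χ k x‖ ^ 2) ∂κ := by
        refine integral_mono_of_nonneg (Eventually.of_forall fun x => by positivity)
          (((GF.int2 (hdm i k) (hdb i k)).const_mul 2).add
            ((GF.int2 (hdm i0 k) (hdb i0 k)).const_mul 2)) (Eventually.of_forall fun x => ?_)
        have t1 : ‖v i k x - v i0 k x‖ ≤ ‖v i k x - χ k x‖ + ‖v i0 k x - χ k x‖ := by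
          have := norm_sub_le (v i k x - χ k x) (v i0 k x - χ k x)
          rwa [sub_sub_sub_cancel_right] at this
        have t2 := pow_le_pow_left₀ (norm_nonneg _) t1 2
        show ‖v i k x - v i0 k x‖ ^ 2 ≤
          2 * ‖v i k x - χ k x‖ ^ 2 + 2 * ‖v i0 k x - χ k x‖ ^ 2
        nlinarith [sq_nonneg (‖v i k x - χ k x‖ - ‖v i0 k x - χ k x‖)]
      rw [integral_add ((GF.int2 (hdm i k) (hdb i k)).const_mul 2)
        ((GF.int2 (hdm i0 k) (hdb i0 k)).const_mul 2), integral_const_mul,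
        integral_const_mul] at e1
      have t3 := pow_le_pow_left₀ hδ0.le hδ1 2
      have t4 := hi k
      have t5 := hi0 k
      nlinarith

end T3x

end
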