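import Pool.Agent.MP_154433_an.t3.Spec3

/-! Assembly of GG from the fibre rows. -/

set_option autoImplicit false

open MeasureTheory ProbabilityTheory Filter Topology Function Finset ComplexConjugate
open Fib27 (BM sup pr Oc Orow LInd)

noncomputable section

namespace T3x

namespace GG3r

lemma comap_sup' {X Ω ι : Type} (p : ι → MeasurableSpace Ω) (S : Finset ι) (W : X → Ω) :
    (sup p S).comap W = sup (fun k => (p k).comap W) S := by
  simp only [Fib27.sup, MeasurableSpace.comap_iSup]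

lemma cg_sup {Ω ι : Type} [Countable ι] (p : ι → MeasurableSpace Ω) (S : Finset ι)
    (h : ∀ k, @MeasurableSpace.CountablyGenerated Ω (p k)) :
    @MeasurableSpace.CountablyGenerated Ω (sup p S) :=
  Pool.Agent.MP_154433_an.SG.Fb2.cg_iSup _ fun k =>
    Pool.Agent.MP_154433_an.SG.Fb2.cg_iSup _ fun _ => h k

variable {ι : Type} [Fintype ι] [DecidableEq ι]

omit [Fintype ι] [DecidableEq ι] in
lemma pc_le (q j : ι) : PC q j ≤ (inferInstance : MeasurableSpace (Cf ι)) :=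
  (measurable_pi_apply (q, j)).comap_le

omit [Fintype ι] [DecidableEq ι] in
lemma pc_cg (q j : ι) : @MeasurableSpace.CountablyGenerated (Cf ι) (PC q j) :=
  MeasurableSpace.CountablyGenerated.comap _

lemma grid (hB : GBS) (h2 : G2S) (h3 : G3S) {X Zs : Type} [MeasurableSpace X]
    [MeasurableSpace Zs] (μ : Measure X) [IsProbabilityMeasure μ] {W : X → Cf ι} {Z : X → Zs}
    (hW : Measurable W) (hZ : Measurable Z)
    (hG : HG (cm Z) (fun q j => (PC q j).comap W) μ) :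
    ∀ᵐ z ∂μ.map Z, HGrid (condDistrib W Z μ z) (PC : ι → ι → MeasurableSpace (Cf ι)) := by
  have ocl : ∀ q j : ι, Oc PC q j ≤ (inferInstance : MeasurableSpace (Cf ι)) := fun q j =>
    Fib27.sup_le' fun k _ => pc_le k j
  have orl : ∀ q j : ι, Orow PC q j ≤ (inferInstance : MeasurableSpace (Cf ι)) := fun q j =>
    Fib27.sup_le' fun k _ => pc_le q k
  have oce : ∀ q j : ι, (Oc PC q j).comap W = Oc (fun q j => (PC q j).comap W) q j := fun q j =>
    comap_sup' _ _ _
  have ore : ∀ q j : ι, (Orow PC q j).comap W = Orow (fun q j => (PC q j).comap W) q j :=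
    fun q j => comap_sup' _ _ _
  have a1 := hB (fun q : ι => sup (PC q) univ) μ W Z hW hZ
    (fun q => Fib27.sup_le' fun k _ => pc_le q k) (fun q => cg_sup _ _ fun k => pc_cg q k)
    (by simpa only [comap_sup'] using hG.rows)
  have a2 := hB (fun j : ι => sup (fun q => PC q j) univ) μ W Z hW hZ
    (fun j => Fib27.sup_le' fun k _ => pc_le k j) (fun j => cg_sup _ _ fun k => pc_cg k j)
    (by simpa only [comap_sup'] using hG.cols)
  have a3 := fun q j : ι => h2 (PC q j) (Oc PC q j) μ W Z hW hZ (pc_le q j) (ocl q j) (pc_cg q j)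
    (cg_sup _ _ fun k => pc_cg k j) (by rw [oce]; exact hG.f2c q j)
  have a4 := fun q j : ι => h2 (PC q j) (Orow PC q j) μ W Z hW hZ (pc_le q j) (orl q j)
    (pc_cg q j) (cg_sup _ _ fun k => pc_cg q k) (by rw [ore]; exact hG.f2r q j)
  have a5 := fun q : ι => h3 (PC q) (Oc PC q) μ W Z hW hZ (pc_le q) (ocl q) (pc_cg q)
    (fun j => cg_sup _ _ fun k => pc_cg k j) (by simp only [oce]; exact hG.f3 q)
  filter_upwards [a1, a2, ae_all_iff.2 fun q => ae_all_iff.2 fun j => a3 q j,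
    ae_all_iff.2 fun q => ae_all_iff.2 fun j => a4 q j, ae_all_iff.2 a5] with z b1 b2 b3 b4 b5
  exact ⟨pc_le, b1, b2, fun q => ⟨ocl q, b3 q, b5 q⟩, b4⟩

lemma core (hK : FK) (hB : GBS) (h2 : G2S) (h3 : G3S) (hL : LabS) (hF : GFS) {X Zs : Type}
    (β : MeasurableSpace X) [m0 : MeasurableSpace X] [MeasurableSpace Zs] (μ : Measure X)
    [IsProbabilityMeasure μ] {W : X → Cf ι} {Z : X → Zs} (hβ : β = cm Z) (hW : Measurable W)
    (hZ : Measurable Z) (hG : HG β (fun q j => (PC q j).comap W) μ) (hc : 3 ≤ Fintype.card ι)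
    {q j : ι} {h : X → ℂ} {C : ℝ} (hV : VV β (fun q j => (PC q j).comap W) q j μ h) (hC : 0 ≤ C)
    (hb : ∀ᵐ x ∂μ, ‖h x‖ ≤ C) (hne : ¬ h =ᵐ[μ] 0) :
    ∃ (v : ℕ → ι → Cf ι → ℂ) (i0 n : ℕ),
      (∀ i k, Measurable[PC k j] (v i k) ∧ ∀ ω, ‖v i k ω‖ ≤ 1) ∧
      μ (DS β μ (fun i k x => v i k (W x)) (fun k x => v i0 k (W x)) (1 / (100 + n : ℝ)) ∩
        {x | C * (1 / (100 + n : ℝ)) < ‖(μ[fun y => h y * conj (v i0 q (W y)) | β]) x‖}) ≠ 0 := by
  subst hβ
  obtain ⟨v, hv, hd⟩ := hL ι j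
  have mv : ∀ i k, Measurable (v i k) := fun i k => (hv i k).1.mono (pc_le k j) le_rfl
  have ocl : Oc PC q j ≤ (inferInstance : MeasurableSpace (Cf ι)) :=
    Fib27.sup_le' fun k _ => pc_le k j
  have orl : Orow PC q j ≤ (inferInstance : MeasurableSpace (Cf ι)) :=
    Fib27.sup_le' fun k _ => pc_le q k
  obtain ⟨g, mg, bg, sg, eg⟩ := hK.rep (PC q j) μ W Z h C (pc_le q j) hC hV.1.1 hb
  obtain ⟨g1, mg1, -, sg1, eg1⟩ := hK.rep (Oc PC q j) μ W Z h C ocl hC
    (by rw [Oc, comap_sup']; exact hV.2.1.1) hb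
  obtain ⟨g2, mg2, -, sg2, eg2⟩ := hK.rep (Orow PC q j) μ W Z h C orl hC
    (by rw [Orow, comap_sup']; exact hV.2.2.1) hb
  have a1 := ae_of_ae_map hZ.aemeasurable (grid hB h2 h3 μ hW hZ hG)
  have a2 := ae_of_ae_map hZ.aemeasurable
    ((hK.ae μ W Z hW hZ g1 g mg1 mg).1 (eg1.symm.trans eg))
  have a3 := ae_of_ae_map hZ.aemeasurable
    ((hK.ae μ W Z hW hZ g2 g mg2 mg).1 (eg2.symm.trans eg))
  have bp : ∀ i ω, ‖pr (v i) univ ω‖ ≤ 1 := fun i ω => by
    rw [pr, norm_prod]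
    exact prod_le_one (fun k _ => norm_nonneg _) fun k _ => (hv i k).2 ω
  have mp : ∀ i, Measurable (pr (v i) univ) := fun i => Finset.measurable_prod _ fun k _ => mv i k
  have a4 : ∀ i, μ[pr (fun k x => v i k (W x)) univ | cm Z] =ᵐ[μ]
      fun x => ∫ ω, pr (v i) univ ω ∂condDistrib W Z μ (Z x) := fun i =>
    condExp_ae_eq_integral_condDistrib hZ hW.aemeasurable (mp i).stronglyMeasurable
      (Integrable.of_bound ((mp i).comp hW).aestronglyMeasurable 1
        (Eventually.of_forall fun x => bp i _))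
  have a5 : ∀ i i' k, μ[fun y => ‖v i k (W y) - v i' k (W y)‖ ^ 2 | cm Z] =ᵐ[μ]
      fun x => ∫ ω, ‖v i k ω - v i' k ω‖ ^ 2 ∂condDistrib W Z μ (Z x) := fun i i' k => by
    have m : Measurable fun ω => ‖v i k ω - v i' k ω‖ ^ 2 :=
      ((mv i k).sub (mv i' k)).norm.pow_const 2
    refine condExp_ae_eq_integral_condDistrib hZ hW.aemeasurable m.stronglyMeasurable
      (Integrable.of_bound (m.comp hW).aestronglyMeasurable (2 ^ 2)
        (Eventually.of_forall fun x => ?_))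
    rw [norm_pow, norm_norm]
    refine pow_le_pow_left₀ (norm_nonneg _) ((norm_sub_le _ _).trans ?_) 2
    linarith [(hv i k).2 (W x), (hv i' k).2 (W x)]
  have a6 : ∀ i, μ[fun y => h y * conj (v i q (W y)) | cm Z] =ᵐ[μ]
      fun x => ∫ ω, g (Z x, ω) * conj (v i q ω) ∂condDistrib W Z μ (Z x) := fun i => by
    refine (condExp_congr_ae ?_).trans (hK.int μ W Z hW hZ (fun p => g p * conj (v i q p.2))
      ⟨mg.mul (Complex.continuous_conj.measurable.comp ((mv i q).comp measurable_snd)), C,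
        fun p => ?_⟩)
    · filter_upwards [eg] with x hx
      rw [hx]
    · rw [norm_mul, Complex.norm_conj]
      exact (mul_le_of_le_one_right (norm_nonneg _) ((hv i q).2 _)).trans (bg p)
  have a7 : μ[fun y => h y * conj (h y) | cm Z] =ᵐ[μ]
      fun x => ∫ ω, g (Z x, ω) * conj (g (Z x, ω)) ∂condDistrib W Z μ (Z x) := by
    refine (condExp_congr_ae ?_).trans (hK.int μ W Z hW hZ (fun p => g p * conj (g p))
      ⟨mg.mul (Complex.continuous_conj.measurable.comp mg), C * C, fun p => ?_⟩)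
    · filter_upwards [eg] with x hx
      rw [hx]
    · rw [norm_mul, Complex.norm_conj]
      exact mul_le_mul (bg p) (bg p) (norm_nonneg _) hC
  by_contra hcon
  push Not at hcon
  have a8 := ae_all_iff.2 fun i0 => ae_all_iff.2 fun n =>
    measure_eq_zero_iff_ae_notMem.1 (hcon v i0 n hv)
  have h0 : BM μ m0 h := hV.1.mono (sup_le (hG.le q j) hG.ble)
  refine hne (Fib27.eq_zero_of_int_conj h0 ?_)
  rw [← integral_condExp hG.ble]
  refine integral_eq_zero_of_ae ?_
  filter_upwards [a1, a2, a3, ae_all_iff.2 a4, ae_all_iff.2 fun i => ae_all_iff.2 fun i' =>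
    ae_all_iff.2 (a5 i i'), ae_all_iff.2 a6, a7, a8] with x b1 b2 b3 b4 b5 b6 b7 b8
  rw [b7]
  have bz : BM (condDistrib W Z μ (Z x)) (PC q j) fun ω => g (Z x, ω) :=
    ⟨(sg _).aestronglyMeasurable, C, Eventually.of_forall fun ω => bg _⟩
  by_cases hz : (fun ω => g (Z x, ω)) =ᵐ[condDistrib W Z μ (Z x)] 0
  · refine integral_eq_zero_of_ae ?_
    filter_upwards [hz] with ω hω
    simp only [hω, Pi.zero_apply, zero_mul]
  · obtain ⟨i0, n, c1, c2⟩ := hF _ _ _ ι PC b1 hc q j _ C v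
      ⟨bz, bz.of_aesm ((sg1 _).aestronglyMeasurable.congr b2)⟩
      (bz.of_aesm ((sg2 _).aestronglyMeasurable.congr b3)) hz
      (Eventually.of_forall fun ω => bg _)
      (fun i k => ⟨(mv i k).aestronglyMeasurable, (hv i k).2⟩) (hd _)
    refine absurd ⟨?_, ?_⟩ (b8 i0 n)
    · refine Set.mem_iInter.2 fun n' => ?_
      obtain ⟨i, d1, d2⟩ := c2 n'
      refine Set.mem_iUnion.2 ⟨i, ?_, fun k => ?_⟩
      · rw [b4]; exact d1
      · rw [b5]; exact d2 k
    · rw [Set.mem_ofPred_eq, b6]; exact c1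

end GG3r

theorem gg3 : GG3R := by
  intro hK hA hB h2 h3 hL hF Ω ι _ _ β G q j m0 μ _ h C hG hc hV hC hb hne
  obtain ⟨W, hW, hle, hG', hV'⟩ := hA β G q j μ h hG hV
  obtain ⟨v, i0, n, hv, e⟩ := @GG3r.core ι _ _ hK hB h2 h3 hL hF Ω Ω β m0 β μ _ W id
    MeasurableSpace.comap_id.symm hW (measurable_id'' hG.ble) hG' hc q j h C hV' hC hb hne
  have lb : ∀ i k, Lb (G k j) μ fun x => v i k (W x) := fun i k =>
    ⟨((((hv i k).1.comp (@comap_measurable _ _ (PC k j) W)).mono (hle k j)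
      le_rfl).stronglyMeasurable).aestronglyMeasurable, fun x => (hv i k).2 _⟩
  refine ⟨_, _, _, lb, lb i0, by positivity, ?_, e⟩
  exact one_div_le_one_div_of_le (by norm_num) (le_add_of_nonneg_right (Nat.cast_nonneg n))

end T3x

end
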