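import Pool.Agent.MP_154433_an.t3.Spec3

/-! Row Lab: a countable family of labels that is dense for every measure. -/

set_option autoImplicit false

open MeasureTheory Filter Topology Function

noncomputable section

namespace T3x

namespace Lab

/-- the radial projection to the closed unit disc -/
def clip (z : ℂ) : ℂ := z / ((max 1 ‖z‖ : ℝ) : ℂ)

theorem clip_meas : Measurable clip := by
  unfold clip
  fun_prop

theorem clip_le (z : ℂ) : ‖clip z‖ ≤ 1 := by
  have h : (0 : ℝ) < max 1 ‖z‖ := lt_max_of_lt_left one_pos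
  rw [clip, norm_div, Complex.norm_real, Real.norm_of_nonneg h.le, div_le_one h]
  exact le_max_right _ _

theorem clip_sub (z : ℂ) {w : ℂ} (hw : ‖w‖ ≤ 1) : ‖clip z - w‖ ^ 2 ≤ 4 * ‖w - z‖ := by
  have h1 : ‖clip z - z‖ ≤ ‖w - z‖ := by
    rcases le_total ‖z‖ 1 with h | h
    · simp [clip, max_eq_left h]
    · have h0 : (0 : ℝ) < ‖z‖ := one_pos.trans_le h
      have h2 : ((‖z‖ : ℝ) : ℂ) ≠ 0 := by exact_mod_cast h0.ne'
      have e : clip z - z = -(((‖z‖ - 1 : ℝ) : ℂ) * (z / ((‖z‖ : ℝ) : ℂ))) := by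
        rw [clip, max_eq_right h]
        push_cast
        field_simp
        ring
      rw [e, norm_neg, norm_mul, norm_div, Complex.norm_real, Complex.norm_real,
        Real.norm_of_nonneg (sub_nonneg.2 h), Real.norm_of_nonneg h0.le, div_self h0.ne', mul_one,
        norm_sub_rev]
      exact (sub_le_sub_left hw _).trans (norm_sub_norm_le z w)
  have h2 : ‖clip z - w‖ ≤ 2 * ‖w - z‖ := by
    have := norm_sub_le_norm_sub_add_norm_sub (clip z) z w
    rw [norm_sub_rev z w] at this
    linarith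
  have h3 : ‖clip z - w‖ ≤ 2 := (norm_sub_le _ _).trans (by linarith [clip_le z])
  nlinarith [norm_nonneg (clip z - w)]

/-- one point -/
theorem one : ∃ u : ℕ → (ℕ → Bool) → ℂ, (∀ i, Measurable (u i) ∧ ∀ y, ‖u i y‖ ≤ 1) ∧
    ∀ (ν : Measure (ℕ → Bool)) [IsProbabilityMeasure ν] (f : (ℕ → Bool) → ℂ), Measurable f →
      (∀ᵐ y ∂ν, ‖f y‖ ≤ 1) → ∀ ε : ℝ, 0 < ε → ∃ i, ∫ y, ‖u i y - f y‖ ^ 2 ∂ν ≤ ε := by
  let d := TopologicalSpace.denseSeq C(ℕ → Bool, ℂ)
  refine ⟨fun i y => clip (d i y), fun i => ⟨clip_meas.comp (d i).continuous.measurable,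
    fun y => clip_le _⟩, fun ν _ f hf hb ε hε => ?_⟩
  have hi : Integrable f ν := Integrable.of_bound hf.aestronglyMeasurable 1 hb
  obtain ⟨g, h1, h2⟩ := hi.exists_boundedContinuous_integral_sub_le (ε := ε / 8) (by positivity)
  obtain ⟨i, h3⟩ := (TopologicalSpace.denseRange_denseSeq C(ℕ → Bool, ℂ)).exists_dist_lt
    g.toContinuousMap (ε := ε / 8) (by positivity)
  refine ⟨i, ?_⟩
  have h4 : ∀ y, ‖g y - d i y‖ ≤ ε / 8 := fun y => by
    rw [← dist_eq_norm]
    exact (ContinuousMap.dist_apply_le_dist (f := g.toContinuousMap) (g := d i) y).trans h3.le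
  have h5 : Integrable (fun y => ‖f y - g y‖) ν := (hi.sub h2).norm
  calc ∫ y, ‖clip (d i y) - f y‖ ^ 2 ∂ν ≤ ∫ y, 4 * (‖f y - g y‖ + ε / 8) ∂ν := by
        refine integral_mono_of_nonneg (Eventually.of_forall fun y => by positivity)
          ((h5.add (integrable_const _)).const_mul _) (hb.mono fun y hy => ?_)
        have h6 := clip_sub (d i y) hy
        have h7 := norm_sub_le_norm_sub_add_norm_sub (f y) (g y) (d i y)
        have h8 := h4 y
        dsimp only
        linarith
    _ ≤ ε := by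
        rw [integral_const_mul, integral_add h5 (integrable_const _), integral_const,
          probReal_univ, one_smul]
        linarith

end Lab

theorem lab : LabS := by
  intro ι _ _ j
  obtain ⟨u, h1, h2⟩ := Lab.one
  obtain ⟨e, he⟩ := exists_surjective_nat (ι → ℕ)
  refine ⟨fun i k ω => u (e i k) (ω (k, j)), fun i k =>
    ⟨(h1 _).1.comp (comap_measurable _), fun ω => (h1 _).2 _⟩, fun κ _ χ hχ ε hε => ?_⟩
  have key : ∀ k, ∃ n, ∫ ω, ‖u n (ω (k, j)) - χ k ω‖ ^ 2 ∂κ ≤ ε := fun k => by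
    obtain ⟨⟨g, hg, e1⟩, hb⟩ := hχ k
    obtain ⟨f, hf, rfl⟩ := StronglyMeasurable.exists_eq_measurable_comp hg
    have hp : Measurable fun ω : Cf ι => ω (k, j) := measurable_pi_apply _
    have := Measure.isProbabilityMeasure_map (μ := κ) hp.aemeasurable
    obtain ⟨n, hn⟩ := h2 (κ.map fun ω => ω (k, j)) f hf.measurable
      ((ae_map_iff hp.aemeasurable (measurableSet_le hf.measurable.norm measurable_const)).2 (by
        filter_upwards [e1, hb] with ω h3 h4
        rwa [h3] at h4)) ε hε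
    have hm : Measurable fun y => ‖u n y - f y‖ ^ 2 :=
      ((h1 n).1.sub hf.measurable).norm.pow_const 2
    rw [integral_map hp.aemeasurable hm.aestronglyMeasurable] at hn
    refine ⟨n, (integral_congr_ae ?_).trans_le hn⟩
    filter_upwards [e1] with ω h3
    rw [h3]
    rfl
  choose n hn using key
  obtain ⟨i, rfl⟩ := he n
  exact ⟨i, hn⟩

end T3x
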