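import Pool.Agent.MP_154433_an.t3.FK
import Pool.Agent.MP_154433_an.t3.GG3
import Pool.Agent.MP_154433_an.t3.GA
import Pool.Agent.MP_154433_an.t3.GB
import Pool.Agent.MP_154433_an.t3.G2
import Pool.Agent.MP_154433_an.t3.G3
import Pool.Agent.MP_154433_an.t3.Lab
import Pool.Agent.MP_154433_an.t3.GF

/-! Assembly of the global-gluing statement from its rows. -/

set_option autoImplicit false

namespace T3x

theorem ggS : Bas → GGS := fun b => gg3 fk (ga b) (gb fk) (g2 fk) (g3 fk) lab gf3

end T3x
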