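import Pool.Agent.MP_154433_an.t3.Spec

/-! Weak mixing over a factor, read in the relative square. -/

set_option autoImplicit false
set_option linter.unusedVariables false
set_option warn.classDefReducibility false
set_option linter.unusedSectionVars false

open MeasureTheory ProbabilityTheory Filter Topology Function Finset ComplexConjugate
open scoped BigOperators
open Fib27 (BM)

noncomputable section

namespace T3x

namespace KfAx

section Gen

variable {Ω : Type} {m m0 : MeasurableSpace Ω} {κ : Measure Ω} {f a h G : Ω → ℂ}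

lemma bnd (ha : BM κ m a) : ∃ C : ℝ, 1 ≤ C ∧ ∀ᵐ x ∂κ, ‖a x‖ ≤ C := by
  obtain ⟨_, C, hC⟩ := ha
  exact ⟨max 1 C, le_max_left _ _, hC.mono fun x hx => hx.trans (le_max_right _ _)⟩

lemma imul (hf : Integrable f κ) (ha : BM κ m0 a) : Integrable (fun x => f x * a x) κ := by
  obtain ⟨h1, C, hC⟩ := ha
  exact hf.mul_bdd h1 hC

lemma lmul (hf : MemLp f 2 κ) (ha : BM κ m0 a) : MemLp (fun x => f x * a x) 2 κ := by
  obtain ⟨h1, C, hC⟩ := ha
  refine (hf.const_mul (C : ℂ)).of_le (hf.1.mul h1) ?_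
  filter_upwards [hC] with x hx
  rw [norm_mul, norm_mul, mul_comm, Complex.norm_real]
  exact mul_le_mul_of_nonneg_right (hx.trans (le_abs_self C)) (norm_nonneg _)

lemma i2 (hh : MemLp h 2 κ) (hG : MemLp G 2 κ) : Integrable (fun x => h x * G x) κ :=
  hh.integrable_mul hG

lemma nrm_le (hf : Integrable f κ) {C : ℝ} (ha : ∀ᵐ x ∂κ, ‖a x‖ ≤ C) :
    ∫ x, ‖f x * a x‖ ∂κ ≤ C * ∫ x, ‖f x‖ ∂κ := by
  rw [← integral_const_mul]
  refine integral_mono_of_nonneg (Eventually.of_forall fun x => norm_nonneg _)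
    (hf.norm.const_mul C) ?_
  filter_upwards [ha] with x hx
  rw [norm_mul, mul_comm]
  exact mul_le_mul_of_nonneg_right hx (norm_nonneg _)

lemma amgm (hh : MemLp h 2 κ) (hG : MemLp G 2 κ) {δ : ℝ} (hδ : 0 < δ) :
    ∫ x, ‖h x * G x‖ ∂κ ≤ δ * ∫ x, ‖G x‖ ^ 2 ∂κ + δ⁻¹ * ∫ x, ‖h x‖ ^ 2 ∂κ := by
  have i1 := (hG.integrable_norm_pow two_ne_zero).const_mul δ
  have i2 := (hh.integrable_norm_pow two_ne_zero).const_mul δ⁻¹
  rw [← integral_const_mul, ← integral_const_mul, ← integral_add i1 i2]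
  refine integral_mono_of_nonneg (Eventually.of_forall fun x => norm_nonneg _) (i1.add i2)
    (Eventually.of_forall fun x => ?_)
  simp only [norm_mul]
  have e : ‖h x‖ = δ * (δ⁻¹ * ‖h x‖) := by field_simp
  have e2 : δ⁻¹ * ‖h x‖ ^ 2 = δ * (δ⁻¹ * ‖h x‖) ^ 2 := by field_simp
  have h0 : 0 ≤ δ⁻¹ * ‖h x‖ := by positivity
  rw [e2]
  generalize δ⁻¹ * ‖h x‖ = t at *
  rw [e]
  nlinarith [mul_nonneg hδ.le (sq_nonneg (‖G x‖ - t)), mul_nonneg hδ.le (mul_nonneg h0 (norm_nonneg (G x)))]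

lemma tend0 {u : ℕ → Ω → ℂ} (hu : ∀ N, MemLp (u N) 2 κ) (hG : MemLp G 2 κ)
    (h : Tendsto (fun N => ∫ x, ‖u N x‖ ^ 2 ∂κ) atTop (𝓝 0)) :
    Tendsto (fun N => ∫ x, u N x * G x ∂κ) atTop (𝓝 0) := by
  rw [Metric.tendsto_nhds]
  intro ε hε
  have c0 : 0 ≤ ∫ z, ‖G z‖ ^ 2 ∂κ := integral_nonneg fun z => sq_nonneg _
  have hδ : 0 < ε / 2 / (∫ z, ‖G z‖ ^ 2 ∂κ + 1) := by positivity
  filter_upwards [h.eventually (gt_mem_nhds (mul_pos hδ (half_pos hε)))] with N hN
  rw [dist_zero_right]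
  refine (norm_integral_le_integral_norm _).trans_lt ((amgm (hu N) hG hδ).trans_lt ?_)
  generalize ∫ z, ‖G z‖ ^ 2 ∂κ = c at *
  have h1 : ε / 2 / (c + 1) * c ≤ ε / 2 := by
    rw [div_mul_eq_mul_div, div_le_iff₀ (by positivity)]
    nlinarith
  have h2 := (inv_mul_lt_iff₀ hδ).2 hN
  linarith

lemma tend1 {u : ℕ → Ω → ℂ} (hu : ∀ n, MemLp (u n) 2 κ) (hh : MemLp h 2 κ) (hG : MemLp G 2 κ)
    (hl : Tendsto (fun N : ℕ => ∫ x, ‖(N : ℂ)⁻¹ * ∑ n ∈ range N, u n x - h x‖ ^ 2 ∂κ) atTop (𝓝 0)) :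
    Tendsto (fun N : ℕ => (N : ℂ)⁻¹ * ∑ n ∈ range N, ∫ z, u n z * G z ∂κ) atTop
      (𝓝 (∫ z, h z * G z ∂κ)) := by
  have hS : ∀ N : ℕ, MemLp (fun z => ∑ n ∈ range N, u n z) 2 κ := fun N =>
    memLp_finsetSum _ fun n _ => hu n
  have hA : ∀ N : ℕ, MemLp (fun z => (N : ℂ)⁻¹ * ∑ n ∈ range N, u n z) 2 κ := fun N =>
    (hS N).const_mul _
  have hB : ∀ N : ℕ, MemLp (fun z => (N : ℂ)⁻¹ * ∑ n ∈ range N, u n z - h z) 2 κ := fun N =>
    (hA N).sub hh
  rw [← tendsto_sub_nhds_zero_iff]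
  refine (tend0 hB hG hl).congr fun N => ?_
  simp only [sub_mul]
  rw [integral_sub (i2 (hA N) hG) (i2 hh hG),
    ← integral_finsetSum _ fun n _ => i2 (hu n) hG, ← integral_const_mul]
  simp only [mul_assoc, sum_mul]

lemma sgn (u : Ω → ℂ) (hu : StronglyMeasurable[m] u) :
    ∃ ψ : Ω → ℂ, BM κ m ψ ∧ (∀ x, ‖ψ x‖ ≤ 1) ∧ ∀ x, u x * ψ x = (‖u x‖ : ℝ) := by
  have hb : ∀ x, ‖conj (u x) / ((‖u x‖ : ℝ) : ℂ)‖ ≤ 1 := fun x => by
    rw [norm_div, Complex.norm_conj, Complex.norm_real, norm_norm]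
    exact div_self_le_one _
  refine ⟨fun x => conj (u x) / ((‖u x‖ : ℝ) : ℂ), ⟨?_, 1, Eventually.of_forall hb⟩, hb, fun x => ?_⟩
  · have h1 : Measurable fun z : ℂ => conj z / ((‖z‖ : ℝ) : ℂ) :=
      Complex.continuous_conj.measurable.div (Complex.measurable_ofReal.comp measurable_norm)
    exact (h1.stronglyMeasurable.comp_measurable hu.measurable).aestronglyMeasurable
  · by_cases h : u x = 0
    · simp [h]
    · have : ((‖u x‖ : ℝ) : ℂ) ≠ 0 := by simpa using h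
      rw [← mul_div_assoc, Complex.mul_conj, Complex.normSq_eq_norm_sq]
      push_cast
      field_simp

variable [IsProbabilityMeasure κ]

lemma ice (hm : m ≤ m0) (hf : Integrable f κ) (ha : BM κ m a) :
    ∫ x, (κ[f | m]) x * a x ∂κ = ∫ x, f x * a x ∂κ := by
  have h : κ[fun x => f x * a x | m] =ᵐ[κ] fun x => (κ[f | m]) x * a x :=
    condExp_bilin_of_aestronglyMeasurable_right (ContinuousLinearMap.mul ℝ ℂ) ha.1
      (imul hf (ha.mono hm)) hf
  rw [← integral_congr_ae h, integral_condExp hm]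

lemma ice' (hm : m ≤ m0) (hf : Integrable f κ) (hfm : AEStronglyMeasurable[m] f κ)
    (hG : BM κ m0 G) : ∫ x, f x * (κ[G | m]) x ∂κ = ∫ x, f x * G x ∂κ := by
  have h : κ[fun x => f x * G x | m] =ᵐ[κ] fun x => f x * (κ[G | m]) x :=
    condExp_bilin_of_aestronglyMeasurable_left (ContinuousLinearMap.mul ℝ ℂ) hfm
      (imul hf hG) hG.integrable
  rw [← integral_congr_ae h, integral_condExp hm]

lemma ce_zero (hm : m ≤ m0) (hf : Integrable f κ)
    (h : ∀ a, BM κ m a → ∫ x, f x * a x ∂κ = 0) : κ[f | m] =ᵐ[κ] 0 := by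
  obtain ⟨ψ, h1, -, h3⟩ := sgn (κ := κ) (κ[f | m]) stronglyMeasurable_condExp
  have h4 := h ψ h1
  rw [← ice hm hf h1] at h4
  simp only [h3, integral_complex_ofReal, Complex.ofReal_eq_zero] at h4
  rw [integral_eq_zero_iff_of_nonneg (fun x => norm_nonneg _) integrable_condExp.norm] at h4
  filter_upwards [h4] with x hx
  simpa using hx

/-- truncation of a square integrable function -/
lemma trunc (hf : MemLp f 2 κ) {ε : ℝ} (hε : 0 < ε) : ∃ (K : ℝ) (b : Ω → ℂ), 1 ≤ K ∧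
    BM κ m0 b ∧ (∀ᵐ x ∂κ, ‖b x‖ ≤ K) ∧ K * ∫ x, ‖f x - b x‖ ∂κ ≤ ε := by
  set g := hf.1.mk f with hg
  have hm : Measurable g := hf.1.stronglyMeasurable_mk.measurable
  have he : f =ᵐ[κ] g := hf.1.ae_eq_mk
  have i2 : Integrable (fun x => ‖g x‖ ^ 2) κ :=
    ((memLp_congr_ae he).1 hf).integrable_norm_pow two_ne_zero
  have hs : ∀ n : ℕ, MeasurableSet {x | (n : ℝ) + 1 < ‖g x‖} := fun n =>
    measurableSet_lt measurable_const hm.norm
  have hl : Tendsto (fun n : ℕ => ∫ x, {x | (n : ℝ) + 1 < ‖g x‖}.indicator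
      (fun x => ‖g x‖ ^ 2) x ∂κ) atTop (𝓝 (∫ _ : Ω, (0 : ℝ) ∂κ)) := by
    refine tendsto_integral_of_dominated_convergence (fun x => ‖g x‖ ^ 2)
      (fun n => (i2.indicator (hs n)).1) i2 (fun n => Eventually.of_forall fun x => ?_)
      (Eventually.of_forall fun x => ?_)
    · exact (norm_indicator_le_norm_self _ _).trans (by simp)
    · refine tendsto_const_nhds.congr' ?_
      filter_upwards [tendsto_natCast_atTop_atTop.eventually_ge_atTop ‖g x‖] with n hn
      rw [Set.indicator_of_notMem]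
      simp only [Set.mem_ofPred_eq, not_lt]
      linarith
  rw [integral_zero] at hl
  obtain ⟨n, hn⟩ := (hl.eventually (ge_mem_nhds hε)).exists
  have hb : ∀ x, ‖{x | (n : ℝ) + 1 < ‖g x‖}ᶜ.indicator g x‖ ≤ (n : ℝ) + 1 := fun x => by
    by_cases hx : (n : ℝ) + 1 < ‖g x‖
    · rw [Set.indicator_of_notMem (by simpa using hx), norm_zero]
      positivity
    · rw [Set.indicator_of_mem (by simpa using hx)]
      exact not_lt.1 hx
  refine ⟨n + 1, {x | (n : ℝ) + 1 < ‖g x‖}ᶜ.indicator g, by simp,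
    ⟨(hm.indicator (hs n).compl).aestronglyMeasurable, n + 1, Eventually.of_forall hb⟩,
    Eventually.of_forall hb, le_trans ?_ hn⟩
  rw [← integral_const_mul]
  refine integral_mono_of_nonneg (Eventually.of_forall fun x => by positivity)
    (i2.indicator (hs n)) ?_
  filter_upwards [he] with x hx
  rw [hx]
  by_cases h : (n : ℝ) + 1 < ‖g x‖
  · rw [Set.indicator_of_notMem (by simpa using h), Set.indicator_of_mem (by simpa using h),
      sub_zero, sq]
    exact mul_le_mul_of_nonneg_right h.le (norm_nonneg _)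
  · rw [Set.indicator_of_mem (by simpa using h), Set.indicator_of_notMem (by simpa using h)]
    simp

end Gen

/-- Cesaro means -/
def av (φ : ℕ → ℝ) (N : ℕ) : ℝ := (N : ℝ)⁻¹ * ∑ n ∈ range N, φ n

lemma av_le {φ ψ : ℕ → ℝ} {c : ℝ} (hc : 0 ≤ c) (h : ∀ n, φ n ≤ c + ψ n) (N : ℕ) :
    av φ N ≤ c + av ψ N := by
  have h1 : ∑ n ∈ range N, φ n ≤ N * c + ∑ n ∈ range N, ψ n :=
    (sum_le_sum fun n _ => h n).trans (by simp [sum_add_distrib])
  have h2 : (N : ℝ)⁻¹ * (N * c) ≤ c := by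
    rw [← mul_assoc]
    exact mul_le_of_le_one_left hc (inv_mul_le_one_of_le₀ le_rfl (Nat.cast_nonneg _))
  have h3 := mul_le_mul_of_nonneg_left h1 (inv_nonneg.2 (Nat.cast_nonneg (α := ℝ) N))
  simp only [av]
  linarith

lemma av_zero {φ : ℕ → ℝ} (h0 : ∀ n, 0 ≤ φ n) (h : ∀ ε : ℝ, 0 < ε → ∃ ψ : ℕ → ℝ,
    (∀ n, φ n ≤ ε + ψ n) ∧ Tendsto (av ψ) atTop (𝓝 0)) : Tendsto (av φ) atTop (𝓝 0) := by
  refine tendsto_order.2 ⟨fun c hc => Eventually.of_forall fun N => hc.trans_le ?_, fun c hc => ?_⟩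
  · exact mul_nonneg (by positivity) (sum_nonneg fun n _ => h0 n)
  · obtain ⟨ψ, h1, h2⟩ := h (c / 2) (half_pos hc)
    filter_upwards [h2.eventually (gt_mem_nhds (half_pos hc))] with N hN
    have := av_le (half_pos hc).le h1 N
    linarith

lemma av_sum {ι : Type} (S : Finset ι) (c : ι → ℝ) {φ : ι → ℕ → ℝ}
    (h : ∀ i, Tendsto (av (φ i)) atTop (𝓝 0)) :
    Tendsto (av fun n => ∑ i ∈ S, c i * φ i n) atTop (𝓝 0) := by
  have h1 := tendsto_finsetSum S fun i _ => (h i).const_mul (c i)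
  simp only [mul_zero, sum_const_zero] at h1
  refine h1.congr fun N => ?_
  simp only [av, mul_sum]
  rw [sum_comm]
  exact sum_congr rfl fun n _ => sum_congr rfl fun i _ => by ring

lemma av_cmul (c : ℝ) {φ : ℕ → ℝ} (h : Tendsto (av φ) atTop (𝓝 0)) :
    Tendsto (av fun n => c * φ n) atTop (𝓝 0) := by
  simpa using av_sum (univ : Finset Unit) (fun _ => c) (φ := fun _ => φ) fun _ => h

lemma av_mul {φ : ℕ → ℝ} (h0 : ∀ n, 0 ≤ φ n) (h : Tendsto (av φ) atTop (𝓝 0)) {r : ℕ}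
    (hr : r ≠ 0) : Tendsto (av fun n => φ (r * n)) atTop (𝓝 0) := by
  have h1 := (h.comp (tendsto_id.const_mul_atTop' (Nat.pos_of_ne_zero hr))).const_mul (r : ℝ)
  rw [mul_zero] at h1
  refine squeeze_zero (fun N => mul_nonneg (by positivity) (sum_nonneg fun n _ => h0 _))
    (fun N => ?_) h1
  have h2 : ∑ n ∈ range N, φ (r * n) ≤ ∑ n ∈ range (r * N), φ n := by
    rw [← sum_image (s := range N) (g := fun n => r * n) (f := φ)
      fun x _ y _ e => Nat.eq_of_mul_eq_mul_left (Nat.pos_of_ne_zero hr) e]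
    refine sum_le_sum_of_subset_of_nonneg (fun x hx => ?_) fun n _ _ => h0 n
    obtain ⟨n, hn, rfl⟩ := mem_image.1 hx
    exact mem_range.2 (Nat.mul_lt_mul_of_pos_left (mem_range.1 hn) (Nat.pos_of_ne_zero hr))
  have hr' : (r : ℝ) ≠ 0 := by exact_mod_cast hr
  simp only [av, comp, id, Nat.cast_mul, mul_inv, ← mul_assoc, mul_inv_cancel₀ hr', one_mul]
  exact mul_le_mul_of_nonneg_left h2 (by positivity)

/-! ### one system -/

section One

variable (B : Bas) {Z : Sys} {F G H : Z.X → ℂ}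

include B

lemma tz_int (n : ℤ) (hF : AEStronglyMeasurable F Z.μ) :
    ∫ z, F (Z.Tz n z) ∂Z.μ = ∫ z, F z ∂Z.μ := by
  have h := B.t.mp Z n
  rw [← integral_map h.measurable.aemeasurable (by rwa [h.map_eq]), h.map_eq]

lemma tz_bm (n : ℤ) (hF : BM Z.μ Z.ms F) : BM Z.μ Z.ms fun z => F (Z.Tz n z) :=
  B.t.bm Z _ n F (B.t.top Z) hF

lemma tz_lp (n : ℤ) (hF : MemLp F 2 Z.μ) : MemLp (fun z => F (Z.Tz n z)) 2 Z.μ :=
  hF.comp_measurePreserving (B.t.mp Z n)

lemma inv_tz (hH : BM Z.μ (Inv Z) H) (n : ℤ) : (fun z => H (Z.Tz n z)) =ᵐ[Z.μ] H := by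
  have h1 := (B.t.inv_iff Z H (hH.1.mono (B.t.finv Z).le)).1 hH.1
  have h2 : ∀ k : ℤ, (fun z => H (Z.Tz (k + 1) z)) =ᵐ[Z.μ] fun z => H (Z.Tz k z) := fun k => by
    have h3 := (B.t.mp Z k).quasiMeasurePreserving.ae_eq_comp h1
    refine EventuallyEq.trans (Eventually.of_forall fun z => ?_) h3
    simp only [comp, add_comm k, B.t.add, B.t.one]
  induction n using Int.induction_on with
  | zero => exact Eventually.of_forall fun z => by simp only [B.t.zero]
  | succ k ih => exact (h2 k).trans ih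
  | pred k ih =>
    have h4 := h2 (-(k : ℤ) - 1)
    rw [sub_add_cancel] at h4
    exact h4.symm.trans ih

lemma core (met : MetS) (hF : MemLp F 2 Z.μ) (hG : MemLp G 2 Z.μ) :
    Tendsto (fun N : ℕ => (N : ℂ)⁻¹ * ∑ n ∈ range N, ∫ z, F (Z.Tz n z) * G z ∂Z.μ) atTop
      (𝓝 (∫ z, (Z.μ[F | Inv Z]) z * G z ∂Z.μ)) :=
  tend1 (u := fun n z => F (Z.Tz n z)) (fun n => tz_lp B n hF) (hF.condExp one_le_two) hG
    (met Z F hF)

/-- orthogonal to the bounded invariant functions -/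
def Ort (Z : Sys) (F : Z.X → ℂ) : Prop := ∀ H, BM Z.μ (Inv Z) H → ∫ z, F z * H z ∂Z.μ = 0

lemma van (met : MetS) (hF : MemLp F 2 Z.μ) (ho : Ort Z F) (hG : BM Z.μ Z.ms G) {s : ℤ}
    (hs : s = 1 ∨ s = -1) :
    Tendsto (av fun n => (∫ z, F (Z.Tz (s * n) z) * G z ∂Z.μ).re) atTop (𝓝 0) := by
  have key : Tendsto (fun N : ℕ => (N : ℂ)⁻¹ * ∑ n ∈ range N,
      ∫ z, F (Z.Tz (s * n) z) * G z ∂Z.μ) atTop (𝓝 0) := by
    rcases hs with rfl | rfl
    · have h := core B met hF (hG.memLp 2)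
      have h0 := ce_zero (B.t.finv Z).le (hF.integrable one_le_two) ho
      have h1 : ∫ z, (Z.μ[F | Inv Z]) z * G z ∂Z.μ = 0 :=
        integral_eq_zero_of_ae (h0.mono fun z hz => by simp [hz])
      simpa only [h1, one_mul] using h
    · have h := core B met (hG.memLp 2) hF
      have h1 : ∫ z, (Z.μ[G | Inv Z]) z * F z ∂Z.μ = 0 := by
        simpa only [mul_comm] using ho _ (hG.ce (Inv Z))
      rw [h1] at h
      refine h.congr fun N => ?_
      congr 1
      refine sum_congr rfl fun n _ => ?_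
      rw [← tz_int B n (i2 (tz_lp B (-1 * n) hF) (hG.memLp 2)).1]
      simp only [← B.t.add, neg_one_mul, neg_add_cancel, B.t.zero]
      simp only [mul_comm]
  have h := (Complex.continuous_re.tendsto _).comp key
  refine h.congr fun N => ?_
  simp only [comp, av]
  rw [← Complex.re_sum, ← Complex.ofReal_natCast, ← Complex.ofReal_inv, Complex.re_ofReal_mul]

end One

/-! ### the relative square -/

section Sq

/-- sub-sigma-algebras that are not used as instances -/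
def MS (X : Sys) : Type := MeasurableSpace X.X

variable (B : Bas) {X Z : Sys} {C : MS X} {p : Bool → Z.X → X.X}
  (hC : Fac X C) (hP : Pair X C Z p) {f g a b : X.X → ℂ} {H : Z.X → ℂ}

include B hP

lemma pmp (i : Bool) : MeasurePreserving (p i) Z.μ X.μ := (hP.emb i).mp

lemma ple (i : Bool) : pull Z.μ (p i) X.ms ≤ Z.ms :=
  B.a.pull_le X.ms Z.μ X.μ (p i) (hP.emb i).mp le_rfl

lemma pbm (i : Bool) (ha : BM X.μ X.ms a) : BM Z.μ (pull Z.μ (p i) X.ms) fun z => a (p i z) :=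
  B.a.bm_comp X.ms Z.μ X.μ (p i) a (hP.emb i).mp ha

lemma pbm' (i : Bool) (ha : BM X.μ X.ms a) : BM Z.μ Z.ms fun z => a (p i z) :=
  (pbm B hP i ha).mono (ple B hP i)

lemma pint (i : Bool) (hf : AEStronglyMeasurable f X.μ) :
    ∫ z, f (p i z) ∂Z.μ = ∫ x, f x ∂X.μ := by
  have h := (hP.emb i).mp
  rw [← integral_map h.measurable.aemeasurable (by rwa [h.map_eq]), h.map_eq]

lemma pfact (i : Bool) {u : Z.X → ℂ} (hu : BM Z.μ (pull Z.μ (p i) X.ms) u) :
    ∃ a, BM X.μ X.ms a ∧ u =ᵐ[Z.μ] fun z => a (p i z) := by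
  obtain ⟨K, hK, h⟩ := bnd hu
  obtain ⟨a, h1, h2, h3⟩ := B.a.fact X.ms Z.μ (p i) u K (hP.emb i).mp.measurable.comap_le
    (zero_le_one.trans hK) hu.1 h
  exact ⟨a, ⟨h1.aestronglyMeasurable, K, Eventually.of_forall h2⟩, h3⟩

lemma shift (i : Bool) (n : ℤ) (hf : AEStronglyMeasurable f X.μ) :
    (fun z => f (p i (Z.Tz n z))) =ᵐ[Z.μ] fun z => f (X.Tz n (p i z)) :=
  B.a.keq_fun X.ms Z.μ X.μ (p i ∘ Z.Tz n) (X.Tz n ∘ p i) f ((hP.emb i).mp.comp (B.t.mp Z n))
    ((B.t.mp X n).comp (hP.emb i).mp) (B.t.emb_z Z X (p i) n (hP.emb i)) hf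

lemma star (hH : BM Z.μ Z.ms H) (hg : BM X.μ X.ms g) : ∃ k, BM X.μ X.ms k ∧ Star p H g k := by
  obtain ⟨k, h1, h2⟩ := pfact B hP false ((hH.mul (pbm' B hP true hg)).ce _)
  exact ⟨k, h1, h2.symm⟩

lemma test0 {G : Z.X → ℂ} (hG : BM Z.μ Z.ms G) (hb : BM X.μ X.ms b)
    (h : (fun z => b (p false z)) =ᵐ[Z.μ] Z.μ[G | pull Z.μ (p false) X.ms])
    (hf : Integrable f X.μ) : ∫ z, f (p false z) * G z ∂Z.μ = ∫ x, f x * b x ∂X.μ := by
  have h1 := (hP.emb false).mp
  have h2 : AEStronglyMeasurable[pull Z.μ (p false) X.ms] (fun z => f (p false z)) Z.μ := by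
    refine AEStronglyMeasurable.congr (f := fun z => hf.1.mk f (p false z)) ?_
      (h1.quasiMeasurePreserving.ae_eq_comp hf.1.ae_eq_mk).symm
    have h3 : X.ms.comap (p false) ≤ pull Z.μ (p false) X.ms := le_sup_left
    exact ((hf.1.stronglyMeasurable_mk.comp_measurable (comap_measurable (p false))).mono
      h3).aestronglyMeasurable
  have h4 : Integrable (fun z => f (p false z)) Z.μ := h1.integrable_comp_of_integrable hf
  rw [← ice' (ple B hP false) h4 h2 hG,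
    ← pint B hP false (imul hf hb).1]
  refine integral_congr_ae ?_
  filter_upwards [h] with z hz
  simp only [← hz]

include hC

lemma pairI (hf : Integrable f X.μ) (hb : BM X.μ X.ms b) :
    ∫ z, f (p false z) * b (p true z) ∂Z.μ = ∫ x, (X.μ[f | C]) x * (X.μ[b | C]) x ∂X.μ := by
  have e : pull X.μ id C = C := by
    rw [pull, MeasurableSpace.comap_id]
    exact sup_eq_left.2 hC.nl
  have hb' : BM X.μ X.ms (X.μ[b | C]) := (hb.ce C).mono hC.le
  rw [ice hC.le hf (hb.ce C)]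
  refine test0 B hP (pbm' B hP true hb) hb' ?_ hf
  refine (Fib27.ce_eq_of_tests (ple B hP false) (pbm' B hP true hb) (pbm B hP false hb')
    fun c hc => ?_).symm
  obtain ⟨a, ha, h3⟩ := pfact B hP false hc
  have h4 := hP.ind univ (fun i => if i then b else a) fun i _ => by cases i <;> simpa
  have h5 := B.a.keq_fun C Z.μ X.μ (id ∘ p true) (id ∘ p false) (X.μ[b | C]) (hP.emb true).mp
    (hP.emb false).mp (hP.com true) (hb.ce C).1
  have h6 := integral_congr_ae h4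
  rw [integral_condExp (B.a.pull_le C Z.μ X.μ (id ∘ p false) (hP.emb false).mp hC.le)] at h6
  simp only [Fintype.prod_bool, e, if_true, Bool.false_eq_true, if_false] at h6
  calc ∫ z, b (p true z) * c z ∂Z.μ = ∫ z, b (p true z) * a (p false z) ∂Z.μ :=
        integral_congr_ae (h3.mono fun z hz => by simp only [hz])
    _ = ∫ z, (X.μ[b | C]) (p false z) * (X.μ[a | C]) (p false z) ∂Z.μ := by
        rw [h6]
        exact integral_congr_ae (h5.mono fun z hz => by simp only [comp, id] at hz; simp only [hz])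
    _ = ∫ z, (X.μ[b | C]) (p false z) * a (p false z) ∂Z.μ := by
        rw [pint B hP false (hb'.mul ((ha.ce C).mono hC.le)).1, pint B hP false (hb'.mul ha).1,
          Fib27.int_mul_ce hC.le (hb.ce C) ha]
    _ = _ := integral_congr_ae (h3.mono fun z hz => by simp only [hz])

end Sq

section Main

variable (B : Bas) {X Z : Sys} {C : MS X} {p : Bool → Z.X → X.X}
  (hC : Fac X C) (hP : Pair X C Z p) {f g a b k : X.X → ℂ} {H : Z.X → ℂ}

include B hC hP

/-- the main estimate -/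
lemma est (hf : WM X C f) (hH : BM Z.μ Z.ms H) (hg : BM X.μ X.ms g) (ha : BM X.μ X.ms a)
    {ψ : ℕ → X.X → ℂ} (hψ : ∀ n, BM X.μ C (ψ n)) (hψ1 : ∀ n x, ‖ψ n x‖ ≤ 1) :
    Tendsto (av fun n => ‖∫ z, f (X.Tz n (p false z)) * (a (p false z) * ψ n (p false z) *
      g (X.Tz n (p true z))) * H z ∂Z.μ‖) atTop (𝓝 0) := by
  refine av_zero (fun n => norm_nonneg _) fun ε hε => ?_
  obtain ⟨Ka, hKa, ha1⟩ := bnd ha
  obtain ⟨Kg, hKg, hg1⟩ := bnd hg
  set c := (Ka * Kg) ^ 2 * ∫ x, ‖f x‖ ^ 2 ∂X.μ with hc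
  have c0 : 0 ≤ c := mul_nonneg (sq_nonneg _) (integral_nonneg fun x => sq_nonneg _)
  have hδ : 0 < ε / 2 / (c + 1) := by positivity
  have hj : Z.ms ≤ pull Z.μ (p false) X.ms ⊔ pull Z.μ (p true) X.ms :=
    hP.gn.trans (by rw [iSup_bool_eq, sup_comm])
  obtain ⟨J, u, v, hu, hv, huv⟩ := B.d.apx2 _ _ Z.μ (ple B hP false) (ple B hP true) H
    (hH.memLp 2) (hH.1.mono hj) _ (mul_pos hδ (half_pos hε))
  choose u' hu' eu using fun i => pfact B hP false (hu i)
  choose v' hv' ev using fun i => pfact B hP true (hv i)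
  choose Kv hKv hv1 using fun i => bnd (hv' i)
  refine ⟨_, fun n => ?_, av_sum univ (fun i => Kg * Kv i) fun i => hf.2 _ (ha.mul (hu' i))⟩
  have m0 := pmp B hP false
  have m1 := pmp B hP true
  have hw : BM Z.μ Z.ms fun z => a (p false z) * ψ n (p false z) * g (X.Tz n (p true z)) :=
    (pbm' B hP false (ha.mul ((hψ n).mono hC.le))).mul (pbm' B hP true (tz_bm B n hg))
  have hF : MemLp (fun z => f (X.Tz n (p false z))) 2 Z.μ :=
    (tz_lp B n hf.1).comp_measurePreserving m0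
  have hFw := lmul hF hw
  have hS : ∀ i, BM Z.μ Z.ms fun z => u i z * v i z := fun i =>
    ((hu i).mono (ple B hP false)).mul ((hv i).mono (ple B hP true))
  have hS2 : MemLp (fun z => ∑ i, u i z * v i z) 2 Z.μ :=
    memLp_finsetSum _ fun i _ => (hS i).memLp 2
  have hD : MemLp (fun z => H z - ∑ i, u i z * v i z) 2 Z.μ := (hH.memLp 2).sub hS2
  have hb : ∫ z, ‖f (X.Tz n (p false z)) * (a (p false z) * ψ n (p false z) *
      g (X.Tz n (p true z)))‖ ^ 2 ∂Z.μ ≤ c := by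
    have e1 : ∫ z, ‖f (X.Tz n (p false z))‖ ^ 2 ∂Z.μ = ∫ x, ‖f x‖ ^ 2 ∂X.μ := by
      have h := (B.t.mp X n).comp m0
      rw [← h.map_eq, integral_map h.measurable.aemeasurable
        (by rw [h.map_eq]; exact hf.1.1.norm.pow 2)]
      rfl
    rw [hc, ← e1, ← integral_const_mul]
    refine integral_mono_of_nonneg (Eventually.of_forall fun z => sq_nonneg _)
      ((hF.integrable_norm_pow two_ne_zero).const_mul _) ?_
    filter_upwards [m0.quasiMeasurePreserving.ae ha1,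
      ((B.t.mp X n).comp m1).quasiMeasurePreserving.ae hg1] with z h1 h2
    rw [← mul_pow, norm_mul, norm_mul, norm_mul, mul_comm]
    gcongr
    · exact (mul_le_of_le_one_right (norm_nonneg _) (hψ1 n _)).trans h1
    · exact h2
  have h1 := (norm_integral_le_integral_norm _).trans (amgm hD hFw hδ)
  have h2 : ε / 2 / (c + 1) * c ≤ ε / 2 := by
    rw [div_mul_eq_mul_div, div_le_iff₀ (by positivity)]
    nlinarith
  have h3 := (inv_mul_le_iff₀ hδ).2 huv
  have h4 := mul_le_mul_of_nonneg_left hb hδ.le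
  have h5 : ∀ i, ‖∫ z, f (X.Tz n (p false z)) * (a (p false z) * ψ n (p false z) *
      g (X.Tz n (p true z))) * (u i z * v i z) ∂Z.μ‖ ≤
      Kg * Kv i * ∫ x, ‖(X.μ[fun y => f (X.Tz n y) * (a y * u' i y) | C]) x‖ ∂X.μ := by
    intro i
    have i1 := imul ((tz_lp B n hf.1).integrable one_le_two) (ha.mul (hu' i))
    have b1 := (tz_bm B n hg).mul (hv' i)
    have e : ∫ z, f (X.Tz n (p false z)) * (a (p false z) * ψ n (p false z) *
        g (X.Tz n (p true z))) * (u i z * v i z) ∂Z.μ =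
        ∫ x, (X.μ[fun y => f (X.Tz n y) * (a y * u' i y) | C]) x *
          (ψ n x * (X.μ[fun y => g (X.Tz n y) * v' i y | C]) x) ∂X.μ := by
      rw [ice hC.le i1 ((hψ n).mul (b1.ce C))]
      simp only [← mul_assoc (f _ * _)]
      rw [← ice hC.le (imul i1 ((hψ n).mono hC.le)) (b1.ce C),
        ← pairI B hC hP (imul i1 ((hψ n).mono hC.le)) b1]
      refine integral_congr_ae ?_
      filter_upwards [eu i, ev i] with z h1 h2
      rw [h1, h2]
      ring
    rw [e]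
    refine (norm_integral_le_integral_norm _).trans (nrm_le integrable_condExp ?_)
    have b2 : ∀ᵐ y ∂X.μ, ‖g (X.Tz n y) * v' i y‖ ≤ Kg * Kv i := by
      filter_upwards [(B.t.mp X n).quasiMeasurePreserving.ae hg1, hv1 i] with y h1 h2
      rw [norm_mul]
      exact mul_le_mul h1 h2 (norm_nonneg _) (zero_le_one.trans hKg)
    filter_upwards [ae_bdd_norm_condExp_of_ae_bdd_norm (m := C) b2] with x hx
    rw [norm_mul]
    exact (mul_le_of_le_one_left (norm_nonneg _) (hψ1 n x)).trans hx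
  have h6 := (norm_sum_le _ _).trans (sum_le_sum fun i (_ : i ∈ univ) => h5 i)
  rw [← integral_finsetSum _ fun i _ => i2 hFw ((hS i).memLp 2)] at h6
  have h7 := integral_add (i2 hD hFw) (integrable_finsetSum univ fun i _ => i2 hFw ((hS i).memLp 2))
  have h8 : ∀ (s t : ℂ) (w : Fin J → ℂ), (t - ∑ i, w i) * s + ∑ i, s * w i = s * t := by
    intro s t w
    rw [← mul_sum]
    ring
  simp only [h8] at h7
  rw [h7]
  refine (norm_add_le _ _).trans (add_le_add ?_ h6)
  linarith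

omit hC in
lemma mov (n : ℤ) (hf : Integrable f X.μ) (hH : BM Z.μ (Inv Z) H) (hg : BM X.μ X.ms g) :
    ∫ z, f (X.Tz n (p false z)) * g (X.Tz n (p true z)) * H z ∂Z.μ =
      ∫ z, f (p false z) * (H z * g (p true z)) ∂Z.μ := by
  have h4 : Integrable (fun z => f (p false z)) Z.μ :=
    (pmp B hP false).integrable_comp_of_integrable hf
  rw [← tz_int B n (imul h4 ((hH.mono (B.t.finv Z).le).mul (pbm' B hP true hg))).1]
  refine integral_congr_ae ?_
  filter_upwards [shift B hP false n hf.1, shift B hP true n hg.1, inv_tz B hH n] with z h1 h2 h3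
  rw [h1, h2, h3]
  ring

lemma wm_to (hf : WM X C f) (hg : BM X.μ X.ms g) :
    Ort Z fun z => f (p false z) * g (p true z) := by
  intro H hH
  have h := est B hC hP hf (hH.mono (B.t.finv Z).le) hg (BM.const 1) (ψ := fun _ _ => 1)
    (fun _ => BM.const 1) (fun _ _ => by simp)
  simp only [one_mul, mov B hP _ (hf.1.integrable one_le_two) hH hg] at h
  have h2 : Tendsto (av fun _ => ‖∫ z, f (p false z) * (H z * g (p true z)) ∂Z.μ‖) atTop
      (𝓝 ‖∫ z, f (p false z) * (H z * g (p true z)) ∂Z.μ‖) := by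
    refine tendsto_const_nhds.congr' ?_
    filter_upwards [eventually_gt_atTop 0] with N hN
    have : (N : ℝ) ≠ 0 := by exact_mod_cast hN.ne'
    simp [av, ← mul_assoc, this]
  rw [← norm_eq_zero.1 (tendsto_nhds_unique h2 h)]
  exact integral_congr_ae (Eventually.of_forall fun z => by ring)

lemma mul (hf : WM X C f) (hH : BM Z.μ (Inv Z) H) (hg : BM X.μ X.ms g) (hk : BM X.μ X.ms k)
    (hs : Star p H g k) : WM X C fun x => f x * k x := by
  refine ⟨lmul hf.1 hk, fun a ha => ?_⟩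
  choose ψ h1 h2 h3 using fun n : ℕ => sgn (κ := X.μ)
    (X.μ[fun y => f (X.Tz n y) * k (X.Tz n y) * a y | C]) stronglyMeasurable_condExp
  refine (est B hC hP hf (hH.mono (B.t.finv Z).le) hg ha h1 h2).congr fun N => ?_
  refine congrArg _ (sum_congr rfl fun n _ => ?_)
  have i0 := imul ((tz_lp B n (lmul hf.1 hk)).integrable one_le_two) ha
  have hw := tz_bm B (-n) (ha.mul ((h1 n).mono hC.le))
  have i1 := imul (hf.1.integrable one_le_two) hw
  have e1 := mov B hP n i1 hH hg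
  rw [test0 B hP ((hH.mono (B.t.finv Z).le).mul (pbm' B hP true hg)) hk hs i1,
    ← tz_int B n (imul i1 hk).1] at e1
  simp only [← B.t.add, neg_add_cancel, B.t.zero] at e1
  have e2 := ice hC.le i0 (h1 n)
  simp only [h3, integral_complex_ofReal] at e2
  have e3 : ∫ z, f (X.Tz n (p false z)) * (a (p false z) * ψ n (p false z) *
      g (X.Tz n (p true z))) * H z ∂Z.μ = ((∫ x,
        ‖(X.μ[fun y => f (X.Tz n y) * k (X.Tz n y) * a y | C]) x‖ ∂X.μ : ℝ) : ℂ) := by
    rw [e2]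
    simp only [← mul_assoc] at e1 ⊢
    rw [e1]
    exact integral_congr_ae (Eventually.of_forall fun z => by ring)
  beta_reduce
  rw [e3, Complex.norm_real, Real.norm_of_nonneg (integral_nonneg fun x => norm_nonneg _)]

lemma corr (n : ℤ) (hf : MemLp f 2 X.μ) (hb : BM X.μ X.ms b) (hg : BM X.μ X.ms g) :
    ∫ z, f (p false (Z.Tz n z)) * conj (b (p true (Z.Tz n z))) *
      (g (p false z) * conj (g (p true z))) ∂Z.μ =
    ∫ x, (X.μ[fun y => f (X.Tz n y) * g y | C]) x *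
      conj ((X.μ[fun y => b (X.Tz n y) * g y | C]) x) ∂X.μ := by
  have b1 := (tz_bm B n hb).mul hg
  have h := pairI B hC hP (imul ((tz_lp B n hf).integrable one_le_two) hg) b1.conj
  refine Eq.trans (integral_congr_ae ?_) (h.trans (integral_congr_ae ?_))
  · filter_upwards [shift B hP false n hf.1, shift B hP true n hb.1] with z h1 h2
    rw [h1, h2, map_mul]
    ring
  · filter_upwards [Fib27.ce_conj hC.le b1] with x hx
    rw [hx]

lemma decay (met : MetS) (hf : MemLp f 2 X.μ) (ho : ∀ ε : ℝ, 0 < ε → ∃ (K : ℝ) (b : X.X → ℂ),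
      1 ≤ K ∧ BM X.μ X.ms b ∧ (∀ᵐ x ∂X.μ, ‖b x‖ ≤ K) ∧ K * ∫ x, ‖f x - b x‖ ∂X.μ ≤ ε ∧
      Ort Z fun z => f (p false z) * conj (b (p true z))) (hg : BM X.μ X.ms g) {s : ℤ}
    (hs : s = 1 ∨ s = -1) : Tendsto (av fun n =>
      ∫ x, ‖(X.μ[fun y => f (X.Tz (s * n) y) * g y | C]) x‖ ∂X.μ) atTop (𝓝 0) := by
  refine av_zero (fun n => integral_nonneg fun x => norm_nonneg _) fun ε hε => ?_
  obtain ⟨M, hM, hg1⟩ := bnd hg
  have hδ : 0 < ε / 3 := by positivity
  have hM0 : 0 < M := zero_lt_one.trans_le hM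
  obtain ⟨K, b, hK, hb, hb1, hd, ho⟩ := ho (min (ε / 3 / M) (ε / 3 * (ε / 3) / (M * M)))
    (by positivity)
  have hF : MemLp (fun z => f (p false z) * conj (b (p true z))) 2 Z.μ :=
    lmul (hf.comp_measurePreserving (pmp B hP false)) (pbm' B hP true hb.conj)
  have hv := av_cmul (ε / 3)⁻¹
    (van B met hF ho ((pbm' B hP false hg).mul (pbm' B hP true hg.conj)) hs)
  simp only [corr B hC hP _ hf hb hg] at hv
  refine ⟨_, fun n => ?_, hv⟩
  clear hv
  generalize s * (n : ℤ) = l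
  have b1 := (tz_bm B l hb).mul hg
  have iu := imul ((tz_lp B l hf).integrable one_le_two) hg
  set u := X.μ[fun y => f (X.Tz l y) * g y | C] with hu
  set v := X.μ[fun y => b (X.Tz l y) * g y | C] with hv
  have bv : BM X.μ X.ms v := (b1.ce C).mono hC.le
  have iu' : Integrable u X.μ := integrable_condExp
  have d0 : 0 ≤ ∫ x, ‖f x - b x‖ ∂X.μ := integral_nonneg fun x => norm_nonneg _
  have h1 : ∫ x, ‖u x - v x‖ ∂X.μ ≤ M * ∫ x, ‖f x - b x‖ ∂X.μ := by
    have ifb : Integrable (fun x => f x - b x) X.μ := (hf.integrable one_le_two).sub hb.integrable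
    have e1 : ∫ x, ‖f (X.Tz l x) - b (X.Tz l x)‖ ∂X.μ = ∫ x, ‖f x - b x‖ ∂X.μ := by
      have h := B.t.mp X l
      conv_rhs => rw [← h.map_eq]
      rw [integral_map h.measurable.aemeasurable (by rw [h.map_eq]; exact ifb.norm.1)]
    have e2 := condExp_sub iu b1.integrable C
    have e3 := integral_norm_condExp_le (μ := X.μ) (m := C)
      ((fun y => f (X.Tz l y) * g y) - fun y => b (X.Tz l y) * g y)
    have e4 := nrm_le ((B.t.mp X l).integrable_comp_of_integrable ifb) hg1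
    simp only [comp, e1, sub_mul] at e4
    refine le_trans (le_of_eq (integral_congr_ae ?_)) (e3.trans e4)
    filter_upwards [e2] with x hx
    rw [hx, Pi.sub_apply]
  have iuv : Integrable (fun x => u x - v x) X.μ := iu'.sub bv.integrable
  have h2 : ∫ x, ‖u x‖ ∂X.μ ≤ ∫ x, ‖v x‖ ∂X.μ + ∫ x, ‖u x - v x‖ ∂X.μ := by
    rw [← integral_add bv.integrable.norm iuv.norm]
    exact integral_mono iu'.norm (bv.integrable.norm.add iuv.norm)
      fun x => norm_le_norm_add_norm_sub' _ _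
  have h3 := amgm (bv.memLp 2) ((BM.const (κ := X.μ) 1).memLp 2) hδ
  simp only [mul_one, norm_one, one_pow, integral_const, probReal_univ, smul_eq_mul] at h3
  have hv1 : ∀ᵐ x ∂X.μ, ‖conj (v x)‖ ≤ K * M := by
    have b2 : ∀ᵐ y ∂X.μ, ‖b (X.Tz l y) * g y‖ ≤ K * M := by
      filter_upwards [(B.t.mp X l).quasiMeasurePreserving.ae hb1, hg1] with y h1 h2
      rw [norm_mul]
      exact mul_le_mul h1 h2 (norm_nonneg _) (zero_le_one.trans hK)
    filter_upwards [ae_bdd_norm_condExp_of_ae_bdd_norm (m := C) b2] with x hx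
    rwa [Complex.norm_conj]
  have h4 := (Complex.abs_re_le_norm _).trans
    ((norm_integral_le_integral_norm _).trans (nrm_le iuv hv1))
  simp only [sub_mul] at h4
  rw [integral_sub (imul iu' bv.conj) (bv.mul bv.conj).integrable, Complex.sub_re] at h4
  simp only [Complex.mul_conj, integral_complex_ofReal, Complex.ofReal_re,
    Complex.normSq_eq_norm_sq] at h4
  have h5 := (abs_le.1 h4).1
  have h6 := (le_div_iff₀ hM0).1 (hd.trans (min_le_left _ _))
  have h7 := (le_div_iff₀ (mul_pos hM0 hM0)).1 (hd.trans (min_le_right _ _))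
  have h8 := mul_le_mul_of_nonneg_left h1 (mul_pos (zero_lt_one.trans_le hK) hM0).le
  have h9 : M * ∫ x, ‖f x - b x‖ ∂X.μ ≤ ε / 3 := by
    nlinarith [mul_nonneg (sub_nonneg.2 hK) (mul_nonneg hM0.le d0)]
  have h10 : (ε / 3)⁻¹ * ∫ x, ‖v x‖ ^ 2 ∂X.μ ≤
      (ε / 3)⁻¹ * ((∫ x, u x * conj (v x) ∂X.μ).re + ε / 3 * (ε / 3)) :=
    mul_le_mul_of_nonneg_left (by linarith) (inv_nonneg.2 hδ.le)
  rw [mul_add, inv_mul_cancel_left₀ hδ.ne'] at h10
  linarith

lemma decay' (met : MetS) (hf : MemLp f 2 X.μ)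
    (ho : ∀ g, BM X.μ X.ms g → Ort Z fun z => f (p false z) * g (p true z))
    (hg : BM X.μ X.ms g) {s : ℤ} (hs : s = 1 ∨ s = -1) : Tendsto (av fun n =>
      ∫ x, ‖(X.μ[fun y => f (X.Tz (s * n) y) * g y | C]) x‖ ∂X.μ) atTop (𝓝 0) :=
  decay B hC hP met hf (fun ε hε => by
    obtain ⟨K, b, h1, h2, h3, h4⟩ := trunc hf hε
    exact ⟨K, b, h1, h2, h3, h4, ho _ h2.conj⟩) hg hs

lemma weak (met : MetS) (hf : BM X.μ X.ms f) (h : ∀ ε : ℝ, 0 < ε → ∃ᶠ N : ℕ in atTop,
    av (fun n => ∫ x, ‖(X.μ[fun y => f (X.Tz n y) * conj (f y) | C]) x‖ ∂X.μ) N ≤ ε) :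
    WM X C f := by
  obtain ⟨K, hK, hf1⟩ := bnd hf
  have hF : BM Z.μ Z.ms fun z => f (p false z) * conj (f (p true z)) :=
    (pbm' B hP false hf).mul (pbm' B hP true hf.conj)
  have hI := (B.t.finv Z).le
  have hQ := hF.ce (Inv Z)
  have ho : Ort Z fun z => f (p false z) * conj (f (p true z)) := by
    refine Fib27.perp_of_ce hI hF (Fib27.eq_zero_of_int_conj (hQ.mono hI) ?_)
    have hc := core B met (hF.memLp 2) (hF.conj.memLp 2)
    have e : ∫ z, (Z.μ[fun z => f (p false z) * conj (f (p true z)) | Inv Z]) z *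
        conj ((Z.μ[fun z => f (p false z) * conj (f (p true z)) | Inv Z]) z) ∂Z.μ =
        ∫ z, (Z.μ[fun z => f (p false z) * conj (f (p true z)) | Inv Z]) z *
          conj (f (p false z) * conj (f (p true z))) ∂Z.μ := by
      rw [← Fib27.int_mul_ce hI hQ hF.conj]
      exact integral_congr_ae ((Fib27.ce_conj hI hF).mono fun z hz => by simp only [hz])
    rw [e, ← norm_le_zero_iff]
    refine le_of_forall_pos_le_add fun ε hε => ?_
    have hKK : 0 < K * K := by positivity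
    refine isClosed_Iic.mem_of_frequently_of_tendsto ((h (ε / (K * K)) (by positivity)).mono
      fun N hN => ?_) hc.norm
    rw [Set.mem_Iic, zero_add, norm_mul, norm_inv, Complex.norm_natCast]
    refine le_trans ?_ ((le_div_iff₀' hKK).1 hN)
    rw [av, mul_left_comm, mul_sum]
    refine mul_le_mul_of_nonneg_left ((norm_sum_le _ _).trans (sum_le_sum fun n _ => ?_))
      (by positivity)
    have e1 := corr B hC hP n (hf.memLp 2) hf hf.conj
    simp only [map_mul, e1]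
    refine (norm_integral_le_integral_norm _).trans (nrm_le integrable_condExp ?_)
    have b2 : ∀ᵐ y ∂X.μ, ‖f (X.Tz n y) * conj (f y)‖ ≤ K * K := by
      filter_upwards [(B.t.mp X n).quasiMeasurePreserving.ae hf1, hf1] with y h1 h2
      rw [norm_mul, Complex.norm_conj]
      exact mul_le_mul h1 h2 (norm_nonneg _) (zero_le_one.trans hK)
    filter_upwards [ae_bdd_norm_condExp_of_ae_bdd_norm (m := C) b2] with x hx
    rwa [Complex.norm_conj]
  refine ⟨hf.memLp 2, fun g hg => ?_⟩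
  have h2 := decay B hC hP met (hf.memLp 2)
    (fun ε hε => ⟨K, f, hK, hf, hf1, by simpa using hε.le, ho⟩) hg (Or.inl rfl)
  simp only [one_mul] at h2
  exact h2

lemma mult (met : MetS) (hf : WM X C f) {s r : ℤ} {t : ℕ} (hs : s = 1 ∨ s = -1) (ht : t ≠ 0)
    (hr : s * t = r) (hg : BM X.μ X.ms g) : Tendsto (av fun n =>
      ∫ x, ‖(X.μ[fun y => f (X.Tz (r * n) y) * g y | C]) x‖ ∂X.μ) atTop (𝓝 0) := by
  have h1 := decay' B hC hP met hf.1 (fun g hg => wm_to B hC hP hf hg) hg hs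
  have h2 := av_mul (φ := fun n => ∫ x, ‖(X.μ[fun y => f (X.Tz (s * n) y) * g y | C]) x‖ ∂X.μ)
    (fun n => integral_nonneg fun x => norm_nonneg _) h1 ht
  simpa only [Nat.cast_mul, ← mul_assoc, hr] using h2

end Main

end KfAx

open KfAx in
theorem kfA : KfAR := by
  intro B met rp
  have ex : ∀ (X : Sys) C, Nice X → Fac X C → ∃ Z p, Pair X C Z p := fun X C hX hC =>
    rp Bool (fun _ => X) X C (fun _ => id) false (fun _ => hX) hC
      (fun _ => @MeasurePreserving.id _ X.ms X.μ) fun _ A _ => EventuallyEq.rfl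
  refine ⟨fun X C Z p hC hP f hf => ⟨fun h H g hH hg => ?_, fun h => ⟨hf, fun g hg => ?_⟩⟩,
    fun X C Z p hC hP H g hH hg => star B hP hH hg,
    fun X C Z p _ hC hP f H g k hf hH hg hk hs => mul B hC hP hf hH hg hk hs,
    fun X C hX hC f hf h => ?_, fun X C hX hC f hf r hr g hg => ?_⟩
  · simpa only [mul_right_comm] using wm_to B hC hP h hg H hH
  · have h2 := decay' B hC hP met hf
      (fun g hg H hH => by simpa only [mul_right_comm] using h H g hH hg) hg (Or.inl rfl)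
    simp only [one_mul] at h2
    exact h2
  · obtain ⟨Z, p, hP⟩ := ex X C hX hC
    exact weak B hC hP met hf h
  · obtain ⟨Z, p, hP⟩ := ex X C hX hC
    have hs : r.sign = 1 ∨ r.sign = -1 := by
      rcases lt_or_gt_of_ne hr with h | h
      · exact Or.inr (Int.sign_eq_neg_one_of_neg h)
      · exact Or.inl (Int.sign_eq_one_of_pos h)
    exact mult B hC hP met hf hs (Int.natAbs_ne_zero.2 hr) (Int.sign_mul_natAbs r) hg

end T3x

end
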