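import Pool.Agent.MP_154433_an.t3.Spec

/-! Row KfB: the operation `KK` and weakly mixing functions. -/

set_option autoImplicit false
set_option linter.unusedVariables false
set_option warn.classDefReducibility false
set_option linter.unusedSectionVars false

open MeasureTheory ProbabilityTheory Filter Topology Function Finset ComplexConjugate
open scoped BigOperators
open Fib27 (BM sup pr Oc Orow F23 LInd Mem)

noncomputable section

namespace T3x

namespace KfB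

section General

variable {Ω : Type} {m m0 : MeasurableSpace Ω} {μ : Measure Ω}

theorem int_mul2 {f g : Ω → ℂ} (hf : MemLp f 2 μ) (hg : MemLp g 2 μ) :
    Integrable (fun x => f x * g x) μ := hf.integrable_mul hg

theorem memLp_conj {f : Ω → ℂ} (hf : MemLp f 2 μ) : MemLp (fun x => conj (f x)) 2 μ :=
  hf.congr_norm (Complex.continuous_conj.comp_aestronglyMeasurable hf.1)
    (Eventually.of_forall fun x => (Complex.norm_conj _).symm)

theorem memLp_mul {f k : Ω → ℂ} (hf : MemLp f 2 μ) (hk : BM μ m0 k) :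
    MemLp (fun x => f x * k x) 2 μ := by
  obtain ⟨h1, C, hC⟩ := hk
  refine MemLp.of_le_mul (c := C) hf (hf.1.mul h1) ?_
  filter_upwards [hC] with x hx
  rw [norm_mul, mul_comm]
  exact mul_le_mul_of_nonneg_right hx (norm_nonneg _)

/-- the pairing is continuous in `L²` -/
theorem pair_zero {f g : Ω → ℂ} (hf : MemLp f 2 μ) (hg : MemLp g 2 μ)
    (h : ∀ ε : ℝ, 0 < ε → ∃ φ : Ω → ℂ, MemLp φ 2 μ ∧ ∫ x, φ x * g x ∂μ = 0 ∧
      ∫ x, ‖f x - φ x‖ ^ 2 ∂μ ≤ ε) : ∫ x, f x * g x ∂μ = 0 := by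
  have hA : Integrable (fun x => ‖g x‖ ^ 2) μ := hg.integrable_norm_pow (by norm_num)
  set A := ∫ x, ‖g x‖ ^ 2 ∂μ with hAdef
  have hA0 : 0 ≤ A := integral_nonneg fun x => by positivity
  have key : ∀ δ : ℝ, 0 < δ → ‖∫ x, f x * g x ∂μ‖ ≤ δ * (A + 1) := by
    intro δ hδ
    obtain ⟨φ, hφ, h0, h1⟩ := h (δ ^ 2) (by positivity)
    have hd : MemLp (fun x => f x - φ x) 2 μ := hf.sub hφ
    have hB : Integrable (fun x => ‖f x - φ x‖ ^ 2) μ := hd.integrable_norm_pow (by norm_num)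
    have e : ∫ x, f x * g x ∂μ = ∫ x, (f x - φ x) * g x ∂μ := by
      simp only [sub_mul]
      rw [integral_sub (int_mul2 hf hg) (int_mul2 hφ hg), h0, sub_zero]
    rw [e]
    calc ‖∫ x, (f x - φ x) * g x ∂μ‖
        ≤ ∫ x, (δ * ‖g x‖ ^ 2 + δ⁻¹ * ‖f x - φ x‖ ^ 2) ∂μ := by
          refine norm_integral_le_of_norm_le ((hA.const_mul δ).add (hB.const_mul δ⁻¹))
            (Eventually.of_forall fun x => ?_)
          rw [norm_mul]
          have h2 : δ * δ⁻¹ = 1 := mul_inv_cancel₀ hδ.ne'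
          have h3 : 0 < δ⁻¹ := inv_pos.2 hδ
          have h4 : 0 ≤ δ⁻¹ * (δ * ‖g x‖ - ‖f x - φ x‖) ^ 2 := by positivity
          have h5 : δ⁻¹ * (δ * ‖g x‖ - ‖f x - φ x‖) ^ 2 = δ * ‖g x‖ ^ 2 +
              δ⁻¹ * ‖f x - φ x‖ ^ 2 - 2 * (‖f x - φ x‖ * ‖g x‖) := by
            field_simp
            ring
          have h6 : 0 ≤ ‖f x - φ x‖ * ‖g x‖ := by positivity
          linarith
      _ = δ * A + δ⁻¹ * ∫ x, ‖f x - φ x‖ ^ 2 ∂μ := by
          rw [integral_add (hA.const_mul δ) (hB.const_mul δ⁻¹), integral_const_mul,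
            integral_const_mul]
      _ ≤ δ * A + δ⁻¹ * δ ^ 2 := by gcongr
      _ = δ * (A + 1) := by field_simp
  refine norm_le_zero_iff.1 (le_of_forall_pos_le_add fun ε hε => ?_)
  have := key (ε / (A + 1)) (by positivity)
  rwa [div_mul_cancel₀ _ (by positivity), ← zero_add ε] at this

theorem conj_pair {f g : Ω → ℂ} (h : ∫ x, f x * g x ∂μ = 0) :
    ∫ x, conj (f x) * conj (g x) ∂μ = 0 := by
  have h2 := congrArg conj h
  rw [← integral_conj] at h2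
  simpa using h2

theorem norm_sq_L2 (u : Lp ℂ 2 μ) : ‖u‖ ^ 2 = ∫ x, ‖u x‖ ^ 2 ∂μ := by
  have h1 : (inner ℂ u u : ℂ) = ∫ x, inner ℂ (u x) (u x) ∂μ := L2.inner_def u u
  simp only [inner_self_eq_norm_sq_to_K] at h1
  have h2 : ((‖u‖ ^ 2 : ℝ) : ℂ) = ((∫ x, ‖u x‖ ^ 2 ∂μ : ℝ) : ℂ) := by
    rw [← integral_complex_ofReal]
    push_cast
    exact h1
  exact_mod_cast h2

/-- the double annihilator of a set of functions is the closure of its finite sums -/
theorem dense_sum (S : Set (Ω → ℂ)) (h2 : ∀ k ∈ S, MemLp k 2 μ)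
    (hc : ∀ (c : ℂ), ∀ k ∈ S, (fun x => c * k x) ∈ S) {g : Ω → ℂ} (hg : MemLp g 2 μ)
    (h : ∀ f : Ω → ℂ, MemLp f 2 μ → (∀ k ∈ S, ∫ x, f x * k x ∂μ = 0) → ∫ x, f x * g x ∂μ = 0)
    (ε : ℝ) (hε : 0 < ε) : ∃ (n : ℕ) (k : Fin n → Ω → ℂ), (∀ i, k i ∈ S) ∧
      ∫ x, ‖g x - ∑ i, k i x‖ ^ 2 ∂μ ≤ ε := by
  let S' : Set (Lp ℂ 2 μ) := {u | ∃ k ∈ S, (u : Ω → ℂ) =ᵐ[μ] k}
  let V : Submodule ℂ (Lp ℂ 2 μ) := Submodule.span ℂ S'
  have inn : ∀ u v : Lp ℂ 2 μ, (inner ℂ u v : ℂ) = ∫ x, conj (u x) * v x ∂μ := by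
    intro u v
    rw [L2.inner_def]
    simp only [RCLike.inner_apply, mul_comm]
  have hmem : hg.toLp g ∈ Vᗮᗮ := by
    rw [Submodule.mem_orthogonal]
    intro u hu
    rw [inn]
    have e : ∫ x, conj (u x) * (hg.toLp g) x ∂μ = ∫ x, conj (u x) * g x ∂μ := by
      refine integral_congr_ae ?_
      filter_upwards [hg.coeFn_toLp] with x hx
      rw [hx]
    rw [e]
    refine h _ (memLp_conj (Lp.memLp u)) fun k hk => ?_
    have h3 : (h2 k hk).toLp k ∈ V := Submodule.subset_span ⟨k, hk, (h2 k hk).coeFn_toLp⟩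
    have h4 := (Submodule.mem_orthogonal' _ _).1 hu _ h3
    rw [inn] at h4
    rw [← h4]
    refine integral_congr_ae ?_
    filter_upwards [(h2 k hk).coeFn_toLp] with x hx
    rw [hx]
  rw [Submodule.orthogonal_orthogonal_eq_closure] at hmem
  have hcl : hg.toLp g ∈ closure (V : Set (Lp ℂ 2 μ)) := hmem
  obtain ⟨v, hv, hd⟩ := Metric.mem_closure_iff.1 hcl (Real.sqrt ε) (Real.sqrt_pos.2 hε)
  obtain ⟨n, c, w, rfl⟩ := Submodule.mem_span_set'.1 hv
  choose k hk hk' using fun i => (w i).2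
  refine ⟨n, fun i x => c i * k i x, fun i => hc _ _ (hk i), ?_⟩
  rw [dist_eq_norm] at hd
  have h5 : ‖hg.toLp g - ∑ i, c i • (w i : Lp ℂ 2 μ)‖ ^ 2 ≤ ε := by
    calc _ ≤ Real.sqrt ε ^ 2 := by gcongr
      _ = ε := Real.sq_sqrt hε.le
  rw [norm_sq_L2] at h5
  refine le_of_eq_of_le (integral_congr_ae ?_) h5
  filter_upwards [Lp.coeFn_sub (hg.toLp g) (∑ i, c i • (w i : Lp ℂ 2 μ)), hg.coeFn_toLp,
    Lp.coeFn_fun_finsetSum univ (fun i => c i • (w i : Lp ℂ 2 μ)),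
    ae_all_iff.2 fun i => Lp.coeFn_smul (c i) (w i : Lp ℂ 2 μ), ae_all_iff.2 hk']
    with x h1 h3 h4 h6 h7
  rw [h1, Pi.sub_apply, h3, h4]
  simp only [h6, Pi.smul_apply, h7, smul_eq_mul]

variable [IsProbabilityMeasure μ]

theorem int_bm {f k : Ω → ℂ} (hf : Integrable f μ) (hk : BM μ m0 k) :
    Integrable (fun x => f x * k x) μ := by
  obtain ⟨h1, C, hC⟩ := hk
  exact hf.mul_bdd h1 hC

/-- pull-out of a bounded factor -/
theorem int_ce_r (hm : m ≤ m0) {f k : Ω → ℂ} (hf : Integrable f μ) (hk : BM μ m k) :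
    ∫ x, (μ[f | m]) x * k x ∂μ = ∫ x, f x * k x ∂μ := by
  have h1 : μ[fun x => f x * k x | m] =ᵐ[μ] fun x => (μ[f | m]) x * k x :=
    condExp_bilin_of_aestronglyMeasurable_right (ContinuousLinearMap.mul ℝ ℂ) hk.1
      (int_bm hf (hk.mono hm)) hf
  rw [← integral_congr_ae h1, integral_condExp hm]

/-- pull-out of an integrable factor -/
theorem int_ce_l (hm : m ≤ m0) {f k : Ω → ℂ} (hf : Integrable f μ)
    (hf' : AEStronglyMeasurable[m] f μ) (hk : BM μ m0 k) :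
    ∫ x, f x * (μ[k | m]) x ∂μ = ∫ x, f x * k x ∂μ := by
  have h1 : μ[fun x => f x * k x | m] =ᵐ[μ] fun x => f x * (μ[k | m]) x :=
    condExp_bilin_of_aestronglyMeasurable_left (ContinuousLinearMap.mul ℝ ℂ) hf'
      (int_bm hf hk) hk.integrable
  rw [← integral_congr_ae h1, integral_condExp hm]

end General

/-- convolutions with invariant kernels -/
def Cv {X Z : Sys} (p : Bool → Z.X → X.X) : Set (X.X → ℂ) :=
  {k | ∃ (H : Z.X → ℂ) (g : X.X → ℂ), BM Z.μ (Inv Z) H ∧ BM X.μ X.ms g ∧ BM X.μ X.ms k ∧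
    Star p H g k}

/-- the generators of `KK` -/
def Gn (X : Sys) (B : MeasurableSpace X.X) : Set (X.X → ℂ) :=
  {g ∈ @Bdd X.X X.ms | ∀ f, WM X B f → ∫ x, f x * g x ∂X.μ = 0}

theorem KK_eq (X : Sys) (B : MeasurableSpace X.X) : KK X B = gen (Gn X B) id ⊔ nul X.μ := rfl

theorem bm_emb (hb : Bas) {Z X : Sys} {q : Z.X → X.X} (hq : Emb Z X q) {g : X.X → ℂ}
    (hg : BM X.μ X.ms g) : BM Z.μ Z.ms fun z => g (q z) :=
  (hb.a.bm_comp X.ms Z.μ X.μ q g hq.mp hg).mono (hb.a.pull_le X.ms Z.μ X.μ q hq.mp le_rfl)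

theorem int_emb {Z X : Sys} {q : Z.X → X.X} (hq : MeasurePreserving q Z.μ X.μ) {g : X.X → ℂ}
    (hg : AEStronglyMeasurable g X.μ) : ∫ z, g (q z) ∂Z.μ = ∫ x, g x ∂X.μ := by
  have := integral_map (μ := Z.μ) (φ := q) (f := g) hq.measurable.aemeasurable
    (by rwa [hq.map_eq])
  rw [← this, hq.map_eq]

theorem int_emb_norm {Z X : Sys} {q : Z.X → X.X} (hq : MeasurePreserving q Z.μ X.μ)
    {g : X.X → ℂ} (hg : Integrable g X.μ) : ∫ z, ‖g (q z)‖ ∂Z.μ = ∫ x, ‖g x‖ ∂X.μ := by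
  have := integral_map (μ := Z.μ) (φ := q) (f := fun x => ‖g x‖) hq.measurable.aemeasurable
    (by rw [hq.map_eq]; exact hg.1.norm)
  rw [← this, hq.map_eq]

theorem bdd_shift (hb : Bas) {X : Sys} {g : X.X → ℂ} (hg : g ∈ Bdd X.X) (m : ℤ) :
    (fun x => g (X.Tz m x)) ∈ Bdd X.X := by
  obtain ⟨h1, D, hD⟩ := hg
  exact ⟨h1.comp (hb.t.mp X m).measurable, D, fun x => hD _⟩

theorem bdd_mul {X : Sys} {g g' : X.X → ℂ} (hg : g ∈ Bdd X.X) (hg' : g' ∈ Bdd X.X) :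
    (fun x => g x * g' x) ∈ Bdd X.X := by
  obtain ⟨h1, D, hD⟩ := hg
  obtain ⟨h1', D', hD'⟩ := hg'
  refine ⟨h1.mul h1', D * D', fun x => ?_⟩
  rw [norm_mul]
  exact mul_le_mul (hD x) (hD' x) (norm_nonneg _) ((norm_nonneg _).trans (hD x))

theorem bdd_conj {X : Sys} {g : X.X → ℂ} (hg : g ∈ Bdd X.X) : (fun x => conj (g x)) ∈ Bdd X.X := by
  obtain ⟨h1, D, hD⟩ := hg
  exact ⟨Complex.continuous_conj.measurable.comp h1, D, fun x => by
    rw [Complex.norm_conj]; exact hD x⟩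

theorem pairing (hb : Bas) {X Z : Sys} {p : Bool → Z.X → X.X} (hp : ∀ i, Emb Z X (p i))
    {f : X.X → ℂ} (hf : MemLp f 2 X.μ) {H : Z.X → ℂ} {g k : X.X → ℂ} (hH : BM Z.μ Z.ms H)
    (hg : BM X.μ X.ms g) (hk : BM X.μ X.ms k) (hs : Star p H g k) :
    ∫ z, f (p false z) * H z * g (p true z) ∂Z.μ = ∫ x, f x * k x ∂X.μ := by
  have hle := hb.a.pull_le X.ms Z.μ X.μ (p false) (hp false).mp le_rfl
  have hfi : Integrable f X.μ := hf.integrable (by norm_num)
  have h1 : Integrable (fun z => f (p false z)) Z.μ :=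
    ((hp false).mp.integrable_comp hf.1).2 hfi
  have h2 : AEStronglyMeasurable[pull Z.μ (p false) X.ms] (fun z => f (p false z)) Z.μ := by
    refine ⟨fun z => hf.1.mk f (p false z), ?_, ?_⟩
    · refine Measurable.stronglyMeasurable ?_
      exact (hf.1.stronglyMeasurable_mk.measurable.comp (comap_measurable (p false))).mono
        le_sup_left le_rfl
    · exact (hp false).mp.quasiMeasurePreserving.ae_eq_comp hf.1.ae_eq_mk
  have h3 := int_ce_l hle h1 h2 (hH.mul (bm_emb hb (hp true) hg))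
  rw [← int_emb (hp false).mp (g := fun x => f x * k x) (hf.1.mul hk.1)]
  simp only [mul_assoc]
  rw [← h3]
  refine integral_congr_ae ?_
  filter_upwards [hs] with z hz
  rw [← hz]

theorem wm_cv (hb : Bas) (ka : KfA) {X Z : Sys} {C : MeasurableSpace X.X} {p : Bool → Z.X → X.X}
    (hC : Fac X C) (hp : Pair X C Z p) {f : X.X → ℂ} (hf : MemLp f 2 X.μ) :
    WM X C f ↔ ∀ k ∈ Cv p, ∫ x, f x * k x ∂X.μ = 0 := by
  rw [ka.wm_iff X C Z p hC hp f hf]
  constructor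
  · rintro h k ⟨H, g, hH, hg, hk, hs⟩
    rw [← pairing hb hp.emb hf (hH.mono (hb.t.finv Z).le) hg hk hs]
    exact h H g hH hg
  · intro h H g hH hg
    obtain ⟨k, hk, hs⟩ := ka.star X C Z p hC hp H g (hH.mono (hb.t.finv Z).le) hg
    rw [pairing hb hp.emb hf (hH.mono (hb.t.finv Z).le) hg hk hs]
    exact h k ⟨H, g, hH, hg, hk, hs⟩

theorem cv_bm {X Z : Sys} {p : Bool → Z.X → X.X} {k : X.X → ℂ} (h : k ∈ Cv p) :
    BM X.μ X.ms k := by
  obtain ⟨H, g, hH, hg, hk, hs⟩ := h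
  exact hk

theorem cv_conj (hb : Bas) {X Z : Sys} {p : Bool → Z.X → X.X} (hp : ∀ i, Emb Z X (p i))
    {k : X.X → ℂ} (h : k ∈ Cv p) : (fun x => conj (k x)) ∈ Cv p := by
  obtain ⟨H, g, hH, hg, hk, hs⟩ := h
  refine ⟨fun z => conj (H z), fun x => conj (g x), hH.conj, hg.conj, hk.conj, ?_⟩
  have hle := hb.a.pull_le X.ms Z.μ X.μ (p false) (hp false).mp le_rfl
  have h1 := Fib27.ce_conj hle ((hH.mono (hb.t.finv Z).le).mul (bm_emb hb (hp true) hg))
  simp only [map_mul] at h1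
  unfold Star at hs ⊢
  filter_upwards [hs, h1] with z h2 h3
  rw [h3, ← h2]

theorem cv_cmul (hb : Bas) {X Z : Sys} {p : Bool → Z.X → X.X} (hp : ∀ i, Emb Z X (p i)) (c : ℂ)
    {k : X.X → ℂ} (h : k ∈ Cv p) : (fun x => c * k x) ∈ Cv p := by
  obtain ⟨H, g, hH, hg, hk, hs⟩ := h
  refine ⟨fun z => c * H z, g, hH.cmul c, hg, hk.cmul c, ?_⟩
  have hle := hb.a.pull_le X.ms Z.μ X.μ (p false) (hp false).mp le_rfl
  have h1 := Fib27.ce_cmul hle c ((hH.mono (hb.t.finv Z).le).mul (bm_emb hb (hp true) hg))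
  unfold Star at hs ⊢
  simp only [mul_assoc]
  filter_upwards [hs, h1] with z h2 h3
  rw [h3, ← h2]

/-- functions of the base are convolutions -/
theorem cv_base (hb : Bas) {X Z : Sys} {C : MeasurableSpace X.X} {p : Bool → Z.X → X.X}
    (hC : Fac X C) (hp : Pair X C Z p) {c : X.X → ℂ} (hc : BM X.μ C c) : c ∈ Cv p := by
  refine ⟨fun _ => 1, c, BM.const 1, hc.mono hC.le, hc.mono hC.le, ?_⟩
  have hle := hb.a.pull_le X.ms Z.μ X.μ (p false) (hp.emb false).mp le_rfl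
  have h1 : (fun z => c (p true z)) =ᵐ[Z.μ] fun z => c (p false z) :=
    hb.a.keq_fun C Z.μ X.μ (p true) (p false) c (hp.emb true).mp (hp.emb false).mp
      (hp.com true) hc.1
  have h2 := (hb.a.bm_comp X.ms Z.μ X.μ (p false) c (hp.emb false).mp (hc.mono hC.le)).ce_self hle
  unfold Star
  simp only [one_mul]
  exact h2.symm.trans (condExp_congr_ae h1.symm)

/-- invariant functions are convolutions -/
theorem cv_inv (hb : Bas) {X Z : Sys} {p : Bool → Z.X → X.X} (hp : ∀ i, Emb Z X (p i))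
    {c : X.X → ℂ} (hc : BM X.μ (Inv X) c) : c ∈ Cv p := by
  have hc' : BM X.μ X.ms c := hc.mono (hb.t.finv X).le
  have hH := bm_emb hb (hp false) hc'
  have hle := hb.a.pull_le X.ms Z.μ X.μ (p false) (hp false).mp le_rfl
  refine ⟨fun z => c (p false z), fun _ => 1, hH.of_aesm ?_, BM.const 1, hc', ?_⟩
  · rw [hb.t.inv_iff Z _ hH.1]
    have h1 := hb.a.keq_fun X.ms Z.μ X.μ (p false ∘ Z.T) (X.T ∘ p false) c
      ((hp false).mp.comp Z.mp) (X.mp.comp (hp false).mp) (hp false).eqv hc'.1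
    have h2 := (hp false).mp.quasiMeasurePreserving.ae_eq_comp
      ((hb.t.inv_iff X c hc'.1).1 hc.1)
    exact h1.trans h2
  · have h2 := (hb.a.bm_comp X.ms Z.μ X.μ (p false) c (hp false).mp hc').ce_self hle
    unfold Star
    simp only [mul_one]
    exact h2.symm

theorem ex_pair (rp : RPS) {X : Sys} {C : MeasurableSpace X.X} (hn : Nice X) (hC : Fac X C) :
    ∃ (Z : Sys) (p : Bool → Z.X → X.X), Pair X C Z p :=
  rp Bool (fun _ => X) X C (fun _ => id) false (fun _ => hn) hC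
    (fun _ => @MeasurePreserving.id _ X.ms X.μ) (fun _ A _ => EventuallyEq.rfl)

theorem mem_kk (hb : Bas) {X : Sys} {C : MeasurableSpace X.X} {g : X.X → ℂ} (hg : BM X.μ X.ms g)
    (h : ∀ f, WM X C f → ∫ x, f x * g x ∂X.μ = 0) : BM X.μ (KK X C) g := by
  obtain ⟨h1, D, hD⟩ := hg
  have hD' : ∀ᵐ x ∂X.μ, ‖g x‖ ≤ max D 0 := hD.mono fun x hx => hx.trans (le_max_left _ _)
  obtain ⟨g', h2, h3, h4⟩ := hb.a.rep X.ms X.μ g (max D 0) (le_max_right _ _) h1 hD'
  have h5 : g' ∈ Gn X C := by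
    refine ⟨⟨h2, _, h3⟩, fun f hf => ?_⟩
    rw [← h f hf]
    refine integral_congr_ae ?_
    filter_upwards [h4] with x hx
    rw [hx]
  refine ⟨⟨g', Measurable.stronglyMeasurable ?_, h4⟩, D, hD⟩
  rw [KK_eq]
  refine (comap_measurable g').mono (le_trans ?_ le_sup_left) le_rfl
  exact le_iSup₂_of_le (f := fun F (_ : F ∈ Gn X C) =>
    MeasurableSpace.comap (id F) (inferInstance : MeasurableSpace ℂ)) g' h5 le_rfl

theorem gn_bm {X : Sys} {C : MeasurableSpace X.X} {g : X.X → ℂ} (h : g ∈ Gn X C) :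
    BM X.μ X.ms g := by
  obtain ⟨⟨h1, D, hD⟩, _⟩ := h
  exact ⟨h1.stronglyMeasurable.aestronglyMeasurable, D, Eventually.of_forall hD⟩

theorem kk_le (hb : Bas) (X : Sys) (C : MeasurableSpace X.X) : KK X C ≤ X.ms := by
  rw [KK_eq]
  refine sup_le (iSup₂_le fun g hg => ?_) (hb.a.nul_le X.μ)
  exact hg.1.1.comap_le

theorem le_kk (hb : Bas) {X : Sys} {C D : MeasurableSpace X.X} (hD : D ≤ X.ms)
    (h : ∀ c, BM X.μ D c → ∀ f, WM X C f → ∫ x, f x * c x ∂X.μ = 0) : D ≤ KK X C := by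
  intro A hA
  have h5 : (A.indicator fun _ => (1 : ℂ)) ∈ Gn X C := by
    refine ⟨⟨(@measurable_const _ _ _ X.ms _).indicator (hD A hA), 1, fun x => ?_⟩,
      h _ (BM.indicator hA)⟩
    by_cases hx : x ∈ A <;> simp [hx]
  have h6 : MeasurableSpace.comap (A.indicator fun _ => (1 : ℂ)) inferInstance ≤ KK X C := by
    rw [KK_eq]
    refine le_trans ?_ le_sup_left
    exact le_iSup₂_of_le (f := fun F (_ : F ∈ Gn X C) =>
      MeasurableSpace.comap (id F) (inferInstance : MeasurableSpace ℂ)) _ h5 le_rfl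
  refine h6 A ⟨{1}, measurableSet_singleton _, ?_⟩
  ext x
  by_cases hx : x ∈ A <;> simp [hx]

theorem wm_shift (hb : Bas) {X : Sys} {C : MeasurableSpace X.X} (hC : Fac X C) {f : X.X → ℂ}
    (hf : WM X C f) (m : ℤ) : WM X C fun x => f (X.Tz m x) := by
  refine ⟨hf.1.comp_measurePreserving (hb.t.mp X m), fun g hg => ?_⟩
  have hg' := hb.t.bm X X.ms (-m) g (hb.t.top X) hg
  refine (hf.2 _ hg').congr fun N => ?_
  congr 1
  refine sum_congr rfl fun n _ => ?_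
  have hi : Integrable (fun y => f (X.Tz n y) * g (X.Tz (-m) y)) X.μ :=
    int_bm ((hf.1.comp_measurePreserving (hb.t.mp X n)).integrable (by norm_num)) hg'
  have h1 := hb.t.ce X C m _ hC hi
  have h2 : (fun x => f (X.Tz n (X.Tz m x)) * g (X.Tz (-m) (X.Tz m x))) =
      fun y => f (X.Tz m (X.Tz n y)) * g y := by
    funext y
    rw [← hb.t.add, ← hb.t.add, ← hb.t.add, neg_add_cancel, hb.t.zero, add_comm]
  rw [h2] at h1
  have h3 : ∫ x, ‖(X.μ[fun y => f (X.Tz m (X.Tz n y)) * g y | C]) x‖ ∂X.μ =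
      ∫ x, ‖(X.μ[fun y => f (X.Tz n y) * g (X.Tz (-m) y) | C]) (X.Tz m x)‖ ∂X.μ := by
    refine integral_congr_ae ?_
    filter_upwards [h1] with x hx
    rw [hx]
  rw [h3]
  exact (int_emb_norm (hb.t.mp X m) integrable_condExp).symm

theorem gn_shift (hb : Bas) {X : Sys} {C : MeasurableSpace X.X} (hC : Fac X C) {g : X.X → ℂ}
    (hg : g ∈ Gn X C) (m : ℤ) : (fun x => g (X.Tz m x)) ∈ Gn X C := by
  have hg' := gn_bm hg
  obtain ⟨h1, h2⟩ := hg
  refine ⟨bdd_shift hb h1 m, fun f hf => ?_⟩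
  have h3 := wm_shift hb hC hf (-m)
  rw [← h2 _ h3, ← int_emb (hb.t.mp X m) (g := fun x => f (X.Tz (-m) x) * g x)
    (h3.1.1.mul hg'.1)]
  refine integral_congr_ae (Eventually.of_forall fun x => ?_)
  simp only
  rw [← hb.t.add, neg_add_cancel, hb.t.zero]

theorem kk_comap (hb : Bas) {X : Sys} {C : MeasurableSpace X.X} (hC : Fac X C) (m : ℤ) :
    (KK X C).comap (X.Tz m) ≤ KK X C := by
  rw [KK_eq, MeasurableSpace.comap_sup, hb.t.inv X _ m (hb.t.bot X)]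
  refine sup_le_sup_right ?_ _
  unfold gen
  rw [MeasurableSpace.comap_iSup]
  refine iSup_le fun g => ?_
  rw [MeasurableSpace.comap_iSup]
  refine iSup_le fun hg => ?_
  rw [MeasurableSpace.comap_comp]
  exact le_iSup₂_of_le (f := fun F (_ : F ∈ Gn X C) =>
    MeasurableSpace.comap (id F) (inferInstance : MeasurableSpace ℂ)) _ (gn_shift hb hC hg m) le_rfl

theorem wm_mono {X : Sys} {C C' : MeasurableSpace X.X} (hC' : Fac X C') (h : C ≤ C')
    {f : X.X → ℂ} (hf : WM X C' f) : WM X C f := by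
  refine ⟨hf.1, fun g hg => squeeze_zero (fun N => ?_) (fun N => ?_) (hf.2 g hg)⟩
  · exact mul_nonneg (by positivity) (sum_nonneg fun n _ => integral_nonneg fun x => norm_nonneg _)
  · refine mul_le_mul_of_nonneg_left (sum_le_sum fun n _ => ?_) (by positivity)
    have h1 := condExp_condExp_of_le (μ := X.μ) (f := fun y => f (X.Tz n y) * g y) h hC'.le
    calc _ = ∫ x, ‖(X.μ[X.μ[fun y => f (X.Tz n y) * g y | C'] | C]) x‖ ∂X.μ := by
          refine integral_congr_ae ?_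
          filter_upwards [h1] with x hx
          rw [hx]
      _ ≤ _ := integral_norm_condExp_le _

theorem wm_ce (hb : Bas) (rp : RPS) (ka : KfA) {X : Sys} {C : MeasurableSpace X.X} (hn : Nice X)
    (hC : Fac X C) {f : X.X → ℂ} (hf : WM X C f) : X.μ[f | KK X C] =ᵐ[X.μ] 0 := by
  obtain ⟨Z, p, hp⟩ := ex_pair rp hn hC
  refine hb.d.perp X.μ (Gn X C) (fun φ hφ => hφ.1) ⟨fun _ => 1, ⟨⟨@measurable_const _ _ _ X.ms _,
    1, fun x => by simp⟩, fun f' hf' => ?_⟩, EventuallyEq.rfl⟩ (fun φ hφ φ' hφ' => ?_)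
    (fun φ hφ => ?_) f (hf.1.integrable (by norm_num)) fun φ hφ => hφ.2 f hf
  · exact (wm_cv hb ka hC hp hf'.1).1 hf' _ (cv_base hb hC hp (BM.const 1))
  · refine ⟨fun x => φ x * φ' x, ⟨bdd_mul hφ.1 hφ'.1, fun f' hf' => ?_⟩, EventuallyEq.rfl⟩
    · have h1 : WM X C fun x => f' x * φ x := by
        rw [wm_cv hb ka hC hp (memLp_mul hf'.1 (gn_bm hφ))]
        rintro k ⟨H, g, hH, hg, hk, hs⟩
        rw [← hφ.2 _ (ka.mul X C Z p hn hC hp f' H g k hf' hH hg hk hs)]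
        simp only [mul_right_comm]
      rw [← hφ'.2 _ h1]
      simp only [mul_assoc]
  · refine ⟨fun x => conj (φ x), ⟨bdd_conj hφ.1, fun f' hf' => ?_⟩, EventuallyEq.rfl⟩
    · have h1 : WM X C fun x => conj (f' x) := by
        rw [wm_cv hb ka hC hp (memLp_conj hf'.1)]
        intro k hk
        simpa using conj_pair ((wm_cv hb ka hC hp hf'.1).1 hf' _ (cv_conj hb hp.emb hk))
      simpa using conj_pair (hφ.2 _ h1)

theorem ce_perp (hb : Bas) {X : Sys} {C : MeasurableSpace X.X} {f k : X.X → ℂ}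
    (hf : MemLp f 2 X.μ) (h : X.μ[f | KK X C] =ᵐ[X.μ] 0) (hk : BM X.μ (KK X C) k) :
    ∫ x, f x * k x ∂X.μ = 0 := by
  rw [← int_ce_r (kk_le hb X C) (hf.integrable (by norm_num)) hk]
  refine integral_eq_zero_of_ae ?_
  filter_upwards [h] with x hx
  simp [hx]

end KfB

open KfB in
theorem kfB : KfBR := by
  intro hb _ rp ka
  refine ⟨fun X C hn hC => ⟨kk_le hb X C, le_sup_right, kk_comap hb hC 1, kk_comap hb hC (-1)⟩,
    fun X C hn hC => ?_, fun X C hn hC => ?_, fun X C C' hn hC hC' h => ?_,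
    fun X C hn hC f hf => ⟨wm_ce hb rp ka hn hC, fun h => ?_⟩,
    fun X C hn hC g hg h => mem_kk hb hg h, fun X C Z p hn hC hp k hk ε hε => ?_,
    fun X C hn hC f hf h => ?_⟩
  · obtain ⟨Z, p, hp⟩ := ex_pair rp hn hC
    exact le_kk hb hC.le fun c hc f hf => (wm_cv hb ka hC hp hf.1).1 hf _ (cv_base hb hC hp hc)
  · obtain ⟨Z, p, hp⟩ := ex_pair rp hn hC
    exact le_kk hb (hb.t.finv X).le fun c hc f hf =>
      (wm_cv hb ka hC hp hf.1).1 hf _ (cv_inv hb hp.emb hc)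
  · rw [KK_eq, KK_eq]
    refine sup_le_sup_right (iSup₂_le fun g hg => ?_) _
    exact le_iSup₂_of_le (f := fun F (_ : F ∈ Gn X C') =>
      MeasurableSpace.comap (id F) (inferInstance : MeasurableSpace ℂ)) g
      ⟨hg.1, fun f hf => hg.2 f (wm_mono hC' h hf)⟩ le_rfl
  · obtain ⟨Z, p, hp⟩ := ex_pair rp hn hC
    rw [wm_cv hb ka hC hp hf]
    intro k hk
    exact ce_perp hb hf h (mem_kk hb (cv_bm hk) fun f' hf' => (wm_cv hb ka hC hp hf'.1).1 hf' k hk)
  · obtain ⟨n, k', h1, h2⟩ := dense_sum (μ := X.μ) (Cv p) (fun k hk => (cv_bm hk).memLp 2)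
      (fun c k hk => cv_cmul hb hp.emb c hk) ((hk.mono (kk_le hb X C)).memLp 2)
      (fun f hf h => ce_perp hb hf (wm_ce hb rp ka hn hC ((wm_cv hb ka hC hp hf).2 h)) hk) ε hε
    choose H g h3 using h1
    exact ⟨n, H, g, k', h3, h2⟩
  · obtain ⟨Z, p, hp⟩ := ex_pair rp hn hC
    rw [wm_cv hb ka hC hp hf]
    intro k hk
    refine pair_zero hf ((cv_bm hk).memLp 2) fun ε hε => ?_
    obtain ⟨n, a, h1, h2⟩ := h ε hε
    refine ⟨fun x => ∑ i, a i x, memLp_finsetSum _ fun i _ => (h1 i).1, ?_, h2⟩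
    simp only [sum_mul]
    rw [integral_finsetSum _ fun i _ => int_mul2 (h1 i).1 ((cv_bm hk).memLp 2)]
    exact sum_eq_zero fun i _ => (wm_cv hb ka hC hp (h1 i).1).1 (h1 i) k hk

end T3x

end
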