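import Pool.Agent.MP_154433_an.t3.Spec

/-! Rows `Met` and `Mix`: the mean ergodic theorem and correlations along ergodic weights. -/

set_option autoImplicit false
set_option linter.unusedVariables false

open MeasureTheory ProbabilityTheory Filter Topology Function Finset ComplexConjugate
open scoped BigOperators

noncomputable section

namespace T3x

namespace MetL

abbrev HH (X : Sys) : Type := Lp ℂ 2 X.μ

def K (b : Bas) (X : Sys) (n : ℤ) : HH X →ₗᵢ[ℂ] HH X :=
  Lp.compMeasurePreservingₗᵢ ℂ (X.Tz n) (b.t.mp X n)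

lemma K_coe (b : Bas) (X : Sys) (n : ℤ) (v : HH X) :
    K b X n v =ᵐ[X.μ] fun x => v (X.Tz n x) :=
  Lp.coeFn_compMeasurePreserving v (b.t.mp X n)

lemma cmp (b : Bas) (X : Sys) (n : ℤ) {E : Type} {f g : X.X → E} (h : f =ᵐ[X.μ] g) :
    (fun x => f (X.Tz n x)) =ᵐ[X.μ] fun x => g (X.Tz n x) :=
  (b.t.mp X n).quasiMeasurePreserving.ae_eq_comp h

lemma K_add (b : Bas) (X : Sys) (n m : ℤ) (v : HH X) :
    K b X n (K b X m v) = K b X (m + n) v := by
  apply Lp.ext
  filter_upwards [K_coe b X n (K b X m v), cmp b X n (K_coe b X m v), K_coe b X (m + n) v]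
    with x h1 h2 h3
  rw [h1, h3, b.t.add]; exact h2

lemma K_zero (b : Bas) (X : Sys) (v : HH X) : K b X 0 v = v := by
  apply Lp.ext
  filter_upwards [K_coe b X 0 v] with x h
  rw [h, b.t.zero]

def V (b : Bas) (X : Sys) (r : ℤ) : HH X ≃ₗᵢ[ℂ] HH X :=
  LinearIsometryEquiv.ofSurjective (K b X r) fun v =>
    ⟨K b X (-r) v, by rw [K_add, neg_add_cancel, K_zero]⟩

lemma V_app (b : Bas) (X : Sys) (r : ℤ) (v : HH X) : V b X r v = K b X r v := rfl

lemma V_zpow (b : Bas) (X : Sys) (r d : ℤ) (v : HH X) : (V b X r ^ d) v = K b X (r * d) v := by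
  induction d using Int.induction_on generalizing v with
  | zero => simp [K_zero]
  | succ i ih =>
    rw [zpow_add_one, LinearIsometryEquiv.coe_mul, comp_apply, ih, V_app, K_add]
    congr 2; ring
  | pred i ih =>
    obtain ⟨u, rfl⟩ := (V b X r).surjective v
    have h : (V b X r ^ (-(i : ℤ) - 1)) (V b X r u) = (V b X r ^ (-(i : ℤ) - 1 + 1)) u := by
      rw [zpow_add_one, LinearIsometryEquiv.coe_mul, comp_apply]
    rw [h, sub_add_cancel, ih, V_app, K_add]
    congr 2; ring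

lemma nsq {Ω : Type} [MeasurableSpace Ω] {μ : Measure Ω} (v : Lp ℂ 2 μ) :
    ∫ x, ‖v x‖ ^ 2 ∂μ = ‖v‖ ^ 2 := by
  have h := L2.inner_def (𝕜 := ℂ) v v
  simp_rw [inner_self_eq_norm_sq_to_K] at h
  have h2 : ((∫ x, ‖v x‖ ^ 2 ∂μ : ℝ) : ℂ) = ((‖v‖ ^ 2 : ℝ) : ℂ) := by
    rw [← integral_complex_ofReal]; push_cast; exact h.symm
  exact_mod_cast h2

lemma pl {𝕜 : Type} [RCLike 𝕜] {Ω : Type} {m m0 : MeasurableSpace Ω} {μ : Measure Ω}
    [IsProbabilityMeasure μ] (hm : m ≤ m0) {f u : Ω → 𝕜} (hf : MemLp f 2 μ) (hu : MemLp u 2 μ)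
    (hum : AEStronglyMeasurable[m] u μ) :
    ∫ x, f x * u x ∂μ = ∫ x, (μ[f | m]) x * u x ∂μ := by
  have hi : Integrable (fun x => f x * u x) μ := hf.integrable_mul hu
  have h := condExp_bilin_of_aestronglyMeasurable_right (ContinuousLinearMap.mul ℝ 𝕜) hum hi
    (hf.integrable one_le_two)
  rw [← integral_condExp hm (f := fun x => f x * u x)]
  exact integral_congr_ae h

lemma im {𝕜 : Type} [RCLike 𝕜] {Ω : Type} {m0 : MeasurableSpace Ω} {μ : Measure Ω}
    {f u : Ω → 𝕜} (hf : MemLp f 2 μ) (hu : MemLp u 2 μ) : Integrable (fun x => f x * u x) μ :=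
  hf.integrable_mul hu

lemma orth (b : Bas) (Y : Sys) {f u : Y.X → ℂ} (hf : MemLp f 2 Y.μ) (hu : MemLp u 2 Y.μ)
    (hT : (fun x => u (Y.T x)) =ᵐ[Y.μ] u) :
    ∫ x, (f x - (Y.μ[f | Inv Y]) x) * u x ∂Y.μ = 0 := by
  have hc : MemLp (Y.μ[f | Inv Y]) 2 Y.μ := hf.condExp one_le_two
  simp_rw [sub_mul]
  rw [integral_sub (im hf hu) (im hc hu),
    pl (b.t.finv Y).le hf hu ((b.t.inv_iff Y u hu.1).2 hT), sub_self]

lemma ce_inv (b : Bas) (Y : Sys) (f : Y.X → ℂ) :
    (fun x => (Y.μ[f | Inv Y]) (Y.T x)) =ᵐ[Y.μ] Y.μ[f | Inv Y] :=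
  (b.t.inv_iff Y _ integrable_condExp.1).1 stronglyMeasurable_condExp.aestronglyMeasurable

lemma invR (b : Bas) (Y : Sys) (u : Y.X → ℝ) (hu : AEStronglyMeasurable u Y.μ) :
    AEStronglyMeasurable[Inv Y] u Y.μ ↔ (fun x => u (Y.T x)) =ᵐ[Y.μ] u := by
  have h := b.t.inv_iff Y (fun x => (u x : ℂ))
    (Complex.continuous_ofReal.comp_aestronglyMeasurable hu)
  constructor
  · intro h1
    filter_upwards [h.1 (Complex.continuous_ofReal.comp_aestronglyMeasurable h1)] with x hx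
    exact_mod_cast hx
  · intro h1
    have h2 := h.2 (by filter_upwards [h1] with x hx; rw [hx])
    simpa using Complex.continuous_re.comp_aestronglyMeasurable h2

lemma inv_mul (b : Bas) (X : Sys) (r : ℤ) {E : Type} {u : X.X → E}
    (h : (fun x => u (X.Tz r x)) =ᵐ[X.μ] u) (d : ℤ) :
    (fun x => u (X.Tz (r * d) x)) =ᵐ[X.μ] u := by
  induction d using Int.induction_on with
  | zero => exact ae_of_all _ fun x => by simp [b.t.zero]
  | succ i ih =>
    filter_upwards [cmp b X (r * i) h, ih] with x h1 h2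
    rw [show r * ((i : ℤ) + 1) = r + r * i by ring, b.t.add, h1, h2]
  | pred i ih =>
    filter_upwards [cmp b X (r * (-(i : ℤ) - 1)) h, ih] with x h1 h2
    rw [← h1, ← b.t.add, show r + r * (-(i : ℤ) - 1) = r * -(i : ℤ) by ring, h2]

lemma inner_eq {Ω : Type} [MeasurableSpace Ω] {μ : Measure Ω} (u v : Lp ℂ 2 μ) :
    inner ℂ u v = ∫ x, v x * conj (u x) ∂μ := by
  rw [L2.inner_def]; simp

lemma mem_conj {Ω : Type} [MeasurableSpace Ω] {μ : Measure Ω} (u : Lp ℂ 2 μ) :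
    MemLp (fun x => conj (u x)) 2 μ :=
  (Lp.memLp u).of_le (Complex.continuous_conj.comp_aestronglyMeasurable (Lp.memLp u).1)
    (ae_of_all _ fun x => by simp)

lemma inner_zero (b : Bas) (X : Sys) (r : ℤ) (v : HH X)
    (hv : ∀ g : X.X → ℂ, MemLp g 2 X.μ → (fun x => g (X.Tz r x)) =ᵐ[X.μ] g →
      ∫ x, v x * g x ∂X.μ = 0) (u : HH X) (hu : K b X r u = u) : inner ℂ u v = 0 := by
  rw [inner_eq]
  refine hv _ (mem_conj u) ?_
  have h := K_coe b X r u
  rw [hu] at h
  filter_upwards [h] with x hx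
  rw [← hx]

lemma erg0 (b : Bas) {ν : Wt} (hν : ERG ν) (X : Sys) (r : ℤ) (v : HH X)
    (hv : ∀ g : X.X → ℂ, MemLp g 2 X.μ → (fun x => g (X.Tz r x)) =ᵐ[X.μ] g →
      ∫ x, v x * g x ∂X.μ = 0) :
    Tendsto (fun M => ∑ d ∈ ν.sp M, ((ν.w M d : ℝ) : ℂ) • K b X (r * d) v) atTop (𝓝 0) := by
  have h := hν (HH X) (V b X r) v fun u hu => inner_zero b X r v hv u hu
  simp_rw [V_zpow] at h
  exact h

lemma sum_coe (b : Bas) (X : Sys) {ι : Type} (s : Finset ι) (c : ι → ℂ) (n : ι → ℤ)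
    {f : X.X → ℂ} (hf : MemLp f 2 X.μ) :
    (∑ i ∈ s, c i • K b X (n i) (hf.toLp f) : HH X) =ᵐ[X.μ]
      fun x => ∑ i ∈ s, c i * f (X.Tz (n i) x) := by
  have h1 : ∀ i, (c i • K b X (n i) (hf.toLp f) : HH X) =ᵐ[X.μ]
      fun x => c i * f (X.Tz (n i) x) := by
    intro i
    filter_upwards [Lp.coeFn_smul (c i) (K b X (n i) (hf.toLp f)), K_coe b X (n i) (hf.toLp f),
      cmp b X (n i) hf.coeFn_toLp] with x h1 h2 h3
    rw [h1, Pi.smul_apply, h2, h3, smul_eq_mul]
  have h2 : ∀ᵐ x ∂X.μ, ∀ i ∈ s, (c i • K b X (n i) (hf.toLp f) : HH X) x =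
      c i * f (X.Tz (n i) x) := (eventually_all_finset s).2 fun i _ => h1 i
  filter_upwards [Lp.coeFn_finsetSum s fun i => c i • K b X (n i) (hf.toLp f), h2] with x h3 h4
  rw [h3, Finset.sum_apply]
  exact sum_congr rfl h4

/-- the system with the map `T ^ r` -/
def pw (b : Bas) (X : Sys) (r : ℤ) : Sys :=
  { X := X.X
    μ := X.μ
    T :=
      { toEquiv := (X.T.toEquiv : Equiv.Perm X.X) ^ r
        measurable_toFun := (b.t.mp X r).measurable
        measurable_invFun := by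
          have h := (b.t.mp X (-r)).measurable
          rw [Sys.Tz, zpow_neg] at h
          exact h }
    mp := b.t.mp X r }

lemma bound (b : Bas) (X : Sys) (r : ℤ) (hr : r ≠ 0) {e f : X.X → ℝ} (he : MemLp e 2 X.μ)
    (hf : MemLp f 2 X.μ) (he0 : ∀ x, 0 ≤ e x) (hf0 : ∀ x, 0 ≤ f x) :
    ∫ x, e x * (X.μ[f | Inv (pw b X r)]) x ∂X.μ ≤
      |(r : ℝ)| * ∫ x, (X.μ[e | Inv X]) x * (X.μ[f | Inv X]) x ∂X.μ := by
  set g : X.X → ℝ := X.μ[f | Inv (pw b X r)] with hg
  set E : X.X → ℝ := X.μ[e | Inv X] with hE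
  have g2 : MemLp g 2 X.μ := hf.condExp one_le_two
  have E2 : MemLp E 2 X.μ := he.condExp one_le_two
  have g0 : 0 ≤ᵐ[X.μ] g := condExp_nonneg (ae_of_all _ hf0)
  have gi : (fun x => g (X.Tz r x)) =ᵐ[X.μ] g :=
    (invR b (pw b X r) g g2.1).1 stronglyMeasurable_condExp.aestronglyMeasurable
  have Em : AEStronglyMeasurable[Inv X] E X.μ := stronglyMeasurable_condExp.aestronglyMeasurable
  have E1 : (fun x => E (X.Tz 1 x)) =ᵐ[X.μ] E := by
    simp_rw [b.t.one]; exact (invR b X E E2.1).1 Em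
  have En : ∀ n : ℤ, (fun x => E (X.Tz n x)) =ᵐ[X.μ] E := fun n => by
    simpa using inv_mul b X 1 E1 n
  have gj : ∀ j : ℕ, MemLp (fun x => g (X.Tz j x)) 2 X.μ := fun j =>
    g2.comp_measurePreserving (b.t.mp X j)
  set k := r.natAbs with hk
  have k0 : 0 < k := Int.natAbs_pos.2 hr
  have gk : (fun x => g (X.Tz k x)) =ᵐ[X.μ] g := by
    have h := inv_mul b X r gi r.sign
    rwa [Int.mul_sign_self] at h
  have G2 : MemLp (fun x => ∑ j ∈ range k, g (X.Tz j x)) 2 X.μ :=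
    memLp_finsetSum _ fun j _ => gj j
  have GT : (fun x => ∑ j ∈ range k, g (X.Tz j (X.T x))) =ᵐ[X.μ]
      fun x => ∑ j ∈ range k, g (X.Tz j x) := by
    filter_upwards [gk] with x hx
    have h1 := sum_range_succ' (fun j : ℕ => g (X.Tz j x)) k
    have h2 := sum_range_succ (fun j : ℕ => g (X.Tz j x)) k
    have h3 : ∀ j : ℕ, g (X.Tz j (X.T x)) = g (X.Tz ((j + 1 : ℕ) : ℤ) x) := fun j => by
      rw [Nat.cast_succ, b.t.add, b.t.one]
    simp only [Nat.cast_zero, b.t.zero] at h1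
    simp_rw [h3]
    linarith
  have gn : ∀ᵐ x ∂X.μ, ∀ j : ℕ, 0 ≤ g (X.Tz j x) :=
    ae_all_iff.2 fun j => (b.t.mp X j).quasiMeasurePreserving.ae g0
  have s1 : ∫ x, e x * g x ∂X.μ ≤ ∫ x, e x * ∑ j ∈ range k, g (X.Tz j x) ∂X.μ := by
    refine integral_mono_ae (he.integrable_mul g2) (he.integrable_mul G2) ?_
    filter_upwards [gn] with x hx
    refine mul_le_mul_of_nonneg_left ?_ (he0 x)
    have h := single_le_sum (f := fun j : ℕ => g (X.Tz j x)) (fun j _ => hx j) (mem_range.2 k0)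
    simpa [b.t.zero] using h
  have s2 : ∀ j : ℕ, ∫ x, E x * g (X.Tz j x) ∂X.μ = ∫ x, E x * g x ∂X.μ := by
    intro j
    have h1 : ∫ x, E x * g (X.Tz j x) ∂X.μ = ∫ x, E (X.Tz j x) * g (X.Tz j x) ∂X.μ :=
      integral_congr_ae (by filter_upwards [En j] with x hx; rw [hx])
    have h2 := integral_map (μ := X.μ) (b.t.mp X j).measurable.aemeasurable
      (f := fun x => E x * g x) (by rw [(b.t.mp X j).map_eq]; exact E2.1.mul g2.1)
    rw [(b.t.mp X j).map_eq] at h2
    rw [h1, h2]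
  have s3 : ∫ x, E x * g x ∂X.μ = ∫ x, E x * (X.μ[f | Inv X]) x ∂X.μ := by
    have h1 : ∫ x, f x * E x ∂X.μ = ∫ x, g x * E x ∂X.μ :=
      pl (m0 := X.ms) (μ := X.μ) (b.t.finv (pw b X r)).le hf E2 ((invR b (pw b X r) E E2.1).2 (En r))
    have h2 := pl (b.t.finv X).le hf E2 Em
    simp_rw [mul_comm (E _)]
    rw [← h1, h2]
  refine s1.trans (le_of_eq ?_)
  rw [pl (b.t.finv X).le he G2 ((invR b X _ G2.1).2 GT)]
  simp_rw [← hE, mul_sum]
  rw [integral_finsetSum _ fun j _ => im E2 (gj j)]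
  simp_rw [s2, s3]
  rw [sum_const, card_range, nsmul_eq_mul, hk, Nat.cast_natAbs, Int.cast_abs]

end MetL

open MetL

theorem met : MetR := by
  intro b X f hf
  have hc : MemLp (X.μ[f | Inv X]) 2 X.μ := hf.condExp one_le_two
  have h := (K b X 1).toContinuousLinearMap.tendsto_birkhoffAverage_orthogonalProjection
    (K b X 1).norm_toContinuousLinearMap_le (hf.toLp f)
  have hw : K b X 1 (hc.toLp _) = hc.toLp _ := by
    apply Lp.ext
    filter_upwards [K_coe b X 1 (hc.toLp _), cmp b X 1 hc.coeFn_toLp, hc.coeFn_toLp, ce_inv b X f]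
      with x h1 h2 h3 h4
    rw [h1, h2, h3, b.t.one, h4]
  have hp := Submodule.eq_starProjection_of_mem_orthogonal
    (K := (K b X 1).toContinuousLinearMap.eqLocus (1 : HH X →L[ℂ] HH X)) (u := hf.toLp f)
    (v := hc.toLp _) hw ((Submodule.mem_orthogonal _ _).2 fun u hu => by
      refine inner_zero b X 1 _ (fun g hg hT => ?_) u hu
      simp_rw [b.t.one] at hT
      rw [← orth b X hf hg hT]
      refine integral_congr_ae ?_
      filter_upwards [Lp.coeFn_sub (hf.toLp f) (hc.toLp _), hf.coeFn_toLp, hc.coeFn_toLp]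
        with x h1 h2 h3
      rw [h1, Pi.sub_apply, h2, h3])
  rw [Submodule.coe_orthogonalProjectionOnto_apply, hp] at h
  have hit : ∀ n : ℕ, ((K b X 1).toContinuousLinearMap)^[n] (hf.toLp f) =
      K b X n (hf.toLp f) := by
    intro n
    induction n with
    | zero => simp [K_zero]
    | succ n ih =>
      rw [iterate_succ_apply', ih, Nat.cast_succ]
      exact K_add b X 1 n _
  have h2 := (tendsto_iff_norm_sub_tendsto_zero.1 h).pow 2
  rw [zero_pow two_ne_zero] at h2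
  refine h2.congr fun N => ?_
  rw [← nsq]
  refine integral_congr_ae ?_
  have e : birkhoffAverage ℂ (K b X 1).toContinuousLinearMap id N (hf.toLp f) =
      ∑ n ∈ range N, (N : ℂ)⁻¹ • K b X (n : ℕ) (hf.toLp f) := by
    simp only [birkhoffAverage, birkhoffSum, id, hit, smul_sum]
  rw [e]
  filter_upwards [Lp.coeFn_sub (∑ n ∈ range N, (N : ℂ)⁻¹ • K b X (n : ℕ) (hf.toLp f)) (hc.toLp _),
    sum_coe b X (range N) (fun _ => (N : ℂ)⁻¹) (fun n : ℕ => (n : ℤ)) hf, hc.coeFn_toLp]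
    with x h1 h3 h4
  rw [h1, Pi.sub_apply, h3, h4, mul_sum]

theorem mix : MixR := by
  intro b _ ν hν
  constructor
  · intro X r f hf hg
    have h := erg0 b hν X r (hf.toLp f) fun g g2 gi => by
      rw [← hg g g2 gi]
      exact integral_congr_ae (by filter_upwards [hf.coeFn_toLp] with x hx; rw [hx])
    have h2 := (tendsto_zero_iff_norm_tendsto_zero.1 h).pow 2
    rw [zero_pow two_ne_zero] at h2
    refine h2.congr fun M => ?_
    rw [← nsq]
    refine integral_congr_ae ?_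
    filter_upwards [sum_coe b X (ν.sp M) (fun d => ((ν.w M d : ℝ) : ℂ)) (fun d => r * d) hf]
      with x hx
    rw [hx]
    simp only [Wt.av, Complex.real_smul]
  · intro X r A A' hr hA hA'
    set e : X.X → ℝ := A.indicator fun _ => (1 : ℝ) with he
    set f : X.X → ℝ := A'.indicator fun _ => (1 : ℝ) with hf
    have e2 : MemLp e 2 X.μ := (memLp_const 1).indicator hA
    have f2 : MemLp f 2 X.μ := (memLp_const 1).indicator hA'
    set g : X.X → ℝ := X.μ[f | Inv (pw b X r)] with hg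
    have g2 : MemLp g 2 X.μ := f2.condExp one_le_two
    refine ⟨∫ x, e x * g x ∂X.μ, ?_, bound b X r hr e2 f2
      (fun x => Set.indicator_nonneg (fun _ _ => zero_le_one) x)
      (fun x => Set.indicator_nonneg (fun _ _ => zero_le_one) x)⟩
    have gi : (fun x => g (X.Tz r x)) =ᵐ[X.μ] g :=
      (invR b (pw b X r) g g2.1).1 stronglyMeasurable_condExp.aestronglyMeasurable
    have ec : MemLp (fun x => (e x : ℂ)) 2 X.μ := e2.ofReal
    have fc : MemLp (fun x => (f x : ℂ)) 2 X.μ := f2.ofReal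
    have hc : MemLp (fun x => (f x : ℂ) - (g x : ℂ)) 2 X.μ := fc.sub g2.ofReal
    have cg : (fun x => (g x : ℂ)) =ᵐ[X.μ] X.μ[fun x => (f x : ℂ) | Inv (pw b X r)] :=
      Complex.ofRealCLM.comp_condExp_comm (f2.integrable one_le_two)
    have h := erg0 b hν X r (hc.toLp _) fun u u2 ui => by
      rw [← orth b (pw b X r) fc u2 ui]
      refine integral_congr_ae ?_
      filter_upwards [hc.coeFn_toLp, cg] with x h1 h2
      rw [h1, h2]; rfl
    have h2 := (tendsto_const_nhds (x := ec.toLp _)).inner (𝕜 := ℂ) h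
    rw [inner_zero_right] at h2
    have h3 := (Complex.continuous_re.tendsto _).comp h2
    have h4 := h3.add_const (∫ x, e x * g x ∂X.μ)
    rw [Complex.zero_re, zero_add] at h4
    refine h4.congr fun M => ?_
    have i1 : ∀ d : ℤ, Integrable (fun x => e x * f (X.Tz (r * d) x)) X.μ := fun d =>
      e2.integrable_mul (f2.comp_measurePreserving (b.t.mp X _))
    have a1 : ∀ d : ℤ, ∫ x, e x * f (X.Tz (r * d) x) ∂X.μ =
        X.μ.real (A ∩ X.Tz (r * d) ⁻¹' A') := by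
      intro d
      rw [← integral_indicator_one (hA.inter ((b.t.mp X _).measurable hA'))]
      refine integral_congr_ae (ae_of_all _ fun x => ?_)
      by_cases h1 : x ∈ A <;> by_cases h2 : X.Tz (r * d) x ∈ A' <;>
        simp [he, hf, Set.indicator, h1, h2]
    have gd : ∀ᵐ x ∂X.μ, ∀ d : ℤ, g (X.Tz (r * d) x) = g x :=
      ae_all_iff.2 fun d => inv_mul b X r gi d
    have a2 : inner ℂ (ec.toLp _) (∑ d ∈ ν.sp M, ((ν.w M d : ℝ) : ℂ) • K b X (r * d) (hc.toLp _)) =
        ((∫ x, (∑ d ∈ ν.sp M, ν.w M d * (e x * f (X.Tz (r * d) x))) - e x * g x ∂X.μ : ℝ) : ℂ) := by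
      rw [inner_eq, ← integral_complex_ofReal]
      refine integral_congr_ae ?_
      filter_upwards [sum_coe b X (ν.sp M) (fun d => ((ν.w M d : ℝ) : ℂ)) (fun d => r * d) hc,
        ec.coeFn_toLp, gd] with x h1 h5 h6
      rw [h1, h5, Complex.conj_ofReal]
      simp_rw [h6, mul_sub, sum_sub_distrib, ← sum_mul, ← Complex.ofReal_sum, ν.one M]
      push_cast
      rw [sub_mul, sum_mul]
      congr 1
      · exact sum_congr rfl fun d _ => by ring
      · ring
    simp only [comp_apply]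
    rw [a2, Complex.ofReal_re, integral_sub (integrable_finsetSum _ fun d _ => (i1 d).const_mul _)
      (im e2 g2), sub_add_cancel, integral_finsetSum _ fun d _ => (i1 d).const_mul _]
    simp only [Wt.av, smul_eq_mul, integral_const_mul, a1]

end T3x

end
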