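import Pool.Agent.MP_154433_an.t3.Spec

/-! Row Rc: the event on which a unimodular function is determined by the base. -/

set_option autoImplicit false
set_option linter.unusedVariables false
set_option warn.classDefReducibility false

open MeasureTheory ProbabilityTheory Filter Topology Function Finset ComplexConjugate
open scoped BigOperators
open Fib27 (BM sup pr Oc Orow F23 LInd Mem)

noncomputable section

namespace T3x

namespace RcL

variable {Ω ι : Type} {m β m0 : MeasurableSpace Ω} {μ : Measure Ω} {F F' k : Ω → ℂ} {E : Set Ω}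

lemma um_bm (h : Um m μ F) : BM μ m F := BM.of_uni h.1 h.2

lemma um_mono (h : Um m μ F) (hm : m ≤ m0) : Um m0 μ F := ⟨h.1.mono hm, h.2⟩

lemma um_mul (h : Um m μ F) (h' : Um m μ F') : Um m μ fun x => F x * F' x := by
  refine ⟨((um_bm h).mul (um_bm h')).1, ?_⟩
  filter_upwards [h.2, h'.2] with x h1 h2
  rw [norm_mul, h1, h2, one_mul]

lemma um_pr {φ : ι → Ω → ℂ} {S : Finset ι} (h : ∀ i ∈ S, Um m μ (φ i)) : Um m μ (pr φ S) := by
  refine ⟨(BM.pr fun i hi => um_bm (h i hi)).1, ?_⟩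
  filter_upwards [(Finset.eventually_all S).2 fun i hi => (h i hi).2] with x hx
  rw [Fib27.pr, norm_prod]
  exact Finset.prod_eq_one hx

lemma meas (F : Ω → ℂ) : MeasurableSet[β] (Th β μ F) :=
  (stronglyMeasurable_condExp (m := β) (μ := μ) (f := F)).norm.measurable
    (measurableSet_singleton 1)

lemma ce_le (h : Um m μ F) : ∀ᵐ x ∂μ, ‖(μ[F | β]) x‖ ≤ 1 :=
  ae_bdd_norm_condExp_of_ae_bdd_norm (h.2.mono fun _ h => h.le)

lemma prod_one {a : ι → ℝ} {S : Finset ι} (h0 : ∀ i ∈ S, 0 ≤ a i) (h1 : ∀ i ∈ S, a i ≤ 1)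
    (h : ∏ i ∈ S, a i = 1) {j : ι} (hj : j ∈ S) : a j = 1 := by
  classical
  rw [← Finset.mul_prod_erase S a hj] at h
  have h2 : ∏ i ∈ S.erase j, a i ≤ 1 := Finset.prod_le_one
    (fun i hi => h0 i (Finset.mem_of_mem_erase hi)) fun i hi => h1 i (Finset.mem_of_mem_erase hi)
  have h3 := mul_le_mul_of_nonneg_left h2 (h0 j hj)
  have h4 := h1 j hj
  linarith

lemma all_one [Fintype ι] [DecidableEq ι] {a : ι → ℝ} (h0 : ∀ i, 0 ≤ a i)
    (h3 : 3 ≤ Fintype.card ι) (h : ∀ j, ∏ i ∈ univ.erase j, a i = a j) {q : ι} (hq : a q ≠ 0)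
    (j : ι) : a j = 1 := by
  have hP : ∀ j, ∏ i, a i = a j * a j := fun j => by
    rw [← Finset.mul_prod_erase univ a (mem_univ j), h j]
  have he : ∀ j, a j = a q := fun j =>
    (mul_self_inj (h0 j) (h0 q)).1 ((hP j).symm.trans (hP q))
  obtain ⟨n, hn⟩ := Nat.exists_eq_add_of_le h3
  have h4 := hP q
  rw [Finset.prod_congr rfl fun i _ => he i, Finset.prod_const, Finset.card_univ, hn] at h4
  have h5 : a q ^ (n + 1) = 1 := by
    refine mul_left_cancel₀ (mul_ne_zero hq hq) ?_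
    rw [mul_one]
    refine Eq.trans ?_ h4
    ring
  rw [he j]
  exact (pow_eq_one_iff_of_nonneg (h0 q) (Nat.succ_ne_zero n)).1 h5

variable [IsProbabilityMeasure μ]

lemma loc (hβ : β ≤ m0) (hF : BM μ m0 F) (hF' : BM μ m0 F') (hk : BM μ β k)
    (hE : MeasurableSet[β] E) (h : ∀ᵐ x ∂μ, x ∈ E → F x = k x * F' x) :
    ∀ᵐ x ∂μ, x ∈ E → (μ[F | β]) x = k x * (μ[F' | β]) x := by
  have h1 := Fib27.ce_mul hβ (BM.indicator hE) hF
  have h2 := Fib27.ce_mul hβ ((BM.indicator hE).mul hk) hF'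
  have h3 : μ[fun x => E.indicator (fun _ => (1 : ℂ)) x * F x | β] =ᵐ[μ]
      μ[fun x => E.indicator (fun _ => (1 : ℂ)) x * k x * F' x | β] := by
    refine condExp_congr_ae ?_
    filter_upwards [h] with x hx
    by_cases hxE : x ∈ E
    · rw [hx hxE, mul_assoc]
    · simp [hxE]
  filter_upwards [h1, h2, h3] with x e1 e2 e3 hx
  rw [e1, e2] at e3
  simpa [hx] using e3

lemma eq (hβ : β ≤ m0) (hF : Um m0 μ F) : ∀ᵐ x ∂μ, x ∈ Th β μ F → F x = (μ[F | β]) x := by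
  have hb := um_bm hF
  have hg : BM μ β (μ[F | β]) := hb.ce β
  have hI : BM μ β ((Th β μ F).indicator fun _ => (1 : ℂ)) := BM.indicator (meas F)
  have hc := hg.conj.mul hI
  have h1 := Fib27.perp_sub_ce hβ hb _ hc
  have hh := (hb.sub (hg.mono hβ)).mul (hc.mono hβ)
  have hD := (hb.sub (hg.mono hβ)).mul (hI.mono hβ)
  have h2 := Fib27.eq_zero_of_int_conj hD (by
    have h3 := integral_add hh.integrable hh.conj.integrable
    rw [integral_conj, h1, map_zero, add_zero] at h3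
    rw [← neg_eq_zero, ← integral_neg, ← h3]
    refine integral_congr_ae ?_
    filter_upwards [hF.2] with x hx
    by_cases hxE : x ∈ Th β μ F
    · have e1 := Fib27.mul_conj_uni hx
      have e2 := Fib27.mul_conj_uni (show ‖(μ[F | β]) x‖ = 1 from hxE)
      simp only [Set.indicator_of_mem hxE, mul_one, map_mul, map_sub, Complex.conj_conj]
      linear_combination e2 - e1
    · simp [hxE])
  filter_upwards [h2] with x hx hxE
  simpa [hxE, sub_eq_zero] using hx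

lemma of (hβ : β ≤ m0) (hF : Um m0 μ F) (hk : BM μ β k) (hE : MeasurableSet[β] E)
    (h : ∀ᵐ x ∂μ, x ∈ E → F x = k x) : E ≤ᵐ[μ] Th β μ F := by
  have h1 := loc (F' := fun _ => 1) hβ (um_bm hF) (BM.const 1) hk hE (by simpa using h)
  filter_upwards [h1, h, hF.2, BM.ce_self hβ (BM.const (κ := μ) (1 : ℂ))] with x e1 e2 e3 e4 hx
  show ‖(μ[F | β]) x‖ = 1
  rw [e1 hx, e4, mul_one, ← e2 hx, e3]

lemma mul (hβ : β ≤ m0) (hF : Um m0 μ F) (hF' : Um m0 μ F') :
    (Th β μ F ∩ Th β μ F' : Set Ω) ≤ᵐ[μ] Th β μ fun x => F x * F' x := by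
  refine of hβ (um_mul hF hF') (((um_bm hF).ce β).mul ((um_bm hF').ce β))
    ((meas F).inter (meas F')) ?_
  filter_upwards [eq hβ hF, eq hβ hF'] with x e1 e2 hx
  rw [← e1 hx.1, ← e2 hx.2]

lemma cj (hβ : β ≤ m0) (hF : Um m0 μ F) : Th β μ (fun x => conj (F x)) =ᵐ[μ] Th β μ F := by
  filter_upwards [Fib27.ce_conj hβ (um_bm hF)] with x hx
  show (‖(μ[fun x => conj (F x) | β]) x‖ = 1) = (‖(μ[F | β]) x‖ = 1)
  rw [hx, Complex.norm_conj]

omit [IsProbabilityMeasure μ] in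
lemma uniq {p : ι → MeasurableSpace Ω} {S : Finset ι} {φ : ι → Ω → ℂ} (h : CInd β p S μ)
    (hφ : ∀ i ∈ S, Um (p i) μ (φ i)) {j : ι} (hj : j ∈ S) :
    Th β μ (pr φ S) ≤ᵐ[μ] Th β μ (φ j) := by
  filter_upwards [h φ fun i hi => um_bm (hφ i hi),
    (Finset.eventually_all S).2 fun i hi => ce_le (β := β) (hφ i hi)] with x e1 e2 hx
  have e3 : ‖(μ[pr φ S | β]) x‖ = 1 := hx
  rw [e1, norm_prod] at e3
  exact prod_one (a := fun i => ‖(μ[φ i | β]) x‖) (fun _ _ => norm_nonneg _) e2 e3 hj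

lemma cm [Fintype ι] [DecidableEq ι] {p : ι → MeasurableSpace Ω} {φ : ι → Ω → ℂ} (hβ : β ≤ m0)
    (hp : ∀ i, p i ≤ m0) (h3 : 3 ≤ Fintype.card ι) (h : CLine β p μ)
    (hφ : ∀ i, Um (p i) μ (φ i)) (q : ι) : ∀ᵐ x ∂μ, x ∈ Th β μ (pr φ univ) →
      (μ[φ q | β]) x ≠ 0 → ∀ j, x ∈ Th β μ (φ j) := by
  have h0 : ∀ i, Um m0 μ (φ i) := fun i => um_mono (hφ i) (hp i)
  have hU : Um m0 μ (pr φ univ) := um_pr fun i _ => h0 i
  have key : ∀ j, ∀ᵐ x ∂μ, x ∈ Th β μ (pr φ univ) →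
      ∏ i ∈ univ.erase j, ‖(μ[φ i | β]) x‖ = ‖(μ[φ j | β]) x‖ := fun j => by
    have h1 := loc (F := pr φ (univ.erase j)) (F' := fun x => conj (φ j x)) hβ
      (BM.pr fun i _ => um_bm (h0 i)) (um_bm (h0 j)).conj ((um_bm hU).ce β) (meas (pr φ univ)) (by
        filter_upwards [eq hβ hU, (h0 j).2] with x e1 e2 hx
        rw [← e1 hx, Fib27.pr_erase φ (mem_univ j)]
        linear_combination (-pr φ (univ.erase j) x) * Fib27.mul_conj_uni e2)
    have h2 := h (univ.erase j) (fun e => Finset.notMem_erase j univ (e.symm ▸ mem_univ j)) φ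
      fun i _ => um_bm (hφ i)
    filter_upwards [h1, h2, Fib27.ce_conj hβ (um_bm (h0 j))] with x e1 e2 e3 hx
    have e4 : ‖(μ[pr φ univ | β]) x‖ = 1 := hx
    rw [← norm_prod, ← e2, e1 hx, e3, norm_mul, e4, one_mul, Complex.norm_conj]
  filter_upwards [ae_all_iff.2 key] with x e hx hq j
  exact all_one (a := fun i => ‖(μ[φ i | β]) x‖) (fun _ => norm_nonneg _) h3
    (fun j => e j hx) (norm_ne_zero_iff.2 hq) j

end RcL

theorem rc : RcR := fun hB =>
  { meas := fun β _ μ F => RcL.meas F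
    eq := fun β _ μ _ F hβ hF => RcL.eq hβ hF
    of := fun β _ μ _ F k E hβ hF hk hE h => RcL.of hβ hF hk hE h
    loc := fun β _ μ _ F F' k E hβ hF hF' hk hE h => RcL.loc hβ hF hF' hk hE h
    mul := fun β _ μ _ F F' hβ hF hF' => RcL.mul hβ hF hF'
    cj := fun β _ μ _ F hβ hF => RcL.cj hβ hF
    uniq := fun β p S _ μ _ φ hβ hp h hφ k hk => RcL.uniq (hB.c.ext β p S μ hβ hp h) hφ hk
    cm := fun β p _ μ _ φ hβ hp h3 h hφ q =>
      RcL.cm (p := fun i => p i ⊔ β) hβ (fun i => sup_le (hp i) hβ) h3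
        (fun S hS => hB.c.ext β p S μ hβ hp (h S hS)) hφ q }

end T3x
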