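import Pool.Agent.MP_154433_an.t3.Spec

/-! Row Sel: exact tuples as limits of approximate tuples of labels. -/

set_option autoImplicit false
set_option linter.unusedVariables false
set_option linter.unusedSectionVars false
set_option warn.classDefReducibility false

open MeasureTheory ProbabilityTheory Filter Topology Function Finset ComplexConjugate
open scoped BigOperators
open Fib27 (BM sup pr Oc Orow F23 LInd Mem)

noncomputable section

namespace T3x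

namespace Sel

/-! ### inequalities between complex numbers -/

theorem sq (z : ℂ) : ‖z‖ ^ 2 = z.re ^ 2 + z.im ^ 2 := by
  rw [Complex.sq_norm, Complex.normSq_apply]; ring

theorem sq1 {z : ℂ} (h : ‖z‖ ≤ 1) : ‖z‖ ^ 2 ≤ 1 := pow_le_one₀ (norm_nonneg _) h

theorem cc (a : ℂ) : (conj a * a).re = ‖a‖ ^ 2 := by
  rw [sq]; simp only [Complex.mul_re, Complex.conj_re, Complex.conj_im]; ring

theorem p_jen (a f : ℂ) : 2 * (conj a * f).re ≤ ‖f‖ ^ 2 + ‖a‖ ^ 2 := by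
  rw [sq, sq]
  simp only [Complex.mul_re, Complex.conj_re, Complex.conj_im]
  nlinarith [sq_nonneg (a.re - f.re), sq_nonneg (a.im - f.im)]

theorem p_l1 (a a' F F' : ℂ) (ha : ‖a‖ ≤ 1) (ha' : ‖a'‖ ≤ 1) (hF : ‖F‖ ≤ 1) (hF' : ‖F'‖ ≤ 1) :
    4 * (conj a * F).re + 4 * (conj a' * F').re ≤ 2 * ((conj a * a') * (F * conj F')).re + 6 := by
  have e : (conj a * a') * (F * conj F') = (conj a * F) * conj (conj a' * F') := by
    simp only [map_mul, Complex.conj_conj]; ring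
  have h1 : ‖conj a * F‖ ≤ 1 := by
    rw [norm_mul, Complex.norm_conj]; exact mul_le_one₀ ha (norm_nonneg _) hF
  have h2 : ‖conj a' * F'‖ ≤ 1 := by
    rw [norm_mul, Complex.norm_conj]; exact mul_le_one₀ ha' (norm_nonneg _) hF'
  rw [e]
  generalize conj a * F = w at h1 ⊢
  generalize conj a' * F' = w' at h2 ⊢
  have h3 := sq1 h1
  have h4 := sq1 h2
  rw [sq] at h3 h4
  simp only [Complex.mul_re, Complex.conj_re, Complex.conj_im]
  nlinarith [sq_nonneg (w.re + w'.re - 2), sq_nonneg (w.im + w'.im)]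

theorem p_var (t u : ℂ) (hu : ‖u‖ ≤ 1) : ‖u - t‖ ^ 2 + 2 * (conj t * u).re ≤ 1 + ‖t‖ ^ 2 := by
  have h := sq1 hu
  rw [sq] at h
  rw [sq, sq]
  simp only [Complex.mul_re, Complex.conj_re, Complex.conj_im, Complex.sub_re, Complex.sub_im]
  nlinarith

theorem p_var2 (t y y' v : ℂ) (hy : ‖y‖ ≤ 1) (hy' : ‖y'‖ ≤ 1) (hv : ‖v‖ ≤ 1) :
    ‖y * conj v - t * (y' * conj v)‖ ^ 2 + 2 * (conj t * (y * conj y')).re ≤ 1 + ‖t‖ ^ 2 := by
  have e : y * conj v - t * (y' * conj v) = (y - t * y') * conj v := by ring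
  have h0 : ‖y * conj v - t * (y' * conj v)‖ ^ 2 ≤ ‖y - t * y'‖ ^ 2 := by
    rw [e, norm_mul, Complex.norm_conj]
    exact pow_le_pow_left₀ (by positivity) (mul_le_of_le_one_right (norm_nonneg _) hv) 2
  have h1 : ‖y - t * y'‖ ^ 2 + 2 * (conj t * (y * conj y')).re = ‖y‖ ^ 2 + ‖t‖ ^ 2 * ‖y'‖ ^ 2 := by
    rw [sq, sq, sq, sq]
    simp only [Complex.mul_re, Complex.mul_im, Complex.conj_re, Complex.conj_im, Complex.sub_re,
      Complex.sub_im]
    ring
  have h2 := sq1 hy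
  have h3 : ‖t‖ ^ 2 * ‖y'‖ ^ 2 ≤ ‖t‖ ^ 2 := mul_le_of_le_one_right (by positivity) (sq1 hy')
  linarith

theorem p_re (y y' v : ℂ) :
    ‖y‖ ^ 2 + ‖y'‖ ^ 2 ≤ 2 * (y * conj y').re + (2 * ‖y - v‖ ^ 2 + 2 * ‖y' - v‖ ^ 2) := by
  rw [sq, sq, sq, sq]
  simp only [Complex.mul_re, Complex.conj_re, Complex.conj_im, Complex.sub_re, Complex.sub_im]
  nlinarith [sq_nonneg (y.re + y'.re - 2 * v.re), sq_nonneg (y.im + y'.im - 2 * v.im)]

theorem p_al (y v : ℂ) (hy : ‖y‖ ≤ 1) :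
    ‖y‖ ^ 2 ≤ (y * conj v).re + (1 / 20 + 5 * ‖y - v‖ ^ 2) := by
  have h := sq1 hy
  rw [sq] at h
  rw [sq, sq]
  simp only [Complex.mul_re, Complex.conj_re, Complex.conj_im, Complex.sub_re, Complex.sub_im]
  nlinarith [sq_nonneg (y.re - 10 * (y.re - v.re)), sq_nonneg (y.im - 10 * (y.im - v.im))]

theorem p_df (y y' : ℂ) (hy : ‖y‖ ≤ 1) (hy' : ‖y'‖ ≤ 1) :
    ‖y - y'‖ ^ 2 + 2 * (y * conj y').re ≤ 2 := by
  have h := sq1 hy
  have h' := sq1 hy'
  rw [sq] at h h'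
  rw [sq]
  simp only [Complex.mul_re, Complex.conj_re, Complex.conj_im, Complex.sub_re, Complex.sub_im]
  nlinarith

theorem p_fin (y v : ℂ) (η : ℝ) (hy : ‖y‖ = 1) :
    2 * η ≤ 2 * η * (y * conj v).re + (‖y - v‖ ^ 2 + η ^ 2) := by
  have h : y.re ^ 2 + y.im ^ 2 = 1 := by rw [← sq, hy]; norm_num
  rw [sq]
  simp only [Complex.mul_re, Complex.conj_re, Complex.conj_im, Complex.sub_re, Complex.sub_im]
  have h2 : η * (y.re ^ 2 + y.im ^ 2) = η := by rw [h, mul_one]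
  have h3 : η ^ 2 * (y.re ^ 2 + y.im ^ 2) = η ^ 2 := by rw [h, mul_one]
  nlinarith [sq_nonneg (η * y.re - (y.re - v.re)), sq_nonneg (η * y.im - (y.im - v.im))]

theorem p_ph (c y v : ℂ) (hc : ‖c‖ = 1) :
    ‖c * y - v‖ ^ 2 + 2 * (c * (y * conj v)).re ≤ ‖y - v‖ ^ 2 + 2 * (y * conj v).re := by
  have h1 : ∀ a : ℂ, ‖a - v‖ ^ 2 + 2 * (a * conj v).re = ‖a‖ ^ 2 + ‖v‖ ^ 2 := fun a => by
    rw [sq, sq, sq]
    simp only [Complex.mul_re, Complex.conj_re, Complex.conj_im, Complex.sub_re, Complex.sub_im]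
    ring
  rw [← mul_assoc, h1, h1, norm_mul, hc, one_mul]

/-- the phase that rotates a number to the positive axis -/
def ph (a : ℂ) : ℂ := conj (Complex.exp (a.arg * Complex.I))

theorem ph_norm (a : ℂ) : ‖ph a‖ = 1 := by
  rw [ph, Complex.norm_conj, Complex.norm_exp_ofReal_mul_I]

theorem ph_mul (a : ℂ) : ph a * a = (‖a‖ : ℂ) := by
  have h := Complex.norm_mul_exp_arg_mul_I a
  have h2 : ph a * Complex.exp (a.arg * Complex.I) = 1 := by
    rw [ph, mul_comm, Complex.mul_conj, Complex.normSq_eq_norm_sq, Complex.norm_exp_ofReal_mul_I]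
    simp
  calc ph a * a = ph a * (‖a‖ * Complex.exp (a.arg * Complex.I)) := by rw [h]
    _ = ‖a‖ * (ph a * Complex.exp (a.arg * Complex.I)) := by ring
    _ = ‖a‖ := by rw [h2, mul_one]

theorem ph_meas : Measurable ph :=
  Complex.continuous_conj.measurable.comp (Complex.measurable_exp.comp
    ((Complex.measurable_ofReal.comp Complex.measurable_arg).mul_const _))

/-- the real-number core of the stability estimate -/
theorem core1 (ε a a' R n0 n1 s0 s1 s2 n2 : ℝ) (hε : 0 ≤ ε) (hε' : ε ≤ 1 / 16) (ha : 1 - ε ≤ a)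
    (ha' : 1 - ε ≤ a') (h1 : 4 * a ^ 2 + 4 * a' ^ 2 ≤ 2 * R + 6)
    (h2 : R ≤ n0 * n1 + (1 / 4 * s0 + s1 * s2)) (b0 : s0 ≤ 1 - n0 ^ 2) (b1 : s1 ≤ 1 - n1 ^ 2)
    (b2 : s2 ≤ 1 - n2 ^ 2) (c1 : 0 ≤ s1) (c2 : 4 / 5 ≤ n2) : 1 - 32 * ε ≤ n0 ^ 2 := by
  have e1 : (1 - ε) ^ 2 ≤ a ^ 2 := pow_le_pow_left₀ (by linarith) ha 2
  have e2 : (1 - ε) ^ 2 ≤ a' ^ 2 := pow_le_pow_left₀ (by linarith) ha' 2
  have e3 : s2 ≤ 1 / 2 := by nlinarith
  have e4 : s1 * s2 ≤ s1 * (1 / 2) := mul_le_mul_of_nonneg_left e3 c1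
  nlinarith [sq_nonneg (n0 - n1), sq_nonneg ε]

theorem core2 (ε : ℝ) (t al al' : ℂ) (hε : 0 ≤ ε) (ht : 1 - 32 * ε ≤ ‖t‖ ^ 2) (ht1 : ‖t‖ ≤ 1)
    (hr : 0 ≤ t.re) (h0 : al.im = 0) (h0' : al'.im = 0) (h1 : 4 / 5 ≤ al'.re)
    (h2 : ‖al - t * al'‖ ^ 2 ≤ 1 - ‖t‖ ^ 2) : 2 - 2 * t.re ≤ 192 * ε := by
  have e1 : (t.im * al'.re) ^ 2 ≤ 32 * ε := by
    have : ‖al - t * al'‖ ^ 2 ≤ 32 * ε := by linarith
    rw [sq] at this
    simp only [Complex.sub_im, Complex.mul_im, h0, h0', mul_zero, zero_add, zero_sub,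
      neg_sq] at this
    nlinarith [sq_nonneg (al - t * al').re]
  have e2 : 1 / 2 ≤ al'.re ^ 2 := by nlinarith
  have e3 : t.im ^ 2 ≤ 64 * ε := by
    rw [mul_pow] at e1
    nlinarith [sq_nonneg t.im]
  have e4 : t.re ≤ 1 := (Complex.re_le_norm t).trans ht1
  rw [sq] at ht
  nlinarith

/-! ### conditional calculus -/

variable {Ω ι : Type} {β m m0 : MeasurableSpace Ω} {μ : Measure Ω} [IsProbabilityMeasure μ]
  {f g c : Ω → ℂ} {a b a' b' : Ω → ℝ}

/-- conditional second moment -/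
def NN (β : MeasurableSpace Ω) {m0 : MeasurableSpace Ω} (μ : Measure Ω) (f : Ω → ℂ) : Ω → ℝ :=
  μ[fun y => ‖f y‖ ^ 2 | β]

/-- `b` is the conditional expectation of the integrable function `a` -/
def RC (β : MeasurableSpace Ω) {m0 : MeasurableSpace Ω} (μ : Measure Ω) (a b : Ω → ℝ) : Prop :=
  Integrable a μ ∧ μ[a | β] =ᵐ[μ] b

theorem int_sq (hf : BM μ m0 f) : Integrable (fun y => ‖f y‖ ^ 2) μ :=
  (hf.memLp 2).integrable_norm_pow (by norm_num)

theorem RC.le (h : RC β μ a b) (h' : RC β μ a' b') (hl : ∀ᵐ x ∂μ, a x ≤ a' x) :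
    ∀ᵐ x ∂μ, b x ≤ b' x := by
  filter_upwards [condExp_mono (m := β) h.1 h'.1 hl, h.2, h'.2] with x h1 h2 h3
  rwa [← h2, ← h3]

theorem RC.add (h : RC β μ a b) (h' : RC β μ a' b') :
    RC β μ (fun x => a x + a' x) (fun x => b x + b' x) := by
  refine ⟨h.1.add h'.1, ?_⟩
  filter_upwards [condExp_add h.1 h'.1 β, h.2, h'.2] with x h1 h2 h3
  rw [← h2, ← h3]; exact h1

theorem RC.mul (r : ℝ) (h : RC β μ a b) : RC β μ (fun x => r * a x) (fun x => r * b x) := by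
  refine ⟨h.1.const_mul r, ?_⟩
  filter_upwards [condExp_smul r a β, h.2] with x h1 h2
  rw [← h2]; exact h1

theorem RC.cst (hβ : β ≤ m0) (r : ℝ) : RC β μ (fun _ => r) (fun _ => r) :=
  ⟨integrable_const r, by rw [condExp_const hβ]⟩

theorem RC.nq (hf : BM μ m0 f) : RC β μ (fun x => ‖f x‖ ^ 2) (NN β μ f) :=
  ⟨int_sq hf, EventuallyEq.rfl⟩

theorem RC.base (hβ : β ≤ m0) (hc : BM μ β c) :
    RC β μ (fun x => ‖c x‖ ^ 2) (fun x => ‖c x‖ ^ 2) :=
  ⟨int_sq (hc.mono hβ), condExp_of_aestronglyMeasurable' hβ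
    ((continuous_norm.pow 2).comp_aestronglyMeasurable hc.1) (int_sq (hc.mono hβ))⟩

theorem RC.re (hf : BM μ m0 f) : RC β μ (fun x => (f x).re) (fun x => ((μ[f | β]) x).re) :=
  ⟨Complex.reCLM.integrable_comp hf.integrable,
    (Complex.reCLM.comp_condExp_comm (m := β) hf.integrable).symm⟩

theorem RC.term (hβ : β ≤ m0) (hc : BM μ β c) (hf : BM μ m0 f) :
    RC β μ (fun x => (c x * f x).re) (fun x => (c x * (μ[f | β]) x).re) := by
  have h := RC.re (β := β) ((hc.mono hβ).mul hf)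
  refine ⟨h.1, ?_⟩
  filter_upwards [h.2, Fib27.ce_mul hβ hc hf] with x h1 h2
  rw [h1, h2]

theorem nn_nonneg : ∀ᵐ x ∂μ, 0 ≤ NN β μ f x :=
  condExp_nonneg (Eventually.of_forall fun x => by positivity)

theorem ce_le (hf : ∀ᵐ x ∂μ, ‖f x‖ ≤ 1) : ∀ᵐ x ∂μ, ‖(μ[f | β]) x‖ ≤ 1 :=
  ae_bdd_norm_condExp_of_ae_bdd_norm hf

/-- Jensen -/
theorem jen (hβ : β ≤ m0) (hf : BM μ m0 f) : ∀ᵐ x ∂μ, ‖(μ[f | β]) x‖ ^ 2 ≤ NN β μ f x := by
  have h := ((RC.term hβ (hf.ce β).conj hf).mul 2).le ((RC.nq hf).add (RC.base hβ (hf.ce β)))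
    (Eventually.of_forall fun x => p_jen _ _)
  filter_upwards [h] with x hx
  rw [cc] at hx
  linarith

theorem var_le (hβ : β ≤ m0) (hf : BM μ m0 f) (h1 : ∀ᵐ x ∂μ, ‖f x‖ ≤ 1) :
    ∀ᵐ x ∂μ, NN β μ (fun y => f y - (μ[f | β]) y) x ≤ 1 - ‖(μ[f | β]) x‖ ^ 2 := by
  have ht := hf.ce β
  have h := ((RC.nq (hf.sub (ht.mono hβ))).add ((RC.term hβ ht.conj hf).mul 2)).le
    ((RC.cst hβ 1).add (RC.base hβ ht)) (h1.mono fun x hx => p_var _ _ hx)
  filter_upwards [h] with x hx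
  rw [cc] at hx
  linarith

theorem bm_nq (hf : BM μ m f) : BM μ m fun x => ((‖f x‖ ^ 2 : ℝ) : ℂ) :=
  (hf.mul hf.conj).congr (Eventually.of_forall fun x => by
    simp only [Complex.mul_conj, Complex.normSq_eq_norm_sq])

theorem ce_nq (hf : BM μ m0 f) :
    μ[fun x => ((‖f x‖ ^ 2 : ℝ) : ℂ) | β] =ᵐ[μ] fun x => ((NN β μ f x : ℝ) : ℂ) :=
  (Complex.ofRealCLM.comp_condExp_comm (m := β) (int_sq hf)).symm

/-- locality of the conditional expectation -/
theorem loc {E : Type} [NormedAddCommGroup E] [NormedSpace ℝ E] [CompleteSpace E] {F G : Ω → E}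
    {s : Set Ω} (hs : MeasurableSet[β] s) (hF : Integrable F μ) (hG : Integrable G μ)
    (h : ∀ x ∈ s, F x = G x) : ∀ᵐ x ∂μ, x ∈ s → (μ[F | β]) x = (μ[G | β]) x := by
  have e : s.indicator F = s.indicator G := Set.indicator_congr h
  filter_upwards [condExp_indicator hF hs, condExp_indicator hG hs] with x h1 h2 hx
  rw [e, h2, Set.indicator_of_mem hx, Set.indicator_of_mem hx] at h1
  exact h1.symm

theorem locJ {E : Type} [NormedAddCommGroup E] [NormedSpace ℝ E] [CompleteSpace E] {F : Ω → E}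
    {G : ℕ → Ω → E} {J : Ω → ℕ} (hJ : Measurable[β] J) (hF : Integrable F μ)
    (hG : ∀ j, Integrable (G j) μ) (h : ∀ x, F x = G (J x) x) :
    ∀ᵐ x ∂μ, (μ[F | β]) x = (μ[G (J x) | β]) x := by
  have h1 : ∀ j, ∀ᵐ x ∂μ, x ∈ J ⁻¹' {j} → (μ[F | β]) x = (μ[G j | β]) x := fun j =>
    loc (hJ (measurableSet_singleton j)) hF (hG j) fun x hx => by
      rw [h x, show J x = j from hx]
  filter_upwards [ae_all_iff.2 h1] with x hx
  exact hx (J x) rfl

/-- dominated convergence along a subsequence -/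
theorem lim {E : Type} [NormedAddCommGroup E] [NormedSpace ℝ E] [CompleteSpace E] (hβ : β ≤ m0)
    {F : ℕ → Ω → E} {G : Ω → E} (C : ℝ) (hF : ∀ n, AEStronglyMeasurable (F n) μ)
    (hC : ∀ n, ∀ᵐ x ∂μ, ‖F n x‖ ≤ C) (h : ∀ᵐ x ∂μ, Tendsto (fun n => F n x) atTop (𝓝 (G x))) :
    ∃ ns : ℕ → ℕ, StrictMono ns ∧
      ∀ᵐ x ∂μ, Tendsto (fun i => (μ[F (ns i) | β]) x) atTop (𝓝 ((μ[G | β]) x)) := by
  obtain ⟨ns, hns, h1⟩ := (tendstoInMeasure_of_tendsto_Lp
    (tendsto_condExpL1_of_dominated_convergence hβ (fun _ => C) hF (integrable_const C) hC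
      h)).exists_seq_tendsto_ae
  refine ⟨ns, hns, ?_⟩
  filter_upwards [h1, ae_all_iff.2 fun n => condExp_ae_eq_condExpL1 hβ (F n),
    condExp_ae_eq_condExpL1 hβ G] with x h1 h2 h3
  simp only [h2, h3]
  exact h1

omit [IsProbabilityMeasure μ] in
theorem aesm_sel {W : ℕ → Ω → ℂ} {J : Ω → ℕ} (hJ : Measurable[m] J)
    (hW : ∀ j, AEStronglyMeasurable[m] (W j) μ) :
    AEStronglyMeasurable[m] (fun x => W (J x) x) μ := by
  have h1 : Measurable[m.prod inferInstance] fun p : Ω × ℕ => (hW p.2).mk (W p.2) p.1 :=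
    @measurable_from_prod_countable_left Ω ℕ ℂ m _ _ _ _ _ fun n =>
      (hW n).stronglyMeasurable_mk.measurable
  have h2 : Measurable[m] fun x => (hW (J x)).mk (W (J x)) x :=
    h1.comp (f := fun x => (x, J x)) (Measurable.prodMk (@measurable_id Ω m) hJ)
  refine ⟨_, h2.stronglyMeasurable, ?_⟩
  filter_upwards [ae_all_iff.2 fun j => (hW j).ae_eq_mk] with x hx
  exact hx (J x)

theorem pr_le {y : ι → Ω → ℂ} {x : Ω} {S T : Finset ι} (hS : S ⊆ T) (h : ∀ k ∈ T, k ∉ S → ‖y k x‖ ≤ 1) :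
    ‖pr y T x‖ ≤ ‖pr y S x‖ := by
  classical
  unfold Fib27.pr
  rw [← prod_sdiff hS, norm_mul, norm_prod (T \ S)]
  exact mul_le_of_le_one_left (norm_nonneg _) (prod_le_one (fun _ _ => norm_nonneg _)
    fun k hk => h k (mem_sdiff.1 hk).1 (mem_sdiff.1 hk).2)

/-! ### stability -/

section Stab

variable [Fintype ι] [DecidableEq ι] {q : ι → MeasurableSpace Ω}

theorem step (hβ : β ≤ m0) (hq : ∀ k, q k ≤ m0) (hL : CLine β q μ)
    {u : ι → Ω → ℂ} (hu : ∀ k, BM μ (q k) (u k)) (k : ι) :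
    μ[pr u univ | β] =ᵐ[μ] fun x => ∏ j, (μ[u j | β]) x +
      (μ[pr (update u k fun y => u k y - (μ[u k | β]) y) univ | β]) x := by
  have hu0 : ∀ j, BM μ m0 (u j) := fun j => (hu j).mono (hq j)
  have ht := (hu0 k).ce β
  have hR : BM μ m0 (pr u (univ.erase k)) := BM.pr fun j _ => hu0 j
  have e : pr (update u k fun y => u k y - (μ[u k | β]) y) univ =
      fun y => pr u univ y - (μ[u k | β]) y * pr u (univ.erase k) y := by
    funext y
    rw [Fib27.pr_erase _ (mem_univ k), Fib27.pr_update _ (notMem_erase k _), update_self,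
      Fib27.pr_erase u (mem_univ k)]
    ring
  rw [e]
  filter_upwards [Fib27.ce_sub (BM.pr (S := univ) fun j _ => hu0 j) ((ht.mono hβ).mul hR) β,
    Fib27.ce_mul hβ ht hR, hL (univ.erase k) (fun h => notMem_erase k univ (h.symm ▸ mem_univ k))
      u fun j _ => hu j] with x h1 h2 h3
  rw [h1, h2, h3, mul_prod_erase univ (fun j => (μ[u j | β]) x) (mem_univ k)]
  ring

theorem ce_cent (hβ : β ≤ m0) (hf : BM μ m0 f) :
    ∀ᵐ x ∂μ, (μ[fun y => f y - (μ[f | β]) y | β]) x = 0 := by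
  filter_upwards [Fib27.ce_sub hf ((hf.ce β).mono hβ) β, (hf.ce β).ce_self hβ] with x h1 h2
  rw [h1, h2, sub_self]

theorem l2 (hβ : β ≤ m0) (hq : ∀ k, q k ≤ m0) (hb : ∀ k, β ≤ q k) (hL : CLine β q μ)
    {u : ι → Ω → ℂ} (hu : ∀ k, BM μ (q k) (u k)) (h1 : ∀ k x, ‖u k x‖ ≤ 1) (hc : BM μ β c)
    (hc1 : ∀ᵐ x ∂μ, ‖c x‖ ≤ 1) {k0 k1 k2 : ι} (h01 : k0 ≠ k1) (h02 : k0 ≠ k2) (h12 : k1 ≠ k2) :
    ∀ᵐ x ∂μ, (c x * (μ[pr u univ | β]) x).re ≤ ‖(μ[u k0 | β]) x‖ * ‖(μ[u k1 | β]) x‖ +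
      (1 / 4 * NN β μ (fun y => u k0 y - (μ[u k0 | β]) y) x +
        NN β μ (fun y => u k1 y - (μ[u k1 | β]) y) x *
          NN β μ (fun y => u k2 y - (μ[u k2 | β]) y) x) := by
  have hu0 : ∀ j, BM μ m0 (u j) := fun j => (hu j).mono (hq j)
  set d : ι → Ω → ℂ := fun k y => u k y - (μ[u k | β]) y with hd
  have hdq : ∀ k, BM μ (q k) (d k) := fun k => (hu k).sub (((hu0 k).ce β).mono (hb k))
  have hd0 : ∀ k, BM μ m0 (d k) := fun k => (hdq k).mono (hq k)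
  have up : ∀ (w : ι → Ω → ℂ) (k : ι), (∀ j, BM μ (q j) (w j)) →
      ∀ j, BM μ (q j) (update w k (d k) j) := fun w k hw j => by
    by_cases h : j = k
    · subst h; rw [update_self]; exact hdq j
    · rw [update_of_ne h]; exact hw j
  have g1 := up u k0 hu
  have g2 := up _ k1 g1
  have g3 := up _ k2 g2
  have s0 := step hβ hq hL hu k0
  have s1 := step hβ hq hL g1 k1
  have s2 := step hβ hq hL g2 k2
  rw [update_of_ne h01.symm] at s1
  rw [update_of_ne h12.symm, update_of_ne h02.symm] at s2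
  set w := update (update (update u k0 (d k0)) k1 (d k1)) k2 (d k2) with hw
  have w0 : w k0 = d k0 := by rw [hw, update_of_ne h02, update_of_ne h01, update_self]
  have w1 : w k1 = d k1 := by rw [hw, update_of_ne h12, update_self]
  have w2 : w k2 = d k2 := by rw [hw, update_self]
  have hn : ({k1, k2} : Finset ι) ≠ univ := fun h => by
    have : k0 ∈ ({k1, k2} : Finset ι) := h.symm ▸ mem_univ k0
    simp [h01, h02] at this
  have hP : BM μ m0 (pr (fun k y => ((‖d k y‖ ^ 2 : ℝ) : ℂ)) {k1, k2}) :=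
    BM.pr fun j _ => bm_nq (hd0 j)
  have b3 := (RC.term hβ hc (BM.pr (S := univ) fun j _ => (g3 j).mono (hq j))).le
    (((RC.nq (hd0 k0)).mul (1 / 4)).add (RC.re hP)) (by
      filter_upwards [hc1] with x hx
      have e1 : ‖pr w univ x‖ ≤ ‖pr w {k0, k1, k2} x‖ := pr_le (subset_univ _) fun k _ hk => by
        simp only [mem_insert, mem_singleton, not_or] at hk
        rw [hw, update_of_ne hk.2.2, update_of_ne hk.2.1, update_of_ne hk.1]
        exact h1 k x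
      have e2 : ‖pr w {k0, k1, k2} x‖ = ‖d k0 x‖ * (‖d k1 x‖ * ‖d k2 x‖) := by
        unfold Fib27.pr
        rw [prod_insert (by simp [h01, h02]), prod_pair h12, w0, w1, w2, norm_mul, norm_mul]
      have e3 : (pr (fun k y => ((‖d k y‖ ^ 2 : ℝ) : ℂ)) {k1, k2} x).re =
          (‖d k1 x‖ * ‖d k2 x‖) ^ 2 := by
        unfold Fib27.pr
        rw [prod_pair h12, ← Complex.ofReal_mul, Complex.ofReal_re, mul_pow]
      have e4 : (c x * pr w univ x).re ≤ ‖pr w univ x‖ := (Complex.re_le_norm _).trans (by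
        rw [norm_mul]; exact mul_le_of_le_one_left (norm_nonneg _) hx)
      rw [e3]
      nlinarith [sq_nonneg (‖d k0 x‖ - 2 * (‖d k1 x‖ * ‖d k2 x‖))])
  filter_upwards [s0, s1, s2, b3, hc1, ce_cent hβ (hu0 k0), ce_nq (β := β) (hd0 k1),
    ce_nq (β := β) (hd0 k2), hL _ hn (fun k y => ((‖d k y‖ ^ 2 : ℝ) : ℂ)) fun j _ => bm_nq (hdq j),
    ae_all_iff.2 fun k => ce_le (β := β) (Eventually.of_forall (h1 k))]
    with x s0 s1 s2 b3 hx z0 n1 n2 n3 t1
  rw [prod_eq_zero (mem_univ k0) (by rw [update_self]; exact z0), zero_add] at s1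
  rw [prod_eq_zero (mem_univ k0) (by rw [update_of_ne h01, update_self]; exact z0), zero_add] at s2
  rw [n3, prod_pair h12, n1, n2, ← Complex.ofReal_mul, Complex.ofReal_re] at b3
  have e5 : (c x * ∏ j, (μ[u j | β]) x).re ≤ ‖(μ[u k0 | β]) x‖ * ‖(μ[u k1 | β]) x‖ := by
    have e6 := pr_le (y := fun j => μ[u j | β]) (x := x) (subset_univ {k0, k1}) fun k _ _ => t1 k
    unfold Fib27.pr at e6
    rw [prod_pair h01, norm_mul] at e6
    refine (Complex.re_le_norm _).trans ?_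
    rw [norm_mul]
    exact (mul_le_of_le_one_left (norm_nonneg _) hx).trans e6
  rw [s0, s1, s2, mul_add, Complex.add_re]
  exact add_le_add e5 b3

theorem three (h3 : 3 ≤ Fintype.card ι) (k : ι) : ∃ k1 k2 : ι, k ≠ k1 ∧ k ≠ k2 ∧ k1 ≠ k2 := by
  have : 1 < (univ.erase k).card := by
    rw [card_erase_of_mem (mem_univ k), card_univ]; omega
  obtain ⟨k1, h1, k2, h2, h⟩ := one_lt_card.1 this
  exact ⟨k1, k2, (ne_of_mem_erase h1).symm, (ne_of_mem_erase h2).symm, h⟩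

/-- the properties of a normalised approximate tuple at a point -/
def OK (β : MeasurableSpace Ω) {m0 : MeasurableSpace Ω} (μ : Measure Ω) (v0 : ι → Ω → ℂ)
    (η ε : ℝ) (y : ι → Ω → ℂ) (x : Ω) : Prop :=
  1 - ε ≤ ‖(μ[pr y univ | β]) x‖ ∧ ∀ k, NN β μ (fun w => y k w - v0 k w) x ≤ η ^ 2 ∧
    ((μ[fun w => y k w * conj (v0 k w) | β]) x).im = 0

theorem stab (hβ : β ≤ m0) (hq : ∀ k, q k ≤ m0) (hb : ∀ k, β ≤ q k) (hL : CLine β q μ)
    (h3 : 3 ≤ Fintype.card ι) {y y' v0 : ι → Ω → ℂ} (hy : ∀ k, BM μ (q k) (y k))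
    (hy' : ∀ k, BM μ (q k) (y' k)) (hv : ∀ k, BM μ m0 (v0 k)) (b : ∀ k x, ‖y k x‖ ≤ 1)
    (b' : ∀ k x, ‖y' k x‖ ≤ 1) (bv : ∀ k x, ‖v0 k x‖ ≤ 1) {η ε : ℝ} (hη : η ^ 2 ≤ 1 / 10000)
    (hε : 0 ≤ ε) (hε' : ε ≤ 1 / 16) (k : ι) :
    ∀ᵐ x ∂μ, OK β μ v0 η ε y x → OK β μ v0 η ε y' x →
      NN β μ (fun w => y k w - y' k w) x ≤ 192 * ε := by
  obtain ⟨k1, k2, h01, h02, h12⟩ := three h3 k
  have y0 : ∀ j, BM μ m0 (y j) := fun j => (hy j).mono (hq j)
  have y0' : ∀ j, BM μ m0 (y' j) := fun j => (hy' j).mono (hq j)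
  set u : ι → Ω → ℂ := fun j w => y j w * conj (y' j w) with hu
  have uq : ∀ j, BM μ (q j) (u j) := fun j => (hy j).mul (hy' j).conj
  have u0 : ∀ j, BM μ m0 (u j) := fun j => (uq j).mono (hq j)
  have bu : ∀ j w, ‖u j w‖ ≤ 1 := fun j w => by
    rw [hu, norm_mul, Complex.norm_conj]; exact mul_le_one₀ (b j w) (norm_nonneg _) (b' j w)
  have hF : BM μ m0 (pr y univ) := BM.pr fun j _ => y0 j
  have hF' : BM μ m0 (pr y' univ) := BM.pr fun j _ => y0' j
  have hU : BM μ m0 (pr u univ) := BM.pr fun j _ => u0 j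
  have le1 : ∀ (z : ι → Ω → ℂ), (∀ j w, ‖z j w‖ ≤ 1) → ∀ j w, ‖pr z univ w‖ ≤ ‖z j w‖ :=
    fun z hz j w => by
      have := pr_le (y := z) (x := w) (subset_univ {j}) fun k _ _ => hz k w
      rwa [show pr z {j} w = z j w from prod_singleton _ _] at this
  have bF : ∀ w, ‖pr y univ w‖ ≤ 1 := fun w => (le1 y b k w).trans (b k w)
  have bF' : ∀ w, ‖pr y' univ w‖ ≤ 1 := fun w => (le1 y' b' k w).trans (b' k w)
  have ha := hF.ce β
  have ha' := hF'.ce β
  have a1 := ce_le (β := β) (μ := μ) (Eventually.of_forall bF)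
  have a1' := ce_le (β := β) (μ := μ) (Eventually.of_forall bF')
  have L1 := (((RC.term hβ ha.conj hF).mul 4).add ((RC.term hβ ha'.conj hF').mul 4)).le
    (((RC.term hβ (ha.conj.mul ha') hU).mul 2).add (RC.cst hβ 6)) (by
      filter_upwards [a1, a1'] with x h h'
      have e : pr u univ x = pr y univ x * conj (pr y' univ x) := by
        unfold Fib27.pr
        rw [map_prod, ← prod_mul_distrib]
      rw [e]
      exact p_l1 _ _ _ _ h h' (bF x) (bF' x))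
  have L2 := l2 hβ hq hb hL uq bu (ha.conj.mul ha') (by
      filter_upwards [a1, a1'] with x h h'
      rw [norm_mul, Complex.norm_conj]
      exact mul_le_one₀ h (norm_nonneg _) h') h01 h02 h12
  have V := ae_all_iff.2 fun j => var_le hβ (u0 j) (Eventually.of_forall (bu j))
  have P := ae_all_iff.2 fun j => ((RC.nq (β := β) hF).add (RC.nq hF')).le
    (((RC.re (u0 j)).mul 2).add (((RC.nq ((y0 j).sub (hv j))).mul 2).add
      ((RC.nq ((y0' j).sub (hv j))).mul 2))) (Eventually.of_forall fun x => by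
      have e1 := pow_le_pow_left₀ (norm_nonneg _) (le1 y b j x) 2
      have e2 := pow_le_pow_left₀ (norm_nonneg _) (le1 y' b' j x) 2
      exact (add_le_add e1 e2).trans (p_re _ _ _))
  have hα := (y0 k).mul (hv k).conj
  have hα' := (y0' k).mul (hv k).conj
  have ht := (u0 k).ce β
  have A := (RC.nq (β := β) hF').le ((RC.re hα').add ((RC.cst hβ (1 / 20)).add
    ((RC.nq ((y0' k).sub (hv k))).mul 5))) (Eventually.of_forall fun x =>
      (pow_le_pow_left₀ (norm_nonneg _) (le1 y' b' k x) 2).trans (p_al _ _ (b' k x)))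
  have hG := hα.sub ((ht.mono hβ).mul hα')
  have G1 := ((RC.nq hG).add ((RC.term hβ ht.conj (u0 k)).mul 2)).le
    ((RC.cst hβ 1).add (RC.base hβ ht))
    (Eventually.of_forall fun x => p_var2 _ _ _ _ (b k x) (b' k x) (bv k x))
  have D := ((RC.nq ((y0 k).sub (y0' k))).add ((RC.re (u0 k)).mul 2)).le (RC.cst hβ 2)
    (Eventually.of_forall fun x => p_df _ _ (b k x) (b' k x))
  filter_upwards [L1, L2, V, P, A, G1, D, jen hβ hF, jen hβ hF', jen hβ hG,
    Fib27.ce_sub hα ((ht.mono hβ).mul hα') β, Fib27.ce_mul hβ ht hα',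
    nn_nonneg (β := β) (f := fun w => u k1 w - (μ[u k1 | β]) w),
    ce_le (β := β) (Eventually.of_forall (bu k))]
    with x L1 L2 V P A G1 D J J' JG E1 E2 N1 T1 o o'
  rw [cc, cc] at L1
  rw [cc] at G1
  rw [E1, E2] at JG
  have f1 : (15 / 16 : ℝ) ^ 2 ≤ ‖(μ[pr y univ | β]) x‖ ^ 2 :=
    pow_le_pow_left₀ (by norm_num) (by linarith [o.1]) 2
  have f2 : (15 / 16 : ℝ) ^ 2 ≤ ‖(μ[pr y' univ | β]) x‖ ^ 2 :=
    pow_le_pow_left₀ (by norm_num) (by linarith [o'.1]) 2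
  have R : ∀ j, 4 / 5 ≤ ((μ[u j | β]) x).re := fun j => by
    linarith [P j, (o.2 j).1, (o'.2 j).1]
  have c1 := core1 ε _ _ _ _ _ _ _ _ _ hε hε' o.1 o'.1 L1 L2 (V k) (V k1) (V k2) N1
    ((R k2).trans (Complex.re_le_norm _))
  have c2 := core2 ε _ _ _ hε c1 T1 (by linarith [R k]) (o.2 k).2 (o'.2 k).2
    (by linarith [(o'.2 k).1]) (by linarith)
  linarith

end Stab

/-! ### the construction -/

theorem summ {d : ℕ → Ω → ℂ} (hd : ∀ n, BM μ m0 (d n)) (C : ℝ)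
    (h : ∀ n, ∫ x, ‖d n x‖ ^ 2 ∂μ ≤ C * (1 / 4) ^ n) : ∀ᵐ x ∂μ, Summable fun n => ‖d n x‖ := by
  refine summable_norm_of_tsum_eLpNorm_ne_top (p := 1) le_rfl (fun n => (hd n).1) ?_
  have h1 : ∀ n, eLpNorm (d n) 1 μ ≤ ENNReal.ofReal ((C + 1) * (1 / 2) ^ n) := fun n => by
    rw [eLpNorm_one_eq_lintegral_enorm, ← ofReal_integral_norm_eq_lintegral_enorm (hd n).integrable]
    refine ENNReal.ofReal_le_ofReal ?_
    have hr : (0 : ℝ) < (1 / 2) ^ n := by positivity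
    have e : ((1 : ℝ) / 4) ^ n = (1 / 2) ^ n * (1 / 2) ^ n := by rw [← mul_pow]; norm_num
    have h2 := h n
    rw [e] at h2
    generalize ((1 : ℝ) / 2) ^ n = r at hr h2
    have h3 : ∫ x, r * ‖d n x‖ ∂μ ≤ ∫ x, (‖d n x‖ ^ 2 + r ^ 2) ∂μ :=
      integral_mono ((hd n).integrable.norm.const_mul r)
        ((int_sq (hd n)).add (integrable_const _)) fun x => by
          have := mul_nonneg hr.le (norm_nonneg (d n x))
          show r * ‖d n x‖ ≤ ‖d n x‖ ^ 2 + r ^ 2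
          nlinarith [sq_nonneg (‖d n x‖ - r)]
    rw [integral_const_mul, integral_add (int_sq (hd n)) (integrable_const _), integral_const,
      probReal_univ, one_smul] at h3
    refine le_of_mul_le_mul_left ?_ hr
    nlinarith
  exact ne_top_of_le_ne_top
    (summable_geometric_two.mul_left (C + 1)).tsum_ofReal_ne_top (ENNReal.tsum_le_tsum h1)

theorem unim (hβ : β ≤ m0) (hf : BM μ m0 f) (b : ∀ᵐ x ∂μ, ‖f x‖ ≤ 1)
    (h : ∀ᵐ x ∂μ, ‖(μ[f | β]) x‖ = 1) : ∀ᵐ x ∂μ, ‖f x‖ = 1 := by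
  have h1 : ∫ x, (1 : ℝ) ∂μ ≤ ∫ x, ‖f x‖ ^ 2 ∂μ := by
    rw [← integral_condExp hβ (f := fun x => ‖f x‖ ^ 2)]
    refine integral_mono_ae (integrable_const _) integrable_condExp ?_
    filter_upwards [jen hβ hf, h] with x h1 h2
    rwa [h2, one_pow] at h1
  have h2 : 0 ≤ᵐ[μ] fun x => 1 - ‖f x‖ ^ 2 := b.mono fun x hx => sub_nonneg.2 (sq1 hx)
  have h3 : ∫ x, (1 - ‖f x‖ ^ 2) ∂μ = 0 := le_antisymm
    (by rw [integral_sub (integrable_const _) (int_sq hf)]; linarith) (integral_nonneg_of_ae h2)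
  rw [integral_eq_zero_iff_of_nonneg_ae h2 ((integrable_const _).sub (int_sq hf))] at h3
  filter_upwards [h3] with x hx
  have : ‖f x‖ ^ 2 = 1 := by
    have : 1 - ‖f x‖ ^ 2 = 0 := hx
    linarith
  exact (pow_eq_one_iff_of_nonneg (norm_nonneg _) two_ne_zero).1 this

variable [Fintype ι] [DecidableEq ι] {q : ι → MeasurableSpace Ω} {v0 : ι → Ω → ℂ}

theorem phase (hβ : β ≤ m0) (hq : ∀ k, q k ≤ m0) (hb : ∀ k, β ≤ q k) {y : ι → Ω → ℂ}
    (hy : ∀ k, BM μ (q k) (y k)) (b : ∀ k x, ‖y k x‖ ≤ 1) (hv : ∀ k, BM μ m0 (v0 k)) :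
    ∃ w : ι → Ω → ℂ, (∀ k, BM μ (q k) (w k)) ∧ (∀ k x, ‖w k x‖ ≤ 1) ∧ ∀ᵐ x ∂μ, ∀ η ε : ℝ,
      1 - ε ≤ ‖(μ[pr y univ | β]) x‖ → (∀ k, NN β μ (fun t => y k t - v0 k t) x ≤ η ^ 2) →
      OK β μ v0 η ε w x := by
  have y0 : ∀ j, BM μ m0 (y j) := fun j => (hy j).mono (hq j)
  set c : ι → Ω → ℂ := fun k x => ph ((μ[fun t => y k t * conj (v0 k t) | β]) x) with hc
  have cb : ∀ k, BM μ β (c k) := fun k => BM.of_uni
    (ph_meas.comp stronglyMeasurable_condExp.measurable).aestronglyMeasurable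
    (Eventually.of_forall fun x => ph_norm _)
  have c1 : ∀ k x, ‖c k x‖ = 1 := fun k x => ph_norm _
  have hα : ∀ k, BM μ m0 fun t => y k t * conj (v0 k t) := fun k => (y0 k).mul (hv k).conj
  refine ⟨fun k x => c k x * y k x, fun k => ((cb k).mono (hb k)).mul (hy k), fun k x => ?_, ?_⟩
  · rw [norm_mul, c1, one_mul]; exact b k x
  have e : pr (fun k x => c k x * y k x) univ = fun x => pr c univ x * pr y univ x := by
    funext x; exact prod_mul_distrib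
  have e2 : ∀ k, (fun t => c k t * y k t * conj (v0 k t)) =
      fun t => c k t * (y k t * conj (v0 k t)) := fun k => by funext t; ring
  have P := ae_all_iff.2 fun k => ((RC.nq ((((cb k).mono hβ).mul (y0 k)).sub (hv k))).add
    ((RC.term hβ (cb k) (hα k)).mul 2)).le ((RC.nq ((y0 k).sub (hv k))).add ((RC.re (hα k)).mul 2))
    (Eventually.of_forall fun x => p_ph _ _ _ (c1 k x))
  filter_upwards [P, ae_all_iff.2 fun k => Fib27.ce_mul hβ (cb k) (hα k),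
    Fib27.ce_mul hβ (BM.pr (S := univ) fun k _ => cb k) (BM.pr (S := univ) fun k _ => y0 k)]
    with x P E1 E2 η ε h1 h2
  refine ⟨?_, fun k => ⟨?_, ?_⟩⟩
  · rw [e, E2, norm_mul, show ‖pr c univ x‖ = 1 by
      unfold Fib27.pr; rw [norm_prod]; exact prod_eq_one fun k _ => c1 k x, one_mul]
    exact h1
  · have h3 := P k
    rw [show c k x * (μ[fun t => y k t * conj (v0 k t) | β]) x = _ from ph_mul _,
      Complex.ofReal_re] at h3
    linarith [h2 k, Complex.re_le_norm ((μ[fun t => y k t * conj (v0 k t) | β]) x)]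
  · rw [e2, E1 k, show c k x * (μ[fun t => y k t * conj (v0 k t) | β]) x = _ from ph_mul _,
      Complex.ofReal_im]

theorem select (hβ : β ≤ m0) (hq : ∀ k, q k ≤ m0) (hb : ∀ k, β ≤ q k) {w : ℕ → ι → Ω → ℂ}
    (hw : ∀ i k, BM μ (q k) (w i k)) (b : ∀ i k x, ‖w i k x‖ ≤ 1) (hv : ∀ k, BM μ m0 (v0 k))
    {D : Set Ω} (hD : MeasurableSet[β] D) {A : ℕ → Set Ω} (hA : ∀ i, MeasurableSet[β] (A i))
    (hc : ∀ x ∈ D, ∃ i, x ∈ A i) {η ε : ℝ} (h : ∀ᵐ x ∂μ, ∀ i, x ∈ A i → OK β μ v0 η ε (w i) x) :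
    ∃ z : ι → Ω → ℂ, (∀ k, BM μ (q k) (z k)) ∧ (∀ k x, ‖z k x‖ ≤ 1) ∧
      (∀ x, x ∉ D → ∀ k, z k x = 1) ∧ ∀ᵐ x ∂μ, x ∈ D → OK β μ v0 η ε z x := by
  classical
  let W : ℕ → ι → Ω → ℂ := fun j => Nat.casesOn j (fun _ _ => 1) w
  let S : ℕ → Set Ω := fun j => Nat.casesOn j Dᶜ A
  have hS : ∀ x, ∃ j, x ∈ S j := fun x => by
    by_cases hx : x ∈ D
    · obtain ⟨i, hi⟩ := hc x hx
      exact ⟨i + 1, hi⟩
    · exact ⟨0, hx⟩
  have mS : ∀ j, MeasurableSet[β] (S j) := fun j => by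
    cases j with
    | zero => exact hD.compl
    | succ i => exact hA i
  have hW : ∀ j k, BM μ (q k) (W j k) := fun j k => by
    cases j with
    | zero => exact BM.const 1
    | succ i => exact hw i k
  have bW : ∀ j k x, ‖W j k x‖ ≤ 1 := fun j k x => by
    cases j with
    | zero => exact norm_one.le
    | succ i => exact b i k x
  obtain ⟨J, hJ, hs, h0⟩ : ∃ J : Ω → ℕ, Measurable[β] J ∧ (∀ x, x ∈ S (J x)) ∧
      ∀ x, x ∈ S 0 → J x = 0 :=
    ⟨_, @measurable_find Ω β (fun x j => x ∈ S j) (fun _ => Classical.decPred _) hS mS,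
      fun x => @Nat.find_spec _ (Classical.decPred _) (hS x),
      fun x hx => (@Nat.find_eq_zero _ (Classical.decPred _) (hS x)).2 hx⟩
  have hz : ∀ k, BM μ (q k) fun x => W (J x) k x := fun k =>
    ⟨aesm_sel (W := fun j => W j k) (hJ.mono (hb k) le_rfl) fun j => (hW j k).1, 1,
      Eventually.of_forall fun x => bW _ k x⟩
  have z0 := fun k => (hz k).mono (hq k)
  have W0 := fun j k => (hW j k).mono (hq k)
  refine ⟨fun k x => W (J x) k x, hz, fun k x => bW _ k x, fun x hx k => ?_, ?_⟩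
  · simp only [h0 x hx]
    rfl
  filter_upwards [h, locJ (G := fun j => pr (W j) univ) hJ
      (BM.pr (S := univ) fun k _ => z0 k).integrable
      (fun j => (BM.pr (S := univ) fun k _ => W0 j k).integrable) (fun x => rfl),
    ae_all_iff.2 fun k => locJ (G := fun j t => ‖W j k t - v0 k t‖ ^ 2) hJ
      (int_sq ((z0 k).sub (hv k))) (fun j => int_sq ((W0 j k).sub (hv k))) (fun x => rfl),
    ae_all_iff.2 fun k => locJ (G := fun j t => W j k t * conj (v0 k t)) hJ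
      ((z0 k).mul (hv k).conj).integrable (fun j => ((W0 j k).mul (hv k).conj).integrable)
      (fun x => rfl)] with x h E1 E2 E3 hx
  have hs := hs x
  unfold OK NN
  simp only [E1, E2, E3]
  generalize J x = j at hs
  cases j with
  | zero => exact absurd hx hs
  | succ i => exact h i hs

theorem limit (hβ : β ≤ m0) (hq : ∀ k, q k ≤ m0) (hb : ∀ k, β ≤ q k) (hL : CLine β q μ)
    (h3 : 3 ≤ Fintype.card ι) (hv : ∀ k, BM μ m0 (v0 k)) (bv : ∀ k x, ‖v0 k x‖ ≤ 1)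
    {D : Set Ω} (hD : MeasurableSet[β] D) {η : ℝ} (h0 : 0 < η) (hη : η ≤ 1 / 100)
    {z : ℕ → ι → Ω → ℂ} (hz : ∀ n k, BM μ (q k) (z n k)) (b : ∀ n k x, ‖z n k x‖ ≤ 1)
    (off : ∀ n x, x ∉ D → ∀ k, z n k x = 1)
    (ok : ∀ n, ∀ᵐ x ∂μ, x ∈ D → OK β μ v0 η ((1 / 4) ^ (n + 2)) (z n) x) :
    ∃ φ : ι → Ω → ℂ, (∀ k, Um (q k) μ (φ k)) ∧ ∀ᵐ x ∂μ, x ∈ D →
    x ∈ Th β μ (pr φ univ) ∧ ∀ k, ((μ[fun y => φ k y * conj (v0 k y) | β]) x).im = 0 ∧
      1 - η ≤ ((μ[fun y => φ k y * conj (v0 k y) | β]) x).re ∧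
      (μ[fun y => ‖φ k y - v0 k y‖ ^ 2 | β]) x ≤ η ^ 2 := by
  have z0 := fun n k => (hz n k).mono (hq k)
  have cv : ∀ k, ∀ᵐ x ∂μ, CauchySeq fun n => z n k x := fun k => by
    have hd := fun n => (z0 n k).sub (z0 (n + 1) k)
    refine (summ hd 12 fun n => ?_).mono fun x hx => cauchySeq_of_summable_dist (by
      simpa only [dist_eq_norm] using hx)
    have hε : ((1 : ℝ) / 4) ^ (n + 2) ≤ 1 / 16 := by
      rw [pow_add]
      have : ((1 : ℝ) / 4) ^ n ≤ 1 := pow_le_one₀ (by norm_num) (by norm_num)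
      linarith
    rw [← integral_condExp hβ (f := fun x => ‖z n k x - z (n + 1) k x‖ ^ 2)]
    refine (integral_mono_ae integrable_condExp (integrable_const (12 * (1 / 4 : ℝ) ^ n)) ?_).trans
      (by simp)
    filter_upwards [stab hβ hq hb hL h3 (hz n) (hz (n + 1)) hv (b n) (b (n + 1)) bv (η := η)
      (by nlinarith) (by positivity) hε k, ok n, ok (n + 1),
      loc (G := fun _ => (0 : ℝ)) hD.compl (int_sq (hd n)) (integrable_const _) fun x hx => by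
        rw [off n x hx, off (n + 1) x hx]; simp] with x s o o' l
    by_cases hx : x ∈ D
    · have e : ((1 : ℝ) / 4) ^ (n + 1 + 2) ≤ (1 / 4) ^ (n + 2) :=
        pow_le_pow_of_le_one (by norm_num) (by norm_num) (by omega)
      have := s (o hx) ⟨by linarith [(o' hx).1], (o' hx).2⟩
      rw [pow_add] at this
      unfold NN at this
      linarith
    · rw [l hx, condExp_const hβ]
      positivity
  set φ : ι → Ω → ℂ := fun k x => limUnder atTop fun n => z n k x with hφ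
  have td : ∀ k, ∀ᵐ x ∂μ, Tendsto (fun n => z n k x) atTop (𝓝 (φ k x)) := fun k =>
    (cv k).mono fun x hx => hx.tendsto_limUnder
  have mφ : ∀ k, AEStronglyMeasurable[q k] (φ k) μ := fun k => by
    refine ⟨fun x => limUnder atTop fun n => (hz n k).1.mk (z n k) x, by
      let _ := q k
      exact StronglyMeasurable.limUnder fun n => (hz n k).1.stronglyMeasurable_mk, ?_⟩
    filter_upwards [ae_all_iff.2 fun n => (hz n k).1.ae_eq_mk] with x hx
    simp only [hφ, hx]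
  have bφ : ∀ k, ∀ᵐ x ∂μ, ‖φ k x‖ ≤ 1 := fun k => (td k).mono fun x hx =>
    le_of_tendsto' hx.norm fun n => b n k x
  have φ0 : ∀ k, BM μ m0 (φ k) := fun k => ⟨(mφ k).mono (hq k), 1, bφ k⟩
  have hF : BM μ m0 (pr φ univ) := BM.pr fun k _ => φ0 k
  have bF : ∀ᵐ x ∂μ, ‖pr φ univ x‖ ≤ 1 := by
    filter_upwards [ae_all_iff.2 bφ] with x hx
    exact (pr_le (empty_subset _) fun k _ _ => hx k).trans (by simp [Fib27.pr])
  have th : ∀ᵐ x ∂μ, ‖(μ[pr φ univ | β]) x‖ = 1 := by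
    obtain ⟨ns, hns, h1⟩ := lim hβ (F := fun n => pr (z n) univ) (G := pr φ univ) 1
      (fun n => (BM.pr (S := univ) fun k _ => z0 n k).1)
      (fun n => Eventually.of_forall fun x =>
        (pr_le (empty_subset _) fun k _ _ => b n k x).trans (by simp [Fib27.pr]))
      ((ae_all_iff.2 td).mono fun x hx => tendsto_finsetProd _ fun k _ => hx k)
    filter_upwards [h1, ae_all_iff.2 ok, ce_le (β := β) bF,
      loc (G := fun _ => (1 : ℂ)) hD.compl hF.integrable (integrable_const _) fun x hx =>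
        prod_eq_one fun k _ => by
          simp only [hφ, fun n => off n x hx k]
          exact tendsto_const_nhds.limUnder_eq] with x h1 o c1 l
    by_cases hx : x ∈ D
    · refine le_antisymm c1 ?_
      have t : Tendsto (fun i => 1 - ((1 : ℝ) / 4) ^ (ns i + 2)) atTop (𝓝 (1 - 0)) :=
        tendsto_const_nhds.sub ((tendsto_pow_atTop_nhds_zero_of_lt_one (by norm_num)
          (by norm_num)).comp ((tendsto_add_atTop_nat 2).comp hns.tendsto_atTop))
      rw [sub_zero] at t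
      exact le_of_tendsto_of_tendsto' t h1.norm fun i => (o (ns i) hx).1
    · rw [l hx, condExp_const hβ, norm_one]
  have um : ∀ k, ∀ᵐ x ∂μ, ‖φ k x‖ = 1 := fun k => by
    filter_upwards [unim hβ hF bF th, ae_all_iff.2 bφ] with x h1 h2
    refine le_antisymm (h2 k) ?_
    have := pr_le (y := φ) (x := x) (subset_univ {k}) fun j _ _ => h2 j
    rwa [h1, show pr φ {k} x = φ k x from prod_singleton _ _] at this
  have A1 : ∀ k, ∀ᵐ x ∂μ, x ∈ D → ((μ[fun y => φ k y * conj (v0 k y) | β]) x).im = 0 := fun k => by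
    obtain ⟨ns, hns, h1⟩ := lim hβ (F := fun n y => z n k y * conj (v0 k y))
      (G := fun y => φ k y * conj (v0 k y)) 1 (fun n => ((z0 n k).mul (hv k).conj).1)
      (fun n => Eventually.of_forall fun x => by
        rw [norm_mul, Complex.norm_conj]; exact mul_le_one₀ (b n k x) (norm_nonneg _) (bv k x))
      ((td k).mono fun x hx => hx.mul_const _)
    filter_upwards [h1, ae_all_iff.2 ok] with x h1 o hx
    refine tendsto_nhds_unique ((Complex.continuous_im.tendsto _).comp h1) ?_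
    exact tendsto_const_nhds.congr fun i => ((o (ns i) hx).2 k).2.symm
  have A2 : ∀ k, ∀ᵐ x ∂μ, x ∈ D → (μ[fun y => ‖φ k y - v0 k y‖ ^ 2 | β]) x ≤ η ^ 2 := fun k => by
    obtain ⟨ns, hns, h1⟩ := lim hβ (F := fun n y => ‖z n k y - v0 k y‖ ^ 2)
      (G := fun y => ‖φ k y - v0 k y‖ ^ 2) (2 ^ 2) (fun n => (int_sq ((z0 n k).sub (hv k))).1)
      (fun n => Eventually.of_forall fun x => by
        rw [norm_pow, norm_norm]
        exact pow_le_pow_left₀ (norm_nonneg _)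
          ((norm_sub_le _ _).trans (by linarith [b n k x, bv k x])) 2)
      ((td k).mono fun x hx => (hx.sub_const _).norm.pow 2)
    filter_upwards [h1, ae_all_iff.2 ok] with x h1 o hx
    exact le_of_tendsto' h1 fun i => ((o (ns i) hx).2 k).1
  have A3 := fun k => (RC.cst hβ (2 * η)).le (((RC.re ((φ0 k).mul (hv k).conj)).mul (2 * η)).add
    ((RC.nq ((φ0 k).sub (hv k))).add (RC.cst hβ (η ^ 2)))) ((um k).mono fun x hx => p_fin _ _ η hx)
  refine ⟨φ, fun k => ⟨mφ k, um k⟩, ?_⟩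
  filter_upwards [th, ae_all_iff.2 A1, ae_all_iff.2 A2, ae_all_iff.2 A3] with x t a1 a2 a3 hx
  refine ⟨t, fun k => ⟨a1 k hx, ?_, a2 k hx⟩⟩
  have e1 := a2 k hx
  have e2 := a3 k
  unfold NN at e2
  refine le_of_mul_le_mul_left ?_ h0
  linarith

end Sel

open Sel in
theorem sel : SelR := by
  intro hB _ Ω ι _ _ β p m0 μ _ v v0 η hβ hp h3 hL hv hv0 h0 hη
  have hq : ∀ k, p k ⊔ β ≤ m0 := fun k => sup_le (hp k) hβ
  have hb : ∀ k, β ≤ p k ⊔ β := fun k => le_sup_right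
  have hL' : CLine β (fun k => p k ⊔ β) μ := fun S hS => hB.c.ext β p S μ hβ hp (hL S hS)
  have v1 : ∀ k, BM μ m0 (v0 k) := fun k =>
    ⟨(hv0 k).1.mono (hp k), 1, Eventually.of_forall (hv0 k).2⟩
  choose w hw bw ow using fun i => phase (q := fun k => p k ⊔ β) (v0 := v0) (y := v i) hβ hq hb
    (fun k => ⟨(hv i k).1.mono le_sup_left, 1, Eventually.of_forall (hv i k).2⟩)
    (fun k => (hv i k).2) v1
  have mA : ∀ n i : ℕ, MeasurableSet[β] {x | 1 - (1 / 4 : ℝ) ^ n ≤ ‖(μ[pr (v i) univ | β]) x‖ ∧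
      ∀ k, (μ[fun y => ‖v i k y - v0 k y‖ ^ 2 | β]) x ≤ η ^ 2} := fun n i => by
    rw [Set.ofPred_and, Set.ofPred_forall]
    exact (measurableSet_le measurable_const stronglyMeasurable_condExp.norm.measurable).inter
      (MeasurableSet.iInter fun k =>
        measurableSet_le stronglyMeasurable_condExp.measurable measurable_const)
  have hD : MeasurableSet[β] (DS β μ v v0 η) :=
    MeasurableSet.iInter fun n => MeasurableSet.iUnion fun i => mA n i
  choose z hz bz off ok using fun n : ℕ => select (η := η) (ε := (1 / 4) ^ (n + 2)) hβ hq hb hw bw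
    v1 hD (mA (n + 2)) (fun x hx => Set.mem_iUnion.1 (Set.mem_iInter.1 hx (n + 2)))
    ((ae_all_iff.2 ow).mono fun x hx i hi => hx i η _ hi.1 hi.2)
  exact limit hβ hq hb hL' h3 v1 (fun k => (hv0 k).2) hD h0 hη hz bz off ok

end T3x

end
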