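import Pool.Agent.MP_154433_an.t3.Spec

/-! Half grids: functions with coefficients in the base. -/

set_option autoImplicit false
set_option linter.unusedVariables false

open MeasureTheory ProbabilityTheory Filter Topology Function Finset ComplexConjugate
open scoped BigOperators
open Fib27 (BM sup pr Oc Orow Perp)

noncomputable section

namespace T3x

namespace HGXL

variable {Ω ι : Type} {A β O m0 : MeasurableSpace Ω} {μ : Measure Ω} [IsProbabilityMeasure μ]

theorem ext2 (hA : A ≤ m0) (hO : O ≤ m0) (hβ : β ≤ O)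
    (h : ∀ a, BM μ A a → BM μ (A ⊔ β) (μ[a | O])) {a : Ω → ℂ} (ha : BM μ (A ⊔ β) a) :
    BM μ (A ⊔ β) (μ[a | O]) := by
  have hM : A ⊔ β ≤ m0 := sup_le hA (hβ.trans hO)
  have a1 := (ha.ce O).mono hO
  refine (a1.ce (A ⊔ β)).congr (Fib27.ae_eq_of_tests le_rfl ((a1.ce _).mono hM) a1 fun c hc => ?_)
  have c1 := (hc.ce (A ⊔ β)).mono hM
  have c2 := hc.sub c1
  have p := Fib27.perp_sup hA (hβ.trans hO) ((c2.ce O).mono hO) (fun x ψ hx hψ => by
    rw [Fib27.int_ce_symm hO c2 ((hx.mono hA).mul (hψ.mono (hβ.trans hO))),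
      ← Fib27.perp_sub_ce hM hc _ ((h x hx).mul (hψ.mono le_sup_right))]
    refine integral_congr_ae ?_
    filter_upwards [Fib27.ce_mul' hO (hx.mono hA) (hψ.mono hβ)] with y hy
    rw [hy]) a ha
  rw [Fib27.int_ce_symm hO c2 (ha.mono hM), Fib27.int_sub_mul hc c1 a1, sub_eq_zero] at p
  rw [Fib27.int_ce_symm hM a1 hc]
  simpa only [mul_comm] using p.symm

variable [Fintype ι] [DecidableEq ι]

/-- the multilinear form -/
def L (μ : Measure Ω) (O : MeasurableSpace Ω) (j : ι) (a : ι → Ω → ℂ) (ψ : Ω → ℂ) : ℂ :=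
  ∫ x, ψ x * ((μ[a j | O]) x * pr a (univ.erase j) x) ∂μ

theorem slot (hO : O ≤ m0) (hβ : β ≤ O) (i j : ι) {a : ι → Ω → ℂ} (ha : ∀ k, BM μ m0 (a k))
    {ψ : Ω → ℂ} (hψ : BM μ m0 ψ) : ∃ g, BM μ m0 g ∧ ∀ u, BM μ m0 u →
      L μ O j (update a i u) ψ = ∫ x, g x * u x ∂μ ∧ ∀ χ, BM μ β χ →
        L μ O j (update a i fun x => u x * χ x) ψ = L μ O j (update a i u) fun x => ψ x * χ x := by
  by_cases e : i = j
  · subst e
    have p := hψ.mul (BM.pr (S := univ.erase i) fun k _ => ha k)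
    refine ⟨_, (p.ce O).mono hO, fun u hu => ⟨?_, fun χ hχ => ?_⟩⟩
    · rw [Fib27.int_ce_symm hO p hu]
      simp only [L, update_self, Fib27.pr_update a (notMem_erase i _), mul_assoc, mul_comm]
    · simp only [L, update_self, Fib27.pr_update a (notMem_erase i _)]
      refine integral_congr_ae ?_
      filter_upwards [Fib27.ce_mul' hO hu (hχ.mono hβ)] with x hx
      rw [hx]
      ring
  · have hi : i ∈ univ.erase j := mem_erase.2 ⟨e, mem_univ i⟩
    refine ⟨_, hψ.mul ((((ha j).ce O).mono hO).mul (BM.pr (S := (univ.erase j).erase i)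
      fun k _ => ha k)), fun u hu => ⟨?_, fun χ hχ => ?_⟩⟩ <;>
    · simp only [L, update_of_ne (Ne.symm e), Fib27.pr_erase _ hi, update_self,
        Fib27.pr_update a (notMem_erase i _)]
      exact integral_congr_ae (Eventually.of_forall fun x => by ring)

theorem ext3 {p O : ι → MeasurableSpace Ω} (hp : ∀ k, p k ≤ m0) (hO : ∀ k, O k ≤ m0)
    (hβ : ∀ k, β ≤ O k) (j j' : ι) (h : ∀ a ψ, (∀ k, BM μ (p k) (a k)) → BM μ β ψ →
      L μ (O j) j a ψ = L μ (O j') j' a ψ) (S : Finset ι) :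
    ∀ a ψ, (∀ k, BM μ (p k ⊔ β) (a k)) → (∀ k ∉ S, BM μ (p k) (a k)) → BM μ β ψ →
      L μ (O j) j a ψ = L μ (O j') j' a ψ := by
  have b0 := (hβ j).trans (hO j)
  induction S using Finset.induction_on with
  | empty => exact fun a ψ _ h2 => h a ψ fun k => h2 k (notMem_empty k)
  | insert i S hi ih =>
    intro a ψ h1 h2 hψ
    have a0 : ∀ k, BM μ m0 (a k) := fun k => (h1 k).mono (sup_le (hp k) b0)
    obtain ⟨g, g0, g1⟩ := slot (hO j) (hβ j) i j a0 (hψ.mono b0)
    obtain ⟨g', g0', g1'⟩ := slot (hO j') (hβ j') i j' a0 (hψ.mono b0)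
    have q := Fib27.perp_sup (hp i) b0 (g0.sub g0') (fun u χ hu hχ => by
      have u0 := hu.mono (hp i)
      have u1 := u0.mul (hχ.mono b0)
      rw [Fib27.int_sub_mul g0 g0' u1, ← (g1 _ u1).1, ← (g1' _ u1).1, (g1 u u0).2 χ hχ,
        (g1' u u0).2 χ hχ, sub_eq_zero]
      refine ih _ _ (fun k => ?_) (fun k hk => ?_) (hψ.mul hχ) <;> rcases eq_or_ne k i with rfl | e
      · rw [update_self]; exact hu.mono le_sup_left
      · rw [update_of_ne e]; exact h1 k
      · rw [update_self]; exact hu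
      · rw [update_of_ne e]; exact h2 k fun c => (mem_insert.1 c).elim e hk) _ (h1 i)
    rwa [Fib27.int_sub_mul g0 g0' (a0 i), ← (g1 _ (a0 i)).1, ← (g1' _ (a0 i)).1, update_eq_self,
      sub_eq_zero] at q

end HGXL

open HGXL in
theorem hgx : HGXR := by
  intro b Ω ι _ _ β G m0 μ _ H
  have oc : ∀ q j, Oc G q j ⊔ β ≤ m0 := fun q j => sup_le (Fib27.sup_le' fun k _ => H.le _ _) H.ble
  have orw : ∀ q j, Orow G q j ⊔ β ≤ m0 := fun q j =>
    sup_le (Fib27.sup_le' fun k _ => H.le _ _) H.ble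
  have gb : ∀ q j, G q j ⊔ β ≤ m0 := fun q j => sup_le (H.le q j) H.ble
  have c2 : ∀ q j a, BM μ (G q j ⊔ β) a → BM μ (G q j ⊔ β) (μ[a | Oc G q j ⊔ β]) :=
    fun q j a => ext2 (H.le q j) (oc q j) le_sup_right (H.f2c q j)
  have r2 : ∀ q j a, BM μ (G q j ⊔ β) a → BM μ (G q j ⊔ β) (μ[a | Orow G q j ⊔ β]) :=
    fun q j a => ext2 (H.le q j) (orw q j) le_sup_right (H.f2r q j)
  have f3 : ∀ (q : ι) (a : ι → Ω → ℂ), (∀ k, BM μ (G q k ⊔ β) (a k)) → ∀ j j',
      ∫ x, (μ[a j | Oc G q j ⊔ β]) x * pr a (univ.erase j) x ∂μ =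
        ∫ x, (μ[a j' | Oc G q j' ⊔ β]) x * pr a (univ.erase j') x ∂μ := fun q a ha j j' => by
    simpa only [L, one_mul] using ext3 (H.le q) (oc q) (fun _ => le_sup_right) j j'
      (fun a ψ h1 h2 => H.f3 q a ψ h1 h2 j j') univ a (fun _ => 1) ha
      (fun k hk => absurd (mem_univ k) hk) (BM.const 1)
  refine ⟨c2, r2, f3, fun q i j a ne ha hj => ?_⟩
  have P : BM μ (Orow G q i ⊔ β) (pr a (univ.erase i)) := BM.pr fun k hk =>
    (ha k).mono (sup_le_sup_right (Fib27.le_sup' (G q) hk) _)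
  have P0 := P.mono (orw q i)
  have u := P.ce (G q i ⊔ β)
  refine ⟨u, (u.ce (Oc G q i ⊔ β)).congr (Fib27.ae_eq_of_tests (gb q i) (c2 q i _ u) u
    fun c hc => ?_), Fib27.dual_bm (gb q i) (orw q i) (r2 q i) P⟩
  have e := f3 q (update a i c) (fun k => by
    rcases eq_or_ne k i with rfl | e
    · rwa [update_self]
    · rw [update_of_ne e]; exact ha k) i j
  rw [update_self, Fib27.pr_update a (notMem_erase i _), update_of_ne ne.symm] at e
  rw [Fib27.int_ce_symm (oc q i) (u.mono (gb q i)) (hc.mono (gb q i)),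
    Fib27.int_ce_mul (gb q i) P0 (c2 q i c hc), Fib27.int_ce_mul (gb q i) P0 hc]
  simp only [mul_comm (pr a _ _)]
  refine e.trans (integral_congr_ae ?_)
  filter_upwards [hj.ce_self (oc q j)] with x hx
  have e1 := Fib27.pr_erase (update a i c) (mem_univ j) x
  have e2 := Fib27.pr_erase (update a i c) (mem_univ i) x
  rw [update_of_ne ne.symm] at e1
  rw [update_self, Fib27.pr_update a (notMem_erase i _)] at e2
  rw [hx, ← e1, e2]

end T3x
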