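import Pool.Agent.MP_154433_an.t3.Spec

/-! Assembly of the rows. -/

set_option autoImplicit false
set_option linter.unusedVariables false

open MeasureTheory ProbabilityTheory Filter Topology Function Finset
open Pool.Agent.MP_154433_an.SG (Uni ufn)

noncomputable section

namespace T3x

theorem bas_of (a : BasAS) (t : BasTS) (d : BasDS) (c : BasCS) : Bas :=
  ⟨a, t a, d a, c a (d a)⟩

theorem fd_of (b : Bas) (met : MetR) (mix : MixR) (real : RealR) (n0 : Nice0R) (lim : LimR)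
    (rp : RPR) (line : LineR) (lb : LfBR) (la : LfAR) (lc : LfCR) (ld : LfDR) (ka : KfAR)
    (kb : KfBR) (hf : HfR) (pd : ProdR) : Fd :=
  have hm := met b
  have hr := real b
  have hrp := rp b hr
  have hlb := lb b
  have hla := la b hlb
  have hka := ka b hm hrp
  have hkb := kb b hm hrp hka
  have hh := hf b hka hkb
  { a := b.a, t := b.t, d := b.d, c := b.c, met := hm, mix := mix b hm, nice0 := n0 b hr,
    lim := lim b hr, rp := hrp, line := line b hr, la := hla, lb := hlb, lc := lc b hlb,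
    ld := ld b hla hlb, ka := hka, kb := hkb, h := hh, prod := pd b hka hkb hh }

theorem tupU_tup1 (c : Ctx) (φ : c.ι → c.W.X → ℂ) (h : c.TupU φ) : c.Tup1 φ := by
  obtain ⟨g, rfl⟩ := h
  intro k
  refine ⟨?_, Eventually.of_forall fun x => Circle.norm_coe _⟩
  have h1 : Measurable[MeasurableSpace.comap (c.π k) c.X.ms] (c.up g k) :=
    Measurable.comp (g := fun ω => ((g k).1 ω : ℂ)) (g k).2 (comap_measurable _)
  have h2 : MeasurableSpace.comap (c.π k) c.X.ms ≤ c.P k ⊔ c.B2 :=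
    le_trans (le_sup_left (b := nul c.W.μ)) le_sup_left
  exact (h1.mono h2 le_rfl).stronglyMeasurable.aestronglyMeasurable

theorem step_of (fd : Fd) (rc : Rc) (sel : SelS) (apx : ApxS) (hgx : HGXS) (gg : GGS)
    (sa : SatA) (alg : AlgS) (gi : GIR) (f3 : F3R) (r2p : R2PR) (f2 : F2R) (hg : HGR)
    (gsp1 : GSp1R) (full : FullR) (rep : RepR) (gspU : GSpUR) (t5 : T5R) (exh : ExhR)
    (hat : HatR) (ty : TyR) (pos : PosR) (psi : PsiR) (bun : BunR) (stp : StpR) (rel : RelR)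
    (onh : OnhR) (algI : AlgIR) : StepS := by
  intro c hs hf
  have hgi := gi fd c
  have h2 := f2 fd c hgi hs (r2p fd c hgi)
  obtain ⟨hH, hh⟩ := hg fd hgx c hgi h2 (f3 fd c hgi hs)
  have g1 := gsp1 fd rc sel gg c hgi hH
  have fu1 := full fd rc hgx c c.Tup1 hgi hH (fun _ h => h) g1
  have gU := gspU fd rc c hgi hH g1 fu1 (rep fd rc sel apx c hgi fu1)
  have fuU := full fd rc hgx c c.TupU hgi hH (tupU_tup1 c) gU
  obtain ⟨hcl, h5⟩ := t5 fd rc c hgi gU fuU
  obtain ⟨g, hg5⟩ := h5 (hh hf)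
  obtain ⟨𝒱, s, hx, hg𝒱⟩ := exh fd rc c g
  obtain ⟨H⟩ := hat fd c hgi
  have hty := ty fd rc c H 𝒱 s hcl hx
  obtain ⟨j, k, hp⟩ := pos fd rc c H 𝒱 s g hgi hx hty hg𝒱 hg5
  obtain ⟨c1, V, _, _, sg, ψ, hψ, hb⟩ := bun fd rc sa psi gi c H 𝒱 s g j k hgi hx hty hg𝒱 hp
  obtain ⟨ho, hi⟩ := onh fd rc rel c1 V sg ψ hψ
  exact algI fd rc stp rel alg c1 V sg ψ (gi fd c1) hψ ho hi hb

theorem det_of (b : Bas) (fd : Fd) (step : StepS) (sa : SatA) (ind2 : Ind2R) (sat : SatR)
    (ind : IndR) (gf : GfR) (cptA : CptAR) (cpt : CptR) (top : TopR) (det : DetR) :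
    DET ∧ DETW :=
  det fd (gf b) (cpt fd (gf b) (cptA fd)) (top fd (gf b) (ind fd ind2 sa (sat fd sa) step))

end T3x

end
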