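import Pool.Agent.MP_154433_an.t3.Spec

/-! Null sets and pull-backs. -/

set_option autoImplicit false
set_option linter.unusedVariables false
set_option warn.classDefReducibility false

open MeasureTheory ProbabilityTheory Filter Topology Function Finset ComplexConjugate
open scoped BigOperators
open Fib27 (BM)

noncomputable section

namespace T3x

namespace BasA0

lemma nul_le {Ω : Type} {m0 : MeasurableSpace Ω} (μ : Measure Ω) : nul μ ≤ m0 :=
  MeasurableSpace.generateFrom_le fun _ h => h.1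

lemma ev {Ω : Type} (B : MeasurableSpace Ω) {m0 : MeasurableSpace Ω} (μ : Measure Ω) {A : Set Ω}
    (h : MeasurableSet[B ⊔ nul μ] A) : ∃ A', MeasurableSet[B] A' ∧ A =ᵐ[μ] A' := by
  have h1 : B ⊔ nul μ ≤ eventuallyMeasurableSpace B (ae μ) :=
    sup_le le_eventuallyMeasurableSpace (MeasurableSpace.generateFrom_le fun s hs =>
      ⟨∅, @MeasurableSet.empty _ B, ae_eq_empty.2 hs.2⟩)
  exact h1 A h

lemma mem {Ω : Type} (B : MeasurableSpace Ω) {m0 : MeasurableSpace Ω} (μ : Measure Ω)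
    (hB : B ≤ m0) (A : Set Ω) : MeasurableSet[B ⊔ nul μ] A ↔
      MeasurableSet[m0] A ∧ ∃ A', MeasurableSet[B] A' ∧ A =ᵐ[μ] A' := by
  refine ⟨fun h => ⟨sup_le hB (nul_le μ) A h, ev B μ h⟩, ?_⟩
  rintro ⟨hA, A', hA', e⟩
  have n : ∀ s : Set Ω, MeasurableSet[m0] s → μ s = 0 → MeasurableSet[B ⊔ nul μ] s :=
    fun s h1 h2 => (le_sup_right : nul μ ≤ B ⊔ nul μ) s
      (MeasurableSpace.measurableSet_generateFrom ⟨h1, h2⟩)
  have e1 : A = (A' \ (A' \ A)) ∪ (A \ A') := by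
    ext x
    by_cases h1 : x ∈ A <;> by_cases h2 : x ∈ A' <;> simp [h1, h2]
  rw [e1]
  exact (((le_sup_left : B ≤ B ⊔ nul μ) A' hA').diff
    (n _ ((hB A' hA').diff hA) (ae_eq_set.1 e).2)).union
    (n _ (hA.diff (hB A' hA')) (ae_eq_set.1 e).1)

lemma sm {Ω : Type} (B : MeasurableSpace Ω) {m0 : MeasurableSpace Ω} (μ : Measure Ω)
    (f : Ω → ℂ) (hf : StronglyMeasurable[B ⊔ nul μ] f) : AEStronglyMeasurable[B] f μ := by
  classical
  refine @StronglyMeasurable.induction' Ω ℂ (B ⊔ nul μ) _ _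
    (fun f _ => AEStronglyMeasurable[B] f μ) (fun c => ⟨_, stronglyMeasurable_const, .rfl⟩)
    ?_ ?_ f hf
  · rintro f g s _ _ hs ⟨f', h1, e1⟩ ⟨g', h2, e2⟩
    obtain ⟨s', hs', e⟩ := ev B μ hs
    refine ⟨s'.piecewise f' g', h1.piecewise hs' h2, ?_⟩
    filter_upwards [e1, e2, e.mem_iff] with x a1 a2 a3
    by_cases hx : x ∈ s
    · rw [Set.piecewise_eq_of_mem _ _ _ hx, Set.piecewise_eq_of_mem _ _ _ (a3.1 hx), a1]
    · rw [Set.piecewise_eq_of_notMem _ _ _ hx,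
        Set.piecewise_eq_of_notMem _ _ _ (fun h => hx (a3.2 h)), a2]
  · intro f g _ _ h hl
    choose f' h1 e1 using h
    refine ⟨fun x => limUnder atTop (f' · x),
      @StronglyMeasurable.limUnder _ _ _ B _ _ _ _ _ _ _ h1, ?_⟩
    filter_upwards [ae_all_iff.2 e1] with x hx
    have := hl x
    simp only [hx] at this
    exact this.limUnder_eq.symm

lemma aesm {Ω : Type} (B : MeasurableSpace Ω) {m0 : MeasurableSpace Ω} (μ : Measure Ω)
    (f : Ω → ℂ) : AEStronglyMeasurable[B ⊔ nul μ] f μ ↔ AEStronglyMeasurable[B] f μ := by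
  refine ⟨?_, fun h => h.mono le_sup_left⟩
  rintro ⟨g, hg, e⟩
  exact (sm B μ g hg).congr e.symm

lemma ce {Ω : Type} (B : MeasurableSpace Ω) {m0 : MeasurableSpace Ω} (μ : Measure Ω)
    [IsProbabilityMeasure μ] (hB : B ≤ m0) (f : Ω → ℂ) : μ[f | B ⊔ nul μ] =ᵐ[μ] μ[f | B] := by
  by_cases hf : Integrable f μ
  · refine (ae_eq_condExp_of_forall_setIntegral_eq (sup_le hB (nul_le μ)) hf
      (fun s _ _ => integrable_condExp.integrableOn) (fun s hs _ => ?_)
      ⟨_, stronglyMeasurable_condExp.mono le_sup_left, .rfl⟩).symm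
    obtain ⟨s', hs', e⟩ := ev B μ hs
    rw [setIntegral_congr_set e, setIntegral_congr_set e, setIntegral_condExp hB hf hs']
  · rw [condExp_of_not_integrable hf, condExp_of_not_integrable hf]

/-- cut off at a level -/
lemma clip {Ω : Type} [B : MeasurableSpace Ω] (g : Ω → ℂ) (hg : Measurable g) (C : ℝ)
    (hC : 0 ≤ C) : ∃ g' : Ω → ℂ, Measurable g' ∧ (∀ x, ‖g' x‖ ≤ C) ∧
      ∀ x, ‖g x‖ ≤ C → g x = g' x := by
  refine ⟨fun x => if ‖g x‖ ≤ C then g x else 0,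
    Measurable.ite (measurableSet_le hg.norm measurable_const) hg measurable_const,
    fun x => ?_, fun x hx => (if_pos hx).symm⟩
  by_cases hx : ‖g x‖ ≤ C
  · simpa only [if_pos hx] using hx
  · simpa only [if_neg hx, norm_zero] using hC

lemma rep {Ω : Type} (B : MeasurableSpace Ω) {m0 : MeasurableSpace Ω} (μ : Measure Ω) (f : Ω → ℂ)
    (C : ℝ) (hC : 0 ≤ C) (hf : AEStronglyMeasurable[B] f μ) (hb : ∀ᵐ x ∂μ, ‖f x‖ ≤ C) :
    ∃ f' : Ω → ℂ, Measurable[B] f' ∧ (∀ x, ‖f' x‖ ≤ C) ∧ f =ᵐ[μ] f' := by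
  obtain ⟨g, hg, e⟩ := hf
  obtain ⟨g', h1, h2, h3⟩ := @clip Ω B g hg.measurable C hC
  refine ⟨g', h1, h2, ?_⟩
  filter_upwards [e, hb] with x a1 a2
  rw [a1] at a2 ⊢
  exact h3 x a2

lemma fact {Ω Ω' : Type} (B : MeasurableSpace Ω') {m0 : MeasurableSpace Ω} (μ : Measure Ω)
    (p : Ω → Ω') (f : Ω → ℂ) (C : ℝ) (hC : 0 ≤ C) (hf : AEStronglyMeasurable[pull μ p B] f μ)
    (hb : ∀ᵐ x ∂μ, ‖f x‖ ≤ C) :
    ∃ f' : Ω' → ℂ, Measurable[B] f' ∧ (∀ x, ‖f' x‖ ≤ C) ∧ f =ᵐ[μ] fun x => f' (p x) := by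
  obtain ⟨g, hg, e⟩ := (aesm (B.comap p) μ f).1 hf
  obtain ⟨h, hh, rfl⟩ := hg.exists_eq_measurable_comp
  obtain ⟨g', h1, h2, h3⟩ := @clip Ω' B h hh.measurable C hC
  refine ⟨g', h1, h2, ?_⟩
  filter_upwards [e, hb] with x a1 a2
  rw [a1] at a2 ⊢
  exact h3 _ a2

lemma comap_le {Ω Ω' : Type} (B : MeasurableSpace Ω') {m0 : MeasurableSpace Ω}
    {m0' : MeasurableSpace Ω'} (μ : Measure Ω) (μ' : Measure Ω') (p : Ω → Ω')
    (hp : MeasurePreserving p μ μ') (hB : B ≤ m0') : B.comap p ≤ m0 :=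
  (MeasurableSpace.comap_mono hB).trans hp.measurable.comap_le

lemma sm_comp {Ω Ω' : Type} (B : MeasurableSpace Ω') (p : Ω → Ω') {g : Ω' → ℂ}
    (hg : StronglyMeasurable[B] g) : StronglyMeasurable[B.comap p] fun x => g (p x) := by
  let m : MeasurableSpace Ω := B.comap p
  exact hg.comp_measurable (Measurable.of_comap_le le_rfl)

lemma bm_comp {Ω Ω' : Type} (B : MeasurableSpace Ω') {m0 : MeasurableSpace Ω}
    {m0' : MeasurableSpace Ω'} (μ : Measure Ω) (μ' : Measure Ω') (p : Ω → Ω') (f : Ω' → ℂ)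
    (hp : MeasurePreserving p μ μ') (hf : BM μ' B f) : BM μ (pull μ p B) fun x => f (p x) := by
  obtain ⟨⟨g, hg, e⟩, C, hC⟩ := hf
  exact ⟨⟨fun x => g (p x), (sm_comp B p hg).mono le_sup_left,
    hp.quasiMeasurePreserving.ae_eq_comp e⟩, C, hp.quasiMeasurePreserving.ae hC⟩

lemma ce_comp {Ω Ω' : Type} (B : MeasurableSpace Ω') {m0 : MeasurableSpace Ω}
    {m0' : MeasurableSpace Ω'} (μ : Measure Ω) (μ' : Measure Ω') [IsProbabilityMeasure μ]
    [IsProbabilityMeasure μ'] (p : Ω → Ω') (f : Ω' → ℂ) (hp : MeasurePreserving p μ μ')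
    (hB : B ≤ m0') (hf : Integrable f μ') :
    μ[fun x => f (p x) | pull μ p B] =ᵐ[μ] fun x => (μ'[f | B]) (p x) := by
  have hc := comap_le B μ μ' p hp hB
  refine (ce (B.comap p) μ hc _).trans ?_
  have i1 : Integrable (fun x => f (p x)) μ := hp.integrable_comp_of_integrable hf
  have i2 : Integrable (fun x => (μ'[f | B]) (p x)) μ :=
    hp.integrable_comp_of_integrable integrable_condExp
  refine (ae_eq_condExp_of_forall_setIntegral_eq hc i1 (fun s _ _ => i2.integrableOn)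
    (fun s hs _ => ?_) (sm_comp B p stronglyMeasurable_condExp).aestronglyMeasurable).symm
  obtain ⟨A, hA, rfl⟩ := hs
  have k : ∀ g : Ω' → ℂ, Integrable g μ' →
      ∫ x in p ⁻¹' A, g (p x) ∂μ = ∫ x in A, g x ∂μ' := by
    intro g hg
    rw [← setIntegral_map (hB A hA) (by rw [hp.map_eq]; exact hg.1) hp.measurable.aemeasurable,
      hp.map_eq]
  rw [k _ integrable_condExp, k _ hf, setIntegral_condExp hB hf hA]

lemma nul_comap {Ω Ω' : Type} {m0 : MeasurableSpace Ω} {m0' : MeasurableSpace Ω'} (μ : Measure Ω)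
    (μ' : Measure Ω') (p : Ω → Ω') (hp : MeasurePreserving p μ μ') :
    (nul μ').comap p ≤ nul μ := by
  rw [nul, MeasurableSpace.comap_generateFrom]
  refine MeasurableSpace.generateFrom_mono ?_
  rintro _ ⟨A, hA, rfl⟩
  exact ⟨hp.measurable hA.1, hp.quasiMeasurePreserving.preimage_null hA.2⟩

lemma pull_comp {Ω Ω' Ω'' : Type} (B : MeasurableSpace Ω'') {m0 : MeasurableSpace Ω}
    {m0' : MeasurableSpace Ω'} (μ : Measure Ω) (μ' : Measure Ω') (p : Ω → Ω') (q : Ω' → Ω'')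
    (hp : MeasurePreserving p μ μ') : pull μ p (pull μ' q B) = pull μ (q ∘ p) B := by
  simp only [pull, MeasurableSpace.comap_sup, MeasurableSpace.comap_comp]
  rw [sup_assoc, sup_eq_right.2 (nul_comap μ μ' p hp)]

lemma keq_le {Ω Ω' : Type} (B : MeasurableSpace Ω') {m0 : MeasurableSpace Ω} (μ : Measure Ω)
    (p p' : Ω → Ω') (h : B.comap p ≤ m0) (h' : B.comap p' ≤ m0) (e : KEq μ B p p') :
    pull μ p B ≤ pull μ p' B := by
  refine sup_le ?_ le_sup_right
  rintro _ ⟨A, hA, rfl⟩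
  exact (mem (B.comap p') μ h' _).2 ⟨h _ ⟨A, hA, rfl⟩, _, ⟨A, hA, rfl⟩, e A hA⟩

lemma keq_sm {Ω Ω' : Type} (B : MeasurableSpace Ω') {m0 : MeasurableSpace Ω} (μ : Measure Ω)
    (p p' : Ω → Ω') (e : KEq μ B p p') (f : Ω' → ℂ) (hf : StronglyMeasurable[B] f) :
    (fun x => f (p x)) =ᵐ[μ] fun x => f (p' x) := by
  classical
  refine @StronglyMeasurable.induction' Ω' ℂ B _ _
    (fun f _ => (fun x => f (p x)) =ᵐ[μ] fun x => f (p' x)) (fun c => .rfl) ?_ ?_ f hf
  · intro f g s _ _ hs e1 e2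
    filter_upwards [e1, e2, (e s hs).mem_iff] with x a1 a2 a3
    simp only [Set.mem_preimage] at a3
    by_cases hx : p x ∈ s
    · rw [Set.piecewise_eq_of_mem _ _ _ hx, Set.piecewise_eq_of_mem _ _ _ (a3.1 hx), a1]
    · rw [Set.piecewise_eq_of_notMem _ _ _ hx,
        Set.piecewise_eq_of_notMem _ _ _ (fun h => hx (a3.2 h)), a2]
  · intro f g _ _ h hl
    filter_upwards [ae_all_iff.2 h] with x hx
    have := hl (p x)
    simp only [hx] at this
    exact tendsto_nhds_unique this (hl (p' x))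

lemma keq_fun {Ω Ω' : Type} (B : MeasurableSpace Ω') {m0 : MeasurableSpace Ω}
    {m0' : MeasurableSpace Ω'} (μ : Measure Ω) (μ' : Measure Ω') (p p' : Ω → Ω') (f : Ω' → ℂ)
    (hp : MeasurePreserving p μ μ') (hp' : MeasurePreserving p' μ μ') (e : KEq μ B p p')
    (hf : AEStronglyMeasurable[B] f μ') : (fun x => f (p x)) =ᵐ[μ] fun x => f (p' x) := by
  obtain ⟨g, hg, e1⟩ := hf
  exact (hp.quasiMeasurePreserving.ae_eq_comp e1).trans ((keq_sm B μ p p' e g hg).trans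
    (hp'.quasiMeasurePreserving.ae_eq_comp e1).symm)

lemma keq_of {Ω Ω' : Type} (B : MeasurableSpace Ω') {m0 : MeasurableSpace Ω} (μ : Measure Ω)
    (p p' : Ω → Ω') (h : ∀ f : Ω' → ℂ, Measurable[B] f → (∀ x, ‖f x‖ ≤ 1) →
      (fun x => f (p x)) =ᵐ[μ] fun x => f (p' x)) : KEq μ B p p' := by
  intro A hA
  have h1 := h (A.indicator fun _ => 1) (measurable_const.indicator hA)
    fun x => by by_cases hx : x ∈ A <;> simp [hx]
  refine eventuallyEq_set.2 (h1.mono fun x hx => ?_)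
  by_cases a1 : p x ∈ A <;> by_cases a2 : p' x ∈ A <;> simp_all

end BasA0

open BasA0 in
theorem basA : BasAS where
  nul_le := nul_le
  mem := mem
  aesm := fun B _ μ _ f => aesm B μ f
  ce := ce
  rep := rep
  fact := fun B _ μ p f C _ => fact B μ p f C
  pull_le := fun B _ _ μ μ' p hp hB => sup_le (comap_le B μ μ' p hp hB) (nul_le μ)
  bm_comp := bm_comp
  ce_comp := ce_comp
  pull_comp := pull_comp
  pull_sup := fun B C _ μ p => by
    simp only [pull, MeasurableSpace.comap_sup]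
    exact sup_sup_distrib_right _ _ _
  keq_pull := fun B _ μ p p' h h' e =>
    le_antisymm (keq_le B μ p p' h h' e) (keq_le B μ p' p h' h fun A hA => (e A hA).symm)
  keq_fun := keq_fun
  keq_of := keq_of

end T3x

end
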