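import Pool.Agent.MP_154433_an.t3.Spec

/-! Averages of convolutions vanish when one function is orthogonal to the good factor. -/

set_option autoImplicit false
set_option linter.unusedVariables false

open MeasureTheory ProbabilityTheory Filter Topology Function Finset ComplexConjugate
open scoped BigOperators
open Fib27 (BM sup pr)

noncomputable section

namespace T3x

namespace CptA

section Gen

variable {Ω : Type} {m m0 : MeasurableSpace Ω} {μ : Measure Ω}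

lemma bm_prod {ι : Type} (S : Finset ι) {f : ι → Ω → ℂ} (h : ∀ i ∈ S, BM μ m (f i)) :
    BM μ m fun x => ∏ i ∈ S, f i x := Fib27.BM.pr h

lemma bm_sum {ι : Type} (S : Finset ι) {f : ι → Ω → ℂ} (h : ∀ i ∈ S, BM μ m (f i)) :
    BM μ m fun x => ∑ i ∈ S, f i x := by
  classical
  induction S using Finset.induction_on with
  | empty => simpa using Fib27.BM.const (κ := μ) (m := m) 0
  | insert j S hj ih =>
    simp only [Finset.sum_insert hj]
    exact (h j (mem_insert_self _ _)).add (ih fun k hk => h k (mem_insert_of_mem hk))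

lemma bm_wsum {ι : Type} (S : Finset ι) (w : ι → ℝ) {f : ι → Ω → ℂ}
    (h : ∀ i ∈ S, BM μ m (f i)) : BM μ m fun x => ∑ i ∈ S, w i • f i x :=
  bm_sum S fun i hi => by simpa only [Complex.real_smul] using (h i hi).cmul (w i)

variable [IsProbabilityMeasure μ]

lemma int_sq {f : Ω → ℂ} (hf : BM μ m0 f) : Integrable (fun x => ‖f x‖ ^ 2) μ :=
  (hf.memLp 2).integrable_norm_pow (by norm_num)

lemma int_wsum {ι : Type} (S : Finset ι) (w : ι → ℝ) {f : ι → Ω → ℂ}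
    (h : ∀ i ∈ S, BM μ m0 (f i)) {t : Ω → ℂ} (ht : BM μ m0 t) :
    ∫ x, (∑ i ∈ S, w i • f i x) * t x ∂μ = ∑ i ∈ S, (w i : ℂ) * ∫ x, f i x * t x ∂μ := by
  simp only [Finset.sum_mul, Complex.real_smul, mul_assoc]
  rw [integral_finsetSum _ fun i hi => (((h i hi).mul ht).cmul (w i)).integrable]
  exact Finset.sum_congr rfl fun i _ => integral_const_mul _ _

lemma sq_wsum {ι : Type} (S : Finset ι) (w : ι → ℝ) {f : ι → Ω → ℂ}
    (h : ∀ i ∈ S, BM μ m0 (f i)) :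
    ∫ x, ‖∑ i ∈ S, w i • f i x‖ ^ 2 ∂μ =
      ∑ i ∈ S, ∑ j ∈ S, w i * w j * (∫ x, f i x * conj (f j x) ∂μ).re := by
  have e1 : ((∫ x, ‖∑ i ∈ S, w i • f i x‖ ^ 2 ∂μ : ℝ) : ℂ) =
      ∫ x, (∑ i ∈ S, w i • f i x) * conj (∑ i ∈ S, w i • f i x) ∂μ := by
    rw [← integral_complex_ofReal]
    refine integral_congr_ae (Eventually.of_forall fun x => ?_)
    simp only [Complex.mul_conj, Complex.normSq_eq_norm_sq]
  rw [int_wsum S w h (bm_wsum S w h).conj] at e1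
  have e2 : ∀ i ∈ S, ∫ x, f i x * conj (∑ j ∈ S, w j • f j x) ∂μ =
      ∑ j ∈ S, (w j : ℂ) * ∫ x, f i x * conj (f j x) ∂μ := by
    intro i hi
    have := int_wsum S w (fun j hj => (h j hj).conj) (h i hi)
    simp only [mul_comm (f i _)]
    rw [← this]
    refine integral_congr_ae (Eventually.of_forall fun x => ?_)
    simp only [map_sum, Complex.real_smul, map_mul, Complex.conj_ofReal]
  rw [Finset.sum_congr rfl fun i hi => by rw [e2 i hi]] at e1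
  have e3 := congrArg Complex.re e1
  rw [Complex.ofReal_re] at e3
  rw [e3]
  simp only [Complex.re_sum, Finset.mul_sum, Complex.re_ofReal_mul, mul_assoc]

lemma cs {Φ A : Ω → ℂ} {K : ℝ} (hK : 0 ≤ K) (hΦ : ∀ᵐ x ∂μ, ‖Φ x‖ ≤ K) (hA : BM μ m0 A) :
    ‖∫ x, A x * Φ x ∂μ‖ ^ 2 ≤ K ^ 2 * ∫ x, ‖A x‖ ^ 2 ∂μ := by
  have h1 : ‖∫ x, A x * Φ x ∂μ‖ ≤ K * ∫ x, ‖A x‖ ∂μ := by
    rw [← integral_const_mul]
    refine norm_integral_le_of_norm_le (hA.integrable.norm.const_mul K) ?_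
    filter_upwards [hΦ] with x hx
    rw [norm_mul, mul_comm]
    exact mul_le_mul_of_nonneg_right hx (norm_nonneg _)
  have h2 : (∫ x, ‖A x‖ ∂μ) ^ 2 ≤ ∫ x, ‖A x‖ ^ 2 ∂μ := by
    set t := ∫ x, ‖A x‖ ∂μ with ht
    have h3 : ∫ x, (2 * t * ‖A x‖ - t ^ 2) ∂μ ≤ ∫ x, ‖A x‖ ^ 2 ∂μ :=
      integral_mono ((hA.integrable.norm.const_mul _).sub (integrable_const _)) (int_sq hA)
        fun x => by nlinarith [sq_nonneg (‖A x‖ - t)]
    rw [integral_sub (hA.integrable.norm.const_mul _) (integrable_const _), integral_const_mul,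
      integral_const, ← ht] at h3
    simp only [probReal_univ, smul_eq_mul, one_mul] at h3
    nlinarith
  calc _ ≤ (K * ∫ x, ‖A x‖ ∂μ) ^ 2 := pow_le_pow_left₀ (norm_nonneg _) h1 2
    _ = K ^ 2 * (∫ x, ‖A x‖ ∂μ) ^ 2 := mul_pow _ _ _
    _ ≤ _ := mul_le_mul_of_nonneg_left h2 (sq_nonneg _)

lemma sq_le_two {u v : Ω → ℂ} (hu : BM μ m0 u) (hv : BM μ m0 v) :
    ∫ x, ‖u x‖ ^ 2 ∂μ ≤ 2 * ∫ x, ‖u x - v x‖ ^ 2 ∂μ + 2 * ∫ x, ‖v x‖ ^ 2 ∂μ := by
  rw [← integral_const_mul, ← integral_const_mul,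
    ← integral_add ((int_sq (hu.sub hv)).const_mul _) ((int_sq hv).const_mul _)]
  refine integral_mono (int_sq hu) (((int_sq (hu.sub hv)).const_mul _).add
    ((int_sq hv).const_mul _)) fun x => ?_
  have h : ‖u x‖ ≤ ‖u x - v x‖ + ‖v x‖ := by simpa using norm_add_le (u x - v x) (v x)
  have h' := pow_le_pow_left₀ (norm_nonneg _) h 2
  show ‖u x‖ ^ 2 ≤ 2 * ‖u x - v x‖ ^ 2 + 2 * ‖v x‖ ^ 2
  nlinarith [sq_nonneg (‖u x - v x‖ - ‖v x‖)]

end Gen

lemma jensen {ι : Type} (S : Finset ι) (w : ι → ℝ) (hw : ∀ i, 0 ≤ w i) (h1 : ∑ i ∈ S, w i = 1)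
    (x y : ι → ι → ℝ) (hxy : ∀ i j, x i j ^ 2 ≤ y i j) :
    (∑ i ∈ S, ∑ j ∈ S, w i * w j * x i j) ^ 2 ≤ ∑ i ∈ S, ∑ j ∈ S, w i * w j * y i j := by
  set t := ∑ i ∈ S, ∑ j ∈ S, w i * w j * x i j with ht
  have h2 : ∑ i ∈ S, ∑ j ∈ S, w i * w j = 1 := by
    rw [← Finset.sum_mul_sum, h1, one_mul]
  have h3 : ∑ i ∈ S, ∑ j ∈ S, (2 * t * (w i * w j * x i j) - t ^ 2 * (w i * w j)) ≤
      ∑ i ∈ S, ∑ j ∈ S, w i * w j * y i j := by
    refine Finset.sum_le_sum fun i _ => Finset.sum_le_sum fun j _ => ?_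
    have h4 : 2 * t * x i j - t ^ 2 ≤ y i j := by nlinarith [sq_nonneg (x i j - t), hxy i j]
    have h5 := mul_le_mul_of_nonneg_left h4 (mul_nonneg (hw i) (hw j))
    linarith
  simp only [Finset.sum_sub_distrib, ← Finset.mul_sum] at h3
  simp only [← Finset.mul_sum] at h2 ht
  rw [h2, ← ht] at h3
  nlinarith

variable (F : Fd) {X Z : Sys} {C : MeasurableSpace X.X} {p : Bool → Z.X → X.X}

include F

lemma bmc {Y : Sys} {q : Z.X → Y.X} (hq : MeasurePreserving q Z.μ Y.μ) {f : Y.X → ℂ}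
    (hf : BM Y.μ Y.ms f) : BM Z.μ Z.ms fun z => f (q z) :=
  (F.a.bm_comp Y.ms Z.μ Y.μ q f hq hf).mono (F.a.pull_le Y.ms Z.μ Y.μ q hq le_rfl)

lemma bmT {f : X.X → ℂ} (hf : BM X.μ X.ms f) (n : ℤ) : BM X.μ X.ms fun x => f (X.Tz n x) :=
  F.t.bm X X.ms n f (F.t.top X) hf

lemma aeT {f g : X.X → ℂ} (h : f =ᵐ[X.μ] g) (n : ℤ) :
    (fun x => f (X.Tz n x)) =ᵐ[X.μ] fun x => g (X.Tz n x) :=
  (F.t.mp X n).quasiMeasurePreserving.ae_eq_comp h

omit F in
lemma intc {Y : Sys} {q : Z.X → Y.X} (hq : MeasurePreserving q Z.μ Y.μ) {f : Y.X → ℂ}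
    (hf : BM Y.μ Y.ms f) : ∫ z, f (q z) ∂Z.μ = ∫ y, f y ∂Y.μ := by
  rw [← integral_map hq.measurable.aemeasurable (by rw [hq.map_eq]; exact hf.1), hq.map_eq]

omit F in
lemma aec {Y : Sys} {q : Z.X → Y.X} (hq : MeasurePreserving q Z.μ Y.μ) {f g : Y.X → ℂ}
    (h : f =ᵐ[Y.μ] g) : (fun z => f (q z)) =ᵐ[Z.μ] fun z => g (q z) :=
  hq.quasiMeasurePreserving.ae_eq_comp h

omit F in
lemma cmle {Y : Sys} {q : Z.X → Y.X} (hq : MeasurePreserving q Z.μ Y.μ) : Y.ms.comap q ≤ Z.ms :=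
  hq.measurable.comap_le

omit F in
lemma bm_of {a : X.X → ℂ} (ha : Measurable[X.ms] a) {K : ℝ} (hK : ∀ x, ‖a x‖ ≤ K) : BM X.μ X.ms a :=
  ⟨ha.aestronglyMeasurable, _, Eventually.of_forall hK⟩

lemma aeP {P : X.X → Prop} (h : ∀ᵐ x ∂X.μ, P x) (n : ℤ) : ∀ᵐ x ∂X.μ, P (X.Tz n x) :=
  (F.t.mp X n).quasiMeasurePreserving.ae h

lemma invT {H : Z.X → ℂ} (hH : BM Z.μ (Inv Z) H) (n : ℤ) :
    (fun z => H (Z.Tz n z)) =ᵐ[Z.μ] H := by
  have h1 := (F.t.inv_iff Z H (hH.1.mono (F.t.finv Z).le)).1 hH.1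
  have h2 : ∀ n : ℤ, (fun z => H (Z.Tz (n + 1) z)) =ᵐ[Z.μ] fun z => H (Z.Tz n z) := by
    intro n
    have := aeT F h1 n
    simpa only [add_comm n 1, F.t.add, F.t.one] using this
  induction n using Int.induction_on with
  | zero => simp only [F.t.zero]; rfl
  | succ n ih => exact (h2 n).trans ih
  | pred n ih =>
    refine (h2 _).symm.trans ?_
    simpa only [sub_add_cancel] using ih

lemma embT {q : Z.X → X.X} (hq : Emb Z X q) {f : X.X → ℂ} (hf : BM X.μ X.ms f) (n : ℤ) :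
    (fun z => f (q (Z.Tz n z))) =ᵐ[Z.μ] fun z => f (X.Tz n (q z)) :=
  F.a.keq_fun X.ms Z.μ X.μ (q ∘ Z.Tz n) (X.Tz n ∘ q) f (hq.mp.comp (F.t.mp Z n))
    ((F.t.mp X n).comp hq.mp) (F.t.emb_z Z X q n hq) hf.1

lemma starT (hP : Pair X C Z p) {H : Z.X → ℂ} {g k : X.X → ℂ} (hH : BM Z.μ (Inv Z) H)
    (hg : BM X.μ X.ms g) (hk : BM X.μ X.ms k) (hS : Star p H g k) (n : ℤ) :
    Star p H (fun x => g (X.Tz n x)) fun x => k (X.Tz n x) := by
  have hH' : BM Z.μ Z.ms H := hH.mono (F.t.finv Z).le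
  have hb : BM Z.μ Z.ms fun z => H z * g (p true z) := hH'.mul (bmc F (hP.emb true).mp hg)
  refine (embT F (hP.emb false) hk n).symm.trans ((aeT F hS n).trans ?_)
  refine (F.t.ce Z _ n _ (F.t.fpull Z X _ _ (hP.emb false) (F.t.top X)) hb.integrable).symm.trans ?_
  refine condExp_congr_ae ?_
  filter_upwards [invT F hH n, embT F (hP.emb true) hg n] with z h1 h2
  rw [h1, h2]

lemma starC (hP : Pair X C Z p) {H : Z.X → ℂ} {g k : X.X → ℂ} (hH : BM Z.μ Z.ms H)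
    (hg : BM X.μ X.ms g) (hS : Star p H g k) :
    Star p (fun z => conj (H z)) (fun x => conj (g x)) fun x => conj (k x) := by
  have hb : BM Z.μ Z.ms fun z => H z * g (p true z) := hH.mul (bmc F (hP.emb true).mp hg)
  have h1 := Fib27.ce_conj (F.a.pull_le X.ms Z.μ X.μ _ (hP.emb false).mp le_rfl) hb
  simp only [map_mul] at h1
  refine EventuallyEq.trans ?_ h1.symm
  filter_upwards [hS] with z hz
  rw [hz]

lemma pairCE (hC : Fac X C) (hP : Pair X C Z p) {f : X.X → ℂ} (hf : BM X.μ X.ms f) :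
    (fun z => (X.μ[f | C]) (p false z)) =ᵐ[Z.μ]
      Z.μ[fun z => f (p true z) | pull Z.μ (p false) X.ms] := by
  have hid : pull X.μ id C = C := by
    rw [pull, MeasurableSpace.comap_id]
    exact sup_eq_left.2 hC.nl
  have hm := F.a.pull_le X.ms Z.μ X.μ _ (hP.emb false).mp le_rfl
  have hE : BM X.μ X.ms (X.μ[f | C]) := (hf.ce C).mono hC.le
  refine (Fib27.ce_eq_of_tests hm (bmc F (hP.emb true).mp hf)
    (F.a.bm_comp X.ms Z.μ X.μ _ _ (hP.emb false).mp hE) fun c hc => ?_).symm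
  obtain ⟨hc1, K, hK⟩ := hc
  obtain ⟨a, ha1, ha2, ha3⟩ := F.a.fact X.ms Z.μ (p false) c (max K 0)
    (cmle (hP.emb false).mp) (le_max_right _ _) hc1
    (hK.mono fun z hz => hz.trans (le_max_left _ _))
  have ha : BM X.μ X.ms a := bm_of ha1 ha2
  have hA : BM X.μ X.ms (X.μ[a | C]) := (ha.ce C).mono hC.le
  have h1 := hP.ind univ (fun b => cond b f a) (fun b _ => by cases b <;> assumption)
  simp only [Fintype.prod_bool, cond_true, cond_false, hid] at h1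
  have h2 := F.a.keq_fun C Z.μ X.μ (p true) (p false) (X.μ[f | C]) (hP.emb true).mp
    (hP.emb false).mp (hP.com true) (hf.ce C).1
  calc ∫ z, f (p true z) * c z ∂Z.μ = ∫ z, f (p true z) * a (p false z) ∂Z.μ := by
        refine integral_congr_ae ?_
        filter_upwards [ha3] with z hz
        rw [hz]
    _ = ∫ z, (X.μ[f | C]) (p true z) * (X.μ[a | C]) (p false z) ∂Z.μ := by
        rw [← integral_congr_ae h1,
          integral_condExp (F.a.pull_le C Z.μ X.μ (id ∘ p false) (hP.emb false).mp hC.le)]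
    _ = ∫ z, (X.μ[f | C]) (p false z) * (X.μ[a | C]) (p false z) ∂Z.μ := by
        refine integral_congr_ae ?_
        filter_upwards [h2] with z hz
        rw [hz]
    _ = ∫ x, (X.μ[f | C]) x * (X.μ[a | C]) x ∂X.μ := intc (hP.emb false).mp (hE.mul hA)
    _ = ∫ x, (X.μ[f | C]) x * a x ∂X.μ := Fib27.int_mul_ce hC.le (hf.ce C) ha
    _ = ∫ z, (X.μ[f | C]) (p false z) * a (p false z) ∂Z.μ :=
        (intc (hP.emb false).mp (hE.mul ha)).symm
    _ = _ := by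
        refine integral_congr_ae ?_
        filter_upwards [ha3] with z hz
        rw [hz]

lemma rpInt {J : Type} [Fintype J] {j0 : J} {q : Z.X → X.X} (hq : Emb Z X q) {W : Sys}
    {P : J → W.X → Z.X} (hW : IsRP (fun _ : J => Z) X X.ms (fun _ => q) j0 W P)
    (G : J → Z.X → ℂ) (u : J → X.X → ℂ) (hG : ∀ j, BM Z.μ Z.ms (G j))
    (hu : ∀ j, BM X.μ X.ms (u j))
    (h : ∀ j, (fun z => u j (q z)) =ᵐ[Z.μ] Z.μ[G j | pull Z.μ q X.ms]) :
    ∫ w, ∏ j, G j (P j w) ∂W.μ = ∫ x, ∏ j, u j x ∂X.μ := by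
  have hm : ∀ j, MeasurePreserving (q ∘ P j) W.μ X.μ := fun j => hq.mp.comp (hW.emb j).mp
  rw [← integral_condExp (F.a.pull_le X.ms W.μ X.μ _ (hm j0) le_rfl),
    integral_congr_ae (hW.ind univ G fun j _ => hG j),
    ← intc (hm j0) (bm_prod univ fun j _ => hu j)]
  refine integral_congr_ae ?_
  have h1 : ∀ j, ∀ᵐ w ∂W.μ, (Z.μ[G j | pull Z.μ q X.ms]) (P j w) = u j ((q ∘ P j0) w) := by
    intro j
    have h2 := (hW.emb j).mp.quasiMeasurePreserving.ae_eq_comp (h j)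
    have h3 := F.a.keq_fun X.ms W.μ X.μ _ _ (u j) (hm j) (hm j0) (hW.com j) (hu j).1
    exact h2.symm.trans h3
  filter_upwards [ae_all_iff.2 h1] with w hw
  exact Finset.prod_congr rfl fun j _ => hw j

lemma key (hC : Fac X C) (hP : Pair X C Z p) {J : Type} [Fintype J] (j0 : J) (H : J → Z.X → ℂ)
    (g k : J → X.X → ℂ) (h : ∀ j, BM Z.μ (Inv Z) (H j) ∧ BM X.μ X.ms (g j) ∧ BM X.μ X.ms (k j) ∧
      Star p (H j) (g j) (k j)) :
    ∃ K : ℝ, 0 ≤ K ∧ ∀ (N : ℕ), 1 ≤ N → ∀ (ρ : J → ℤ) (c : ℕ → ℕ → J → X.X → ℂ),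
      (∀ n n' j, BM X.μ X.ms (c n n' j)) →
      (∀ (n n' : ℕ) j, c n n' j =ᵐ[X.μ]
        X.μ[fun y => g j (X.Tz n y) * conj (g j (X.Tz n' y)) | C]) →
      ‖∫ x, ∏ j, k j (X.Tz (ρ j) x) ∂X.μ‖ ^ 2 ≤ K * ∑ n ∈ range N, ∑ n' ∈ range N,
        (N : ℝ)⁻¹ * (N : ℝ)⁻¹ * (∫ x, ∏ j, c n n' j (X.Tz (ρ j) x) ∂X.μ).re := by
  obtain ⟨W, P, hW⟩ := F.rp J (fun _ => Z) X X.ms (fun _ => p false) j0 (fun _ => hP.nice)
    (F.t.top X) (fun _ => (hP.emb false).mp) fun _ => F.t.emb_z Z X _ 1 (hP.emb false)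
  have hH : ∀ j, BM Z.μ Z.ms (H j) := fun j => (h j).1.mono (F.t.finv Z).le
  obtain ⟨-, K, hK⟩ : BM W.μ W.ms fun w => ∏ j, H j (P j w) :=
    bm_prod univ fun j _ => bmc F (hW.emb j).mp (hH j)
  have hΦ : BM W.μ W.ms fun w => ∏ j, H j (P j w) :=
    bm_prod univ fun j _ => bmc F (hW.emb j).mp (hH j)
  refine ⟨max K 0 ^ 2, sq_nonneg _, fun N hN ρ c hc hc' => ?_⟩
  have hgz : ∀ j (n : ℤ), BM Z.μ Z.ms fun z => g j (X.Tz n (X.Tz (ρ j) (p true z))) := fun j n =>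
    bmc F (hP.emb true).mp (bmT F (bmT F (h j).2.1 n) (ρ j))
  let Ψ : ℕ → W.X → ℂ := fun n w => ∏ j, g j (X.Tz n (X.Tz (ρ j) (p true (P j w))))
  have hΨ : ∀ n, BM W.μ W.ms (Ψ n) := fun n =>
    bm_prod univ fun j _ => bmc F (hW.emb j).mp (hgz j n)
  have e1 : ∀ n : ℕ, ∫ w, Ψ n w * ∏ j, H j (P j w) ∂W.μ = ∫ x, ∏ j, k j (X.Tz (ρ j) x) ∂X.μ := by
    intro n
    have h1 := rpInt F (hP.emb false) hW
      (fun j z => H j z * g j (X.Tz n (X.Tz (ρ j) (p true z))))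
      (fun j x => k j (X.Tz n (X.Tz (ρ j) x))) (fun j => (hH j).mul (hgz j n))
      (fun j => bmT F (bmT F (h j).2.2.1 n) (ρ j)) fun j =>
        starT F hP (h j).1 (bmT F (h j).2.1 n) (bmT F (h j).2.2.1 n)
          (starT F hP (h j).1 (h j).2.1 (h j).2.2.1 (h j).2.2.2 n) (ρ j)
    simp only [Finset.prod_mul_distrib] at h1
    simp only [Ψ, mul_comm _ (∏ j, H j (P j _))]
    rw [h1, ← intc (F.t.mp X n) (bm_prod univ fun j _ => bmT F (h j).2.2.1 (ρ j))]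
    simp only [← F.t.add, add_comm]
  have e2 : ∀ n n' : ℕ, ∫ w, Ψ n w * conj (Ψ n' w) ∂W.μ =
      ∫ x, ∏ j, c n n' j (X.Tz (ρ j) x) ∂X.μ := by
    intro n n'
    have hb : ∀ j, BM X.μ X.ms fun y => g j (X.Tz n y) * conj (g j (X.Tz n' y)) := fun j =>
      (bmT F (h j).2.1 n).mul (bmT F (h j).2.1 n').conj
    have h1 := rpInt F (hP.emb false) hW
      (fun j z => g j (X.Tz n (X.Tz (ρ j) (p true z))) *
        conj (g j (X.Tz n' (X.Tz (ρ j) (p true z)))))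
      (fun j x => c n n' j (X.Tz (ρ j) x)) (fun j => (hgz j n).mul (hgz j n').conj)
      (fun j => bmT F (hc n n' j) (ρ j)) fun j => by
        refine EventuallyEq.trans ?_ (pairCE F hC hP (bmT F (hb j) (ρ j)))
        exact aec (hP.emb false).mp
          ((aeT F (hc' n n' j) (ρ j)).trans (F.t.ce X C (ρ j) _ hC (hb j).integrable).symm)
    rw [← h1]
    simp only [Ψ, map_prod, Finset.prod_mul_distrib]
  have hN' : (N : ℂ) ≠ 0 := by exact_mod_cast (by omega : N ≠ 0)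
  have e3 : ∫ x, ∏ j, k j (X.Tz (ρ j) x) ∂X.μ =
      ∫ w, (∑ n ∈ range N, (N : ℝ)⁻¹ • Ψ n w) * ∏ j, H j (P j w) ∂W.μ := by
    rw [int_wsum (range N) (fun _ => (N : ℝ)⁻¹) (fun n _ => hΨ n) hΦ]
    simp only [e1, Finset.sum_const, Finset.card_range, nsmul_eq_mul]
    push_cast
    rw [← mul_assoc, mul_inv_cancel₀ hN', one_mul]
  rw [e3]
  refine (cs (le_max_right K 0) (hK.mono fun w hw => hw.trans (le_max_left _ _))
    (bm_wsum (range N) (fun _ => (N : ℝ)⁻¹) fun n _ => hΨ n)).trans (le_of_eq ?_)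
  rw [sq_wsum (range N) (fun _ => (N : ℝ)⁻¹) fun n _ => hΨ n]
  simp only [e2]

variable {ι : Type} [Fintype ι] [DecidableEq ι] (r : ι → ℤ)

omit [DecidableEq ι] in
lemma bm_avg {B : MeasurableSpace X.X} (hB : Fac X B) (ν : Wt) (M : ℕ) {f : ι → X.X → ℂ}
    (hf : ∀ i, BM X.μ B (f i)) : BM X.μ B (avg ν M X r f) :=
  bm_wsum (ν.sp M) (ν.w M) fun d _ => bm_prod univ fun i _ => F.t.bm X B _ _ hB (hf i)

omit [DecidableEq ι] in
lemma sq_avg (ν : Wt) (M : ℕ) {f : ι → X.X → ℂ} (hf : ∀ i, BM X.μ X.ms (f i)) :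
    ∫ x, ‖avg ν M X r f x‖ ^ 2 ∂X.μ = ∑ d ∈ ν.sp M, ∑ d' ∈ ν.sp M, ν.w M d * ν.w M d' *
      (∫ x, ∏ j : ι ⊕ ι, Sum.elim f (fun i y => conj (f i y)) j
        (X.Tz (Sum.elim (fun i => r i * d) (fun i => r i * d') j) x) ∂X.μ).re := by
  have := sq_wsum (μ := X.μ) (ν.sp M) (ν.w M) (f := fun d x => ∏ i, f i (X.Tz (r i * d) x))
    fun d _ => bm_prod univ fun i _ => bmT F (hf i) _
  simp only [Fintype.prod_sum_type, Sum.elim_inl, Sum.elim_inr, ← map_prod]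
  exact this

lemma drop (hC : Fac X C) (ν : Wt) (M : ℕ) {c : ι → X.X → ℂ} (hc : ∀ i, BM X.μ C (c i)) (i0 : ι)
    {G : X.X → ℂ} (hG : BM X.μ X.ms G) (h0 : c i0 = X.μ[G | C]) :
    ∫ x, ‖avg ν M X r c x‖ ^ 2 ∂X.μ ≤ ∫ x, ‖avg ν M X r (update c i0 G) x‖ ^ 2 ∂X.μ := by
  have hu : ∀ i, BM X.μ X.ms (update c i0 G i) := fun i => by
    rcases eq_or_ne i i0 with rfl | hi
    · rwa [update_self]
    · rw [update_of_ne hi]
      exact (hc i).mono hC.le
  have hv := bm_avg F r (F.t.top X) ν M hu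
  have h1 : X.μ[avg ν M X r (update c i0 G) | C] =ᵐ[X.μ] avg ν M X r c := by
    refine Fib27.ce_eq_of_tests hC.le hv (bm_avg F r hC ν M hc) fun t ht => ?_
    refine (int_wsum (ν.sp M) (ν.w M) (fun d _ => bm_prod univ fun i _ => bmT F (hu i) _)
      (ht.mono hC.le)).trans (Eq.trans ?_ (int_wsum (ν.sp M) (ν.w M)
        (fun d _ => bm_prod univ fun i _ => bmT F ((hc i).mono hC.le) _) (ht.mono hC.le)).symm)
    refine Finset.sum_congr rfl fun d _ => congrArg _ ?_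
    have hb : BM X.μ C fun x => (∏ i ∈ univ.erase i0, c i (X.Tz (r i * d) x)) * t x :=
      (bm_prod _ fun i _ => F.t.bm X C _ _ hC (hc i)).mul ht
    have e1 : ∀ x, (∏ i, update c i0 G i (X.Tz (r i * d) x)) * t x =
        G (X.Tz (r i0 * d) x) * ((∏ i ∈ univ.erase i0, c i (X.Tz (r i * d) x)) * t x) := by
      intro x
      rw [← Finset.mul_prod_erase univ _ (mem_univ i0), update_self, mul_assoc,
        Finset.prod_congr rfl fun i hi => by rw [update_of_ne (ne_of_mem_erase hi)]]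
    simp only [e1]
    rw [← Fib27.int_ce_mul hC.le (bmT F hG _) hb]
    refine integral_congr_ae ?_
    filter_upwards [F.t.ce X C (r i0 * d) G hC hG.integrable] with x hx
    rw [hx, ← Finset.mul_prod_erase univ _ (mem_univ i0), mul_assoc, h0]
  have h2 := (F.d.eqn C X.ms X.μ hC.le le_rfl _ (hv.memLp 2)).1
  refine le_trans (le_of_eq (integral_congr_ae ?_)) (h2.trans (le_of_eq (integral_congr_ae ?_)))
  · filter_upwards [h1] with x hx
    rw [hx]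
  · filter_upwards [hv.ce_self le_rfl] with x hx
    rw [hx]

lemma core {ν' ν'' : Wt} {B0 : MeasurableSpace X.X} (hB : B0 ≤ C) (hC : Fac X C)
    (hP : Pair X C Z p) (hGood : Good ν'' ν' X r C) (hG0 : G0 ν' X r B0) (H : ι → Z.X → ℂ)
    (g k : ι → X.X → ℂ) (i0 : ι)
    (h : ∀ i, BM Z.μ (Inv Z) (H i) ∧ BM X.μ X.ms (g i) ∧ BM X.μ X.ms (k i) ∧
      Star p (H i) (g i) (k i)) (hg1 : ∀ i, ∀ᵐ x ∂X.μ, ‖g i x‖ ≤ 1)
    (h0 : X.μ[g i0 | C] =ᵐ[X.μ] 0) :
    Tendsto (fun M => ∫ x, ‖avg ν'' M X r k x‖ ^ 2 ∂X.μ) atTop (𝓝 0) := by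
  obtain ⟨K, hK, hkey⟩ := key F hC hP (Sum.inl i0 : ι ⊕ ι) (Sum.elim H fun i z => conj (H i z))
    (Sum.elim g fun i y => conj (g i y)) (Sum.elim k fun i y => conj (k i y)) (by
      rintro (i | i)
      · exact h i
      · exact ⟨(h i).1.conj, (h i).2.1.conj, (h i).2.2.1.conj,
          starC F hP ((h i).1.mono (F.t.finv Z).le) (h i).2.1 (h i).2.2.2⟩)
  let G : ℕ → ℕ → ι → X.X → ℂ := fun n n' i y => g i (X.Tz n y) * conj (g i (X.Tz n' y))
  have hG : ∀ n n' i, BM X.μ X.ms (G n n' i) := fun n n' i =>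
    (bmT F (h i).2.1 n).mul (bmT F (h i).2.1 n').conj
  let c : ℕ → ℕ → ι → X.X → ℂ := fun n n' i => X.μ[G n n' i | C]
  have hc : ∀ n n' i, BM X.μ C (c n n' i) := fun n n' i => (hG n n' i).ce C
  have hc' : ∀ n n' i, BM X.μ X.ms (c n n' i) := fun n n' i => (hc n n' i).mono hC.le
  have hc1 : ∀ n n' i, ∀ᵐ x ∂X.μ, ‖c n n' i x‖ ≤ 1 := fun n n' i => by
    refine ae_bdd_norm_condExp_of_ae_bdd_norm ?_
    filter_upwards [aeP F (hg1 i) n, aeP F (hg1 i) n'] with x h1 h2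
    rw [norm_mul, Complex.norm_conj]
    exact mul_le_one₀ h1 (norm_nonneg _) h2
  have main : ∀ N M, 1 ≤ N → (∫ x, ‖avg ν'' M X r k x‖ ^ 2 ∂X.μ) ^ 2 ≤
      K * ∑ n ∈ range N, ∑ n' ∈ range N,
        (N : ℝ)⁻¹ * (N : ℝ)⁻¹ * ∫ x, ‖avg ν'' M X r (c n n') x‖ ^ 2 ∂X.μ := by
    intro N M hN
    rw [sq_avg F r ν'' M fun i => (h i).2.2.1]
    refine (jensen _ _ (ν''.nn M) (ν''.one M) _ _ fun d d' => le_trans
      ((sq_abs _).symm.trans_le (pow_le_pow_left₀ (abs_nonneg _) (Complex.abs_re_le_norm _) 2))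
      (hkey N hN (Sum.elim (fun i => r i * d) (fun i => r i * d'))
        (fun n n' => Sum.elim (c n n') fun i y => conj (c n n' i y)) ?_ ?_)).trans (le_of_eq ?_)
    · rintro n n' (i | i)
      · exact hc' n n' i
      · exact (hc' n n' i).conj
    · rintro n n' (i | i)
      · exact EventuallyEq.rfl
      · have := Fib27.ce_conj hC.le (hG n n' i)
        simp only [G, map_mul] at this
        exact this.symm
    · simp only [sq_avg F r ν'' M (hc' _ _), Finset.mul_sum]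
      simp only [Finset.sum_comm (s := ν''.sp M) (t := range N)]
      refine Finset.sum_congr rfl fun n _ => Finset.sum_congr rfl fun n' _ =>
        Finset.sum_congr rfl fun d _ => Finset.sum_congr rfl fun d' _ => by ring
  have hB0 : X.μ[g i0 | B0] =ᵐ[X.μ] 0 := by
    refine (condExp_condExp_of_le hB hC.le).symm.trans ((condExp_congr_ae h0).trans ?_)
    rw [condExp_zero]
  refine tendsto_order.2 ⟨fun a ha => Eventually.of_forall fun M =>
    ha.trans_le (integral_nonneg fun x => by positivity), fun ε hε => ?_⟩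
  have hδ : 0 < ε ^ 2 / (6 * K + 1) := by positivity
  obtain ⟨N, a, hN, ha, hs⟩ := hG0 (g i0) (h i0).2.1 (hg1 i0) hB0 i0 _ hδ
  have hev : ∀ n ∈ range N, ∀ n' ∈ range N, ∀ᶠ M in atTop,
      ∫ x, ‖avg ν'' M X r (c n n') x‖ ^ 2 ∂X.μ ≤ 4 * (ε ^ 2 / (6 * K + 1)) + 2 * a n n' := by
    intro n _ n' _
    filter_upwards [(tendsto_order.1 (hGood (c n n') (hc n n'))).2 _ hδ,
      hs n n' (c n n') _ (hc' n n') (hc1 n n') hδ] with M h1 h2
    have h3 := sq_le_two (bm_avg F r (F.t.top X) ν'' M (hc' n n'))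
      (bm_avg F r (F.t.top X) ν' M (hc' n n'))
    have h4 := (drop F r hC ν' M (hc n n') i0 (hG n n' i0) rfl).trans h2
    linarith
  filter_upwards [(Finset.eventually_all _).2 fun n hn => (Finset.eventually_all _).2 (hev n hn)]
    with M hM
  have hN' : (0 : ℝ) < N := by exact_mod_cast hN
  have h5 : ∑ n ∈ range N, ∑ n' ∈ range N,
      (N : ℝ)⁻¹ * (N : ℝ)⁻¹ * ∫ x, ‖avg ν'' M X r (c n n') x‖ ^ 2 ∂X.μ ≤
      6 * (ε ^ 2 / (6 * K + 1)) := by
    refine (Finset.sum_le_sum fun n hn => Finset.sum_le_sum fun n' hn' =>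
      mul_le_mul_of_nonneg_left (hM n hn n' hn') (by positivity)).trans ?_
    simp only [← Finset.mul_sum, Finset.sum_add_distrib, Finset.sum_const, Finset.card_range,
      nsmul_eq_mul]
    calc _ = (N : ℝ)⁻¹ * (N : ℝ)⁻¹ * (N * (N * (4 * (ε ^ 2 / (6 * K + 1)))) +
          2 * ∑ n ∈ range N, ∑ n' ∈ range N, a n n') := by ring
      _ ≤ (N : ℝ)⁻¹ * (N : ℝ)⁻¹ * (N * (N * (4 * (ε ^ 2 / (6 * K + 1)))) +
          2 * (ε ^ 2 / (6 * K + 1) * N ^ 2)) := by gcongr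
      _ = _ := by
        field_simp
        ring
  have h6 := (main N M hN).trans (mul_le_mul_of_nonneg_left h5 hK)
  have h7 : K * (6 * (ε ^ 2 / (6 * K + 1))) < ε ^ 2 := by
    have : ε ^ 2 = (6 * K + 1) * (ε ^ 2 / (6 * K + 1)) := by field_simp
    linarith
  exact lt_of_pow_lt_pow_left₀ 2 hε.le (h6.trans_lt h7)

end CptA

theorem cptA : CptAR := by
  intro F ν' ν'' X ι _ _ r B0 C Z p hX hB0 hC hB hP hGood hG0 H g k i0 h h0
  have hb : ∀ i, ∃ L : ℝ, 0 < L ∧ ∀ᵐ x ∂X.μ, ‖g i x‖ ≤ L := fun i => by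
    obtain ⟨L, hL⟩ := (h i).2.1.2
    exact ⟨max L 1, lt_max_of_lt_right one_pos, hL.mono fun x hx => hx.trans (le_max_left _ _)⟩
  choose L hL hLg using hb
  have hL' : ∀ i, (L i : ℂ) ≠ 0 := fun i => by exact_mod_cast (hL i).ne'
  refine CptA.core F r hB hC hP hGood hG0 (fun i z => (L i : ℂ) * H i z)
    (fun i x => (L i : ℂ)⁻¹ * g i x) k i0 (fun i => ⟨(h i).1.cmul _, (h i).2.1.cmul _,
      (h i).2.2.1, ?_⟩) (fun i => ?_) ?_
  · have e : (fun z => (L i : ℂ) * H i z * ((L i : ℂ)⁻¹ * g i (p true z))) =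
        fun z => H i z * g i (p true z) := by
      funext z
      have := hL' i
      field_simp
    unfold Star
    rw [e]
    exact (h i).2.2.2
  · filter_upwards [hLg i] with x hx
    rw [norm_mul, norm_inv, Complex.norm_real, Real.norm_of_nonneg (hL i).le,
      inv_mul_le_iff₀ (hL i), mul_one]
    exact hx
  · refine (Fib27.ce_cmul hC.le _ (h i0).2.1).trans ?_
    filter_upwards [h0] with x hx
    simp [hx]

end T3x

end
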