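import Mathlib
import Pool.Agent.MP_154433_an.fib.Final
import Pool.Agent.MP_154433_an.sg.NoGlob
import Pool.Agent.MP_154433_an.sg.Blk

/-! Definitions for the fixed-system theorem (note 154433_T3prime_h17). -/

set_option autoImplicit false
set_option linter.unusedVariables false
set_option warn.classDefReducibility false

open MeasureTheory ProbabilityTheory Filter Topology Function Finset ComplexConjugate
open scoped BigOperators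
open Fib27 (BM sup pr Oc Orow F23 LInd Mem)
open Pool.Agent.MP_154433_an.SG (Uni ufn)

noncomputable section

namespace T3x

/-! ### systems, factors, embeddings -/

structure Sys where
  X : Type
  [ms : MeasurableSpace X]
  μ : Measure X
  [pr : IsProbabilityMeasure μ]
  T : X ≃ᵐ X
  mp : MeasurePreserving T μ μ

attribute [instance] Sys.ms Sys.pr

def Sys.Tz (Y : Sys) (n : ℤ) : Y.X → Y.X := ⇑((Y.T.toEquiv : Equiv.Perm Y.X) ^ n)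

/-- the same space with the identity map -/
def Sys.frz (Y : Sys) : Sys :=
  { X := Y.X, μ := Y.μ, T := MeasurableEquiv.refl _, mp := MeasurePreserving.id _ }

/-- the sigma-algebra generated by the measurable null sets -/
def nul {Ω : Type} {m0 : MeasurableSpace Ω} (μ : Measure Ω) : MeasurableSpace Ω :=
  MeasurableSpace.generateFrom {A | MeasurableSet A ∧ μ A = 0}

def pull {Ω Ω' : Type} {m0 : MeasurableSpace Ω} (μ : Measure Ω) (p : Ω → Ω')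
    (B : MeasurableSpace Ω') : MeasurableSpace Ω := B.comap p ⊔ nul μ

/-- two maps pull the sets of `B` back to the same sets up to null sets -/
def KEq {Ω Ω' : Type} {m0 : MeasurableSpace Ω} (μ : Measure Ω) (B : MeasurableSpace Ω')
    (p p' : Ω → Ω') : Prop := ∀ A, MeasurableSet[B] A → p ⁻¹' A =ᵐ[μ] p' ⁻¹' A

structure Fac (Y : Sys) (B : MeasurableSpace Y.X) : Prop where
  le : B ≤ Y.ms
  nl : nul Y.μ ≤ B
  inv : B.comap (Y.Tz 1) ≤ B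
  inv' : B.comap (Y.Tz (-1)) ≤ B

structure Emb (Y X : Sys) (p : Y.X → X.X) : Prop where
  mp : MeasurePreserving p Y.μ X.μ
  eqv : KEq Y.μ X.ms (p ∘ Y.T) (X.T ∘ p)

/-- the invariant factor -/
def Inv (Y : Sys) : MeasurableSpace Y.X := MeasurableSpace.invariants Y.T ⊔ nul Y.μ

/-- `Y` and `C` are conditionally independent over `D` (used with `D ≤ C`) -/
def CP {Ω : Type} (Y D C : MeasurableSpace Ω) {m0 : MeasurableSpace Ω} (μ : Measure Ω) : Prop :=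
  ∀ f, BM μ Y f → μ[f | C] =ᵐ[μ] μ[f | D]

/-- conditional independence over `β` of the members of `p` with index in `S` -/
def CInd {Ω ι : Type} (β : MeasurableSpace Ω) (p : ι → MeasurableSpace Ω) (S : Finset ι)
    {m0 : MeasurableSpace Ω} (μ : Measure Ω) : Prop :=
  ∀ f : ι → Ω → ℂ, (∀ k ∈ S, BM μ (p k) (f k)) →
    μ[pr f S | β] =ᵐ[μ] fun x => ∏ k ∈ S, (μ[f k | β]) x

def CLine {Ω ι : Type} [Fintype ι] (β : MeasurableSpace Ω) (p : ι → MeasurableSpace Ω)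
    {m0 : MeasurableSpace Ω} (μ : Measure Ω) : Prop :=
  ∀ S : Finset ι, S ≠ univ → CInd β p S μ

/-- unimodular and a.e. `m`-measurable -/
def Um {Ω : Type} (m : MeasurableSpace Ω) {m0 : MeasurableSpace Ω} (μ : Measure Ω) (φ : Ω → ℂ) :
    Prop := AEStronglyMeasurable[m] φ μ ∧ ∀ᵐ x ∂μ, ‖φ x‖ = 1

/-- the event on which a unimodular function is determined by the base -/
def Th {Ω : Type} (β : MeasurableSpace Ω) {m0 : MeasurableSpace Ω} (μ : Measure Ω) (F : Ω → ℂ) :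
    Set Ω := {x | ‖(μ[F | β]) x‖ = 1}

/-! ### realisation of a positive functional on the space of characters -/

def Bdd (Ω : Type) [MeasurableSpace Ω] : Set (Ω → ℂ) :=
  {f | Measurable f ∧ ∃ C : ℝ, ∀ x, ‖f x‖ ≤ C}

structure SAlg {S : Type} (A : Set (S → ℂ)) : Prop where
  const : ∀ c : ℂ, (fun _ => c) ∈ A
  add : ∀ F ∈ A, ∀ G ∈ A, (fun s => F s + G s) ∈ A
  mul : ∀ F ∈ A, ∀ G ∈ A, (fun s => F s * G s) ∈ A
  cj : ∀ F ∈ A, (fun s => conj (F s)) ∈ A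
  bdd : ∀ F ∈ A, ∃ C : ℝ, ∀ s, ‖F s‖ ≤ C

structure IsChar {S : Type} (A : Set (S → ℂ)) (χ : (S → ℂ) → ℂ) : Prop where
  const : ∀ c : ℂ, χ (fun _ => c) = c
  add : ∀ F ∈ A, ∀ G ∈ A, χ (fun s => F s + G s) = χ F + χ G
  mul : ∀ F ∈ A, ∀ G ∈ A, χ (fun s => F s * G s) = χ F * χ G
  cj : ∀ F ∈ A, χ (fun s => conj (F s)) = conj (χ F)
  bdd : ∀ F ∈ A, ∀ C : ℝ, (∀ s, ‖F s‖ ≤ C) → ‖χ F‖ ≤ C

def gen {S Ω : Type} (A : Set (S → ℂ)) (hat : (S → ℂ) → Ω → ℂ) : MeasurableSpace Ω :=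
  ⨆ F ∈ A, MeasurableSpace.comap (hat F) inferInstance

/-- algebra maps that keep the integral come from point maps -/
def Nice (X : Sys) : Prop :=
  ∀ (Y : Type) [MeasurableSpace Y] (κ : Measure Y) [IsProbabilityMeasure κ]
    (φ : (X.X → ℂ) → Y → ℂ), (∀ y, IsChar (Bdd X.X) fun F => φ F y) →
    (∀ F ∈ Bdd X.X, Measurable (φ F)) → (∀ F ∈ Bdd X.X, ∫ y, φ F y ∂κ = ∫ x, F x ∂X.μ) →
    ∃ p : Y → X.X, MeasurePreserving p κ X.μ ∧ ∀ F ∈ Bdd X.X, (fun y => F (p y)) =ᵐ[κ] φ F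

structure Realz {S : Type} (A : Set (S → ℂ)) (Λ : (S → ℂ) → ℂ) (t : S → S) (W : Sys)
    (hat : (S → ℂ) → W.X → ℂ) : Prop where
  nice : Nice W
  ch : ∀ w, IsChar A fun F => hat F w
  all : ∀ χ, IsChar A χ → ∃ w, ∀ F ∈ A, hat F w = χ F
  gn : W.ms = gen A hat
  int : ∀ F ∈ A, ∫ w, hat F w ∂W.μ = Λ F
  eqv : ∀ F ∈ A, ∀ w, hat (fun s => F (t s)) w = hat F (W.T w)

/-- relative product of the `X i` over the factor `D` of `C` -/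
structure IsRP {ι : Type} (X : ι → Sys) (C : Sys) (D : MeasurableSpace C.X)
    (q : ∀ i, (X i).X → C.X) (i0 : ι) (Z : Sys) (p : ∀ i, Z.X → (X i).X) : Prop where
  nice : Nice Z
  emb : ∀ i, Emb Z (X i) (p i)
  com : ∀ i, KEq Z.μ D (q i ∘ p i) (q i0 ∘ p i0)
  ind : ∀ (S : Finset ι) (f : ∀ i, (X i).X → ℂ), (∀ i ∈ S, BM (X i).μ (X i).ms (f i)) →
    Z.μ[fun z => ∏ i ∈ S, f i (p i z) | pull Z.μ (q i0 ∘ p i0) D] =ᵐ[Z.μ]
      fun z => ∏ i ∈ S, ((X i).μ[f i | pull (X i).μ (q i) D]) (p i z)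
  gn : Z.ms ≤ ⨆ i, pull Z.μ (p i) (X i).ms

/-- relative square of `X` over the factor `C` -/
def Pair (X : Sys) (C : MeasurableSpace X.X) (Z : Sys) (p : Bool → Z.X → X.X) : Prop :=
  IsRP (fun _ : Bool => X) X C (fun _ => id) false Z p

/-- `k` is the convolution of the kernel `H` with `g` -/
def Star {X Z : Sys} (p : Bool → Z.X → X.X) (H : Z.X → ℂ) (g k : X.X → ℂ) : Prop :=
  (fun z => k (p false z)) =ᵐ[Z.μ] Z.μ[fun z => H z * g (p true z) | pull Z.μ (p false) X.ms]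

/-! ### weights, labels, lines -/

structure Wt where
  sp : ℕ → Finset ℤ
  w : ℕ → ℤ → ℝ
  nn : ∀ M d, 0 ≤ w M d
  one : ∀ M, ∑ d ∈ sp M, w M d = 1

abbrev Lab : Type := ℕ × ℤ × ℤ

abbrev Slot : Type := ℤ × Bool

def rho (s : Slot) (l : Lab) : ℤ := s.1 * (if s.2 then l.2.1 else l.2.2)

def Wt.av {E : Type} [AddCommMonoid E] [Module ℝ E] (ν : Wt) (M : ℕ) (φ : ℤ → E) : E :=
  ∑ d ∈ ν.sp M, ν.w M d • φ d

def Wt.av2 {E : Type} [AddCommMonoid E] [Module ℝ E] (ν : Wt) (M : ℕ) (φ : Lab → E) : E :=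
  ν.av M fun d => ν.av M fun d' => φ (M, d, d')

/-- ergodic weights -/
def ERG (ν : Wt) : Prop :=
  ∀ (H : Type) [NormedAddCommGroup H] [InnerProductSpace ℂ H] [CompleteSpace H]
    (V : H ≃ₗᵢ[ℂ] H) (v : H), (∀ u, V u = u → inner ℂ u v = 0) →
    Tendsto (fun M => ν.av M fun d => (V ^ d) v) atTop (𝓝 0)

/-- asymptotically invariant weights -/
def INVW (ν : Wt) : Prop :=
  ∀ (h : ℤ) (ε : ℝ), 0 < ε → ∀ᶠ M in atTop, ∀ φ : ℤ → ℂ, (∀ d, ‖φ d‖ ≤ 1) →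
    ‖ν.av M (fun d => φ (d + h)) - ν.av M φ‖ ≤ ε

/-- bounded families of `B`-measurable functions -/
def FamS {Ω : Type} (B : MeasurableSpace Ω) : Set (Lab × Ω → ℂ) :=
  {F | (∀ l, Measurable[B] fun x => F (l, x)) ∧ ∃ C : ℝ, ∀ s, ‖F s‖ ≤ C}

/-- the limit system of the labelled families -/
structure Ln (ν : Wt) (U : Ultrafilter ℕ) (X : Sys) where
  W : Sys
  hat : (Lab × X.X → ℂ) → W.X → ℂ
  π : Slot → W.X → X.X
  nice : Nice W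
  ch : ∀ w, IsChar (FamS X.ms) fun F => hat F w
  all : ∀ χ, IsChar (FamS X.ms) χ → ∃ w, ∀ F ∈ FamS X.ms, hat F w = χ F
  gn : W.ms = gen (FamS X.ms) hat
  lim : ∀ F ∈ FamS X.ms, Tendsto (fun M => ν.av2 M fun l => ∫ x, F (l, x) ∂X.μ) U
    (𝓝 (∫ w, hat F w ∂W.μ))
  eqv : ∀ F ∈ FamS X.ms, ∀ w, hat (fun s => F (s.1, X.T s.2)) w = hat F (W.T w)
  emb : ∀ s, Emb W X (π s)
  slot : ∀ s, ∀ f ∈ Bdd X.X,
    (fun w => f (π s w)) =ᵐ[W.μ] hat fun z => f (X.Tz (rho s z.1) z.2)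

variable {ν : Wt} {U : Ultrafilter ℕ}

/-- the internal base -/
def Ln.shp {X : Sys} (L : Ln ν U X) (B : MeasurableSpace X.X) : MeasurableSpace L.W.X :=
  gen (FamS B) L.hat ⊔ nul L.W.μ

/-- the point in slot `s` -/
def Ln.P {X : Sys} (L : Ln ν U X) (s : Slot) : MeasurableSpace L.W.X := pull L.W.μ (L.π s) X.ms

/-- the set described by a family of sets -/
def Ln.hs {X : Sys} (L : Ln ν U X) (A : Lab → Set X.X) : Set L.W.X :=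
  {w | L.hat (fun z => (A z.1).indicator (fun _ => (1 : ℂ)) z.2) w = 1}

structure IsLift {X' X : Sys} (L' : Ln ν U X') (L : Ln ν U X) (p : X'.X → X.X)
    (Lp : L'.W.X → L.W.X) : Prop where
  emb : Emb L'.W L.W Lp
  hat : ∀ F ∈ FamS X.ms, (fun w => L.hat F (Lp w)) =ᵐ[L'.W.μ] L'.hat fun z => F (z.1, p z.2)

/-! ### weak mixing, the operation `KK`, the hull -/

def WM (X : Sys) (B : MeasurableSpace X.X) (f : X.X → ℂ) : Prop :=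
  MemLp f 2 X.μ ∧ ∀ g, BM X.μ X.ms g → Tendsto (fun N : ℕ => (N : ℝ)⁻¹ *
    ∑ n ∈ range N, ∫ x, ‖(X.μ[fun y => f (X.Tz n y) * g y | B]) x‖ ∂X.μ) atTop (𝓝 0)

def KK (X : Sys) (B : MeasurableSpace X.X) : MeasurableSpace X.X :=
  gen {g ∈ @Bdd X.X X.ms | ∀ f, WM X B f → ∫ x, f x * g x ∂X.μ = 0} id ⊔ nul X.μ

def KC (X : Sys) (B : MeasurableSpace X.X) : Prop := Fac X B ∧ KK X B ≤ B

def hull (X : Sys) (B : MeasurableSpace X.X) : MeasurableSpace X.X := sInf {C | B ≤ C ∧ KC X C}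

/-- `Y` is relatively weakly mixing over `D` -/
def RWM (X : Sys) (Y D : MeasurableSpace X.X) : Prop :=
  ∀ f, BM X.μ Y f → X.μ[f | D] =ᵐ[X.μ] 0 → WM X D f

structure Adm (X' : Sys) (B' : MeasurableSpace X'.X) (X : Sys) (B : MeasurableSpace X.X)
    (p : X'.X → X.X) : Prop where
  nice : Nice X'
  emb : Emb X' X p
  kc : KC X' B'
  le : pull X'.μ p B ≤ B'
  cp : CP (pull X'.μ p X.ms) (pull X'.μ p B) B' X'.μ

def Ln.B2 {X : Sys} (L : Ln ν U X) (B : MeasurableSpace X.X) : MeasurableSpace L.W.X :=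
  hull L.W (L.shp B)

/-- the slots with index in `S` are conditionally independent over `D` -/
def IndOver {X : Sys} (L : Ln ν U X) (B : MeasurableSpace X.X) (D : MeasurableSpace L.W.X)
    {ι : Type} (sl : ι → Slot) (S : Finset ι) : Prop :=
  ∀ f : ι → X.X → ℂ, (∀ i ∈ S, BM X.μ X.ms (f i)) →
    L.W.μ[fun w => ∏ i ∈ S, f i (L.π (sl i) w) | D] =ᵐ[L.W.μ]
      fun w => ∏ i ∈ S, (X.μ[f i | B]) (L.π (sl i) w)

def IND (ν : Wt) (U : Ultrafilter ℕ) (n : ℕ) : Prop :=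
  ∀ (X : Sys) (B : MeasurableSpace X.X) (L : Ln ν U X) (ι : Type) (sl : ι → Slot) (S : Finset ι),
    Nice X → KC X B → Set.InjOn sl S → (∀ i ∈ S, (sl i).1 ≠ 0) → S.card ≤ n →
    IndOver L B (L.shp B) sl S

/-- the other slots together with the base -/
def Ln.OB {X : Sys} (L : Ln ν U X) (B : MeasurableSpace X.X) {ι : Type} [Fintype ι]
    [DecidableEq ι] (sl : ι → Slot) (q : ι) : MeasurableSpace L.W.X :=
  sup (fun k => L.P (sl k)) (univ.erase q) ⊔ L.B2 B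

def SAT {X : Sys} (L : Ln ν U X) (B : MeasurableSpace X.X) {ι : Type} [Fintype ι] [DecidableEq ι]
    (sl : ι → Slot) : Prop :=
  ∀ (X' : Sys) (B' : MeasurableSpace X'.X) (p : X'.X → X.X) (L' : Ln ν U X')
    (Lp : L'.W.X → L.W.X), Adm X' B' X B p → IsLift L' L p Lp → ∀ (q : ι) (f : X.X → ℂ),
    BM X.μ X.ms f →
    L'.W.μ[fun w => f (L.π (sl q) (Lp w)) | L'.OB B' sl q] =ᵐ[L'.W.μ]
      fun w => (L.W.μ[fun v => f (L.π (sl q) v) | L.OB B sl q]) (Lp w)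

/-! ### grids -/

section Grid

variable {Ω ι : Type} [Fintype ι] [DecidableEq ι]

/-- half grid over a base -/
structure HG (β : MeasurableSpace Ω) (G : ι → ι → MeasurableSpace Ω) {m0 : MeasurableSpace Ω}
    (μ : Measure Ω) : Prop where
  le : ∀ q j, G q j ≤ m0
  ble : β ≤ m0
  rows : CLine β (fun q => sup (G q) univ) μ
  cols : CLine β (fun j => sup (fun q => G q j) univ) μ
  f2c : ∀ q j a, BM μ (G q j) a → BM μ (G q j ⊔ β) (μ[a | Oc G q j ⊔ β])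
  f2r : ∀ q j a, BM μ (G q j) a → BM μ (G q j ⊔ β) (μ[a | Orow G q j ⊔ β])
  f3 : ∀ (q : ι) (a : ι → Ω → ℂ) (ψ : Ω → ℂ), (∀ k, BM μ (G q k) (a k)) → BM μ β ψ → ∀ j j',
    ∫ x, ψ x * ((μ[a j | Oc G q j ⊔ β]) x * pr a (univ.erase j) x) ∂μ =
      ∫ x, ψ x * ((μ[a j' | Oc G q j' ⊔ β]) x * pr a (univ.erase j') x) ∂μ

/-- functions at a point that are determined by the row and by the column -/
def VV (β : MeasurableSpace Ω) (G : ι → ι → MeasurableSpace Ω) (q j : ι)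
    {m0 : MeasurableSpace Ω} (μ : Measure Ω) (h : Ω → ℂ) : Prop :=
  BM μ (G q j ⊔ β) h ∧ BM μ (Oc G q j ⊔ β) h ∧ BM μ (Orow G q j ⊔ β) h

/-- half grid in one fibre -/
structure HGrid {m0 : MeasurableSpace Ω} (κ : Measure Ω) (G : ι → ι → MeasurableSpace Ω) :
    Prop where
  le : ∀ q j, G q j ≤ m0
  rows : LInd κ (fun q => sup (G q) univ)
  cols : LInd κ (fun j => sup (fun q => G q j) univ)
  fr : ∀ q, F23 κ (G q) (Oc G q)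
  f2r : ∀ q j a, BM κ (G q j) a → BM κ (G q j) (κ[a | Orow G q j])

/-- the event on which the labels contain approximate tuples of every precision near `v0` -/
def DS (β : MeasurableSpace Ω) {m0 : MeasurableSpace Ω} (μ : Measure Ω) (v : ℕ → ι → Ω → ℂ)
    (v0 : ι → Ω → ℂ) (η : ℝ) : Set Ω :=
  ⋂ n : ℕ, ⋃ i : ℕ, {x | 1 - (1 / 4 : ℝ) ^ n ≤ ‖(μ[pr (v i) univ | β]) x‖ ∧
    ∀ k, (μ[fun y => ‖v i k y - v0 k y‖ ^ 2 | β]) x ≤ η ^ 2}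

/-- a label: bounded by one and a.e. measurable for the point -/
def Lb (m : MeasurableSpace Ω) {m0 : MeasurableSpace Ω} (μ : Measure Ω) (v : Ω → ℂ) : Prop :=
  AEStronglyMeasurable[m] v μ ∧ ∀ x, ‖v x‖ ≤ 1

abbrev Cf (ι : Type) : Type := ι × ι → ℕ → Bool

def PC (q j : ι) : MeasurableSpace (Cf ι) :=
  MeasurableSpace.comap (fun ω : Cf ι => ω (q, j)) inferInstance

end Grid

/-- the data of the induction step -/
structure Ctx where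
  ν : Wt
  U : Ultrafilter ℕ
  hU : (U : Filter ℕ) ≤ atTop
  erg : ERG ν
  ι : Type
  [fin : Fintype ι]
  [dec : DecidableEq ι]
  sl : ι → Slot
  inj : Injective sl
  ne : ∀ i, (sl i).1 ≠ 0
  three : 3 ≤ Fintype.card ι
  ind : IND ν U (Fintype.card ι - 1)
  X : Sys
  B : MeasurableSpace X.X
  nice : Nice X
  kc : KC X B
  L : Ln ν U X
  L2 : Ln ν U L.W
  Bc : ι → L2.W.X → L.W.X
  lift : ∀ j, IsLift L2 L (L.π (sl j)) (Bc j)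

attribute [instance] Ctx.fin Ctx.dec

namespace Ctx

variable (c : Ctx)

abbrev W : Sys := c.L.W
abbrev W2 : Sys := c.L2.W
def π (k : c.ι) : c.W.X → c.X.X := c.L.π (c.sl k)
def A (q : c.ι) : c.W2.X → c.W.X := c.L2.π (c.sl q)
def P (k : c.ι) : MeasurableSpace c.W.X := c.L.P (c.sl k)
def B2 : MeasurableSpace c.W.X := c.L.B2 c.B
def β : MeasurableSpace c.W2.X := c.L2.B2 c.B2
def G (q j : c.ι) : MeasurableSpace c.W2.X := pull c.W2.μ (c.π j ∘ c.A q) c.X.ms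
def Sat : Prop := SAT c.L c.B c.sl
def Fail : Prop := ¬ IndOver c.L c.B (c.L.shp c.B) c.sl univ

/-- independence in the grid (no saturation needed) -/
structure GI : Prop where
  line : ∀ S : Finset c.ι, S ≠ univ → IndOver c.L c.B c.B2 c.sl S
  cline : CLine c.B2 c.P c.W.μ
  col : ∀ q j, KEq c.W2.μ c.X.ms (c.π j ∘ c.A q) (c.π q ∘ c.Bc j)
  rows : CLine c.β (fun q => pull c.W2.μ (c.A q) c.W.ms) c.W2.μ
  cols : CLine c.β (fun j => pull c.W2.μ (c.Bc j) c.W.ms) c.W2.μ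
  rowB : ∀ q, pull c.W2.μ (c.A q) c.B2 ≤ c.β
  colB : ∀ j, pull c.W2.μ (c.Bc j) c.B2 ≤ c.β
  rowE : ∀ q g, BM c.W.μ c.W.ms g →
    c.W2.μ[fun x => g (c.A q x) | c.β] =ᵐ[c.W2.μ] fun x => (c.W.μ[g | c.B2]) (c.A q x)
  colE : ∀ j g, BM c.W.μ c.W.ms g →
    c.W2.μ[fun x => g (c.Bc j x) | c.β] =ᵐ[c.W2.μ] fun x => (c.W.μ[g | c.B2]) (c.Bc j x)

/-- the conditional expectation on the rest of the line keeps the point -/
def F2 : Prop := ∀ q a, BM c.W.μ (c.P q) a →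
  BM c.W.μ (c.P q ⊔ c.B2) (c.W.μ[a | c.L.OB c.B c.sl q])

def F3 : Prop := ∀ (q : c.ι) (a : c.ι → c.W2.X → ℂ) (ψ : c.W2.X → ℂ),
  (∀ k, BM c.W2.μ (c.G q k) (a k)) → BM c.W2.μ c.β ψ → ∀ j j',
    ∫ x, ψ x * ((c.W2.μ[a j | Oc c.G q j ⊔ c.β]) x * pr a (univ.erase j) x) ∂c.W2.μ =
      ∫ x, ψ x * ((c.W2.μ[a j' | Oc c.G q j' ⊔ c.β]) x * pr a (univ.erase j') x) ∂c.W2.μ

def Tup1 (φ : c.ι → c.W.X → ℂ) : Prop := ∀ k, Um (c.P k ⊔ c.B2) c.W.μ (φ k)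

def Θ (φ : c.ι → c.W.X → ℂ) : Set c.W.X := Th c.B2 c.W.μ (pr φ univ)

def up (g : c.ι → Uni c.X.X) : c.ι → c.W.X → ℂ := fun k w => ufn (g k) (c.π k w)

def TupU (φ : c.ι → c.W.X → ℂ) : Prop := ∃ g, φ = c.up g

/-- the members of the column tuples of the class span -/
def GSp (C : (c.ι → c.W.X → ℂ) → Prop) : Prop :=
  ∀ (q j : c.ι) (h : c.W2.X → ℂ), VV c.β c.G q j c.W2.μ h → ¬ h =ᵐ[c.W2.μ] 0 →
    ∃ φ, C φ ∧ c.W2.μ (c.Bc j ⁻¹' c.Θ φ ∩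
      {x | (c.W2.μ[fun y => h y * φ q (c.Bc j y) | c.β]) x ≠ 0}) ≠ 0

def Full (C : (c.ι → c.W.X → ℂ) → Prop) : Prop :=
  ∀ (q j : c.ι) (φ : c.ι → c.W.X → ℂ) (E : Set c.W2.X) (a : c.ι → c.W2.X → ℂ), C φ →
    MeasurableSet[c.β] E → E ≤ᵐ[c.W2.μ] c.Bc j ⁻¹' c.Θ φ →
    (∀ i, BM c.W2.μ (c.G q i ⊔ c.β) (a i)) →
    c.W2.μ (E ∩ {x | (c.W2.μ[fun y => φ q (c.Bc j y) * pr a (univ.erase j) y | c.β]) x ≠ 0}) ≠ 0 →
    ∃ (E' : Set c.W2.X) (Φ : c.ι → c.ι → c.W.X → ℂ), MeasurableSet[c.β] E' ∧ E' ⊆ E ∧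
      c.W2.μ E' ≠ 0 ∧ (∀ i, C (Φ i)) ∧ Φ j = φ ∧ (∀ i, E' ≤ᵐ[c.W2.μ] c.Bc i ⁻¹' c.Θ (Φ i)) ∧
      ∀ k, E' ≤ᵐ[c.W2.μ] Th c.β c.W2.μ fun x => ∏ i, Φ i k (c.Bc i x)

/-- the event on which `g` in slot `k` is not determined by the base -/
def Nt (k : c.ι) (g : c.X.X → ℂ) : Set c.W.X := {w | ‖(c.X.μ[g | c.B]) (c.π k w)‖ ≠ 1}

def T5 (g : c.ι → Uni c.X.X) : Prop := ∃ j, c.W.μ (c.Θ (c.up g) ∩ c.Nt j (ufn (g j))) ≠ 0

def CL : Prop := ∀ (q j k : c.ι) (g h : c.ι → Uni c.X.X) (Z : Set c.W.X), h q = g j →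
  MeasurableSet[c.B2] Z → (∀ g' : c.ι → Uni c.X.X, g' q = g k → c.Θ (c.up g') ≤ᵐ[c.W.μ] Z) →
  (c.Bc q ⁻¹' c.Θ (c.up g) ∩ c.A j ⁻¹' c.Θ (c.up h) : Set c.W2.X) ≤ᵐ[c.W2.μ] c.A k ⁻¹' Z

/-- membership in a tuple with entries in `𝒱` -/
def ZV (𝒱 : Subgroup (Uni c.X.X)) (q : c.ι) (g : Uni c.X.X) : Set c.W.X :=
  ⋃ g' ∈ {g' : c.ι → Uni c.X.X | (∀ k, g' k ∈ 𝒱) ∧ g' q = g}, c.Θ (c.up g')

/-- a countable invariant group that contains enough partners; `s` is composition with `T` -/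
structure Exh (𝒱 : Subgroup (Uni c.X.X)) (s : 𝒱 ≃* 𝒱) : Prop where
  cnt : Countable 𝒱
  sh : ∀ (g : 𝒱) (x : c.X.X), ufn (s g).1 x = ufn g.1 (c.X.T x)
  exh : ∀ (q : c.ι) (g' : c.ι → Uni c.X.X), g' q ∈ 𝒱 →
    c.Θ (c.up g') ≤ᵐ[c.W.μ] c.ZV 𝒱 q (g' q)

/-- the extension that carries independent samples of labels and a frozen second copy -/
structure Hat where
  Xh : Sys
  e : ℕ × c.ι → Xh.X → c.W.X
  i0 : c.ι
  rp : IsRP (fun _ : ℕ × c.ι => c.W) c.X c.X.ms (fun a => c.π a.2) (0, i0) Xh e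
  X1 : Sys
  p1 : X1.X → Xh.X
  p2 : X1.X → Xh.X
  emb1 : Emb X1 Xh p1
  emb2 : Emb X1 Xh.frz p2
  com : KEq X1.μ (Inv Xh) p1 p2
  ind : ∀ f g, BM Xh.μ Xh.ms f → BM Xh.μ Xh.ms g →
    ∫ x, f (p1 x) * g (p2 x) ∂X1.μ = ∫ y, (Xh.μ[f | Inv Xh]) y * (Xh.μ[g | Inv Xh]) y ∂Xh.μ
  B1 : MeasurableSpace X1.X
  adm : Adm X1 B1 c.X c.B (c.π i0 ∘ e (0, i0) ∘ p1)
  le1 : ∀ a, pull X1.μ (e a ∘ p1) c.B2 ≤ B1
  le2 : pull X1.μ p2 Xh.ms ≤ B1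
  L1 : Ln c.ν c.U X1
  Lp : L1.W.X → c.W.X
  lift : IsLift L1 c.L (c.π i0 ∘ e (0, i0) ∘ p1) Lp

variable {c}

def Hat.p (H : c.Hat) : H.X1.X → c.X.X := c.π H.i0 ∘ H.e (0, H.i0) ∘ H.p1

def Hat.π (H : c.Hat) (k : c.ι) : H.L1.W.X → H.X1.X := H.L1.π (c.sl k)

/-- the type of `g` at a point -/
def Hat.τ (H : c.Hat) (𝒱 : Subgroup (Uni c.X.X)) (g : Uni c.X.X) (y : H.Xh.X) (a : ℕ × c.ι) :
    Prop := H.e a y ∈ c.ZV 𝒱 a.2 g

/-- the facts on types in the line over the extension -/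
structure Hat.Ty (H : c.Hat) (𝒱 : Subgroup (Uni c.X.X)) : Prop where
  ta : ∀ (g : c.ι → Uni c.X.X) (j k : c.ι), (∀ i, g i ∈ 𝒱) → ∀ᵐ w ∂H.L1.W.μ,
    H.Lp w ∈ c.Θ (c.up g) → H.τ 𝒱 (g j) (H.p1 (H.π j w)) = H.τ 𝒱 (g k) (H.p1 (H.π k w))
  tb : ∀ (q : c.ι), ∀ g ∈ 𝒱, ∀ g' ∈ 𝒱, ∀ᵐ w ∂H.L1.W.μ,
    (∀ i, H.τ 𝒱 g' (H.p1 (H.π q w)) (i, q) → H.τ 𝒱 g (H.p1 (H.π q w)) (i, q)) →
      H.Lp w ∈ c.ZV 𝒱 q g' → H.Lp w ∈ c.ZV 𝒱 q g
  tc : ∀ (q : c.ι), ∀ g ∈ 𝒱, ∀ᵐ w ∂H.L1.W.μ,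
    H.Lp w ∈ c.ZV 𝒱 q g → ∃ i, H.τ 𝒱 g (H.p1 (H.π q w)) (i, q)

/-- the type of a nontrivial tuple equals the frozen type with positive probability -/
def Hat.Pos (H : c.Hat) (𝒱 : Subgroup (Uni c.X.X)) (g : c.ι → Uni c.X.X) (j k : c.ι) : Prop :=
  H.L1.W.μ {w | H.Lp w ∈ c.Θ (c.up g) ∩ c.Nt j (ufn (g j)) ∧
    H.τ 𝒱 (g j) (H.p1 (H.π j w)) = H.τ 𝒱 (g k) (H.p2 (H.π j w))} ≠ 0

end Ctx

/-! ### the bundle of groups -/

/-- a countable group of unimodular functions that are constant or of mean zero on the fibres -/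
structure Psi (X : Sys) (B : MeasurableSpace X.X) {V : Type} [AddCommGroup V] (sg : AddAut V)
    (ψ : V → X.X → ℂ) : Prop where
  um : ∀ v, Um X.ms X.μ (ψ v)
  add : ∀ v v', ψ (v + v') =ᵐ[X.μ] fun x => ψ v x * ψ v' x
  sh : ∀ v, ψ (sg v) =ᵐ[X.μ] fun x => ψ v (X.T x)
  onn : ∀ v, ∀ᵐ x ∂X.μ, ‖(X.μ[ψ v | B]) x‖ = 0 ∨ ‖(X.μ[ψ v | B]) x‖ = 1

namespace Ctx

variable (c : Ctx) {V : Type}

def FF (ψ : V → c.X.X → ℂ) (v : c.ι → V) : c.W.X → ℂ := fun w => ∏ k, ψ (v k) (c.π k w)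

def ΘV (ψ : V → c.X.X → ℂ) (v : c.ι → V) : Set c.W.X := Th c.B2 c.W.μ (c.FF ψ v)

/-- the event on which every element has partners in every slot -/
def UU (ψ : V → c.X.X → ℂ) : Set c.W.X :=
  ⋂ (q : c.ι) (x : V), ⋃ v ∈ {v : c.ι → V | v q = x}, c.ΘV ψ v

def Bun (ψ : V → c.X.X → ℂ) : Prop :=
  ∃ (v : c.ι → V) (j : c.ι), c.W.μ (c.UU ψ ∩ c.ΘV ψ v ∩ c.Nt j (ψ (v j))) ≠ 0

def ONH (ψ : V → c.X.X → ℂ) : Prop := ∀ v, MeasurableSet[c.L.shp c.B] (c.ΘV ψ v)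

def HI (ψ : V → c.X.X → ℂ) : Prop := ∀ (Y : Set c.W.X) (j : c.ι),
  MeasurableSet[c.L.shp c.B] Y → (∀ v, c.W.μ (Y ∩ Th (c.L.shp c.B) c.W.μ (c.FF ψ v) ∩ c.Nt j (ψ (v j))) = 0) →
  ∀ v, c.W.μ (Y ∩ c.ΘV ψ v ∩ c.Nt j (ψ (v j))) = 0

end Ctx

/-- limit probability zero -/
def Nl (ν : Wt) (U : Ultrafilter ℕ) (X : Sys) (A : Lab → Set X.X) : Prop :=
  Tendsto (fun M => ν.av2 M fun l => X.μ.real (A l)) U (𝓝 0)

/-- the finite-level data of the algebraic step: `N v` is the event that `v` is trivial, `Sg l v v'`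
the event that the step with label `l` from `y` to `T ^ n l y` sends `v` to `v'` -/
structure AlgD (ν : Wt) (U : Ultrafilter ℕ) (X : Sys) {V : Type} [AddCommGroup V] (sg : AddAut V)
    (N : V → Set X.X) (Sg : Lab → V → V → Set X.X) {ι : Type} [Fintype ι] (sl : ι → Slot)
    (i1 i2 : ι) (n : Lab → ℤ) (v0 : ι → V) : Prop where
  hU : (U : Filter ℕ) ≤ atTop
  erg : ERG ν
  inj : Injective sl
  ne : ∀ i, (sl i).1 ≠ 0
  ne12 : i1 ≠ i2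
  same : (sl i1).2 = (sl i2).2
  hn : ∀ l, n l = rho (sl i2) l - rho (sl i1) l
  mN : ∀ v, MeasurableSet (N v)
  mS : ∀ l v v', MeasurableSet (Sg l v v')
  n0 : ∀ᵐ x ∂X.μ, x ∈ N 0
  nsub : ∀ v v', ∀ᵐ x ∂X.μ, x ∈ N v → x ∈ N v' → x ∈ N (v - v')
  nsh : ∀ v, ∀ᵐ x ∂X.μ, x ∈ N (sg v) ↔ X.T x ∈ N v
  sub : ∀ a a' b b', Nl ν U X fun l => (Sg l a a' ∩ Sg l b b') \ Sg l (a - b) (a' - b')
  triv : ∀ a a', Nl ν U X fun l => (Sg l 0 0 ∩ N a ∩ X.Tz (n l) ⁻¹' N a') \ Sg l a a'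
  ker : ∀ a a', Nl ν U X fun l => Sg l a a' ∩ {y | ¬ (y ∈ N a ↔ X.Tz (n l) y ∈ N a')}
  tot : ∀ (a : V) (ε : ℝ), 0 < ε → ∃ F : Finset V, ∀ᶠ M in (U : Filter ℕ),
    (ν.av2 M fun l => X.μ.real (Sg l 0 0 \ ⋃ a' ∈ F, Sg l a a')) ≤ ε ∧
    (ν.av2 M fun l => X.μ.real (Sg l 0 0 \ ⋃ a' ∈ F, Sg l a' a)) ≤ ε
  sh : ∀ a a', Nl ν U X fun l => {y | ¬ (y ∈ Sg l (sg a) (sg a') ↔ X.T y ∈ Sg l a a')}
  flat : ∀ a b a' b', ∃ φ : Lab → ℝ, Tendsto (fun M => ν.av2 M φ) U (𝓝 0) ∧ ∀ l,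
    Tendsto (fun M => ν.av2 M fun l' => X.μ.real {y | y ∈ Sg l' a b ∧
      y ∈ Sg l' ((n l • sg) a') ((n l • sg) b') ∧
      ¬ (y ∈ Sg l a a' ↔ X.Tz (n l') y ∈ Sg l b b')}) U (𝓝 (φ l))
  rel : ¬ Nl ν U X fun l => {x | X.Tz (rho (sl i1) l) x ∈ Sg l 0 0 ∧
    x ∈ N (∑ k, (rho (sl k) l • sg) (v0 k)) ∧ x ∉ N ((rho (sl i1) l • sg) (v0 i1))}
  dec : ∀ a a', Nl ν U X fun l => N (((l.2.1 - l.2.2) • sg) a - a') \ N a'

/-! ### good factors and the structured factor -/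

def avg (ν : Wt) (M : ℕ) (X : Sys) {ι : Type} [Fintype ι] (r : ι → ℤ) (f : ι → X.X → ℂ)
    (x : X.X) : ℂ := ν.av M fun d => ∏ i, f i (X.Tz (r i * d) x)

def Good (ν ν' : Wt) (X : Sys) {ι : Type} [Fintype ι] (r : ι → ℤ) (C : MeasurableSpace X.X) :
    Prop := ∀ f : ι → X.X → ℂ, (∀ i, BM X.μ C (f i)) →
  Tendsto (fun M => ∫ x, ‖avg ν M X r f x - avg ν' M X r f x‖ ^ 2 ∂X.μ) atTop (𝓝 0)

/-- functions orthogonal to `B0` have small dense averages after one van der Corput step -/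
def G0 (ν' : Wt) (X : Sys) {ι : Type} [Fintype ι] [DecidableEq ι] (r : ι → ℤ)
    (B0 : MeasurableSpace X.X) : Prop :=
  ∀ g : X.X → ℂ, BM X.μ X.ms g → (∀ᵐ x ∂X.μ, ‖g x‖ ≤ 1) → X.μ[g | B0] =ᵐ[X.μ] 0 →
    ∀ (i0 : ι) (ε : ℝ), 0 < ε → ∃ (H : ℕ) (a : ℕ → ℕ → ℝ), 1 ≤ H ∧
      ∑ n ∈ range H, ∑ n' ∈ range H, a n n' ≤ ε * H ^ 2 ∧
      ∀ (n n' : ℕ) (c : ι → X.X → ℂ) (η : ℝ), (∀ i, BM X.μ X.ms (c i)) →
        (∀ i, ∀ᵐ x ∂X.μ, ‖c i x‖ ≤ 1) → 0 < η → ∀ᶠ M in atTop,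
        ∫ x, ‖avg ν' M X r (update c i0 fun y => g (X.Tz n y) * conj (g (X.Tz n' y))) x‖ ^ 2 ∂X.μ
          ≤ a n n' + η

/-- every system has a good factor that carries the structured functions -/
def HasB0 (ν ν' : Wt) {ι : Type} [Fintype ι] [DecidableEq ι] (r : ι → ℤ) : Prop :=
  ∀ X : Sys, ∃ B0, Fac X B0 ∧ Inv X ≤ B0 ∧ Good ν ν' X r B0 ∧ G0 ν' X r B0

open Classical in
/-- normalised weights on `[0, M)` -/
def wtOf (a : ℕ → ℝ) (ha : ∀ n, 0 ≤ a n) : Wt where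
  sp M := if ∑ n ∈ range M, a n = 0 then {0} else (range M).image (Nat.cast : ℕ → ℤ)
  w M d := if ∑ n ∈ range M, a n = 0 then 1 else a d.toNat / ∑ n ∈ range M, a n
  nn M d := by
    split_ifs
    · exact zero_le_one
    · exact div_nonneg (ha _) (sum_nonneg fun n _ => ha n)
  one M := by
    split_ifs with h
    · simp
    · rw [sum_image fun x _ y _ e => Nat.cast_injective e]
      simp only [Int.toNat_natCast]
      rw [← sum_div, div_self h]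

end T3x

end
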