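import Pool.Agent.MP_154433_an.t3.Spec

/-! Row F3: saturation moves the column operator along a row. -/

set_option autoImplicit false
set_option linter.unusedVariables false
set_option warn.classDefReducibility false

open MeasureTheory ProbabilityTheory Filter Topology Function Finset ComplexConjugate
open scoped BigOperators
open Fib27 (BM sup pr Oc Orow F23 LInd Mem)

noncomputable section

namespace T3x

namespace F3

variable (c : Ctx)

/-- the base of the line together with the points other than `j`, `j'` -/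
def CC (j j' : c.ι) : MeasurableSpace c.W.X := sup c.P ((univ.erase j).erase j') ⊔ c.B2

/-- the rows other than `q` -/
def RR (q : c.ι) : MeasurableSpace c.W2.X :=
  sup (fun k => pull c.W2.μ (c.A k) c.W.ms) (univ.erase q)

/-- the other rows, the base and the points of row `q` other than `j`, `j'` -/
def DD (q j j' : c.ι) : MeasurableSpace c.W2.X :=
  (RR c q ⊔ c.β) ⊔ sup (c.G q) ((univ.erase j).erase j')

variable {c}

lemma embπ (k : c.ι) : Emb c.W c.X (c.π k) := c.L.emb _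

lemma embA (q : c.ι) : Emb c.W2 c.W (c.A q) := c.L2.emb _

lemma embB (j : c.ι) : Emb c.W2 c.W (c.Bc j) := (c.lift j).emb

lemma facP (F : Fd) (k : c.ι) : Fac c.W (c.P k) := F.t.fpull _ _ _ _ (embπ k) (F.t.top _)

lemma facB2 (F : Fd) : Fac c.W c.B2 := (F.h.kc _ _ c.L.nice (F.lb.fac c.L c.B c.kc.1)).1

lemma facβ (F : Fd) : Fac c.W2 c.β := (F.h.kc _ _ c.L2.nice (F.lb.fac c.L2 c.B2 (facB2 F))).1

lemma facC (F : Fd) (j j' : c.ι) : Fac c.W (CC c j j') :=
  F.t.fsp _ _ _ _ _ (facB2 F) (facP F)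

lemma slot_le (F : Fd) (j : c.ι) : pull c.W.μ (c.π j) c.B ≤ c.B2 :=
  (F.lb.slot c.L c.B _ c.kc.1).trans (F.h.le _ _)

lemma pull_mono {Ω Ω' : Type} {B C : MeasurableSpace Ω'} {m0 : MeasurableSpace Ω} (μ : Measure Ω)
    (p : Ω → Ω') (h : B ≤ C) : pull μ p B ≤ pull μ p C :=
  sup_le_sup_right (MeasurableSpace.comap_mono h) _

lemma G_eq (F : Fd) (q j : c.ι) : c.G q j = pull c.W2.μ (c.A q) (c.P j) :=
  (F.a.pull_comp _ _ _ _ _ (embA q).mp).symm

lemma G_eq' (F : Fd) (h : c.GI) (q j : c.ι) : c.G q j = pull c.W2.μ (c.Bc j) (c.P q) := by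
  have e : pull c.W2.μ (c.Bc j) (c.P q) = pull c.W2.μ (c.π q ∘ c.Bc j) c.X.ms :=
    F.a.pull_comp _ _ _ _ _ (embB j).mp
  rw [e]
  exact F.a.keq_pull _ _ _ _ ((embπ j).mp.comp (embA q).mp).measurable.comap_le
    ((embπ q).mp.comp (embB j).mp).measurable.comap_le (h.col q j)

lemma G_row (F : Fd) (q j : c.ι) : c.G q j ≤ pull c.W2.μ (c.A q) c.W.ms := by
  rw [G_eq F]
  exact pull_mono _ _ (facP F j).le

lemma row_le (F : Fd) (q : c.ι) : pull c.W2.μ (c.A q) c.W.ms ≤ c.W2.ms :=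
  F.a.pull_le _ _ _ _ (embA q).mp le_rfl

lemma G_le (F : Fd) (q j : c.ι) : c.G q j ≤ c.W2.ms := (G_row F q j).trans (row_le F q)

lemma Oc_le (F : Fd) (q j : c.ι) : Oc c.G q j ≤ RR c q :=
  Fib27.sup_mono'' subset_rfl fun k _ => G_row F k j

lemma RR_le (F : Fd) (q : c.ι) : RR c q ≤ c.W2.ms := Fib27.sup_le' fun k _ => row_le F k

lemma DD_le (F : Fd) (q j j' : c.ι) : DD c q j j' ≤ c.W2.ms :=
  sup_le (sup_le (RR_le F q) (facβ F).le) (Fib27.sup_le' fun k _ => G_le F q k)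

lemma OcD (F : Fd) (q j i i' : c.ι) : Oc c.G q j ⊔ c.β ≤ DD c q i i' :=
  (sup_le_sup_right (Oc_le F q j) _).trans le_sup_left

lemma DD_comm (q j j' : c.ι) : DD c q j j' = DD c q j' j := by
  rw [DD, DD, Finset.erase_right_comm]

lemma bm_of {Ω : Type} {B : MeasurableSpace Ω} {m0 : MeasurableSpace Ω} {μ : Measure Ω}
    {f : Ω → ℂ} {C : ℝ} (hm : Measurable[B] f) (hb : ∀ x, ‖f x‖ ≤ C) : BM μ B f :=
  ⟨hm.stronglyMeasurable.aestronglyMeasurable, C, Eventually.of_forall hb⟩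

/-- a bounded function of a point is the pull-back of a bounded function -/
lemma fact (F : Fd) {Y X : Sys} {p : Y.X → X.X} (hp : MeasurePreserving p Y.μ X.μ) {f : Y.X → ℂ}
    (hf : BM Y.μ (pull Y.μ p X.ms) f) : ∃ f0, BM X.μ X.ms f0 ∧ f =ᵐ[Y.μ] fun y => f0 (p y) := by
  obtain ⟨h1, C, hC⟩ := hf
  obtain ⟨f0, m, b, e⟩ := F.a.fact X.ms Y.μ p f (max C 0) hp.measurable.comap_le (le_max_right _ _)
    h1 (hC.mono fun x hx => hx.trans (le_max_left _ _))
  exact ⟨f0, bm_of m b, e⟩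

lemma cp (F : Fd) (h : c.GI) {j j' : c.ι} (hj : j ≠ j') :
    CP (pull c.W.μ (c.π j) c.X.ms) (pull c.W.μ (c.π j) c.B) (CC c j j') c.W.μ := by
  intro f hf
  obtain ⟨f0, b0, e0⟩ := fact F (embπ j).mp hf
  have hfW : BM c.W.μ c.W.ms f := hf.mono (facP F j).le
  have e1 : c.W.μ[f | pull c.W.μ (c.π j) c.B] =ᵐ[c.W.μ] fun w => (c.X.μ[f0 | c.B]) (c.π j w) :=
    (condExp_congr_ae e0).trans
      (F.a.ce_comp _ _ _ _ _ (embπ j).mp c.kc.1.le b0.integrable)
  have hne : ∀ i : c.ι, univ.erase i ≠ univ := fun i e => by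
    have := e.symm ▸ mem_univ i
    simp at this
  have hsub : ({j} : Finset c.ι) ⊆ univ.erase j' := by simpa using hj
  have e2 : c.W.μ[f | c.B2] =ᵐ[c.W.μ] fun w => (c.X.μ[f0 | c.B]) (c.π j w) := by
    have h1 := h.line {j} (fun e => hne j' (univ_subset_iff.1 (e ▸ hsub))) (fun _ => f0)
      fun _ _ => b0
    simp only [prod_singleton] at h1
    exact (condExp_congr_ae e0).trans h1
  have hb : BM c.W.μ c.B2 (c.W.μ[f | pull c.W.μ (c.π j) c.B]) := (hf.ce _).mono (slot_le F j)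
  refine Fib27.ce_eq_of_tests (facC F j j').le hfW (hb.mono le_sup_right) fun g hg => ?_
  have hgW : BM c.W.μ c.W.ms g := hg.mono (facC F j j').le
  have e3 := F.c.grp c.B2 c.P (univ.erase j') {j} ((univ.erase j).erase j') c.W.μ (facB2 F).le
    (fun i => (facP F i).le) (h.cline _ (hne j')) hsub
    (fun i hi => by simp only [mem_erase] at hi ⊢; exact ⟨hi.1, mem_univ _⟩)
    (by simp) f g (hf.mono (by
      rw [Fib27.sup_singleton']
      exact le_sup_left)) hg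
  rw [← integral_condExp (facB2 F).le, integral_congr_ae e3,
    ← Fib27.int_mul_ce (facB2 F).le hb hgW]
  refine integral_congr_ae ?_
  filter_upwards [e1, e2] with w h1 h2
  rw [h1, h2]

lemma adm (F : Fd) (h : c.GI) {j j' : c.ι} (hj : j ≠ j') :
    Adm c.W (hull c.W (CC c j j')) c.X c.B (c.π j) :=
  F.h.adm _ _ _ _ _ c.L.nice c.nice (embπ j) c.kc (facC F j j')
    ((slot_le F j).trans le_sup_right) (cp F h hj)

lemma DD_le_OB (F : Fd) (q j j' : c.ι) :
    DD c q j j' ≤ c.L2.OB (hull c.W (CC c j j')) c.sl q := by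
  have hk := (F.h.kc _ _ c.L.nice (facC F j j')).1
  refine sup_le (sup_le le_sup_left ?_) (Fib27.sup_le' fun i hi => ?_)
  · exact (F.h.mono _ _ _ (F.lb.mono c.L2 _ _
      (le_sup_right.trans (F.h.le _ (CC c j j'))))).trans le_sup_right
  · rw [G_eq F]
    refine le_trans ?_ le_sup_right
    refine (pull_mono _ _ ?_).trans ((F.lb.slot c.L2 _ _ hk).trans (F.h.le _ _))
    exact ((Fib27.le_sup' c.P hi).trans le_sup_left).trans (F.h.le _ (CC c j j'))

lemma pull_sup_le (F : Fd) (j : c.ι) (S : Finset c.ι) :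
    pull c.W2.μ (c.Bc j) (sup c.P S ⊔ c.B2) ≤
      sup (fun k => pull c.W2.μ (c.Bc j) (c.P k)) S ⊔ pull c.W2.μ (c.Bc j) c.B2 := by
  induction S using Finset.induction_on with
  | empty => simp only [Fib27.sup_empty', bot_sup_eq, le_refl]
  | insert a S ha ih =>
    rw [Fib27.sup_insert', Fib27.sup_insert', sup_assoc, F.a.pull_sup, sup_assoc]
    exact sup_le_sup_left ih _

lemma pull_OB (F : Fd) (h : c.GI) (q j : c.ι) :
    pull c.W2.μ (c.Bc j) (c.L.OB c.B c.sl q) ≤ Oc c.G q j ⊔ c.β := by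
  refine (pull_sup_le F j (univ.erase q)).trans (sup_le_sup ?_ (h.colB j))
  exact Fib27.sup_mono'' subset_rfl fun k _ => (G_eq' F h k j).ge

lemma OB_le (F : Fd) {Y : Sys} (L : Ln c.ν c.U Y) (B : MeasurableSpace Y.X) (hB : Fac Y B)
    (q : c.ι) : L.OB B c.sl q ≤ L.W.ms :=
  sup_le (Fib27.sup_le' fun k _ => (F.t.fpull _ _ _ _ (L.emb _) (F.t.top _)).le)
    (F.h.kc _ _ L.nice (F.lb.fac L B hB)).1.le

lemma sg0 (F : Fd) (h : c.GI) (hs : c.Sat) (q : c.ι) {j j' : c.ι} (hj : j ≠ j') :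
    CP (c.G q j) (Oc c.G q j ⊔ c.β) (DD c q j j') c.W2.μ := by
  intro a ha
  obtain ⟨f0, b0, e0⟩ := fact F ((embπ j).mp.comp (embA q).mp) ha
  have e1 : a =ᵐ[c.W2.μ] fun x => f0 (c.π q (c.Bc j x)) :=
    e0.trans (F.a.keq_fun _ _ _ _ _ f0 ((embπ j).mp.comp (embA q).mp)
      ((embπ q).mp.comp (embB j).mp) (h.col q j) b0.1)
  have hk := (F.h.kc _ _ c.L.nice (facC F j j')).1
  have hO := OB_le F c.L2 _ hk q
  have e2 := (condExp_congr_ae e1).trans
    (hs c.W _ (c.π j) c.L2 (c.Bc j) (adm F h hj) (c.lift j) q f0 b0)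
  have b1 : BM c.W.μ c.W.ms fun v => f0 (c.π q v) :=
    (F.a.bm_comp _ _ _ _ _ (embπ q).mp b0).mono (facP F q).le
  have b2 : BM c.W2.μ (Oc c.G q j ⊔ c.β)
      (c.W2.μ[a | c.L2.OB (hull c.W (CC c j j')) c.sl q]) :=
    ((F.a.bm_comp _ _ _ _ _ (embB j).mp (b1.ce _)).mono (pull_OB F h q j)).congr e2.symm
  have key : ∀ D : MeasurableSpace c.W2.X, Oc c.G q j ⊔ c.β ≤ D →
      D ≤ c.L2.OB (hull c.W (CC c j j')) c.sl q →
      c.W2.μ[a | D] =ᵐ[c.W2.μ] c.W2.μ[a | c.L2.OB (hull c.W (CC c j j')) c.sl q] :=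
    fun D h1 h2 => (condExp_condExp_of_le h2 hO).symm.trans
      ((b2.mono h1).ce_self (h2.trans hO))
  exact (key _ (OcD F q j j j') (DD_le_OB F q j j')).trans
    (key _ le_rfl ((OcD F q j j j').trans (DD_le_OB F q j j'))).symm

/-- the column operator sees everything that the other rows, the base and the other points of the
row can see -/
theorem sg (F : Fd) (h : c.GI) (hs : c.Sat) (q : c.ι) {j j' : c.ι} (hj : j ≠ j') :
    CP (c.G q j ⊔ (Oc c.G q j ⊔ c.β)) (Oc c.G q j ⊔ c.β) (DD c q j j') c.W2.μ :=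
  F.c.cp_sup _ _ _ _ (G_le F q j) (DD_le F q j j') (OcD F q j j j') (sg0 F h hs q hj)

lemma half (F : Fd) (h : c.GI) (hs : c.Sat) (q : c.ι) (a : c.ι → c.W2.X → ℂ) (ψ : c.W2.X → ℂ)
    (ha : ∀ k, BM c.W2.μ (c.G q k) (a k)) (hψ : BM c.W2.μ c.β ψ) {j j' : c.ι} (hj : j ≠ j') :
    ∫ x, ψ x * ((c.W2.μ[a j | Oc c.G q j ⊔ c.β]) x * pr a (univ.erase j) x) ∂c.W2.μ =
      ∫ x, ψ x * ((c.W2.μ[a j | Oc c.G q j ⊔ c.β]) x * (c.W2.μ[a j' | Oc c.G q j' ⊔ c.β]) x *
        pr a ((univ.erase j).erase j') x) ∂c.W2.μ := by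
  have b1 : BM c.W2.μ (DD c q j' j) fun x => ψ x * ((c.W2.μ[a j | Oc c.G q j ⊔ c.β]) x *
      pr a ((univ.erase j).erase j') x) := by
    refine (hψ.mono (le_sup_right.trans (OcD F q j j' j))).mul
      ((((ha j).ce _).mono (OcD F q j j' j)).mul ?_)
    rw [DD_comm]
    exact (BM.pr_sup fun k _ => ha k).mono le_sup_right
  have e1 := Fib27.int_ce_mul (DD_le F q j' j) ((ha j').mono (G_le F q j')) b1
  have e2 := sg0 F h hs q hj.symm (a j') (ha j')
  have hm : j' ∈ univ.erase j := by simpa using hj.symm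
  calc _ = ∫ x, a j' x * (ψ x * ((c.W2.μ[a j | Oc c.G q j ⊔ c.β]) x *
        pr a ((univ.erase j).erase j') x)) ∂c.W2.μ := by
        refine integral_congr_ae (Eventually.of_forall fun x => ?_)
        simp only [Fib27.pr_erase a hm]
        ring
    _ = _ := by
        rw [← e1]
        refine integral_congr_ae ?_
        filter_upwards [e2] with x hx
        rw [hx]
        ring

end F3

open F3 in
theorem f3 : F3R := by
  intro F c h hs q a ψ ha hψ j j'
  rcases eq_or_ne j j' with rfl | hj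
  · rfl
  rw [half F h hs q a ψ ha hψ hj, half F h hs q a ψ ha hψ hj.symm, Finset.erase_right_comm]
  refine integral_congr_ae (Eventually.of_forall fun x => ?_)
  beta_reduce
  ring

end T3x

end
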