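import Pool.Agent.MP_154433_an.t3.Spec

/-! Independence in the line and in the grid. -/

set_option autoImplicit false
set_option linter.unusedVariables false

open MeasureTheory ProbabilityTheory Filter Topology Function Finset
open Fib27 (BM sup pr)

noncomputable section

namespace T3x

namespace GI

theorem pull_mono {Ω Ω' : Type} {B C : MeasurableSpace Ω'} {m0 : MeasurableSpace Ω}
    (μ : Measure Ω) (p : Ω → Ω') (h : B ≤ C) : pull μ p B ≤ pull μ p C :=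
  sup_le_sup_right (MeasurableSpace.comap_mono h) _

/-- a bounded function of the point is a pulled back function -/
theorem fact (a : BasA) {Y X : Sys} {p : Y.X → X.X} (hp : MeasurePreserving p Y.μ X.μ)
    {f : Y.X → ℂ} (hf : BM Y.μ (pull Y.μ p X.ms) f) :
    ∃ f' : X.X → ℂ, BM X.μ X.ms f' ∧ f =ᵐ[Y.μ] fun y => f' (p y) := by
  obtain ⟨h1, C, hC⟩ := hf
  obtain ⟨f', m, b, e⟩ := a.fact X.ms Y.μ p f (max C 0) hp.measurable.comap_le (le_max_right _ _)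
    h1 (hC.mono fun _ h => h.trans (le_max_left _ _))
  exact ⟨f', ⟨m.stronglyMeasurable.aestronglyMeasurable, _, Eventually.of_forall b⟩, e⟩

theorem cp_of (a : BasA) {Y X : Sys} {p : Y.X → X.X} (hp : MeasurePreserving p Y.μ X.μ)
    {B : MeasurableSpace X.X} (hB : B ≤ X.ms) {D : MeasurableSpace Y.X}
    (h : ∀ f, BM X.μ X.ms f →
      Y.μ[fun y => f (p y) | D] =ᵐ[Y.μ] fun y => (X.μ[f | B]) (p y)) :
    CP (pull Y.μ p X.ms) (pull Y.μ p B) D Y.μ := by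
  intro f hf
  obtain ⟨f', b, e⟩ := fact a hp hf
  exact ((condExp_congr_ae e).trans (h f' b)).trans
    ((condExp_congr_ae e).trans (a.ce_comp B Y.μ X.μ p f' hp hB b.integrable)).symm

theorem of_cp (a : BasA) {Y X : Sys} {p : Y.X → X.X} (hp : MeasurePreserving p Y.μ X.μ)
    {B : MeasurableSpace X.X} (hB : B ≤ X.ms) {D : MeasurableSpace Y.X}
    (h : CP (pull Y.μ p X.ms) (pull Y.μ p B) D Y.μ) (f : X.X → ℂ) (hf : BM X.μ X.ms f) :
    Y.μ[fun y => f (p y) | D] =ᵐ[Y.μ] fun y => (X.μ[f | B]) (p y) :=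
  (h _ (a.bm_comp X.ms Y.μ X.μ p f hp hf)).trans (a.ce_comp B Y.μ X.μ p f hp hB hf.integrable)

variable {ν : Wt} {U : Ultrafilter ℕ}

theorem cind_of (a : BasA) {X : Sys} (L : Ln ν U X) {B : MeasurableSpace X.X} (hB : B ≤ X.ms)
    {D : MeasurableSpace L.W.X} {ι : Type} (sl : ι → Slot) (S : Finset ι)
    (h : IndOver L B D sl S) (hc : ∀ i ∈ S, CP (L.P (sl i)) (pull L.W.μ (L.π (sl i)) B) D L.W.μ) :
    CInd D (fun i => L.P (sl i)) S L.W.μ := by
  classical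
  intro f hf
  have : ∀ i, ∃ f' : X.X → ℂ, i ∈ S → BM X.μ X.ms f' ∧ f i =ᵐ[L.W.μ] fun y => f' (L.π (sl i) y) := by
    intro i
    by_cases hi : i ∈ S
    · obtain ⟨f', h1⟩ := fact a (L.emb (sl i)).mp (hf i hi)
      exact ⟨f', fun _ => h1⟩
    · exact ⟨0, fun h => absurd h hi⟩
  choose f' hf' using this
  have e1 : pr f S =ᵐ[L.W.μ] fun w => ∏ i ∈ S, f' i (L.π (sl i) w) :=
    Fib27.pr_congr_ae (ρ' := fun i w => f' i (L.π (sl i) w)) fun k hk => (hf' k hk).2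
  have e2 : ∀ i ∈ S, L.W.μ[f i | D] =ᵐ[L.W.μ] fun w => (X.μ[f' i | B]) (L.π (sl i) w) :=
    fun i hi => (condExp_congr_ae (hf' i hi).2).trans
      (of_cp a (L.emb (sl i)).mp hB (hc i hi) _ (hf' i hi).1)
  filter_upwards [(condExp_congr_ae e1).trans (h f' fun i hi => (hf' i hi).1),
    (Finset.eventually_all S).2 e2] with w h1 h2
  rw [h1]
  exact Finset.prod_congr rfl fun i hi => (h2 i hi).symm

theorem ind_of (a : BasA) {X : Sys} (L : Ln ν U X) {B : MeasurableSpace X.X} (hB : B ≤ X.ms)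
    {D : MeasurableSpace L.W.X} {ι : Type} (sl : ι → Slot) (S : Finset ι)
    (h : CInd D (fun i => L.P (sl i)) S L.W.μ)
    (hc : ∀ i ∈ S, CP (L.P (sl i)) (pull L.W.μ (L.π (sl i)) B) D L.W.μ) :
    IndOver L B D sl S := by
  intro f hf
  have e1 := h (fun i w => f i (L.π (sl i) w)) fun i hi =>
    a.bm_comp X.ms L.W.μ X.μ _ _ (L.emb (sl i)).mp (hf i hi)
  have e2 : ∀ i ∈ S, L.W.μ[fun w => f i (L.π (sl i) w) | D] =ᵐ[L.W.μ]
      fun w => (X.μ[f i | B]) (L.π (sl i) w) :=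
    fun i hi => of_cp a (L.emb (sl i)).mp hB (hc i hi) _ (hf i hi)
  filter_upwards [e1, (Finset.eventually_all S).2 e2] with w h1 h2
  exact h1.trans (Finset.prod_congr rfl h2)

/-- a proper part of the line is independent over the hull of the internal base -/
theorem line (fd : Fd) {n : ℕ} (hi : IND ν U n) (hn : 1 ≤ n) {X : Sys} (L : Ln ν U X)
    {B : MeasurableSpace X.X} (hX : Nice X) (hB : KC X B) {ι : Type} (sl : ι → Slot)
    (hs : Injective sl) (h0 : ∀ i, (sl i).1 ≠ 0) (S : Finset ι) (hS : S.card ≤ n) :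
    CInd (L.B2 B) (fun i => L.P (sl i)) S L.W.μ ∧
      ∀ i ∈ S, CP (L.P (sl i)) (pull L.W.μ (L.π (sl i)) B) (L.B2 B) L.W.μ := by
  have hc : ∀ i ∈ S, CP (L.P (sl i)) (pull L.W.μ (L.π (sl i)) B) (L.shp B) L.W.μ := by
    intro i _
    refine cp_of fd.a (L.emb (sl i)).mp hB.1.le fun f hf => ?_
    have := hi X B L ι sl {i} hX hB hs.injOn (fun j _ => h0 j) (by simpa using hn)
      (fun _ => f) fun _ _ => hf
    simpa using this
  have hI := cind_of fd.a L hB.1.le sl S (hi X B L ι sl S hX hB hs.injOn (fun j _ => h0 j) hS) hc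
  obtain ⟨h1, -, h3⟩ := fd.prod L.W ι (fun i => L.P (sl i)) (fun i => pull L.W.μ (L.π (sl i)) B) S
    (L.shp B) L.nice (fd.lb.fac L B hB.1)
    (fun i => fd.t.fpull _ _ _ _ (L.emb _) (fd.t.top X))
    (fun i => fd.t.fpull _ _ _ _ (L.emb _) hB.1)
    (fun i => pull_mono _ _ hB.1.le) (fun i _ => fd.lb.slot L B _ hB.1)
    (fun i => fd.h.rwm _ _ _ _ L.nice hX (L.emb _) hB) hc hI
  exact ⟨h1, h3⟩

theorem card_le (c : Ctx) {S : Finset c.ι} (h : S ≠ univ) : S.card ≤ Fintype.card c.ι - 1 := by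
  have := Finset.card_lt_card (Finset.ssubset_univ_iff.2 h)
  rw [Finset.card_univ] at this
  omega

theorem one_ne (c : Ctx) (j : c.ι) : ({j} : Finset c.ι) ≠ univ := by
  intro h
  have := congrArg Finset.card h
  rw [Finset.card_singleton, Finset.card_univ] at this
  have := c.three
  omega

theorem kc2 (fd : Fd) (c : Ctx) : KC c.W c.B2 :=
  fd.h.kc _ _ c.L.nice (fd.lb.fac c.L c.B c.kc.1)

theorem kcβ (fd : Fd) (c : Ctx) : KC c.W2 c.β :=
  fd.h.kc _ _ c.L2.nice (fd.lb.fac c.L2 c.B2 (kc2 fd c).1)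

theorem slot2 (fd : Fd) (c : Ctx) (j : c.ι) : pull c.W.μ (c.π j) c.B ≤ c.B2 :=
  (fd.lb.slot c.L c.B _ c.kc.1).trans (fd.h.le _ _)

theorem colS (fd : Fd) (c : Ctx) (j : c.ι) :
    pull c.W2.μ (c.Bc j) (c.L.shp c.B) ≤ c.L2.shp c.B2 :=
  fd.la.shp c.L2 c.L _ _ c.B c.B2 (c.L.emb _) (c.lift j) c.kc.1 (kc2 fd c).1 (slot2 fd c j)

theorem colB (fd : Fd) (c : Ctx) (j : c.ι) : pull c.W2.μ (c.Bc j) c.B2 ≤ c.β :=
  (fd.h.fn c.W2 c.W (c.Bc j) _ c.L2.nice c.L.nice (c.lift j).emb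
    (fd.lb.fac c.L c.B c.kc.1)).trans (fd.h.mono _ _ _ (colS fd c j))

theorem cols (fd : Fd) (c : Ctx) (S : Finset c.ι) (hS : S ≠ univ) :
    CInd c.β (fun j => pull c.W2.μ (c.Bc j) c.W.ms) S c.W2.μ ∧
      ∀ j ∈ S, CP (pull c.W2.μ (c.Bc j) c.W.ms) (pull c.W2.μ (c.Bc j) c.B2) c.β c.W2.μ := by
  have h1 : 1 ≤ Fintype.card c.ι - 1 := by have := c.three; omega
  obtain ⟨hI, hc⟩ := line fd c.ind h1 c.L c.nice c.kc c.sl c.inj c.ne S (card_le c hS)
  have k2 := kc2 fd c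
  have fS : Fac c.W2 (c.L2.shp c.B2) := fd.lb.fac c.L2 c.B2 k2.1
  have fY : ∀ j, Fac c.W2 (pull c.W2.μ (c.Bc j) c.W.ms) :=
    fun j => fd.t.fpull _ _ _ _ (c.lift j).emb (fd.t.top _)
  have fD : ∀ j, Fac c.W2 (pull c.W2.μ (c.Bc j) c.B2) :=
    fun j => fd.t.fpull _ _ _ _ (c.lift j).emb k2.1
  have DY : ∀ j, pull c.W2.μ (c.Bc j) c.B2 ≤ pull c.W2.μ (c.Bc j) c.W.ms :=
    fun j => pull_mono _ _ k2.1.le
  have I2 : CInd (c.L2.shp c.B2) (fun j => pull c.W2.μ (c.Bc j) c.W.ms) S c.W2.μ :=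
    fd.ld.cind c.L2 c.L c.π c.Bc S c.B2 (fun i => c.L.emb _) c.lift k2.1 hI
  obtain ⟨I3, c3⟩ := fd.c.grow (c.L2.shp c.B2) (fun j => pull c.W2.μ (c.Bc j) c.W.ms)
    (fun j => pull c.W2.μ (c.Bc j) c.B2) S c.W2.μ fS.le (fun j => (fY j).le) DY I2
  have c4 : ∀ j ∈ S, CP (pull c.W2.μ (c.Bc j) c.W.ms) (pull c.W2.μ (c.Bc j) c.B2)
      (sup (fun j => pull c.W2.μ (c.Bc j) c.B2) S ⊔ c.L2.shp c.B2) c.W2.μ := by
    intro j hj f hf
    have b := fd.ld.base c.L2 c.L (c.π j) (c.Bc j) c.B c.B2 (c.L.emb _) (c.lift j) c.kc.1 k2.1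
      (slot2 fd c j) (hc j hj)
    have le : pull c.W2.μ (c.Bc j) (c.L.shp c.B) ≤ pull c.W2.μ (c.Bc j) c.B2 :=
      pull_mono _ _ (fd.h.le _ _)
    have d := fd.c.drop _ _ _ (pull c.W2.μ (c.Bc j) c.B2) c.W2.μ (fY j).le fS.le (colS fd c j)
      (le.trans (DY j)) (DY j) b
    rw [sup_eq_left.2 le] at d
    exact (c3 j hj f hf).trans (d f hf)
  have e : hull c.W2 (sup (fun j => pull c.W2.μ (c.Bc j) c.B2) S ⊔ c.L2.shp c.B2) = c.β :=
    le_antisymm (fd.h.min _ _ _ (sup_le (Fib27.sup_le' fun j _ => colB fd c j) (fd.h.le _ _))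
      (kcβ fd c)) (fd.h.mono _ _ _ le_sup_right)
  obtain ⟨r1, -, r3⟩ := fd.prod c.W2 c.ι (fun j => pull c.W2.μ (c.Bc j) c.W.ms)
    (fun j => pull c.W2.μ (c.Bc j) c.B2) S _ c.L2.nice (fd.t.fsp _ _ _ _ S fS fD) fY fD DY
    (fun j hj => le_trans (Fib27.le_sup' (fun j => pull c.W2.μ (c.Bc j) c.B2) hj) le_sup_left)
    (fun j => fd.h.rwm _ _ _ _ c.L2.nice c.L.nice (c.lift j).emb k2) c4 I3
  rw [e] at r1 r3
  exact ⟨r1, r3⟩

end GI

open GI in
theorem gi : GIR := by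
  intro fd c
  have h1 : 1 ≤ Fintype.card c.ι - 1 := by have := c.three; omega
  have l1 := fun S (hS : S ≠ univ) =>
    line fd c.ind h1 c.L c.nice c.kc c.sl c.inj c.ne S (card_le c hS)
  have l2 := fun S (hS : S ≠ univ) =>
    line fd c.ind h1 c.L2 c.L.nice (kc2 fd c) c.sl c.inj c.ne S (card_le c hS)
  refine
    { line := fun S hS => ind_of fd.a c.L c.kc.1.le c.sl S (l1 S hS).1 (l1 S hS).2
      cline := fun S hS => (l1 S hS).1
      col := fun q j A hA =>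
        (fd.la.slot c.L2 c.L _ _ (c.sl q) (c.L.emb _) (c.lift j) A hA).symm
      rows := fun S hS => (l2 S hS).1
      cols := fun S hS => (cols fd c S hS).1
      rowB := fun q => (fd.lb.slot c.L2 c.B2 _ (kc2 fd c).1).trans (fd.h.le _ _)
      colB := colB fd c
      rowE := fun q g hg => of_cp fd.a (c.L2.emb _).mp (kc2 fd c).1.le
        ((l2 _ (one_ne c q)).2 q (Finset.mem_singleton_self q)) g hg
      colE := fun j g hg => of_cp fd.a (c.lift j).emb.mp (kc2 fd c).1.le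
        ((cols fd c _ (one_ne c j)).2 j (Finset.mem_singleton_self j)) g hg }

end T3x

end
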