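import Pool.Agent.MP_154433_an.t3.Spec

/-! Row GSp1: the members of column tuples span. -/

set_option autoImplicit false
set_option linter.unusedVariables false
set_option warn.classDefReducibility false

open MeasureTheory ProbabilityTheory Filter Topology Function Finset ComplexConjugate
open scoped BigOperators
open Fib27 (BM sup pr Oc Orow F23 LInd Mem)

noncomputable section

namespace T3x

namespace GSp1P

theorem bm_sq {Ω : Type} {m m0 : MeasurableSpace Ω} {μ : Measure Ω} {a b : Ω → ℂ}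
    (ha : BM μ m a) (hb : BM μ m b) : BM μ m fun x => ((‖a x - b x‖ ^ 2 : ℝ) : ℂ) :=
  ((ha.sub hb).mul (ha.sub hb).conj).congr (Eventually.of_forall fun x => by
    simp only [Complex.mul_conj, Complex.normSq_eq_norm_sq])

theorem int_of_bm {Ω : Type} {m0 : MeasurableSpace Ω} {μ : Measure Ω} [IsProbabilityMeasure μ]
    {r : Ω → ℝ} (hr : BM μ m0 fun x => (r x : ℂ)) : Integrable r μ := by
  simpa using hr.integrable.re

theorem est {Ω : Type} {β m0 : MeasurableSpace Ω} (μ : Measure Ω) [IsProbabilityMeasure μ]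
    (hβ : β ≤ m0) {h a b : Ω → ℂ} {C η : ℝ} (hh : BM μ m0 h) (ha : BM μ m0 a) (hb : BM μ m0 b)
    (hC0 : 0 ≤ C) (hη : 0 < η) (hC : ∀ᵐ x ∂μ, ‖h x‖ ≤ C) :
    ∀ᵐ x ∂μ, (μ[fun y => ‖a y - b y‖ ^ 2 | β]) x ≤ η ^ 2 →
      C * η < ‖(μ[fun y => h y * conj (b y) | β]) x‖ → (μ[fun y => h y * conj (a y) | β]) x ≠ 0 := by
  have hi : Integrable (fun y => ‖a y - b y‖ ^ 2) μ := int_of_bm (bm_sq ha hb)
  have hd : BM μ m0 fun y => h y * conj (b y) - h y * conj (a y) :=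
    (hh.mul hb.conj).sub (hh.mul ha.conj)
  have h1 := norm_condExp_le (μ := μ) (m := β) fun y => h y * conj (b y) - h y * conj (a y)
  have h2 : μ[fun y => ‖h y * conj (b y) - h y * conj (a y)‖ | β] ≤ᵐ[μ]
      μ[(fun _ => C * η / 2) + (C / (2 * η)) • fun y => ‖a y - b y‖ ^ 2 | β] := by
    refine condExp_mono hd.integrable.norm ((integrable_const _).add (hi.smul _)) ?_
    filter_upwards [hC] with y hy
    have e : ‖h y * conj (b y) - h y * conj (a y)‖ = ‖h y‖ * ‖a y - b y‖ := by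
      rw [← mul_sub, ← map_sub, norm_mul, Complex.norm_conj, norm_sub_rev]
    simp only [Pi.add_apply, Pi.smul_apply, smul_eq_mul]
    rw [e]
    have h3 : ‖a y - b y‖ ≤ η / 2 + ‖a y - b y‖ ^ 2 / (2 * η) := by
      rw [← sub_nonneg]
      have : η / 2 + ‖a y - b y‖ ^ 2 / (2 * η) - ‖a y - b y‖ = (η - ‖a y - b y‖) ^ 2 / (2 * η) := by
        field_simp; ring
      rw [this]; positivity
    calc ‖h y‖ * ‖a y - b y‖ ≤ C * (η / 2 + ‖a y - b y‖ ^ 2 / (2 * η)) :=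
          mul_le_mul hy h3 (norm_nonneg _) hC0
      _ = _ := by ring
  have h3 := condExp_add (μ := μ) (integrable_const (C * η / 2)) (hi.smul (C / (2 * η))) β
  have h4 := condExp_smul (μ := μ) (C / (2 * η)) (fun y => ‖a y - b y‖ ^ 2) β
  filter_upwards [h1, h2, h3, h4, Fib27.ce_sub (hh.mul hb.conj) (hh.mul ha.conj) β]
    with x h1 h2 h3 h4 h5 hx hlt h0
  rw [h5, h0, sub_zero] at h1
  rw [h3, Pi.add_apply, h4, condExp_const hβ, Pi.smul_apply, smul_eq_mul] at h2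
  have h6 : C / (2 * η) * (μ[fun y => ‖a y - b y‖ ^ 2 | β]) x ≤ C / (2 * η) * η ^ 2 :=
    mul_le_mul_of_nonneg_left hx (by positivity)
  have h7 : C / (2 * η) * η ^ 2 = C * η / 2 := by field_simp
  linarith

theorem ce_real {Ω Ω' : Type} {β m0 : MeasurableSpace Ω} {β' m0' : MeasurableSpace Ω'}
    {μ : Measure Ω} {μ' : Measure Ω'} [IsProbabilityMeasure μ] [IsProbabilityMeasure μ']
    {p : Ω → Ω'} (hp : MeasurePreserving p μ μ')
    (hE : ∀ g, BM μ' m0' g → μ[fun x => g (p x) | β] =ᵐ[μ] fun x => (μ'[g | β']) (p x))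
    {r : Ω' → ℝ} (hr : BM μ' m0' fun x => (r x : ℂ)) :
    μ[fun x => r (p x) | β] =ᵐ[μ] fun x => (μ'[r | β']) (p x) := by
  have i1 := int_of_bm hr
  have i2 : Integrable (fun x => r (p x)) μ := hp.integrable_comp_of_integrable i1
  filter_upwards [Complex.ofRealCLM.comp_condExp_comm (m := β) i2, hE _ hr,
    hp.quasiMeasurePreserving.ae (Complex.ofRealCLM.comp_condExp_comm (m := β') i1)]
    with x h1 h2 h3
  have : (((μ[fun x => r (p x) | β]) x : ℝ) : ℂ) = (((μ'[r | β']) (p x) : ℝ) : ℂ) :=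
    h1.trans (h2.trans h3.symm)
  exact_mod_cast this

theorem Lb_bm {Ω : Type} {m m0 : MeasurableSpace Ω} {μ : Measure Ω} {v : Ω → ℂ}
    (h : Lb m μ v) : BM μ m v := ⟨h.1, 1, Eventually.of_forall h.2⟩

theorem bm_up {Ω Ω' : Type} {m0 : MeasurableSpace Ω} {m0' : MeasurableSpace Ω'}
    {μ : Measure Ω} {μ' : Measure Ω'} {p : Ω → Ω'} (hp : MeasurePreserving p μ μ') {g : Ω' → ℂ}
    (hg : BM μ' m0' g) : BM μ m0 fun x => g (p x) := by
  obtain ⟨h1, C, hC⟩ := hg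
  exact ⟨h1.comp_measurePreserving hp, C, hp.quasiMeasurePreserving.ae hC⟩

/-- transfer along a map that commutes with the conditional expectations -/
theorem main {Ω Ω' ι : Type} [Fintype ι] [DecidableEq ι] {β m0 : MeasurableSpace Ω}
    {β' m0' : MeasurableSpace Ω'} {μ : Measure Ω} {μ' : Measure Ω'} [IsProbabilityMeasure μ]
    [IsProbabilityMeasure μ'] (rc : Rc) {p : Ω → Ω'} (hp : MeasurePreserving p μ μ')
    (hβ : β ≤ m0) (hβ' : β' ≤ m0')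
    (hE : ∀ g, BM μ' m0' g → μ[fun x => g (p x) | β] =ᵐ[μ] fun x => (μ'[g | β']) (p x))
    {v : ℕ → ι → Ω → ℂ} {v0 : ι → Ω → ℂ} {w : ℕ → ι → Ω' → ℂ} {w0 φ : ι → Ω' → ℂ} {η C : ℝ}
    {h : Ω → ℂ} (q : ι) (hw : ∀ i k, BM μ' m0' (w i k)) (hw0 : ∀ k, BM μ' m0' (w0 k))
    (hv : ∀ i k, v i k =ᵐ[μ] fun x => w i k (p x)) (hv0 : ∀ k, v0 k =ᵐ[μ] fun x => w0 k (p x))
    (hφ : ∀ k, Um m0' μ' (φ k)) (hh : BM μ m0 h) (hC0 : 0 ≤ C) (hη : 0 < η)
    (hC : ∀ᵐ x ∂μ, ‖h x‖ ≤ C)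
    (hs : ∀ᵐ x ∂μ', x ∈ DS β' μ' w w0 η → x ∈ Th β' μ' (pr φ univ) ∧
      (μ'[fun y => ‖φ q y - w0 q y‖ ^ 2 | β']) x ≤ η ^ 2) :
    (DS β μ v v0 η ∩ {x | C * η < ‖(μ[fun y => h y * conj (v0 q y) | β]) x‖} : Set Ω) ≤ᵐ[μ]
      (p ⁻¹' Th β' μ' (pr (fun k y => conj (φ k y)) univ) ∩
        {x | (μ[fun y => h y * conj (φ q (p y)) | β]) x ≠ 0} : Set Ω) := by
  have hφb : ∀ k, BM μ' m0' (φ k) := fun k => Fib27.BM.of_uni (hφ k).1 (hφ k).2
  have a1 : ∀ i, μ[pr (v i) univ | β] =ᵐ[μ] fun x => (μ'[pr (w i) univ | β']) (p x) := fun i =>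
    (condExp_congr_ae (Fib27.pr_congr_ae (ρ' := fun k x => w i k (p x)) fun k _ => hv i k)).trans
      (hE (pr (w i) univ) (Fib27.BM.pr fun k _ => hw i k))
  have a2 : ∀ i k, μ[fun y => ‖v i k y - v0 k y‖ ^ 2 | β] =ᵐ[μ]
      fun x => (μ'[fun y => ‖w i k y - w0 k y‖ ^ 2 | β']) (p x) := fun i k => by
    refine EventuallyEq.trans (condExp_congr_ae ?_) (ce_real hp hE (bm_sq (hw i k) (hw0 k)))
    filter_upwards [hv i k, hv0 k] with y h1 h2
    rw [h1, h2]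
  have a3 := ce_real hp hE (bm_sq (hφb q) (hw0 q))
  have hU : Um m0' μ' (pr φ univ) := ⟨(Fib27.BM.pr fun k _ => hφb k).1, by
    filter_upwards [ae_all_iff.2 fun k => (hφ k).2] with y hy
    simp [pr, hy]⟩
  have a4 := rc.cj β' μ' (pr φ univ) hβ' hU
  have e4 : (fun x => conj (pr φ univ x)) = pr (fun k y => conj (φ k y)) univ :=
    funext fun x => (Fib27.pr_conj φ univ x).symm
  rw [e4] at a4
  have a5 := est μ hβ hh (bm_up hp (hφb q)) (bm_up hp (hw0 q)) hC0 hη hC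
  have a6 : μ[fun y => h y * conj (v0 q y) | β] =ᵐ[μ] μ[fun y => h y * conj (w0 q (p y)) | β] := by
    refine condExp_congr_ae ?_
    filter_upwards [hv0 q] with y h1
    rw [h1]
  filter_upwards [ae_all_iff.2 a1, ae_all_iff.2 fun i => ae_all_iff.2 (a2 i), a3,
    hp.quasiMeasurePreserving.ae a4, a5, a6, hp.quasiMeasurePreserving.ae hs]
    with x a1 a2 a3 a4 a5 a6 hs hx
  obtain ⟨hx1, hx2⟩ := hx
  have hD : p x ∈ DS β' μ' w w0 η := by
    refine Set.mem_iInter.2 fun n => ?_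
    obtain ⟨i, hi1, hi2⟩ := Set.mem_iUnion.1 (Set.mem_iInter.1 hx1 n)
    refine Set.mem_iUnion.2 ⟨i, ?_, fun k => ?_⟩
    · rw [← a1 i]; exact hi1
    · rw [← a2 i k]; exact hi2 k
  obtain ⟨h1, h2⟩ := hs hD
  refine ⟨?_, a5 (by rw [a3]; exact h2) ?_⟩
  · exact (iff_of_eq a4).2 h1
  · rw [← a6]; exact hx2

end GSp1P

theorem gsp1 : GSp1R := by
  intro fd rc sel gg c gi hg q j h hV h0
  obtain ⟨C0, hC0⟩ := hV.1.2
  have hC : ∀ᵐ x ∂c.W2.μ, ‖h x‖ ≤ max C0 0 := hC0.mono fun x hx => hx.trans (le_max_left _ _)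
  obtain ⟨v, v0, η, hv, hv0, hη, hη', hpos⟩ :=
    gg c.β c.G q j c.W2.μ h (max C0 0) hg c.three hV (le_max_right _ _) hC h0
  have eπ : ∀ k, Emb c.W c.X (c.π k) := fun k => c.L.emb (c.sl k)
  have eA : ∀ k, Emb c.W2 c.W (c.A k) := fun k => c.L2.emb (c.sl k)
  have eB : Emb c.W2 c.W (c.Bc j) := (c.lift j).emb
  have hB2 : c.B2 ≤ c.W.ms := (fd.h.kc c.W _ c.L.nice (fd.lb.fac c.L c.B c.kc.1)).1.le
  have hP : ∀ k, c.P k ≤ c.W.ms := fun k =>
    fd.a.pull_le c.X.ms c.W.μ c.X.μ _ (eπ k).mp le_rfl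
  have key : ∀ (k : c.ι) (u : c.W2.X → ℂ), Lb (c.G k j) c.W2.μ u →
      ∃ u' : c.W.X → ℂ, Lb (c.P k) c.W.μ u' ∧ u =ᵐ[c.W2.μ] fun x => u' (c.Bc j x) := by
    intro k u hu
    have m1 := ((eπ j).mp.comp (eA k).mp).measurable.comap_le
    have m2 := ((eπ k).mp.comp eB.mp).measurable.comap_le
    have e : c.G k j = pull c.W2.μ (c.π k ∘ c.Bc j) c.X.ms :=
      fd.a.keq_pull c.X.ms c.W2.μ _ _ m1 m2 (gi.col k j)
    rw [e] at hu
    obtain ⟨f, hf1, hf2, hf3⟩ := fd.a.fact c.X.ms c.W2.μ (c.π k ∘ c.Bc j) u 1 m2 zero_le_one hu.1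
      (Eventually.of_forall hu.2)
    exact ⟨fun y => f (c.π k y), ⟨(fd.a.bm_comp c.X.ms c.W.μ c.X.μ (c.π k) f (eπ k).mp
      ⟨hf1.aestronglyMeasurable, 1, Eventually.of_forall hf2⟩).1, fun y => hf2 _⟩, hf3⟩
  choose w hw hw' using fun i k => key k (v i k) (hv i k)
  choose w0 hw0 hw0' using fun k => key k (v0 k) (hv0 k)
  obtain ⟨φ, hφ, hs⟩ := sel c.B2 c.P c.W.μ w w0 η hB2 hP c.three gi.cline hw hw0 hη hη'
  refine ⟨fun k y => conj (φ k y), fun k => ⟨(Fib27.BM.of_uni (hφ k).1 (hφ k).2).conj.1, ?_⟩,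
    fun hz => hpos ?_⟩
  · filter_upwards [(hφ k).2] with y hy
    rwa [Complex.norm_conj]
  · refine measure_mono_null_ae ?_ hz
    exact GSp1P.main rc eB.mp hg.ble hB2 (gi.colE j) q
      (fun i k => (GSp1P.Lb_bm (hw i k)).mono (hP k)) (fun k => (GSp1P.Lb_bm (hw0 k)).mono (hP k))
      hw' hw0' (fun k => ⟨(hφ k).1.mono (sup_le (hP k) hB2), (hφ k).2⟩)
      (hV.1.mono (sup_le (hg.le q j) hg.ble)) (le_max_right _ _) hη hC
      (hs.mono fun x hx hD => ⟨(hx hD).1, ((hx hD).2 q).2.2⟩)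

end T3x

end
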