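import Pool.Agent.MP_154433_an.t3.Spec

/-! Rows `GSpU` and `T5`: column tuples made of functions of the points. -/

set_option autoImplicit false
set_option linter.unusedVariables false
set_option warn.classDefReducibility false

open MeasureTheory ProbabilityTheory Filter Topology Function Finset ComplexConjugate
open scoped BigOperators
open Fib27 (BM sup pr Oc Orow F23 LInd Mem)
open Pool.Agent.MP_154433_an.SG (Uni ufn)

noncomputable section

namespace T3x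

namespace GSpURow

theorem um_comp {Ω Ω' : Type} {m0 : MeasurableSpace Ω} {m0' : MeasurableSpace Ω'} {μ : Measure Ω}
    {μ' : Measure Ω'} {p : Ω → Ω'} (hp : MeasurePreserving p μ μ') {f : Ω' → ℂ}
    (hf : Um m0' μ' f) : Um m0 μ fun x => f (p x) :=
  ⟨hf.1.comp_quasiMeasurePreserving hp.quasiMeasurePreserving, hp.quasiMeasurePreserving.ae hf.2⟩

theorem um_bm {Ω : Type} {m m0 : MeasurableSpace Ω} {μ : Measure Ω} {f : Ω → ℂ}
    (hf : Um m μ f) : BM μ m f := BM.of_uni hf.1 hf.2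

theorem um_mono {Ω : Type} {m m' m0 : MeasurableSpace Ω} {μ : Measure Ω} {f : Ω → ℂ}
    (hf : Um m μ f) (h : m ≤ m') : Um m' μ f := ⟨hf.1.mono h, hf.2⟩

theorem um_ufn {Ω : Type} {m0 : MeasurableSpace Ω} (μ : Measure Ω) (g : Uni Ω) :
    Um m0 μ (ufn g) :=
  ⟨(Measurable.aestronglyMeasurable (show Measurable fun ω => (g.1 ω : ℂ) from g.2)),
    Eventually.of_forall fun ω => Circle.norm_coe (g.1 ω)⟩

theorem um_mul_conj {Ω : Type} {m m0 : MeasurableSpace Ω} {μ : Measure Ω} {f g : Ω → ℂ}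
    (hf : Um m μ f) (hg : Um m μ g) : Um m μ fun x => f x * conj (g x) := by
  refine ⟨((um_bm hf).mul (um_bm hg).conj).1, ?_⟩
  filter_upwards [hf.2, hg.2] with x h1 h2
  simp [h1, h2]

theorem meas_pull {Ω Ω' : Type} {B : MeasurableSpace Ω'} {m0 : MeasurableSpace Ω} (μ : Measure Ω)
    (p : Ω → Ω') {s : Set Ω'} (hs : MeasurableSet[B] s) :
    MeasurableSet[pull μ p B] (p ⁻¹' s) :=
  (le_sup_left : B.comap p ≤ pull μ p B) _ ⟨s, hs, rfl⟩

theorem meas_ne {Ω : Type} (β : MeasurableSpace Ω) {m0 : MeasurableSpace Ω} (μ : Measure Ω)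
    (F : Ω → ℂ) : MeasurableSet[β] {x | (μ[F | β]) x ≠ 0} :=
  ((stronglyMeasurable_condExp (m := β) (μ := μ) (f := F)).measurable
    (measurableSet_singleton 0)).compl

theorem ne_of_le {Ω : Type} {m0 : MeasurableSpace Ω} {μ : Measure Ω} {E E' : Set Ω}
    (h : μ E ≠ 0) (hle : ∀ᵐ x ∂μ, x ∈ E → x ∈ E') : μ E' ≠ 0 := fun h0 =>
  h (le_antisymm ((measure_mono_ae hle).trans h0.le) zero_le)

theorem unim {a g t : ℂ} (ha : ‖a‖ = 1) (h : a * conj g = t) : g = conj t * a := by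
  have h1 : conj a * a = 1 := by
    rw [mul_comm, Complex.mul_conj, Complex.normSq_eq_norm_sq, ha]; simp
  rw [← h, map_mul, Complex.conj_conj]
  linear_combination (-g) * h1

/-- a function that correlates with an element of a join correlates with a product -/
theorem corr {Ω ι : Type} (β : MeasurableSpace Ω) (p : ι → MeasurableSpace Ω) (S : Finset ι)
    {m0 : MeasurableSpace Ω} (μ : Measure Ω) [IsProbabilityMeasure μ] (hβ : β ≤ m0)
    (hp : ∀ i, p i ≤ m0) {F h : Ω → ℂ} {E : Set Ω} (hF : BM μ m0 F) (hh : BM μ (sup p S ⊔ β) h)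
    (hE : MeasurableSet[β] E) (h0 : μ (E ∩ {x | (μ[fun y => h y * F y | β]) x ≠ 0}) ≠ 0) :
    ∃ a : ι → Ω → ℂ, (∀ i, BM μ (p i) (a i)) ∧
      μ (E ∩ {x | (μ[fun y => F y * pr a S y | β]) x ≠ 0}) ≠ 0 := by
  by_contra hn
  push Not at hn
  have hle : sup p S ⊔ β ≤ m0 := sup_le (Fib27.sup_le' fun j _ => hp j) hβ
  have hI : BM μ β (E.indicator fun _ => (1 : ℂ)) := BM.indicator hE
  have hP : Fib27.Perp μ (β ⊔ sup p S) fun x => E.indicator (fun _ => (1 : ℂ)) x * F x := by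
    refine Fib27.perp_sup_pr hβ hp ((hI.mono hβ).mul hF) fun b ρ hb hρ => ?_
    have hz := measure_eq_zero_iff_ae_notMem.1 (hn ρ hρ)
    have hq : BM μ m0 fun y => F y * pr ρ S y := hF.mul (BM.pr fun k _ => (hρ k).mono (hp k))
    have e1 := Fib27.int_ce_mul hβ hq (hI.mul hb)
    have e2 : ∫ ω, (μ[fun y => F y * pr ρ S y | β]) ω *
        (E.indicator (fun _ => (1 : ℂ)) ω * b ω) ∂μ = 0 := by
      refine integral_eq_zero_of_ae ?_
      filter_upwards [hz] with x hx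
      by_cases hxE : x ∈ E
      · have : (μ[fun y => F y * pr ρ S y | β]) x = 0 := by
          by_contra h1
          exact hx ⟨hxE, h1⟩
        simp [this]
      · simp [hxE]
    rw [e2] at e1
    rw [e1]
    exact integral_congr_ae (Eventually.of_forall fun x => by ring)
  have hq : BM μ m0 fun y => h y * F y := (hh.mono hle).mul hF
  have ht : BM μ β (μ[fun y => h y * F y | β]) := hq.ce β
  have e0 := hP _ ((hh.mono (sup_comm _ _).le).mul (ht.conj.mono le_sup_left))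
  have e1 := Fib27.int_ce_mul hβ hq (hI.mul ht.conj)
  have e2 := Fib27.eq_zero_of_int_conj ((hI.mul ht).mono hβ) (by
    rw [← e0]
    refine Eq.trans ?_ (e1.trans (integral_congr_ae (Eventually.of_forall fun x => by ring)))
    refine integral_congr_ae (Eventually.of_forall fun x => ?_)
    by_cases hxE : x ∈ E <;> simp [hxE])
  refine h0 (measure_eq_zero_iff_ae_notMem.2 ?_)
  filter_upwards [e2] with x hx hm
  simp only [Set.indicator_of_mem hm.1, one_mul] at hx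
  exact hm.2 hx

variable (c : Ctx)

theorem mpA (q : c.ι) : MeasurePreserving (c.A q) c.W2.μ c.W.μ := (c.L2.emb _).mp

theorem mpB (j : c.ι) : MeasurePreserving (c.Bc j) c.W2.μ c.W.μ := (c.lift j).emb.mp

theorem mpP (k : c.ι) : MeasurePreserving (c.π k) c.W.μ c.X.μ := (c.L.emb _).mp

theorem um_up (g : c.ι → Uni c.X.X) (k : c.ι) : Um c.W.ms c.W.μ (c.up g k) :=
  um_comp (mpP c k) (um_ufn _ (g k))

theorem bm_pr_up (g : c.ι → Uni c.X.X) : BM c.W.μ c.W.ms (pr (c.up g) univ) :=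
  BM.pr fun k _ => um_bm (um_up c g k)

variable {c}

theorem facB2 (fd : Fd) : Fac c.W c.B2 :=
  (fd.h.kc _ _ c.L.nice (fd.lb.fac c.L c.B c.kc.1)).1

theorem ble (fd : Fd) : c.β ≤ c.W2.ms :=
  (fd.h.kc _ _ c.L2.nice (fd.lb.fac c.L2 c.B2 (facB2 fd))).1.le

theorem um_tup (fd : Fd) {φ : c.ι → c.W.X → ℂ} (h : c.Tup1 φ) (k : c.ι) :
    Um c.W.ms c.W.μ (φ k) :=
  um_mono (h k) (sup_le (fd.a.pull_le _ _ _ _ (mpP c k) le_rfl) (facB2 fd).le)

theorem measB (gi : c.GI) (j : c.ι) {Z : Set c.W.X} (hZ : MeasurableSet[c.B2] Z) :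
    MeasurableSet[c.β] (c.Bc j ⁻¹' Z) := gi.colB j _ (meas_pull _ _ hZ)

theorem measA (gi : c.GI) (q : c.ι) {Z : Set c.W.X} (hZ : MeasurableSet[c.B2] Z) :
    MeasurableSet[c.β] (c.A q ⁻¹' Z) := gi.rowB q _ (meas_pull _ _ hZ)

theorem swap (fd : Fd) (gi : c.GI) (q j : c.ι) (g : Uni c.X.X) :
    (fun x => ufn g (c.π j (c.A q x))) =ᵐ[c.W2.μ] fun x => ufn g (c.π q (c.Bc j x)) :=
  fd.a.keq_fun c.X.ms c.W2.μ c.X.μ (c.π j ∘ c.A q) (c.π q ∘ c.Bc j) (ufn g)
    ((mpP c j).comp (mpA c q)) ((mpP c q).comp (mpB c j)) (gi.col q j) (um_ufn _ g).1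

/-- the representation for all members of a column tuple at once -/
theorem rep_all (rep : Rep c) (j : c.ι) (Φ : c.ι → c.ι → c.W.X → ℂ) (E : Set c.W2.X)
    (hΦ : ∀ i, c.Tup1 (Φ i)) (hE : MeasurableSet[c.β] E) (h0 : c.W2.μ E ≠ 0)
    (h1 : E ≤ᵐ[c.W2.μ] c.Bc j ⁻¹' c.Θ (Φ j))
    (h2 : ∀ k, E ≤ᵐ[c.W2.μ] (Th c.β c.W2.μ fun x => ∏ i, Φ i k (c.Bc i x))) (S : Finset c.ι) :
    ∃ (E' : Set c.W2.X) (g : c.ι → Uni c.X.X), MeasurableSet[c.β] E' ∧ E' ⊆ E ∧ c.W2.μ E' ≠ 0 ∧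
      ∀ k ∈ S, E' ≤ᵐ[c.W2.μ]
        Th c.β c.W2.μ fun x => Φ j k (c.Bc j x) * conj (ufn (g k) (c.π k (c.Bc j x))) := by
  induction S using Finset.induction_on with
  | empty => exact ⟨E, fun _ => 1, hE, subset_rfl, h0, fun k hk => absurd hk (notMem_empty k)⟩
  | insert k S hk ih =>
    obtain ⟨E1, g, m1, s1, n1, t1⟩ := ih
    obtain ⟨E2, g2, m2, s2, n2, t2⟩ := rep j k Φ E1 hΦ m1 n1 (s1.eventuallyLE.trans h1)
      (s1.eventuallyLE.trans (h2 k))
    refine ⟨E2, update g k g2, m2, s2.trans s1, n2, fun l hl => ?_⟩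
    rcases eq_or_ne l k with rfl | hne
    · rw [update_self]; exact t2
    · rw [update_of_ne hne]
      exact s2.eventuallyLE.trans (t1 l ((mem_insert.1 hl).resolve_left hne))

end GSpURow

open GSpURow in
theorem gspU : GSpUR := by
  intro fd rc c gi hg gs fu rep q j h hv hne
  have hβ := hg.ble
  obtain ⟨φ, hφ, h0⟩ := gs q j h hv hne
  have uφ : ∀ k, Um c.W2.ms c.W2.μ fun x => φ k (c.Bc j x) := fun k =>
    um_comp (mpB c j) (um_tup fd hφ k)
  have mΘ : MeasurableSet[c.β] (c.Bc j ⁻¹' c.Θ φ) := measB gi j (rc.meas _ _ _)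
  have mE0 := mΘ.inter (meas_ne c.β c.W2.μ fun y => h y * φ q (c.Bc j y))
  obtain ⟨a, ha, h1⟩ := corr c.β (c.G q) (univ.erase j) c.W2.μ hβ (hg.le q) (um_bm (uφ q))
    hv.2.2 mE0 (by rwa [Set.inter_assoc, Set.inter_self])
  obtain ⟨E1, Φ, m1, s1, n1, hΦ, hj, t1, t2⟩ := fu q j φ _ a hφ mE0
    Set.inter_subset_left.eventuallyLE (fun i => (ha i).mono le_sup_left) h1
  obtain ⟨E, g, mE, sE, nE, tE⟩ := rep_all rep j Φ E1 hΦ m1 n1 (t1 j) t2 univ
  rw [hj] at tE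
  have ug : ∀ k, Um c.W2.ms c.W2.μ fun x => c.up g k (c.Bc j x) := fun k =>
    um_comp (mpB c j) (um_up c g k)
  have uu := fun k => um_mul_conj (uφ k) (ug k)
  set t : c.ι → c.W2.X → ℂ := fun k x =>
    conj ((c.W2.μ[fun x => φ k (c.Bc j x) * conj (c.up g k (c.Bc j x)) | c.β]) x) with ht
  have bt : ∀ k, BM c.W2.μ c.β (t k) := fun k => ((um_bm (uu k)).ce c.β).conj
  have key : ∀ k, ∀ᵐ x ∂c.W2.μ, x ∈ E →
      c.up g k (c.Bc j x) = t k x * φ k (c.Bc j x) ∧ ‖t k x‖ = 1 := by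
    intro k
    filter_upwards [tE k (mem_univ k), rc.eq c.β c.W2.μ _ hβ (uu k), (uφ k).2] with x a1 a2 a3 hx
    have a4 := a1 hx
    refine ⟨unim a3 (a2 a4), ?_⟩
    rw [ht]
    simp only [Complex.norm_conj]
    exact a4
  have hh : BM c.W2.μ c.W2.ms h := hv.1.mono (sup_le (hg.le q j) hβ)
  have l1 := rc.loc c.β c.W2.μ (fun y => h y * c.up g q (c.Bc j y)) (fun y => h y * φ q (c.Bc j y))
    (t q) E hβ (hh.mul (um_bm (ug q))) (hh.mul (um_bm (uφ q))) (bt q) mE (by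
      filter_upwards [key q] with x hx hE
      rw [(hx hE).1]; ring)
  have bφ : BM c.W.μ c.W.ms (pr φ univ) := BM.pr fun k _ => um_bm (um_tup fd hφ k)
  have l2 := rc.loc c.β c.W2.μ (fun y => pr (c.up g) univ (c.Bc j y))
    (fun y => pr φ univ (c.Bc j y)) (pr t univ) E hβ
    (BM.pr (ρ := fun k x => c.up g k (c.Bc j x)) fun k _ => um_bm (ug k))
    (BM.pr (ρ := fun k x => φ k (c.Bc j x)) fun k _ => um_bm (uφ k))
    (BM.pr fun k _ => bt k) mE (by
      filter_upwards [ae_all_iff.2 key] with x hx hE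
      simp only [pr, ← prod_mul_distrib]
      exact prod_congr rfl fun k _ => (hx k hE).1)
  refine ⟨c.up g, ⟨g, rfl⟩, ne_of_le nE ?_⟩
  filter_upwards [l1, l2, ae_all_iff.2 key, gi.colE j _ bφ, gi.colE j _ (bm_pr_up c g)] with
    x a1 a2 a3 a4 a5 hE
  have hx := s1 (sE hE)
  refine ⟨?_, ?_⟩
  · have b1 : ‖(c.W.μ[pr φ univ | c.B2]) (c.Bc j x)‖ = 1 := hx.1
    show ‖(c.W.μ[pr (c.up g) univ | c.B2]) (c.Bc j x)‖ = 1
    rw [← a5, a2 hE, a4, norm_mul, b1, mul_one]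
    simp only [pr, norm_prod]
    exact prod_eq_one fun k _ => (a3 k hE).2
  · show (c.W2.μ[fun y => h y * c.up g q (c.Bc j y) | c.β]) x ≠ 0
    rw [a1 hE]
    refine mul_ne_zero (fun hz => ?_) hx.2
    have := (a3 q hE).2
    rw [hz, norm_zero] at this
    exact zero_ne_one this

open GSpURow in
theorem t5 : T5R := by
  intro fd rc c gi gs fu
  have hβ : c.β ≤ c.W2.ms := ble fd
  refine ⟨?_, ?_⟩
  · intro q j k g h Z hq hZ hsub
    have mE : MeasurableSet[c.β]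
        ((c.Bc q ⁻¹' c.Θ (c.up g) ∩ c.A j ⁻¹' c.Θ (c.up h)) ∩ (c.A k ⁻¹' Z)ᶜ) :=
      ((measB gi q (rc.meas _ _ _)).inter (measA gi j (rc.meas _ _ _))).inter (measA gi k hZ).compl
    suffices hz : c.W2.μ ((c.Bc q ⁻¹' c.Θ (c.up g) ∩ c.A j ⁻¹' c.Θ (c.up h)) ∩
        (c.A k ⁻¹' Z)ᶜ) = 0 by
      filter_upwards [measure_eq_zero_iff_ae_notMem.1 hz] with x hx hm
      by_contra hn
      exact hx ⟨hm, hn⟩
    by_contra n0
    have ha : ∀ i, BM c.W2.μ (c.G j i ⊔ c.β) fun x => c.up h i (c.A j x) := fun i =>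
      (fd.a.bm_comp c.X.ms c.W2.μ c.X.μ (c.π i ∘ c.A j) (ufn (h i)) ((mpP c i).comp (mpA c j))
        (um_bm (um_ufn _ (h i)))).mono le_sup_left
    have e1 : (fun y => c.up g j (c.Bc q y) * pr (fun i x => c.up h i (c.A j x)) (univ.erase q) y)
        =ᵐ[c.W2.μ] fun y => pr (c.up h) univ (c.A j y) := by
      filter_upwards [swap fd gi j q (g j)] with y hy
      rw [Fib27.pr_erase (c.up h) (mem_univ q)]
      have : c.up h q (c.A j y) = c.up g j (c.Bc q y) := by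
        show ufn (h q) (c.π q (c.A j y)) = ufn (g j) (c.π j (c.Bc q y))
        rw [hq]; exact hy
      rw [this]; rfl
    obtain ⟨E1, Φ, m1, s1, n1, hΦ, hj, t1, t2⟩ := fu j q (c.up g) _
      (fun i x => c.up h i (c.A j x)) ⟨g, rfl⟩ mE
      (Set.inter_subset_left.trans Set.inter_subset_left).eventuallyLE ha (ne_of_le n0 (by
        filter_upwards [condExp_congr_ae (m := c.β) e1, gi.rowE j _ (bm_pr_up c h)] with
          x a1 a2 hx
        refine ⟨hx, ?_⟩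
        have b1 : ‖(c.W.μ[pr (c.up h) univ | c.B2]) (c.A j x)‖ = 1 := hx.1.2
        show (c.W2.μ[fun y => c.up g j (c.Bc q y) *
          pr (fun i x => c.up h i (c.A j x)) (univ.erase q) y | c.β]) x ≠ 0
        rw [a1, a2]
        intro hz
        rw [hz, norm_zero] at b1
        exact zero_ne_one b1))
    choose γ hγ using hΦ
    have hγ' : ∀ i, Φ i = c.up (update γ q g i) := by
      intro i
      rcases eq_or_ne i q with rfl | hne
      · rw [update_self]; exact hj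
      · rw [update_of_ne hne]; exact hγ i
    have e2 : (fun x => ∏ i, Φ i k (c.Bc i x)) =ᵐ[c.W2.μ]
        fun x => pr (c.up fun i => update γ q g i k) univ (c.A k x) := by
      filter_upwards [ae_all_iff.2 fun i => swap fd gi k i (update γ q g i k)] with x hx
      refine prod_congr rfl fun i _ => ?_
      rw [hγ' i]
      exact (hx i).symm
    have e3 := (mpA c k).quasiMeasurePreserving.ae
      (hsub (fun i => update γ q g i k) (by simp only [update_self]))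
    refine n1 (measure_eq_zero_iff_ae_notMem.2 ?_)
    filter_upwards [t2 k, condExp_congr_ae (m := c.β) e2, e3,
      gi.rowE k _ (bm_pr_up c fun i => update γ q g i k)] with x a1 a2 a3 a4 hx
    have b1 : ‖(c.W2.μ[fun x => ∏ i, Φ i k (c.Bc i x) | c.β]) x‖ = 1 := a1 hx
    rw [a2, a4] at b1
    exact (s1 hx).2 (a3 b1)
  · rintro ⟨j, h, hv, hne, hz⟩
    obtain ⟨_, ⟨g, rfl⟩, h0⟩ := gs j j h hv hne
    refine ⟨g, j, fun n0 => h0 (measure_eq_zero_iff_ae_notMem.2 ?_)⟩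
    have mp2 := (mpP c j).comp (mpB c j)
    have hG : c.G j j ≤ c.W2.ms := fd.a.pull_le _ _ _ _ ((mpP c j).comp (mpA c j)) le_rfl
    have hh : BM c.W2.μ c.W2.ms h := hv.1.mono (sup_le hG hβ)
    have b1 : BM c.W.μ c.B2 fun w => (c.X.μ[ufn (g j) | c.B]) (c.π j w) :=
      (fd.a.bm_comp c.B c.W.μ c.X.μ (c.π j) _ (mpP c j)
        ((um_bm (um_ufn c.X.μ (g j))).ce c.B)).mono
        ((fd.lb.slot c.L c.B (c.sl j) c.kc.1).trans (fd.h.le _ _))
    have b2 : BM c.W2.μ c.β fun x => (c.X.μ[ufn (g j) | c.B]) (c.π j (c.Bc j x)) :=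
      (fd.a.bm_comp c.B2 c.W2.μ c.W.μ (c.Bc j) _ (mpB c j) b1).mono (gi.colB j)
    have e1 := mp2.quasiMeasurePreserving.ae (rc.eq c.B c.X.μ _ c.kc.1.le (um_ufn _ (g j)))
    have e2 := (mpB c j).quasiMeasurePreserving.ae (measure_eq_zero_iff_ae_notMem.1 n0)
    have l1 := rc.loc c.β c.W2.μ (fun y => h y * c.up g j (c.Bc j y)) h _
      (c.Bc j ⁻¹' c.Θ (c.up g)) hβ (hh.mul (um_bm (um_comp (mpB c j) (um_up c g j)))) hh b2
      (measB gi j (rc.meas _ _ _)) (by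
        filter_upwards [e1, e2] with x a1 a2 hx
        have a3 : ‖(c.X.μ[ufn (g j) | c.B]) (c.π j (c.Bc j x))‖ = 1 := by
          by_contra hn
          exact a2 ⟨hx, hn⟩
        have a4 : c.up g j (c.Bc j x) = (c.X.μ[ufn (g j) | c.B]) (c.π j (c.Bc j x)) := a1 a3
        rw [a4, mul_comm])
    filter_upwards [l1, hz] with x a1 a2 hx
    refine hx.2 ?_
    rw [a1 hx.1, a2, Pi.zero_apply, mul_zero]

end T3x

end
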