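import Pool.Agent.MP_154433_an.t3.Spec

/-! The grid is a half grid, and failure gives a nonzero common function (row HG). -/

set_option autoImplicit false
set_option linter.unusedVariables false
set_option warn.classDefReducibility false

open MeasureTheory ProbabilityTheory Filter Topology Function Finset ComplexConjugate
open scoped BigOperators
open Fib27 (BM sup pr Oc Orow)

noncomputable section

namespace T3x

namespace HGr

theorem pull_mono {Ω Ω' : Type} {B C : MeasurableSpace Ω'} {m0 : MeasurableSpace Ω}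
    (μ : Measure Ω) (p : Ω → Ω') (h : B ≤ C) : pull μ p B ≤ pull μ p C :=
  sup_le_sup_right (MeasurableSpace.comap_mono h) _

theorem comap_le {Ω Ω' : Type} {m0 : MeasurableSpace Ω} {m0' : MeasurableSpace Ω'}
    {μ : Measure Ω} {μ' : Measure Ω'} {p : Ω → Ω'} (h : MeasurePreserving p μ μ') :
    m0'.comap p ≤ m0 := h.measurable.comap_le

theorem mint {Ω Ω' : Type} {m0 : MeasurableSpace Ω} {m0' : MeasurableSpace Ω'}
    {μ : Measure Ω} {μ' : Measure Ω'} {p : Ω → Ω'} (h : MeasurePreserving p μ μ') {g : Ω' → ℂ}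
    (hg : BM μ' m0' g) : ∫ x, g (p x) ∂μ = ∫ y, g y ∂μ' := by
  have m1 : AEStronglyMeasurable g (μ.map p) := by
    rw [h.map_eq]
    exact hg.1
  have m2 := integral_map h.measurable.aemeasurable m1
  rw [h.map_eq] at m2
  exact m2.symm

theorem bmc (F : Fd) {Ω Ω' : Type} {m0 : MeasurableSpace Ω} {m0' : MeasurableSpace Ω'}
    {μ : Measure Ω} {μ' : Measure Ω'} {p : Ω → Ω'} (hp : MeasurePreserving p μ μ') {g : Ω' → ℂ}
    (hg : BM μ' m0' g) : BM μ m0 fun x => g (p x) :=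
  (F.a.bm_comp m0' μ μ' p g hp hg).mono (F.a.pull_le m0' μ μ' p hp le_rfl)

theorem fct (F : Fd) {Ω Ω' : Type} (B : MeasurableSpace Ω') {m0 : MeasurableSpace Ω}
    {m0' : MeasurableSpace Ω'} {μ : Measure Ω} {μ' : Measure Ω'} {p : Ω → Ω'}
    (hp : MeasurePreserving p μ μ') (hB : B ≤ m0') {a : Ω → ℂ} (ha : BM μ (pull μ p B) a) :
    ∃ g, BM μ' B g ∧ a =ᵐ[μ] fun x => g (p x) := by
  obtain ⟨m, C, hb⟩ := ha
  obtain ⟨g, g1, g2, g3⟩ := F.a.fact B μ p a (max C 0)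
    ((MeasurableSpace.comap_mono hB).trans (comap_le hp)) (le_max_right _ _) m
    (hb.mono fun x hx => hx.trans (le_max_left _ _))
  exact ⟨g, ⟨g1.stronglyMeasurable.aestronglyMeasurable, _, Eventually.of_forall g2⟩, g3⟩

theorem pull_supf (F : Fd) {Ω Ω' ι : Type} (P : ι → MeasurableSpace Ω') (B : MeasurableSpace Ω')
    (S : Finset ι) {m0 : MeasurableSpace Ω} (μ : Measure Ω) (p : Ω → Ω') :
    pull μ p (sup P S ⊔ B) = sup (fun k => pull μ p (P k)) S ⊔ pull μ p B := by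
  rw [F.a.pull_sup]
  refine le_antisymm (sup_le (sup_le ?_ ?_) le_sup_right) (sup_le ?_ le_sup_right)
  · refine le_trans ?_ le_sup_left
    unfold Fib27.sup
    simp only [MeasurableSpace.comap_iSup]
    exact iSup₂_le fun k hk => le_trans le_sup_left (le_iSup₂_of_le k hk le_rfl)
  · exact le_trans le_sup_right le_sup_right
  · exact le_trans (Fib27.sup_le' fun k hk => pull_mono μ p (Fib27.le_sup' P hk)) le_sup_left

/-- the conditional expectation on the other points and the base is computed in the line -/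
theorem qq (F : Fd) {Ω Ω' ι : Type} (β : MeasurableSpace Ω) (P : ι → MeasurableSpace Ω')
    (B : MeasurableSpace Ω') (S : Finset ι) {m0 : MeasurableSpace Ω} {m0' : MeasurableSpace Ω'}
    (μ : Measure Ω) (μ' : Measure Ω') [IsProbabilityMeasure μ] [IsProbabilityMeasure μ']
    (p : Ω → Ω') (hp : MeasurePreserving p μ μ') (hβ : β ≤ m0) (hP : ∀ k, P k ≤ m0') (hB : B ≤ m0')
    (hle : pull μ p B ≤ β)
    (hE : ∀ g, BM μ' m0' g → μ[fun x => g (p x) | β] =ᵐ[μ] fun x => (μ'[g | B]) (p x))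
    (g : Ω' → ℂ) (hg : BM μ' m0' g) :
    μ[fun x => g (p x) | sup (fun k => pull μ p (P k)) S ⊔ β] =ᵐ[μ]
      fun x => (μ'[g | sup P S ⊔ B]) (p x) := by
  have cp : CP (pull μ p m0') (pull μ p B) β μ := by
    intro f hf
    obtain ⟨g', h1, h2⟩ := fct F m0' hp le_rfl hf
    exact ((condExp_congr_ae h2).trans (hE g' h1)).trans
      ((condExp_congr_ae h2).trans (F.a.ce_comp B μ μ' p g' hp hB h1.integrable)).symm
  have d := F.c.drop (pull μ p m0') (pull μ p B) β (sup (fun k => pull μ p (P k)) S) μ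
    (F.a.pull_le m0' μ μ' p hp le_rfl) hβ hle (pull_mono μ p hB)
    (Fib27.sup_le' fun k _ => pull_mono μ p (hP k)) cp _ (F.a.bm_comp m0' μ μ' p g hp hg)
  rw [← pull_supf F] at d
  exact d.trans (F.a.ce_comp _ μ μ' p g hp (sup_le (Fib27.sup_le' fun k _ => hP k) hB)
    hg.integrable)

theorem f2g (F : Fd) {Ω Ω' ι : Type} (β : MeasurableSpace Ω) (P : ι → MeasurableSpace Ω')
    (B : MeasurableSpace Ω') (S : Finset ι) {m0 : MeasurableSpace Ω} {m0' : MeasurableSpace Ω'}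
    (μ : Measure Ω) (μ' : Measure Ω') [IsProbabilityMeasure μ] [IsProbabilityMeasure μ']
    (p : Ω → Ω') (hp : MeasurePreserving p μ μ') (hβ : β ≤ m0) (hP : ∀ k, P k ≤ m0') (hB : B ≤ m0')
    (hle : pull μ p B ≤ β)
    (hE : ∀ g, BM μ' m0' g → μ[fun x => g (p x) | β] =ᵐ[μ] fun x => (μ'[g | B]) (p x)) (j : ι)
    (h2 : ∀ a, BM μ' (P j) a → BM μ' (P j ⊔ B) (μ'[a | sup P S ⊔ B])) (a : Ω → ℂ)
    (ha : BM μ (pull μ p (P j)) a) :
    BM μ (pull μ p (P j) ⊔ β) (μ[a | sup (fun k => pull μ p (P k)) S ⊔ β]) := by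
  obtain ⟨g, g1, g2⟩ := fct F (P j) hp (hP j) ha
  have h3 := F.a.bm_comp (P j ⊔ B) μ μ' p _ hp (h2 g g1)
  rw [F.a.pull_sup] at h3
  exact (h3.mono (sup_le_sup_left hle _)).congr ((condExp_congr_ae g2).trans
    (qq F β P B S μ μ' p hp hβ hP hB hle hE g (g1.mono (hP j)))).symm

variable (c : Ctx)

theorem mA (q : c.ι) : MeasurePreserving (c.A q) c.W2.μ c.W.μ := (c.L2.emb (c.sl q)).mp

theorem mB (j : c.ι) : MeasurePreserving (c.Bc j) c.W2.μ c.W.μ := (c.lift j).emb.mp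

theorem mπ (k : c.ι) : MeasurePreserving (c.π k) c.W.μ c.X.μ := (c.L.emb (c.sl k)).mp

theorem P_le (F : Fd) (k : c.ι) : c.P k ≤ c.W.ms :=
  F.a.pull_le c.X.ms c.W.μ c.X.μ (c.π k) (mπ c k) le_rfl

theorem facB2 (F : Fd) : Fac c.W c.B2 := (F.h.kc _ _ c.L.nice (F.lb.fac c.L c.B c.kc.1)).1

theorem β_le (F : Fd) : c.β ≤ c.W2.ms :=
  (F.h.kc _ _ c.L2.nice (F.lb.fac c.L2 c.B2 (facB2 c F))).1.le

theorem OB_eq (j : c.ι) : c.L.OB c.B c.sl j = sup c.P (univ.erase j) ⊔ c.B2 := rfl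

theorem OB_le (F : Fd) (j : c.ι) : c.L.OB c.B c.sl j ≤ c.W.ms :=
  sup_le (Fib27.sup_le' fun k _ => P_le c F k) (facB2 c F).le

theorem G_row (F : Fd) (q : c.ι) : c.G q = fun k => pull c.W2.μ (c.A q) (c.P k) :=
  funext fun k => (F.a.pull_comp c.X.ms c.W2.μ c.W.μ (c.A q) (c.π k) (mA c q)).symm

theorem G_col1 (F : Fd) (h : c.GI) (q j : c.ι) : c.G q j = pull c.W2.μ (c.Bc j) (c.P q) :=
  (F.a.keq_pull c.X.ms c.W2.μ _ _ (comap_le ((mπ c j).comp (mA c q)))
    (comap_le ((mπ c q).comp (mB c j))) (h.col q j)).trans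
    (F.a.pull_comp c.X.ms c.W2.μ c.W.μ (c.Bc j) (c.π q) (mB c j)).symm

theorem G_col (F : Fd) (h : c.GI) (j : c.ι) :
    (fun q => c.G q j) = fun k => pull c.W2.μ (c.Bc j) (c.P k) :=
  funext fun k => G_col1 c F h k j

theorem G_le (F : Fd) (q j : c.ι) : c.G q j ≤ c.W2.ms :=
  F.a.pull_le c.X.ms c.W2.μ c.X.μ _ ((mπ c j).comp (mA c q)) le_rfl

theorem qc (F : Fd) (h : c.GI) (q j : c.ι) (g : c.W.X → ℂ) (hg : BM c.W.μ c.W.ms g) :
    c.W2.μ[fun x => g (c.Bc j x) | Oc c.G q j ⊔ c.β] =ᵐ[c.W2.μ]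
      fun x => (c.W.μ[g | c.L.OB c.B c.sl q]) (c.Bc j x) := by
  unfold Oc
  rw [G_col c F h, OB_eq]
  exact qq F c.β c.P c.B2 _ c.W2.μ c.W.μ (c.Bc j) (mB c j) (β_le c F) (P_le c F) (facB2 c F).le
    (h.colB j) (h.colE j) g hg

theorem qr (F : Fd) (h : c.GI) (q j : c.ι) (g : c.W.X → ℂ) (hg : BM c.W.μ c.W.ms g) :
    c.W2.μ[fun x => g (c.A q x) | Orow c.G q j ⊔ c.β] =ᵐ[c.W2.μ]
      fun x => (c.W.μ[g | c.L.OB c.B c.sl j]) (c.A q x) := by
  unfold Orow
  rw [G_row c F, OB_eq]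
  exact qq F c.β c.P c.B2 _ c.W2.μ c.W.μ (c.A q) (mA c q) (β_le c F) (P_le c F) (facB2 c F).le
    (h.rowB q) (h.rowE q) g hg

theorem half (F : Fd) (h : c.GI) (h2 : c.F2) (h3 : c.F3) : HG c.β c.G c.W2.μ where
  le := G_le c F
  ble := β_le c F
  rows := fun S hS f hf => h.rows S hS f fun k hk => (hf k hk).mono (by
    beta_reduce
    rw [G_row c F]
    exact Fib27.sup_le' fun i _ => pull_mono _ _ (P_le c F i))
  cols := fun S hS f hf => h.cols S hS f fun k hk => (hf k hk).mono (by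
    beta_reduce
    rw [G_col c F h]
    exact Fib27.sup_le' fun i _ => pull_mono _ _ (P_le c F i))
  f2c := fun q j a ha => by
    unfold Oc
    rw [G_col c F h]
    rw [G_col1 c F h] at ha ⊢
    exact f2g F c.β c.P c.B2 _ c.W2.μ c.W.μ (c.Bc j) (mB c j) (β_le c F) (P_le c F) (facB2 c F).le
      (h.colB j) (h.colE j) q (h2 q) a ha
  f2r := fun q j a ha => by
    unfold Orow
    rw [G_row c F] at ha ⊢
    exact f2g F c.β c.P c.B2 _ c.W2.μ c.W.μ (c.A q) (mA c q) (β_le c F) (P_le c F) (facB2 c F).le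
      (h.rowB q) (h.rowE q) j (h2 j) a ha
  f3 := h3

/-- one slot may be replaced by its mean when the functions of mean zero are invisible -/
theorem repl (F : Fd) (hz : ∀ (j : c.ι) (f : c.X.X → ℂ), BM c.X.μ c.X.ms f →
      c.X.μ[f | c.B] =ᵐ[c.X.μ] 0 → c.W.μ[fun w => f (c.π j w) | c.L.OB c.B c.sl j] =ᵐ[c.W.μ] 0)
    (g : c.ι → c.X.X → ℂ) (hg : ∀ i, BM c.X.μ c.X.ms (g i)) (j : c.ι) :
    c.W.μ[fun w => ∏ i, g i (c.π i w) | c.L.shp c.B] =ᵐ[c.W.μ]
      c.W.μ[fun w => ∏ i, update g j (c.X.μ[g j | c.B]) i (c.π i w) | c.L.shp c.B] := by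
  have hB := c.kc.1.le
  have b0 : BM c.X.μ c.X.ms (c.X.μ[g j | c.B]) := ((hg j).ce c.B).mono hB
  have b1 := (hg j).sub b0
  have z1 : c.X.μ[fun x => g j x - (c.X.μ[g j | c.B]) x | c.B] =ᵐ[c.X.μ] 0 := by
    filter_upwards [Fib27.ce_sub (hg j) b0 c.B, Fib27.BM.ce_self hB ((hg j).ce c.B)] with x h1 h2
    rw [h1, h2, sub_self]
    rfl
  have z2 := hz j _ b1 z1
  have b2 : BM c.W.μ (c.L.OB c.B c.sl j) (pr (fun i w => g i (c.π i w)) (univ.erase j)) :=
    (Fib27.BM.pr_sup (p := c.P) fun k _ =>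
      F.a.bm_comp c.X.ms c.W.μ c.X.μ (c.π k) (g k) (mπ c k) (hg k)).mono le_sup_left
  have hO := OB_le c F j
  have hs : c.L.shp c.B ≤ c.L.OB c.B c.sl j := (F.h.le _ _).trans le_sup_right
  have b3 := bmc F (mπ c j) b1
  have z3 : c.W.μ[fun w => (g j (c.π j w) - (c.X.μ[g j | c.B]) (c.π j w)) *
      pr (fun i w => g i (c.π i w)) (univ.erase j) w | c.L.OB c.B c.sl j] =ᵐ[c.W.μ] 0 := by
    filter_upwards [Fib27.ce_mul' hO b3 b2, z2] with w h1 h2
    rw [h1, h2]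
    simp
  have z4 : c.W.μ[fun w => (g j (c.π j w) - (c.X.μ[g j | c.B]) (c.π j w)) *
      pr (fun i w => g i (c.π i w)) (univ.erase j) w | c.L.shp c.B] =ᵐ[c.W.μ] 0 := by
    refine (condExp_condExp_of_le hs hO).symm.trans ((condExp_congr_ae z3).trans ?_)
    rw [condExp_zero]
  have e1 : (fun w => ∏ i, g i (c.π i w)) = fun w => g j (c.π j w) *
      pr (fun i w => g i (c.π i w)) (univ.erase j) w :=
    funext fun w => (Finset.mul_prod_erase univ (fun i => g i (c.π i w)) (mem_univ j)).symm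
  have e2 : (fun w => ∏ i, update g j (c.X.μ[g j | c.B]) i (c.π i w)) =
      fun w => (c.X.μ[g j | c.B]) (c.π j w) * pr (fun i w => g i (c.π i w)) (univ.erase j) w := by
    funext w
    rw [← Finset.mul_prod_erase univ _ (mem_univ j), update_self]
    congr 1
    exact Finset.prod_congr rfl fun i hi => by rw [update_of_ne (Finset.ne_of_mem_erase hi)]
  rw [e1, e2]
  have b4 := (bmc F (mπ c j) (hg j)).mul (b2.mono hO)
  have b5 := (bmc F (mπ c j) b0).mul (b2.mono hO)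
  filter_upwards [Fib27.ce_sub b4 b5 (c.L.shp c.B), z4] with w h1 h2
  simp only [← sub_mul] at h1
  rw [h1] at h2
  exact sub_eq_zero.1 h2

theorem vis (F : Fd) (hf : c.Fail) : ∃ (j : c.ι) (f : c.X.X → ℂ), BM c.X.μ c.X.ms f ∧
    c.X.μ[f | c.B] =ᵐ[c.X.μ] 0 ∧
    ¬ c.W.μ[fun w => f (c.π j w) | c.L.OB c.B c.sl j] =ᵐ[c.W.μ] 0 := by
  by_contra hn
  push Not at hn
  refine hf fun f hf => ?_
  have hB := c.kc.1.le
  have b0 : ∀ i, BM c.X.μ c.B (c.X.μ[f i | c.B]) := fun i => (hf i (mem_univ i)).ce c.B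
  have ind : ∀ S : Finset c.ι, c.W.μ[fun w => ∏ i, f i (c.π i w) | c.L.shp c.B] =ᵐ[c.W.μ]
      c.W.μ[fun w => ∏ i, S.piecewise (fun i => c.X.μ[f i | c.B]) f i (c.π i w) | c.L.shp c.B] := by
    intro S
    induction S using Finset.induction_on with
    | empty => simp only [Finset.piecewise_empty]; rfl
    | insert j S hj ih =>
      have r := repl c F hn (S.piecewise (fun i => c.X.μ[f i | c.B]) f) (fun i => by
        by_cases hi : i ∈ S
        · rw [Finset.piecewise_eq_of_mem _ _ _ hi]; exact (b0 i).mono hB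
        · rw [Finset.piecewise_eq_of_notMem _ _ _ hi]; exact hf i (mem_univ i)) j
      rw [Finset.piecewise_eq_of_notMem _ _ _ hj] at r
      rw [Finset.piecewise_insert]
      exact ih.trans r
  have h1 := ind univ
  simp only [Finset.piecewise_univ] at h1
  refine h1.trans (Fib27.BM.ce_self (F.lb.fac c.L c.B c.kc.1).le ?_)
  exact Fib27.BM.pr (ρ := fun i w => (c.X.μ[f i | c.B]) (c.π i w)) (S := univ) fun k _ =>
    (F.a.bm_comp c.B c.W.μ c.X.μ (c.π k) _ (mπ c k) (b0 k)).mono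
      (F.lb.slot c.L c.B (c.sl k) c.kc.1)

/-- the row and the column versions of a visible function are correlated -/
theorem corr (F : Fd) (h : c.GI) (j : c.ι) (k : c.W.X → ℂ) (hk : BM c.W.μ c.W.ms k)
    (hz : ∫ x, k (c.Bc j x) * conj (k (c.A j x)) ∂c.W2.μ = 0) : c.W.μ[k | c.P j] =ᵐ[c.W.μ] 0 := by
  have hP := P_le c F j
  obtain ⟨g0, g1, g2⟩ := fct F c.X.ms (mπ c j) le_rfl (hk.conj.ce (c.P j))
  have cs := F.ld.cs c.L2 c.L (c.π j) (c.Bc j) (c.sl j) (c.L.emb (c.sl j)) (c.lift j) _ g0 hk.conj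
    g1 g2.symm
  have e1 : (fun x => g0 (c.π j (c.A j x))) =ᵐ[c.W2.μ] fun x => g0 (c.π j (c.Bc j x)) :=
    F.a.keq_fun c.X.ms c.W2.μ c.X.μ (c.π j ∘ c.A j) (c.π j ∘ c.Bc j) g0 ((mπ c j).comp (mA c j))
      ((mπ c j).comp (mB c j)) (h.col j j) g1.1
  have e2 := Fib27.int_mul_ce (F.a.pull_le c.W.ms c.W2.μ c.W.μ (c.Bc j) (mB c j) le_rfl)
    (F.a.bm_comp c.W.ms c.W2.μ c.W.μ (c.Bc j) k (mB c j) hk) (bmc F (mA c j) hk.conj)
  have e3 : ∫ x, k (c.Bc j x) * g0 (c.π j (c.Bc j x)) ∂c.W2.μ = 0 := by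
    rw [← hz, ← e2]
    refine integral_congr_ae ?_
    filter_upwards [cs, e1] with x h1 h2
    rw [← h2]
    exact congrArg _ h1.symm
  rw [mint (mB c j) (hk.mul (bmc F (mπ c j) g1))] at e3
  refine Fib27.eq_zero_of_int_conj ((hk.ce (c.P j)).mono hP) ?_
  rw [Fib27.int_ce_mul hP hk (hk.ce (c.P j)).conj, ← e3]
  refine integral_congr_ae ?_
  filter_upwards [g2, Fib27.ce_conj hP hk] with w h1 h2
  rw [← h1, h2]

theorem four (F : Fd) (h : c.GI) (X : HGX c.β c.G c.W2.μ) (hf : c.Fail) :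
    ∃ (j : c.ι) (u : c.W2.X → ℂ), VV c.β c.G j j c.W2.μ u ∧ ¬ u =ᵐ[c.W2.μ] 0 ∧
      c.W2.μ[u | c.β] =ᵐ[c.W2.μ] 0 := by
  obtain ⟨j, f, f1, f2, f3⟩ := vis c F hf
  by_contra hn
  apply f3
  have hβ := β_le c F
  have hG : ∀ i, c.G j i ⊔ c.β ≤ c.W2.ms := fun i => sup_le (G_le c F j i) hβ
  obtain ⟨i, hi⟩ : ∃ i : c.ι, i ≠ j := Fintype.exists_ne_of_one_lt_card (by have := c.three; omega) j
  have b0 : BM c.W.μ c.W.ms fun w => f (c.π j w) := bmc F (mπ c j) f1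
  have b1 : BM c.W2.μ (c.G j j) fun x => f (c.π j (c.A j x)) :=
    F.a.bm_comp c.X.ms c.W2.μ c.X.μ (c.π j ∘ c.A j) f ((mπ c j).comp (mA c j)) f1
  have b2 := b1.mono (le_sup_left (b := c.β))
  have e1 : (fun x => f (c.π j (c.A j x))) =ᵐ[c.W2.μ] fun x => f (c.π j (c.Bc j x)) :=
    F.a.keq_fun c.X.ms c.W2.μ c.X.μ (c.π j ∘ c.A j) (c.π j ∘ c.Bc j) f ((mπ c j).comp (mA c j))
      ((mπ c j).comp (mB c j)) (h.col j j) f1.1
  have z0 : c.W.μ[fun w => f (c.π j w) | c.B2] =ᵐ[c.W.μ] 0 := by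
    have hne : ({j} : Finset c.ι) ≠ univ := fun e => hi (mem_singleton.1 (e ▸ mem_univ i))
    have l := h.line {j} hne (fun _ => f) fun _ _ => f1
    simp only [Finset.prod_singleton] at l
    exact l.trans ((mπ c j).quasiMeasurePreserving.ae_eq_comp f2)
  have z1 : c.W2.μ[fun x => f (c.π j (c.A j x)) | c.β] =ᵐ[c.W2.μ] 0 :=
    (h.rowE j _ b0).trans ((mA c j).quasiMeasurePreserving.ae_eq_comp z0)
  have hOc : Oc c.G j j ⊔ c.β ≤ c.W2.ms := sup_le (Fib27.sup_le' fun k _ => G_le c F k j) hβ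
  have perp : Fib27.Perp c.W2.μ (sup (fun i => c.G j i ⊔ c.β) (univ.erase j))
      (c.W2.μ[fun x => f (c.π j (c.A j x)) | Oc c.G j j ⊔ c.β]) := by
    refine Fib27.perp_pr hG ((b1.ce _).mono hOc) fun ρ hρ => ?_
    have ha := Fib27.bm_update hρ b2
    have t := X.f3 j _ ha j i
    rw [update_self, Fib27.pr_update ρ (notMem_erase j univ)] at t
    rw [t]
    generalize hA : update ρ j (fun x => f (c.π j (c.A j x))) = a at ha ⊢
    have aj : a j = fun x => f (c.π j (c.A j x)) := by rw [← hA, update_self]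
    have ha' := Fib27.bm_update ha (X.f2c j i (a i) (ha i))
    generalize hA' : update a i (c.W2.μ[a i | Oc c.G j i ⊔ c.β]) = a' at ha'
    have ai : a' i = c.W2.μ[a i | Oc c.G j i ⊔ c.β] := by rw [← hA', update_self]
    have aj' : a' j = fun x => f (c.π j (c.A j x)) := by rw [← hA', update_of_ne hi.symm, aj]
    have pi : pr a' (univ.erase i) = pr a (univ.erase i) := by
      rw [← hA', Fib27.pr_update a (notMem_erase i univ)]
    have v := X.dual j j i a' hi.symm ha' (by rw [ai]; exact (ha i).ce _)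
    have bp : BM c.W2.μ c.W2.ms (pr a' (univ.erase j)) :=
      Fib27.BM.pr fun k _ => (ha' k).mono (hG k)
    generalize hu : c.W2.μ[pr a' (univ.erase j) | c.G j j ⊔ c.β] = u at v
    have bu := v.1.mono (hG j)
    have bE : BM c.W2.μ c.β (c.W2.μ[u | c.β]) := bu.ce c.β
    have u0 : (fun x => u x - (c.W2.μ[u | c.β]) x) =ᵐ[c.W2.μ] 0 := by
      by_contra hne
      refine hn ⟨j, _, ⟨v.1.sub (bE.mono le_sup_right), v.2.1.sub (bE.mono le_sup_right),
        v.2.2.sub (bE.mono le_sup_right)⟩, hne, ?_⟩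
      filter_upwards [Fib27.ce_sub bu (bE.mono hβ) c.β, Fib27.BM.ce_self hβ bE] with x h1 h2
      rw [h1, h2, sub_self]
      rfl
    have s1 : ∫ x, (c.W2.μ[a i | Oc c.G j i ⊔ c.β]) x * pr a (univ.erase i) x ∂c.W2.μ =
        ∫ x, f (c.π j (c.A j x)) * pr a' (univ.erase j) x ∂c.W2.μ := by
      refine integral_congr_ae (Eventually.of_forall fun x => ?_)
      have p1 := Fib27.pr_erase a' (mem_univ i) x
      have p2 := Fib27.pr_erase a' (mem_univ j) x
      rw [ai, pi] at p1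
      rw [aj'] at p2
      exact p1.symm.trans p2
    rw [s1, ← Fib27.int_mul_ce (hG j) b2 bp, hu]
    have s2 : ∫ x, f (c.π j (c.A j x)) * u x ∂c.W2.μ =
        ∫ x, f (c.π j (c.A j x)) * (c.W2.μ[u | c.β]) x ∂c.W2.μ := by
      refine integral_congr_ae ?_
      filter_upwards [u0] with x hx
      rw [sub_eq_zero.1 hx]
    rw [s2, ← Fib27.int_ce_mul hβ (b2.mono (hG j)) bE]
    refine integral_eq_zero_of_ae ?_
    filter_upwards [z1] with x hx
    rw [hx]
    simp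
  have hle : Orow c.G j j ⊔ c.β ≤ sup (fun i => c.G j i ⊔ c.β) (univ.erase j) :=
    sup_le (Fib27.sup_mono'' subset_rfl fun k _ => le_sup_left)
      (le_trans le_sup_right (Fib27.le_sup' (fun i => c.G j i ⊔ c.β)
        (mem_erase.2 ⟨hi, mem_univ i⟩)))
  have p0 := perp _ ((b1.ce (Orow c.G j j ⊔ c.β)).conj.mono hle)
  have hO := OB_le c F j
  have bk := b0.ce (c.L.OB c.B c.sl j)
  have k0 := corr c F h j _ (bk.mono hO) (by
    rw [← p0]
    refine integral_congr_ae ?_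
    filter_upwards [(condExp_congr_ae e1).trans (qc c F h j j _ b0), qr c F h j j _ b0]
      with x h1 h2
    rw [h1, h2])
  refine Fib27.eq_zero_of_int_conj (bk.mono hO) ?_
  have bP : BM c.W.μ (c.P j) fun w => f (c.π j w) :=
    F.a.bm_comp c.X.ms c.W.μ c.X.μ (c.π j) f (mπ c j) f1
  have s3 := Fib27.int_mul_ce hO bk b0.conj
  have s4 := Fib27.int_ce_mul (P_le c F j) (bk.mono hO) bP.conj
  have s5 : ∫ w, (c.W.μ[c.W.μ[fun w => f (c.π j w) | c.L.OB c.B c.sl j] | c.P j]) w *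
      conj (f (c.π j w)) ∂c.W.μ = 0 := by
    refine integral_eq_zero_of_ae ?_
    filter_upwards [k0] with x hx
    rw [hx]
    simp
  rw [← s5, s4, ← s3]
  refine integral_congr_ae ?_
  filter_upwards [Fib27.ce_conj hO b0] with w hw
  rw [hw]

end HGr

theorem hg : HGR := fun F X c h h2 h3 =>
  ⟨HGr.half c F h h2 h3, HGr.four c F h (X c.β c.G c.W2.μ (HGr.half c F h h2 h3))⟩

end T3x

end
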