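import Pool.Agent.MP_154433_an.t3.Spec

/-! Row Hf: facts on the hull. -/

set_option autoImplicit false
set_option linter.unusedVariables false
set_option warn.classDefReducibility false

open MeasureTheory ProbabilityTheory Filter Topology Function Finset ComplexConjugate
open scoped BigOperators
open Fib27 (BM sup pr Oc Orow F23 LInd Mem)

noncomputable section

namespace T3x

namespace HfP

theorem pull_mono {Ω Ω' : Type} {B C : MeasurableSpace Ω'} {m0 : MeasurableSpace Ω}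
    (μ : Measure Ω) (p : Ω → Ω') (h : B ≤ C) : pull μ p B ≤ pull μ p C :=
  sup_le_sup_right (MeasurableSpace.comap_mono h) _

theorem le_hull (X : Sys) (B : MeasurableSpace X.X) : B ≤ hull X B :=
  le_sInf fun _ hC => hC.1

theorem hull_min (X : Sys) (B C : MeasurableSpace X.X) (h : B ≤ C) (hC : KC X C) :
    hull X B ≤ C := sInf_le ⟨h, hC⟩

theorem hull_mono (X : Sys) (B C : MeasurableSpace X.X) (h : B ≤ C) : hull X B ≤ hull X C :=
  sInf_le_sInf fun _ hD => ⟨h.trans hD.1, hD.2⟩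

theorem kc (b : Bas) (kb : KfB) (X : Sys) (B : MeasurableSpace X.X) (hX : Nice X)
    (hB : Fac X B) : KC X (hull X B) := by
  have ht : KC X X.ms := ⟨b.t.top X, (kb.fac X X.ms hX (b.t.top X)).le⟩
  have hF : Fac X (hull X B) :=
    ⟨hull_min X B X.ms hB.le ht, le_sInf fun C hC => hC.2.1.nl,
      le_sInf fun C hC => (MeasurableSpace.comap_mono (hull_min X B C hC.1 hC.2)).trans hC.2.1.inv,
      le_sInf fun C hC =>
        (MeasurableSpace.comap_mono (hull_min X B C hC.1 hC.2)).trans hC.2.1.inv'⟩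
  exact ⟨hF, le_sInf fun C hC =>
    (kb.mono X _ C hX hF hC.2.1 (hull_min X B C hC.1 hC.2)).trans hC.2.2⟩

theorem ind (b : Bas) (kb : KfB) (X : Sys) (B : MeasurableSpace X.X)
    (Q : MeasurableSpace X.X → Prop) (hX : Nice X) (hB : Fac X B) (h0 : Q B)
    (h1 : ∀ C, Fac X C → B ≤ C → Q C → Q (KK X C))
    (h2 : ∀ 𝒞 : Set (MeasurableSpace X.X), 𝒞.Nonempty → IsChain (· ≤ ·) 𝒞 →
      (∀ C ∈ 𝒞, Fac X C ∧ B ≤ C ∧ Q C) → Q (sSup 𝒞)) : Q (hull X B) := by
  have hk := kc b kb X B hX hB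
  obtain ⟨M, -, hM⟩ := zorn_le_nonempty₀
    {C : MeasurableSpace X.X | Fac X C ∧ B ≤ C ∧ C ≤ hull X B ∧ Q C}
    (fun c hc hch y hy => ⟨sSup c, ⟨b.t.fsSup X c ⟨y, hy⟩ fun C hC => (hc hC).1,
      (hc hy).2.1.trans (le_sSup hy), sSup_le fun C hC => (hc hC).2.2.1,
      h2 c ⟨y, hy⟩ hch fun C hC => ⟨(hc hC).1, (hc hC).2.1, (hc hC).2.2.2⟩⟩,
      fun z hz => le_sSup hz⟩) B ⟨hB, le_rfl, le_hull X B, h0⟩
  obtain ⟨hF, hBM, hMh, hQ⟩ := hM.1
  have hle : M ≤ KK X M := kb.le X M hX hF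
  have hK : KK X M ≤ M := hM.2 ⟨kb.fac X M hX hF, hBM.trans hle,
    (kb.mono X M _ hX hF hk.1 hMh).trans hk.2, h1 M hF hBM hQ⟩ hle
  have : hull X B = M := le_antisymm (hull_min X B M hBM ⟨hF, hK⟩) hMh
  rwa [this]

/-- a function whose square norm is below every positive number vanishes -/
theorem ae_eq_of_sq {Ω : Type} {m0 : MeasurableSpace Ω} (μ : Measure Ω) [IsProbabilityMeasure μ]
    (f g : Ω → ℂ) (hf : BM μ m0 f) (hg : BM μ m0 g)
    (h : ∀ ε : ℝ, 0 < ε → ∫ x, ‖f x - g x‖ ^ 2 ∂μ ≤ ε) : f =ᵐ[μ] g := by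
  have hi : Integrable (fun x => ‖f x - g x‖ ^ 2) μ :=
    ((hf.sub hg).memLp 2).integrable_norm_pow two_ne_zero
  have h0 : ∫ x, ‖f x - g x‖ ^ 2 ∂μ = 0 :=
    le_antisymm (le_of_forall_pos_le_add fun ε hε => by simpa using h ε hε)
      (integral_nonneg fun x => by positivity)
  rw [integral_eq_zero_iff_of_nonneg (fun x => by positivity) hi] at h0
  filter_upwards [h0] with x hx
  simpa [sub_eq_zero] using hx

theorem freq_of_tendsto {u : ℕ → ℝ} (h : Tendsto u atTop (𝓝 0)) (ε : ℝ) (hε : 0 < ε) :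
    ∃ᶠ N : ℕ in atTop, u N ≤ ε :=
  ((h.eventually (gt_mem_nhds hε)).mono fun _ hN => hN.le).frequently

theorem disj (b : Bas) (ka : KfA) (kb : KfB) (X : Sys) (Y D C : MeasurableSpace X.X)
    (hX : Nice X) (hY : Fac X Y) (hD : Fac X D) (hC : Fac X C) (hDY : D ≤ Y) (hDC : D ≤ C)
    (hr : RWM X Y D) (hcp : CP Y D C X.μ) : CP Y D (hull X C) X.μ := by
  refine ind b kb X C (fun C' => CP Y D C' X.μ) hX hC hcp ?_ ?_
  · intro C' hC' hle hq f hf
    have hK := kb.fac X C' hX hC'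
    have hDK : D ≤ KK X C' := hDC.trans (hle.trans (kb.le X C' hX hC'))
    have hE : BM X.μ D (X.μ[f | D]) := hf.ce D
    have hf0 : BM X.μ Y fun x => f x - (X.μ[f | D]) x := hf.sub (hE.mono hDY)
    have hz : X.μ[fun x => f x - (X.μ[f | D]) x | D] =ᵐ[X.μ] 0 := by
      filter_upwards [Fib27.ce_sub (hf.mono hY.le) (hE.mono hD.le) D, hE.ce_self hD.le]
        with x h1 h2
      rw [h1, h2]; simp
    have hw := hr _ hf0 hz
    have hw' : WM X C' fun x => f x - (X.μ[f | D]) x := by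
      refine ka.weak X C' hX hC' _ (hf0.mono hY.le) fun ε hε => ?_
      refine (freq_of_tendsto (hw.2 _ (hf0.mono hY.le).conj) ε hε).mono fun N hN => ?_
      refine le_of_eq_of_le ?_ hN
      congr 1
      refine sum_congr rfl fun n _ => integral_congr_ae ?_
      filter_upwards [hq _ ((b.t.bm X Y n _ hY hf0).mul hf0.conj)] with x hx
      exact congrArg _ hx
    have hz' := (kb.wm X C' hX hC' _ hw'.1).1 hw'
    filter_upwards [Fib27.ce_sub (hf.mono hY.le) (hE.mono hD.le) (KK X C'),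
      (hE.mono hDK).ce_self hK.le, hz'] with x h1 h2 h3
    rw [h1, h2] at h3
    exact sub_eq_zero.1 h3
  · intro 𝒞 hne hch h𝒞 f hf
    have hs : sSup 𝒞 ≤ X.ms := sSup_le fun C' hC' => (h𝒞 C' hC').1.le
    refine ae_eq_of_sq X.μ _ _ ((hf.ce _).mono hs) ((hf.ce _).mono hD.le) fun ε hε => ?_
    obtain ⟨C', hC', h⟩ := b.d.chain 𝒞 X.μ hne hch.directedOn (fun C' hC' => (h𝒞 C' hC').1.le) f
      ((hf.mono hY.le).memLp 2) ε hε
    refine le_of_eq_of_le (integral_congr_ae ?_) (h C' hC' le_rfl)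
    filter_upwards [(h𝒞 C' hC').2.2 f hf] with x hx
    rw [hx]

/-- bounded functions of the pull-back factor through the embedding -/
theorem fact (b : Bas) {X' X : Sys} {p : X'.X → X.X} (hp : Emb X' X p) {f : X'.X → ℂ}
    (hf : BM X'.μ (pull X'.μ p X.ms) f) :
    ∃ f0 : X.X → ℂ, BM X.μ X.ms f0 ∧ f =ᵐ[X'.μ] fun x => f0 (p x) := by
  obtain ⟨h1, C, hC⟩ := hf
  obtain ⟨f0, hm, hb, he⟩ := b.a.fact X.ms X'.μ p f (max C 0) hp.mp.measurable.comap_le
    (le_max_right _ _) h1 (hC.mono fun x hx => hx.trans (le_max_left _ _))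
  exact ⟨f0, ⟨hm.aestronglyMeasurable, max C 0, Eventually.of_forall hb⟩, he⟩

theorem bm_up (b : Bas) {X' X : Sys} {p : X'.X → X.X} (hp : Emb X' X p) {f : X.X → ℂ}
    (hf : BM X.μ X.ms f) : BM X'.μ X'.ms fun x => f (p x) :=
  (b.a.bm_comp X.ms X'.μ X.μ p f hp.mp hf).mono (b.a.pull_le X.ms X'.μ X.μ p hp.mp le_rfl)

theorem shift (b : Bas) {X' X : Sys} {p : X'.X → X.X} (hp : Emb X' X p) {f : X.X → ℂ}
    (hf : BM X.μ X.ms f) (n : ℤ) :
    (fun x => f (p (X'.Tz n x))) =ᵐ[X'.μ] fun x => f (X.Tz n (p x)) :=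
  b.a.keq_fun X.ms X'.μ X.μ (p ∘ X'.Tz n) (X.Tz n ∘ p) f (hp.mp.comp (b.t.mp X' n))
    ((b.t.mp X n).comp hp.mp) (b.t.emb_z X' X p n hp) hf.1

theorem int_up {E : Type} [NormedAddCommGroup E] [NormedSpace ℝ E] {X' X : Sys}
    {p : X'.X → X.X} (hp : Emb X' X p) {φ : X.X → E} (h : AEStronglyMeasurable φ X.μ) :
    ∫ x, φ (p x) ∂X'.μ = ∫ x, φ x ∂X.μ := by
  rw [← hp.mp.map_eq] at h
  rw [← integral_map hp.mp.measurable.aemeasurable h, hp.mp.map_eq]

theorem ae_up {X' X : Sys} {p : X'.X → X.X} (hp : Emb X' X p) {P : X.X → Prop}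
    (h : ∀ᵐ x ∂X.μ, P x) : ∀ᵐ x ∂X'.μ, P (p x) := hp.mp.quasiMeasurePreserving.ae h

theorem meas_up {X' X : Sys} {p : X'.X → X.X} (hp : Emb X' X p) {s : Set X.X}
    (h : MeasurableSet s) : MeasurableSet (p ⁻¹' s) := hp.mp.measurable h

/-- the correlation integrals agree upstairs and downstairs -/
theorem corr (b : Bas) {X' X : Sys} {p : X'.X → X.X} (hp : Emb X' X p)
    {C : MeasurableSpace X.X} (hC : Fac X C) {f g : X.X → ℂ} (hf : BM X.μ X.ms f)
    (hg : BM X.μ X.ms g) (n : ℤ) :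
    ∫ x, ‖(X'.μ[fun y => f (p (X'.Tz n y)) * g (p y) | pull X'.μ p C]) x‖ ∂X'.μ =
      ∫ x, ‖(X.μ[fun y => f (X.Tz n y) * g y | C]) x‖ ∂X.μ := by
  have hb : BM X.μ X.ms fun y => f (X.Tz n y) * g y := (b.t.bm X X.ms n f (b.t.top X) hf).mul hg
  have h1 := b.a.ce_comp C X'.μ X.μ p _ hp.mp hC.le hb.integrable
  have h2 : X'.μ[fun y => f (p (X'.Tz n y)) * g (p y) | pull X'.μ p C] =ᵐ[X'.μ]
      X'.μ[fun y => f (X.Tz n (p y)) * g (p y) | pull X'.μ p C] := by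
    refine condExp_congr_ae ?_
    filter_upwards [shift b hp hf n] with y hy
    rw [hy]
  rw [← int_up hp ((hb.ce C).mono hC.le).1.norm]
  refine integral_congr_ae ?_
  filter_upwards [h1, h2] with x h1 h2
  rw [h2, h1]

theorem ae_down {X' X : Sys} {p : X'.X → X.X} (hp : Emb X' X p) {g : X.X → ℂ}
    (hg : StronglyMeasurable g) (h : (fun x => g (p x)) =ᵐ[X'.μ] 0) : g =ᵐ[X.μ] 0 := by
  rw [← hp.mp.map_eq]
  refine (ae_map_iff hp.mp.measurable.aemeasurable ?_).2 h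
  exact hg.measurable (measurableSet_singleton (0 : ℂ))

theorem rwm (b : Bas) (ka : KfA) (kb : KfB) (X' X : Sys) (p : X'.X → X.X)
    (B : MeasurableSpace X.X) (hX' : Nice X') (hX : Nice X) (hp : Emb X' X p) (hB : KC X B) :
    RWM X' (pull X'.μ p X.ms) (pull X'.μ p B) := by
  intro f hf hz
  obtain ⟨f0, h0, he⟩ := fact b hp hf
  have hK : KK X B = B := le_antisymm hB.2 (kb.le X B hX hB.1)
  have h1 := b.a.ce_comp B X'.μ X.μ p f0 hp.mp hB.1.le h0.integrable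
  have h2 : X.μ[f0 | B] =ᵐ[X.μ] 0 :=
    ae_down hp (stronglyMeasurable_condExp.mono hB.1.le)
      (h1.symm.trans ((condExp_congr_ae he).symm.trans hz))
  have hw : WM X B f0 := (kb.wm X B hX hB.1 f0 (h0.memLp 2)).2 (by rwa [hK])
  have hfm : BM X'.μ X'.ms f := hf.mono (b.a.pull_le X.ms X'.μ X.μ p hp.mp le_rfl)
  refine ka.weak X' _ hX' (b.t.fpull X' X p B hp hB.1) f hfm fun ε hε => ?_
  refine (freq_of_tendsto (hw.2 _ h0.conj) ε hε).mono fun N hN => ?_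
  refine le_of_eq_of_le ?_ hN
  congr 1
  refine sum_congr rfl fun n _ => ?_
  rw [← corr b hp hB.1 h0 h0.conj n]
  refine integral_congr_ae ?_
  have h3 : (fun y => f (X'.Tz n y) * conj (f y)) =ᵐ[X'.μ]
      fun y => f0 (p (X'.Tz n y)) * conj (f0 (p y)) := by
    filter_upwards [he, (b.t.mp X' n).quasiMeasurePreserving.ae he] with y h1 h2
    rw [h1, h2]
  filter_upwards [condExp_congr_ae (m := pull X'.μ p B) h3] with x hx
  rw [hx]

/-- the projection of a weakly mixing function is weakly mixing -/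
theorem wm_down (b : Bas) {X' X : Sys} {p : X'.X → X.X} (hp : Emb X' X p)
    {C : MeasurableSpace X.X} (hC : Fac X C) {f : X'.X → ℂ} (hf : BM X'.μ X'.ms f)
    (hw : WM X' (pull X'.μ p C) f) {f0 : X.X → ℂ} (h0 : BM X.μ X.ms f0)
    (he : X'.μ[f | pull X'.μ p X.ms] =ᵐ[X'.μ] fun x => f0 (p x)) : WM X C f0 := by
  refine ⟨h0.memLp 2, fun g hg => ?_⟩
  have hP : Fac X' (pull X'.μ p X.ms) := b.t.fpull X' X p X.ms hp (b.t.top X)
  have hgp : BM X'.μ (pull X'.μ p X.ms) fun x => g (p x) := b.a.bm_comp X.ms X'.μ X.μ p g hp.mp hg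
  refine (hw.2 _ (hgp.mono hP.le)).congr fun N => ?_
  congr 1
  refine sum_congr rfl fun n _ => ?_
  rw [← corr b hp hC h0 hg n]
  refine integral_congr_ae ?_
  have hfn : BM X'.μ X'.ms fun y => f (X'.Tz n y) := b.t.bm X' X'.ms n f (b.t.top X') hf
  have h1 : X'.μ[fun y => f (X'.Tz n y) * g (p y) | pull X'.μ p X.ms] =ᵐ[X'.μ]
      fun y => f0 (p (X'.Tz n y)) * g (p y) := by
    filter_upwards [Fib27.ce_mul' hP.le hfn hgp, b.t.ce X' _ n f hP hf.integrable,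
      (b.t.mp X' n).quasiMeasurePreserving.ae he] with y h1 h2 h3
    rw [h1, h2, h3]
  have h2 := condExp_condExp_of_le (μ := X'.μ) (f := fun y => f (X'.Tz n y) * g (p y))
    (pull_mono X'.μ p hC.le) hP.le
  filter_upwards [h2, condExp_congr_ae (m := pull X'.μ p C) h1] with x h2 h3
  rw [← h2, h3]

theorem kk_pull (b : Bas) (kb : KfB) {X' X : Sys} {p : X'.X → X.X} (hX' : Nice X') (hX : Nice X)
    (hp : Emb X' X p) {C : MeasurableSpace X.X} (hC : Fac X C) :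
    pull X'.μ p (KK X C) ≤ KK X' (pull X'.μ p C) := by
  have hC' : Fac X' (pull X'.μ p C) := b.t.fpull X' X p C hp hC
  have hK' := kb.fac X' _ hX' hC'
  have hK := kb.fac X C hX hC
  have hP : Fac X' (pull X'.μ p X.ms) := b.t.fpull X' X p X.ms hp (b.t.top X)
  refine sup_le ?_ hK'.nl
  rintro _ ⟨s, hs, rfl⟩
  have hg : BM X.μ (KK X C) (s.indicator fun _ => (1 : ℂ)) := Fib27.BM.indicator hs
  have hG : BM X'.μ (pull X'.μ p X.ms) fun x => s.indicator (fun _ => (1 : ℂ)) (p x) :=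
    b.a.bm_comp X.ms X'.μ X.μ p _ hp.mp (hg.mono hK.le)
  set G : X'.X → ℂ := fun x => s.indicator (fun _ => (1 : ℂ)) (p x) with hGd
  have hGm := hG.mono hP.le
  have hE : BM X'.μ (KK X' (pull X'.μ p C)) (X'.μ[G | KK X' (pull X'.μ p C)]) := hG.ce _
  have hh : BM X'.μ X'.ms fun x => G x - (X'.μ[G | KK X' (pull X'.μ p C)]) x :=
    hGm.sub (hE.mono hK'.le)
  set h : X'.X → ℂ := fun x => G x - (X'.μ[G | KK X' (pull X'.μ p C)]) x with hhd
  have hz : X'.μ[h | KK X' (pull X'.μ p C)] =ᵐ[X'.μ] 0 := by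
    filter_upwards [Fib27.ce_sub hGm (hE.mono hK'.le) (KK X' (pull X'.μ p C)),
      hE.ce_self hK'.le] with x h1 h2
    rw [hhd, h1, h2]; simp
  have hzc : X'.μ[fun x => conj (h x) | KK X' (pull X'.μ p C)] =ᵐ[X'.μ] 0 := by
    filter_upwards [Fib27.ce_conj hK'.le hh, hz] with x h1 h2
    rw [h1, h2]; simp
  have hw : WM X' (pull X'.μ p C) fun x => conj (h x) :=
    (kb.wm X' _ hX' hC' _ (hh.conj.memLp 2)).2 hzc
  obtain ⟨f0, h0, he⟩ := fact b hp (hh.conj.ce (pull X'.μ p X.ms))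
  have hw0 := wm_down b hp hC hh.conj hw h0 he
  have hz0 := (kb.wm X C hX hC f0 hw0.1).1 hw0
  have i1 : ∫ x, f0 x * s.indicator (fun _ => (1 : ℂ)) x ∂X.μ = 0 :=
    Fib27.perp_of_ce hK.le h0 hz0 _ hg
  have i2 : ∫ x, conj (h x) * G x ∂X'.μ = 0 := by
    rw [← Fib27.int_ce_mul hP.le hh.conj hG, ← i1, ← int_up hp (h0.mul (hg.mono hK.le)).1]
    refine integral_congr_ae ?_
    filter_upwards [he] with x hx
    rw [hx]
  have i3 : ∫ x, conj (h x) * (X'.μ[G | KK X' (pull X'.μ p C)]) x ∂X'.μ = 0 :=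
    Fib27.perp_of_ce hK'.le hh.conj hzc _ hE
  have i4 : ∫ x, h x * conj (h x) ∂X'.μ = 0 := by
    have := Fib27.int_sub_mul hGm (hE.mono hK'.le) hh.conj
    rw [hhd] at this ⊢
    rw [this]
    simp only [mul_comm (G _), mul_comm ((X'.μ[G | KK X' (pull X'.μ p C)]) _)]
    rw [hhd] at i2 i3
    rw [i2, i3, sub_zero]
  have h5 := Fib27.eq_zero_of_int_conj hh i4
  have h6 : MeasurableSet[KK X' (pull X'.μ p C) ⊔ nul X'.μ] (p ⁻¹' s) := by
    refine (b.a.mem _ X'.μ hK'.le _).2 ⟨meas_up hp (hK.le s hs),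
      X'.μ[G | KK X' (pull X'.μ p C)] ⁻¹' {1},
      stronglyMeasurable_condExp.measurable (measurableSet_singleton _), ?_⟩
    filter_upwards [h5] with x hx
    have hx' : (X'.μ[G | KK X' (pull X'.μ p C)]) x = G x := (sub_eq_zero.1 hx).symm
    refine propext ?_
    change p x ∈ s ↔ (X'.μ[G | KK X' (pull X'.μ p C)]) x = 1
    rw [hx', hGd]
    by_cases hxs : p x ∈ s <;> simp [hxs]
  rwa [sup_eq_left.2 hK'.nl] at h6

theorem fn (b : Bas) (kb : KfB) (X' X : Sys) (p : X'.X → X.X) (B : MeasurableSpace X.X)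
    (hX' : Nice X') (hX : Nice X) (hp : Emb X' X p) (hB : Fac X B) :
    pull X'.μ p (hull X B) ≤ hull X' (pull X'.μ p B) := by
  have hH := kc b kb X' _ hX' (b.t.fpull X' X p B hp hB)
  refine ind b kb X B (fun C => pull X'.μ p C ≤ hull X' (pull X'.μ p B)) hX hB (le_hull _ _) ?_ ?_
  · intro C hC _ hq
    exact (kk_pull b kb hX' hX hp hC).trans
      ((kb.mono X' _ _ hX' (b.t.fpull X' X p C hp hC) hH.1 hq).trans hH.2)
  · intro 𝒞 _ _ h𝒞
    refine sup_le (MeasurableSpace.comap_le_iff_le_map.2 (sSup_le fun C hC => ?_)) hH.1.nl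
    exact MeasurableSpace.comap_le_iff_le_map.1 (le_sup_left.trans (h𝒞 C hC).2.2)

theorem trans (b : Bas) (X'' X' X : Sys) (B'' : MeasurableSpace X''.X)
    (B' : MeasurableSpace X'.X) (B : MeasurableSpace X.X) (q : X''.X → X'.X) (p : X'.X → X.X)
    (hB : Fac X B) (h2 : Adm X'' B'' X' B' q) (hB' : B' ≤ X'.ms) (h1 : Adm X' B' X B p) :
    Adm X'' B'' X B (p ∘ q) := by
  have he := b.t.emb_comp X'' X' X q p h2.emb h1.emb
  have e1 : ∀ D : MeasurableSpace X.X, pull X''.μ q (pull X'.μ p D) = pull X''.μ (p ∘ q) D :=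
    fun D => b.a.pull_comp D X''.μ X'.μ q p h2.emb.mp
  refine ⟨h2.nice, he, h2.kc, ?_, fun f hf => ?_⟩
  · rw [← e1]
    exact (pull_mono X''.μ q h1.le).trans h2.le
  · obtain ⟨f0, h0, hf0⟩ := fact b he hf
    have hP : pull X'.μ p X.ms ≤ X'.ms := b.a.pull_le X.ms X'.μ X.μ p h1.emb.mp le_rfl
    have hPB : pull X'.μ p B ≤ X'.ms := b.a.pull_le B X'.μ X.μ p h1.emb.mp hB.le
    have hf' : BM X''.μ (pull X''.μ q X'.ms) f := by
      refine hf.mono ?_
      rw [← e1]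
      exact pull_mono X''.μ q hP
    have hg : BM X'.μ (pull X'.μ p X.ms) fun x => f0 (p x) :=
      b.a.bm_comp X.ms X'.μ X.μ p f0 h1.emb.mp h0
    have a1 := h2.cp f hf'
    have a2 := b.a.ce_comp B' X''.μ X'.μ q _ h2.emb.mp hB' (hg.mono hP).integrable
    have a3 := ae_up h2.emb (h1.cp _ hg)
    have a4 := b.a.ce_comp (pull X'.μ p B) X''.μ X'.μ q _ h2.emb.mp hPB (hg.mono hP).integrable
    rw [e1] at a4
    filter_upwards [a1, a2, a3, a4, condExp_congr_ae (m := pull X''.μ q B') hf0,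
      condExp_congr_ae (m := pull X''.μ (p ∘ q) B) hf0] with x a1 a2 a3 a4 a5 a6
    rw [a1, a5, a6]
    exact a2.trans (a3.trans a4.symm)

end HfP

theorem hf : HfR := fun b ka kb =>
  { kc := HfP.kc b kb
    le := HfP.le_hull
    min := HfP.hull_min
    mono := HfP.hull_mono
    ind := HfP.ind b kb
    disj := HfP.disj b ka kb
    rwm := HfP.rwm b ka kb
    fn := HfP.fn b kb
    adm := fun X' X p B C hX' hX hp hB hC hle hcp =>
      ⟨hX', hp, HfP.kc b kb X' C hX' hC, hle.trans (HfP.le_hull X' C),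
        HfP.disj b ka kb X' _ _ C hX' (b.t.fpull X' X p X.ms hp (b.t.top X))
          (b.t.fpull X' X p B hp hB.1) hC (HfP.pull_mono X'.μ p hB.1.le) hle
          (HfP.rwm b ka kb X' X p B hX' hX hp hB) hcp⟩
    trans := fun X'' X' X B'' B' B q p hB h2 h1 =>
      HfP.trans b X'' X' X B'' B' B q p hB h2 h1.kc.1.le h1 }

end T3x

end
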