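import Pool.Agent.MP_154433_an.t3.Spec

/-! Rows Ind and Top. -/

set_option autoImplicit false
set_option linter.unusedVariables false
set_option warn.classDefReducibility false

open MeasureTheory ProbabilityTheory Filter Topology Function Finset ComplexConjugate
open scoped BigOperators
open Fib27 (BM sup pr Oc Orow F23 LInd Mem)

noncomputable section

namespace T3x

theorem indR : IndR := by
  intro fd ind2 sa st step ν U hU erg n
  induction n with
  | zero =>
    intro X B L ι sl S h1 h2 h3 h4 h5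
    exact ind2 fd ν U hU erg X B L ι sl S h1 h2 h3 h4 (h5.trans (by norm_num))
  | succ n ih =>
    intro X B L ι sl S h1 h2 h3 h4 h5
    by_cases h6 : S.card ≤ 2
    · exact ind2 fd ν U hU erg X B L ι sl S h1 h2 h3 h4 h6
    by_cases h7 : S.card ≤ n
    · exact ih X B L ι sl S h1 h2 h3 h4 h7
    classical
    have hc : Fintype.card S = n + 1 := by rw [Fintype.card_coe]; omega
    obtain ⟨X', B', p, L', adm, sat⟩ := st ν U X B S (fun i => sl i.1) h1 h2
    obtain ⟨L2⟩ := fd.line ν U L'.W L'.nice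
    choose Bc hB using fun j : S => fd.la.ex L2 L' (L'.π (sl j.1)) (L'.emb _)
    let c : Ctx :=
      { ν := ν, U := U, hU := hU, erg := erg, ι := S, sl := fun i => sl i.1
        inj := fun i j e => Subtype.ext (h3 i.2 j.2 e), ne := fun i => h4 i.1 i.2
        three := by rw [Fintype.card_coe]; omega
        ind := by rw [hc]; exact ih
        X := X', B := B', nice := adm.nice, kc := adm.kc, L := L', L2 := L2, Bc := Bc, lift := hB }
    have k := sa.fail L' L B' B p (fun i : S => sl i.1) h1 h2 adm (not_not.1 (step c sat))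
    intro f hf
    have k2 := k (fun i => f i.1) fun i _ => hf i.1 i.2
    have e1 : (fun w => ∏ i : S, f i.1 (L.π (sl i.1) w)) = fun w => ∏ i ∈ S, f i (L.π (sl i) w) :=
      funext fun w => prod_coe_sort S fun i => f i (L.π (sl i) w)
    have e2 : (fun w => ∏ i : S, (X.μ[f i.1 | B]) (L.π (sl i.1) w)) =
        fun w => ∏ i ∈ S, (X.μ[f i | B]) (L.π (sl i) w) :=
      funext fun w => prod_coe_sort S fun i => (X.μ[f i | B]) (L.π (sl i) w)
    rwa [e1, e2] at k2

namespace Top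

theorem bm_sum {Ω κ : Type} {m m0 : MeasurableSpace Ω} {μ : Measure Ω} (s : Finset κ)
    (a : κ → Ω → ℂ) (h : ∀ i ∈ s, BM μ m (a i)) : BM μ m fun x => ∑ i ∈ s, a i x := by
  classical
  induction s using Finset.induction_on with
  | empty => simpa using BM.const 0
  | insert j s hj ih =>
    simp only [sum_insert hj]
    exact (h j (mem_insert_self _ _)).add (ih fun i hi => h i (mem_insert_of_mem hi))

theorem bm_prod (t : BasT) (X : Sys) {ι : Type} [Fintype ι] (n : ι → ℤ) (f : ι → X.X → ℂ)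
    (hf : ∀ i, BM X.μ X.ms (f i)) : BM X.μ X.ms fun x => ∏ i, f i (X.Tz (n i) x) :=
  BM.pr (ρ := fun i x => f i (X.Tz (n i) x)) fun i _ => t.bm X _ _ _ (t.top X) (hf i)

theorem bm_avg (t : BasT) (ν : Wt) (M : ℕ) (X : Sys) {ι : Type} [Fintype ι] (r : ι → ℤ)
    (f : ι → X.X → ℂ) (hf : ∀ i, BM X.μ X.ms (f i)) : BM X.μ X.ms (avg ν M X r f) := by
  have e : avg ν M X r f = fun x => ∑ d ∈ ν.sp M, (ν.w M d : ℂ) * ∏ i, f i (X.Tz (r i * d) x) := by
    funext x
    simp only [avg, Wt.av, Complex.real_smul]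
  rw [e]
  exact bm_sum _ _ fun d _ => (bm_prod t X _ f hf).cmul _

/-- the square of the norm of an average is a double average -/
theorem sq_avg (t : BasT) (ν : Wt) (M : ℕ) (X : Sys) {ι : Type} [Fintype ι] (r : ι → ℤ)
    (f : ι → X.X → ℂ) (hf : ∀ i, BM X.μ X.ms (f i)) :
    ((∫ x, ‖avg ν M X r f x‖ ^ 2 ∂X.μ : ℝ) : ℂ) = ν.av2 M fun l => ∫ x,
      (∏ i, f i (X.Tz (r i * l.2.1) x)) * conj (∏ i, f i (X.Tz (r i * l.2.2) x)) ∂X.μ := by
  have hb : ∀ d d' : ℤ, BM X.μ X.ms fun x =>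
      (∏ i, f i (X.Tz (r i * d) x)) * conj (∏ i, f i (X.Tz (r i * d') x)) := fun d d' =>
    (bm_prod t X _ f hf).mul (bm_prod t X _ f hf).conj
  rw [← integral_complex_ofReal]
  simp only [Wt.av2, Wt.av, Complex.real_smul, mul_sum]
  simp only [← integral_const_mul]
  rw [sum_congr rfl fun d _ => (integral_finsetSum _ fun d' _ =>
    (((hb d d').cmul _).cmul _).integrable).symm, ← integral_finsetSum _ fun d _ =>
      (bm_sum _ _ fun d' _ => ((hb d d').cmul _).cmul _).integrable]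
  refine integral_congr_ae (Eventually.of_forall fun x => ?_)
  simp only [avg, Wt.av, Complex.real_smul]
  rw [← Complex.normSq_eq_norm_sq, ← Complex.mul_conj, map_sum, sum_mul_sum]
  refine sum_congr rfl fun d _ => sum_congr rfl fun d' _ => ?_
  rw [map_mul, Complex.conj_ofReal]
  ring

theorem fam_mul {Ω : Type} {B : MeasurableSpace Ω} {F G : Lab × Ω → ℂ} (hF : F ∈ FamS B)
    (hG : G ∈ FamS B) : (fun s => F s * G s) ∈ FamS B := by
  obtain ⟨h1, C, hC⟩ := hF
  obtain ⟨h2, D, hD⟩ := hG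
  refine ⟨fun l => (h1 l).mul (h2 l), C * D, fun s => ?_⟩
  rw [norm_mul]
  exact mul_le_mul (hC s) (hD s) (norm_nonneg _) ((norm_nonneg _).trans (hC s))

theorem char_prod {Ω κ : Type} {B : MeasurableSpace Ω} {χ : (Lab × Ω → ℂ) → ℂ}
    (h : IsChar (FamS B) χ) (s : Finset κ) (F : κ → Lab × Ω → ℂ) (hF : ∀ k, F k ∈ FamS B) :
    (fun z => ∏ k ∈ s, F k z) ∈ FamS B ∧ χ (fun z => ∏ k ∈ s, F k z) = ∏ k ∈ s, χ (F k) := by
  classical
  induction s using Finset.induction_on with
  | empty =>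
    simp only [prod_empty]
    exact ⟨⟨fun l => measurable_const, 1, fun s => by simp⟩, h.const 1⟩
  | insert j s hj ih =>
    simp only [prod_insert hj]
    exact ⟨fam_mul (hF j) ih.1, by rw [h.mul _ (hF j) _ ih.1, ih.2]⟩

theorem ae_comp {Ω Ω' : Type} {m : MeasurableSpace Ω} {m' : MeasurableSpace Ω'} {μ : Measure Ω}
    {μ' : Measure Ω'} {p : Ω → Ω'} (h : MeasurePreserving p μ μ') {f g : Ω' → ℂ}
    (e : f =ᵐ[μ'] g) : ∀ᵐ x ∂μ, f (p x) = g (p x) := h.quasiMeasurePreserving.ae_eq_comp e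

theorem fam_of (t : BasT) (X : Sys) (n : Lab → ℤ) {g : X.X → ℂ} (hg : g ∈ Bdd X.X) :
    (fun z : Lab × X.X => g (X.Tz (n z.1) z.2)) ∈ FamS X.ms := by
  obtain ⟨m, D, b⟩ := hg
  exact ⟨fun l => m.comp (t.mp X (n l)).measurable, D, fun z => b _⟩

/-- averages vanish when one function is orthogonal to the base -/
theorem van (fd : Fd) (ind : IndS) (ν : Wt) (X : Sys) {ι : Type} [Fintype ι] (r : ι → ℤ)
    (C : MeasurableSpace X.X) (erg : ERG ν) (hr : Injective r) (h0 : ∀ i, r i ≠ 0) (hn : Nice X)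
    (hC : KC X C) (f : ι → X.X → ℂ) (hf : ∀ i, BM X.μ X.ms (f i)) (i0 : ι)
    (hz : X.μ[f i0 | C] =ᵐ[X.μ] 0) :
    Tendsto (fun M => ∫ x, ‖avg ν M X r f x‖ ^ 2 ∂X.μ) atTop (𝓝 0) := by
  have hrep : ∀ i, ∃ f' ∈ @Bdd X.X X.ms, f i =ᵐ[X.μ] f' := fun i => by
    obtain ⟨h1, D, hD⟩ := hf i
    obtain ⟨f', m, b, e⟩ := fd.a.rep X.ms X.μ (f i) (max D 0) (le_max_right _ _) h1
      (hD.mono fun x hx => hx.trans (le_max_left _ _))
    exact ⟨f', ⟨m, _, b⟩, e⟩
  choose f' hf' he using hrep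
  let g : ι × Bool → X.X → ℂ := fun s x => if s.2 then f' s.1 x else conj (f' s.1 x)
  let sl : ι × Bool → Slot := fun s => (r s.1, s.2)
  have hg : ∀ s, g s ∈ @Bdd X.X X.ms := by
    rintro ⟨i, _ | _⟩
    · obtain ⟨m, D, b⟩ := hf' i
      exact ⟨Complex.continuous_conj.measurable.comp m, D, fun x => by simpa [g] using b x⟩
    · exact hf' i
  have hgb : ∀ s, BM X.μ X.ms (g s) := fun s => by
    obtain ⟨m, D, b⟩ := hg s
    exact ⟨m.aestronglyMeasurable, D, Eventually.of_forall b⟩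
  have hF : ∀ s, (fun z : Lab × X.X => g s (X.Tz (rho (sl s) z.1) z.2)) ∈ FamS X.ms := fun s =>
    fam_of fd.t X (rho (sl s)) (hg s)
  rw [tendsto_iff_ultrafilter]
  intro U hU
  obtain ⟨L⟩ := fd.line ν U X hn
  have k := ind ν U hU erg _ X C L (ι × Bool) sl univ hn hC
    (fun s _ s' _ e => Prod.ext (hr (Prod.ext_iff.1 e).1) (Prod.ext_iff.1 e).2)
    (fun s _ => h0 s.1) le_rfl g fun s _ => hgb s
  obtain ⟨w0⟩ : Nonempty L.W.X := L.W.μ.nonempty_of_neZero
  have lim := L.lim _ (char_prod (L.ch w0) univ _ hF).1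
  have e0 : ∫ w, L.hat (fun z => ∏ s, g s (X.Tz (rho (sl s) z.1) z.2)) w ∂L.W.μ = 0 := by
    have e1 : L.hat (fun z => ∏ s, g s (X.Tz (rho (sl s) z.1) z.2)) =ᵐ[L.W.μ]
        fun w => ∏ s, g s (L.π (sl s) w) := by
      filter_upwards [ae_all_iff.2 fun s => L.slot (sl s) (g s) (hg s)] with w hw
      rw [(char_prod (L.ch w) univ _ hF).2]
      exact prod_congr rfl fun s _ => (hw s).symm
    rw [integral_congr_ae e1, ← integral_condExp (fd.lb.fac L C hC.1).le, integral_congr_ae k]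
    refine integral_eq_zero_of_ae ?_
    have e2 : X.μ[g (i0, true) | C] =ᵐ[X.μ] 0 := (condExp_congr_ae (he i0).symm).trans hz
    filter_upwards [ae_comp (L.emb (sl (i0, true))).mp e2] with w hw
    exact prod_eq_zero (mem_univ (i0, true)) hw
  rw [e0] at lim
  have e3 : ∀ M, ((∫ x, ‖avg ν M X r f x‖ ^ 2 ∂X.μ : ℝ) : ℂ) =
      ν.av2 M fun l => ∫ x, ∏ s, g s (X.Tz (rho (sl s) l) x) ∂X.μ := fun M => by
    rw [sq_avg fd.t ν M X r f hf]
    congr 1
    funext l
    refine integral_congr_ae ?_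
    filter_upwards [ae_all_iff.2 fun i => ae_comp (fd.t.mp X (r i * l.2.1)) (he i),
      ae_all_iff.2 fun i => ae_comp (fd.t.mp X (r i * l.2.2)) (he i)] with x h1 h2
    rw [Fintype.prod_prod_type, map_prod, ← prod_mul_distrib]
    refine prod_congr rfl fun i _ => ?_
    rw [Fintype.prod_bool]
    exact congrArg₂ (· * ·) (h1 i) (congrArg conj (h2 i))
  have lim2 := (Complex.continuous_re.tendsto _).comp lim
  refine lim2.congr fun M => ?_
  exact (congrArg Complex.re (e3 M)).symm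

end Top

theorem top : TopR := by
  intro fd gf ind ν ν' X ι _ _ r C erg erg' hr h0 hn hC good
  refine gf.dense ν ν' X ι r X.ms
    {φ | BM X.μ C φ ∨ BM X.μ X.ms φ ∧ X.μ[φ | C] =ᵐ[X.μ] 0} (fd.t.top X)
    (fun φ h => h.elim (fun k => k.mono hC.1.le) fun k => k.1) (fun g hg ε hε => ?_) fun f hf => ?_
  · refine ⟨2, ![X.μ[g | C], fun x => g x - (X.μ[g | C]) x], fun i => ?_, ?_⟩
    · fin_cases i
      · exact Or.inl (hg.ce C)
      · exact Or.inr ⟨hg.sub ((hg.ce C).mono hC.1.le),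
          (Fib27.perp_sub_ce hC.1.le hg).ce hC.1.le (hg.sub ((hg.ce C).mono hC.1.le))⟩
    · simp [Fin.sum_univ_two, hε.le]
  by_cases h : ∀ i, BM X.μ C (f i)
  · exact good f h
  obtain ⟨i0, hi⟩ := not_forall.1 h
  have hz := ((hf i0).resolve_left hi).2
  have hb : ∀ i, BM X.μ X.ms (f i) := fun i =>
    (hf i).elim (fun k => k.mono hC.1.le) fun k => k.1
  have l1 := Top.van fd ind ν X r C erg hr h0 hn hC f hb i0 hz
  have l2 := Top.van fd ind ν' X r C erg' hr h0 hn hC f hb i0 hz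
  have l3 := (l1.const_mul 2).add (l2.const_mul 2)
  rw [mul_zero, add_zero] at l3
  refine squeeze_zero (fun M => integral_nonneg fun x => by positivity) (fun M => ?_) l3
  have i1 := ((Top.bm_avg fd.t ν M X r f hb).memLp 2).integrable_norm_pow (by norm_num)
  have i2 := ((Top.bm_avg fd.t ν' M X r f hb).memLp 2).integrable_norm_pow (by norm_num)
  rw [← integral_const_mul, ← integral_const_mul, ← integral_add (i1.const_mul 2) (i2.const_mul 2)]
  refine integral_mono_of_nonneg (Eventually.of_forall fun x => by positivity)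
    ((i1.const_mul 2).add (i2.const_mul 2)) (Eventually.of_forall fun x => ?_)
  have := norm_sub_le (avg ν M X r f x) (avg ν' M X r f x)
  have h2 := norm_nonneg (avg ν M X r f x - avg ν' M X r f x)
  nlinarith [sq_nonneg (‖avg ν M X r f x‖ - ‖avg ν' M X r f x‖)]

end T3x

end
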