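import Pool.Agent.MP_154433_an.t3.Spec

/-! Row Ind2: two slots are independent over the internal base. -/

set_option autoImplicit false
set_option linter.unusedVariables false
set_option warn.classDefReducibility false

open MeasureTheory ProbabilityTheory Filter Topology Function Finset ComplexConjugate
open scoped BigOperators
open Fib27 (BM sup pr Oc Orow F23 LInd Mem)

noncomputable section

namespace T3x

namespace Ind2

theorem ae_comp {Ω Ω' : Type} {m : MeasurableSpace Ω} {m' : MeasurableSpace Ω'} {μ : Measure Ω}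
    {μ' : Measure Ω'} {p : Ω → Ω'} (h : MeasurePreserving p μ μ') {f g : Ω' → ℂ}
    (e : f =ᵐ[μ'] g) : (fun x => f (p x)) =ᵐ[μ] fun x => g (p x) :=
  h.quasiMeasurePreserving.ae_eq_comp e

theorem int_comp {Ω Ω' : Type} {m : MeasurableSpace Ω} {m' : MeasurableSpace Ω'} {μ : Measure Ω}
    {μ' : Measure Ω'} {p : Ω → Ω'} (h : MeasurePreserving p μ μ') {f : Ω' → ℂ}
    (hf : BM μ' m' f) : ∫ x, f (p x) ∂μ = ∫ y, f y ∂μ' := by
  rw [← h.map_eq, integral_map h.measurable.aemeasurable (by rw [h.map_eq]; exact hf.1)]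

theorem bm_comp {Ω Ω' : Type} {m : MeasurableSpace Ω} {m' : MeasurableSpace Ω'} {μ : Measure Ω}
    {μ' : Measure Ω'} {p : Ω → Ω'} (h : MeasurePreserving p μ μ') {f : Ω' → ℂ}
    (hf : BM μ' m' f) : BM μ m fun x => f (p x) := by
  obtain ⟨h1, C, hC⟩ := hf
  exact ⟨h1.comp_measurePreserving h, C, h.quasiMeasurePreserving.ae hC⟩

theorem rep (a : BasA) {Ω : Type} (B : MeasurableSpace Ω) {m0 : MeasurableSpace Ω} {μ : Measure Ω}
    {f : Ω → ℂ} (hf : BM μ B f) : ∃ f' ∈ @Bdd Ω B, f =ᵐ[μ] f' := by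
  obtain ⟨h1, D, hD⟩ := hf
  obtain ⟨f', m, b, e⟩ := a.rep B μ f (max D 0) (le_max_right _ _) h1
    (hD.mono fun x hx => hx.trans (le_max_left _ _))
  exact ⟨f', ⟨m, _, b⟩, e⟩

theorem bdd_bm {Ω : Type} {B m0 : MeasurableSpace Ω} (μ : Measure Ω) {f : Ω → ℂ}
    (hf : f ∈ @Bdd Ω B) : BM μ B f := by
  obtain ⟨m, D, b⟩ := hf
  exact ⟨m.stronglyMeasurable.aestronglyMeasurable, D, Eventually.of_forall b⟩

theorem fam_of (t : BasT) (X : Sys) {B : MeasurableSpace X.X} (hB : Fac X B) (n : Lab → ℤ)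
    {g : X.X → ℂ} (hg : g ∈ @Bdd X.X B) :
    (fun z : Lab × X.X => g (X.Tz (n z.1) z.2)) ∈ FamS B := by
  obtain ⟨m, D, b⟩ := hg
  exact ⟨fun l => m.comp (Measurable.of_comap_le (t.inv X B (n l) hB).le), D, fun z => b _⟩

theorem fam_mul {Ω : Type} {B : MeasurableSpace Ω} {F G : Lab × Ω → ℂ} (hF : F ∈ FamS B)
    (hG : G ∈ FamS B) : (fun s => F s * G s) ∈ FamS B := by
  obtain ⟨h1, C, hC⟩ := hF
  obtain ⟨h2, D, hD⟩ := hG
  refine ⟨fun l => (h1 l).mul (h2 l), C * D, fun s => ?_⟩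
  rw [norm_mul]
  exact mul_le_mul (hC s) (hD s) (norm_nonneg _) ((norm_nonneg _).trans (hC s))

theorem fam_cj {Ω : Type} {B : MeasurableSpace Ω} {F : Lab × Ω → ℂ} (hF : F ∈ FamS B) :
    (fun s => conj (F s)) ∈ FamS B := by
  obtain ⟨h1, C, hC⟩ := hF
  exact ⟨fun l => Complex.continuous_conj.measurable.comp (h1 l), C, fun s => by simpa using hC s⟩

theorem fam_mono {Ω : Type} {B B' : MeasurableSpace Ω} (h : B ≤ B') {F : Lab × Ω → ℂ}
    (hF : F ∈ FamS B) : F ∈ FamS B' := ⟨fun l => (hF.1 l).mono h le_rfl, hF.2⟩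

/-- one slot -/
theorem one (fd : Fd) {ν : Wt} {U : Ultrafilter ℕ} {X : Sys} (L : Ln ν U X)
    (B : MeasurableSpace X.X) (hB : Fac X B) (s : Slot) (f : X.X → ℂ) (hf : BM X.μ X.ms f) :
    L.W.μ[fun w => f (L.π s w) | L.shp B] =ᵐ[L.W.μ] fun w => (X.μ[f | B]) (L.π s w) := by
  obtain ⟨f', hf', e⟩ := rep fd.a X.ms hf
  obtain ⟨k, hk, e'⟩ := rep fd.a B (hf.ce B)
  have h := fd.lb.ce L B hB _ (fam_of fd.t X (fd.t.top X) (rho s) hf') _
    (fam_of fd.t X hB (rho s) hk) fun l =>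
      ((fd.t.ce X B (rho s l) f' hB (bdd_bm X.μ hf').integrable).trans
        (ae_comp (fd.t.mp X (rho s l)) ((condExp_congr_ae e.symm).trans e'))).symm
  exact (condExp_congr_ae ((ae_comp (L.emb s).mp e).trans (L.slot s f' hf'))).trans (h.trans
    ((L.slot s k ⟨hk.1.mono hB.le le_rfl, hk.2⟩).symm.trans (ae_comp (L.emb s).mp e').symm))

/-- the power of a system -/
def pw (t : BasT) (X : Sys) (m : ℤ) : Sys where
  X := X.X
  μ := X.μ
  T := { toEquiv := (X.T.toEquiv : Equiv.Perm X.X) ^ m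
         measurable_toFun := (t.mp X m).measurable
         measurable_invFun := by
           have h := (t.mp X (-m)).measurable
           rw [Sys.Tz, zpow_neg] at h
           exact h }
  mp := t.mp X m

theorem pw_Tz (t : BasT) (X : Sys) (m n : ℤ) : (pw t X m).Tz n = X.Tz (m * n) := by
  rw [Sys.Tz, Sys.Tz, zpow_mul]
  rfl

theorem pw_fac (t : BasT) (X : Sys) (m : ℤ) {B : MeasurableSpace X.X} (hB : Fac X B) :
    Fac (pw t X m) B :=
  ⟨hB.le, hB.nl, by rw [pw_Tz]; exact (t.inv X B _ hB).le, by rw [pw_Tz]; exact (t.inv X B _ hB).le⟩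

theorem pw_pair (t : BasT) {X Z : Sys} (m : ℤ) {B : MeasurableSpace X.X} {p : Bool → Z.X → X.X}
    (h : Pair X B Z p) : Pair (pw t X m) B (pw t Z m) p :=
  ⟨h.nice, fun i => ⟨(h.emb i).mp, t.emb_z Z X (p i) m (h.emb i)⟩, h.com, h.ind, h.gn⟩

theorem perp_l2 {Ω : Type} (I : MeasurableSpace Ω) {m0 : MeasurableSpace Ω} (μ : Measure Ω)
    [IsProbabilityMeasure μ] (hle : I ≤ m0) {Φ G : Ω → ℂ} (hb : BM μ m0 Φ) (hp : Fib27.Perp μ I Φ)
    (hG : MemLp G 2 μ) (hGm : AEStronglyMeasurable[I] G μ) : ∫ z, Φ z * G z ∂μ = 0 := by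
  have z0 := hp.ce hle hb
  have hI : Integrable (fun z => G z * Φ z) μ := hG.integrable_mul (hb.memLp 2)
  have e := condExp_bilin_of_aestronglyMeasurable_left (ContinuousLinearMap.mul ℝ ℂ) hGm hI
    hb.integrable
  simp only [mul_comm _ (G _)]
  rw [← integral_condExp hle]
  refine (integral_congr_ae e).trans (integral_eq_zero_of_ae ?_)
  filter_upwards [z0] with z hz
  simp [hz]

/-- orthogonality to the functions that are invariant under a power -/
theorem orth (fd : Fd) {X Z : Sys} {B : MeasurableSpace X.X} {p : Bool → Z.X → X.X} (hn : Nice X)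
    (hB : Fac X B) (hp : Pair X B Z p) {h k : X.X → ℂ} (hh : BM X.μ X.ms h) (hw : WM X B h)
    (hk : BM X.μ X.ms k) {m : ℤ} (hm : m ≠ 0) (G : Z.X → ℂ) (hG : MemLp G 2 Z.μ)
    (hi : (fun z => G (Z.Tz m z)) =ᵐ[Z.μ] G) :
    ∫ z, h (p false z) * k (p true z) * G z ∂Z.μ = 0 := by
  have w : WM (pw fd.t X m) B h := ⟨hw.1, fun g hg => by
    simp only [pw_Tz]
    exact fd.ka.mult X B hn hB h hw m hm g hg⟩
  have o := (fd.ka.wm_iff (pw fd.t X m) B (pw fd.t Z m) p (pw_fac fd.t X m hB) (pw_pair fd.t m hp)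
    h hw.1).1 w
  have hb : BM Z.μ Z.ms fun z => h (p false z) * k (p true z) :=
    (bm_comp (hp.emb false).mp hh).mul (bm_comp (hp.emb true).mp hk)
  refine @perp_l2 Z.X (Inv (pw fd.t Z m)) Z.ms Z.μ Z.pr (fd.t.finv (pw fd.t Z m)).le _ _ hb
    (fun c hc => ?_) hG
    ((fd.t.inv_iff (pw fd.t Z m) G hG.1).2 hi)
  exact (integral_congr_ae (Eventually.of_forall fun z => mul_right_comm _ _ _)).trans (o c k hc hk)

/-- integrals in the relative square -/
theorem int_pair (fd : Fd) {X Z : Sys} {B : MeasurableSpace X.X} {p : Bool → Z.X → X.X}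
    (hB : Fac X B) (hp : Pair X B Z p) {a b : X.X → ℂ} (ha : BM X.μ X.ms a) (hb : BM X.μ X.ms b) :
    ∫ z, a (p false z) * b (p true z) ∂Z.μ = ∫ x, (X.μ[a | B]) x * (X.μ[b | B]) x ∂X.μ := by
  have e : pull X.μ id B = B := by
    rw [pull, MeasurableSpace.comap_id]
    exact sup_eq_left.2 hB.nl
  have h := hp.ind univ (fun i => _root_.cond i b a) (by rintro (_ | _) _ <;> assumption)
  simp only [Fintype.prod_bool, cond_true, cond_false, e] at h
  have hle := fd.a.pull_le B Z.μ X.μ (id ∘ p false) (hp.emb false).mp hB.le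
  have k := fd.a.keq_fun B Z.μ X.μ (id ∘ p true) (id ∘ p false) (X.μ[b | B]) (hp.emb true).mp
    (hp.emb false).mp (hp.com true) (hb.ce B).1
  simp only [mul_comm (a _)]
  rw [← integral_condExp hle, integral_congr_ae h,
    ← int_comp (hp.emb false).mp (((ha.ce B).mul (hb.ce B)).mono hB.le)]
  refine integral_congr_ae ?_
  filter_upwards [k] with z hz
  rw [mul_comm]
  exact congrArg _ hz

theorem av_le (ν : Wt) (M : ℕ) (φ : ℤ → ℂ) (c : ℝ) (h : ∀ d, ‖φ d‖ ≤ c) : ‖ν.av M φ‖ ≤ c := by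
  refine (norm_sum_le_of_le _ (n := fun d => ν.w M d * c) fun d _ => ?_).trans ?_
  · rw [norm_smul, Real.norm_of_nonneg (ν.nn M d)]
    exact mul_le_mul_of_nonneg_left (h d) (ν.nn M d)
  · rw [← sum_mul, ν.one, one_mul]

def lab (b : Bool) (M : ℕ) (d d' : ℤ) : Lab := if b then (M, d, d') else (M, d', d)

theorem av2_eq (ν : Wt) (M : ℕ) (b : Bool) (φ : Lab → ℂ) :
    ν.av2 M φ = ν.av M fun d' => ν.av M fun d => φ (lab b M d d') := by
  cases b
  · rfl
  · simp only [Wt.av2, Wt.av, lab, if_true, smul_sum]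
    rw [sum_comm]
    exact sum_congr rfl fun d _ => sum_congr rfl fun d' _ => smul_comm _ _ _

/-- correlations along two different slots -/
theorem corr (t : BasT) (ν : Wt) (Z : Sys) {s s' : Slot} (hs : s ≠ s') (h0 : s.1 ≠ 0)
    {H G : Z.X → ℂ} (hH : BM Z.μ Z.ms H) (hG : BM Z.μ Z.ms G)
    (hz : ∀ m : ℤ, m ≠ 0 →
      Tendsto (fun M => ∫ z, ‖ν.av M fun d => H (Z.Tz (m * d) z)‖ ^ 2 ∂Z.μ) atTop (𝓝 0)) :
    Tendsto (fun M => ν.av2 M fun l => ∫ z, H (Z.Tz (rho s l) z) * G (Z.Tz (rho s' l) z) ∂Z.μ)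
      atTop (𝓝 0) := by
  have hT : ∀ (n : ℤ) {f}, BM Z.μ Z.ms f → BM Z.μ Z.ms fun z => f (Z.Tz n z) := fun n f hf =>
    bm_comp (t.mp Z n) hf
  obtain ⟨m, k, hm, e⟩ : ∃ (m : ℤ) (k : ℤ → ℤ), m ≠ 0 ∧ ∀ M d d',
      ∫ z, H (Z.Tz (rho s (lab s.2 M d d')) z) * G (Z.Tz (rho s' (lab s.2 M d d')) z) ∂Z.μ =
        ∫ z, H (Z.Tz (m * d) z) * G (Z.Tz (k d') z) ∂Z.μ := by
    obtain ⟨r, b⟩ := s
    obtain ⟨r', b'⟩ := s'
    by_cases hb : b = b'
    · subst hb
      refine ⟨r - r', fun _ => 0, fun e => hs (by rw [sub_eq_zero.1 e]), fun M d d' => ?_⟩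
      rw [← int_comp (t.mp Z (r' * d)) ((hT ((r - r') * d) hH).mul (hT 0 hG))]
      simp only [← t.add]
      cases b <;> simp [rho, lab, sub_mul]
    · refine ⟨r, fun d' => r' * d', h0, fun M d d' => ?_⟩
      cases b <;> cases b' <;> simp [rho, lab] at hb ⊢
  obtain ⟨-, C, hC⟩ := id hG
  have l := ((hz m hm).sqrt).mul_const (max C 0)
  rw [Real.sqrt_zero, zero_mul] at l
  refine squeeze_zero_norm (fun M => ?_) l
  rw [av2_eq ν M s.2]
  refine av_le ν M _ _ fun d' => ?_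
  simp only [e]
  have hA : MemLp (fun z => ν.av M fun d => H (Z.Tz (m * d) z)) 2 Z.μ :=
    memLp_finsetSum _ fun d _ => ((hT (m * d) hH).memLp 2).const_smul (ν.w M d)
  have e2 : (ν.av M fun d => ∫ z, H (Z.Tz (m * d) z) * G (Z.Tz (k d') z) ∂Z.μ) =
      ∫ z, (ν.av M fun d => H (Z.Tz (m * d) z)) * G (Z.Tz (k d') z) ∂Z.μ := by
    simp only [Wt.av, sum_mul, smul_mul_assoc]
    refine Eq.trans ?_ (integral_finsetSum (f := fun d z => ν.w M d • (H (Z.Tz (m * d) z) *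
      G (Z.Tz (k d') z))) _ fun d _ => ((hT _ hH).mul (hT _ hG)).integrable.smul (ν.w M d)).symm
    exact sum_congr rfl fun d _ => (integral_smul _ _).symm
  rw [e2]
  have hI := (hA.integrable (by norm_num)).norm
  refine (norm_integral_le_of_norm_le (hI.mul_const (max C 0)) ?_).trans ?_
  · filter_upwards [(t.mp Z (k d')).quasiMeasurePreserving.ae hC] with z hz
    rw [norm_mul]
    exact mul_le_mul_of_nonneg_left (hz.trans (le_max_left _ _)) (norm_nonneg _)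
  · rw [integral_mul_const]
    refine mul_le_mul_of_nonneg_right (Real.le_sqrt_of_sq_le ?_) (le_max_right _ _)
    have v := variance_nonneg (fun z => ‖ν.av M fun d => H (Z.Tz (m * d) z)‖) Z.μ
    rw [variance_eq_sub hA.norm] at v
    exact sub_nonneg.1 v

theorem bm_sq {X Z : Sys} {B : MeasurableSpace X.X} {p : Bool → Z.X → X.X} (hp : Pair X B Z p)
    {f : X.X → ℂ} (hf : BM X.μ X.ms f) :
    BM Z.μ Z.ms fun z => f (p false z) * conj (f (p true z)) :=
  (bm_comp (hp.emb false).mp hf).mul (bm_comp (hp.emb true).mp hf.conj)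

theorem emb_fun (fd : Fd) {X Z : Sys} {p : Z.X → X.X} (hp : Emb Z X p) (n : ℤ) {f : X.X → ℂ}
    (hf : BM X.μ X.ms f) : (fun z => f (p (Z.Tz n z))) =ᵐ[Z.μ] fun z => f (X.Tz n (p z)) :=
  fd.a.keq_fun X.ms Z.μ X.μ (p ∘ Z.Tz n) (X.Tz n ∘ p) f (hp.mp.comp (fd.t.mp Z n))
    ((fd.t.mp X n).comp hp.mp) (fd.t.emb_z Z X p n hp) hf.1

theorem sq_int (fd : Fd) {X Z : Sys} {B : MeasurableSpace X.X} {p : Bool → Z.X → X.X}
    (hB : Fac X B) (hp : Pair X B Z p) {h g k : X.X → ℂ} (bh : BM X.μ X.ms h) (bg : BM X.μ X.ms g)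
    (n n' : ℤ) (e : k =ᵐ[X.μ] X.μ[fun x => h (X.Tz n x) * g (X.Tz n' x) | B]) :
    ∫ x, k x * conj (k x) ∂X.μ =
      ∫ z, h (p false (Z.Tz n z)) * conj (h (p true (Z.Tz n z))) *
        (g (p false (Z.Tz n' z)) * conj (g (p true (Z.Tz n' z)))) ∂Z.μ := by
  have b : BM X.μ X.ms fun x => h (X.Tz n x) * g (X.Tz n' x) :=
    (bm_comp (fd.t.mp X n) bh).mul (bm_comp (fd.t.mp X n') bg)
  refine Eq.trans (integral_congr_ae ?_) ((int_pair fd hB hp b b.conj).symm.trans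
    (integral_congr_ae ?_))
  · filter_upwards [e, Fib27.ce_conj hB.le b] with x h1 h2
    rw [h2, h1]
  · filter_upwards [emb_fun fd (hp.emb false) n bh, emb_fun fd (hp.emb true) n bh,
      emb_fun fd (hp.emb false) n' bg, emb_fun fd (hp.emb true) n' bg] with z h1 h2 h3 h4
    rw [h1, h2, h3, h4, map_mul]
    ring

theorem sq_lim (fd : Fd) {ν : Wt} (erg : ERG ν) {X : Sys} (B : MeasurableSpace X.X) (hn : Nice X)
    (hB : KC X B) {s s' : Slot} (hs : s ≠ s') (h0 : s.1 ≠ 0) {h g : X.X → ℂ} (bh : BM X.μ X.ms h)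
    (bg : BM X.μ X.ms g) (hz : X.μ[h | B] =ᵐ[X.μ] 0) (k : Lab × X.X → ℂ)
    (e : ∀ l, (fun x => k (l, x)) =ᵐ[X.μ]
      X.μ[fun x => h (X.Tz (rho s l) x) * g (X.Tz (rho s' l) x) | B]) :
    Tendsto (fun M => ν.av2 M fun l => ∫ x, k (l, x) * conj (k (l, x)) ∂X.μ) atTop (𝓝 0) := by
  obtain ⟨Z, p, hp⟩ : ∃ Z p, Pair X B Z p := fd.rp Bool (fun _ => X) X B (fun _ => id) false
    (fun _ => hn) hB.1 (fun _ => (fd.t.emb_id X).mp) fun _ A _ => by rw [id_comp, comp_id]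
  have hw : WM X B h := (fd.kb.wm X B hn hB.1 h (bh.memLp 2)).2
    (by rwa [le_antisymm hB.2 (fd.kb.le X B hn hB.1)])
  have l0 : ∀ m : ℤ, m ≠ 0 → Tendsto (fun M => ∫ z, ‖ν.av M fun d =>
      (fun z => h (p false z) * conj (h (p true z))) (Z.Tz (m * d) z)‖ ^ 2 ∂Z.μ) atTop (𝓝 0) :=
    fun m hm => (fd.mix ν erg).zero Z m (fun z => h (p false z) * conj (h (p true z)))
      ((bm_sq hp bh).memLp 2) fun G hG hi => orth fd hn hB.1 hp bh hw bh.conj hm G hG hi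
  have l := corr fd.t ν Z hs h0 (bm_sq hp bh) (bm_sq hp bg) l0
  have e3 : (fun l => ∫ x, k (l, x) * conj (k (l, x)) ∂X.μ) = _ :=
    funext fun l => sq_int fd hB.1 hp bh bg _ _ (e l)
  rw [e3]
  exact l

/-- a function of conditional mean zero in one of two slots -/
theorem key (fd : Fd) {ν : Wt} {U : Ultrafilter ℕ} (hU : (U : Filter ℕ) ≤ atTop) (erg : ERG ν)
    {X : Sys} (L : Ln ν U X) (B : MeasurableSpace X.X) (hn : Nice X) (hB : KC X B) {s s' : Slot}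
    (hs : s ≠ s') (h0 : s.1 ≠ 0) {h g : X.X → ℂ} (hh : h ∈ @Bdd X.X X.ms) (hg : g ∈ @Bdd X.X X.ms)
    (hz : X.μ[h | B] =ᵐ[X.μ] 0) :
    L.W.μ[fun w => h (L.π s w) * g (L.π s' w) | L.shp B] =ᵐ[L.W.μ] 0 := by
  have bh := bdd_bm X.μ hh
  have bg := bdd_bm X.μ hg
  have F1 := fam_of fd.t X (fd.t.top X) (rho s) hh
  have F2 := fam_of fd.t X (fd.t.top X) (rho s') hg
  obtain ⟨F', hF', e⟩ := fd.lb.cex X B hB.1 _ (fam_mul F1 F2)
  have e1 : (fun w => h (L.π s w) * g (L.π s' w)) =ᵐ[L.W.μ]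
      L.hat fun z => h (X.Tz (rho s z.1) z.2) * g (X.Tz (rho s' z.1) z.2) := by
    filter_upwards [L.slot s h hh, L.slot s' g hg] with w h1 h2
    rw [h1, h2, (L.ch w).mul _ F1 _ F2]
  have e2 := (condExp_congr_ae (m := L.shp B) e1).trans (fd.lb.ce L B hB.1 _ (fam_mul F1 F2) F' hF' e)
  have hm := fam_mono hB.1.le hF'
  have z0 := tendsto_nhds_unique (L.lim _ (fam_mul hm (fam_cj hm)))
    ((sq_lim fd erg B hn hB hs h0 bh bg hz F' e).mono_left hU)
  have bb := ((bm_comp (L.emb s).mp bh).mul (bm_comp (L.emb s').mp bg)).ce (L.shp B)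
  refine Fib27.eq_zero_of_int_conj (bb.mono (fd.lb.fac L B hB.1).le) ((integral_congr_ae ?_).trans z0)
  filter_upwards [e2] with w hw
  rw [hw, (L.ch w).mul _ hm _ (fam_cj hm), (L.ch w).cj _ hm]

end Ind2

open Ind2 in
theorem ind2 : Ind2R := by
  intro fd ν U hU erg X B L ι sl S hn hB hi h0 hc f hf
  classical
  have hle := (fd.lb.fac L B hB.1).le
  rcases (show S.card = 0 ∨ S.card = 1 ∨ S.card = 2 by omega) with h | h | h
  · rw [card_eq_zero.1 h]
    simp only [prod_empty]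
    rw [condExp_const hle]
  · obtain ⟨i, rfl⟩ := card_eq_one.1 h
    simp only [prod_singleton]
    exact one fd L B hB.1 _ _ (hf i (mem_singleton_self i))
  obtain ⟨i, j, hij, rfl⟩ := card_eq_two.1 h
  simp only [prod_pair hij]
  have mi : i ∈ ({i, j} : Finset ι) := by simp
  have mj : j ∈ ({i, j} : Finset ι) := by simp
  have bf := hf i mi
  have bg := hf j mj
  have be := (bf.ce B).mono hB.1.le
  obtain ⟨h', hh', eh⟩ := rep fd.a X.ms (bf.sub be)
  obtain ⟨g', hg', eg⟩ := rep fd.a X.ms bg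
  have k := key fd hU erg L B hn hB (fun e => hij (hi mi mj e)) (h0 i mi) hh' hg'
    ((condExp_congr_ae eh.symm).trans
      ((Fib27.perp_sub_ce hB.1.le bf).ce hB.1.le (bf.sub be)))
  have pi := (L.emb (sl i)).mp
  have pj := (L.emb (sl j)).mp
  have b1 := (fd.a.bm_comp B L.W.μ X.μ _ _ pi (bf.ce B)).mono (fd.lb.slot L B (sl i) hB.1)
  have k1 := Fib27.ce_mul hle b1 (bm_comp pj bg)
  have e : (fun w => f i (L.π (sl i) w) * f j (L.π (sl j) w)) =ᵐ[L.W.μ]
      (fun w => (X.μ[f i | B]) (L.π (sl i) w) * f j (L.π (sl j) w)) +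
        fun w => h' (L.π (sl i) w) * g' (L.π (sl j) w) := by
    filter_upwards [ae_comp pi eh, ae_comp pj eg] with w h1 h2
    rw [Pi.add_apply, ← h1, ← h2]
    ring
  filter_upwards [condExp_congr_ae (m := L.shp B) e, condExp_add
    ((b1.mono hle).mul (bm_comp pj bg)).integrable ((bm_comp pi (bdd_bm X.μ hh')).mul
      (bm_comp pj (bdd_bm X.μ hg'))).integrable (L.shp B), k, k1,
    one fd L B hB.1 (sl j) _ bg] with w h1 h2 h3 h4 h5
  rw [h1, h2, Pi.add_apply, h3, h4, h5, Pi.zero_apply, add_zero]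

end T3x

end
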