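import Pool.Agent.MP_154433_an.t3.Spec

/-! Lifts of embeddings to the lines. -/

set_option autoImplicit false
set_option linter.unusedVariables false
set_option warn.classDefReducibility false

open MeasureTheory ProbabilityTheory Filter Topology Function Finset ComplexConjugate
open scoped BigOperators ENNReal NNReal

noncomputable section

namespace T3x

namespace LfAx

/-- the sets whose two preimages agree up to null sets -/
def ks {Ω Ω' : Type} {m0 : MeasurableSpace Ω} (μ : Measure Ω) (a a' : Ω → Ω') :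
    MeasurableSpace Ω' where
  MeasurableSet' A := a ⁻¹' A =ᵐ[μ] a' ⁻¹' A
  measurableSet_empty := by simp
  measurableSet_compl A h := by simpa using h.compl
  measurableSet_iUnion f h := by
    simp only [Set.preimage_iUnion]
    exact Filter.EventuallyEq.countable_iUnion h

lemma keq_gen {Ω W S : Type} {m0 : MeasurableSpace Ω} (μ : Measure Ω) (A : Set (S → ℂ))
    (hat : (S → ℂ) → W → ℂ) (a a' : Ω → W)
    (h : ∀ F ∈ A, (fun x => hat F (a x)) =ᵐ[μ] fun x => hat F (a' x)) :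
    KEq μ (gen A hat) a a' := by
  have h1 : gen A hat ≤ ks μ a a' := by
    refine iSup₂_le fun F hF => ?_
    rintro _ ⟨E, hE, rfl⟩
    change a ⁻¹' (hat F ⁻¹' E) =ᵐ[μ] a' ⁻¹' (hat F ⁻¹' E)
    refine eventuallyEq_set.2 ((h F hF).mono fun x hx => ?_)
    simp only [Set.mem_preimage] at hx ⊢
    rw [hx]
  exact fun E hE => h1 E hE

lemma meas_gen {W S : Type} (A : Set (S → ℂ)) (hat : (S → ℂ) → W → ℂ) {F : S → ℂ} (hF : F ∈ A) :
    Measurable[gen A hat] (hat F) :=
  measurable_iff_comap_le.2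
    (le_iSup₂ (f := fun F (_ : F ∈ A) => MeasurableSpace.comap (hat F) inferInstance) F hF)

/-- two probability measures that agree on a generating algebra are equal -/
lemma ext_gen (hb : Bas) {W S : Type} [m : MeasurableSpace W] (A : Set (S → ℂ)) (hA : SAlg A)
    (hat : (S → ℂ) → W → ℂ) (ch : ∀ w, IsChar A fun F => hat F w) (gn : m = gen A hat)
    (μ1 μ2 : Measure W) [IsProbabilityMeasure μ1] [IsProbabilityMeasure μ2]
    (h : ∀ F ∈ A, ∫ w, hat F w ∂μ1 = ∫ w, hat F w ∂μ2) : μ1 = μ2 := by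
  have hm : ∀ F ∈ A, Measurable (hat F) := fun F hF => by
    have := meas_gen A hat hF
    rwa [← gn] at this
  have hbd : ∀ F ∈ A, ∃ C : ℝ, ∀ w, ‖hat F w‖ ≤ C := fun F hF => by
    obtain ⟨C, hC⟩ := hA.bdd F hF
    exact ⟨C, fun w => (ch w).bdd F hF C hC⟩
  set κ : Measure W := (2⁻¹ : ℝ≥0∞) • (μ1 + μ2) with hκ
  have : IsProbabilityMeasure κ := ⟨by
    simp only [hκ, Measure.smul_apply, Measure.add_apply, measure_univ, smul_eq_mul]
    rw [one_add_one_eq_two]
    exact ENNReal.inv_mul_cancel (by norm_num) (by norm_num)⟩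
  have a0 : μ1 + μ2 ≪ κ := Measure.absolutelyContinuous_smul (by norm_num)
  have a1 : μ1 ≪ κ := (Measure.absolutelyContinuous_of_le (Measure.le_add_right le_rfl)).trans a0
  have a2 : μ2 ≪ κ := (Measure.absolutelyContinuous_of_le (Measure.le_add_left le_rfl)).trans a0
  set g : W → ℂ := fun w => (((μ1.rnDeriv κ w).toReal : ℝ) : ℂ) - (((μ2.rnDeriv κ w).toReal : ℝ) : ℂ)
    with hg
  have i1 : Integrable (fun w => (((μ1.rnDeriv κ w).toReal : ℝ) : ℂ)) κ :=
    (Measure.integrable_toReal_rnDeriv (μ := μ1) (ν := κ)).ofReal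
  have i2 : Integrable (fun w => (((μ2.rnDeriv κ w).toReal : ℝ) : ℂ)) κ :=
    (Measure.integrable_toReal_rnDeriv (μ := μ2) (ν := κ)).ofReal
  have gi : Integrable g κ := i1.sub i2
  have e : gen (hat '' A) id ⊔ nul κ = m := by
    refine le_antisymm (sup_le ?_ (hb.a.nul_le κ)) (le_sup_of_le_left ?_)
    · refine iSup₂_le ?_
      rintro _ ⟨F, hF, rfl⟩
      exact measurable_iff_comap_le.1 (hm F hF)
    · rw [gn]
      refine iSup₂_le fun F hF => ?_
      exact measurable_iff_comap_le.1 (meas_gen (hat '' A) id ⟨F, hF, rfl⟩)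
  have key := hb.d.perp κ (hat '' A) ?_ ?_ ?_ ?_ g gi ?_
  · rw [e] at key
    have k2 : g =ᵐ[κ] 0 :=
      (condExp_of_aestronglyMeasurable' le_rfl gi.aestronglyMeasurable gi).symm.trans key
    have k3 : μ1.rnDeriv κ =ᵐ[κ] μ2.rnDeriv κ := by
      filter_upwards [k2, Measure.rnDeriv_lt_top μ1 κ, Measure.rnDeriv_lt_top μ2 κ] with w h0 h1 h2
      have h3 : (μ1.rnDeriv κ w).toReal = (μ2.rnDeriv κ w).toReal := by
        have h4 : g w = 0 := h0
        rw [hg] at h4
        exact_mod_cast sub_eq_zero.1 h4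
      exact (ENNReal.toReal_eq_toReal_iff' h1.ne h2.ne).1 h3
    rw [← Measure.withDensity_rnDeriv_eq μ1 κ a1, ← Measure.withDensity_rnDeriv_eq μ2 κ a2]
    exact withDensity_congr_ae k3
  · rintro _ ⟨F, hF, rfl⟩
    exact ⟨hm F hF, hbd F hF⟩
  · exact ⟨_, ⟨_, hA.const 1, rfl⟩, Eventually.of_forall fun w => (ch w).const 1⟩
  · rintro _ ⟨F, hF, rfl⟩ _ ⟨G, hG, rfl⟩
    exact ⟨_, ⟨_, hA.mul F hF G hG, rfl⟩, Eventually.of_forall fun w => (ch w).mul F hF G hG⟩
  · rintro _ ⟨F, hF, rfl⟩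
    exact ⟨_, ⟨_, hA.cj F hF, rfl⟩, Eventually.of_forall fun w => (ch w).cj F hF⟩
  · rintro _ ⟨F, hF, rfl⟩
    obtain ⟨C, hC⟩ := hbd F hF
    have j1 := i1.mul_bdd (hm F hF).aestronglyMeasurable (Eventually.of_forall hC)
    have j2 := i2.mul_bdd (hm F hF).aestronglyMeasurable (Eventually.of_forall hC)
    have r1 := integral_rnDeriv_smul (f := hat F) a1
    have r2 := integral_rnDeriv_smul (f := hat F) a2
    simp only [Complex.real_smul] at r1 r2
    simp only [hg, sub_mul]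
    rw [integral_sub j1 j2, r1, r2, h F hF, sub_self]

lemma salg {Ω : Type} (B : MeasurableSpace Ω) : SAlg (FamS B) where
  const c := ⟨fun l => measurable_const, ‖c‖, fun _ => le_rfl⟩
  add := by
    rintro F ⟨h1, C, hC⟩ G ⟨h2, D, hD⟩
    exact ⟨fun l => (h1 l).add (h2 l), C + D, fun s => (norm_add_le _ _).trans
      (add_le_add (hC s) (hD s))⟩
  mul := by
    rintro F ⟨h1, C, hC⟩ G ⟨h2, D, hD⟩
    refine ⟨fun l => (h1 l).mul (h2 l), C * D, fun s => ?_⟩
    rw [norm_mul]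
    exact mul_le_mul (hC s) (hD s) (norm_nonneg _) ((norm_nonneg _).trans (hC s))
  cj := by
    rintro F ⟨h1, C, hC⟩
    exact ⟨fun l => Complex.continuous_conj.measurable.comp (h1 l), C, fun s => by
      simpa using hC s⟩
  bdd F hF := hF.2

lemma fam_comp {Ω Ω' : Type} {B : MeasurableSpace Ω} {B' : MeasurableSpace Ω'} {p : Ω' → Ω}
    (hp : Measurable[B', B] p) {F : Lab × Ω → ℂ} (hF : F ∈ FamS B) :
    (fun z : Lab × Ω' => F (z.1, p z.2)) ∈ FamS B' := by
  obtain ⟨h1, C, hC⟩ := hF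
  exact ⟨fun l => (h1 l).comp hp, C, fun s => hC _⟩

lemma fam_mono {Ω : Type} {B B' : MeasurableSpace Ω} (h : B ≤ B') {F : Lab × Ω → ℂ}
    (hF : F ∈ FamS B) : F ∈ FamS B' :=
  ⟨fun l => (hF.1 l).mono h le_rfl, hF.2⟩

lemma hat_meas {ν : Wt} {U : Ultrafilter ℕ} {X : Sys} (L : Ln ν U X) {F : Lab × X.X → ℂ}
    (hF : F ∈ FamS X.ms) : Measurable (L.hat F) := by
  have := meas_gen (FamS X.ms) L.hat hF
  rwa [← L.gn] at this

/-- families pulled back along equivalent maps have the same internal function -/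
lemma hat_keq (hb : Bas) (hl : LfB) {ν : Wt} {U : Ultrafilter ℕ} {X' : Sys} (L' : Ln ν U X')
    {Ω : Type} {m : MeasurableSpace Ω} (μ : Measure Ω) (a a' : Lab → X'.X → Ω)
    (ha : ∀ l, MeasurePreserving (a l) X'.μ μ) (ha' : ∀ l, MeasurePreserving (a' l) X'.μ μ)
    (hk : ∀ l, KEq X'.μ m (a l) (a' l)) {F : Lab × Ω → ℂ} (hF : F ∈ FamS m) :
    L'.hat (fun z => F (z.1, a z.1 z.2)) =ᵐ[L'.W.μ] L'.hat (fun z => F (z.1, a' z.1 z.2)) := by
  obtain ⟨h1, C, hC⟩ := hF
  refine hl.congr L' _ ⟨fun l => (h1 l).comp (ha l).measurable, C, fun s => hC _⟩ _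
    ⟨fun l => (h1 l).comp (ha' l).measurable, C, fun s => hC _⟩ fun l => ?_
  exact hb.a.keq_fun m X'.μ μ (a l) (a' l) (fun x => F (l, x)) (ha l) (ha' l) (hk l)
    (h1 l).aestronglyMeasurable

lemma ex (hb : Bas) (hl : LfB) {ν : Wt} {U : Ultrafilter ℕ} {X' X : Sys} (L' : Ln ν U X')
    (L : Ln ν U X) (p : X'.X → X.X) (hp : Emb X' X p) : ∃ Lp, IsLift L' L p Lp := by
  have hc : ∀ F ∈ FamS X.ms, (fun z : Lab × X'.X => F (z.1, p z.2)) ∈ FamS X'.ms :=
    fun F hF => fam_comp hp.mp.measurable hF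
  have hch : ∀ w', IsChar (FamS X.ms) fun F => L'.hat (fun z => F (z.1, p z.2)) w' := fun w' =>
    { const := fun c => (L'.ch w').const c
      add := fun F hF G hG => (L'.ch w').add _ (hc F hF) _ (hc G hG)
      mul := fun F hF G hG => (L'.ch w').mul _ (hc F hF) _ (hc G hG)
      cj := fun F hF => (L'.ch w').cj _ (hc F hF)
      bdd := fun F hF C hC => (L'.ch w').bdd _ (hc F hF) C fun s => hC _ }
  choose Lp hLp using fun w' => L.all _ (hch w')
  have hm : Measurable Lp := by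
    refine measurable_iff_comap_le.2 ?_
    have e : MeasurableSpace.comap Lp L.W.ms = MeasurableSpace.comap Lp (gen (FamS X.ms) L.hat) :=
      congrArg _ L.gn
    refine e.trans_le ?_
    simp only [gen, MeasurableSpace.comap_iSup, MeasurableSpace.comap_comp]
    refine iSup₂_le fun F hF => ?_
    have e2 : L.hat F ∘ Lp = L'.hat fun z => F (z.1, p z.2) := funext fun w => hLp w F hF
    rw [e2]
    exact measurable_iff_comap_le.1 (hat_meas L' (hc F hF))
  have hmp : MeasurePreserving Lp L'.W.μ L.W.μ := by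
    refine ⟨hm, ?_⟩
    have : IsProbabilityMeasure (L'.W.μ.map Lp) := Measure.isProbabilityMeasure_map hm.aemeasurable
    refine ext_gen hb (FamS X.ms) (salg _) L.hat L.ch L.gn _ _ fun F hF => ?_
    rw [integral_map hm.aemeasurable (hat_meas L hF).aestronglyMeasurable]
    have e2 : (fun w => L.hat F (Lp w)) = L'.hat fun z => F (z.1, p z.2) :=
      funext fun w => hLp w F hF
    rw [e2]
    have t1 := L'.lim _ (hc F hF)
    have t2 := L.lim F hF
    have e3 : (fun M => ν.av2 M fun l => ∫ x, F (l, p x) ∂X'.μ) =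
        fun M => ν.av2 M fun l => ∫ x, F (l, x) ∂X.μ := by
      funext M
      congr 1
      funext l
      rw [← hp.mp.map_eq, integral_map hp.mp.measurable.aemeasurable
        (hF.1 l).aestronglyMeasurable]
    exact tendsto_nhds_unique (e3 ▸ t1) t2
  refine ⟨Lp, ⟨hmp, ?_⟩, fun F hF => Eventually.of_forall fun w => hLp w F hF⟩
  have k := keq_gen L'.W.μ (FamS X.ms) L.hat (Lp ∘ L'.W.T) (L.W.T ∘ Lp) fun F hF => ?_
  · rwa [← L.gn] at k
  have hT : (fun s : Lab × X.X => F (s.1, X.T s.2)) ∈ FamS X.ms := fam_comp X.T.measurable hF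
  have k2 := hat_keq hb hl L' X.μ (fun _ => p ∘ X'.T) (fun _ => X.T ∘ p)
    (fun _ => hp.mp.comp X'.mp) (fun _ => X.mp.comp hp.mp) (fun _ => hp.eqv) hF
  refine k2.mono fun w hw => ?_
  simp only [Function.comp_apply] at hw ⊢
  rw [hLp _ F hF, ← L'.eqv _ (hc F hF), ← L.eqv F hF, hLp _ _ hT]
  exact hw

lemma slot (hb : Bas) (hl : LfB) {ν : Wt} {U : Ultrafilter ℕ} {X' X : Sys} (L' : Ln ν U X')
    (L : Ln ν U X) (p : X'.X → X.X) (Lp : L'.W.X → L.W.X) (s : Slot) (hp : Emb X' X p)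
    (h : IsLift L' L p Lp) : KEq L'.W.μ X.ms (L.π s ∘ Lp) (p ∘ L'.π s) := by
  refine hb.a.keq_of X.ms L'.W.μ _ _ fun f hf hf1 => ?_
  have f1 : f ∈ Bdd X.X := ⟨hf, 1, hf1⟩
  have f2 : (fun x => f (p x)) ∈ Bdd X'.X := ⟨hf.comp hp.mp.measurable, 1, fun x => hf1 _⟩
  have f3 : (fun z : Lab × X.X => f (X.Tz (rho s z.1) z.2)) ∈ FamS X.ms :=
    ⟨fun l => hf.comp (hb.t.mp X (rho s l)).measurable, 1, fun z => hf1 _⟩
  have f4 : (fun z : Lab × X.X => f z.2) ∈ FamS X.ms := ⟨fun l => hf, 1, fun z => hf1 _⟩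
  have k1 := h.emb.mp.quasiMeasurePreserving.ae_eq_comp (L.slot s f f1)
  have k2 := h.hat _ f3
  have k3 := hat_keq hb hl L' X.μ (fun l => p ∘ X'.Tz (rho s l)) (fun l => X.Tz (rho s l) ∘ p)
    (fun l => hp.mp.comp (hb.t.mp X' _)) (fun l => (hb.t.mp X _).comp hp.mp)
    (fun l => hb.t.emb_z X' X p _ hp) f4
  have k4 := L'.slot s _ f2
  filter_upwards [k1, k2, k3, k4] with w h1 h2 h3 h4
  simp only [Function.comp_apply] at h1 h2 h3 h4 ⊢
  rw [h1, h2, h4]
  exact h3.symm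

lemma shp (hb : Bas) {ν : Wt} {U : Ultrafilter ℕ} {X' X : Sys} (L' : Ln ν U X')
    (L : Ln ν U X) (p : X'.X → X.X) (Lp : L'.W.X → L.W.X) (B : MeasurableSpace X.X)
    (B' : MeasurableSpace X'.X) (h : IsLift L' L p Lp) (hB : Fac X B) (hB' : Fac X' B')
    (hle : pull X'.μ p B ≤ B') : pull L'.W.μ Lp (L.shp B) ≤ L'.shp B' := by
  have g1 : gen (FamS B') L'.hat ≤ L'.W.ms := iSup₂_le fun F hF =>
    measurable_iff_comap_le.1 (hat_meas L' (fam_mono hB'.le hF))
  have hp : Measurable[B', B] p := measurable_iff_comap_le.2 (le_sup_left.trans hle)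
  refine sup_le ?_ le_sup_right
  rw [Ln.shp, MeasurableSpace.comap_sup]
  refine sup_le ?_ (le_sup_of_le_right ?_)
  · simp only [gen, MeasurableSpace.comap_iSup, MeasurableSpace.comap_comp]
    refine iSup₂_le fun F hF => ?_
    rintro _ ⟨E, hE, rfl⟩
    have F0 := fam_mono hB.le hF
    refine (hb.a.mem _ L'.W.μ g1 _).2 ⟨((hat_meas L F0).comp h.emb.mp.measurable) hE,
      _, meas_gen (FamS B') L'.hat (fam_comp hp hF) hE, ?_⟩
    refine eventuallyEq_set.2 ((h.hat F F0).mono fun w hw => ?_)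
    simp only [Set.mem_preimage, Function.comp_apply] at hw ⊢
    rw [hw]
  · rw [nul, MeasurableSpace.comap_generateFrom]
    refine MeasurableSpace.generateFrom_mono ?_
    rintro _ ⟨A, ⟨h1, h2⟩, rfl⟩
    exact ⟨h.emb.mp.measurable h1, by rw [h.emb.mp.measure_preimage h1.nullMeasurableSet, h2]⟩

end LfAx

theorem lfA : LfAR := fun hb hl =>
  { ex := fun L' L p hp => LfAx.ex hb hl L' L p hp
    slot := fun L' L p Lp s hp h => LfAx.slot hb hl L' L p Lp s hp h
    shp := fun L' L p Lp B B' _ h hB hB' hle => LfAx.shp hb L' L p Lp B B' h hB hB' hle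
    uniq := by
      intro ν U X' X L' L p p' Lp Lp' hp hp' hk h h'
      have k := LfAx.keq_gen L'.W.μ (FamS X.ms) L.hat Lp Lp' fun F hF =>
        (h.hat F hF).trans ((LfAx.hat_keq hb hl L' X.μ (fun _ => p) (fun _ => p')
          (fun _ => hp.mp) (fun _ => hp'.mp) (fun _ => hk) hF).trans (h'.hat F hF).symm)
      rwa [← L.gn] at k
    comp := by
      intro ν U X'' X' X L'' L' L q p Lq Lp hq hp h1 h2
      refine ⟨hb.t.emb_comp _ _ _ _ _ h1.emb h2.emb, fun F hF => ?_⟩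
      have k1 := h1.emb.mp.quasiMeasurePreserving.ae_eq_comp (h2.hat F hF)
      have k2 := h1.hat _ (LfAx.fam_comp hp.mp.measurable hF)
      exact k1.trans k2 }

end T3x

end
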