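import Pool.Agent.MP_154433_an.t3.Spec

/-! Row LfB: internal functions on the limit system. -/

set_option autoImplicit false
set_option linter.unusedVariables false
set_option warn.classDefReducibility false

open MeasureTheory ProbabilityTheory Filter Topology Function Finset ComplexConjugate
open scoped BigOperators
open Fib27 (BM)

noncomputable section

namespace T3x

namespace LfBx

section Alg

variable {Ω : Type} {B : MeasurableSpace Ω} {F G : Lab × Ω → ℂ}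

theorem fam_const (B : MeasurableSpace Ω) (c : ℂ) : (fun _ => c) ∈ FamS B :=
  ⟨fun _ => measurable_const, ‖c‖, fun _ => le_rfl⟩

theorem fam_add (hF : F ∈ FamS B) (hG : G ∈ FamS B) : (fun s => F s + G s) ∈ FamS B := by
  obtain ⟨h1, C, hC⟩ := hF
  obtain ⟨h2, D, hD⟩ := hG
  exact ⟨fun l => (h1 l).add (h2 l), C + D,
    fun s => (norm_add_le _ _).trans (add_le_add (hC s) (hD s))⟩

theorem fam_mul (hF : F ∈ FamS B) (hG : G ∈ FamS B) : (fun s => F s * G s) ∈ FamS B := by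
  obtain ⟨h1, C, hC⟩ := hF
  obtain ⟨h2, D, hD⟩ := hG
  refine ⟨fun l => (h1 l).mul (h2 l), C * D, fun s => ?_⟩
  rw [norm_mul]
  exact mul_le_mul (hC s) (hD s) (norm_nonneg _) ((norm_nonneg _).trans (hC s))

theorem fam_map (hF : F ∈ FamS B) {φ : ℂ → ℂ} (hφ : Continuous φ) :
    (fun s => φ (F s)) ∈ FamS B := by
  obtain ⟨h1, C, hC⟩ := hF
  obtain ⟨D, hD⟩ := (isCompact_closedBall (0 : ℂ) C).exists_bound_of_continuousOn hφ.continuousOn
  exact ⟨fun l => hφ.measurable.comp (h1 l), D, fun s => hD _ (by simpa using hC s)⟩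

theorem fam_cmul (c : ℂ) (hF : F ∈ FamS B) : (fun s => c * F s) ∈ FamS B :=
  fam_mul (fam_const B c) hF

theorem fam_cj (hF : F ∈ FamS B) : (fun s => conj (F s)) ∈ FamS B :=
  fam_map hF Complex.continuous_conj

theorem fam_sub (hF : F ∈ FamS B) (hG : G ∈ FamS B) : (fun s => F s - G s) ∈ FamS B := by
  have := fam_add hF (fam_cmul (-1) hG)
  simpa [sub_eq_add_neg] using this

theorem fam_nrm (hF : F ∈ FamS B) : (fun s => (‖F s‖ : ℂ)) ∈ FamS B :=
  fam_map hF (φ := fun z => (‖z‖ : ℂ)) (Complex.continuous_ofReal.comp continuous_norm)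

theorem fam_mono {B' : MeasurableSpace Ω} (h : B ≤ B') (hF : F ∈ FamS B) : F ∈ FamS B' :=
  ⟨fun l => (hF.1 l).mono h le_rfl, hF.2⟩

variable {χ : (Lab × Ω → ℂ) → ℂ}

theorem ch_cmul (h : IsChar (FamS B) χ) (c : ℂ) (hF : F ∈ FamS B) :
    χ (fun s => c * F s) = c * χ F := by
  have := h.mul _ (fam_const B c) _ hF
  rw [h.const] at this
  exact this

theorem ch_sub (h : IsChar (FamS B) χ) (hF : F ∈ FamS B) (hG : G ∈ FamS B) :
    χ (fun s => F s - G s) = χ F - χ G := by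
  have h1 := h.add _ hF _ (fam_cmul (-1) hG)
  rw [ch_cmul h _ hG] at h1
  simpa [sub_eq_add_neg] using h1

theorem ch_pos (h : IsChar (FamS B) χ) {r : Lab × Ω → ℝ} (hr : ∀ s, 0 ≤ r s)
    (hF : (fun s => (r s : ℂ)) ∈ FamS B) : ∃ t : ℝ, 0 ≤ t ∧ χ (fun s => (r s : ℂ)) = t := by
  have h1 := h.cj _ hF
  simp only [Complex.conj_ofReal] at h1
  obtain ⟨C, hC⟩ := hF.2
  have hC' : ∀ s, r s ≤ C := fun s => by
    have := hC s
    rw [Complex.norm_real, Real.norm_eq_abs] at this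
    exact (le_abs_self _).trans this
  have h2 := h.bdd _ (fam_sub (fam_const B (C : ℂ)) hF) C fun s => by
    rw [← Complex.ofReal_sub, Complex.norm_real, Real.norm_eq_abs, abs_le]
    constructor <;> linarith [hr s, hC' s]
  rw [ch_sub h (fam_const B _) hF, h.const] at h2
  have h3 := (Complex.re_le_norm _).trans h2
  simp only [Complex.sub_re, Complex.ofReal_re] at h3
  exact ⟨(χ fun s => (r s : ℂ)).re, by linarith, (Complex.conj_eq_iff_re.1 h1.symm).symm⟩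

theorem ch_nrm (h : IsChar (FamS B) χ) (hF : F ∈ FamS B) :
    χ (fun s => (‖F s‖ : ℂ)) = (‖χ F‖ : ℂ) := by
  obtain ⟨t, ht, e⟩ := ch_pos h (fun s => norm_nonneg (F s)) (fam_nrm hF)
  have h1 := h.mul _ (fam_nrm hF) _ (fam_nrm hF)
  have h2 := h.mul _ hF _ (fam_cj hF)
  have h3 : (fun s => (‖F s‖ : ℂ) * (‖F s‖ : ℂ)) = fun s => F s * conj (F s) := by
    funext s
    rw [Complex.mul_conj, Complex.normSq_eq_norm_sq]
    push_cast
    ring
  rw [h3, h2, h.cj _ hF, e, Complex.mul_conj, Complex.normSq_eq_norm_sq] at h1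
  have h4 : ‖χ F‖ ^ 2 = t ^ 2 := by
    have : ((‖χ F‖ ^ 2 : ℝ) : ℂ) = ((t ^ 2 : ℝ) : ℂ) := by
      rw [h1]
      push_cast
      ring
    exact_mod_cast this
  rw [e, (pow_left_inj₀ (norm_nonneg _) ht two_ne_zero).1 h4]

/-- radial retraction to the disc of radius `C` -/
def clip (C : ℝ) (z : ℂ) : ℂ := ((C / max C ‖z‖ : ℝ) : ℂ) * z

theorem max_eq (C : ℝ) (z : ℂ) : ((max C ‖z‖ : ℝ) : ℂ) =
    (1 / 2 : ℂ) * (((C : ℂ) + (‖z‖ : ℂ)) + (‖(C : ℂ) - (‖z‖ : ℂ)‖ : ℂ)) := by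
  rw [← Complex.ofReal_sub, Complex.norm_real, Real.norm_eq_abs]
  have : max C ‖z‖ = (1 / 2 : ℝ) * ((C + ‖z‖) + |C - ‖z‖|) := by
    rcases le_total C ‖z‖ with h | h
    · rw [max_eq_right h, abs_of_nonpos (by linarith)]; ring
    · rw [max_eq_left h, abs_of_nonneg (by linarith)]; ring
  rw [this]
  push_cast
  ring

theorem clip_cont {C : ℝ} (hC : 0 < C) : Continuous (clip C) := by
  refine Continuous.mul (Complex.continuous_ofReal.comp ?_) continuous_id
  exact continuous_const.div (continuous_const.max continuous_norm)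
    fun z => (lt_max_of_lt_left hC).ne'

theorem clip_le {C : ℝ} (hC : 0 < C) (z : ℂ) : ‖clip C z‖ ≤ C := by
  have hm : 0 < max C ‖z‖ := lt_max_of_lt_left hC
  rw [clip, norm_mul, Complex.norm_real, Real.norm_of_nonneg (div_pos hC hm).le,
    div_mul_eq_mul_div, div_le_iff₀ hm]
  exact mul_le_mul_of_nonneg_left (le_max_right _ _) hC.le

theorem clip_near {C : ℝ} (hC : 0 < C) (g z : ℂ) (hg : ‖g‖ ≤ C) :
    ‖g - clip C z‖ ≤ 2 * ‖g - z‖ := by
  rcases le_total ‖z‖ C with h | h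
  · rw [clip, max_eq_left h, div_self hC.ne']
    simp only [Complex.ofReal_one, one_mul]
    linarith [norm_nonneg (g - z)]
  · have hz : 0 < ‖z‖ := hC.trans_le h
    have h1 : ‖z - clip C z‖ = ‖z‖ - C := by
      have : z - clip C z = ((1 - C / ‖z‖ : ℝ) : ℂ) * z := by
        rw [clip, max_eq_right h]
        push_cast
        ring
      rw [this, norm_mul, Complex.norm_real,
        Real.norm_of_nonneg (sub_nonneg.2 ((div_le_one hz).2 h))]
      field_simp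
    have h2 : ‖z‖ - ‖g‖ ≤ ‖g - z‖ := by
      rw [norm_sub_rev]
      exact norm_sub_norm_le _ _
    have h3 : ‖g - clip C z‖ ≤ ‖g - z‖ + ‖z - clip C z‖ := norm_sub_le_norm_sub_add_norm_sub _ _ _
    linarith

theorem ch_clip (h : IsChar (FamS B) χ) {C : ℝ} (hC : 0 < C) (hF : F ∈ FamS B) :
    χ (fun s => clip C (F s)) = clip C (χ F) := by
  have hm : ∀ z : ℂ, ((max C ‖z‖ : ℝ) : ℂ) ≠ 0 := fun z => by
    exact_mod_cast (lt_max_of_lt_left hC).ne'
  have a1 := fam_add (fam_const B (C : ℂ)) (fam_nrm hF)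
  have a2 := fam_sub (fam_const B (C : ℂ)) (fam_nrm hF)
  have a3 := fam_add a1 (fam_nrm a2)
  have h1 : χ (fun s => ((max C ‖F s‖ : ℝ) : ℂ)) = ((max C ‖χ F‖ : ℝ) : ℂ) := by
    simp only [max_eq]
    rw [ch_cmul h _ a3, h.add _ a1 _ (fam_nrm a2), h.add _ (fam_const B _) _ (fam_nrm hF),
      ch_nrm h a2, ch_sub h (fam_const B _) (fam_nrm hF), h.const, ch_nrm h hF]
  have a4 : (fun s => ((max C ‖F s‖ : ℝ) : ℂ)) ∈ FamS B := by
    simp only [max_eq]
    exact fam_cmul _ a3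
  have h2 := h.mul _ (fam_map hF (clip_cont hC)) _ a4
  have h3 : (fun s => clip C (F s) * ((max C ‖F s‖ : ℝ) : ℂ)) = fun s => (C : ℂ) * F s := by
    funext s
    have := hm (F s)
    rw [clip, Complex.ofReal_div]
    field_simp
  rw [h3, ch_cmul h _ hF, h1] at h2
  have := hm (χ F)
  rw [clip, Complex.ofReal_div]
  field_simp
  exact h2.symm

end Alg

theorem gen_meas {S Ω : Type} {A : Set (S → ℂ)} (hat : (S → ℂ) → Ω → ℂ) {F : S → ℂ}
    (hF : F ∈ A) : Measurable[gen A hat] (hat F) :=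
  measurable_iff_comap_le.2 (le_iSup₂_of_le (f := fun F (_ : F ∈ A) =>
    MeasurableSpace.comap (hat F) (inferInstance : MeasurableSpace ℂ)) F hF le_rfl)

theorem gen_le {S Ω : Type} {A : Set (S → ℂ)} (hat : (S → ℂ) → Ω → ℂ) {m : MeasurableSpace Ω}
    (h : ∀ F ∈ A, Measurable[m] (hat F)) : gen A hat ≤ m :=
  iSup₂_le fun F hF => measurable_iff_comap_le.1 (h F hF)

theorem gen_image {S Ω : Type} (A : Set (S → ℂ)) (hat : (S → ℂ) → Ω → ℂ) :
    gen (hat '' A) id = gen A hat := by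
  unfold gen
  rw [iSup_image]
  rfl

variable {ν : Wt} {U : Ultrafilter ℕ} {X : Sys}

theorem hat_meas (L : Ln ν U X) {F : Lab × X.X → ℂ} (hF : F ∈ FamS X.ms) :
    Measurable[L.W.ms] (L.hat F) := by
  rw [L.gn]
  exact gen_meas _ hF

theorem hat_bdd (L : Ln ν U X) {F : Lab × X.X → ℂ} (hF : F ∈ FamS X.ms) :
    L.hat F ∈ @Bdd L.W.X L.W.ms := by
  obtain ⟨C, hC⟩ := hF.2
  exact ⟨hat_meas L hF, C, fun w => (L.ch w).bdd F hF C hC⟩

theorem hat_bm (L : Ln ν U X) {F : Lab × X.X → ℂ} (hF : F ∈ FamS X.ms) :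
    BM L.W.μ L.W.ms (L.hat F) := by
  obtain ⟨h1, C, hC⟩ := hat_bdd L hF
  exact ⟨h1.aestronglyMeasurable, C, Eventually.of_forall hC⟩

theorem int_zero (L : Ln ν U X) {F : Lab × X.X → ℂ} (hF : F ∈ FamS X.ms)
    (h : ∀ l, ∫ x, F (l, x) ∂X.μ = 0) : ∫ w, L.hat F w ∂L.W.μ = 0 := by
  have h1 := L.lim F hF
  simp only [h, Wt.av2, Wt.av, smul_zero, sum_const_zero] at h1
  exact tendsto_nhds_unique h1 tendsto_const_nhds

theorem shp_le (a : BasA) (L : Ln ν U X) {B : MeasurableSpace X.X} (h : B ≤ X.ms) :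
    L.shp B ≤ L.W.ms :=
  sup_le (gen_le _ fun F hF => hat_meas L (fam_mono h hF)) (a.nul_le _)

theorem hat_shp (L : Ln ν U X) {B : MeasurableSpace X.X} {F : Lab × X.X → ℂ} (hF : F ∈ FamS B) :
    Measurable[L.shp B] (L.hat F) := (gen_meas L.hat hF).mono le_sup_left le_rfl

theorem fam_tz (t : BasT) {B : MeasurableSpace X.X} (h : Fac X B) {F : Lab × X.X → ℂ}
    (hF : F ∈ FamS B) (n : Lab → ℤ) : (fun s : Lab × X.X => F (s.1, X.Tz (n s.1) s.2)) ∈ FamS B := by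
  obtain ⟨h1, C, hC⟩ := hF
  refine ⟨fun l => ?_, C, fun s => hC _⟩
  have hm : Measurable[B, B] (X.Tz (n l)) := measurable_iff_comap_le.2 (t.inv X B (n l) h).le
  exact (h1 l).comp hm

theorem fam_bm {B : MeasurableSpace X.X} {F : Lab × X.X → ℂ} (hF : F ∈ FamS B) (l : Lab) :
    BM X.μ B fun x => F (l, x) := by
  obtain ⟨h1, C, hC⟩ := hF
  exact ⟨(h1 l).stronglyMeasurable.aestronglyMeasurable, C, Eventually.of_forall fun x => hC _⟩

theorem cong (L : Ln ν U X) {F F' : Lab × X.X → ℂ} (hF : F ∈ FamS X.ms) (hF' : F' ∈ FamS X.ms)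
    (h : ∀ l, (fun x => F (l, x)) =ᵐ[X.μ] fun x => F' (l, x)) : L.hat F =ᵐ[L.W.μ] L.hat F' := by
  have hD := fam_sub hF hF'
  have h0 := int_zero L (fam_mul hD (fam_cj hD)) fun l => by
    refine integral_eq_zero_of_ae ?_
    filter_upwards [h l] with x hx
    simp [hx]
  have h1 : ∀ w, L.hat (fun s => (F s - F' s) * conj (F s - F' s)) w =
      (L.hat F w - L.hat F' w) * conj (L.hat F w - L.hat F' w) := fun w => by
    have e1 := (L.ch w).mul _ hD _ (fam_cj hD)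
    have e2 := (L.ch w).cj _ hD
    have e3 := ch_sub (L.ch w) hF hF'
    rw [e1, e2, e3]
  simp only [h1] at h0
  filter_upwards [Fib27.eq_zero_of_int_conj ((hat_bm L hF).sub (hat_bm L hF')) h0] with w hw
  exact sub_eq_zero.1 hw

theorem fac (b : Bas) (L : Ln ν U X) {B : MeasurableSpace X.X} (h : Fac X B) :
    Fac L.W (L.shp B) := by
  have hb := b.t.bot L.W
  have key : ∀ n : ℤ, (∀ F ∈ FamS X.ms, ∀ w, L.hat F (L.W.Tz n w) =
      L.hat (fun s => F (s.1, X.Tz n s.2)) w) → (L.shp B).comap (L.W.Tz n) ≤ L.shp B := by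
    intro n hn
    unfold Ln.shp
    rw [MeasurableSpace.comap_sup]
    refine sup_le_sup ?_ (b.t.inv L.W _ n hb).le
    refine MeasurableSpace.comap_le_iff_le_map.2 (gen_le _ fun F hF => ?_)
    have h1 : Measurable[gen (FamS B) L.hat] (L.hat fun s => F (s.1, X.Tz n s.2)) :=
      gen_meas _ (fam_tz b.t h hF fun _ => n)
    have h2 : (L.hat fun s => F (s.1, X.Tz n s.2)) = L.hat F ∘ L.W.Tz n :=
      funext fun w => (hn F (fam_mono h.le hF) w).symm
    rw [h2] at h1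
    exact h1
  refine ⟨shp_le b.a L h.le, le_sup_right, key 1 fun F hF w => ?_, key (-1) fun F hF w => ?_⟩
  · simp only [b.t.one]
    exact (L.eqv F hF w).symm
  · have h1 := L.eqv _ (fam_tz b.t (b.t.top X) hF fun _ => -1) (L.W.Tz (-1) w)
    have h2 : ∀ (Y : Sys) (y : Y.X), Y.Tz (-1) (Y.T y) = y := fun Y y => by
      rw [← b.t.one, ← b.t.add, neg_add_cancel, b.t.zero]
    have h3 : L.W.T (L.W.Tz (-1) w) = w := by
      rw [← b.t.one, ← b.t.add, add_neg_cancel, b.t.zero]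
    simp only [h2, h3] at h1
    exact h1

theorem ind_bdd {A : Set X.X} (hA : MeasurableSet[X.ms] A) :
    (A.indicator fun _ => (1 : ℂ)) ∈ @Bdd X.X X.ms := by
  refine ⟨measurable_const.indicator hA, 1, fun x => ?_⟩
  by_cases h : x ∈ A <;> simp [h]

theorem slot (b : Bas) (L : Ln ν U X) {B : MeasurableSpace X.X} (s : Slot) (h : Fac X B) :
    pull L.W.μ (L.π s) B ≤ L.shp B := by
  refine sup_le ?_ le_sup_right
  rintro _ ⟨A, hA, rfl⟩
  have hg : gen (FamS B) L.hat ≤ L.W.ms := le_sup_left.trans (shp_le b.a L h.le)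
  have hF0 : (fun z : Lab × X.X => A.indicator (fun _ => (1 : ℂ)) z.2) ∈ FamS B :=
    ⟨fun l => Measurable.indicator (m := B) measurable_const hA, 1, fun z => by
      by_cases h : z.2 ∈ A <;> simp [h]⟩
  have hF := fam_tz b.t h hF0 (rho s)
  have hπ : Measurable[L.W.ms, X.ms] (L.π s) :=
    @MeasurePreserving.measurable _ _ L.W.ms X.ms _ _ _ (L.emb s).mp
  refine (b.a.mem _ L.W.μ hg _).2 ⟨hπ (h.le _ hA),
    _, gen_meas L.hat hF (measurableSet_singleton 1), ?_⟩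
  filter_upwards [L.slot s _ (ind_bdd (h.le _ hA))] with w hw
  refine propext ?_
  change L.π s w ∈ A ↔ L.hat _ w = 1
  rw [← hw]
  by_cases h : L.π s w ∈ A <;> simp [h]

theorem tset (L : Ln ν U X) {B : MeasurableSpace X.X} (h : B ≤ X.ms) :
    (∀ φ ∈ L.hat '' FamS B, φ ∈ @Bdd L.W.X L.W.ms) ∧
    (∃ φ ∈ L.hat '' FamS B, φ =ᵐ[L.W.μ] fun _ => 1) ∧
    (∀ φ ∈ L.hat '' FamS B, ∀ φ' ∈ L.hat '' FamS B, ∃ χ ∈ L.hat '' FamS B,
      χ =ᵐ[L.W.μ] fun x => φ x * φ' x) ∧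
    (∀ φ ∈ L.hat '' FamS B, ∃ χ ∈ L.hat '' FamS B, χ =ᵐ[L.W.μ] fun x => conj (φ x)) := by
  refine ⟨?_, ⟨_, ⟨_, fam_const B 1, rfl⟩, Eventually.of_forall fun w => (L.ch w).const 1⟩, ?_, ?_⟩
  · rintro _ ⟨F, hF, rfl⟩
    exact hat_bdd L (fam_mono h hF)
  · rintro _ ⟨F, hF, rfl⟩ _ ⟨G, hG, rfl⟩
    exact ⟨_, ⟨_, fam_mul hF hG, rfl⟩, Eventually.of_forall fun w =>
      (L.ch w).mul _ (fam_mono h hF) _ (fam_mono h hG)⟩
  · rintro _ ⟨F, hF, rfl⟩
    exact ⟨_, ⟨_, fam_cj hF, rfl⟩, Eventually.of_forall fun w => (L.ch w).cj _ (fam_mono h hF)⟩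

theorem ce (b : Bas) (L : Ln ν U X) {B : MeasurableSpace X.X} (h : Fac X B)
    {F F' : Lab × X.X → ℂ} (hF : F ∈ FamS X.ms) (hF' : F' ∈ FamS B)
    (e : ∀ l, (fun x => F' (l, x)) =ᵐ[X.μ] X.μ[fun x => F (l, x) | B]) :
    L.W.μ[L.hat F | L.shp B] =ᵐ[L.W.μ] L.hat F' := by
  obtain ⟨t1, t2, t3, t4⟩ := tset L h.le
  have hF'' := fam_mono h.le hF'
  have hg := (hat_bm L hF).sub (hat_bm L hF'')
  have h0 := b.d.perp L.W.μ _ t1 t2 t3 t4 _ hg.integrable (by
    rintro _ ⟨G, hG, rfl⟩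
    have hG' := fam_mono h.le hG
    have h1 := int_zero L (fam_mul (fam_sub hF hF'') hG') fun l => by
      rw [Fib27.int_sub_mul (fam_bm hF l) (fam_bm hF'' l) (fam_bm hG' l),
        ← Fib27.int_ce_mul h.le (fam_bm hF l) (fam_bm hG l), sub_eq_zero]
      refine integral_congr_ae ?_
      filter_upwards [e l] with x hx
      rw [hx]
    rw [← h1]
    refine integral_congr_ae (Eventually.of_forall fun w => ?_)
    have e1 := (L.ch w).mul _ (fam_sub hF hF'') _ hG'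
    have e3 := ch_sub (L.ch w) hF hF''
    simp only at e1 e3 ⊢
    rw [e1, e3])
  rw [gen_image] at h0
  have hle := shp_le b.a L h.le
  refine Fib27.ce_eq_of_perp hle (hat_bm L hF) ((hat_bm L hF'').of_aesm
    (hat_shp L hF').stronglyMeasurable.aestronglyMeasurable) (Fib27.perp_of_ce hle hg h0)

theorem cex (b : Bas) (X : Sys) {B : MeasurableSpace X.X} (h : Fac X B) {F : Lab × X.X → ℂ}
    (hF : F ∈ FamS X.ms) : ∃ F' ∈ FamS B,
    ∀ l, (fun x => F' (l, x)) =ᵐ[X.μ] X.μ[fun x => F (l, x) | B] := by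
  obtain ⟨h1, C, hC⟩ := hF
  have hC' : ∀ z, ‖F z‖ ≤ max C 0 := fun z => (hC z).trans (le_max_left _ _)
  have : ∀ l : Lab, ∃ f' : X.X → ℂ, Measurable[B] f' ∧ (∀ x, ‖f' x‖ ≤ max C 0) ∧
      X.μ[fun x => F (l, x) | B] =ᵐ[X.μ] f' := fun l =>
    b.a.rep B X.μ _ _ (le_max_right _ _) stronglyMeasurable_condExp.aestronglyMeasurable
      (ae_bdd_norm_condExp_of_ae_bdd_norm (Eventually.of_forall fun x => hC' _))
  choose f hf1 hf2 hf3 using this
  exact ⟨fun z => f z.1 z.2, ⟨hf1, _, fun z => hf2 _ _⟩, fun l => (hf3 l).symm⟩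

theorem span_mem (L : Ln ν U X) {B : MeasurableSpace X.X} (h : B ≤ X.ms) {φ : L.W.X → ℂ}
    (hφ : φ ∈ Submodule.span ℂ (L.hat '' FamS B)) : φ ∈ L.hat '' FamS B := by
  induction hφ using Submodule.span_induction with
  | mem x hx => exact hx
  | zero => exact ⟨_, fam_const B 0, funext fun w => (L.ch w).const 0⟩
  | add x y _ _ hx hy =>
    obtain ⟨F, hF, rfl⟩ := hx
    obtain ⟨G, hG, rfl⟩ := hy
    exact ⟨_, fam_add hF hG, funext fun w => (L.ch w).add _ (fam_mono h hF) _ (fam_mono h hG)⟩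
  | smul c x _ hx =>
    obtain ⟨F, hF, rfl⟩ := hx
    exact ⟨_, fam_cmul c hF, funext fun w => ch_cmul (L.ch w) c (fam_mono h hF)⟩

theorem apx (b : Bas) (L : Ln ν U X) {B : MeasurableSpace X.X} (h : Fac X B) (g : L.W.X → ℂ)
    (C ε : ℝ) (hC : 0 ≤ C) (hε : 0 < ε) (hg : AEStronglyMeasurable[L.shp B] g L.W.μ)
    (hb : ∀ᵐ w ∂L.W.μ, ‖g w‖ ≤ C) :
    ∃ F ∈ FamS B, (∀ z, ‖F z‖ ≤ C) ∧ ∫ w, ‖g w - L.hat F w‖ ^ 2 ∂L.W.μ ≤ ε := by
  rcases hC.eq_or_lt with rfl | hC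
  · refine ⟨_, fam_const B 0, fun z => by simp, ?_⟩
    have : ∫ w, ‖g w - L.hat (fun _ => 0) w‖ ^ 2 ∂L.W.μ = 0 := by
      refine integral_eq_zero_of_ae ?_
      filter_upwards [hb] with w hw
      have e := (L.ch w).const 0
      simp [e, norm_le_zero_iff.1 hw]
    rw [this]
    exact hε.le
  obtain ⟨t1, t2, t3, t4⟩ := tset L h.le
  have hg0 : BM L.W.μ L.W.ms g := ⟨hg.mono (shp_le b.a L h.le), C, hb⟩
  obtain ⟨φ, hφ, hi⟩ := b.d.apx L.W.μ _ t1 t2 t3 t4 g (hg0.memLp 2)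
    (by rw [gen_image]; exact hg) (ε / 4) (by positivity)
  obtain ⟨F, hF, rfl⟩ := span_mem L h.le hφ
  have hF' := fam_mono h.le hF
  refine ⟨_, fam_map hF (clip_cont hC), fun z => clip_le hC _, ?_⟩
  have hI : Integrable (fun w => ‖g w - L.hat F w‖ ^ 2) L.W.μ :=
    ((hg0.sub (hat_bm L hF')).memLp 2).integrable_norm_pow (by norm_num)
  calc _ ≤ ∫ w, 4 * ‖g w - L.hat F w‖ ^ 2 ∂L.W.μ := by
        refine integral_mono_of_nonneg (Eventually.of_forall fun w => by positivity)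
          (hI.const_mul 4) ?_
        filter_upwards [hb] with w hw
        have e := ch_clip (L.ch w) hC hF'
        rw [e]
        have := pow_le_pow_left₀ (norm_nonneg _) (clip_near hC _ (L.hat F w) hw) 2
        linarith [mul_pow 2 ‖g w - L.hat F w‖ 2]
    _ ≤ ε := by
        rw [integral_const_mul]
        linarith

theorem tz_inv (b : Bas) {A : Set X.X} (hA : X.T ⁻¹' A = A) (n : ℤ) (x : X.X) :
    X.Tz n x ∈ A ↔ x ∈ A := by
  have h1 : ∀ y, X.T y ∈ A ↔ y ∈ A := fun y => by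
    rw [← Set.mem_preimage, hA]
  induction n using Int.induction_on with
  | zero => rw [b.t.zero]
  | succ n ih =>
    rw [add_comm, b.t.add, b.t.one, h1]
    exact ih
  | pred n ih =>
    rw [← h1, ← b.t.one, ← b.t.add, show (1 : ℤ) + (-(n : ℤ) - 1) = -n by ring]
    exact ih

theorem inv (b : Bas) (L : Ln ν U X) (s s' : Slot) : KEq L.W.μ (Inv X) (L.π s) (L.π s') := by
  intro A hA
  obtain ⟨hA1, A', hA', e⟩ := (b.a.mem _ X.μ (MeasurableSpace.invariants_le X.T) A).1 hA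
  obtain ⟨m1, m2⟩ := MeasurableSpace.measurableSet_invariants.1 hA'
  have key : ∀ s : Slot, L.π s ⁻¹' A =ᵐ[L.W.μ]
      {w | L.hat (fun z => A'.indicator (fun _ => (1 : ℂ)) z.2) w = 1} := fun s => by
    have e1 := (L.emb s).mp.quasiMeasurePreserving.preimage_ae_eq e
    have e2 := L.slot s _ (ind_bdd m1)
    have e3 : (fun z : Lab × X.X => A'.indicator (fun _ => (1 : ℂ)) (X.Tz (rho s z.1) z.2)) =
        fun z => A'.indicator (fun _ => (1 : ℂ)) z.2 := by
      funext z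
      by_cases h : z.2 ∈ A'
      · simp [h, (tz_inv b m2 _ _).2 h]
      · simp [h, mt (tz_inv b m2 (rho s z.1) _).1 h]
    rw [e3] at e2
    refine e1.trans ?_
    filter_upwards [e2] with w hw
    refine propext ?_
    change L.π s w ∈ A' ↔ L.hat _ w = 1
    rw [← hw]
    by_cases h : L.π s w ∈ A' <;> simp [h]
  exact (key s).trans (key s').symm

end LfBx

theorem lfB : LfBR := fun b =>
  { congr := fun L F hF F' hF' h => LfBx.cong L hF hF' h
    nrm := fun L F hF w => LfBx.ch_nrm (L.ch w) hF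
    fac := fun L B h => LfBx.fac b L h
    top := fun L => le_antisymm (LfBx.shp_le b.a L le_rfl) (le_sup_left.trans_eq' L.gn.symm)
    mono := fun L B B' h => sup_le_sup_right
      (LfBx.gen_le _ fun F hF => LfBx.gen_meas _ (LfBx.fam_mono h hF)) _
    slot := fun L B s h => LfBx.slot b L s h
    ce := fun L B h F hF F' hF' e => LfBx.ce b L h hF hF' e
    cex := fun X B h F hF => LfBx.cex b X h hF
    apx := fun L B h g C ε hC hε hg hb => LfBx.apx b L h g C ε hC hε hg hb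
    inv := fun L s s' => LfBx.inv b L s s' }

end T3x

end
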