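import Pool.Agent.MP_154433_an.t3.Spec

/-! Internal sets of a line. -/

set_option autoImplicit false
set_option linter.unusedVariables false
set_option warn.classDefReducibility false

open MeasureTheory Filter Topology Function

noncomputable section

namespace T3x

namespace LfC

variable {ν : Wt} {U : Ultrafilter ℕ} {X : Sys} (L : Ln ν U X)

/-- the indicator of a family of sets -/
def ind {Ω : Type} (A : Lab → Set Ω) : Lab × Ω → ℂ :=
  fun z => (A z.1).indicator (fun _ => (1 : ℂ)) z.2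

theorem ind_mem {Ω : Type} {B : MeasurableSpace Ω} {A : Lab → Set Ω}
    (h : ∀ l, MeasurableSet[B] (A l)) : ind A ∈ FamS B :=
  ⟨fun l => measurable_const.indicator (h l), 1, fun s => by
    unfold ind
    by_cases e : s.2 ∈ A s.1 <;> simp [e]⟩

theorem fam_mono {Ω : Type} {B C : MeasurableSpace Ω} (h : B ≤ C) {F : Lab × Ω → ℂ}
    (hF : F ∈ FamS B) : F ∈ FamS C := ⟨fun l => (hF.1 l).mono h le_rfl, hF.2⟩

variable {A A' : Lab → Set X.X}

theorem hsInd (h : ∀ l, MeasurableSet (A l)) (w : L.W.X) :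
    L.hat (ind A) w = (L.hs A).indicator (fun _ => (1 : ℂ)) w := by
  by_cases e : w ∈ L.hs A
  · rw [Set.indicator_of_mem e]
    exact e
  rw [Set.indicator_of_notMem e]
  have h1 := (L.ch w).mul _ (ind_mem h) _ (ind_mem h)
  rw [show (fun s => ind A s * ind A s) = ind A from funext fun s => by
    unfold ind
    by_cases e : s.2 ∈ A s.1 <;> simp [e]] at h1
  exact by_contra fun h0 => e (mul_left_cancel₀ h0 ((mul_one _).trans h1)).symm

theorem hsMeas (B : MeasurableSpace X.X) (h : ∀ l, MeasurableSet[B] (A l)) :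
    MeasurableSet[gen (FamS B) L.hat] (L.hs A) :=
  (le_iSup₂ (f := fun F (_ : F ∈ FamS B) => MeasurableSpace.comap (L.hat F) inferInstance)
    (ind A) (ind_mem h)) _ ⟨{1}, measurableSet_singleton _, rfl⟩

theorem hsMeas' (h : ∀ l, MeasurableSet (A l)) : MeasurableSet (L.hs A) :=
  L.gn.ge _ (hsMeas L X.ms h)

theorem hsLim (h : ∀ l, MeasurableSet (A l)) :
    Tendsto (fun M => ν.av2 M fun l => X.μ.real (A l)) U (𝓝 (L.W.μ.real (L.hs A))) := by
  have h1 := (Complex.continuous_re.tendsto _).comp (L.lim _ (ind_mem h))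
  rw [show L.hat (ind A) = _ from funext (hsInd L h), integral_indicator_const _ (hsMeas' L h)] at h1
  have h2 : ∀ l, ∫ x, ind A (l, x) ∂X.μ = (X.μ.real (A l) : ℂ) := fun l =>
    (integral_indicator_const _ (h l)).trans (by simp)
  simpa [h2, Wt.av2, Wt.av, Function.comp_def, Finset.mul_sum] using h1

theorem hsInter (h : ∀ l, MeasurableSet (A l)) (h' : ∀ l, MeasurableSet (A' l)) :
    L.hs (fun l => A l ∩ A' l) = L.hs A ∩ L.hs A' := by
  ext w
  have h1 := (L.ch w).mul _ (ind_mem h) _ (ind_mem h')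
  rw [show (fun s => ind A s * ind A' s) = ind fun l => A l ∩ A' l from funext fun s => by
    unfold ind
    by_cases e : s.2 ∈ A s.1 <;> by_cases e' : s.2 ∈ A' s.1 <;> simp [e, e']] at h1
  change L.hat (ind fun l => A l ∩ A' l) w = 1 ↔ _
  rw [h1, hsInd L h, hsInd L h']
  by_cases e : w ∈ L.hs A <;> by_cases e' : w ∈ L.hs A' <;> simp [e, e']

theorem hsCompl (h : ∀ l, MeasurableSet (A l)) : L.hs (fun l => (A l)ᶜ) = (L.hs A)ᶜ := by
  ext w
  have h1 := (L.ch w).add _ (ind_mem fun l => (h l).compl) _ (ind_mem h)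
  rw [show (fun s => ind (fun l => (A l)ᶜ) s + ind A s) = fun _ => 1 from funext fun s => by
    unfold ind
    by_cases e : s.2 ∈ A s.1 <;> simp [e], (L.ch w).const, hsInd L h] at h1
  change L.hat (ind fun l => (A l)ᶜ) w = 1 ↔ _
  rw [← sub_eq_iff_eq_add.2 h1]
  by_cases e : w ∈ L.hs A <;> simp [e]

theorem hsSd (h : ∀ l, MeasurableSet (A l)) (h' : ∀ l, MeasurableSet (A' l)) :
    L.hs (fun l => symmDiff (A l) (A' l)) = symmDiff (L.hs A) (L.hs A') := by
  have e : ∀ {α : Type} (s t : Set α), symmDiff s t = ((s ∩ tᶜ)ᶜ ∩ (t ∩ sᶜ)ᶜ)ᶜ := fun s t => by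
    ext x
    simp only [Set.mem_symmDiff, Set.mem_compl_iff, Set.mem_inter_iff]
    tauto
  have a := fun l => (h l).inter (h' l).compl
  have a' := fun l => (h' l).inter (h l).compl
  simp only [e]
  rw [hsCompl L fun l => (a l).compl.inter (a' l).compl,
    hsInter L (fun l => (a l).compl) fun l => (a' l).compl, hsCompl L a, hsCompl L a',
    hsInter L h fun l => (h' l).compl, hsInter L h' fun l => (h l).compl, hsCompl L h, hsCompl L h']

theorem hatT (t : BasT) {F : Lab × X.X → ℂ} (hF : F ∈ FamS X.ms) (n : ℤ) :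
    ∀ w, L.hat (fun s => F (s.1, X.Tz n s.2)) w = L.hat F (L.W.Tz n w) := by
  have key : ∀ (n : ℤ) w, L.hat (fun s => F (s.1, X.Tz (n + 1) s.2)) w =
      L.hat (fun s => F (s.1, X.Tz n s.2)) (L.W.T w) := fun n w => by
    rw [← L.eqv (fun s => F (s.1, X.Tz n s.2)) ⟨fun l => (hF.1 l).comp (t.mp X n).measurable,
      hF.2.imp fun C hC s => hC _⟩]
    simp only [t.add, t.one]
  induction n using Int.induction_on with
  | zero => simp only [t.zero, implies_true]
  | succ n ih => exact fun w => by rw [key, ih, t.add, t.one]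
  | pred n ih =>
    intro w
    have h1 := key (-n - 1) (L.W.Tz (-1) w)
    rw [sub_add_cancel, ih, ← t.one, ← t.add, ← t.add, add_neg_cancel, t.zero] at h1
    exact h1.symm

/-- a bound on the members of a family is a bound on the internal set -/
theorem loc (h : ∀ l, MeasurableSet (A l)) {F : Lab × X.X → ℂ} (hF : F ∈ FamS X.ms) {C : ℝ}
    (h0 : 0 ≤ C) (hC : ∀ z : Lab × X.X, z.2 ∈ A z.1 → ‖F z‖ ≤ C) {w : L.W.X} (hw : w ∈ L.hs A) :
    ‖L.hat F w‖ ≤ C := by
  have b : ∀ s, ‖F s * ind A s‖ ≤ C := fun s => by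
    unfold ind
    by_cases e : s.2 ∈ A s.1 <;> simp [e, h0, hC]
  have h1 := (L.ch w).bdd (fun s => F s * ind A s)
    ⟨fun l => (hF.1 l).mul ((ind_mem h).1 l), C, b⟩ C b
  rwa [(L.ch w).mul _ hF _ (ind_mem h), show L.hat (ind A) w = 1 from hw, mul_one] at h1

theorem apx (h : LfB) (B : MeasurableSpace X.X) (hB : Fac X B) {E : Set L.W.X}
    (hE : MeasurableSet[L.shp B] E) {ε : ℝ} (hε : 0 < ε) : ∃ A : Lab → Set X.X,
      (∀ l, MeasurableSet[B] (A l)) ∧ L.W.μ.real (symmDiff E (L.hs A)) ≤ ε := by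
  have b1 : ∀ w, ‖E.indicator (fun _ => (1 : ℂ)) w‖ ≤ 1 := fun w => by
    by_cases e : w ∈ E <;> simp [e]
  obtain ⟨F, hF, h1, h2⟩ := h.apx L B hB (E.indicator fun _ => 1) 1 (1 / 4 * ε) zero_le_one
    (by positivity) (stronglyMeasurable_const.indicator hE).aestronglyMeasurable
    (Eventually.of_forall b1)
  have hF' := fam_mono hB.le hF
  have m : ∀ l, MeasurableSet[B] {x | 1 / 2 < ‖F (l, x)‖} := fun l =>
    measurableSet_lt measurable_const (hF.1 l).norm
  have m' := fun l => hB.le _ (m l)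
  refine ⟨_, m, ?_⟩
  have mF : Measurable (L.hat F) := fun s hs => L.gn.ge _
    ((le_iSup₂ (f := fun F (_ : F ∈ FamS X.ms) => MeasurableSpace.comap (L.hat F) inferInstance)
      F hF') _ ⟨s, hs, rfl⟩)
  have hi : Integrable (fun w => ‖E.indicator (fun _ => (1 : ℂ)) w - L.hat F w‖ ^ 2) L.W.μ := by
    refine Integrable.of_bound (((measurable_const.indicator ((h.fac L B hB).le _ hE)).sub
      mF).norm.pow_const 2).aestronglyMeasurable (2 ^ 2) (Eventually.of_forall fun w => ?_)
    rw [norm_pow, norm_norm]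
    gcongr
    linarith [norm_sub_le (E.indicator (fun _ => (1 : ℂ)) w) (L.hat F w), b1 w,
      (L.ch w).bdd F hF' 1 h1]
  have h3 := (mul_meas_ge_le_integral_of_nonneg (Eventually.of_forall fun w => sq_nonneg _) hi
    (1 / 4)).trans h2
  refine (measureReal_mono fun w hw => ?_).trans (le_of_mul_le_mul_left h3 (by norm_num))
  change 1 / 4 ≤ ‖_‖ ^ 2
  rw [show (1 / 4 : ℝ) = (1 / 2) ^ 2 by norm_num]
  gcongr
  rcases hw with ⟨e, e'⟩ | ⟨e', e⟩
  · have := loc L (fun l => (m' l).compl) hF' (C := 1 / 2) (by norm_num) (fun z hz => not_lt.1 hz)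
      (w := w) (hsCompl L m' ▸ e')
    have h4 := norm_sub_norm_le (1 : ℂ) (L.hat F w)
    rw [Set.indicator_of_mem e]
    rw [norm_one] at h4
    linarith
  · have hG : (fun z => (‖F z‖ : ℂ)) ∈ FamS X.ms :=
      fam_mono hB.le ⟨fun l => Complex.measurable_ofReal.comp (hF.1 l).norm, 1, fun s => by
        simpa using h1 s⟩
    have hc : (fun _ => (-1 : ℂ)) ∈ FamS X.ms := ⟨fun l => measurable_const, 1, fun s => by simp⟩
    have := loc L m' (F := fun z => (‖F z‖ : ℂ) + -1) ⟨fun l => (hG.1 l).add (hc.1 l), 2, fun s =>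
      (norm_add_le _ _).trans (by simp; linarith [h1 s])⟩ (C := 1 / 2) (by norm_num) (fun z hz => by
        have h5 : 1 / 2 < ‖F z‖ := hz
        rw [← Complex.ofReal_one, ← Complex.ofReal_neg, ← Complex.ofReal_add, Complex.norm_real,
          Real.norm_eq_abs, abs_le]
        constructor <;> linarith [h1 z]) e'
    rw [(L.ch w).add _ hG _ hc, (L.ch w).const, h.nrm L F hF', ← Complex.ofReal_one,
      ← Complex.ofReal_neg, ← Complex.ofReal_add, Complex.norm_real, Real.norm_eq_abs,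
      abs_le] at this
    rw [Set.indicator_of_notMem e, zero_sub, norm_neg]
    linarith [this.1]

theorem sat (h : LfB) (B : MeasurableSpace X.X) (hU : (U : Filter ℕ) ≤ atTop) (hB : Fac X B)
    (E : Set L.W.X) (hE : MeasurableSet[L.shp B] E) :
    ∃ A : Lab → Set X.X, (∀ l, MeasurableSet[B] (A l)) ∧ E =ᵐ[L.W.μ] L.hs A := by
  classical
  have pos : ∀ k : ℕ, 0 < 1 / ((k : ℝ) + 1) := fun k => by positivity
  choose A m hA using fun k : ℕ => apx L h B hB hE (pos k)
  have m' := fun k l => hB.le _ (m k l)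
  let P : ℕ → ℕ → Prop := fun M n => ∀ j ≤ n,
    (ν.av2 M fun l => X.μ.real (symmDiff (A j l) (A n l))) < 3 * (1 / ((j : ℝ) + 1))
  have hP : ∀ n, ∀ᶠ M in (U : Filter ℕ), P M n := fun n => by
    refine (eventually_all_finite (Set.finite_Iic n)).2 fun j hj => ?_
    refine (hsLim L fun l => (m' j l).symmDiff (m' n l)).eventually (gt_mem_nhds ?_)
    rw [hsSd L (m' j) (m' n)]
    have h1 := measureReal_symmDiff_le (μ := L.W.μ) (s := L.hs (A j)) (t := E) (L.hs (A n))
      (measure_ne_top _ _) (measure_ne_top _ _)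
    rw [symmDiff_comm (L.hs (A j)) E] at h1
    have h2 : 1 / ((n : ℝ) + 1) ≤ 1 / ((j : ℝ) + 1) := Nat.one_div_le_one_div hj
    linarith [hA j, hA n, pos j]
  obtain ⟨N, hN⟩ : ∃ N : ℕ → ℕ, ∀ j, ∀ᶠ M in (U : Filter ℕ), j ≤ N M ∧ P M (N M) :=
    ⟨fun M => Nat.findGreatest (P M) M, fun j =>
      ((hP j).and (hU (eventually_ge_atTop j))).mono fun M hM =>
        ⟨Nat.le_findGreatest hM.2 hM.1, Nat.findGreatest_spec hM.2 hM.1⟩⟩
  refine ⟨fun l => A (N l.1) l, fun l => m _ l, ?_⟩
  rw [← measure_symmDiff_eq_zero_iff, ← measureReal_eq_zero_iff]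
  refine le_antisymm (ge_of_tendsto' (x := atTop) (tendsto_one_div_add_atTop_nhds_zero_nat.const_mul
    (4 : ℝ)) (fun j => ?_) |>.trans_eq (mul_zero _)) measureReal_nonneg
  have h1 := le_of_tendsto (b := 3 * (1 / ((j : ℝ) + 1)))
    (hsLim L fun l => (m' j l).symmDiff (m' (N l.1) l)) ((hN j).mono fun M hM => by
      have := (hM.2 j hM.1).le
      simp only [Wt.av2] at this ⊢
      exact this)
  rw [hsSd L (m' j) fun l => m' _ l] at h1
  have h2 := measureReal_symmDiff_le (μ := L.W.μ) (s := E) (t := L.hs (A j))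
    (L.hs fun l => A (N l.1) l) (measure_ne_top _ _) (measure_ne_top _ _)
  linarith [hA j]

end LfC

open LfC in
theorem lfC : LfCR := fun b h =>
  { hs_ind := fun L A m => hsInd L m
    hs_meas := fun L B A _ m => (le_sup_left : _ ≤ L.shp B) _ (hsMeas L B m)
    hs_lim := fun L A m => hsLim L m
    hs_inter := fun L A A' m m' => hsInter L m m'
    hs_compl := fun L A m => hsCompl L m
    hs_slot := fun L s A m => by
      refine eventuallyEq_set.2 ((L.slot s (A.indicator fun _ => 1)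
        ⟨measurable_const.indicator m, 1, fun x => ?_⟩).mono fun w hw => ?_)
      · by_cases e : x ∈ A <;> simp [e]
      · refine (iff_of_eq (congrArg (· = (1 : ℂ)) hw.symm)).trans ?_
        by_cases e : L.π s w ∈ A <;> simp [e]
    hs_T := fun L n A m => Set.ext fun w =>
      iff_of_eq (congrArg (· = (1 : ℂ)) (hatT L b.t (ind_mem m) n w))
    hs_lift := fun L' L p Lp A _ l m => eventuallyEq_set.2 ((l.hat _ (ind_mem m)).mono fun w hw =>
      iff_of_eq (congrArg (· = (1 : ℂ)) hw.symm))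
    satu := fun L B => sat L h B }

end T3x

end
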