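import Pool.Agent.MP_154433_an.t3.Spec

/-! Existence of the limit system of the labelled families. -/

set_option autoImplicit false
set_option linter.unusedVariables false

open MeasureTheory ProbabilityTheory Filter Topology Function Finset ComplexConjugate
open scoped BigOperators

noncomputable section

namespace T3x

namespace Line

variable (ν : Wt) (M : ℕ)

lemma av_const (c : ℂ) : ν.av M (fun _ => c) = c := by
  rw [Wt.av, ← Finset.sum_smul, ν.one, one_smul]

lemma av_add (φ ψ : ℤ → ℂ) : ν.av M (fun d => φ d + ψ d) = ν.av M φ + ν.av M ψ := by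
  simp only [Wt.av, smul_add, Finset.sum_add_distrib]

lemma av_mul (c : ℂ) (φ : ℤ → ℂ) : ν.av M (fun d => c * φ d) = c * ν.av M φ := by
  simp only [Wt.av, Finset.mul_sum, mul_smul_comm]

lemma av_mem {K : Set ℂ} (hK : Convex ℝ K) {φ : ℤ → ℂ} (h : ∀ d, φ d ∈ K) : ν.av M φ ∈ K :=
  hK.sum_mem (fun d _ => ν.nn M d) (ν.one M) fun d _ => h d

lemma av2_mem {K : Set ℂ} (hK : Convex ℝ K) {φ : Lab → ℂ} (h : ∀ d, φ d ∈ K) : ν.av2 M φ ∈ K :=
  av_mem ν M hK fun _ => av_mem ν M hK fun _ => h _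

variable {X : Sys}

lemma intg {F : Lab × X.X → ℂ} (hF : F ∈ FamS X.ms) (l : Lab) :
    Integrable (fun x => F (l, x)) X.μ := by
  obtain ⟨h, C, hC⟩ := hF
  exact Integrable.of_bound (h l).aestronglyMeasurable C (Eventually.of_forall fun x => hC _)

lemma salg : SAlg (FamS X.ms) where
  const c := ⟨fun _ => measurable_const, ‖c‖, fun _ => le_rfl⟩
  add := by
    rintro F ⟨h, C, hC⟩ G ⟨h', C', hC'⟩
    exact ⟨fun l => (h l).add (h' l), C + C', fun s =>
      (norm_add_le _ _).trans (add_le_add (hC s) (hC' s))⟩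
  mul := by
    rintro F ⟨h, C, hC⟩ G ⟨h', C', hC'⟩
    exact ⟨fun l => (h l).mul (h' l), C * C', fun s => (norm_mul_le _ _).trans
      (mul_le_mul (hC s) (hC' s) (norm_nonneg _) ((norm_nonneg _).trans (hC s)))⟩
  cj := by
    rintro F ⟨h, C, hC⟩
    exact ⟨fun l => Complex.continuous_conj.measurable.comp (h l), C, fun s => by simpa using hC s⟩
  bdd F hF := hF.2

lemma ex_lim (U : Ultrafilter ℕ) (F : Lab × X.X → ℂ) : ∃ a : ℂ, F ∈ FamS X.ms →
    Tendsto (fun M => ν.av2 M fun l => ∫ x, F (l, x) ∂X.μ) U (𝓝 a) := by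
  by_cases hF : F ∈ FamS X.ms
  · obtain ⟨C, hC⟩ := hF.2
    obtain ⟨a, -, ha⟩ := (isCompact_closedBall (0 : ℂ) C).ultrafilter_le_nhds
      (U.map fun M => ν.av2 M fun l => ∫ x, F (l, x) ∂X.μ) (by
        rw [Ultrafilter.coe_map, le_principal_iff, Filter.mem_map]
        refine Eventually.of_forall fun M => av2_mem ν M (convex_closedBall _ _) fun l => ?_
        rw [mem_closedBall_zero_iff]
        simpa using norm_integral_le_of_norm_le_const (μ := X.μ)
          (Eventually.of_forall fun x => hC (l, x)))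
    exact ⟨a, fun _ => ha⟩
  · exact ⟨0, fun h => (hF h).elim⟩

end Line

open Line

theorem line : LineR := by
  intro bas real ν U X nice
  choose Λ hΛ using ex_lim ν (X := X) U
  have A := salg (X := X)
  have uq : ∀ F ∈ FamS X.ms, ∀ a, Tendsto (fun M => ν.av2 M fun l => ∫ x, F (l, x) ∂X.μ) U (𝓝 a) →
      Λ F = a := fun F hF a h => tendsto_nhds_unique (hΛ F hF) h
  have cs : ∀ F ∈ FamS X.ms, ∀ a, (∀ l, ∫ x, F (l, x) ∂X.μ = a) → Λ F = a := fun F hF a h =>
    uq F hF a (by simp only [h, Wt.av2, av_const]; exact tendsto_const_nhds)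
  let t : Lab × X.X ≃ Lab × X.X :=
    ⟨fun s => (s.1, X.T s.2), fun s => (s.1, X.T.symm s.2), fun s => by simp, fun s => by simp⟩
  have ht : ∀ F ∈ FamS X.ms, (fun s => F (t s)) ∈ FamS X.ms := fun F hF =>
    ⟨fun l => (hF.1 l).comp X.T.measurable, hF.2.imp fun C h s => h _⟩
  obtain ⟨W, hat, R⟩ := real (Lab × X.X) (FamS X.ms) Λ t A
    (fun F hF G hG => uq _ (A.add F hF G hG) _ (by
      simp only [fun l => integral_add (intg hF l) (intg hG l), Wt.av2, av_add]
      exact (hΛ F hF).add (hΛ G hG)))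
    (fun c F hF => uq _ (A.mul _ (A.const c) F hF) _ (by
      simp only [integral_const_mul, Wt.av2, av_mul]
      exact (hΛ F hF).const_mul c))
    (cs _ (A.const 1) 1 fun l => by simp)
    (fun F hF h => by
      have hK : Convex ℝ {z : ℂ | 0 ≤ z.re ∧ z.im = 0} :=
        (convex_halfSpace_re_ge 0).inter (convex_hyperplane (IsLinearMap.mk Complex.add_im
          Complex.smul_im) 0)
      have hc : IsClosed {z : ℂ | 0 ≤ z.re ∧ z.im = 0} :=
        (isClosed_le continuous_const Complex.continuous_re).inter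
          (isClosed_eq Complex.continuous_im continuous_const)
      refine hc.mem_of_tendsto (hΛ F hF) (Eventually.of_forall fun M => av2_mem ν M hK fun l => ?_)
      have h1 := integral_re (intg hF l)
      have h2 := integral_im (intg hF l)
      simp only [RCLike.re_to_complex, RCLike.im_to_complex] at h1 h2
      refine ⟨h1 ▸ integral_nonneg fun x => (h _).1, h2 ▸ ?_⟩
      simp only [(h _).2, integral_zero])
    ht (fun F hF => ⟨fun l => (hF.1 l).comp X.T.symm.measurable, hF.2.imp fun C h s => h _⟩)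
    (fun F hF => uq _ (ht F hF) _ (by
      have : ∀ l, ∫ x, F (t (l, x)) ∂X.μ = ∫ x, F (l, x) ∂X.μ := fun l =>
        X.mp.integral_comp' fun x => F (l, x)
      simp only [this]
      exact hΛ F hF))
  have up : ∀ (s : Slot), ∀ f ∈ Bdd X.X,
      (fun z : Lab × X.X => f (X.Tz (rho s z.1) z.2)) ∈ FamS X.ms := fun s f hf =>
    ⟨fun l => hf.1.comp (bas.t.mp X (rho s l)).measurable, hf.2.imp fun C h z => h _⟩
  have ms : ∀ F ∈ FamS X.ms, Measurable (hat F) := fun F hF =>
    measurable_iff_comap_le.2 (le_of_le_of_eq (le_iSup₂ (f := fun F (_ : F ∈ FamS X.ms) =>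
      MeasurableSpace.comap (hat F) inferInstance) F hF) R.gn.symm)
  have sl : ∀ s : Slot, ∃ p : W.X → X.X, MeasurePreserving p W.μ X.μ ∧ ∀ f ∈ Bdd X.X,
      (fun w => f (p w)) =ᵐ[W.μ] hat fun z => f (X.Tz (rho s z.1) z.2) := fun s =>
    nice W.X W.μ (fun f => hat fun z => f (X.Tz (rho s z.1) z.2))
      (fun w => ⟨(R.ch w).const, fun F hF G hG => (R.ch w).add _ (up s F hF) _ (up s G hG),
        fun F hF G hG => (R.ch w).mul _ (up s F hF) _ (up s G hG),
        fun F hF => (R.ch w).cj _ (up s F hF),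
        fun F hF C h => (R.ch w).bdd _ (up s F hF) C fun z => h _⟩)
      (fun f hf => ms _ (up s f hf)) fun f hf => by
        rw [R.int _ (up s f hf)]
        refine cs _ (up s f hf) _ fun l => ?_
        have h := bas.t.mp X (rho s l)
        rw [← integral_map h.measurable.aemeasurable hf.1.aestronglyMeasurable, h.map_eq]
  choose π hπ hs using sl
  refine ⟨⟨W, hat, π, R.nice, R.ch, R.all, R.gn, fun F hF => R.int F hF ▸ hΛ F hF, R.eqv,
    fun s => ⟨hπ s, bas.a.keq_of _ _ _ _ fun f hf hb => ?_⟩, hs⟩⟩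
  have h1 : f ∈ Bdd X.X := ⟨hf, 1, hb⟩
  have h2 : (fun x => f (X.T x)) ∈ Bdd X.X := ⟨hf.comp X.T.measurable, 1, fun x => hb _⟩
  filter_upwards [W.mp.quasiMeasurePreserving.ae_eq_comp (hs s f h1), hs s _ h2] with w e1 e2
  refine e1.trans (Eq.trans ?_ e2.symm)
  refine (R.eqv _ (up s f h1) w).symm.trans ?_
  congr 1
  funext z
  change f (X.Tz (rho s z.1) (X.T z.2)) = _
  rw [← bas.t.one, ← bas.t.one, ← bas.t.add, ← bas.t.add, add_comm]

end T3x

end
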