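import Pool.Agent.MP_154433_an.t3.Spec

/-! Independent relatively weakly mixing extensions stay independent over the hull. -/

set_option autoImplicit false
set_option linter.unusedVariables false

open MeasureTheory ProbabilityTheory Filter Topology Function Finset ComplexConjugate
open scoped BigOperators
open Fib27 (BM sup pr Perp)

noncomputable section

namespace T3x

namespace Prod

/-- a weakly mixing factor makes an independent product weakly mixing -/
theorem wm (b : Bas) (ka : KfA) (Z : Sys) (Y D R C : MeasurableSpace Z.X) (hZ : Nice Z)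
    (hC : Fac Z C) (hY : Fac Z Y) (hR : Fac Z R) (cp : CP Y D C Z.μ)
    (ind : ∀ f g : Z.X → ℂ, BM Z.μ Y f → BM Z.μ R g →
      Z.μ[fun x => f x * g x | C] =ᵐ[Z.μ] fun x => (Z.μ[f | C]) x * (Z.μ[g | C]) x)
    {u v : Z.X → ℂ} (hu : BM Z.μ Y u) (hw : WM Z D u) (hv : BM Z.μ R v) :
    WM Z C fun x => u x * v x := by
  obtain ⟨B, hB⟩ := hv.2
  have l := (hw.2 _ (hu.conj.mono hY.le)).const_mul (B * B)
  rw [mul_zero] at l
  refine ka.weak Z C hZ hC _ ((hu.mono hY.le).mul (hv.mono hR.le)) fun ε hε =>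
    ((l.eventually (gt_mem_nhds hε)).mono fun N hN => le_trans ?_ hN.le).frequently
  rw [mul_left_comm, mul_sum _ _ (B * B)]
  refine mul_le_mul_of_nonneg_left (sum_le_sum fun n _ => ?_) (by positivity)
  have a1 := (b.t.bm Z Y n u hY hu).mul hu.conj
  have a2 := (b.t.bm Z R n v hR hv).mul hv.conj
  have a3 : ∀ᵐ x ∂Z.μ, ‖v (Z.Tz n x) * conj (v x)‖ ≤ B * B := by
    filter_upwards [hB, (@MeasurePreserving.quasiMeasurePreserving _ _ Z.ms Z.ms _ _ _
      (b.t.mp Z n)).ae hB] with x h1 h2
    rw [norm_mul, Complex.norm_conj]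
    exact mul_le_mul h2 h1 (norm_nonneg _) ((norm_nonneg _).trans h1)
  have e : (fun y => u (Z.Tz n y) * v (Z.Tz n y) * conj (u y * v y)) =
      fun y => u (Z.Tz n y) * conj (u y) * (v (Z.Tz n y) * conj (v y)) := funext fun y => by
    rw [map_mul, mul_mul_mul_comm]
  rw [← integral_const_mul, e]
  refine integral_mono_ae integrable_condExp.norm (integrable_condExp.norm.const_mul _) ?_
  filter_upwards [ind _ _ a1 a2, cp _ a1, ae_bdd_norm_condExp_of_ae_bdd_norm (m := C) a3]
    with x h1 h2 h3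
  rw [h1, h2, norm_mul, mul_comm]
  exact mul_le_mul_of_nonneg_right h3 (norm_nonneg _)

end Prod

theorem prodS : ProdR := by
  classical
  intro b ka kb hf Z ι Y D S C hZ hC hY hD hDY hDC rwm cp ci
  have hK := (kb.fac Z C hZ hC).le
  have hCK := kb.le Z C hZ hC
  have fs := fun S' => b.t.fsp Z ι C Y S' hC hY
  have key : ∀ g, BM Z.μ (KK Z C) g → Perp Z.μ C g → ∀ S' ⊆ S, Perp Z.μ (sup Y S' ⊔ C) g := by
    intro g hg h0 S'
    induction S' using Finset.induction_on with
    | empty => exact fun _ => by rwa [Fib27.sup_empty', bot_sup_eq]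
    | insert j S' hj ih =>
      intro hS
      have hjS := hS (mem_insert_self _ _)
      have hS' := (subset_insert _ _).trans hS
      rw [Fib27.sup_insert', sup_assoc]
      refine Fib27.perp_sup (hY j).le (fs S').le (hg.mono hK) fun a c ha hc => ?_
      have a0 := ha.mono (hY j).le
      have a1 := ha.ce (D j)
      have a2 := ha.sub (a1.mono (hDY j))
      have w := Prod.wm b ka Z (Y j) (D j) _ C hZ hC (hY j) (fs S') (cp j hjS)
        (fun f f' p q => b.c.grp C Y S {j} S' Z.μ hC.le (fun i => (hY i).le) ci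
          (singleton_subset_iff.2 hjS) hS' (disjoint_singleton_left.2 hj) f f'
          (p.mono ((Fib27.le_sup' Y (mem_singleton_self j)).trans le_sup_left)) q) a2
        (rwm j _ a2 ((Fib27.perp_sub_ce (hD j).le a0).ce (hD j).le (a2.mono (hY j).le))) hc
      have c0 := hc.mono (fs S').le
      have e1 := Fib27.perp_of_ce hK ((a2.mono (hY j).le).mul c0)
        ((kb.wm Z C hZ hC _ w.1).1 w) g hg
      have e2 := ih hS' _ ((a1.mono ((hDC j hjS).trans le_sup_right)).mul hc)
      simp only [sub_mul] at e1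
      rw [integral_sub ((a0.mul c0).mul (hg.mono hK)).integrable
        (((a1.mono (hD j).le).mul c0).mul (hg.mono hK)).integrable] at e1
      simp only [mul_comm (g _)] at e2 ⊢
      rwa [e2, sub_zero] at e1
  have c2 : CP (sup Y S ⊔ C) C (hull Z C) Z.μ := by
    refine hf.disj Z _ C C hZ (fs S) hC hC le_sup_right le_rfl (fun f h1 h2 => ?_)
      fun f _ => EventuallyEq.rfl
    have f0 := h1.mono (fs S).le
    refine (kb.wm Z C hZ hC f (f0.memLp 2)).2 (Perp.ce (fun k hk => ?_) hK f0)
    have k0 := hk.mono hK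
    have e1 := key _ (hk.sub ((hk.ce C).mono hCK)) (Fib27.perp_sub_ce hC.le k0) S Subset.rfl f h1
    have e2 := Fib27.perp_of_ce hC.le f0 h2 _ (hk.ce C)
    rw [Fib27.int_sub_mul k0 ((hk.ce C).mono hC.le) f0] at e1
    simp only [mul_comm (f _)] at e2 ⊢
    rwa [e2, sub_zero] at e1
  have c3 : ∀ i ∈ S, CP (Y i) C (hull Z C) Z.μ := fun i hi f h =>
    c2 f (h.mono ((Fib27.le_sup' Y hi).trans le_sup_left))
  refine ⟨fun f h => ?_, c2, fun i hi f h => (c3 i hi f h).trans (cp i hi f h)⟩
  filter_upwards [c2 _ ((BM.pr_sup h).mono le_sup_left), ci f h,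
    (Finset.eventually_all S).2 fun i hi => c3 i hi (f i) (h i hi)] with x h1 h2 h3
  rw [h1, h2]
  exact prod_congr rfl fun i hi => (h3 i hi).symm

end T3x
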