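import Pool.Agent.MP_154433_an.t3.Spec

/-! Saturated extensions exist (row Sat of note 154433_T3prime_h17). -/

set_option autoImplicit false
set_option linter.unusedVariables false
set_option warn.classDefReducibility false

open MeasureTheory ProbabilityTheory Filter Topology Function Finset ComplexConjugate
open scoped BigOperators
open Fib27 (BM sup pr)

noncomputable section

namespace T3x

namespace Sat

variable {ν : Wt} {U : Ultrafilter ℕ} {ι : Type} [Fintype ι] [DecidableEq ι]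

theorem pull_mono {Ω Ω' : Type} {B C : MeasurableSpace Ω'} {m0 : MeasurableSpace Ω}
    (μ : Measure Ω) (p : Ω → Ω') (h : B ≤ C) : pull μ p B ≤ pull μ p C :=
  sup_le_sup_right (MeasurableSpace.comap_mono h) _

theorem P_le (F : Fd) {X : Sys} (L : Ln ν U X) (s : Slot) : L.P s ≤ L.W.ms :=
  F.a.pull_le X.ms L.W.μ X.μ (L.π s) (L.emb s).mp le_rfl

theorem OB_le (F : Fd) {X : Sys} (L : Ln ν U X) (B : MeasurableSpace X.X) (hB : Fac X B)
    (sl : ι → Slot) (q : ι) : L.OB B sl q ≤ L.W.ms :=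
  sup_le (Fib27.sup_le' fun k _ => P_le F L _) (F.h.kc _ _ L.nice (F.lb.fac L B hB)).1.le

theorem comap_le {Ω Ω' : Type} {m0 : MeasurableSpace Ω} {m0' : MeasurableSpace Ω'}
    {μ : Measure Ω} {μ' : Measure Ω'} {p : Ω → Ω'} (h : MeasurePreserving p μ μ') :
    m0'.comap p ≤ m0 := h.measurable.comap_le

theorem mae {Ω Ω' : Type} {m0 : MeasurableSpace Ω} {m0' : MeasurableSpace Ω'}
    {μ : Measure Ω} {μ' : Measure Ω'} {p : Ω → Ω'} (h : MeasurePreserving p μ μ') {P : Ω' → Prop}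
    (hP : ∀ᵐ x ∂μ', P x) : ∀ᵐ x ∂μ, P (p x) := h.quasiMeasurePreserving.ae hP

theorem mcomp {Ω Ω' Ω'' : Type} {m0 : MeasurableSpace Ω} {m0' : MeasurableSpace Ω'}
    {m0'' : MeasurableSpace Ω''} {μ : Measure Ω} {μ' : Measure Ω'} {μ'' : Measure Ω''}
    {p : Ω → Ω'} {q : Ω' → Ω''} (h : MeasurePreserving q μ' μ'') (h' : MeasurePreserving p μ μ') :
    MeasurePreserving (q ∘ p) μ μ'' := h.comp h'

theorem mint {Ω Ω' : Type} {m0 : MeasurableSpace Ω} {m0' : MeasurableSpace Ω'}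
    {μ : Measure Ω} {μ' : Measure Ω'} {p : Ω → Ω'} (h : MeasurePreserving p μ μ') {g : Ω' → ℂ}
    (hg : BM μ' m0' g) : ∫ x, ‖g (p x)‖ ^ 2 ∂μ = ∫ y, ‖g y‖ ^ 2 ∂μ' := by
  have m1 : AEStronglyMeasurable (fun y => ‖g y‖ ^ 2) (μ.map p) := by
    rw [h.map_eq]
    exact (continuous_pow 2).comp_aestronglyMeasurable hg.1.norm
  have m2 := integral_map h.measurable.aemeasurable m1
  rw [h.map_eq] at m2
  exact m2.symm

theorem pull_P (F : Fd) {X' X : Sys} (L' : Ln ν U X') (L : Ln ν U X) (p : X'.X → X.X)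
    (Lp : L'.W.X → L.W.X) (s : Slot) (he : Emb X' X p) (hL : IsLift L' L p Lp) :
    pull L'.W.μ Lp (L.P s) ≤ L'.P s := by
  have h1 : pull L'.W.μ Lp (L.P s) = pull L'.W.μ (L.π s ∘ Lp) X.ms :=
    F.a.pull_comp X.ms L'.W.μ L.W.μ Lp (L.π s) hL.emb.mp
  have h2 : pull L'.W.μ (L.π s ∘ Lp) X.ms = pull L'.W.μ (p ∘ L'.π s) X.ms :=
    F.a.keq_pull X.ms L'.W.μ _ _ (comap_le ((L.emb s).mp.comp hL.emb.mp))
      (comap_le (he.mp.comp (L'.emb s).mp)) (F.la.slot L' L p Lp s he hL)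
  have h3 : pull L'.W.μ (L'.π s) (pull X'.μ p X.ms) = pull L'.W.μ (p ∘ L'.π s) X.ms :=
    F.a.pull_comp X.ms L'.W.μ X'.μ (L'.π s) p (L'.emb s).mp
  rw [h1, h2, ← h3]
  exact pull_mono _ _ (F.a.pull_le X.ms X'.μ X.μ p he.mp le_rfl)

theorem ob (F : Fd) {X' X : Sys} (L' : Ln ν U X') (L : Ln ν U X) (B' : MeasurableSpace X'.X)
    (B : MeasurableSpace X.X) (p : X'.X → X.X) (Lp : L'.W.X → L.W.X) (sl : ι → Slot) (q : ι)
    (he : Emb X' X p) (hB : Fac X B) (hB' : Fac X' B') (hle : pull X'.μ p B ≤ B')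
    (hL : IsLift L' L p Lp) : pull L'.W.μ Lp (L.OB B sl q) ≤ L'.OB B' sl q := by
  have h2 : pull L'.W.μ Lp (L.B2 B) ≤ L'.B2 B' :=
    (F.h.fn L'.W L.W Lp (L.shp B) L'.nice L.nice hL.emb (F.lb.fac L B hB)).trans
      (F.h.mono L'.W _ _ (F.la.shp L' L p Lp B B' he hL hB hB' hle))
  unfold Ln.OB
  rw [F.a.pull_sup]
  refine sup_le (sup_le ?_ ?_) (h2.trans le_sup_right)
  · refine le_trans ?_ le_sup_left
    unfold Fib27.sup
    simp only [MeasurableSpace.comap_iSup]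
    refine iSup₂_le fun k hk => le_trans ?_ (le_iSup₂_of_le k hk le_rfl)
    exact le_trans le_sup_left (pull_P F L' L p Lp (sl k) he hL)
  · exact (le_trans le_sup_right h2).trans le_sup_right

/-- the energy of a function in one slot with respect to the other slots and the base -/
def en {X : Sys} (L : Ln ν U X) (B : MeasurableSpace X.X) (sl : ι → Slot) (q : ι)
    (g : X.X → ℂ) : ℝ :=
  ∫ w, ‖(L.W.μ[fun v => g (L.π (sl q) v) | L.OB B sl q]) w‖ ^ 2 ∂L.W.μ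

theorem en_congr {X : Sys} (L : Ln ν U X) (B : MeasurableSpace X.X) (sl : ι → Slot) (q : ι)
    {g g' : X.X → ℂ} (h : g =ᵐ[X.μ] g') : en L B sl q g = en L B sl q g' := by
  have h1 : (fun v => g (L.π (sl q) v)) =ᵐ[L.W.μ] fun v => g' (L.π (sl q) v) :=
    mae (L.emb (sl q)).mp h
  refine integral_congr_ae ?_
  filter_upwards [condExp_congr_ae (m := L.OB B sl q) h1] with w hw
  rw [hw]

theorem en_le {X : Sys} (L : Ln ν U X) (B : MeasurableSpace X.X) (sl : ι → Slot) (q : ι)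
    {g : X.X → ℂ} {C : ℝ} (h : ∀ᵐ x ∂X.μ, ‖g x‖ ≤ C) : en L B sl q g ≤ C ^ 2 := by
  have h1 : ∀ᵐ v ∂L.W.μ, ‖g (L.π (sl q) v)‖ ≤ C :=
    mae (L.emb (sl q)).mp h
  have h2 := ae_bdd_norm_condExp_of_ae_bdd_norm (m := L.OB B sl q) h1
  have h3 : en L B sl q g ≤ ∫ _w, C ^ 2 ∂L.W.μ := by
    refine integral_mono_of_nonneg (Eventually.of_forall fun w => by positivity)
      (integrable_const _) ?_
    filter_upwards [h2] with w hw
    exact pow_le_pow_left₀ (norm_nonneg _) hw 2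
  simpa using h3

theorem bm_comp (F : Fd) {X' X : Sys} {p : X'.X → X.X} (hp : MeasurePreserving p X'.μ X.μ)
    {g : X.X → ℂ} (hg : BM X.μ X.ms g) : BM X'.μ X'.ms fun x => g (p x) :=
  (F.a.bm_comp X.ms X'.μ X.μ p g hp hg).mono (F.a.pull_le X.ms X'.μ X.μ p hp le_rfl)

theorem key (F : Fd) {X' X : Sys} (L' : Ln ν U X') (L : Ln ν U X) (B' : MeasurableSpace X'.X)
    (B : MeasurableSpace X.X) (p : X'.X → X.X) (Lp : L'.W.X → L.W.X) (sl : ι → Slot) (q : ι)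
    (he : Emb X' X p) (hB : Fac X B) (hB' : Fac X' B') (hle : pull X'.μ p B ≤ B')
    (hL : IsLift L' L p Lp) (g : X.X → ℂ) (hg : BM X.μ X.ms g) :
    en L B sl q g ≤ en L' B' sl q (fun x => g (p x)) ∧
      (en L' B' sl q (fun x => g (p x)) ≤ en L B sl q g →
        L'.W.μ[fun w => g (L.π (sl q) (Lp w)) | L'.OB B' sl q] =ᵐ[L'.W.μ]
          L'.W.μ[fun w => g (L.π (sl q) (Lp w)) | pull L'.W.μ Lp (L.OB B sl q)]) := by
  have b1 : BM L.W.μ L.W.ms fun v => g (L.π (sl q) v) := bm_comp F (L.emb (sl q)).mp hg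
  have b2 : BM L'.W.μ L'.W.ms fun w => g (L.π (sl q) (Lp w)) := bm_comp F hL.emb.mp b1
  have e1 := F.a.ce_comp (L.OB B sl q) L'.W.μ L.W.μ Lp (fun v => g (L.π (sl q) v)) hL.emb.mp
    (OB_le F L B hB sl q) b1.integrable
  have e2 : (fun w => g (L.π (sl q) (Lp w))) =ᵐ[L'.W.μ] fun w => g (p (L'.π (sl q) w)) :=
    F.a.keq_fun X.ms L'.W.μ X.μ (L.π (sl q) ∘ Lp) (p ∘ L'.π (sl q)) g
      (mcomp (L.emb (sl q)).mp hL.emb.mp) (mcomp he.mp (L'.emb (sl q)).mp)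
      (F.la.slot L' L p Lp (sl q) he hL) hg.1
  have e3 : en L B sl q g = ∫ w, ‖(L'.W.μ[fun w => g (L.π (sl q) (Lp w)) |
      pull L'.W.μ Lp (L.OB B sl q)]) w‖ ^ 2 ∂L'.W.μ := by
    unfold en
    rw [← mint hL.emb.mp ((b1.ce (L.OB B sl q)).mono (OB_le F L B hB sl q))]
    refine integral_congr_ae ?_
    filter_upwards [e1] with w hw
    rw [hw]
  have e4 : en L' B' sl q (fun x => g (p x)) = ∫ w, ‖(L'.W.μ[fun w => g (L.π (sl q) (Lp w)) |
      L'.OB B' sl q]) w‖ ^ 2 ∂L'.W.μ := by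
    refine integral_congr_ae ?_
    filter_upwards [condExp_congr_ae (m := L'.OB B' sl q) e2] with w hw
    rw [hw]
  rw [e3, e4]
  exact F.d.eqn _ _ L'.W.μ (ob F L' L B' B p Lp sl q he hB hB' hle hL) (OB_le F L' B' hB' sl q) _
    (b2.memLp 2)

theorem en_mono (F : Fd) {X' X : Sys} (L' : Ln ν U X') (L : Ln ν U X) (B' : MeasurableSpace X'.X)
    (B : MeasurableSpace X.X) (p : X'.X → X.X) (sl : ι → Slot) (q : ι)
    (he : Emb X' X p) (hB : Fac X B) (hB' : Fac X' B') (hle : pull X'.μ p B ≤ B')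
    (g : X.X → ℂ) (hg : BM X.μ X.ms g) : en L B sl q g ≤ en L' B' sl q (fun x => g (p x)) := by
  obtain ⟨Lp, hL⟩ := F.la.ex L' L p he
  exact (key F L' L B' B p Lp sl q he hB hB' hle hL g hg).1

/-- the extension `Z` maximises every energy among the admissible extensions of `X` -/
def Mx (ν : Wt) (U : Ultrafilter ℕ) (sl : ι → Slot) (Z : Sys) (C : MeasurableSpace Z.X) (X : Sys)
    (B : MeasurableSpace X.X) (r : Z.X → X.X) : Prop :=
  ∀ (LZ : Ln ν U Z) (Y : Sys) (D : MeasurableSpace Y.X) (p : Y.X → X.X) (LY : Ln ν U Y),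
    Adm Y D X B p → ∀ (q : ι) (f : X.X → ℂ), BM X.μ X.ms f →
    en LY D sl q (fun y => f (p y)) ≤ en LZ C sl q fun z => f (r z)

theorem near (F : Fd) (A : SatA) (sl : ι → Slot) (X : Sys) (B : MeasurableSpace X.X)
    (hX : Nice X) (hB : KC X B) (q : ι) (f : X.X → ℂ) (hf : BM X.μ X.ms f) (ε : ℝ) (hε : 0 < ε) :
    ∃ (Y : Sys) (D : MeasurableSpace Y.X) (p : Y.X → X.X) (LY : Ln ν U Y), Adm Y D X B p ∧
      ∀ (Y' : Sys) (D' : MeasurableSpace Y'.X) (p' : Y'.X → X.X) (LY' : Ln ν U Y'),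
        Adm Y' D' X B p' →
        en LY' D' sl q (fun y => f (p' y)) ≤ en LY D sl q (fun y => f (p y)) + ε := by
  let S : Set ℝ := {e | ∃ (Y : Sys) (D : MeasurableSpace Y.X) (p : Y.X → X.X) (LY : Ln ν U Y),
    Adm Y D X B p ∧ e = en LY D sl q fun y => f (p y)}
  have hne : S.Nonempty := by
    obtain ⟨Z, C, r, e, h, -⟩ := A.amal X B Empty (fun k => k.elim) (fun k => k.elim)
      (fun k => k.elim) hX hB (fun k => k.elim)
    obtain ⟨LZ⟩ := F.line ν U Z h.nice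
    exact ⟨_, Z, C, r, LZ, h, rfl⟩
  obtain ⟨_, C, hC⟩ := hf
  have hbd : BddAbove S := by
    refine ⟨C ^ 2, ?_⟩
    rintro _ ⟨Y, D, p, LY, h, rfl⟩
    exact en_le LY D sl q (mae h.emb.mp hC)
  obtain ⟨_, ⟨Y, D, p, LY, h, rfl⟩, hlt⟩ :=
    exists_lt_of_lt_csSup hne (show sSup S - ε < sSup S by linarith)
  refine ⟨Y, D, p, LY, h, fun Y' D' p' LY' h' => ?_⟩
  have := le_csSup hbd (show _ ∈ S from ⟨Y', D', p', LY', h', rfl⟩)
  linarith

theorem step (F : Fd) (A : SatA) (ν : Wt) (U : Ultrafilter ℕ) (sl : ι → Slot) (X : Sys)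
    (B : MeasurableSpace X.X) (hX : Nice X) (hB : KC X B) :
    ∃ (Z : Sys) (C : MeasurableSpace Z.X) (r : Z.X → X.X), Adm Z C X B r ∧ Mx ν U sl Z C X B r := by
  have h := fun k : ι × {f : X.X → ℂ // BM X.μ X.ms f} × {ε : ℝ // 0 < ε} =>
    near (ν := ν) (U := U) F A sl X B hX hB k.1 k.2.1.1 k.2.1.2 k.2.2.1 k.2.2.2
  choose Y D p LY h1 h2 using h
  obtain ⟨Z, C, r, e, hZ, he⟩ := A.amal X B _ Y D p hX hB h1
  refine ⟨Z, C, r, hZ, fun LZ Y' D' p' LY' h' q f hf => ?_⟩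
  refine le_of_forall_pos_le_add fun ε hε => ?_
  let k : ι × {f : X.X → ℂ // BM X.μ X.ms f} × {ε : ℝ // 0 < ε} := (q, ⟨f, hf⟩, ⟨ε, hε⟩)
  have a1 := h2 k Y' D' p' LY' h'
  have a2 := en_mono F LZ (LY k) C (D k) (e k) sl q (he k).1 (h1 k).kc.1 hZ.kc.1 (he k).2.1
    (fun y => f (p k y)) (bm_comp F (h1 k).emb.mp hf)
  have a3 : (fun z => f (p k (e k z))) =ᵐ[Z.μ] fun z => f (r z) :=
    F.a.keq_fun X.ms Z.μ X.μ (p k ∘ e k) r f (mcomp (h1 k).emb.mp (he k).1.mp) hZ.emb.mp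
      (he k).2.2 hf.1
  have a4 := en_congr LZ C sl q a3
  simp only [k] at a1 a2 a4
  linarith

/-- an identity of conditional expectations passes to limits in the mean -/
theorem close (F : Fd) {Ω : Type} (A O : MeasurableSpace Ω) {m0 : MeasurableSpace Ω}
    (μ : Measure Ω) [IsProbabilityMeasure μ] (hA : A ≤ O) (hO : O ≤ m0) (h : Ω → ℂ)
    (hh : BM μ m0 h) (ap : ∀ ε : ℝ, 0 < ε → ∃ h', BM μ m0 h' ∧ μ[h' | O] =ᵐ[μ] μ[h' | A] ∧
      ∫ x, ‖h x - h' x‖ ^ 2 ∂μ ≤ ε) : μ[h | O] =ᵐ[μ] μ[h | A] := by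
  have m : AEStronglyMeasurable[A] (μ[h | O]) μ := by
    refine F.d.closed A μ (hA.trans hO) _ (((hh.ce O).mono hO).memLp 2) fun ε hε => ?_
    obtain ⟨h', b', e', l'⟩ := ap ε hε
    refine ⟨μ[h' | A], ((b'.ce A).mono (hA.trans hO)).memLp 2, (b'.ce A).1, le_trans ?_ l'⟩
    have c1 := (F.d.eqn O m0 μ hO le_rfl _ ((hh.sub b').memLp 2)).1
    have c2 : ∫ x, ‖(μ[fun x => h x - h' x | m0]) x‖ ^ 2 ∂μ = ∫ x, ‖h x - h' x‖ ^ 2 ∂μ := by
      refine integral_congr_ae ?_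
      filter_upwards [Fib27.BM.ce_self le_rfl (hh.sub b')] with x hx
      rw [hx]
    rw [← c2]
    refine le_trans (le_of_eq (integral_congr_ae ?_)) c1
    filter_upwards [Fib27.ce_sub hh b' O, e'] with x h1 h2
    rw [h1, h2]
  have t1 : μ[μ[h | O] | A] =ᵐ[μ] μ[h | A] := condExp_condExp_of_le hA hO
  have t2 : μ[μ[h | O] | A] =ᵐ[μ] μ[h | O] :=
    condExp_of_aestronglyMeasurable' (hA.trans hO) m integrable_condExp
  exact t2.symm.trans t1

/-- functions of the finite levels are dense in the limit -/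
theorem dense (F : Fd) (X : ℕ → Sys) (p : ∀ k, (X (k + 1)).X → (X k).X) (Z : Sys)
    (e : ∀ k, Z.X → (X k).X) (hp : ∀ k, Emb (X (k + 1)) (X k) (p k)) (he : ∀ k, Emb Z (X k) (e k))
    (hk : ∀ k, KEq Z.μ (X k).ms (p k ∘ e (k + 1)) (e k))
    (hg : Z.ms ≤ ⨆ k, pull Z.μ (e k) (X k).ms) (f : Z.X → ℂ) (hf : BM Z.μ Z.ms f) (ε : ℝ)
    (hε : 0 < ε) : ∃ (k : ℕ) (g : (X k).X → ℂ), BM (X k).μ (X k).ms g ∧
      ∫ z, ‖f z - g (e k z)‖ ^ 2 ∂Z.μ ≤ ε := by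
  let c : ℕ → MeasurableSpace Z.X := fun k => pull Z.μ (e k) (X k).ms
  have hle : ∀ k, c k ≤ Z.ms := fun k => F.a.pull_le (X k).ms Z.μ (X k).μ (e k) (he k).mp le_rfl
  have hm : Monotone c := by
    refine monotone_nat_of_le_succ fun k => ?_
    have h1 : pull Z.μ (p k ∘ e (k + 1)) (X k).ms = pull Z.μ (e k) (X k).ms :=
      F.a.keq_pull (X k).ms Z.μ _ _ (comap_le ((hp k).mp.comp (he (k + 1)).mp))
        (comap_le (he k).mp) (hk k)
    have h2 := F.a.pull_comp (X k).ms Z.μ (X (k + 1)).μ (e (k + 1)) (p k) (he (k + 1)).mp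
    show pull Z.μ (e k) (X k).ms ≤ pull Z.μ (e (k + 1)) (X (k + 1)).ms
    rw [← h1, ← h2]
    exact pull_mono _ _ (F.a.pull_le (X k).ms (X (k + 1)).μ (X k).μ (p k) (hp k).mp le_rfl)
  have hs : sSup (Set.range c) = Z.ms := le_antisymm (iSup_le hle) hg
  obtain ⟨_, ⟨k, rfl⟩, hC⟩ := F.d.chain (Set.range c) Z.μ (Set.range_nonempty c)
    (directedOn_range.2 hm.directed_le) (by rintro _ ⟨k, rfl⟩; exact hle k) f (hf.memLp 2) ε hε
  have h3 := hC (c k) ⟨k, rfl⟩ le_rfl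
  rw [hs] at h3
  obtain ⟨m, C, hb⟩ := hf.ce (c k)
  obtain ⟨g, g1, g2, g3⟩ := F.a.fact (X k).ms Z.μ (e k) (Z.μ[f | c k]) (max C 0)
    (comap_le (he k).mp) (le_max_right _ _) m (hb.mono fun x hx => hx.trans (le_max_left _ _))
  refine ⟨k, g, ⟨g1.aestronglyMeasurable, _, Eventually.of_forall g2⟩, le_trans (le_of_eq ?_) h3⟩
  refine integral_congr_ae ?_
  filter_upwards [Fib27.BM.ce_self le_rfl hf, g3] with z h1 h2
  rw [h1, h2]

theorem fin (F : Fd) (sl : ι → Slot) (X : ℕ → Sys) (B : ∀ k, MeasurableSpace (X k).X)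
    (p : ∀ k, (X (k + 1)).X → (X k).X) (hn : ∀ k, Nice (X k)) (hB : ∀ k, KC (X k) (B k))
    (hp : ∀ k, Adm (X (k + 1)) (B (k + 1)) (X k) (B k) (p k))
    (hm : ∀ k, Mx ν U sl (X (k + 1)) (B (k + 1)) (X k) (B k) (p k)) (Z : Sys)
    (C : MeasurableSpace Z.X) (e : ∀ k, Z.X → (X k).X) (he : ∀ k, Adm Z C (X k) (B k) (e k))
    (hk : ∀ k, KEq Z.μ (X k).ms (p k ∘ e (k + 1)) (e k))
    (hg : Z.ms ≤ ⨆ k, pull Z.μ (e k) (X k).ms) (LZ : Ln ν U Z) : SAT LZ C sl := by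
  intro Y D r LY Lr hr hL q f hf
  have hC : Fac Z C := (he 0).kc.1
  have mp := mcomp (LZ.emb (sl q)).mp hL.emb.mp
  have b1 : BM LZ.W.μ LZ.W.ms fun v => f (LZ.π (sl q) v) := bm_comp F (LZ.emb (sl q)).mp hf
  refine EventuallyEq.trans ?_ (F.a.ce_comp (LZ.OB C sl q) LY.W.μ LZ.W.μ Lr
    (fun v => f (LZ.π (sl q) v)) hL.emb.mp (OB_le F LZ C hC sl q) b1.integrable)
  refine close F _ _ LY.W.μ (ob F LY LZ D C r Lr sl q hr.emb hC hr.kc.1 hr.le hL)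
    (OB_le F LY D hr.kc.1 sl q) _ (bm_comp F mp hf) fun ε hε => ?_
  obtain ⟨k, g, hg1, hg2⟩ := dense F X p Z e (fun k => (hp k).emb) (fun k => (he k).emb) hk hg f hf
    ε hε
  have b2 : BM Z.μ Z.ms fun z => g (e k z) := bm_comp F (he k).emb.mp hg1
  refine ⟨fun w => g (e k (LZ.π (sl q) (Lr w))), bm_comp F mp b2, ?_, le_trans (le_of_eq ?_) hg2⟩
  · refine (key F LY LZ D C r Lr sl q hr.emb hC hr.kc.1 hr.le hL _ b2).2 ?_
    obtain ⟨L1⟩ := F.line ν U (X (k + 1)) (hn (k + 1))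
    have a1 := hm k L1 Y D (e k ∘ r) LY (F.h.trans Y Z (X k) D C (B k) r (e k) (hB k).1 hr (he k))
      q g hg1
    have a2 := en_mono F LZ L1 C (B (k + 1)) (e (k + 1)) sl q (he (k + 1)).emb (hB (k + 1)).1 hC
      (he (k + 1)).le (fun y => g (p k y)) (bm_comp F (hp k).emb.mp hg1)
    have a3 : (fun z => g (p k (e (k + 1) z))) =ᵐ[Z.μ] fun z => g (e k z) :=
      F.a.keq_fun (X k).ms Z.μ (X k).μ (p k ∘ e (k + 1)) (e k) g
        (mcomp (hp k).emb.mp (he (k + 1)).emb.mp) (he k).emb.mp (hk k) hg1.1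
    exact (a1.trans a2).trans (le_of_eq (en_congr LZ C sl q a3))
  · exact mint mp (hf.sub b2)

/-- a nice system with a closed base -/
structure Ob where
  X : Sys
  B : MeasurableSpace X.X
  nice : Nice X
  kc : KC X B

end Sat

theorem sat : SatR := by
  intro F A ν U X B ι _ _ sl hX hB
  have h := fun o : Sat.Ob => Sat.step F A ν U sl o.X o.B o.nice o.kc
  choose Z C r h1 h2 using h
  let s : ℕ → Sat.Ob := fun k =>
    Nat.rec ⟨X, B, hX, hB⟩ (fun _ o => ⟨Z o, C o, (h1 o).nice, (h1 o).kc⟩) k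
  obtain ⟨Y, D, e, he, hk, hg⟩ := A.lim (fun k => (s k).X) (fun k => (s k).B) (fun k => r (s k))
    hX hB fun k => h1 (s k)
  obtain ⟨LY⟩ := F.line ν U Y (he 0).nice
  exact ⟨Y, D, e 0, LY, he 0, Sat.fin F sl (fun k => (s k).X) (fun k => (s k).B) (fun k => r (s k))
    (fun k => (s k).nice) (fun k => (s k).kc) (fun k => h1 (s k)) (fun k => h2 (s k)) Y D e he hk
    hg LY⟩

end T3x

end
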