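import Pool.Agent.MP_154433_an.t3.Spec

/-! Row SatA: growth of the rest of a line, inheritance of failure, amalgamation, limits. -/

set_option autoImplicit false
set_option linter.unusedVariables false
set_option warn.classDefReducibility false

open MeasureTheory ProbabilityTheory Filter Topology Function Finset ComplexConjugate
open scoped BigOperators
open Fib27 (BM sup pr Oc Orow F23 LInd Mem)

noncomputable section

namespace T3x

namespace SatAx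

theorem pull_mono {Ω Ω' : Type} {B C : MeasurableSpace Ω'} {m0 : MeasurableSpace Ω}
    (μ : Measure Ω) (p : Ω → Ω') (h : B ≤ C) : pull μ p B ≤ pull μ p C :=
  sup_le_sup_right (MeasurableSpace.comap_mono h) _

theorem comap_le {Ω Ω' : Type} {B : MeasurableSpace Ω'} {m0 : MeasurableSpace Ω}
    {m0' : MeasurableSpace Ω'} {μ : Measure Ω} {μ' : Measure Ω'} {p : Ω → Ω'}
    (hp : MeasurePreserving p μ μ') (h : B ≤ m0') : B.comap p ≤ m0 :=
  (MeasurableSpace.comap_mono h).trans hp.measurable.comap_le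

theorem mpc {Ω Ω' Ω'' : Type} {m0 : MeasurableSpace Ω} {m0' : MeasurableSpace Ω'}
    {m0'' : MeasurableSpace Ω''} {μ : Measure Ω} {μ' : Measure Ω'} {μ'' : Measure Ω''}
    {p : Ω → Ω'} {q : Ω' → Ω''} (hq : MeasurePreserving q μ' μ'') (hp : MeasurePreserving p μ μ') :
    MeasurePreserving (q ∘ p) μ μ'' := hq.comp hp

theorem keq_mono {Ω Ω' : Type} {B C : MeasurableSpace Ω'} {m0 : MeasurableSpace Ω}
    {μ : Measure Ω} {p p' : Ω → Ω'} (h : KEq μ C p p') (hB : B ≤ C) : KEq μ B p p' :=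
  fun A hA => h A (hB A hA)

theorem int_comp {Ω Ω' : Type} {m0 : MeasurableSpace Ω} {m0' : MeasurableSpace Ω'}
    {μ : Measure Ω} {μ' : Measure Ω'} {p : Ω → Ω'} (hp : MeasurePreserving p μ μ') {f : Ω' → ℂ}
    (hf : BM μ' m0' f) : ∫ x, f (p x) ∂μ = ∫ y, f y ∂μ' := by
  have h1 : AEStronglyMeasurable f (μ.map p) := by rw [hp.map_eq]; exact hf.1
  rw [← hp.map_eq, integral_map hp.measurable.aemeasurable h1]

theorem ae_comp {Ω Ω' : Type} {m0 : MeasurableSpace Ω} {m0' : MeasurableSpace Ω'}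
    {μ : Measure Ω} {μ' : Measure Ω'} {p : Ω → Ω'} (hp : MeasurePreserving p μ μ') {f g : Ω' → ℂ}
    (h : f =ᵐ[μ'] g) : (fun x => f (p x)) =ᵐ[μ] fun x => g (p x) :=
  hp.quasiMeasurePreserving.ae_eq_comp h

theorem fact (a : BasA) {Ω Ω' : Type} {B : MeasurableSpace Ω'} {m0 : MeasurableSpace Ω}
    {m0' : MeasurableSpace Ω'} {μ : Measure Ω} {μ' : Measure Ω'} {p : Ω → Ω'}
    (hp : MeasurePreserving p μ μ') (h : B ≤ m0') {f : Ω → ℂ} (hf : BM μ (pull μ p B) f) :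
    ∃ f' : Ω' → ℂ, BM μ' B f' ∧ f =ᵐ[μ] fun x => f' (p x) := by
  obtain ⟨h1, C, hC⟩ := hf
  obtain ⟨f', h2, h3, h4⟩ := a.fact B μ p f (max C 0) (comap_le hp h) (le_max_right _ _) h1
    (hC.mono fun x hx => hx.trans (le_max_left _ _))
  exact ⟨f', ⟨h2.stronglyMeasurable.aestronglyMeasurable, _, Eventually.of_forall h3⟩, h4⟩

/-- conditional independence is pulled back -/
theorem cp_pull (a : BasA) {Ω Ω' : Type} {Y D C : MeasurableSpace Ω'} {m0 : MeasurableSpace Ω}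
    {m0' : MeasurableSpace Ω'} {μ : Measure Ω} {μ' : Measure Ω'} [IsProbabilityMeasure μ]
    [IsProbabilityMeasure μ'] {p : Ω → Ω'} (hp : MeasurePreserving p μ μ') (hY : Y ≤ m0')
    (hD : D ≤ m0') (hC : C ≤ m0') (h : CP Y D C μ') :
    CP (pull μ p Y) (pull μ p D) (pull μ p C) μ := by
  intro f hf
  obtain ⟨f', h1, h2⟩ := fact a hp hY hf
  have hi : Integrable f' μ' := (h1.mono hY).integrable
  exact (condExp_congr_ae h2).trans ((a.ce_comp C μ μ' p f' hp hC hi).trans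
    ((ae_comp hp (h f' h1)).trans ((a.ce_comp D μ μ' p f' hp hD hi).symm.trans
      (condExp_congr_ae h2).symm)))

/-- conditional independence from a join, tested on products -/
theorem cp_iSup (d : BasD) {Ω ι : Type} {Y D : MeasurableSpace Ω} {p : ι → MeasurableSpace Ω}
    {m0 : MeasurableSpace Ω} {μ : Measure Ω} [IsProbabilityMeasure μ] (hY : Y ≤ m0)
    (hp : ∀ i, p i ≤ m0) (hD : D ≤ Y) (hD' : D ≤ ⨆ i, p i)
    (h : ∀ g, BM μ Y g → Fib27.Perp μ D g → ∀ (S : Finset ι) (f : ι → Ω → ℂ),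
      (∀ i ∈ S, BM μ (p i) (f i)) → ∫ x, g x * pr f S x ∂μ = 0) : CP Y D (⨆ i, p i) μ := by
  intro f hf
  have hC : (⨆ i, p i) ≤ m0 := iSup_le hp
  have hg : BM μ Y fun x => f x - (μ[f | D]) x := hf.sub ((hf.ce D).mono hD)
  have h1 := d.iperp p μ hp _ (hg.mono hY).integrable
    (h _ hg (Fib27.perp_sub_ce (hD.trans hY) (hf.mono hY)))
  exact Fib27.ce_eq_of_perp hC (hf.mono hY) ((hf.ce D).mono hD')
    (Fib27.perp_of_ce hC (hg.mono hY) h1)

theorem ob (fd : Fd) {ν : Wt} {U : Ultrafilter ℕ} {X' X : Sys} (L' : Ln ν U X') (L : Ln ν U X)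
    (B' : MeasurableSpace X'.X) (B : MeasurableSpace X.X) (p : X'.X → X.X)
    (Lp : L'.W.X → L.W.X) {ι : Type} [Fintype ι] [DecidableEq ι] (sl : ι → Slot) (q : ι)
    (hB : Fac X B) (hB' : Fac X' B') (hp : Emb X' X p) (hle : pull X'.μ p B ≤ B')
    (hL : IsLift L' L p Lp) : pull L'.W.μ Lp (L.OB B sl q) ≤ L'.OB B' sl q ∧
      pull L'.W.μ Lp (L.B2 B) ≤ L'.B2 B' := by
  have h2 : pull L'.W.μ Lp (L.B2 B) ≤ L'.B2 B' :=
    (fd.h.fn L'.W L.W Lp (L.shp B) L'.nice L.nice hL.emb (fd.lb.fac L B hB)).trans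
      (fd.h.mono L'.W _ _ (fd.la.shp L' L p Lp B B' hp hL hB hB' hle))
  refine ⟨?_, h2⟩
  have h3 : ∀ s, pull L'.W.μ Lp (L.P s) ≤ L'.P s := fun s => by
    have e1 : pull L'.W.μ Lp (L.P s) = pull L'.W.μ (L.π s ∘ Lp) X.ms :=
      fd.a.pull_comp X.ms L'.W.μ L.W.μ Lp (L.π s) hL.emb.mp
    have e2 : pull L'.W.μ (L.π s ∘ Lp) X.ms = pull L'.W.μ (p ∘ L'.π s) X.ms :=
      fd.a.keq_pull X.ms L'.W.μ _ _ (comap_le (mpc (L.emb s).mp hL.emb.mp) le_rfl)
        (comap_le (mpc hp.mp (L'.emb s).mp) le_rfl) (fd.la.slot L' L p Lp s hp hL)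
    have e3 : pull L'.W.μ (L'.π s) (pull X'.μ p X.ms) = pull L'.W.μ (p ∘ L'.π s) X.ms :=
      fd.a.pull_comp X.ms L'.W.μ X'.μ (L'.π s) p (L'.emb s).mp
    rw [e1, e2, ← e3]
    exact pull_mono _ _ (fd.a.pull_le X.ms X'.μ X.μ p hp.mp le_rfl)
  unfold Ln.OB
  rw [fd.a.pull_sup]
  refine sup_le ?_ (h2.trans le_sup_right)
  refine sup_le ?_ ((le_sup_right.trans h2).trans le_sup_right)
  refine le_trans ?_ le_sup_left
  unfold Fib27.sup
  simp only [MeasurableSpace.comap_iSup]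
  exact iSup₂_mono fun k _ => le_sup_left.trans (h3 (sl k))

theorem fail (fd : Fd) {ν : Wt} {U : Ultrafilter ℕ} {X' X : Sys} (L' : Ln ν U X')
    (L : Ln ν U X) (B' : MeasurableSpace X'.X) (B : MeasurableSpace X.X) (p : X'.X → X.X)
    {ι : Type} [Fintype ι] (sl : ι → Slot) (hX : Nice X) (hB : KC X B) (ad : Adm X' B' X B p)
    (h : IndOver L' B' (L'.shp B') sl univ) : IndOver L B (L.shp B) sl univ := by
  obtain ⟨Lp, hL⟩ := fd.la.ex L' L p ad.emb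
  intro f hf
  have hS := fd.lb.fac L B hB.1
  have hS' := fd.lb.fac L' B' ad.kc.1
  have hF : BM L.W.μ L.W.ms fun w => ∏ i, f i (L.π (sl i) w) :=
    BM.pr (ρ := fun i w => f i (L.π (sl i) w)) fun i hi =>
      (fd.a.bm_comp X.ms L.W.μ X.μ _ _ (L.emb _).mp (hf i hi)).mono
        (fd.a.pull_le X.ms L.W.μ X.μ _ (L.emb _).mp le_rfl)
  have hG : BM L.W.μ (L.shp B) fun w => ∏ i, (X.μ[f i | B]) (L.π (sl i) w) :=
    BM.pr (ρ := fun i w => (X.μ[f i | B]) (L.π (sl i) w)) fun i hi =>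
      (fd.a.bm_comp B L.W.μ X.μ _ _ (L.emb _).mp ((hf i hi).ce B)).mono
        (fd.lb.slot L B _ hB.1)
  have hf' : ∀ i ∈ (univ : Finset ι), BM X'.μ X'.ms fun x => f i (p x) := fun i hi =>
    (fd.a.bm_comp X.ms X'.μ X.μ p _ ad.emb.mp (hf i hi)).mono
      (fd.a.pull_le X.ms X'.μ X.μ p ad.emb.mp le_rfl)
  have k1 := h (fun i x => f i (p x)) hf'
  have sw : ∀ (g : X.X → ℂ) (s : Slot), BM X.μ X.ms g →
      (fun w => g (L.π s (Lp w))) =ᵐ[L'.W.μ] fun w => g (p (L'.π s w)) := fun g s hg =>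
    fd.a.keq_fun X.ms L'.W.μ X.μ (L.π s ∘ Lp) (p ∘ L'.π s) g (mpc (L.emb s).mp hL.emb.mp)
      (mpc ad.emb.mp (L'.emb s).mp) (fd.la.slot L' L p Lp s ad.emb hL) hg.1
  have k2 : (fun w => ∏ i, f i (L.π (sl i) (Lp w))) =ᵐ[L'.W.μ]
      fun w => ∏ i, f i (p (L'.π (sl i) w)) :=
    Fib27.pr_congr_ae (ρ := fun i w => f i (L.π (sl i) (Lp w)))
      (ρ' := fun i w => f i (p (L'.π (sl i) w))) fun i hi => sw _ _ (hf i hi)
  have k3 : (fun w => ∏ i, (X'.μ[fun x => f i (p x) | B']) (L'.π (sl i) w)) =ᵐ[L'.W.μ]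
      fun w => ∏ i, (X.μ[f i | B]) (L.π (sl i) (Lp w)) :=
    Fib27.pr_congr_ae (ρ := fun i w => (X'.μ[fun x => f i (p x) | B']) (L'.π (sl i) w))
      (ρ' := fun i w => (X.μ[f i | B]) (L.π (sl i) (Lp w))) fun i hi => by
        have e1 := (ad.cp _ (fd.a.bm_comp X.ms X'.μ X.μ p _ ad.emb.mp (hf i hi))).trans
          (fd.a.ce_comp B X'.μ X.μ p (f i) ad.emb.mp hB.1.le (hf i hi).integrable)
        exact (ae_comp (L'.emb _).mp e1).trans (sw _ _ (((hf i hi).ce B).mono hB.1.le)).symm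
  have k4 := (condExp_congr_ae (m := L'.shp B') k2).trans (k1.trans k3)
  refine Fib27.ce_eq_of_tests hS.le hF hG fun c hc => ?_
  have hc' : BM L'.W.μ (L'.shp B') fun w => c (Lp w) :=
    (fd.a.bm_comp _ L'.W.μ L.W.μ Lp c hL.emb.mp hc).mono
      (fd.la.shp L' L p Lp B B' ad.emb hL hB.1 ad.kc.1 ad.le)
  have hF' : BM L'.W.μ L'.W.ms fun w => ∏ i, f i (L.π (sl i) (Lp w)) :=
    (fd.a.bm_comp _ L'.W.μ L.W.μ Lp _ hL.emb.mp hF).mono
      (fd.a.pull_le _ L'.W.μ L.W.μ Lp hL.emb.mp le_rfl)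
  rw [← int_comp hL.emb.mp (hF.mul (hc.mono hS.le)),
    ← int_comp hL.emb.mp ((hG.mul hc).mono hS.le), ← Fib27.int_ce_mul hS'.le hF' hc']
  refine integral_congr_ae ?_
  filter_upwards [k4] with w hw
  rw [hw]

theorem amal0 (fd : Fd) (X : Sys) (B : MeasurableSpace X.X) (κ : Type) (Y : κ → Sys)
    (D : ∀ k, MeasurableSpace (Y k).X) (p : ∀ k, (Y k).X → X.X) (i0 : κ) (hX : Nice X)
    (hB : KC X B) (ad : ∀ k, Adm (Y k) (D k) X B (p k)) :
    ∃ (Z : Sys) (C : MeasurableSpace Z.X) (q : Z.X → X.X) (e : ∀ k, Z.X → (Y k).X),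
      Adm Z C X B q ∧ ∀ k, Emb Z (Y k) (e k) ∧ pull Z.μ (e k) (D k) ≤ C ∧
        KEq Z.μ X.ms (p k ∘ e k) q := by
  obtain ⟨Z, e, rp⟩ := fd.rp κ Y X X.ms p i0 (fun k => (ad k).nice) (fd.t.top X)
    (fun k => (ad k).emb.mp) fun k => fd.t.emb_z _ _ _ 1 (ad k).emb
  have hq : Emb Z X (p i0 ∘ e i0) := fd.t.emb_comp _ _ _ _ _ (rp.emb i0) (ad i0).emb
  have hf : ∀ k, Fac Z (pull Z.μ (e k) (D k)) := fun k =>
    fd.t.fpull _ _ _ _ (rp.emb k) (ad k).kc.1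
  have hC : Fac Z (⨆ k, pull Z.μ (e k) (D k)) := by
    have := fd.t.fisup Z κ _ _ (hf i0) hf
    rwa [sup_of_le_right (le_iSup (fun k => pull Z.μ (e k) (D k)) i0)] at this
  have hb : ∀ k, pull Z.μ (e k) (pull (Y k).μ (p k) B) = pull Z.μ (p i0 ∘ e i0) B := fun k => by
    rw [fd.a.pull_comp B Z.μ (Y k).μ (e k) (p k) (rp.emb k).mp]
    exact fd.a.keq_pull B Z.μ _ _ (comap_le (mpc (ad k).emb.mp (rp.emb k).mp) hB.1.le)
      (comap_le hq.mp hB.1.le) (keq_mono (rp.com k) hB.1.le)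
  have hle : pull Z.μ (p i0 ∘ e i0) B ≤ ⨆ k, pull Z.μ (e k) (D k) := by
    rw [← hb i0]
    exact (pull_mono _ _ (ad i0).le).trans (le_iSup (fun k => pull Z.μ (e k) (D k)) i0)
  have hY : pull Z.μ (p i0 ∘ e i0) X.ms ≤ Z.ms := fd.a.pull_le X.ms Z.μ X.μ _ hq.mp le_rfl
  refine ⟨Z, hull Z (⨆ k, pull Z.μ (e k) (D k)), p i0 ∘ e i0, e,
    fd.h.adm Z X _ B _ rp.nice hX hq hB hC hle ?_, fun k => ⟨rp.emb k,
      (le_iSup (fun k => pull Z.μ (e k) (D k)) k).trans (fd.h.le Z _), rp.com k⟩⟩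
  refine cp_iSup fd.d hY (fun k => (hf k).le) (pull_mono _ _ hB.1.le) hle fun g hg hp S f hS => ?_
  have ex : ∀ k, ∃ f' : (Y k).X → ℂ, k ∈ S →
      BM (Y k).μ (D k) f' ∧ f k =ᵐ[Z.μ] fun x => f' (e k x) := fun k => by
    by_cases hk : k ∈ S
    · obtain ⟨f', h1⟩ := fact fd.a (rp.emb k).mp (ad k).kc.1.le (hS k hk)
      exact ⟨f', fun _ => h1⟩
    · exact ⟨0, fun h => (hk h).elim⟩
  choose f' hf' using ex
  have k1 := rp.ind S f' fun k hk => (hf' k hk).1.mono (ad k).kc.1.le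
  have k2 : pr f S =ᵐ[Z.μ] fun z => ∏ k ∈ S, f' k (e k z) :=
    Fib27.pr_congr_ae (ρ' := fun k z => f' k (e k z)) fun k hk => (hf' k hk).2
  have k3 : BM Z.μ (pull Z.μ (p i0 ∘ e i0) B)
      fun z => ∏ k ∈ S, ((Y k).μ[f' k | pull (Y k).μ (p k) X.ms]) (e k z) :=
    BM.pr (ρ := fun k z => ((Y k).μ[f' k | pull (Y k).μ (p k) X.ms]) (e k z)) fun k hk => by
      have e1 := fd.c.cp_symm _ _ _ (Y k).μ (fd.a.pull_le X.ms (Y k).μ X.μ _ (ad k).emb.mp le_rfl)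
        (ad k).kc.1.le (ad k).le (pull_mono _ _ hB.1.le) (ad k).cp _ (hf' k hk).1
      rw [← hb k]
      exact fd.a.bm_comp _ Z.μ (Y k).μ (e k) _ (rp.emb k).mp
        (((hf' k hk).1.ce _).congr e1.symm)
  have k4 : BM Z.μ Z.ms (pr f S) := BM.pr fun k hk => (hS k hk).mono (hf k).le
  rw [← Fib27.int_mul_ce hY hg k4, ← hp _ k3]
  refine integral_congr_ae ?_
  filter_upwards [(condExp_congr_ae k2).trans k1] with z hz
  rw [hz]

theorem adm_id (fd : Fd) (X : Sys) (B : MeasurableSpace X.X) (hX : Nice X) (hB : KC X B) :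
    Adm X B X B id := by
  have e : pull X.μ id B = B := by
    unfold pull
    rw [MeasurableSpace.comap_id, sup_of_le_left hB.1.nl]
  refine ⟨hX, fd.t.emb_id X, hB, e.le, fun f hf => ?_⟩
  rw [e]

theorem lim (fd : Fd) (X : ℕ → Sys) (B : ∀ k, MeasurableSpace (X k).X)
    (p : ∀ k, (X (k + 1)).X → (X k).X) (hX : Nice (X 0)) (hB : KC (X 0) (B 0))
    (ad : ∀ k, Adm (X (k + 1)) (B (k + 1)) (X k) (B k) (p k)) :
    ∃ (Z : Sys) (C : MeasurableSpace Z.X) (e : ∀ k, Z.X → (X k).X),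
      (∀ k, Adm Z C (X k) (B k) (e k)) ∧ (∀ k, KEq Z.μ (X k).ms (p k ∘ e (k + 1)) (e k)) ∧
      Z.ms ≤ ⨆ k, pull Z.μ (e k) (X k).ms := by
  have hN : ∀ k, Nice (X k) := fun k => by
    cases k with
    | zero => exact hX
    | succ k => exact (ad k).nice
  have hK : ∀ k, KC (X k) (B k) := fun k => by
    cases k with
    | zero => exact hB
    | succ k => exact (ad k).kc
  obtain ⟨Z, e, hZ, he, hq, hg⟩ := fd.lim X p hN fun k => (ad k).emb
  have hf : ∀ k, Fac Z (pull Z.μ (e k) (B k)) := fun k => fd.t.fpull _ _ _ _ (he k) (hK k).1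
  have hC : Fac Z (⨆ k, pull Z.μ (e k) (B k)) := by
    have := fd.t.fisup Z ℕ _ _ (hf 0) hf
    rwa [sup_of_le_right (le_iSup (fun k => pull Z.μ (e k) (B k)) 0)] at this
  have hb : ∀ k (A : MeasurableSpace (X k).X), A ≤ (X k).ms →
      pull Z.μ (e (k + 1)) (pull (X (k + 1)).μ (p k) A) = pull Z.μ (e k) A := fun k A hA => by
    rw [fd.a.pull_comp A Z.μ (X (k + 1)).μ (e (k + 1)) (p k) (he _).mp]
    exact fd.a.keq_pull A Z.μ _ _ (comap_le (mpc (ad k).emb.mp (he _).mp) hA)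
      (comap_le (he k).mp hA) (keq_mono (hq k) hA)
  have hpl : ∀ k, pull (X (k + 1)).μ (p k) (X k).ms ≤ (X (k + 1)).ms := fun k =>
    fd.a.pull_le _ _ (X k).μ _ (ad k).emb.mp le_rfl
  have mD : Monotone fun k => pull Z.μ (e k) (B k) := monotone_nat_of_le_succ fun k => by
    rw [← hb k _ (hK k).1.le]
    exact pull_mono _ _ (ad k).le
  have mY : Monotone fun k => pull Z.μ (e k) (X k).ms := monotone_nat_of_le_succ fun k => by
    rw [← hb k _ le_rfl]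
    exact pull_mono _ _ (hpl k)
  have st : ∀ k, CP (pull Z.μ (e k) (X k).ms) (pull Z.μ (e k) (B k))
      (pull Z.μ (e (k + 1)) (B (k + 1))) Z.μ := fun k => by
    have := cp_pull fd.a (he (k + 1)).mp (hpl k) ((ad k).le.trans (hK _).1.le) (hK _).1.le
      (ad k).cp
    rwa [hb k _ le_rfl, hb k _ (hK k).1.le] at this
  have st2 : ∀ k j, k ≤ j → CP (pull Z.μ (e k) (X k).ms) (pull Z.μ (e k) (B k))
      (pull Z.μ (e j) (B j)) Z.μ := fun k j hj => by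
    induction j, hj using Nat.le_induction with
    | base => exact fun f hf => EventuallyEq.rfl
    | succ j hj ih => exact fun f hf => (st j f (hf.mono (mY hj))).trans (ih f hf)
  refine ⟨Z, hull Z (⨆ k, pull Z.μ (e k) (B k)), e, fun k => fd.h.adm Z (X k) _ (B k) _ hZ (hN k)
    (he k) (hK k) hC (le_iSup (fun k => pull Z.μ (e k) (B k)) k) ?_, hq, hg⟩
  have hY : pull Z.μ (e k) (X k).ms ≤ Z.ms := fd.a.pull_le _ Z.μ (X k).μ _ (he k).mp le_rfl
  refine cp_iSup fd.d hY (fun k => (hf k).le) (pull_mono _ _ (hK k).1.le)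
    (le_iSup (fun k => pull Z.μ (e k) (B k)) k) fun g hg hp S f hS => ?_
  have h1 : k ≤ max k (S.sup id) := le_max_left _ _
  have h2 : BM Z.μ (pull Z.μ (e (max k (S.sup id))) (B (max k (S.sup id)))) (pr f S) :=
    BM.pr fun i hi => (hS i hi).mono (mD ((Finset.le_sup (f := id) hi).trans (le_max_right _ _)))
  exact Fib27.perp_of_ce (hf _).le (hg.mono hY)
    ((st2 k _ h1 g hg).trans (hp.ce (hf k).le (hg.mono hY))) _ h2

end SatAx

theorem satA : SatAR := by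
  intro fd
  refine ⟨fun L' L B' B p Lp ι _ _ sl q => SatAx.ob fd L' L B' B p Lp sl q,
    fun L' L B' B p ι _ sl => SatAx.fail fd L' L B' B p sl, ?_, SatAx.lim fd⟩
  intro X B κ Y D p hX hB ad
  rcases isEmpty_or_nonempty κ with h | ⟨⟨i0⟩⟩
  · exact ⟨X, B, id, fun k => h.elim k, SatAx.adm_id fd X B hX hB, fun k => h.elim k⟩
  · exact SatAx.amal0 fd X B κ Y D p i0 hX hB ad

end T3x

end
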