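import Pool.Agent.MP_154433_an.t3.SpecG

/-! Row GAlgC: assembly of the finite-level data of the algebraic step. -/

set_option autoImplicit false
set_option linter.unusedVariables false
set_option warn.classDefReducibility false

open MeasureTheory ProbabilityTheory Filter Topology Function Finset ComplexConjugate
open scoped BigOperators
open Fib27 (BM sup pr Oc Orow F23 LInd Mem)

noncomputable section

namespace T3x

namespace GAlgCx

theorem uu_meas (c : Ctx) {V : Type} [Countable V] (ψ : V → c.X.X → ℂ) (h : c.ONH ψ) :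
    MeasurableSet[c.L.shp c.B] (c.UU ψ) :=
  MeasurableSet.iInter fun q => MeasurableSet.iInter fun x =>
    MeasurableSet.biUnion (Set.to_countable _) fun v _ => h v

theorem sv_meas (c : Ctx) {V : Type} [Countable V] (ψ : V → c.X.X → ℂ) (h : c.ONH ψ)
    (i1 i2 : c.ι) (a a' : V) : MeasurableSet[c.L.shp c.B] (c.SV ψ i1 i2 a a') :=
  (uu_meas c ψ h).inter (MeasurableSet.biUnion (Set.to_countable _) fun v _ => h v)

end GAlgCx

theorem xAlgC : AlgC := by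
  intro gc hA hT hB f r hS hR hAlg c V _ _ sg ψ gi hψ onh hi hbun
  have cc := gc.ctx c
  obtain ⟨i1, i2, h12, hsame⟩ := cc.two
  have st := hS f r c V sg ψ i1 i2 h12 gi hψ
  obtain ⟨r1, r2, r3, r4, r5⟩ := hR f r c V sg ψ hψ
  choose A hA1 hA2 using fun a a' => f.lc.satu c.L c.B c.hU cc.facB _
    (GAlgCx.sv_meas c ψ onh i1 i2 a a')
  have hd : Desc c ψ i1 i2 A := ⟨fun a a' l => cc.facB.le _ (hA1 a a' l), hA2⟩
  obtain ⟨a1, a2, a3, a4⟩ := hA f r gc c V sg ψ i1 i2 A st hd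
  have mN : ∀ v, MeasurableSet (Th c.B c.X.μ (ψ v)) := fun v =>
    cc.facB.le _ (r.meas c.B c.X.μ (ψ v))
  obtain ⟨v, j, hv⟩ := hbun
  have hv1 : c.W.μ (c.UU ψ ∩ c.ΘV ψ v ∩ c.Nt i1 (ψ (v i1))) ≠ 0 := by
    refine fun h0 => hv (measure_mono_null_ae ?_ h0)
    filter_upwards [st.ker v j i1] with w hw hm
    exact ⟨hm.1, (hw hm.1.2).1 hm.2⟩
  obtain ⟨v0, hv0⟩ : ∃ v0, c.W.μ (c.UU ψ ∩ Th (c.L.shp c.B) c.W.μ (c.FF ψ v0) ∩
      c.Nt i1 (ψ (v0 i1))) ≠ 0 := by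
    by_contra h
    exact hv1 (hi _ i1 (GAlgCx.uu_meas c ψ onh) (fun v => by
      by_contra h'
      exact h ⟨v, h'⟩) v)
  refine hAlg c.ν c.U c.X V sg (fun v => Th c.B c.X.μ (ψ v)) (rec1 c A i1) c.ι c.sl i1 i2
    (stp c i1 i2) v0
    { hU := c.hU
      erg := c.erg
      inj := c.inj
      ne := c.ne
      ne12 := h12
      same := hsame
      hn := fun l => rfl
      mN := mN
      mS := fun l a a' => (f.t.mp c.X _).measurable (hd.1 a a' l)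
      n0 := r2
      nsub := r3
      nsh := fun v => by
        filter_upwards [r4 1 v] with x hx
        rwa [one_zsmul, f.t.one] at hx
      sub := a1
      triv := a2
      ker := a3
      tot := hT f r gc c V sg ψ i1 i2 A st hd
      sh := a4
      flat := hB f r gc c V sg ψ i1 i2 A st hd
      rel := fun hN => hv0 ?_
      dec := r5 }
  have m1 : ∀ l, MeasurableSet (Th c.B c.X.μ (ψ (∑ k, (rho (c.sl k) l • sg) (v0 k)))) :=
    fun l => mN _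
  have m2 : ∀ l, MeasurableSet (c.X.Tz (rho (c.sl i1) l) ⁻¹' Th c.B c.X.μ (ψ (v0 i1))) :=
    fun l => (f.t.mp c.X _).measurable (mN _)
  have m3 : ∀ l, MeasurableSet (A 0 0 l ∩ Th c.B c.X.μ (ψ (∑ k, (rho (c.sl k) l • sg) (v0 k)))) :=
    fun l => (hd.1 0 0 l).inter (m1 l)
  have hl := f.lc.hs_lim c.L _ fun l => (m3 l).inter (m2 l).compl
  rw [f.lc.hs_inter c.L _ _ m3 fun l => (m2 l).compl, f.lc.hs_inter c.L _ _ (hd.1 0 0) m1,
    f.lc.hs_compl c.L _ m2] at hl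
  have e : ∀ l, c.X.μ.real {x | c.X.Tz (rho (c.sl i1) l) x ∈ rec1 c A i1 l 0 0 ∧
      x ∈ Th c.B c.X.μ (ψ (∑ k, (rho (c.sl k) l • sg) (v0 k))) ∧
      x ∉ Th c.B c.X.μ (ψ ((rho (c.sl i1) l • sg) (v0 i1)))} =
      c.X.μ.real (A 0 0 l ∩ Th c.B c.X.μ (ψ (∑ k, (rho (c.sl k) l • sg) (v0 k))) ∩
        (c.X.Tz (rho (c.sl i1) l) ⁻¹' Th c.B c.X.μ (ψ (v0 i1)))ᶜ) := fun l => by
    refine measureReal_congr ?_
    filter_upwards [r4 (rho (c.sl i1) l) (v0 i1)] with x hx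
    refine propext ?_
    change (c.X.Tz (-rho (c.sl i1) l) (c.X.Tz (rho (c.sl i1) l) x) ∈ A 0 0 l ∧ _ ∧ ¬ _) ↔
      (x ∈ A 0 0 l ∧ _) ∧ ¬ c.X.Tz (rho (c.sl i1) l) x ∈ Th c.B c.X.μ (ψ (v0 i1))
    rw [← f.t.add, neg_add_cancel, f.t.zero, ← hx, and_assoc]
  have hN' : Tendsto (fun M => c.ν.av2 M fun l => c.X.μ.real (A 0 0 l ∩
      Th c.B c.X.μ (ψ (∑ k, (rho (c.sl k) l • sg) (v0 k))) ∩
        (c.X.Tz (rho (c.sl i1) l) ⁻¹' Th c.B c.X.μ (ψ (v0 i1)))ᶜ)) c.U (𝓝 0) := by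
    simp only [← e]
    exact hN
  have h0 := (measureReal_eq_zero_iff (measure_ne_top _ _)).1 (tendsto_nhds_unique hl hN')
  refine measure_mono_null_ae ?_ h0
  filter_upwards [st.zero, hA2 0 0, r1 v0, f.lc.hs_slot c.L (c.sl i1) _ (mN (v0 i1))]
    with w e1 e2 e3 e4 hw
  exact ⟨⟨e2.mp (e1.mpr hw.1.1), e3.mp hw.1.2⟩, fun h => hw.2 (e4.mp h)⟩

end T3x

end
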