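import Pool.Agent.MP_154433_an.t3.SpecG

/-! The bundle of groups over the extension. -/

set_option autoImplicit false
set_option linter.unusedVariables false
set_option warn.classDefReducibility false

open MeasureTheory ProbabilityTheory Filter Topology Function Finset ComplexConjugate
open scoped BigOperators
open Fib27 (BM sup pr Oc Orow F23 LInd Mem)
open Pool.Agent.MP_154433_an.SG (Uni ufn)

noncomputable section

namespace T3x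

namespace GBun

/-- the context over the extension -/
abbrev ctx1 (c : Ctx) (H : c.Hat) (L2 : Ln c.ν c.U H.L1.W) (Bc : c.ι → L2.W.X → H.L1.W.X)
    (lift : ∀ j, IsLift L2 H.L1 (H.L1.π (c.sl j)) (Bc j)) : Ctx :=
  { ν := c.ν, U := c.U, hU := c.hU, erg := c.erg, ι := c.ι, sl := c.sl, inj := c.inj, ne := c.ne
    three := c.three, ind := c.ind, X := H.X1, B := H.B1, nice := H.adm.nice, kc := H.adm.kc
    L := H.L1, L2 := L2, Bc := Bc, lift := lift }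

variable {c : Ctx} {V : Type}

def FF (H : c.Hat) (ψ : V → H.X1.X → ℂ) (v : c.ι → V) : H.L1.W.X → ℂ :=
  fun w => ∏ k, ψ (v k) (H.π k w)

def TT (H : c.Hat) (ψ : V → H.X1.X → ℂ) (v : c.ι → V) : Set H.L1.W.X :=
  Th (H.L1.B2 H.B1) H.L1.W.μ (FF H ψ v)

lemma ufn_bm {X : Sys} (g : Uni X.X) : BM X.μ X.ms (ufn g) :=
  ⟨(show Measurable (ufn g) from g.2).aestronglyMeasurable, 1,
    Eventually.of_forall fun x => (Circle.norm_coe (g.1 x)).le⟩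

/-- functions on `X` seen from the line over the extension in two ways -/
lemma sq_fun (hf : Fd) (hx : CtxC c) {H : c.Hat} (ht : HtC H) (k : c.ι) {f : c.X.X → ℂ}
    (h : AEStronglyMeasurable f c.X.μ) :
    ∀ᵐ w ∂H.L1.W.μ, f (c.π k (H.Lp w)) = f (H.p (H.π k w)) :=
  hf.a.keq_fun c.X.ms H.L1.W.μ c.X.μ (c.π k ∘ H.Lp) (H.p ∘ H.π k) f
    ((hx.embπ k).mp.comp ht.embL.mp) (ht.embp.mp.comp (ht.embπ k).mp) (ht.sq k) h

/-- a tuple downstairs gives a tuple upstairs where the functions agree -/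
lemma tup (hf : Fd) (hr : Rc) (hx : CtxC c) {H : c.Hat} (ht : HtC H) (ψ : V → H.X1.X → ℂ)
    (hβ : H.L1.B2 H.B1 ≤ H.L1.W.ms)
    (pre : ∀ k (A : Set H.X1.X), MeasurableSet[H.B1] A → MeasurableSet[H.L1.B2 H.B1] (H.π k ⁻¹' A))
    (g : c.ι → Uni c.X.X) (hg : Um c.W.ms c.W.μ (pr (c.up g) univ)) (v : c.ι → V)
    (hv : Um H.L1.W.ms H.L1.W.μ (FF H ψ v)) (A : c.ι → Set H.X1.X)
    (hA : ∀ i, MeasurableSet[H.B1] (A i)) (hon : ∀ i x, x ∈ A i → ψ (v i) x = ufn (g i) (H.p x)) :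
    ∀ᵐ w ∂H.L1.W.μ, H.Lp w ∈ c.Θ (c.up g) → (∀ i, H.π i w ∈ A i) → w ∈ TT H ψ v := by
  have b1 : BM c.W.μ c.B2 (c.W.μ[pr (c.up g) univ | c.B2]) := (BM.of_uni hg.1 hg.2).ce _
  have b2 := (hf.a.bm_comp c.B2 H.L1.W.μ c.W.μ H.Lp _ ht.embL.mp b1).mono ht.b2
  have m1 : MeasurableSet[H.L1.B2 H.B1] (H.Lp ⁻¹' c.Θ (c.up g)) :=
    (le_sup_left.trans ht.b2 :) _ ⟨_, hr.meas c.B2 c.W.μ _, rfl⟩
  have m2 : MeasurableSet[H.L1.B2 H.B1] (⋂ i, H.π i ⁻¹' A i) :=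
    MeasurableSet.iInter fun i => pre i _ (hA i)
  have k1 := ht.embL.mp.quasiMeasurePreserving.ae (hr.eq c.B2 c.W.μ _ hx.kc2.1.le hg)
  have k2 : ∀ᵐ w ∂H.L1.W.μ, ∀ i, ufn (g i) (c.π i (H.Lp w)) = ufn (g i) (H.p (H.π i w)) :=
    ae_all_iff.2 fun i => sq_fun hf hx ht i (ufn_bm (g i)).1
  have key := hr.of (H.L1.B2 H.B1) H.L1.W.μ (FF H ψ v) _ _ hβ hv b2 (m1.inter m2) (by
    filter_upwards [k1, k2] with w h1 h2 hw
    rw [← h1 hw.1]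
    exact Finset.prod_congr rfl fun i _ => (hon i _ (Set.mem_iInter.1 hw.2 i)).trans (h2 i).symm)
  filter_upwards [key] with w hw h1 h2
  exact hw ⟨h1, Set.mem_iInter.2 h2⟩

/-- nontriviality passes to the extension -/
lemma nt (hf : Fd) (hr : Rc) (hx : CtxC c) {H : c.Hat} (ht : HtC H) (φ : H.X1.X → ℂ)
    (hφ : BM H.X1.μ H.X1.ms φ) (g : Uni c.X.X) (A : Set H.X1.X) (hA : MeasurableSet[H.B1] A)
    (hon : ∀ x, x ∈ A → φ x = ufn g (H.p x)) (j : c.ι) :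
    ∀ᵐ w ∂H.L1.W.μ, H.π j w ∈ A → H.Lp w ∈ c.Nt j (ufn g) →
      ‖(H.X1.μ[φ | H.B1]) (H.π j w)‖ ≠ 1 := by
  have b1 : BM H.X1.μ H.X1.ms fun x => ufn g (H.p x) :=
    (hf.a.bm_comp c.X.ms H.X1.μ c.X.μ H.p _ ht.embp.mp (ufn_bm g)).mono
      (hf.a.pull_le c.X.ms H.X1.μ c.X.μ H.p ht.embp.mp le_rfl)
  have k1 := hr.loc H.B1 H.X1.μ φ _ (fun _ => 1) A ht.fac1.le hφ b1 (BM.const 1) hA
    (Eventually.of_forall fun x hx => by rw [one_mul, hon x hx])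
  have k2 := ht.ce _ (ufn_bm g)
  have k3 := sq_fun hf hx ht j (f := c.X.μ[ufn g | c.B])
    (stronglyMeasurable_condExp.mono hx.facB.le).aestronglyMeasurable
  filter_upwards [(ht.embπ j).mp.quasiMeasurePreserving.ae k1,
    (ht.embπ j).mp.quasiMeasurePreserving.ae k2, k3] with w h1 h2 h3 hw hn
  rw [h1 hw, one_mul, h2, ← h3]
  exact hn

lemma mem_zv {𝒱 : Subgroup (Uni c.X.X)} {q : c.ι} {g : Uni c.X.X} {w : c.W.X} :
    w ∈ c.ZV 𝒱 q g ↔ ∃ g' : c.ι → Uni c.X.X, (∀ k, g' k ∈ 𝒱) ∧ g' q = g ∧ w ∈ c.Θ (c.up g') := by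
  simp only [Ctx.ZV, Set.mem_iUnion, Set.mem_ofPred_eq, exists_prop, and_assoc]

/-- a subgroup that contains the generators is everything -/
lemma all_of_gen {κ ι : Type} (q : ι) (P : (ι → κ →₀ ℤ) → Prop) (h0 : P 0)
    (hs : ∀ v v', P v → P v' → P (v - v'))
    (hg : ∀ h : κ, ∃ v, v q = Finsupp.single h 1 ∧ P v) (x : κ →₀ ℤ) : ∃ v, v q = x ∧ P v := by
  let S : AddSubgroup (κ →₀ ℤ) := AddSubgroup.ofSub {x | ∃ v, v q = x ∧ P v} ⟨0, 0, rfl, h0⟩ (by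
    rintro _ ⟨v, rfl, h1⟩ _ ⟨v', rfl, h2⟩
    exact ⟨v - v', by simp [sub_eq_add_neg], hs v v' h1 h2⟩)
  have key : x ∈ S := by
    induction x using Finsupp.induction_linear with
    | zero => exact S.zero_mem
    | add a b ha hb => exact S.add_mem ha hb
    | single a n =>
      have e : Finsupp.single a n = n • Finsupp.single a (1 : ℤ) := by simp
      rw [e]
      exact S.zsmul_mem (hg a) n
  exact key

end GBun

open GBun in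
theorem xBunB : BunB := by
  intro gc zc hf hr _ hps _ c H 𝒱 s g j k hgi hex hty hg hpos
  have hx := gc.ctx c
  have hz := zc.zv c 𝒱 s hex
  have ht := zc.ht c H
  have hcnt : Countable 𝒱 := hex.cnt
  obtain ⟨L2⟩ := hf.line c.ν c.U H.L1.W H.L1.nice
  choose Bc lift using fun i : c.ι => hf.la.ex L2 H.L1 (H.L1.π (c.sl i)) (H.L1.emb _)
  obtain ⟨HH, sg, ψ, hHH, mHH, hψ, hon, hoff⟩ := hps hf hr c H 𝒱 s (g k) hgi hex (hg k)
  refine ⟨ctx1 c H L2 Bc lift, 𝒱 →₀ ℤ, inferInstance, inferInstance, sg, ψ, hψ, ?_⟩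
  have hx1 := gc.ctx (ctx1 c H L2 Bc lift)
  have hff := gc.ff (ctx1 c H L2 Bc lift) (𝒱 →₀ ℤ) sg ψ hψ
  have hβ : H.L1.B2 H.B1 ≤ H.L1.W.ms := hx1.kc2.1.le
  have pre : ∀ i (A : Set H.X1.X), MeasurableSet[H.B1] A →
      MeasurableSet[H.L1.B2 H.B1] (H.π i ⁻¹' A) := fun i A hA => hx1.le2 _ (hx1.pre i A hA)
  have um : ∀ v, Um H.L1.W.ms H.L1.W.μ (FF H ψ v) := hff.um
  have t0 : ∀ᵐ w ∂H.L1.W.μ, w ∈ TT H ψ 0 := hff.t0
  have tsub : ∀ᵐ w ∂H.L1.W.μ, ∀ v v', w ∈ TT H ψ v → w ∈ TT H ψ v' → w ∈ TT H ψ (v - v') :=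
    hff.tsub
  have sing : ∀ i a, FF H ψ (Pi.single i a) =ᵐ[H.L1.W.μ] fun w => ψ a (H.π i w) := hff.single
  have fA : ∀ᵐ w ∂H.L1.W.μ, ∀ i a, H.τ 𝒱 (g k) (H.p2 (H.π i w)) a ↔
      H.τ 𝒱 (g k) (H.p2 (H.π j w)) a :=
    ae_all_iff.2 fun i => ae_all_iff.2 fun a => eventuallyEq_set.1
      (ht.frz i j _ ((H.rp.emb a).mp.measurable (hx.kc2.1.le _ (hz.meas a.2 (g k)))))
  have fB : ∀ᵐ w ∂H.L1.W.μ, ∀ (g' : c.ι → 𝒱) (i i' : c.ι), H.Lp w ∈ c.Θ (c.up fun n => (g' n).1) →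
      H.τ 𝒱 (g' i).1 (H.p1 (H.π i w)) = H.τ 𝒱 (g' i').1 (H.p1 (H.π i' w)) :=
    ae_all_iff.2 fun g' => ae_all_iff.2 fun i => ae_all_iff.2 fun i' =>
      hty.ta (fun n => (g' n).1) i i' fun n => (g' n).2
  have fC : ∀ᵐ w ∂H.L1.W.μ, ∀ (q : c.ι) (h : 𝒱),
      (∀ i, H.τ 𝒱 (g q) (H.p1 (H.π q w)) (i, q) → H.τ 𝒱 h.1 (H.p1 (H.π q w)) (i, q)) →
        H.Lp w ∈ c.ZV 𝒱 q (g q) → H.Lp w ∈ c.ZV 𝒱 q h.1 :=
    ae_all_iff.2 fun q => ae_all_iff.2 fun h => hty.tb q h.1 h.2 (g q) (hg q)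
  have fD := hty.tc j (g j) (hg j)
  have fT : ∀ᵐ w ∂H.L1.W.μ, ∀ g' : c.ι → 𝒱, H.Lp w ∈ c.Θ (c.up fun n => (g' n).1) →
      (∀ i, H.π i w ∈ HH (g' i)) → w ∈ TT H ψ fun i => Finsupp.single (g' i) 1 :=
    ae_all_iff.2 fun g' => tup hf hr hx ht ψ hβ pre _ (hz.umP _) _ (um _) (fun i => HH (g' i))
      (fun i => mHH _) fun i x h => hon _ x h
  have fO : ∀ᵐ w ∂H.L1.W.μ, ∀ (q : c.ι) (h : 𝒱), H.π q w ∉ HH h →
      w ∈ TT H ψ (Pi.single q (Finsupp.single h 1)) :=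
    ae_all_iff.2 fun q => ae_all_iff.2 fun h =>
      hr.of (H.L1.B2 H.B1) H.L1.W.μ (FF H ψ _) (fun _ => 1) (H.π q ⁻¹' (HH h)ᶜ) hβ (um _)
        (BM.const 1) (pre q _ (mHH h).compl)
        ((sing q _).mono fun w hw hq => hw.trans (hoff h _ hq))
  have fN := nt hf hr hx ht (ψ (Finsupp.single ⟨g j, hg j⟩ 1))
    (BM.of_uni (hψ.um _).1 (hψ.um _).2) (g j) (HH ⟨g j, hg j⟩) (mHH _) (fun x h => hon _ x h) j
  refine ⟨fun i => Finsupp.single ⟨g i, hg i⟩ 1, j, fun h0 => hpos (measure_mono_null_ae ?_ h0)⟩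
  filter_upwards [t0, tsub, fA, fB, fC, fD, fT, fO, fN] with w t0 tsub fA fB fC fD fT fO fN hw
  obtain ⟨⟨w1, w2⟩, w3⟩ := hw
  have zq : ∀ q, H.Lp w ∈ c.ZV 𝒱 q (g q) := fun q => mem_zv.2 ⟨g, hg, rfl, w1⟩
  have e1 : ∀ i, H.τ 𝒱 (g i) (H.p1 (H.π i w)) = H.τ 𝒱 (g k) (H.p2 (H.π j w)) :=
    fun i => (fB (fun n => ⟨g n, hg n⟩) i j w1).trans w3
  obtain ⟨i0, hi0⟩ := fD (zq j)
  rw [w3] at hi0
  have mem : ∀ i (h : 𝒱), H.π i w ∈ HH h ↔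
      ∀ a, H.τ 𝒱 (g k) (H.p2 (H.π j w)) a → H.τ 𝒱 h.1 (H.p1 (H.π i w)) a := by
    intro i h
    rw [hHH]
    simp only [fA i]
    exact and_iff_right ⟨_, hi0⟩
  have m1 : ∀ i, H.π i w ∈ HH ⟨g i, hg i⟩ := fun i => (mem i _).2 fun a ha => by
    rw [← e1 i] at ha
    exact ha
  refine ⟨⟨?_, fT (fun n => ⟨g n, hg n⟩) w1 m1⟩, fN (m1 j) w2⟩
  refine Set.mem_iInter.2 fun q => Set.mem_iInter.2 fun x => ?_
  obtain ⟨v, hv1, hv2⟩ := all_of_gen q (fun v => w ∈ TT H ψ v) t0 tsub (fun h => by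
    by_cases hq : H.π q w ∈ HH h
    · have h1 := (mem q h).1 hq
      obtain ⟨g', hg', e', h2⟩ := mem_zv.1 (fC q h (fun i hi => h1 _ (by rwa [e1 q] at hi)) (zq q))
      have e2 : (⟨g' q, hg' q⟩ : 𝒱) = h := Subtype.ext e'
      refine ⟨fun i => Finsupp.single ⟨g' i, hg' i⟩ 1, by simp only [e2],
        fT (fun n => ⟨g' n, hg' n⟩) h2 fun i => (mem i _).2 fun a ha => ?_⟩
      rw [fB (fun n => ⟨g' n, hg' n⟩) i q h2, e2]
      exact h1 a ha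
    · exact ⟨_, Pi.single_eq_same _ _, fO q h hq⟩) x
  exact Set.mem_biUnion hv1 hv2

end T3x

end
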