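import Pool.Agent.MP_154433_an.t3.SpecG

/-! Row `GFlat`: all rows and one column are tuples, hence all columns. -/

set_option autoImplicit false
set_option linter.unusedVariables false
set_option warn.classDefReducibility false

open MeasureTheory ProbabilityTheory Filter Topology Function Finset ComplexConjugate
open scoped BigOperators
open Fib27 (BM sup pr Oc Orow F23 LInd Mem)
open Pool.Agent.MP_154433_an.SG (Uni ufn)

noncomputable section

namespace T3x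

namespace GFlat

theorem um_comp {Ω Ω' : Type} {m0 : MeasurableSpace Ω} {m0' : MeasurableSpace Ω'} {μ : Measure Ω}
    {μ' : Measure Ω'} {p : Ω → Ω'} (hp : MeasurePreserving p μ μ') {f : Ω' → ℂ}
    (hf : Um m0' μ' f) : Um m0 μ fun x => f (p x) :=
  ⟨hf.1.comp_quasiMeasurePreserving hp.quasiMeasurePreserving, hp.quasiMeasurePreserving.ae hf.2⟩

theorem um_pr {Ω ι : Type} {m m0 : MeasurableSpace Ω} {μ : Measure Ω} {F : ι → Ω → ℂ}
    (S : Finset ι) (hF : ∀ i, Um m μ (F i)) : Um m μ (pr F S) := by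
  refine ⟨(BM.pr fun i _ => BM.of_uni (hF i).1 (hF i).2).1, ?_⟩
  filter_upwards [(Finset.eventually_all S).2 fun i _ => (hF i).2] with x hx
  simp only [pr, norm_prod]
  exact prod_eq_one hx

theorem um_conj {Ω : Type} {m m0 : MeasurableSpace Ω} {μ : Measure Ω} {F : Ω → ℂ}
    (hF : Um m μ F) : Um m μ fun x => conj (F x) :=
  ⟨(BM.of_uni hF.1 hF.2).conj.1, hF.2.mono fun x hx => by simpa using hx⟩

theorem th_pr (rc : Rc) {Ω ι : Type} (β : MeasurableSpace Ω) {m0 : MeasurableSpace Ω}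
    (μ : Measure Ω) [IsProbabilityMeasure μ] (hβ : β ≤ m0) {F : ι → Ω → ℂ}
    (hF : ∀ i, Um m0 μ (F i)) (S : Finset ι) :
    ∀ᵐ x ∂μ, (∀ i ∈ S, x ∈ Th β μ (F i)) → x ∈ Th β μ (pr F S) := by
  classical
  induction S using Finset.induction_on with
  | empty =>
    refine Eventually.of_forall fun x _ => ?_
    have : pr F ∅ = fun _ => (1 : ℂ) := funext fun x => prod_empty
    show ‖(μ[pr F ∅ | β]) x‖ = 1
    rw [this, condExp_const hβ]
    simp
  | insert j S hj ih =>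
    have : pr F (insert j S) = fun x => F j x * pr F S x := funext (Fib27.pr_insert F hj)
    rw [this]
    filter_upwards [ih, rc.mul β μ _ _ hβ (hF j) (um_pr S hF)] with x h1 h2 hx
    exact h2 ⟨hx j (mem_insert_self _ _), h1 fun i hi => hx i (mem_insert_of_mem hi)⟩

end GFlat

open GFlat in
theorem xFlat : FlatR := by
  intro fd rc gc c V _ _ sg ψ gi hψ m j0 j
  rcases eq_or_ne j j0 with rfl | hne
  · exact Eventually.of_forall fun x _ h => h
  have cc := gc.ctx c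
  have ff := gc.ff c V sg ψ hψ
  have hβ : c.β ≤ c.W2.ms := cc.kcβ.1.le
  have bF : ∀ v, BM c.W.μ c.W.ms (c.FF ψ v) := fun v => BM.of_uni (ff.um v).1 (ff.um v).2
  set Φ : c.ι → c.W2.X → ℂ := fun j x => c.FF ψ (fun k => m k j) (c.Bc j x) with hΦ
  set R : c.ι → c.W2.X → ℂ := fun k x => c.FF ψ (m k) (c.A k x) with hR
  have uΦ : ∀ j, Um c.W2.ms c.W2.μ (Φ j) := fun j => um_comp (cc.embB j).mp (ff.um _)
  have uR : ∀ k, Um c.W2.ms c.W2.μ (R k) := fun k => um_comp (cc.embA k).mp (ff.um _)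
  have sw : ∀ k j, (fun x => ψ (m k j) (c.π j (c.A k x))) =ᵐ[c.W2.μ]
      fun x => ψ (m k j) (c.π k (c.Bc j x)) := fun k j =>
    fd.a.keq_fun c.X.ms c.W2.μ c.X.μ (c.π j ∘ c.A k) (c.π k ∘ c.Bc j) (ψ (m k j))
      ((cc.embπ j).mp.comp (cc.embA k).mp) ((cc.embπ k).mp.comp (cc.embB j).mp) (gi.col k j)
      (hψ.um _).1
  have e1 : (fun x => pr R univ x * conj (Φ j0 x)) =ᵐ[c.W2.μ] pr Φ (univ.erase j0) := by
    filter_upwards [ae_all_iff.2 fun k => ae_all_iff.2 (sw k), (uΦ j0).2] with x hx h1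
    have a1 : pr R univ x = pr Φ univ x := by
      simp only [pr, hR, hΦ, Ctx.FF]
      rw [Finset.prod_comm]
      exact prod_congr rfl fun j _ => prod_congr rfl fun k _ => hx k j
    have a2 : Φ j0 x * conj (Φ j0 x) = 1 := by
      rw [Complex.mul_conj, Complex.normSq_eq_norm_sq, h1]; simp
    rw [a1, Fib27.pr_erase Φ (mem_univ j0)]
    linear_combination pr Φ (univ.erase j0) x * a2
  have hq := rc.uniq c.β (fun j => pull c.W2.μ (c.Bc j) c.W.ms) (univ.erase j0) c.W2.μ Φ hβ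
    (fun i => fd.a.pull_le _ _ _ _ (cc.embB i).mp le_rfl)
    (gi.cols _ fun h => notMem_erase j0 univ (h.symm ▸ mem_univ j0))
    (fun k _ => ⟨(fd.a.bm_comp c.W.ms c.W2.μ c.W.μ (c.Bc k) _ (cc.embB k).mp (bF _)).1.mono
      le_sup_left, (uΦ k).2⟩) j (mem_erase.2 ⟨hne, mem_univ j⟩)
  filter_upwards [hq, condExp_congr_ae (m := c.β) e1, th_pr rc c.β c.W2.μ hβ uR univ,
    rc.mul c.β c.W2.μ _ _ hβ (um_pr univ uR) (um_conj (uΦ j0)), rc.cj c.β c.W2.μ _ hβ (uΦ j0),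
    ae_all_iff.2 fun k => gi.rowE k _ (bF (m k)), gi.colE j0 _ (bF fun k => m k j0),
    gi.colE j _ (bF fun k => m k j)] with x a1 a2 a3 a4 a5 a6 a7 a8 h1 h2
  have b1 : x ∈ Th c.β c.W2.μ (pr R univ) := a3 fun k _ => by
    show ‖(c.W2.μ[fun x => c.FF ψ (m k) (c.A k x) | c.β]) x‖ = 1
    rw [a6 k]; exact h1 k
  have b2 : x ∈ Th c.β c.W2.μ (Φ j0) := by
    show ‖(c.W2.μ[fun x => c.FF ψ (fun k => m k j0) (c.Bc j0 x) | c.β]) x‖ = 1
    rw [a7]; exact h2
  have b3 : ‖(c.W2.μ[fun x => pr R univ x * conj (Φ j0 x) | c.β]) x‖ = 1 :=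
    a4 ⟨b1, a5.mpr b2⟩
  rw [a2] at b3
  have b4 : ‖(c.W2.μ[fun x => c.FF ψ (fun k => m k j) (c.Bc j x) | c.β]) x‖ = 1 := a1 b3
  rw [a8] at b4
  exact b4

end T3x

end
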