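import Pool.Agent.MP_154433_an.t3.SpecG

/-! Row GHatA: countably many independent samples of the line over the system. -/

set_option autoImplicit false
set_option linter.unusedVariables false
set_option warn.classDefReducibility false

open MeasureTheory ProbabilityTheory Filter Topology Function Finset ComplexConjugate
open scoped BigOperators
open Fib27 (BM sup pr Oc Orow F23 LInd Mem)
open Pool.Agent.MP_154433_an.SG (Uni ufn)

noncomputable section

namespace T3x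

namespace GHatA

lemma fct (a : BasA) {Y X : Sys} (B : MeasurableSpace X.X) (hB : B ≤ X.ms) {p : Y.X → X.X}
    (hp : Emb Y X p) {f : Y.X → ℂ} (hf : BM Y.μ (pull Y.μ p B) f) :
    ∃ f' : X.X → ℂ, BM X.μ B f' ∧ f =ᵐ[Y.μ] fun x => f' (p x) := by
  obtain ⟨h1, C, hC⟩ := hf
  obtain ⟨f', m, b, e⟩ := a.fact B Y.μ p f (max C 0)
    ((MeasurableSpace.comap_mono hB).trans (@Measurable.comap_le _ _ Y.ms X.ms p
      (@MeasurePreserving.measurable _ _ Y.ms X.ms p _ _ hp.mp))) (le_max_right _ _) h1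
    (hC.mono fun x hx => hx.trans (le_max_left _ _))
  exact ⟨f', ⟨m.stronglyMeasurable.aestronglyMeasurable, _, Eventually.of_forall b⟩, e⟩

lemma pmono {Y X : Sys} {B B' : MeasurableSpace X.X} (h : B ≤ B') (p : Y.X → X.X) :
    pull Y.μ p B ≤ pull Y.μ p B' := sup_le_sup_right (MeasurableSpace.comap_mono h) _

/-- the base of the line and a point are independent over the base of the point -/
lemma cpq (F : Fd) (c : Ctx) (cc : CtxC c) (gi : c.GI) (q : c.ι) :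
    CP c.B2 (pull c.W.μ (c.π q) c.B) (pull c.W.μ (c.π q) c.X.ms) c.W.μ := by
  refine F.c.cp_symm _ _ _ c.W.μ (cc.facP q).le cc.kc2.1.le ((cc.slot q).trans cc.le2)
    (pmono cc.facB.le _) fun f hf => ?_
  obtain ⟨f0, b0, e0⟩ := fct F.a c.X.ms le_rfl (cc.embπ q) hf
  exact (condExp_congr_ae e0).trans ((cc.ce gi q f0 b0).trans
    ((F.a.ce_comp c.B c.W.μ c.X.μ (c.π q) f0 (cc.embπ q).mp cc.facB.le b0.integrable).symm.trans
      (condExp_congr_ae e0).symm))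

end GHatA

open GHatA in
theorem xHatA : HatA := by
  intro F gc c i0 gi
  have cc := gc.ctx c
  obtain ⟨Z, e, rp⟩ := F.rp (ℕ × c.ι) (fun _ => c.W) c.X c.X.ms (fun a => c.π a.2) (0, i0)
    (fun _ => c.L.nice) (F.t.top c.X) (fun a => (cc.embπ a.2).mp)
    (fun a => F.t.emb_z c.W c.X _ 1 (cc.embπ a.2))
  have embq : ∀ a : ℕ × c.ι, Emb Z c.X (c.π a.2 ∘ e a) := fun a =>
    F.t.emb_comp Z c.W c.X _ _ (rp.emb a) (cc.embπ a.2)
  have embp : Emb Z c.X (c.π i0 ∘ e (0, i0)) := embq (0, i0)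
  have fD := F.t.fpull Z c.X _ c.B embp cc.facB
  have fY := F.t.fpull Z c.X _ c.X.ms embp (F.t.top c.X)
  have fE : ∀ a : ℕ × c.ι, Fac Z (pull Z.μ (e a) c.B2) := fun a =>
    F.t.fpull Z c.W _ c.B2 (rp.emb a) cc.kc2.1
  have fC := F.t.fisup Z (ℕ × c.ι) _ _ fD fE
  refine ⟨Z, e, hull Z (pull Z.μ (c.π i0 ∘ e (0, i0)) c.B ⊔ ⨆ a, pull Z.μ (e a) c.B2), rp,
    F.h.adm Z c.X _ c.B _ rp.nice c.nice embp c.kc fC le_sup_left fun f hf => ?_,
    fun a => (le_sup_of_le_right (le_iSup (fun a => pull Z.μ (e a) c.B2) a)).trans (F.h.le Z _)⟩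
  have hf0 := hf.mono fY.le
  have hDY := pmono (Y := Z) cc.facB.le (c.π i0 ∘ e (0, i0))
  have hg := hf.sub ((hf.ce (pull Z.μ (c.π i0 ∘ e (0, i0)) c.B)).mono hDY)
  have hE : (⨆ a, pull Z.μ (e a) c.B2) ≤ Z.ms := iSup_le fun a => (fE a).le
  refine Fib27.ce_eq_of_perp fC.le hf0 ((hf.ce _).mono le_sup_left)
    (Fib27.perp_sup fD.le hE (hg.mono fY.le) fun a b ha hb => ?_)
  have hga := hg.mul (ha.mono hDY)
  have key := Fib27.perp_of_ce hE (hga.mono fY.le) (F.d.iperp (fun a => pull Z.μ (e a) c.B2) Z.μ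
    (fun a => (fE a).le) _ (hga.mono fY.le).integrable fun S φ hφ => ?_) b hb
  · simpa only [mul_assoc] using key
  have h1 : ∀ i : ℕ × c.ι, ∃ φ' : c.W.X → ℂ, i ∈ S →
      BM c.W.μ c.B2 φ' ∧ φ i =ᵐ[Z.μ] fun z => φ' (e i z) := fun i => by
    by_cases hi : i ∈ S
    · obtain ⟨φ', h'⟩ := fct F.a c.B2 cc.kc2.1.le (rp.emb i) (hφ i hi)
      exact ⟨φ', fun _ => h'⟩
    · exact ⟨0, fun h => absurd h hi⟩
  choose φ' hφ' using h1
  have e1 : pr φ S =ᵐ[Z.μ] fun z => ∏ i ∈ S, φ' i (e i z) :=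
    Fib27.pr_congr_ae (ρ' := fun i z => φ' i (e i z)) fun i hi => (hφ' i hi).2
  have b1 : BM Z.μ Z.ms (pr φ S) := BM.pr fun i hi => (hφ i hi).mono (fE i).le
  have e2 := (condExp_congr_ae e1).trans
    (rp.ind S φ' fun i hi => (hφ' i hi).1.mono cc.kc2.1.le)
  have b2 : BM Z.μ (pull Z.μ (c.π i0 ∘ e (0, i0)) c.B)
      (pr (fun i z => (c.W.μ[φ' i | pull c.W.μ (c.π i.2) c.X.ms]) (e i z)) S) := by
    refine BM.pr fun i hi => ?_
    obtain ⟨u, bu, eu⟩ := fct F.a c.B cc.facB.le (cc.embπ i.2)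
      ((hφ' i hi).1.ce (pull c.W.μ (c.π i.2) c.B))
    have e3 := (rp.emb i).mp.quasiMeasurePreserving.ae_eq_comp
      ((cpq F c cc gi i.2 _ (hφ' i hi).1).trans eu)
    have e4 := F.a.keq_fun c.X.ms Z.μ c.X.μ _ _ u (embq i).mp embp.mp (rp.com i)
      (bu.mono cc.facB.le).1
    exact (F.a.bm_comp c.B Z.μ c.X.μ _ u embp.mp bu).congr (e3.trans e4).symm
  rw [← Fib27.int_mul_ce fY.le hga b1]
  have := Fib27.perp_sub_ce fD.le hf0 _ (ha.mul b2)
  rw [← this]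
  refine integral_congr_ae (e2.mono fun z hz => ?_)
  simp only [hz, pr, mul_assoc]

end T3x

end
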