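import Pool.Agent.MP_154433_an.t3.SpecG

/-! Factors of a context and the maps of the extension. -/

set_option autoImplicit false
set_option linter.unusedVariables false
set_option warn.classDefReducibility false

open MeasureTheory ProbabilityTheory Filter Topology Function Finset ComplexConjugate
open scoped BigOperators
open Fib27 (BM sup pr Oc Orow F23 LInd Mem)
open Pool.Agent.MP_154433_an.SG (Uni ufn)

noncomputable section

namespace T3x

namespace GHt

theorem pre_slot (F : Fd) (c : Ctx) (k : c.ι) (A : Set c.X.X) (hA : MeasurableSet[c.B] A) :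
    MeasurableSet[c.L.shp c.B] (c.π k ⁻¹' A) :=
  (le_sup_left.trans (F.lb.slot c.L c.B (c.sl k) c.kc.1) : c.B.comap (c.π k) ≤ c.L.shp c.B) _
    ⟨A, hA, rfl⟩

theorem meas_nt {Ω : Type} (B : MeasurableSpace Ω) {m0 : MeasurableSpace Ω} (μ : Measure Ω)
    (g : Ω → ℂ) : MeasurableSet[B] {x | ‖(μ[g | B]) x‖ ≠ 1} :=
  (stronglyMeasurable_condExp (m := B) (μ := μ) (f := g)).norm.measurable
    (measurableSet_singleton (1 : ℝ)).compl

/-- almost invariant sets have the same preimage in all slots -/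
theorem slot_inv (F : Fd) {ν : Wt} {U : Ultrafilter ℕ} {X : Sys} (L : Ln ν U X) (s s' : Slot)
    (D : Set X.X) (hD : MeasurableSet D) (h : X.T ⁻¹' D =ᵐ[X.μ] D) :
    L.π s ⁻¹' D =ᵐ[L.W.μ] L.π s' ⁻¹' D := by
  have h1 : AEStronglyMeasurable[Inv X] (D.indicator fun _ => (1 : ℂ)) X.μ := by
    refine (F.t.inv_iff X _ (aestronglyMeasurable_const.indicator hD)).2 ?_
    filter_upwards [h] with x hx
    have e : X.T x ∈ D ↔ x ∈ D := Iff.of_eq hx
    by_cases c : x ∈ D
    · rw [Set.indicator_of_mem c, Set.indicator_of_mem (e.2 c)]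
    · rw [Set.indicator_of_notMem c, Set.indicator_of_notMem fun c' => c (e.1 c')]
  filter_upwards [F.a.keq_fun (Inv X) L.W.μ X.μ (L.π s) (L.π s') _ (L.emb s).mp (L.emb s').mp
    (F.lb.inv L s s') h1] with w hw
  change (L.π s w ∈ D) = (L.π s' w ∈ D)
  by_cases a : L.π s w ∈ D <;> by_cases b : L.π s' w ∈ D <;> simp_all

end GHt

open GHt in
theorem xCtx : CtxR := by
  intro F c
  have facS : Fac c.W (c.L.shp c.B) := F.lb.fac c.L c.B c.kc.1
  have kc2 : KC c.W c.B2 := F.h.kc c.W _ c.L.nice facS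
  refine ⟨c.kc.1, facS, kc2, F.h.le _ _, F.h.kc c.W2 _ c.L2.nice (F.lb.fac c.L2 c.B2 kc2.1),
    fun k => c.L.emb _, fun k => c.L2.emb _, fun k => (c.lift k).emb,
    fun k => F.t.fpull _ _ _ _ (c.L.emb _) (F.t.top _), fun k => F.lb.slot c.L c.B _ c.kc.1,
    pre_slot F c, fun k g => pre_slot F c k _ (meas_nt c.B c.X.μ g), ?_, fun gi k f hf => ?_⟩
  · exact Fintype.exists_ne_map_eq_of_card_lt (fun i => (c.sl i).2) (by
      have := c.three
      rw [Fintype.card_bool]
      omega)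
  · have ne : ({k} : Finset c.ι) ≠ univ := fun e => by
      have h1 := congrArg Finset.card e
      have := c.three
      rw [card_singleton, card_univ] at h1
      omega
    have := gi.line {k} ne (fun _ => f) fun _ _ => hf
    simp only [prod_singleton] at this
    exact this

open GHt in
theorem xHt : HtR := by
  intro F S G c H
  have embp : Emb H.X1 c.X H.p := H.adm.emb
  have frzT : KEq H.X1.μ H.Xh.ms (H.p2 ∘ H.X1.T) H.p2 := H.emb2.eqv
  refine ⟨embp, fun a => F.t.emb_comp _ _ _ _ _ H.emb1 (H.rp.emb a), fun a A hA => ?_, H.lift.emb,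
    fun k => H.L1.emb _, fun k => F.la.slot H.L1 c.L _ H.Lp (c.sl k) embp H.lift, H.adm.kc.1,
    (S.ob H.L1 c.L H.B1 c.B H.p H.Lp c.sl H.i0 c.kc.1 H.adm.kc.1 embp H.adm.le H.lift).2,
    fun f hf => ?_, fun j k A hA => ?_, frzT⟩
  · exact H.emb1.mp.quasiMeasurePreserving.preimage_ae_eq (H.rp.com a A hA)
  · exact (H.adm.cp _ (F.a.bm_comp c.X.ms H.X1.μ c.X.μ H.p f embp.mp hf)).trans
      (F.a.ce_comp c.B H.X1.μ c.X.μ H.p f embp.mp c.kc.1.le hf.integrable)
  · exact slot_inv F H.L1 (c.sl j) (c.sl k) (H.p2 ⁻¹' A) (H.emb2.mp.measurable hA) (frzT A hA)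

end T3x

end
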