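import Pool.Agent.MP_154433_an.t3.SpecG

/-! Row GOnhB: the properties ONH and HI pass to the hull. -/

set_option autoImplicit false
set_option linter.unusedVariables false
set_option warn.classDefReducibility false

open MeasureTheory ProbabilityTheory Filter Topology Function Finset ComplexConjugate
open scoped BigOperators
open Fib27 (BM sup pr Oc Orow F23 LInd Mem)
open Pool.Agent.MP_154433_an.SG (Uni ufn)

noncomputable section

namespace T3x

namespace GOnhB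

lemma th_eq (Y : Sys) (C : MeasurableSpace Y.X) (F : Y.X → ℂ) (S : Set Y.X)
    (hF : ∀ᵐ x ∂Y.μ, ‖F x‖ = 1) (h : Y.μ[F | C] =ᵐ[Y.μ] S.indicator F) :
    Th C Y.μ F =ᵐ[Y.μ] S := by
  refine Filter.eventuallyEq_set.2 ?_
  filter_upwards [hF, h] with x h1 h2
  show ‖(Y.μ[F | C]) x‖ = 1 ↔ x ∈ S
  rw [h2]
  by_cases hx : x ∈ S
  · simp [h1, hx]
  · simp [hx]

lemma meas_of_ae (Y : Sys) (D : MeasurableSpace Y.X) (hD : Fac Y D) (A S : Set Y.X)
    (hA : MeasurableSet[Y.ms] A) (hS : MeasurableSet[D] S) (h : A =ᵐ[Y.μ] S) :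
    MeasurableSet[D] A := by
  have hS' : MeasurableSet[Y.ms] S := hD.le _ hS
  obtain ⟨h1, h2⟩ := ae_eq_set.1 h
  have n1 : MeasurableSet[D] (A \ S) :=
    hD.nl _ (MeasurableSpace.measurableSet_generateFrom ⟨@MeasurableSet.diff _ Y.ms _ _ hA hS', h1⟩)
  have n2 : MeasurableSet[D] (S \ A) :=
    hD.nl _ (MeasurableSpace.measurableSet_generateFrom ⟨@MeasurableSet.diff _ Y.ms _ _ hS' hA, h2⟩)
  have e : A = (S \ (S \ A)) ∪ (A \ S) := by
    ext x
    simp only [Set.mem_union, Set.mem_sdiff]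
    tauto
  rw [e]
  exact @MeasurableSet.union _ D _ _ (@MeasurableSet.diff _ D _ _ hS n2) n1

/-- the shift difference of a tuple -/
def dd {ι V : Type} [AddCommGroup V] (sg : AddAut V) (n : ℕ) (v : ι → V) : ι → V :=
  (fun k => ((n : ℤ) • sg) (v k)) - v

lemma core (hK : OnhK) (hC : OnhC) (hA : RelA) (gc : GC) (fd : Fd) (rc : Rc) (c : Ctx) (V : Type)
    [AddCommGroup V] [Countable V] (sg : AddAut V) (ψ : V → c.X.X → ℂ) (hψ : Psi c.X c.B sg ψ)
    (R : (c.ι → V) → Set c.W.X) (hR : ∀ v, MeasurableSet[c.L.shp c.B] (R v))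
    (hdec : ∀ v, Tendsto (fun N : ℕ => (N : ℝ)⁻¹ *
      ∑ n ∈ range N, c.W.μ.real (R v \ R (dd sg n v))) atTop (𝓝 0))
    (h0 : ∀ v, c.W.μ (Th (c.L.shp c.B) c.W.μ (c.FF ψ v) ∩ R v) = 0) :
    ∀ v, ∃ S : Set c.W.X, MeasurableSet[c.L.shp c.B] S ∧ c.ΘV ψ v =ᵐ[c.W.μ] S ∧
      c.W.μ (S ∩ R v) = 0 := by
  have cc := gc.ctx c
  have ff := gc.ff c V sg ψ hψ
  have hd : ∀ (n : ℕ) v, c.FF ψ (dd sg n v) =ᵐ[c.W.μ]
      fun y => c.FF ψ v (c.W.Tz n y) * conj (c.FF ψ v y) := by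
    intro n v
    filter_upwards [ff.sub (fun k => ((n : ℤ) • sg) (v k)) v, ff.shz n v] with y h1 h2
    rw [← h2]
    exact h1
  have hP : PQ c.W (c.L.shp c.B) (c.FF ψ) R (hull c.W (c.L.shp c.B)) := by
    refine fd.h.ind c.W (c.L.shp c.B) (PQ c.W (c.L.shp c.B) (c.FF ψ) R) c.L.nice cc.facS ?_ ?_ ?_
    · intro v
      exact ⟨_, rc.meas _ _ _, (hA fd rc gc c V sg ψ hψ v).2, h0 v⟩
    · intro C h1 h2 h3
      exact hK fd c.W _ C _ (c.FF ψ) R (dd sg) c.L.nice cc.facS h1 h2 ff.um hR hd hdec h3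
    · intro 𝒞 h1 h2 h3
      exact hC fd c.W _ _ (c.FF ψ) R 𝒞 cc.facS ff.um h1 h2 h3
  intro v
  obtain ⟨S, h1, h2, h3⟩ := hP v
  exact ⟨S, h1, th_eq c.W _ _ S (ff.um v).2 h2, h3⟩

end GOnhB

theorem xOnhB : OnhB := by
  intro gc hK hC hD hA fd rc _ c V _ _ sg ψ hψ
  have cc := gc.ctx c
  have ff := gc.ff c V sg ψ hψ
  constructor
  · intro v
    obtain ⟨S, h1, h2, _⟩ := GOnhB.core hK hC hA gc fd rc c V sg ψ hψ (fun _ => ∅)
      (fun _ => @MeasurableSet.empty _ (c.L.shp c.B)) (fun _ => by simp) (fun _ => by simp) v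
    exact GOnhB.meas_of_ae c.W _ cc.facS _ S (cc.kc2.1.le _ (ff.tm v)) h1 h2
  · intro Y j hY h0 v
    have hdec : ∀ v : c.ι → V, Tendsto (fun N : ℕ => (N : ℝ)⁻¹ * ∑ n ∈ range N,
        c.W.μ.real ((Y ∩ c.Nt j (ψ (v j))) \ (Y ∩ c.Nt j (ψ (GOnhB.dd sg n v j))))) atTop (𝓝 0) := by
      intro v
      refine squeeze_zero (fun N => by positivity) (fun N => ?_)
        (hD fd rc gc c.X c.B V sg ψ c.nice c.kc hψ (v j))
      refine mul_le_mul_of_nonneg_left (sum_le_sum fun n _ => ?_) (by positivity)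
      have hm : MeasurableSet[c.X.ms] (Th c.B c.X.μ (ψ (((n : ℤ) • sg) (v j) - v j)) \
          Th c.B c.X.μ (ψ (v j))) :=
        @MeasurableSet.diff _ c.X.ms _ _ (cc.facB.le _ (rc.meas _ _ _))
          (cc.facB.le _ (rc.meas _ _ _))
      rw [← (cc.embπ j).mp.measureReal_preimage hm.nullMeasurableSet]
      refine measureReal_mono fun w hw => ?_
      refine ⟨?_, hw.1.2⟩
      by_contra hn
      exact hw.2 ⟨hw.1.1, hn⟩
    obtain ⟨S, _, h2, h3⟩ := GOnhB.core hK hC hA gc fd rc c V sg ψ hψ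
      (fun v => Y ∩ c.Nt j (ψ (v j)))
      (fun v => @MeasurableSet.inter _ (c.L.shp c.B) _ _ hY (cc.nt j _)) hdec
      (fun v => by rw [← Set.inter_assoc, Set.inter_comm _ Y]; exact h0 v) v
    rw [Set.inter_comm Y, Set.inter_assoc, ← h3]
    exact measure_congr (h2.inter (ae_eq_refl _))

end T3x

end
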