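import Pool.Agent.MP_154433_an.t3.SpecG

/-! The property `PQ` passes to the supremum of a chain. -/

set_option autoImplicit false

open MeasureTheory Filter
open Fib27 (BM)

noncomputable section

namespace T3x

namespace GOnhC

theorem main (hd : BasD) {Ω : Type} (D : MeasurableSpace Ω) (𝒞 : Set (MeasurableSpace Ω))
    {m0 : MeasurableSpace Ω} (μ : Measure Ω) [IsProbabilityMeasure μ] (f : Ω → ℂ) (R : Set Ω)
    (hf : BM μ m0 f) (h1 : 𝒞.Nonempty) (h2 : DirectedOn (· ≤ ·) 𝒞)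
    (h3 : ∀ C ∈ 𝒞, C ≤ m0 ∧ D ≤ C ∧
      ∃ S : Set Ω, MeasurableSet[D] S ∧ μ[f | C] =ᵐ[μ] S.indicator f ∧ μ (S ∩ R) = 0) :
    ∃ S : Set Ω, MeasurableSet[D] S ∧ μ[f | sSup 𝒞] =ᵐ[μ] S.indicator f ∧ μ (S ∩ R) = 0 := by
  obtain ⟨C0, hC0⟩ := id h1
  have hM : sSup 𝒞 ≤ m0 := sSup_le fun C hC => (h3 C hC).1
  have hD : D ≤ sSup 𝒞 := (h3 C0 hC0).2.1.trans (le_sSup hC0)
  obtain ⟨𝒜, a1, a2, a3⟩ := hd.ess μ {S | MeasurableSet[D] S ∧ μ (S ∩ R) = 0 ∧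
    ∃ C ∈ 𝒞, μ[f | C] =ᵐ[μ] S.indicator f} fun A hA => hD.trans hM _ hA.1
  have hS : MeasurableSet[D] (⋃₀ 𝒜) := MeasurableSet.sUnion a2 fun A hA => (a1 hA).1
  refine ⟨_, hS, ?_, ?_⟩
  · have b1 : ∀ᵐ x ∂μ, ∀ A ∈ 𝒜, x ∈ A → (μ[f | sSup 𝒞]) x = f x := by
      refine (ae_ball_iff a2).2 fun A hA => ?_
      obtain ⟨c1, -, C, c2, c3⟩ := a1 hA
      have c4 : BM μ (sSup 𝒞) (A.indicator f) := ((hf.ce C).congr c3).mono (le_sSup c2)
      filter_upwards [c4.ce_self hM, condExp_indicator hf.integrable (hD _ c1)] with x e1 e2 hx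
      rw [e2, Set.indicator_of_mem hx, Set.indicator_of_mem hx] at e1
      exact e1
    have g1 : BM μ m0 ((⋃₀ 𝒜)ᶜ.indicator f) :=
      ((BM.indicator (hD.trans hM _ hS.compl)).mul hf).congr (Eventually.of_forall fun x => by
        by_cases hx : x ∈ (⋃₀ 𝒜)ᶜ <;> simp [hx])
    have g2 : ∀ C ∈ 𝒞, μ[(⋃₀ 𝒜)ᶜ.indicator f | C] =ᵐ[μ] 0 := fun C hC => by
      obtain ⟨-, c1, A, c2, c3, c4⟩ := h3 C hC
      filter_upwards [condExp_indicator hf.integrable (c1 _ hS.compl), c3,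
        a3 A ⟨c2, c4, C, hC, c3⟩] with x e1 e2 e3
      rw [e1]
      by_cases hx : x ∈ (⋃₀ 𝒜)ᶜ
      · rw [Set.indicator_of_mem hx, e2, Set.indicator_of_notMem fun h => hx (e3 h)]
        rfl
      · exact Set.indicator_of_notMem hx _
    have g3 : ∫ x, ‖(μ[(⋃₀ 𝒜)ᶜ.indicator f | sSup 𝒞]) x‖ ^ 2 ∂μ = 0 := by
      refine le_antisymm (le_of_forall_pos_le_add fun ε hε => ?_)
        (integral_nonneg fun _ => sq_nonneg _)
      obtain ⟨C, c1, c2⟩ := hd.chain 𝒞 μ h1 h2 (fun C hC => (h3 C hC).1) _ (g1.memLp 2) ε hε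
      rw [zero_add]
      refine le_of_eq_of_le (integral_congr_ae ?_) (c2 C c1 le_rfl)
      filter_upwards [g2 C c1] with x e
      rw [e, Pi.zero_apply, sub_zero]
    rw [integral_eq_zero_iff_of_nonneg (fun _ => sq_nonneg _)
      ((((g1.ce _).mono hM).memLp 2).integrable_norm_pow two_ne_zero)] at g3
    filter_upwards [b1, g3, condExp_indicator hf.integrable (hD _ hS.compl)] with x e1 e2 e3
    by_cases hx : x ∈ ⋃₀ 𝒜
    · rw [Set.indicator_of_mem hx]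
      obtain ⟨A, c1, c2⟩ := hx
      exact e1 A c1 c2
    · rw [e3, Set.indicator_of_mem (Set.mem_compl hx)] at e2
      rw [Set.indicator_of_notMem hx]
      simpa using e2
  · rw [Set.sUnion_eq_biUnion, Set.iUnion₂_inter]
    exact (measure_biUnion_null_iff a2).2 fun A hA => (a1 hA).2.1

end GOnhC

theorem xOnhC : OnhC := fun h Y D _ F R 𝒞 _ hF h1 h2 h3 a =>
  GOnhC.main h.d D 𝒞 Y.μ (F a) (R a) (BM.of_uni (hF a).1 (hF a).2) h1 h2.directedOn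
    fun C hC => ⟨(h3 C hC).1.le, (h3 C hC).2.1, (h3 C hC).2.2 a⟩

end T3x

end
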