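import Pool.Agent.MP_154433_an.t3.SpecG

/-! The type of a nontrivial tuple meets the frozen type with positive probability. -/

set_option autoImplicit false
set_option linter.unusedVariables false
set_option warn.classDefReducibility false

open MeasureTheory ProbabilityTheory Filter Topology Function Finset ComplexConjugate
open scoped BigOperators
open Fib27 (BM sup pr)
open Pool.Agent.MP_154433_an.SG (Uni ufn)

noncomputable section

namespace T3x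

namespace GPosB

theorem meas_eq {Ω Y κ : Type} [MeasurableSpace Ω] [MeasurableSpace Y] [Countable κ]
    {a1 a2 : Ω → Y} {t t' : Y → κ → Prop} (h1 : Measurable a1) (h2 : Measurable a2)
    (ht : ∀ i, MeasurableSet {y | t y i}) (ht' : ∀ i, MeasurableSet {y | t' y i}) :
    MeasurableSet {x | t (a1 x) = t' (a2 x)} := by
  have e : {x | t (a1 x) = t' (a2 x)} = ⋂ i, {x | t (a1 x) i ↔ t' (a2 x) i} := by
    ext x
    simp only [Set.mem_setOf_eq, Set.mem_iInter, funext_iff, eq_iff_iff]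
  rw [e]
  exact MeasurableSet.iInter fun i => MeasurableSet.iff (h1 (ht i)) (h2 (ht' i))

section

variable {Ω : Type} {m m0 : MeasurableSpace Ω} {μ : Measure Ω} [IsProbabilityMeasure μ]
  {A E : Set Ω}

theorem ind_mul (A E : Set Ω) (x : Ω) :
    A.indicator (fun _ => (1 : ℂ)) x * E.indicator (fun _ => (1 : ℂ)) x =
      (A ∩ E).indicator (fun _ => (1 : ℂ)) x := by
  by_cases h : x ∈ A <;> by_cases h' : x ∈ E <;> simp [h, h']

theorem int_ind (hA : MeasurableSet[m0] A) :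
    ∫ x, A.indicator (fun _ => (1 : ℂ)) x ∂μ = (μ.real A : ℂ) := by
  rw [integral_indicator hA]
  simp

theorem null_of_ce (hm : m ≤ m0) (hA : MeasurableSet[m] A) (hE : MeasurableSet[m0] E)
    (h : ∀ᵐ x ∂μ, x ∈ A → (μ[E.indicator fun _ => (1 : ℂ) | m]) x = 0) : μ (A ∩ E) = 0 := by
  have h1 := Fib27.int_mul_ce (κ := μ) hm (BM.indicator hA) (BM.indicator hE)
  have h2 : ∫ x, A.indicator (fun _ => (1 : ℂ)) x * (μ[E.indicator fun _ => (1 : ℂ) | m]) x ∂μ =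
      0 := by
    refine integral_eq_zero_of_ae ?_
    filter_upwards [h] with x hx
    by_cases hxA : x ∈ A
    · simp [hx hxA]
    · simp [hxA]
  rw [h2] at h1
  simp only [ind_mul] at h1
  rw [int_ind ((hm A hA).inter hE)] at h1
  exact (measureReal_eq_zero_iff (measure_ne_top _ _)).1 (by exact_mod_cast h1.symm)

theorem ce_of_null (hm : m ≤ m0) (hA : MeasurableSet[m] A) (hE : MeasurableSet[m0] E)
    (h : ∀ᵐ x ∂μ, x ∈ A → x ∉ E) :
    ∀ᵐ x ∂μ, x ∈ A → (μ[E.indicator fun _ => (1 : ℂ) | m]) x = 0 := by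
  have h1 := Fib27.ce_mul (κ := μ) hm (BM.indicator hA) (BM.indicator hE)
  have h2 : (fun x => A.indicator (fun _ => (1 : ℂ)) x * E.indicator (fun _ => (1 : ℂ)) x) =ᵐ[μ]
      0 := by
    filter_upwards [h] with x hx
    by_cases hxA : x ∈ A
    · simp [hx hxA]
    · simp [hxA]
  have h3 := condExp_congr_ae (m := m) h2
  rw [condExp_zero] at h3
  filter_upwards [h1, h3] with x a b hx
  rw [a] at b
  simpa [hx] using b

end

end GPosB

open GPosB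

theorem xPosB : PosB := by
  intro F gc zc mx dm c H 𝒱 s g gi exh ty hg t5
  have cx := gc.ctx c
  have zv := zc.zv c 𝒱 s exh
  have ht := zc.ht c H
  obtain ⟨j, k, hjk, hsame⟩ := cx.two
  refine ⟨j, k, fun hnull => ?_⟩
  obtain ⟨j0, hj0⟩ := t5
  apply hj0
  have hGm : MeasurableSet (c.Θ (c.up g) ∩ c.Nt j (ufn (g j))) :=
    (cx.kc2.1.le _ (zv.tm g)).inter (cx.facS.le _ (cx.nt j _))
  suffices h : c.W.μ (c.Θ (c.up g) ∩ c.Nt j (ufn (g j))) = 0 by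
    refine measure_mono_null_ae ?_ h
    filter_upwards [zv.nt gi g j0 j] with w hw h'
    exact ⟨h'.1, (hw h'.1).1 h'.2⟩
  have mt : ∀ (g' : Uni c.X.X) (a : ℕ × c.ι), MeasurableSet {y | H.τ 𝒱 g' y a} := fun g' a =>
    (H.rp.emb a).mp.measurable (cx.kc2.1.le _ (zv.meas a.2 g'))
  have m1 : Measurable H.p1 := H.emb1.mp.measurable
  have m2 : Measurable H.p2 := H.emb2.mp.measurable
  obtain ⟨E, hEd⟩ : ∃ E : Set H.X1.X,
      E = {x | H.τ 𝒱 (g j) (H.p1 x) = H.τ 𝒱 (g k) (H.p2 x)} := ⟨_, rfl⟩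
  have hE : MeasurableSet E := hEd ▸ meas_eq m1 m2 (mt _) (mt _)
  have hEb : BM H.X1.μ H.X1.ms (E.indicator fun _ => (1 : ℂ)) := BM.indicator hE
  have l1 : pull H.X1.μ H.p1 H.Xh.ms ≤ H.X1.ms := F.a.pull_le _ _ _ _ H.emb1.mp le_rfl
  obtain ⟨h1, C, hC⟩ := hEb.ce (pull H.X1.μ H.p1 H.Xh.ms)
  obtain ⟨α, a1, a2, a3⟩ := F.a.fact H.Xh.ms H.X1.μ H.p1 _ (max C 0) m1.comap_le
    (le_max_right _ _) h1 (hC.mono fun x hx => hx.trans (le_max_left _ _))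
  have hαb : BM H.Xh.μ H.Xh.ms α :=
    ⟨a1.stronglyMeasurable.aestronglyMeasurable, _, Eventually.of_forall a2⟩
  have hS : MeasurableSet {y | α y = 0} := a1 (measurableSet_singleton 0)
  have n1 : H.X1.μ {x | H.p1 x ∈ {y | α y = 0} ∧
      H.τ 𝒱 (g j) (H.p1 x) = H.τ 𝒱 (g k) (H.p2 x)} = 0 := by
    have h2 := null_of_ce (μ := H.X1.μ) l1 (A := H.p1 ⁻¹' {y | α y = 0})
      (le_sup_left (α := MeasurableSpace H.X1.X) _ ⟨_, hS, rfl⟩) hE
      (by filter_upwards [a3] with x hx h; rw [hx]; exact h)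
    rw [hEd] at h2
    exact h2
  obtain ⟨Lh⟩ := F.line c.ν c.U H.Xh H.rp.nice
  obtain ⟨Lq, hq⟩ := F.la.ex H.L1 Lh H.p1 H.emb1
  have n2 := dm Lh.W.X H.X1.X H.Xh.X (ℕ × c.ι) Lh.W.μ H.X1.μ (Lh.π (c.sl j)) (Lh.π (c.sl k))
    H.p1 H.p2 |(((c.sl k).1 - (c.sl j).1 : ℤ) : ℝ)| (H.τ 𝒱 (g j)) (H.τ 𝒱 (g k)) {y | α y = 0}
    (Lh.emb _).mp.measurable (Lh.emb _).mp.measurable m1 m2 (mt _) (mt _) hS
    (fun A A' hA hA' => by
      have h2 := mx F c.ν c.U H.Xh Lh (c.sl j) (c.sl k) c.hU c.erg (c.inj.ne hjk) hsame A A' hA hA'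
      rw [← H.ind _ _ (BM.indicator hA) (BM.indicator hA')] at h2
      have e : ∀ x, A.indicator (fun _ => (1 : ℂ)) (H.p1 x) *
          A'.indicator (fun _ => (1 : ℂ)) (H.p2 x) =
          (H.p1 ⁻¹' A ∩ H.p2 ⁻¹' A').indicator (fun _ => (1 : ℂ)) x := fun x =>
        ind_mul (H.p1 ⁻¹' A) (H.p2 ⁻¹' A') x
      simp only [e] at h2
      rw [int_ind ((m1 hA).inter (m2 hA')), Complex.ofReal_re] at h2
      exact h2) n1
  have n3 : ∀ᵐ w ∂H.L1.W.μ, ¬ (α (H.p1 (H.π j w)) = 0 ∧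
      H.τ 𝒱 (g j) (H.p1 (H.π j w)) = H.τ 𝒱 (g k) (H.p1 (H.π k w))) := by
    have k1 := F.la.slot H.L1 Lh H.p1 Lq (c.sl j) H.emb1 hq
    have k2 := F.la.slot H.L1 Lh H.p1 Lq (c.sl k) H.emb1 hq
    filter_upwards [hq.emb.mp.quasiMeasurePreserving.ae (measure_eq_zero_iff_ae_notMem.1 n2),
      k1 _ hS, ae_all_iff.2 fun a => k1 _ (mt (g j) a), ae_all_iff.2 fun a => k2 _ (mt (g k) a)]
      with w b0 b1 b2 b3 h
    refine b0 ⟨b1.mpr h.1, funext fun a => ?_⟩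
    exact (b2 a).trans ((congrFun h.2 a).trans (b3 a).symm)
  have e0 := F.t.emb_comp _ _ _ _ _ (H.rp.emb (0, H.i0)) (cx.embπ H.i0)
  obtain ⟨Lph, hph⟩ := F.la.ex Lh c.L _ e0
  have k3 := F.la.uniq H.L1 c.L _ _ H.Lp (Lph ∘ Lq) ht.embp ht.embp
    (fun _ _ => EventuallyEq.rfl) H.lift (F.la.comp H.L1 Lh c.L _ _ Lq Lph H.emb1 e0 hq hph) _ hGm
  have l2 : pull H.L1.W.μ Lq Lh.W.ms ≤ H.L1.W.ms := F.a.pull_le _ _ _ _ hq.emb.mp le_rfl
  have hcs := F.ld.cs H.L1 Lh H.p1 Lq (c.sl j) H.emb1 hq _ α hEb hαb a3.symm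
  have n4 := ce_of_null (μ := H.L1.W.μ) l2
    (A := (Lph ∘ Lq) ⁻¹' (c.Θ (c.up g) ∩ c.Nt j (ufn (g j)))) (E := H.π j ⁻¹' E)
    (le_sup_left (α := MeasurableSpace H.L1.W.X) _ ⟨_, hph.emb.mp.measurable hGm, rfl⟩)
    ((ht.embπ j).mp.measurable hE) (by
      filter_upwards [k3, measure_eq_zero_iff_ae_notMem.1 hnull] with w b0 b1 h h'
      rw [hEd] at h'
      exact b1 ⟨b0.mpr h, h'⟩)
  rw [← ht.embL.mp.measure_preimage hGm.nullMeasurableSet, measure_eq_zero_iff_ae_notMem]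
  filter_upwards [n3, n4, k3, hcs, ty.ta g j k hg] with w b0 b1 b2 b3 b4 h
  exact b0 ⟨b3.symm.trans (b1 (b2.mp h)), b4 h.1⟩

end T3x

end
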