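import Pool.Agent.MP_154433_an.t3.SpecG

/-! Row GPsiA: the functions `ψ` on the extension. -/

set_option autoImplicit false
set_option linter.unusedVariables false
set_option warn.classDefReducibility false

open MeasureTheory ProbabilityTheory Filter Topology Function Finset ComplexConjugate
open scoped BigOperators
open Fib27 (BM sup pr Oc Orow F23 LInd Mem)
open Pool.Agent.MP_154433_an.SG (Uni ufn)

noncomputable section

namespace T3x

namespace GPsiA

theorem meas_aux {Ω κ : Type} [MeasurableSpace Ω] [Countable κ] {P Q : κ → Set Ω}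
    (hP : ∀ a, MeasurableSet (P a)) (hQ : ∀ a, MeasurableSet (Q a)) :
    MeasurableSet {x | (∃ a, x ∈ P a) ∧ ∀ a, x ∈ P a → x ∈ Q a} := by
  have : {x | (∃ a, x ∈ P a) ∧ ∀ a, x ∈ P a → x ∈ Q a} = (⋃ a, P a) ∩ ⋂ a, ((P a)ᶜ ∪ Q a) := by
    ext x
    simp only [Set.mem_ofPred_eq, Set.mem_inter_iff, Set.mem_iUnion, Set.mem_iInter, Set.mem_union,
      Set.mem_compl_iff, imp_iff_not_or]
  rw [this]
  exact (MeasurableSet.iUnion hP).inter (MeasurableSet.iInter fun a => (hP a).compl.union (hQ a))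

theorem norm_ufn {Ω : Type} {m0 : MeasurableSpace Ω} (g : Uni Ω) (x : Ω) : ‖ufn g x‖ = 1 :=
  Circle.norm_coe _

theorem meas_ufn {Ω : Type} {m0 : MeasurableSpace Ω} (g : Uni Ω) : Measurable (ufn g) := g.2

end GPsiA

open GPsiA in
theorem xPsiA : PsiA := by
  classical
  intro fd gc zc c H 𝒱 s g0 ex
  have cx := gc.ctx c
  have zv := zc.zv c 𝒱 s ex
  have ht := zc.ht c H
  have mZ : ∀ q g, MeasurableSet (c.ZV 𝒱 q g) := fun q g => cx.kc2.1.le _ (zv.meas q g)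
  have mE : ∀ (a : ℕ × c.ι) g, MeasurableSet (H.e a ⁻¹' c.ZV 𝒱 a.2 g) := fun a g =>
    (H.rp.emb a).mp.measurable (mZ _ _)
  have m1 : ∀ g, MeasurableSet[H.B1] (H.HH 𝒱 g0 g) := fun g =>
    @meas_aux _ _ H.B1 _ (fun a => H.p2 ⁻¹' (H.e a ⁻¹' c.ZV 𝒱 a.2 g0))
      (fun a => (H.e a ∘ H.p1) ⁻¹' c.ZV 𝒱 a.2 g.1)
      (fun a => (le_sup_left.trans H.le2 :) _ ⟨_, mE a g0, rfl⟩)
      fun a => (le_sup_left.trans (H.le1 a) :) _ ⟨_, zv.meas a.2 g.1, rfl⟩
  have m2 : ∀ g, MeasurableSet (H.HH 𝒱 g0 g) := fun g => ht.fac1.le _ (m1 g)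
  let u : 𝒱 → H.X1.X → ℂ := fun g x => if x ∈ H.HH 𝒱 g0 g then ufn g.1 (H.p x) else 1
  have hu : ∀ v x, H.psi 𝒱 g0 v x = v.prod fun g n => u g x ^ n := fun v x => rfl
  have un : ∀ g x, ‖u g x‖ = 1 := fun g x => by
    simp only [u]
    split_ifs
    · exact norm_ufn _ _
    · exact norm_one
  have u0 : ∀ g x, u g x ≠ 0 := fun g x h => by
    have := un g x
    rw [h, norm_zero] at this
    exact zero_ne_one this
  have um : ∀ g, Measurable (u g) := fun g =>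
    Measurable.ite (m2 g) ((meas_ufn g.1).comp ht.embp.mp.measurable) measurable_const
  refine ⟨m1, fun v => ⟨?_, Eventually.of_forall fun x => ?_⟩, fun v v' x => ?_, fun v => ?_⟩
  · refine Measurable.aestronglyMeasurable ?_
    have : H.psi 𝒱 g0 v = fun x => ∏ g ∈ v.support, u g x ^ v g := rfl
    rw [this]
    exact Finset.measurable_prod _ fun g _ => (um g).pow_const _
  · rw [hu, Finsupp.prod, norm_prod]
    exact prod_eq_one fun g _ => by rw [norm_zpow, un, one_zpow]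
  · rw [hu, hu, hu]
    exact Finsupp.prod_add_index' (fun g => zpow_zero _) fun g n m => zpow_add₀ (u0 g x) n m
  · have key : ∀ g : 𝒱, ∀ᵐ x ∂H.X1.μ, u (s g) x = u g (H.X1.T x) := by
      intro g
      have a1 : ∀ a : ℕ × c.ι, ∀ᵐ x ∂H.X1.μ,
          H.τ 𝒱 g0 (H.p2 (H.X1.T x)) a ↔ H.τ 𝒱 g0 (H.p2 x) a := fun a =>
        (ht.frzT _ (mE a g0)).mono fun x hx => iff_of_eq hx
      have a2 : ∀ a : ℕ × c.ι, ∀ᵐ x ∂H.X1.μ,
          H.τ 𝒱 g.1 (H.p1 (H.X1.T x)) a ↔ H.τ 𝒱 (s g).1 (H.p1 x) a := fun a => by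
        filter_upwards [(ht.embe a).eqv _ (mZ a.2 g.1),
          (ht.embe a).mp.quasiMeasurePreserving.ae (zv.sh a.2 g)] with x h1 h2
        exact (iff_of_eq h1).trans (iff_of_eq h2).symm
      have a3 := fd.a.keq_fun c.X.ms H.X1.μ c.X.μ (H.p ∘ H.X1.T) (c.X.T ∘ H.p) (ufn g.1)
        (ht.embp.mp.comp H.X1.mp) (c.X.mp.comp ht.embp.mp) ht.embp.eqv
        (meas_ufn g.1).aestronglyMeasurable
      filter_upwards [ae_all_iff.2 a1, ae_all_iff.2 a2, a3] with x h1 h2 h3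
      have h4 : x ∈ H.HH 𝒱 g0 (s g) ↔ H.X1.T x ∈ H.HH 𝒱 g0 g := by
        simp only [Ctx.Hat.HH, Set.mem_ofPred_eq, h1, h2]
      simp only [u, h4]
      rw [ex.sh g (H.p x)]
      exact if_congr Iff.rfl h3.symm rfl
    filter_upwards [(Finset.eventually_all v.support).2 fun g _ => key g] with x hx
    rw [hu, hu, Finsupp.domCongr_apply, Finsupp.prod_equivMapDomain]
    exact prod_congr rfl fun g hg => congrArg (· ^ v g) (hx g hg)

end T3x

end
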