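import Pool.Agent.MP_154433_an.t3.SpecG

/-! Row GPsiB: the functions `psi` are constant or of mean zero on the fibres. -/

set_option autoImplicit false
set_option linter.unusedVariables false

open MeasureTheory ProbabilityTheory Filter Topology Function Finset ComplexConjugate
open scoped BigOperators
open Fib27 (BM)
open Pool.Agent.MP_154433_an.SG (Uni ufn)

noncomputable section

namespace T3x

namespace GPsiB

theorem bm_ufn {X : Sys} (g : Uni X.X) : BM X.μ X.ms (ufn g) :=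
  BM.of_uni (Measurable.aestronglyMeasurable g.2)
    (Eventually.of_forall fun x => Circle.norm_coe _)

/-- the value of a product of powers -/
theorem ufn_prod {Ω : Type} [MeasurableSpace Ω] {𝒱 : Subgroup (Uni Ω)} (P : Finset 𝒱)
    (n : 𝒱 → ℤ) (y : Ω) : ufn (∏ g ∈ P, g ^ n g).1 y = ∏ g ∈ P, ufn g.1 y ^ n g := by
  classical
  induction P using Finset.induction_on with
  | empty => simp [ufn]
  | insert g P hg ih =>
    rw [Finset.prod_insert hg, Finset.prod_insert hg, ← ih]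
    simp [ufn]

/-- products of powers of elements with partners are constant or of mean zero -/
theorem line {c : Ctx} {𝒱 : Subgroup (Uni c.X.X)} {s : 𝒱 ≃* 𝒱} [Countable 𝒱] (Z : ZvC c 𝒱 s)
    (hG : c.GI) (q : c.ι) : ∀ᵐ w ∂c.W.μ, ∀ (P : Finset 𝒱) (n : 𝒱 → ℤ),
      (∀ g ∈ P, w ∈ c.ZV 𝒱 q g.1) →
      ‖(c.X.μ[ufn (∏ g ∈ P, g ^ n g).1 | c.B]) (c.π q w)‖ = 0 ∨
        ‖(c.X.μ[ufn (∏ g ∈ P, g ^ n g).1 | c.B]) (c.π q w)‖ = 1 := by
  filter_upwards [Z.one q, ae_all_iff.2 fun g : 𝒱 => ae_all_iff.2 fun g' : 𝒱 => Z.mul q g.1 g'.1,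
    ae_all_iff.2 fun g : 𝒱 => Z.inv q g.1, ae_all_iff.2 fun g : 𝒱 => Z.onn hG q g.1]
    with w h1 h2 h3 h4 P n hP
  let K : Subgroup 𝒱 :=
    { carrier := {g | w ∈ c.ZV 𝒱 q g.1}
      mul_mem' := fun {g g'} hg hg' => h2 g g' hg hg'
      one_mem' := h1
      inv_mem' := fun {g} hg => h3 g hg }
  exact h4 _ (K.prod_mem fun g hg => K.zpow_mem (hP g hg) _)

end GPsiB

open GPsiB in
theorem xPsiB : PsiB := by
  classical
  intro F R G Z A c H 𝒱 s g0 hG hE v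
  have : Countable 𝒱 := hE.cnt
  obtain ⟨hm, hu, -, -⟩ := A F G Z c H 𝒱 s g0 hE
  have C := Z.ht c H
  have hB : H.B1 ≤ H.X1.ms := C.fac1.le
  have e1 : ∀ a : ℕ × c.ι, ∀ᵐ x ∂H.X1.μ, ∀ (P : Finset 𝒱) (n : 𝒱 → ℤ),
      (∀ g ∈ P, H.τ 𝒱 g.1 (H.p1 x) a) →
      ‖(c.X.μ[ufn (∏ g ∈ P, g ^ n g).1 | c.B]) (c.π a.2 (H.e a (H.p1 x)))‖ = 0 ∨
        ‖(c.X.μ[ufn (∏ g ∈ P, g ^ n g).1 | c.B]) (c.π a.2 (H.e a (H.p1 x)))‖ = 1 := fun a =>
    (C.embe a).mp.quasiMeasurePreserving.ae (line (Z.zv c 𝒱 s hE) hG a.2)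
  have e2 : ∀ (a : ℕ × c.ι) (γ : 𝒱), ∀ᵐ x ∂H.X1.μ,
      (c.X.μ[ufn γ.1 | c.B]) (c.π a.2 (H.e a (H.p1 x))) = (c.X.μ[ufn γ.1 | c.B]) (H.p x) :=
    fun a γ => F.a.keq_fun c.X.ms H.X1.μ c.X.μ (c.π a.2 ∘ H.e a ∘ H.p1) H.p _
      (((G.ctx c).embπ a.2).mp.comp (C.embe a).mp) C.embp.mp (C.com a)
      (((bm_ufn γ.1).ce c.B).mono (G.ctx c).facB.le).1
  have e3 : ∀ P : Finset 𝒱, ∀ᵐ x ∂H.X1.μ, v.support.filter (fun g => x ∈ H.HH 𝒱 g0 g) = P →
      (H.X1.μ[H.psi 𝒱 g0 v | H.B1]) x =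
        (c.X.μ[ufn (∏ g ∈ P, g ^ v g).1 | c.B]) (H.p x) := fun P => by
    have hP : MeasurableSet[H.B1] {x | v.support.filter (fun g => x ∈ H.HH 𝒱 g0 g) = P} := by
      have : {x | v.support.filter (fun g => x ∈ H.HH 𝒱 g0 g) = P} =
          ⋂ g : 𝒱, {x | (g ∈ v.support ∧ x ∈ H.HH 𝒱 g0 g) ↔ g ∈ P} := by
        ext x
        simp only [Set.mem_ofPred_eq, Set.mem_iInter, Finset.ext_iff, Finset.mem_filter]
      rw [this]
      refine MeasurableSet.iInter fun g => ?_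
      by_cases h1 : g ∈ v.support <;> by_cases h2 : g ∈ P
      · simpa only [h1, h2, true_and, iff_true, Set.ofPred_mem_eq] using hm g
      · simp only [h1, h2, true_and, iff_false]
        exact (hm g).compl
      · simp only [h1, h2, false_and, false_iff, not_true, Set.ofPred_false]
        exact @MeasurableSet.empty _ H.B1
      · simp only [h1, h2, false_and, Set.ofPred_true]
        exact @MeasurableSet.univ _ H.B1
    have hb := bm_ufn (X := c.X) (∏ g ∈ P, g ^ v g).1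
    have hb' : BM H.X1.μ H.X1.ms fun x => ufn (∏ g ∈ P, g ^ v g).1 (H.p x) :=
      (F.a.bm_comp c.X.ms _ _ H.p _ C.embp.mp hb).mono (F.a.pull_le _ _ _ _ C.embp.mp le_rfl)
    have := R.loc H.B1 H.X1.μ _ _ (fun _ => 1) _ hB (BM.of_uni (hu v).1 (hu v).2) hb'
      (BM.const 1) hP (Eventually.of_forall fun x hx => by
        have hx' : v.support.filter (fun g => x ∈ H.HH 𝒱 g0 g) = P := hx
        rw [one_mul, ufn_prod, ← hx', Finset.prod_filter]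
        refine Finset.prod_congr rfl fun g _ => ?_
        by_cases h : x ∈ H.HH 𝒱 g0 g <;> simp [h])
    filter_upwards [this, C.ce _ hb] with x h1 h2 hx
    rw [h1 hx, one_mul, h2]
  filter_upwards [ae_all_iff.2 e1, ae_all_iff.2 fun a => ae_all_iff.2 (e2 a), ae_all_iff.2 e3]
    with x h1 h2 h3
  have ex : ∃ a : ℕ × c.ι, ∀ g ∈ v.support.filter (fun g => x ∈ H.HH 𝒱 g0 g),
      H.τ 𝒱 g.1 (H.p1 x) a := by
    by_cases h : ∃ a, H.τ 𝒱 g0 (H.p2 x) a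
    · obtain ⟨a, ha⟩ := h
      exact ⟨a, fun g hg => (Finset.mem_filter.1 hg).2.2 a ha⟩
    · exact ⟨(0, H.i0), fun g hg => absurd (Finset.mem_filter.1 hg).2.1 h⟩
  obtain ⟨a, ha⟩ := ex
  rw [h3 _ rfl, ← h2 a]
  exact h1 a _ _ ha

end T3x

end
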