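import Pool.Agent.MP_154433_an.t3.SpecG

/-! Decay of the approximate relations (row GRelC). -/

set_option autoImplicit false
set_option linter.unusedVariables false
set_option warn.classDefReducibility false

open MeasureTheory ProbabilityTheory Filter Topology Function Finset ComplexConjugate
open scoped BigOperators
open Fib27 (BM sup pr)

noncomputable section

namespace T3x

namespace GRelC

theorem mae {Ω Ω' : Type} {m0 : MeasurableSpace Ω} {m0' : MeasurableSpace Ω'}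
    {μ : Measure Ω} {μ' : Measure Ω'} {p : Ω → Ω'} (h : MeasurePreserving p μ μ') {P : Ω' → Prop}
    (hP : ∀ᵐ x ∂μ', P x) : ∀ᵐ x ∂μ, P (p x) := h.quasiMeasurePreserving.ae hP

theorem mint {Ω Ω' : Type} {m0 : MeasurableSpace Ω} {m0' : MeasurableSpace Ω'}
    {μ : Measure Ω} {μ' : Measure Ω'} {p : Ω → Ω'} (h : MeasurePreserving p μ μ') {g : Ω' → ℂ}
    (hg : BM μ' m0' g) : ∫ x, ‖g (p x)‖ ∂μ = ∫ y, ‖g y‖ ∂μ' := by
  have m1 : AEStronglyMeasurable (fun y => ‖g y‖) (μ.map p) := by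
    rw [h.map_eq]
    exact hg.1.norm
  have m2 := integral_map h.measurable.aemeasurable m1
  rw [h.map_eq] at m2
  exact m2.symm

theorem mmeas {Ω Ω' : Type} {m0 : MeasurableSpace Ω} {m0' : MeasurableSpace Ω'}
    {μ : Measure Ω} {μ' : Measure Ω'} {p : Ω → Ω'} (h : MeasurePreserving p μ μ') {g : Ω' → ℂ}
    (hg : Measurable g) : Measurable fun x => g (p x) := hg.comp h.measurable

theorem real_le {Ω : Type} {m0 : MeasurableSpace Ω} (μ : Measure Ω) [IsProbabilityMeasure μ]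
    (A : Set Ω) (hA : MeasurableSet A) (g : Ω → ℂ) (hg : BM μ m0 g)
    (h : ∀ᵐ x ∂μ, x ∈ A → ‖g x‖ = 1) : μ.real A ≤ ∫ x, ‖g x‖ ∂μ := by
  rw [← integral_indicator_one hA]
  refine integral_mono_ae ((integrable_const (1 : ℝ)).indicator hA) hg.integrable.norm ?_
  filter_upwards [h] with x hx
  by_cases hxA : x ∈ A
  · rw [Set.indicator_of_mem hxA, hx hxA]; rfl
  · rw [Set.indicator_of_notMem hxA]; exact norm_nonneg _

variable {X : Sys} {B : MeasurableSpace X.X} {V : Type} [AddCommGroup V] {sg : AddAut V}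
  {ψ : V → X.X → ℂ}

/-- the part of `ψ a` off the trivial set -/
def off (B : MeasurableSpace X.X) (ψ : V → X.X → ℂ) (a : V) : X.X → ℂ :=
  (Th B X.μ (ψ a))ᶜ.indicator (ψ a)

omit [AddCommGroup V] in
theorem off_eq (a : V) : off B ψ a =
    fun x => (Th B X.μ (ψ a))ᶜ.indicator (fun _ => (1 : ℂ)) x * ψ a x := by
  funext x
  unfold off
  by_cases h : x ∈ (Th B X.μ (ψ a))ᶜ
  · rw [Set.indicator_of_mem h, Set.indicator_of_mem h, one_mul]
  · rw [Set.indicator_of_notMem h, Set.indicator_of_notMem h, zero_mul]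

omit [AddCommGroup V] in
theorem ind_bm (R : Rc) (a : V) :
    BM X.μ B ((Th B X.μ (ψ a))ᶜ.indicator fun _ => (1 : ℂ)) :=
  Fib27.BM.indicator (R.meas B X.μ (ψ a)).compl

theorem off_bm (R : Rc) (hB : Fac X B) (P : PsC X B sg ψ) (a : V) : BM X.μ X.ms (off B ψ a) := by
  rw [off_eq]
  exact ((ind_bm R a).mono hB.le).mul (P.bm a)

theorem off_sh (P : PsC X B sg ψ) (n : ℤ) (a : V) :
    (fun y => off B ψ a (X.Tz n y)) =ᵐ[X.μ] off B ψ ((n • sg) a) := by
  filter_upwards [P.shz n a, P.nsh n a] with y h1 h2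
  unfold off
  by_cases h : y ∈ Th B X.μ (ψ ((n • sg) a))
  · rw [Set.indicator_of_notMem (show X.Tz n y ∉ (Th B X.μ (ψ a))ᶜ from fun h' => h' (h2.1 h)),
      Set.indicator_of_notMem (show y ∉ (Th B X.μ (ψ ((n • sg) a)))ᶜ from fun h' => h' h)]
  · rw [Set.indicator_of_mem (show X.Tz n y ∈ (Th B X.μ (ψ a))ᶜ from fun h' => h (h2.2 h')),
      Set.indicator_of_mem (show y ∈ (Th B X.μ (ψ ((n • sg) a)))ᶜ from h), h1]

theorem one (R : Rc) (hB : Fac X B) (P : PsC X B sg ψ) (b a' : V) :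
    X.μ.real (Th B X.μ (ψ (b - a')) \ Th B X.μ (ψ a')) ≤
      ∫ x, ‖(X.μ[fun y => off B ψ b y * conj (ψ a' y) | B]) x‖ ∂X.μ := by
  have b1 := (off_bm R hB P b).mul (P.bm a').conj
  refine real_le X.μ _ (hB.le _ ((R.meas B X.μ _).diff (R.meas B X.μ _))) _
    ((b1.ce B).mono hB.le) ?_
  have e1 : (fun y => off B ψ b y * conj (ψ a' y)) =ᵐ[X.μ]
      fun y => (Th B X.μ (ψ b))ᶜ.indicator (fun _ => (1 : ℂ)) y * ψ (b - a') y := by
    filter_upwards [P.sub b a'] with y hy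
    rw [off_eq, hy, mul_assoc]
  filter_upwards [condExp_congr_ae (m := B) e1, Fib27.ce_mul hB.le (ind_bm R b) (P.bm (b - a')),
    P.nsub b (b - a')] with x h1 h2 h3 hx
  have hb : x ∈ (Th B X.μ (ψ b))ᶜ := fun h => hx.2 (by
    have := h3 h hx.1
    rwa [sub_sub_cancel] at this)
  rw [h1, h2, Set.indicator_of_mem hb, one_mul]
  exact hx.1

theorem two (R : Rc) (hB : Fac X B) (P : PsC X B sg ψ) (n : ℤ) (a a' : V) :
    X.μ.real (Th B X.μ (ψ ((n • sg) a - a')) \ Th B X.μ (ψ a')) ≤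
      ∫ x, ‖(X.μ[fun y => off B ψ a (X.Tz n y) * conj (ψ a' y) | B]) x‖ ∂X.μ := by
  refine (one R hB P _ a').trans (le_of_eq (integral_congr_ae ?_))
  have e1 : (fun y => off B ψ a (X.Tz n y) * conj (ψ a' y)) =ᵐ[X.μ]
      fun y => off B ψ ((n • sg) a) y * conj (ψ a' y) := by
    filter_upwards [off_sh P n a] with y hy
    rw [hy]
  filter_upwards [condExp_congr_ae (m := B) e1] with x hx
  rw [hx]

theorem av2_mono (ν : Wt) (M : ℕ) {φ φ' : Lab → ℝ} (h : ∀ l, φ l ≤ φ' l) :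
    ν.av2 M φ ≤ ν.av2 M φ' :=
  sum_le_sum fun d _ => smul_le_smul_of_nonneg_left
    (sum_le_sum fun d' _ => smul_le_smul_of_nonneg_left (h _) (ν.nn M d')) (ν.nn M d)

theorem av2_nonneg (ν : Wt) (M : ℕ) {φ : Lab → ℝ} (h : ∀ l, 0 ≤ φ l) : 0 ≤ ν.av2 M φ :=
  sum_nonneg fun d _ => smul_nonneg (ν.nn M d)
    (sum_nonneg fun d' _ => smul_nonneg (ν.nn M d') (h _))

theorem av2_re (ν : Wt) (M : ℕ) (φ : Lab → ℝ) :
    (ν.av2 M fun l => (φ l : ℂ)).re = ν.av2 M φ := by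
  simp [Wt.av2, Wt.av]

theorem rep (F : Fd) (X : Sys) {f : X.X → ℂ} (hf : BM X.μ X.ms f) :
    ∃ g ∈ Bdd X.X, f =ᵐ[X.μ] g := by
  obtain ⟨m, C, hb⟩ := hf
  obtain ⟨g, g1, g2, g3⟩ := F.a.rep X.ms X.μ f (max C 0) (le_max_right _ _) m
    (hb.mono fun x hx => hx.trans (le_max_left _ _))
  exact ⟨g, ⟨g1, _, g2⟩, g3⟩

theorem bdd_bm (X : Sys) {g : X.X → ℂ} (hg : g ∈ Bdd X.X) : BM X.μ X.ms g := by
  obtain ⟨g1, C, g2⟩ := hg
  exact ⟨g1.aestronglyMeasurable, C, Eventually.of_forall g2⟩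

theorem fam (F : Fd) (X : Sys) {g : X.X → ℂ} (hg : g ∈ Bdd X.X) (r : Lab → ℤ) :
    (fun z : Lab × X.X => g (X.Tz (r z.1) z.2)) ∈ FamS X.ms := by
  obtain ⟨g1, C, g2⟩ := hg
  exact ⟨fun l => mmeas (F.t.mp X (r l)) g1, C, fun z => g2 _⟩

theorem fam_mul {Ω : Type} {m : MeasurableSpace Ω} {G H : Lab × Ω → ℂ} (hG : G ∈ FamS m)
    (hH : H ∈ FamS m) : (fun z => G z * H z) ∈ FamS m := by
  obtain ⟨g1, C, g2⟩ := hG
  obtain ⟨h1, D, h2⟩ := hH
  refine ⟨fun l => (g1 l).mul (h1 l), C * D, fun z => ?_⟩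
  rw [norm_mul]
  exact mul_le_mul (g2 z) (h2 z) (norm_nonneg _) ((norm_nonneg _).trans (g2 z))

theorem fam_nrm {Ω : Type} {m : MeasurableSpace Ω} {G : Lab × Ω → ℂ} (hG : G ∈ FamS m) :
    (fun z => (‖G z‖ : ℂ)) ∈ FamS m := by
  obtain ⟨g1, C, g2⟩ := hG
  refine ⟨fun l => Complex.measurable_ofReal.comp (g1 l).norm, C, fun z => ?_⟩
  rw [Complex.norm_real, norm_norm]
  exact g2 z

/-- decay of the conditional correlations along two independent labels -/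
theorem decay (F : Fd) (c : Ctx) (f g : c.X.X → ℂ) (hf : f ∈ Bdd c.X.X) (hg : g ∈ Bdd c.X.X)
    (h0 : c.X.μ[f | c.B] =ᵐ[c.X.μ] 0) :
    Tendsto (fun M => c.ν.av2 M fun l => ∫ x,
      ‖(c.X.μ[fun y => f (c.X.Tz (l.2.1 - l.2.2) y) * g y | c.B]) x‖ ∂c.X.μ) c.U (𝓝 0) := by
  have hB := c.kc.1
  have i1 := c.ind c.X c.B c.L Bool (fun b => ((1 : ℤ), b)) univ c.nice c.kc
    (fun b _ b' _ h => (Prod.ext_iff.1 h).2) (fun b _ => one_ne_zero)
    (by have := c.three; simp only [Finset.card_univ, Fintype.card_bool]; omega)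
    (fun b => cond b f g) (fun b _ => by cases b; exacts [bdd_bm _ hg, bdd_bm _ hf])
  simp only [Fintype.prod_bool, cond_true, cond_false] at i1
  have F1 := fam F c.X hf (rho (1, true))
  have F2 := fam F c.X hg (rho (1, false))
  have F3 := fam_mul F1 F2
  obtain ⟨G, hG, hG'⟩ := F.lb.cex c.X c.B hB _ F3
  have hG2 : G ∈ FamS c.X.ms := ⟨fun l => (hG.1 l).mono hB.le le_rfl, hG.2⟩
  have e1 := F.lb.ce c.L c.B hB _ F3 G hG hG'
  have e2 : (fun w => f (c.L.π (1, true) w) * g (c.L.π (1, false) w)) =ᵐ[c.L.W.μ]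
      c.L.hat fun z => f (c.X.Tz (rho (1, true) z.1) z.2) * g (c.X.Tz (rho (1, false) z.1) z.2) := by
    filter_upwards [c.L.slot (1, true) f hf, c.L.slot (1, false) g hg] with w h1 h2
    rw [h1, h2]
    exact ((c.L.ch w).mul _ F1 _ F2).symm
  have e3 : ∀ᵐ w ∂c.L.W.μ, c.L.hat G w = 0 := by
    filter_upwards [e1, condExp_congr_ae (m := c.L.shp c.B) e2, i1,
      mae (c.L.emb (1, true)).mp h0] with w h1 h2 h3 h4
    rw [← h1, ← h2, h3, h4]
    simp
  have e4 : ∫ w, c.L.hat (fun z => (‖G z‖ : ℂ)) w ∂c.L.W.μ = 0 := by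
    refine integral_eq_zero_of_ae ?_
    filter_upwards [e3] with w hw
    rw [F.lb.nrm c.L G hG2 w, hw]
    simp
  have l1 := c.L.lim _ (fam_nrm hG2)
  rw [e4] at l1
  have l2 := (Complex.continuous_re.tendsto 0).comp l1
  simp only [Complex.zero_re] at l2
  refine l2.congr fun M => ?_
  rw [← av2_re, Function.comp_apply]
  congr 2
  funext l
  rw [integral_complex_ofReal]
  congr 1
  have b1 : BM c.X.μ c.X.ms fun y => f (c.X.Tz (l.2.1 - l.2.2) y) * g y :=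
    (F.t.bm c.X c.X.ms _ f (F.t.top c.X) (bdd_bm _ hf)).mul (bdd_bm _ hg)
  rw [← mint (F.t.mp c.X l.2.2) ((b1.ce c.B).mono hB.le)]
  refine integral_congr_ae ?_
  filter_upwards [hG' l, F.t.ce c.X c.B l.2.2 _ hB b1.integrable] with x h1 h2
  rw [h1, ← h2]
  simp only [rho, one_mul, if_true, Bool.false_eq_true, if_false, ← F.t.add, sub_add_cancel]

end GRelC

open GRelC

theorem xDec : DecS := by
  intro F R G X B V _ sg ψ hX hB hψ a
  have P := G.ps X B V sg ψ hB.1 hψ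
  have e : KK X B = B := le_antisymm hB.2 (F.kb.le X B hX hB.1)
  have b := off_bm R hB.1 P a
  have w : WM X B (off B ψ a) := (F.kb.wm X B hX hB.1 _ (b.memLp 2)).2 (by rw [e]; exact P.off a)
  refine squeeze_zero (fun N => ?_) (fun N => ?_) (w.2 _ (P.bm a).conj)
  · exact mul_nonneg (inv_nonneg.2 (Nat.cast_nonneg N)) (sum_nonneg fun n _ => measureReal_nonneg)
  · exact mul_le_mul_of_nonneg_left (sum_le_sum fun n _ => two R hB.1 P n a a)
      (inv_nonneg.2 (Nat.cast_nonneg N))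

theorem xRelC : RelC := by
  intro F R G c V _ _ sg ψ hψ a a'
  have hB := c.kc.1
  have P := G.ps c.X c.B V sg ψ hB hψ
  obtain ⟨f, f1, f2⟩ := rep F c.X (off_bm R hB P a)
  obtain ⟨g, g1, g2⟩ := rep F c.X (P.bm a').conj
  refine squeeze_zero (fun M => av2_nonneg _ _ fun l => measureReal_nonneg)
    (fun M => av2_mono _ _ fun l => ?_)
    (decay F c f g f1 g1 ((condExp_congr_ae f2).symm.trans (P.off a)))
  refine (two R hB P _ a a').trans (le_of_eq (integral_congr_ae ?_))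
  have e1 : (fun y => off c.B ψ a (c.X.Tz (l.2.1 - l.2.2) y) * conj (ψ a' y)) =ᵐ[c.X.μ]
      fun y => f (c.X.Tz (l.2.1 - l.2.2) y) * g y := by
    filter_upwards [mae (F.t.mp c.X (l.2.1 - l.2.2)) f2, g2] with y h1 h2
    rw [h1, h2]
  filter_upwards [condExp_congr_ae (m := c.B) e1] with x hx
  rw [hx]

end T3x

end
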