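import Pool.Agent.MP_154433_an.t3.SpecG

/-! Calculus for partners: the sets `ZV`. -/

set_option autoImplicit false
set_option linter.unusedVariables false
set_option warn.classDefReducibility false

open MeasureTheory ProbabilityTheory Filter Topology Function Finset ComplexConjugate
open scoped BigOperators
open Fib27 (BM sup pr Oc Orow F23 LInd Mem)
open Pool.Agent.MP_154433_an.SG (Uni ufn)

noncomputable section

namespace T3x

namespace GZv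

theorem ufn_meas {Ω : Type} {m0 : MeasurableSpace Ω} (φ : Uni Ω) : Measurable (ufn φ) := φ.2

theorem ufn_norm {Ω : Type} {m0 : MeasurableSpace Ω} (φ : Uni Ω) (x : Ω) : ‖ufn φ x‖ = 1 :=
  Circle.norm_coe _

theorem ufn_mul {Ω : Type} {m0 : MeasurableSpace Ω} (φ ψ : Uni Ω) (x : Ω) :
    ufn (φ * ψ) x = ufn φ x * ufn ψ x := Circle.coe_mul _ _

theorem ufn_one {Ω : Type} {m0 : MeasurableSpace Ω} (x : Ω) : ufn (1 : Uni Ω) x = 1 := rfl

theorem ufn_inv {Ω : Type} {m0 : MeasurableSpace Ω} (φ : Uni Ω) (x : Ω) :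
    ufn φ⁻¹ x = conj (ufn φ x) := Circle.coe_inv_eq_conj _

theorem ufn_bm (X : Sys) (φ : Uni X.X) : BM X.μ X.ms (ufn φ) :=
  ⟨(ufn_meas φ).aestronglyMeasurable, 1, Eventually.of_forall fun x => (ufn_norm φ x).le⟩

variable {c : Ctx}

theorem um (g : c.ι → Uni c.X.X) (k : c.ι) : Um (c.P k ⊔ c.B2) c.W.μ (c.up g k) := by
  refine ⟨?_, Eventually.of_forall fun w => ufn_norm _ _⟩
  have h1 : Measurable[c.X.ms.comap (c.π k)] (c.up g k) :=
    (ufn_meas (g k)).comp (comap_measurable (c.π k))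
  have h2 : c.X.ms.comap (c.π k) ≤ c.P k ⊔ c.B2 := le_sup_of_le_left le_sup_left
  exact (h1.mono h2 le_rfl).stronglyMeasurable.aestronglyMeasurable

theorem pr_meas (hC : CtxC c) (g : c.ι → Uni c.X.X) : Measurable (pr (c.up g) univ) :=
  Finset.measurable_prod _ fun k _ => (ufn_meas (g k)).comp (hC.embπ k).mp.measurable

theorem pr_norm (g : c.ι → Uni c.X.X) (w : c.W.X) : ‖pr (c.up g) univ w‖ = 1 := by
  show ‖∏ k, ufn (g k) (c.π k w)‖ = 1
  rw [norm_prod]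
  exact prod_eq_one fun k _ => ufn_norm _ _

theorem umP (hC : CtxC c) (g : c.ι → Uni c.X.X) : Um c.W.ms c.W.μ (pr (c.up g) univ) :=
  ⟨(pr_meas hC g).aestronglyMeasurable, Eventually.of_forall (pr_norm g)⟩

theorem pr_int (hC : CtxC c) (g : c.ι → Uni c.X.X) : Integrable (pr (c.up g) univ) c.W.μ :=
  Integrable.of_bound (pr_meas hC g).aestronglyMeasurable 1
    (Eventually.of_forall fun w => (pr_norm g w).le)

theorem pr_mul (g g' : c.ι → Uni c.X.X) :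
    pr (c.up (g * g')) univ = fun w => pr (c.up g) univ w * pr (c.up g') univ w := by
  funext w
  show ∏ k, ufn (g k * g' k) (c.π k w) = (∏ k, ufn (g k) (c.π k w)) * ∏ k, ufn (g' k) (c.π k w)
  rw [← prod_mul_distrib]
  exact prod_congr rfl fun k _ => ufn_mul _ _ _

theorem pr_inv (g : c.ι → Uni c.X.X) :
    pr (c.up g⁻¹) univ = fun w => conj (pr (c.up g) univ w) := by
  funext w
  show ∏ k, ufn (g k)⁻¹ (c.π k w) = conj (∏ k, ufn (g k) (c.π k w))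
  rw [map_prod]
  exact prod_congr rfl fun k _ => ufn_inv _ _

theorem pr_one : pr (c.up 1) univ = fun _ => (1 : ℂ) := by
  funext w
  show ∏ k, ufn (1 : Uni c.X.X) (c.π k w) = 1
  exact prod_eq_one fun k _ => ufn_one _

/-- the tuple of values -/
def vl {𝒱 : Subgroup (Uni c.X.X)} (h : c.ι → 𝒱) : c.ι → Uni c.X.X := fun k => (h k).1

theorem mem_ZV {𝒱 : Subgroup (Uni c.X.X)} {q : c.ι} {g : Uni c.X.X} {w : c.W.X} :
    w ∈ c.ZV 𝒱 q g ↔ ∃ h : c.ι → 𝒱, (h q).1 = g ∧ w ∈ c.Θ (c.up (vl h)) := by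
  unfold Ctx.ZV
  simp only [Set.mem_iUnion, Set.mem_setOf_eq, exists_prop]
  constructor
  · rintro ⟨g', ⟨h1, h2⟩, h3⟩
    exact ⟨fun k => ⟨g' k, h1 k⟩, h2, h3⟩
  · rintro ⟨h, h1, h2⟩
    exact ⟨vl h, ⟨fun k => (h k).2, h1⟩, h2⟩

theorem cnt {𝒱 : Subgroup (Uni c.X.X)} (h : Countable 𝒱) :
    {g' : c.ι → Uni c.X.X | ∀ k, g' k ∈ 𝒱}.Countable := by
  refine (Set.countable_range (vl (c := c) (𝒱 := 𝒱))).mono fun g' hg => ?_
  exact ⟨fun k => ⟨g' k, hg k⟩, rfl⟩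

/-- the shift of a tuple -/
theorem th_sh (hF : Fd) (hC : CtxC c) (g g' : c.ι → Uni c.X.X)
    (h : ∀ k x, ufn (g' k) x = ufn (g k) (c.X.T x)) :
    ∀ᵐ w ∂c.W.μ, w ∈ c.Θ (c.up g') ↔ c.W.T w ∈ c.Θ (c.up g) := by
  have h1 : ∀ k, (fun w => ufn (g k) ((c.π k ∘ c.W.T) w)) =ᵐ[c.W.μ]
      fun w => ufn (g k) ((c.X.T ∘ c.π k) w) := fun k =>
    hF.a.keq_fun c.X.ms c.W.μ c.X.μ _ _ _ ((hC.embπ k).mp.comp c.W.mp)
      (c.X.mp.comp (hC.embπ k).mp) (hC.embπ k).eqv (ufn_meas (g k)).aestronglyMeasurable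
  have h2 : pr (c.up g') univ =ᵐ[c.W.μ] fun w => pr (c.up g) univ (c.W.Tz 1 w) := by
    filter_upwards [ae_all_iff.2 h1] with w hw
    rw [hF.t.one]
    show ∏ k, ufn (g' k) (c.π k w) = ∏ k, ufn (g k) (c.π k (c.W.T w))
    exact prod_congr rfl fun k _ => (h k _).trans (hw k).symm
  have h3 := hF.t.ce c.W c.B2 1 (pr (c.up g) univ) hC.kc2.1 (pr_int hC g)
  filter_upwards [(condExp_congr_ae (m := c.B2) h2).trans h3] with w hw
  show ‖(c.W.μ[pr (c.up g') univ | c.B2]) w‖ = 1 ↔ ‖(c.W.μ[pr (c.up g) univ | c.B2]) (c.W.T w)‖ = 1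
  rw [hw, hF.t.one]

/-- one entry with nonzero mean makes all entries determined -/
theorem cm (hR : Rc) (hC : CtxC c) (hI : c.GI) (g : c.ι → Uni c.X.X) :
    ∀ᵐ w ∂c.W.μ, w ∈ c.Θ (c.up g) → ∀ q, (c.X.μ[ufn (g q) | c.B]) (c.π q w) ≠ 0 →
      ∀ k, ‖(c.X.μ[ufn (g k) | c.B]) (c.π k w)‖ = 1 := by
  have h1 := hR.cm c.B2 c.P c.W.μ (c.up g) hC.kc2.1.le (fun k => (hC.facP k).le) c.three hI.cline
    (um g)
  have h2 : ∀ k, c.W.μ[c.up g k | c.B2] =ᵐ[c.W.μ]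
      fun w => (c.X.μ[ufn (g k) | c.B]) (c.π k w) := fun k => hC.ce hI k _ (ufn_bm _ (g k))
  filter_upwards [ae_all_iff.2 h1, ae_all_iff.2 h2] with w a1 a2 hw q hq k
  have := a1 q hw (by rw [a2 q]; exact hq) k
  rw [← a2 k]
  exact this

end GZv

open GZv in
theorem xZv : ZvR := by
  intro hF hR hG c 𝒱 s hE
  have hC := hG.ctx c
  haveI := hE.cnt
  have hle : c.B2 ≤ c.W.ms := hC.kc2.1.le
  refine ⟨um, umP hC, cnt hE.cnt, fun g => hR.meas _ _ _, fun q g => ?_, fun q g => ?_,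
    fun q => ?_, fun q g g' => ?_, fun q g => ?_, fun hI q g => ?_, fun hI g j k => ?_⟩
  · exact MeasurableSet.biUnion ((cnt hE.cnt).mono fun g' hg => hg.1) fun g' _ => hR.meas _ _ _
  · have h1 : ∀ h : c.ι → 𝒱, ∀ᵐ w ∂c.W.μ,
        w ∈ c.Θ (c.up (vl fun k => s (h k))) ↔ c.W.T w ∈ c.Θ (c.up (vl h)) := fun h =>
      th_sh hF hC _ _ fun k x => hE.sh (h k) x
    filter_upwards [ae_all_iff.2 h1] with w hw
    refine propext ?_
    show w ∈ c.ZV 𝒱 q (s g).1 ↔ c.W.T w ∈ c.ZV 𝒱 q g.1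
    rw [mem_ZV, mem_ZV]
    constructor
    · rintro ⟨h, e, hh⟩
      refine ⟨fun k => s.symm (h k), ?_, (hw _).1 ?_⟩
      · show (s.symm (h q)).1 = g.1
        rw [Subtype.ext e, MulEquiv.symm_apply_apply]
      · simpa only [MulEquiv.apply_symm_apply] using hh
    · rintro ⟨h, e, hh⟩
      refine ⟨fun k => s (h k), ?_, (hw _).2 hh⟩
      show (s (h q)).1 = (s g).1
      rw [Subtype.ext e]
  · have h1 : (Set.univ : Set c.W.X) ≤ᵐ[c.W.μ] Th c.B2 c.W.μ (pr (c.up 1) univ) :=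
      hR.of c.B2 c.W.μ _ (fun _ => 1) Set.univ hle (umP hC 1)
        ⟨aestronglyMeasurable_const, 1, Eventually.of_forall fun _ => by simp⟩ MeasurableSet.univ
        (Eventually.of_forall fun w _ => by rw [pr_one])
    filter_upwards [h1] with w hw
    exact mem_ZV.2 ⟨1, rfl, hw trivial⟩
  · have h1 : ∀ h h' : c.ι → 𝒱, ∀ᵐ w ∂c.W.μ, w ∈ c.Θ (c.up (vl h)) → w ∈ c.Θ (c.up (vl h')) →
        w ∈ c.Θ (c.up (vl (h * h'))) := fun h h' => by
      filter_upwards [hR.mul c.B2 c.W.μ _ _ hle (umP hC (vl h)) (umP hC (vl h'))] with w hw a b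
      have := hw ⟨a, b⟩
      rw [← pr_mul] at this
      exact this
    filter_upwards [ae_all_iff.2 fun h => ae_all_iff.2 (h1 h)] with w hw a b
    obtain ⟨h, e, a⟩ := mem_ZV.1 a
    obtain ⟨h', e', b⟩ := mem_ZV.1 b
    exact mem_ZV.2 ⟨h * h', by rw [← e, ← e']; rfl, hw h h' a b⟩
  · have h1 : ∀ h : c.ι → 𝒱, ∀ᵐ w ∂c.W.μ, w ∈ c.Θ (c.up (vl h)) →
        w ∈ c.Θ (c.up (vl h⁻¹)) := fun h => by
      filter_upwards [hR.cj c.B2 c.W.μ _ hle (umP hC (vl h))] with w hw a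
      rw [← pr_inv] at hw
      exact hw.mpr a
    filter_upwards [ae_all_iff.2 h1] with w hw a
    obtain ⟨h, e, a⟩ := mem_ZV.1 a
    exact mem_ZV.2 ⟨h⁻¹, by rw [← e]; rfl, hw h a⟩
  · filter_upwards [ae_all_iff.2 fun h : c.ι → 𝒱 => cm hR hC hI (vl h)] with w hw a
    obtain ⟨h, e, a'⟩ := mem_ZV.1 a
    rw [← e]
    by_cases h0 : (c.X.μ[ufn (h q).1 | c.B]) (c.π q w) = 0
    · exact Or.inl (norm_eq_zero.2 h0)
    · exact Or.inr (hw h a' q h0 q)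
  · filter_upwards [cm hR hC hI g] with w hw a
    have key : ∀ j k, w ∉ c.Nt j (ufn (g j)) → w ∉ c.Nt k (ufn (g k)) := fun j k hj hk => by
      have h1 : ‖(c.X.μ[ufn (g j) | c.B]) (c.π j w)‖ = 1 := not_not.1 hj
      refine hk (hw a j (fun h0 => ?_) k)
      rw [h0, norm_zero] at h1
      exact zero_ne_one h1
    exact not_iff_not.1 ⟨key j k, key k j⟩

end T3x

end
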