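import Pool.Agent.MP_154433_an.t3.Sec4A
import Pool.Agent.MP_154433_an.t3.GAlgA
import Pool.Agent.MP_154433_an.t3.GAlgB
import Pool.Agent.MP_154433_an.t3.GAlgC
import Pool.Agent.MP_154433_an.t3.GBun
import Pool.Agent.MP_154433_an.t3.GExh
import Pool.Agent.MP_154433_an.t3.GFf
import Pool.Agent.MP_154433_an.t3.GFlat
import Pool.Agent.MP_154433_an.t3.GHatA
import Pool.Agent.MP_154433_an.t3.GHatB
import Pool.Agent.MP_154433_an.t3.GHt
import Pool.Agent.MP_154433_an.t3.GMix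
import Pool.Agent.MP_154433_an.t3.GOnhB
import Pool.Agent.MP_154433_an.t3.GOnhC
import Pool.Agent.MP_154433_an.t3.GOnhK
import Pool.Agent.MP_154433_an.t3.GPosB
import Pool.Agent.MP_154433_an.t3.GPsc
import Pool.Agent.MP_154433_an.t3.GPsiA
import Pool.Agent.MP_154433_an.t3.GPsiB
import Pool.Agent.MP_154433_an.t3.GRelA
import Pool.Agent.MP_154433_an.t3.GRelC
import Pool.Agent.MP_154433_an.t3.GStpA
import Pool.Agent.MP_154433_an.t3.GStpB
import Pool.Agent.MP_154433_an.t3.GTyA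
import Pool.Agent.MP_154433_an.t3.GTyB
import Pool.Agent.MP_154433_an.t3.GZv

/-! Section 4: all sub-rows. -/

namespace T3x

theorem sec4 : Sec4A.Rows :=
  ⟨xCtx, xPsc, xFf, xZv, xHt, xExh, xHatA, xHatB, xTyA, xTyB, xMixL, xDom, xPosB, xPsiA, xPsiB,
    xBunB, xOnhK, xOnhC, xDec, xRelA, xRelC, xOnhB, xStpA, xFlat, xStpB, xAlgA, xAlgT, xAlgB, xAlgC⟩

theorem sec4out (hRc : RcR) (hSat : SatAR) : Sec4A.Out := Sec4A.out sec4 hRc hSat

end T3x
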