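import Pool.Agent.MP_154433_an.t3.Asm
import Pool.Agent.MP_154433_an.t3.BasA
import Pool.Agent.MP_154433_an.t3.BasT
import Pool.Agent.MP_154433_an.t3.BasD
import Pool.Agent.MP_154433_an.t3.BasC
import Pool.Agent.MP_154433_an.t3.Met
import Pool.Agent.MP_154433_an.t3.Real
import Pool.Agent.MP_154433_an.t3.Lim
import Pool.Agent.MP_154433_an.t3.RP
import Pool.Agent.MP_154433_an.t3.Line
import Pool.Agent.MP_154433_an.t3.LfB
import Pool.Agent.MP_154433_an.t3.LfA
import Pool.Agent.MP_154433_an.t3.LfC
import Pool.Agent.MP_154433_an.t3.LfD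
import Pool.Agent.MP_154433_an.t3.KfA
import Pool.Agent.MP_154433_an.t3.KfB
import Pool.Agent.MP_154433_an.t3.Hf
import Pool.Agent.MP_154433_an.t3.Prod
import Pool.Agent.MP_154433_an.t3.Rc
import Pool.Agent.MP_154433_an.t3.Sel
import Pool.Agent.MP_154433_an.t3.Apx
import Pool.Agent.MP_154433_an.t3.HGX
import Pool.Agent.MP_154433_an.t3.GGall
import Pool.Agent.MP_154433_an.t3.SatA
import Pool.Agent.MP_154433_an.t3.GI
import Pool.Agent.MP_154433_an.t3.F3
import Pool.Agent.MP_154433_an.t3.R2P
import Pool.Agent.MP_154433_an.t3.F2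
import Pool.Agent.MP_154433_an.t3.HG
import Pool.Agent.MP_154433_an.t3.GSp1
import Pool.Agent.MP_154433_an.t3.Full
import Pool.Agent.MP_154433_an.t3.Rep
import Pool.Agent.MP_154433_an.t3.GSpU
import Pool.Agent.MP_154433_an.t3.Sec4
import Pool.Agent.MP_154433_an.t3.Ind2
import Pool.Agent.MP_154433_an.t3.Sat
import Pool.Agent.MP_154433_an.t3.Ind
import Pool.Agent.MP_154433_an.t3.Gf
import Pool.Agent.MP_154433_an.t3.CptA
import Pool.Agent.MP_154433_an.t3a.Top

/-! Assembly of all rows: the two deterministic statements. -/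

set_option autoImplicit false

namespace T3x

theorem basX : Bas := bas_of basA basT basD basC

theorem fdX : Fd := fd_of basX met mix real nice0 limS rp line lfB lfA lfC lfD kfA kfB hf prodS

theorem stepX : StepS :=
  have b := basX
  have fd := fdX
  have r := rc b
  have o := sec4out rc satA
  step_of fd r (sel b r) (apx b r) (hgx b) (ggS b) (satA fd)
    (Pool.Agent.MP_154433_an.T3A.xAlg b.a fd.mix) gi f3 r2p f2 hg gsp1 full rep gspU t5 o.exh o.hat
    o.ty o.pos o.psi o.bun o.stp o.rel o.onh o.algI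

theorem detX : DET ∧ DETW :=
  det_of basX fdX stepX (satA fdX) ind2 sat indR gf cptA cpt top det

end T3x
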