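import Pool.Agent.MP_154433_an.t3.Spec

set_option autoImplicit false
set_option linter.unusedVariables false
set_option warn.classDefReducibility false

open MeasureTheory ProbabilityTheory Filter Topology Function Finset ComplexConjugate
open scoped BigOperators
open Fib27 (BM sup pr Oc Orow Perp)

noncomputable section

namespace T3x

namespace F2

theorem fact (fd : Fd) {Ω Ω' : Type} {m0 : MeasurableSpace Ω} {m0' : MeasurableSpace Ω'}
    {μ : Measure Ω} (μ' : Measure Ω') {p : Ω → Ω'} (hp : Measurable p) {f : Ω → ℂ}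
    (hf : BM μ (pull μ p m0') f) : ∃ f', BM μ' m0' f' ∧ f =ᵐ[μ] fun x => f' (p x) := by
  obtain ⟨h1, C, hC⟩ := hf
  obtain ⟨f', a1, a2, a3⟩ := fd.a.fact m0' μ p f (max C 0) hp.comap_le (le_max_right _ _) h1
    (hC.mono fun x hx => hx.trans (le_max_left _ _))
  exact ⟨f', ⟨a1.aestronglyMeasurable, _, Eventually.of_forall a2⟩, a3⟩

theorem intc {Ω Ω' : Type} {m0 : MeasurableSpace Ω} {m0' : MeasurableSpace Ω'}
    {μ : Measure Ω} {μ' : Measure Ω'} {p : Ω → Ω'} (hp : MeasurePreserving p μ μ') {f : Ω' → ℂ}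
    (hf : BM μ' m0' f) : ∫ x, f (p x) ∂μ = ∫ y, f y ∂μ' := by
  rw [← hp.map_eq, integral_map hp.measurable.aemeasurable (by rw [hp.map_eq]; exact hf.1)]

theorem desc (fd : Fd) {Ω Ω' : Type} {m0 : MeasurableSpace Ω} {m0' : MeasurableSpace Ω'}
    {μ : Measure Ω} [IsProbabilityMeasure μ] {μ' : Measure Ω'} {p : Ω → Ω'}
    (hp : MeasurePreserving p μ μ') {w : Ω → ℂ} (hw : BM μ m0 w) :
    ∃ w0, BM μ' m0' w0 ∧ ∀ v, BM μ' m0' v → ∫ x, w x * v (p x) ∂μ = ∫ y, w0 y * v y ∂μ' := by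
  obtain ⟨w0, h0, h1⟩ := fact fd μ' hp.measurable (hw.ce (pull μ p m0'))
  refine ⟨w0, h0, fun v hv => ?_⟩
  rw [← Fib27.int_ce_mul (fd.a.pull_le m0' μ μ' p hp le_rfl) hw (fd.a.bm_comp m0' μ μ' p v hp hv),
    ← intc hp (h0.mul hv)]
  refine integral_congr_ae ?_
  filter_upwards [h1] with x hx
  rw [hx]

theorem pull_mono {Ω Ω' : Type} {B C : MeasurableSpace Ω'} {m0 : MeasurableSpace Ω}
    (μ : Measure Ω) (p : Ω → Ω') (h : B ≤ C) : pull μ p B ≤ pull μ p C :=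
  sup_le_sup_right (MeasurableSpace.comap_mono h) _

theorem pull_sup_le {Ω Ω' ι : Type} {P : ι → MeasurableSpace Ω'} {S : Finset ι}
    {M : MeasurableSpace Ω} {B : MeasurableSpace Ω'} {m0 : MeasurableSpace Ω}
    (μ : Measure Ω) (p : Ω → Ω') (h : ∀ k ∈ S, pull μ p (P k) ≤ M) (hB : pull μ p B ≤ M) :
    pull μ p (sup P S ⊔ B) ≤ M := by
  unfold pull
  rw [MeasurableSpace.comap_sup, sup_assoc]
  refine sup_le ?_ hB
  unfold Fib27.sup
  simp only [MeasurableSpace.comap_iSup]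
  exact iSup₂_le fun k hk => le_sup_left.trans (h k hk)

variable (c : Ctx)

/-- the base enlarged by all slots except two -/
def C0 (j j' : c.ι) : MeasurableSpace c.W.X :=
  c.L.shp c.B ⊔ sup c.P ((univ.erase j).erase j')

def Bp (j j' : c.ι) : MeasurableSpace c.W.X := hull c.W (C0 c j j')

/-- the other rows, the base and the points of row `q` outside two columns -/
def MM (q j j' : c.ι) : MeasurableSpace c.W2.X := c.L2.OB (Bp c j j') c.sl q

def OO (q : c.ι) : MeasurableSpace c.W.X := c.L.OB c.B c.sl q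

variable {c}

theorem embπ (k : c.ι) : Emb c.W c.X (c.π k) := c.L.emb _

theorem embA (k : c.ι) : Emb c.W2 c.W (c.A k) := c.L2.emb _

theorem embB (k : c.ι) : Emb c.W2 c.W (c.Bc k) := (c.lift k).emb

theorem facP (fd : Fd) (k : c.ι) : Fac c.W (c.P k) :=
  fd.t.fpull _ _ _ _ (embπ k) (fd.t.top _)

theorem facS (fd : Fd) : Fac c.W (c.L.shp c.B) := fd.lb.fac c.L c.B c.kc.1

theorem facC (fd : Fd) (j j' : c.ι) : Fac c.W (C0 c j j') := by
  unfold C0
  rw [sup_comm]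
  exact fd.t.fsp _ _ _ _ _ (facS fd) (facP fd)

theorem kcB2 (fd : Fd) : KC c.W c.B2 := fd.h.kc _ _ c.L.nice (facS fd)

theorem kcBp (fd : Fd) (j j' : c.ι) : KC c.W (Bp c j j') := fd.h.kc _ _ c.L.nice (facC fd j j')

theorem S_le_B2 (fd : Fd) : c.L.shp c.B ≤ c.B2 := fd.h.le _ _

theorem B2_le_Bp (fd : Fd) (j j' : c.ι) : c.B2 ≤ Bp c j j' := fd.h.mono _ _ _ le_sup_left

theorem B2_le_OO (q : c.ι) : c.B2 ≤ OO c q := le_sup_right

theorem OO_le (fd : Fd) (q : c.ι) : OO c q ≤ c.W.ms :=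
  sup_le (Fib27.sup_le' fun k _ => (facP fd k).le) (kcB2 fd).1.le

theorem MM_le (fd : Fd) (q j j' : c.ι) : MM c q j j' ≤ c.W2.ms :=
  sup_le (Fib27.sup_le' fun k _ => (fd.t.fpull _ _ _ _ (embA k) (fd.t.top _)).le)
    (fd.h.kc _ _ c.L2.nice (fd.lb.fac c.L2 _ (kcBp fd j j').1)).1.le

theorem β_le_MM (fd : Fd) (q j j' : c.ι) : c.β ≤ MM c q j j' :=
  (fd.h.mono _ _ _ (fd.lb.mono c.L2 _ _ (B2_le_Bp fd j j'))).trans le_sup_right

theorem row_le_MM (fd : Fd) (q j j' : c.ι) :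
    pull c.W2.μ (c.A q) (Bp c j j') ≤ MM c q j j' :=
  ((fd.lb.slot c.L2 _ _ (kcBp fd j j').1).trans (fd.h.le _ _)).trans le_sup_right

theorem col_le_MM (fd : Fd) (gi : c.GI) (q j j' i : c.ι) :
    pull c.W2.μ (c.Bc i) (OO c q) ≤ MM c q j j' := by
  refine pull_sup_le _ _ (fun k hk => ?_) ((gi.colB i).trans (β_le_MM fd q j j'))
  have h1 : pull c.W2.μ (c.Bc i) (c.L.P (c.sl k)) = pull c.W2.μ (c.π k ∘ c.Bc i) c.X.ms :=
    fd.a.pull_comp c.X.ms c.W2.μ c.W.μ (c.Bc i) (c.π k) (embB i).mp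
  have h2 : pull c.W2.μ (c.A k) (c.P i) = pull c.W2.μ (c.π i ∘ c.A k) c.X.ms :=
    fd.a.pull_comp c.X.ms c.W2.μ c.W.μ (c.A k) (c.π i) (embA k).mp
  have h3 := fd.a.keq_pull c.X.ms c.W2.μ (c.π i ∘ c.A k) (c.π k ∘ c.Bc i)
    ((embπ i).mp.comp (embA k).mp).measurable.comap_le
    ((embπ k).mp.comp (embB i).mp).measurable.comap_le (gi.col k i)
  rw [h1, ← h3, ← h2]
  exact (pull_mono _ _ (facP fd i).le).trans
    ((Fib27.le_sup' (fun k => c.L2.P (c.sl k)) hk).trans le_sup_left)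

theorem bmπ (fd : Fd) (k : c.ι) {f : c.X.X → ℂ} (hf : BM c.X.μ c.X.ms f) :
    BM c.W.μ (c.P k) fun w => f (c.π k w) :=
  fd.a.bm_comp c.X.ms c.W.μ c.X.μ (c.π k) f (embπ k).mp hf

theorem adm (fd : Fd) {j j' : c.ι} (hj : j ≠ j') : Adm c.W (Bp c j j') c.X c.B (c.π j) := by
  have hS := facS (c := c) fd
  have hle : pull c.W.μ (c.π j) c.B ≤ c.L.shp c.B := fd.lb.slot c.L _ _ c.kc.1
  refine fd.h.adm _ _ _ _ _ c.L.nice c.nice (embπ j) c.kc (facC fd j j') (hle.trans le_sup_left) ?_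
  intro f hf
  obtain ⟨f0, hf0, hff⟩ := fact fd c.X.μ (embπ j).mp.measurable hf
  have hce := fd.a.ce_comp c.B c.W.μ c.X.μ (c.π j) f0 (embπ j).mp c.kc.1.le hf0.integrable
  refine (condExp_congr_ae hff).trans (EventuallyEq.trans ?_
    ((condExp_congr_ae hff).trans hce).symm)
  have hg0 : BM c.X.μ c.B (c.X.μ[f0 | c.B]) := hf0.ce _
  have hg1 : BM c.W.μ (c.L.shp c.B) fun w => (c.X.μ[f0 | c.B]) (c.π j w) :=
    (fd.a.bm_comp c.B c.W.μ c.X.μ (c.π j) _ (embπ j).mp hg0).mono hle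
  have hF : BM c.W.μ c.W.ms fun w => f0 (c.π j w) := (bmπ fd j hf0).mono (facP fd j).le
  refine Fib27.ce_eq_of_perp (facC fd j j').le hF (hg1.mono le_sup_left) ?_
  refine Fib27.perp_sup_pr hS.le (fun k => (facP fd k).le) (hF.sub (hg1.mono hS.le)) ?_
  intro a ρ ha hρ
  choose g hg hρg using fun k => fact fd c.X.μ (embπ k).mp.measurable (hρ k)
  set S := (univ.erase j).erase j' with hSd
  have hjS : j ∉ S := by simp [hSd]
  have hd : BM c.X.μ c.X.ms fun x => f0 x - (c.X.μ[f0 | c.B]) x := hf0.sub (hg0.mono c.kc.1.le)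
  have hcard : (insert j S).card ≤ Fintype.card c.ι - 1 := by
    have : insert j S ⊆ univ.erase j' := by
      intro i hi
      rcases mem_insert.mp hi with rfl | hi
      · simpa using hj
      · simpa using (mem_erase.mp hi).1
    simpa [card_erase_of_mem] using card_le_card this
  have hI := c.ind c.X c.B c.L c.ι c.sl (insert j S) c.nice c.kc c.inj.injOn (fun i _ => c.ne i)
    hcard (update g j fun x => f0 x - (c.X.μ[f0 | c.B]) x) (fun i _ => by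
      by_cases h : i = j
      · subst h
        simpa using hd
      · simpa [update_of_ne h] using hg i)
  have hz : ∀ᵐ x ∂c.X.μ, (c.X.μ[fun x => f0 x - (c.X.μ[f0 | c.B]) x | c.B]) x = 0 :=
    (Fib27.perp_sub_ce c.kc.1.le hf0).ce c.kc.1.le hd
  have hz' := (embπ j).mp.quasiMeasurePreserving.ae hz
  have hPr : BM c.W.μ c.W.ms fun w => (f0 (c.π j w) - (c.X.μ[f0 | c.B]) (c.π j w)) * pr ρ S w :=
    (hF.sub (hg1.mono hS.le)).mul (BM.pr fun k _ => (hρ k).mono (facP fd k).le)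
  have he : (fun w => (f0 (c.π j w) - (c.X.μ[f0 | c.B]) (c.π j w)) * pr ρ S w) =ᵐ[c.W.μ]
      fun w => ∏ i ∈ insert j S,
        update g j (fun x => f0 x - (c.X.μ[f0 | c.B]) x) i (c.L.π (c.sl i) w) := by
    filter_upwards [Fib27.pr_congr_ae (S := S) fun k _ => hρg k] with w hw
    rw [prod_insert hjS, update_self, hw]
    refine congrArg₂ _ rfl (prod_congr rfl fun i hi => ?_)
    rw [update_of_ne (by rintro rfl; exact hjS hi)]
    rfl
  have h0 : ∀ᵐ w ∂c.W.μ, (c.W.μ[fun w => (f0 (c.π j w) - (c.X.μ[f0 | c.B]) (c.π j w)) * pr ρ S w |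
      c.L.shp c.B]) w = 0 := by
    filter_upwards [(condExp_congr_ae he).trans hI, hz'] with w h1 h2
    rw [h1, prod_insert hjS, update_self]
    exact mul_eq_zero_of_left h2 _
  have := Fib27.perp_of_ce hS.le hPr h0 a ha
  rw [← this]
  exact integral_congr_ae (Eventually.of_forall fun w => by ring)

/-- saturation in the grid -/
theorem sg (fd : Fd) (sat : c.Sat) (q : c.ι) {j j' : c.ι} (hj : j ≠ j') {a : c.W.X → ℂ}
    (ha : BM c.W.μ (c.P q) a) {w : c.W2.X → ℂ} (hw : BM c.W2.μ (MM c q j j') w) :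
    ∫ x, a (c.Bc j x) * w x ∂c.W2.μ = ∫ x, (c.W.μ[a | OO c q]) (c.Bc j x) * w x ∂c.W2.μ := by
  obtain ⟨f, hf, haf⟩ := fact fd c.X.μ (embπ q).mp.measurable ha
  have h1 := sat c.W (Bp c j j') (c.π j) c.L2 (c.Bc j) (adm fd hj) (c.lift j) q f hf
  have hq := (embB (c := c) j).mp.quasiMeasurePreserving
  have ha2 : BM c.W2.μ c.W2.ms fun x => a (c.Bc j x) :=
    (fd.a.bm_comp _ c.W2.μ c.W.μ (c.Bc j) a (embB j).mp (ha.mono (facP fd q).le)).mono
      (fd.t.fpull _ _ _ _ (embB j) (fd.t.top _)).le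
  rw [← Fib27.int_ce_mul (MM_le fd q j j') ha2 hw]
  refine integral_congr_ae ?_
  have h2 : c.W2.μ[fun x => a (c.Bc j x) | MM c q j j'] =ᵐ[c.W2.μ]
      c.W2.μ[fun x => f (c.π q (c.Bc j x)) | MM c q j j'] := condExp_congr_ae (hq.ae haf)
  have h3 : c.W.μ[a | OO c q] =ᵐ[c.W.μ] c.W.μ[fun w => f (c.π q w) | OO c q] :=
    condExp_congr_ae haf
  filter_upwards [h2.trans h1, hq.ae h3] with x h4 h5
  rw [h4, h5]
  rfl

theorem sg' (fd : Fd) (sat : c.Sat) (gi : c.GI) (q : c.ι) {j j' : c.ι} (hj : j ≠ j')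
    {e : c.W.X → ℂ} (he : BM c.W.μ (c.P q ⊔ c.L.shp c.B) e) {w : c.W2.X → ℂ}
    (hw : BM c.W2.μ (MM c q j j') w) :
    ∫ x, w x * e (c.Bc j x) ∂c.W2.μ = ∫ x, w x * (c.W.μ[e | OO c q]) (c.Bc j x) ∂c.W2.μ := by
  have hO := OO_le (c := c) fd q
  have hP := (facP (c := c) fd q).le
  have hS := (facS (c := c) fd).le
  have hSO : c.L.shp c.B ≤ OO c q := (S_le_B2 fd).trans (B2_le_OO q)
  have hw' := hw.mono (MM_le fd q j j')
  obtain ⟨w0, h0, h1⟩ := desc fd (embB j).mp hw'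
  have he' := he.mono (sup_le hP hS)
  have hp : Perp c.W.μ (c.P q ⊔ c.L.shp c.B) fun y => w0 y - (c.W.μ[w0 | OO c q]) y := by
    refine Fib27.perp_sup hP hS (h0.sub ((h0.ce _).mono hO)) fun a b ha hb => ?_
    have ha' := ha.mono hP
    have hb' := hb.mono hS
    have e1 : ∫ y, w0 y * (c.W.μ[fun y => a y * b y | OO c q]) y ∂c.W.μ
        = ∫ y, w0 y * ((c.W.μ[a | OO c q]) y * b y) ∂c.W.μ :=
      integral_congr_ae ((Fib27.ce_mul' hO ha' (hb.mono hSO)).mono fun y hy =>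
        congrArg (w0 y * ·) hy)
    rw [Fib27.int_sub_mul h0 ((h0.ce _).mono hO) (ha'.mul hb'), sub_eq_zero,
      Fib27.int_ce_symm hO h0 (ha'.mul hb'), e1,
      ← h1 _ (ha'.mul hb'), ← h1 _ (((ha'.ce _).mono hO).mul hb')]
    have hb2 : BM c.W2.μ (MM c q j j') fun x => b (c.Bc j x) :=
      (fd.a.bm_comp _ c.W2.μ c.W.μ (c.Bc j) b (embB j).mp (hb.mono hSO)).mono
        (col_le_MM fd gi q j j' j)
    have := sg fd sat q hj ha (hw.mul hb2)
    refine Eq.trans ?_ (this.trans ?_)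
    · exact integral_congr_ae (Eventually.of_forall fun w => by ring)
    · exact integral_congr_ae (Eventually.of_forall fun w => by ring)
  have h2 := hp e he
  rw [Fib27.int_sub_mul h0 ((h0.ce _).mono hO) he', sub_eq_zero, Fib27.int_ce_symm hO h0 he'] at h2
  rw [h1 _ he', h1 _ ((he'.ce _).mono hO), h2]

theorem key (fd : Fd) (gi : c.GI) (sat : c.Sat) (r2p : R2P c) (q : c.ι) {a h : c.W.X → ℂ}
    (ha : BM c.W.μ (c.P q) a)
    (hh : h = fun w => (c.W.μ[a | OO c q]) w -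
      (c.W.μ[c.W.μ[a | OO c q] | c.P q ⊔ c.L.shp c.B]) w) :
    Perp c.W.μ (OO c q) (c.W.μ[c.W.μ[h | OO c q] | c.P q]) := by
  have hO := OO_le (c := c) fd q
  have hP := fun k => (facP (c := c) fd k).le
  have hS := (facS (c := c) fd).le
  have hD : c.P q ⊔ c.L.shp c.B ≤ c.W.ms := sup_le (hP q) hS
  have hKa : BM c.W.μ (OO c q) (c.W.μ[a | OO c q]) := ha.ce _
  have he : BM c.W.μ (c.P q ⊔ c.L.shp c.B) (c.W.μ[c.W.μ[a | OO c q] | c.P q ⊔ c.L.shp c.B]) :=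
    hKa.ce _
  have hhb : BM c.W.μ c.W.ms h := hh ▸ (hKa.mono hO).sub (he.mono hD)
  have hh0 : c.W.μ[h | c.P q ⊔ c.L.shp c.B] =ᵐ[c.W.μ] 0 :=
    Perp.ce (hh ▸ Fib27.perp_sub_ce hD (hKa.mono hO)) hD hhb
  have hKh : BM c.W.μ (OO c q) (c.W.μ[h | OO c q]) := hhb.ce _
  have hb : BM c.W.μ (c.P q) (c.W.μ[c.W.μ[h | OO c q] | c.P q]) := hKh.ce _
  obtain ⟨b0, hb0, hbb⟩ := fact fd c.X.μ (embπ q).mp.measurable hb
  have hOd : OO c q = c.B2 ⊔ sup c.P (univ.erase q) := sup_comm _ _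
  have hB2 := (kcB2 (c := c) fd).1.le
  refine (Fib27.perp_sup_pr (S := univ.erase q) hB2 hP (hb.mono (hP q)) ?_).mono hOd.le
  intro ψ ρ hψ hρ
  obtain ⟨k, hk, -⟩ := Fib27.exists_third c.three q q
  have hkS : k ∈ univ.erase q := by simpa using hk
  have hρ' : ∀ S : Finset c.ι, BM c.W.μ c.W.ms (pr ρ S) := fun S =>
    BM.pr fun i _ => (hρ i).mono (hP i)
  have hu : BM c.W.μ c.W.ms fun w => ψ w * pr ρ (univ.erase q) w := (hψ.mono hB2).mul (hρ' _)
  have hu' : BM c.W.μ c.W.ms fun w => ψ w * pr ρ ((univ.erase q).erase k) w :=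
    (hψ.mono hB2).mul (hρ' _)
  have hu1 : BM c.W.μ (Bp c q k) fun w => ψ w * pr ρ ((univ.erase q).erase k) w :=
    (hψ.mono (B2_le_Bp fd q k)).mul
      ((BM.pr_sup fun i _ => hρ i).mono (le_sup_right.trans (fd.h.le _ _)))
  have hu2 : BM c.W.μ (Bp c k q) fun w => ψ w * pr ρ ((univ.erase q).erase k) w := by
    refine (hψ.mono (B2_le_Bp fd k q)).mul ?_
    rw [erase_right_comm]
    exact (BM.pr_sup fun i _ => hρ i).mono (le_sup_right.trans (fd.h.le _ _))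
  obtain ⟨f, hf, hρf⟩ := fact fd c.X.μ (embπ k).mp.measurable (hρ k)
  have hfq := bmπ fd q hf
  have hY : BM c.W.μ (OO c q) (c.W.μ[fun w => f (c.π q w) | OO c q]) := hfq.ce _
  have hAq := (embA (c := c) q).mp
  have cB : ∀ (i j j' : c.ι) {v : c.W.X → ℂ}, BM c.W.μ (OO c q) v →
      BM c.W2.μ (MM c q j j') fun x => v (c.Bc i x) := fun i j j' v hv =>
    (fd.a.bm_comp _ c.W2.μ c.W.μ (c.Bc i) v (embB i).mp hv).mono (col_le_MM fd gi q j j' i)
  have cA : ∀ (j j' : c.ι) {v : c.W.X → ℂ}, BM c.W.μ (Bp c j j') v →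
      BM c.W2.μ (MM c q j j') fun x => v (c.A q x) := fun j j' v hv =>
    (fd.a.bm_comp _ c.W2.μ c.W.μ (c.A q) v hAq hv).mono (row_le_MM fd q j j')
  have hcs := fd.ld.cs' c.L2 c.L (c.π q) (c.Bc q) (c.sl q) (embπ q) (c.lift q) _ b0
    (hKh.mono hO) hb0 hbb.symm
  have hA : pull c.W2.μ (c.A q) c.W.ms ≤ c.W2.ms := (fd.t.fpull _ _ _ _ (embA q) (fd.t.top _)).le
  have s1 : ∫ w, (c.W.μ[c.W.μ[h | OO c q] | c.P q]) w * (ψ w * pr ρ (univ.erase q) w) ∂c.W.μ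
      = ∫ x, (c.W.μ[h | OO c q]) (c.Bc q x) * (ψ (c.A q x) * pr ρ (univ.erase q) (c.A q x))
        ∂c.W2.μ := by
    rw [← intc hAq ((hb.mono (hP q)).mul hu),
      ← Fib27.int_ce_mul hA ((cB q q k hKh).mono (MM_le fd q q k))
        (fd.a.bm_comp _ c.W2.μ c.W.μ (c.A q) _ hAq hu)]
    refine integral_congr_ae ?_
    filter_upwards [hcs, hAq.quasiMeasurePreserving.ae hbb] with x h1 h2
    rw [h2]
    exact congrArg₂ _ h1.symm rfl
  have hcol := fd.a.keq_fun c.X.ms c.W2.μ c.X.μ (c.π k ∘ c.A q) (c.π q ∘ c.Bc k) f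
    ((embπ k).mp.comp hAq) ((embπ q).mp.comp (embB k).mp) (gi.col q k) hf.1
  have s2 : ∫ x, (c.W.μ[h | OO c q]) (c.Bc q x) * (ψ (c.A q x) * pr ρ (univ.erase q) (c.A q x))
        ∂c.W2.μ = ∫ x, f (c.π q (c.Bc k x)) * ((c.W.μ[h | OO c q]) (c.Bc q x) *
          (ψ (c.A q x) * pr ρ ((univ.erase q).erase k) (c.A q x))) ∂c.W2.μ := by
    refine integral_congr_ae ?_
    filter_upwards [hcol, hAq.quasiMeasurePreserving.ae hρf] with x h1 h2
    rw [Fib27.pr_erase ρ hkS, h2]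
    have h3 : f (c.π k (c.A q x)) = f (c.π q (c.Bc k x)) := h1
    rw [h3]
    ring
  have s3 := sg fd sat q hk hfq ((cB q k q hKh).mul (cA k q hu2))
  have hw2 := (cB k q k hY).mul (cA q k hu1)
  have s4 := sg' fd sat gi q hk.symm he hw2
  have s5 := r2p q q k h _ _ hk.symm hhb (hY.mono hO) hu' hh0
  have hKK : c.W.μ[h | OO c q] =ᵐ[c.W.μ] fun w => h w +
      ((c.W.μ[c.W.μ[a | OO c q] | c.P q ⊔ c.L.shp c.B]) w -
        (c.W.μ[c.W.μ[c.W.μ[a | OO c q] | c.P q ⊔ c.L.shp c.B] | OO c q]) w) := by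
    subst hh
    filter_upwards [Fib27.ce_sub (hKa.mono hO) (he.mono hD) (OO c q), hKa.ce_self hO] with w h1 h2
    rw [h1, h2]
    ring
  have hM := MM_le (c := c) fd q q k
  have hBq : pull c.W2.μ (c.Bc q) c.W.ms ≤ c.W2.ms := (fd.t.fpull _ _ _ _ (embB q) (fd.t.top _)).le
  have cq : ∀ {v : c.W.X → ℂ}, BM c.W.μ c.W.ms v → BM c.W2.μ c.W2.ms fun x => v (c.Bc q x) :=
    fun hv => (fd.a.bm_comp _ c.W2.μ c.W.μ (c.Bc q) _ (embB q).mp hv).mono hBq
  have i1 := ((hw2.mono hM).mul (cq hhb)).integrable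
  have i2 := ((hw2.mono hM).mul (cq (he.mono hD))).integrable
  have i3 := ((hw2.mono hM).mul (cq ((he.ce (OO c q)).mono hO))).integrable
  rw [s1, s2, s3]
  have s6 := integral_add i1 (i2.sub i3)
  have s7 := integral_sub i2 i3
  rw [s4, sub_self] at s7
  have s8 : ∫ x, (c.W.μ[fun w => f (c.π q w) | OO c q]) (c.Bc k x) *
      (ψ (c.A q x) * pr ρ ((univ.erase q).erase k) (c.A q x)) * h (c.Bc q x) ∂c.W2.μ = 0 := by
    rw [← s5]
    exact integral_congr_ae (Eventually.of_forall fun w => by ring)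
  simp only [Pi.sub_apply] at s6
  rw [s7, s8, add_zero] at s6
  rw [← s6]
  refine integral_congr_ae ?_
  filter_upwards [(embB q).mp.quasiMeasurePreserving.ae hKK] with x hx
  rw [hx]
  ring

end F2

theorem f2 : F2R := by
  intro fd c gi sat r2p q a ha
  have hO := F2.OO_le (c := c) fd q
  have hP := (F2.facP (c := c) fd q).le
  have hS := (F2.facS (c := c) fd).le
  have hD : c.P q ⊔ c.L.shp c.B ≤ c.W.ms := sup_le hP hS
  have hKa : BM c.W.μ (F2.OO c q) (c.W.μ[a | F2.OO c q]) := ha.ce _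
  have he : BM c.W.μ (c.P q ⊔ c.L.shp c.B) (c.W.μ[c.W.μ[a | F2.OO c q] | c.P q ⊔ c.L.shp c.B]) :=
    hKa.ce _
  obtain ⟨h, hh⟩ : ∃ h : c.W.X → ℂ, h = fun w => (c.W.μ[a | F2.OO c q]) w -
      (c.W.μ[c.W.μ[a | F2.OO c q] | c.P q ⊔ c.L.shp c.B]) w := ⟨_, rfl⟩
  have hhb : BM c.W.μ c.W.ms h := hh ▸ (hKa.mono hO).sub (he.mono hD)
  have hpD : Perp c.W.μ (c.P q ⊔ c.L.shp c.B) h := hh ▸ Fib27.perp_sub_ce hD (hKa.mono hO)
  have hk := F2.key fd gi sat r2p q ha hh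
  have hKh : BM c.W.μ (F2.OO c q) (c.W.μ[h | F2.OO c q]) := hhb.ce _
  have hb : BM c.W.μ (c.P q) (c.W.μ[c.W.μ[h | F2.OO c q] | c.P q]) := hKh.ce _
  have hb0 : ∀ᵐ w ∂c.W.μ, (c.W.μ[c.W.μ[h | F2.OO c q] | c.P q]) w = 0 := by
    refine Fib27.eq_zero_of_int_conj (hb.mono hP) ?_
    rw [Fib27.int_ce_mul hP (hKh.mono hO) hb.conj]
    have := congrArg (starRingEnd ℂ) (hk _ hKh.conj)
    rw [← integral_conj, map_zero] at this
    rw [← this]
    exact integral_congr_ae (Eventually.of_forall fun w => by simp [mul_comm])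
  have hh0 : ∀ᵐ w ∂c.W.μ, h w = 0 := by
    refine Fib27.eq_zero_of_int_conj hhb ?_
    have h1 : ∫ w, h w * conj ((c.W.μ[a | F2.OO c q]) w) ∂c.W.μ = 0 := by
      have e1 : ∫ w, h w * (c.W.μ[fun w => conj (a w) | F2.OO c q]) w ∂c.W.μ
          = ∫ w, h w * conj ((c.W.μ[a | F2.OO c q]) w) ∂c.W.μ :=
        integral_congr_ae ((Fib27.ce_conj hO (ha.mono hP)).mono fun w hw =>
          congrArg (h w * ·) hw)
      rw [← e1,
        ← Fib27.int_ce_symm hO hhb (ha.mono hP).conj,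
        ← Fib27.int_ce_mul hP (hKh.mono hO) ha.conj]
      exact integral_eq_zero_of_ae (hb0.mono fun w hw => by simp [hw])
    have h2 := hpD _ he.conj
    have h3 := integral_sub (hhb.mul (hKa.mono hO).conj).integrable
      (hhb.mul (he.mono hD).conj).integrable
    rw [h1, h2, sub_self] at h3
    rw [← h3]
    refine integral_congr_ae (Eventually.of_forall fun w => ?_)
    have : conj (h w) = conj ((c.W.μ[a | F2.OO c q]) w) -
        conj ((c.W.μ[c.W.μ[a | F2.OO c q] | c.P q ⊔ c.L.shp c.B]) w) := by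
      rw [hh, map_sub]
    simp only [this, mul_sub]
  refine (he.mono (sup_le_sup_left (F2.S_le_B2 fd) _)).congr ?_
  filter_upwards [hh0] with w hw
  rw [hh] at hw
  exact (sub_eq_zero.mp hw).symm

end T3x

end
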