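import Pool.Agent.MP_154433_an.t3.Spec3

/-! Transfer between the global space and the fibres. -/

set_option autoImplicit false

open MeasureTheory ProbabilityTheory Filter Topology Function Finset ComplexConjugate
open Fib27 (BM)

noncomputable section

namespace T3x

namespace FKr

section

variable {X Ω Zs : Type} [mX : MeasurableSpace X] [m1 : MeasurableSpace Ω]
  [mZ : MeasurableSpace Zs] {μ : Measure X} {W : X → Ω} {Z : X → Zs}

lemma bm (hW : Measurable W) (hZ : Measurable Z) {h : Zs × Ω → ℂ} (hh : h ∈ Bdd (Zs × Ω)) :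
    BM μ mX fun x => h (Z x, W x) := by
  obtain ⟨h1, C, hC⟩ := hh
  exact ⟨(h1.comp (hZ.prodMk hW)).aestronglyMeasurable, C, Eventually.of_forall fun x => hC _⟩

lemma bmz (κ : Measure Ω) {h : Zs × Ω → ℂ} (hh : h ∈ Bdd (Zs × Ω)) (z : Zs) :
    BM κ m1 fun ω => h (z, ω) := by
  obtain ⟨h1, C, hC⟩ := hh
  exact ⟨(h1.comp measurable_prodMk_left).aestronglyMeasurable, C,
    Eventually.of_forall fun x => hC _⟩

variable [StandardBorelSpace Ω] [Nonempty Ω] [IsProbabilityMeasure μ]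

lemma int (hW : Measurable W) (hZ : Measurable Z) {h : Zs × Ω → ℂ} (hh : h ∈ Bdd (Zs × Ω)) :
    μ[fun x => h (Z x, W x) | cm Z] =ᵐ[μ] fun x => ∫ ω, h (Z x, ω) ∂condDistrib W Z μ (Z x) :=
  condExp_prod_ae_eq_integral_condDistrib hZ hW.aemeasurable hh.1.stronglyMeasurable
    (bm hW hZ hh).integrable

lemma eq (hW : Measurable W) (hZ : Measurable Z) {h h' : Zs × Ω → ℂ} (hh : h ∈ Bdd (Zs × Ω))
    (hh' : h' ∈ Bdd (Zs × Ω))
    (e : ∀ ψ, BM μ (cm Z) ψ → ∫ x, ψ x * h (Z x, W x) ∂μ = ∫ x, ψ x * h' (Z x, W x) ∂μ) :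
    ∀ᵐ z ∂μ.map Z, ∫ ω, h (z, ω) ∂condDistrib W Z μ z = ∫ ω, h' (z, ω) ∂condDistrib W Z μ z := by
  have b := bm (μ := μ) hW hZ hh
  have b' := bm (μ := μ) hW hZ hh'
  have h1 : μ[fun x => h (Z x, W x) | cm Z] =ᵐ[μ] μ[fun x => h' (Z x, W x) | cm Z] :=
    Fib27.ae_eq_of_tests hZ.comap_le (b.ce _) (b'.ce _) fun c hc => by
      rw [Fib27.int_ce_mul hZ.comap_le b hc, Fib27.int_ce_mul hZ.comap_le b' hc]
      simpa only [mul_comm] using e c hc
  refine (ae_map_iff hZ.aemeasurable (measurableSet_eq_fun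
    hh.1.stronglyMeasurable.integral_condDistrib.measurable
    hh'.1.stronglyMeasurable.integral_condDistrib.measurable)).2 ?_
  filter_upwards [h1, int (μ := μ) hW hZ hh, int (μ := μ) hW hZ hh'] with x a1 a2 a3
  rw [← a2, ← a3, a1]

end

/-- truncation -/
def clip (C : ℝ) (z : ℂ) : ℂ := if ‖z‖ ≤ C then z else 0

lemma clip_meas (C : ℝ) : Measurable (clip C) :=
  Measurable.ite (measurableSet_le measurable_norm measurable_const) measurable_id measurable_const

lemma clip_le {C : ℝ} (hC : 0 ≤ C) (z : ℂ) : ‖clip C z‖ ≤ C := by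
  unfold clip
  split_ifs with h
  · exact h
  · simpa using hC

end FKr

open FKr in
theorem fk : FK where
  int := fun _ _ _ _ hW hZ _ hh => FKr.int hW hZ hh
  eq := fun _ _ _ _ hW hZ _ hh _ hh' e => FKr.eq hW hZ hh hh' e
  rep := by
    intro X Ω Zs Q mX m1 mZ μ W Z g C hQ hC hg hb
    have e : Q.comap W ⊔ cm Z = (mZ.prod Q).comap (fun x => (Z x, W x)) := by
      rw [sup_comm]
      exact (MeasurableSpace.comap_prodMk Z W).symm
    have hm : StronglyMeasurable[(mZ.prod Q).comap (fun x => (Z x, W x))] (hg.mk g) := by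
      rw [← e]; exact hg.stronglyMeasurable_mk
    obtain ⟨h0, mh0, hh0⟩ :=
      @StronglyMeasurable.exists_eq_measurable_comp X (Zs × Ω) ℂ (mZ.prod Q)
        (fun x => (Z x, W x)) (hg.mk g) _ _ _ hm
    have mh2 : Measurable[mZ.prod Q] fun p => clip C (h0 p) := (clip_meas C).comp mh0.measurable
    have hle : mZ.prod Q ≤ mZ.prod m1 := sup_le_sup le_rfl (MeasurableSpace.comap_mono hQ)
    refine ⟨fun p => clip C (h0 p), mh2.mono hle le_rfl, fun p => clip_le hC _,
      fun z => mh2.comp (@measurable_prodMk_left Zs Ω mZ Q z), ?_⟩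
    filter_upwards [hg.ae_eq_mk, hb] with x hx1 hx2
    have h3 : h0 (Z x, W x) = g x := by rw [hx1, hh0]; rfl
    rw [h3, clip, if_pos hx2]
  ce := by
    intro X Ω Zs Q mX m1 _ _ mZ μ _ W Z hW hZ hQ hcg a ha h hh hhQ hE
    obtain ⟨𝒜, hc, hA, hg⟩ := cg_alg Q hcg
    have hAQ : ∀ A ∈ 𝒜, MeasurableSet[Q] A := fun A hA => by
      rw [hg]; exact MeasurableSpace.measurableSet_generateFrom hA
    have hle : Q.comap W ⊔ cm Z ≤ mX :=
      sup_le ((MeasurableSpace.comap_mono hQ).trans hW.comap_le) hZ.comap_le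
    have bd : ∀ g ∈ Bdd (Zs × Ω), ∀ A ∈ 𝒜,
        (fun p : Zs × Ω => g p * A.indicator (fun _ => (1 : ℂ)) p.2) ∈ Bdd (Zs × Ω) := by
      rintro g ⟨g1, C, hC⟩ A hA
      refine ⟨g1.mul ((measurable_const.indicator (hQ A (hAQ A hA))).comp measurable_snd), C,
        fun p => ?_⟩
      by_cases c : p.2 ∈ A
      · simpa [c] using hC p
      · simpa [c] using (norm_nonneg _).trans (hC p)
    have key : ∀ A ∈ 𝒜, ∀ᵐ z ∂μ.map Z,
        ∫ ω, a (z, ω) * A.indicator (fun _ => (1 : ℂ)) ω ∂condDistrib W Z μ z =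
          ∫ ω, h (z, ω) * A.indicator (fun _ => (1 : ℂ)) ω ∂condDistrib W Z μ z := by
      intro A hA
      refine FKr.eq hW hZ (bd a ha A hA) (bd h hh A hA) fun ψ hψ => ?_
      have t : BM μ (Q.comap W ⊔ cm Z) fun x => ψ x * (W ⁻¹' A).indicator (fun _ => (1 : ℂ)) x :=
        (hψ.mono le_sup_right).mul
          ((BM.indicator (m := Q.comap W) ⟨A, hAQ A hA, rfl⟩).mono le_sup_left)
      have e1 := Fib27.int_ce_mul hle (FKr.bm hW hZ ha) t
      rw [Fib27.Mult.icongr hE] at e1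
      have e2 : ∀ (g : Zs × Ω → ℂ) (x : X), ψ x * (g (Z x, W x) *
          A.indicator (fun _ => (1 : ℂ)) (W x)) =
          g (Z x, W x) * (ψ x * (W ⁻¹' A).indicator (fun _ => (1 : ℂ)) x) := fun g x => by
        by_cases c : W x ∈ A <;> simp [c, mul_comm]
      simp only [e2]
      exact e1.symm
    filter_upwards [(ae_ball_iff hc).2 key] with z hz
    have b := FKr.bmz (condDistrib W Z μ z) ha z
    have b' := FKr.bmz (condDistrib W Z μ z) hh z
    refine Fib27.ce_eq_of_perp hQ b (b'.of_aesm (hhQ z).aestronglyMeasurable) ?_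
    refine perp_pi hQ (fun s hs t ht _ => hA.inter_mem hs ht) hA.univ_mem hg (b.sub b')
      fun s hs => ?_
    rw [Fib27.int_sub_mul b b' ((BM.indicator (hAQ s hs)).mono hQ), hz s hs, sub_self]
  ae := by
    intro X Ω Zs mX m1 _ _ mZ μ _ W Z hW hZ h h' m m'
    rw [← Measure.ae_compProd_iff (p := fun p => h p = h' p) (measurableSet_eq_fun m m'),
      compProd_map_condDistrib hW.aemeasurable,
      ae_map_iff (hZ.prodMk hW).aemeasurable (measurableSet_eq_fun m m')]

end T3x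

end
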