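import Pool.Agent.MP_154433_an.fib.Final

/-!
FSPAN: in a half grid the members of column tuples span the functions of a point that are
determined both by the column and by the row.
-/

set_option autoImplicit false

open MeasureTheory ProbabilityTheory Finset Filter

namespace T3F

open Fib27

/-- a half grid: F2 and F3 along rows for the column projections, only F2 for the row
projections -/
structure HGrid {Ω : Type} {m0 : MeasurableSpace Ω} {ι : Type} [Fintype ι] [DecidableEq ι]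
    (κ : Measure Ω) (G : ι → ι → MeasurableSpace Ω) : Prop where
  le : ∀ q j, G q j ≤ m0
  rows : LInd κ (fun q => sup (G q) univ)
  cols : LInd κ (fun j => sup (fun q => G q j) univ)
  fr : ∀ q, F23 κ (G q) (Oc G q)
  f2c : ∀ q j a, BM κ (G q j) a → BM κ (G q j) (κ[a | Orow G q j])

variable {Ω ι : Type} [Fintype ι] [DecidableEq ι] {m0 : MeasurableSpace Ω} {κ : Measure Ω}
  {G : ι → ι → MeasurableSpace Ω}

theorem HGrid.colLine (h : HGrid κ G) (j : ι) : Line κ (fun q => G q j) :=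
  ⟨fun q => h.le q j, h.rows.mono fun q => le_sup' (G q) (mem_univ j), fun q => (h.fr q).f2 j⟩

theorem HGrid.oc_le (h : HGrid κ G) (q j : ι) : Oc G q j ≤ m0 := (h.fr q).le j

theorem HGrid.or_le (h : HGrid κ G) (q j : ι) : Orow G q j ≤ m0 := sup_le' fun k _ => h.le q k

variable [IsProbabilityMeasure κ]

section mult

open K Mult

theorem HGrid.mult0 (hG : HGrid κ G) {q0 q j0 j1 : ι} (hq : q ≠ q0) (hj : j1 ≠ j0)
    {ρ ρ' : Ω → ℂ} (hρ : BM κ (sup (fun q' => G q' j0) ((univ.erase q0).erase q)) ρ)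
    (hρ' : BM κ (sup (fun q' => G q' j0) ((univ.erase q0).erase q)) ρ')
    {a1 : Ω → ℂ} (ha : BM κ (G q0 j1) a1) (ha' : BM κ (Oc G q0 j1) a1) :
    ∃ A : Ω → ℂ, BM κ (G q0 j1) A ∧ BM κ (Oc G q0 j1) A ∧
      ∀ a : ι → Ω → ℂ, (∀ j, BM κ (G q0 j) (a j)) → (∀ j, BM κ (Oc G q0 j) (a j)) →
        ∫ ω, Cop κ (G q0 j0) (G q j0) ρ ρ' (a j0) ω * a1 ω *
            pr a ((univ.erase j0).erase j1) ω ∂κ =
          ∫ ω, a j0 ω * A ω * pr a ((univ.erase j0).erase j1) ω ∂κ := by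
  set S := (univ.erase q0).erase q with hS
  set T := (univ.erase j0).erase j1 with hT
  have hS' : (univ.erase q).erase q0 = S := erase_right_comm
  have hrow : ∀ k, sup (G k) univ ≤ m0 := fun k => sp_le _ fun j _ => hG.le k j
  have hcol : ∀ j, sup (fun k => G k j) univ ≤ m0 := fun j => sp_le _ fun k _ => hG.le k j
  have hZ : ∀ j, sup (fun k => G k j) S ≤ sup (fun k => sup (G k) univ) S := fun j =>
    sp_le _ fun k hk => (le_sp (G k) (mem_univ j)).trans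
      (le_sp (fun k => sup (G k) univ) hk)
  have hC : ∀ j, sup (fun k => G k j) S ≤ sup (fun k => G k j) univ := fun j =>
    sp_le _ fun k _ => le_sp (fun k => G k j) (mem_univ k)
  have hJ : sup (fun j => sup (fun k => G k j) S) T ≤
      sup (fun j => sup (fun k => G k j) univ) T := sp_le _ fun j hj =>
    (hC j).trans (le_sp (fun j => sup (fun k => G k j) univ) hj)
  have o1 : ∀ j, Oc G q j = G q0 j ⊔ sup (fun k => G k j) S := fun j => sp_erase _ hq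
  have o2 : ∀ j, Oc G q0 j = G q j ⊔ sup (fun k => G k j) S := fun j =>
    hS' ▸ sp_erase (fun k => G k j) hq.symm
  have i0 := hG.rows {q0} S (by simp [hS]) ⟨q, by simp [hq], by simp [hS]⟩
  have iq := hG.rows {q} S (by simp [hS]) ⟨q0, by simp [hq.symm], by simp [hS]⟩
  have k0 := hG.cols {j0} T (by simp [hT]) ⟨j1, by simp [hj], by simp [hT]⟩
  have k1 := hG.cols {j1} T (by simp [hT]) ⟨j0, by simp [hj.symm], by simp [hT]⟩
  rw [sp_one] at i0 iq k0 k1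
  obtain ⟨A, hA, e⟩ := multA (c0 := G q0 j0) (d0 := G q j0) (d1 := G q j1) (hrow q0) (hrow q)
    (sp_le _ fun k _ => hrow k) (hcol j0) (hcol j1) (le_sp _ (mem_univ _))
    (le_sp _ (mem_univ _)) (le_sp _ (mem_univ _)) (le_sp _ (mem_univ _)) (hZ j0) (hZ j1)
    (sp_le (fun j => sup (fun k => G k j) S) (S := T) fun j _ => hZ j)
    (sup_le (le_sp (fun k => G k j0) (mem_univ q)) (hC j0))
    (le_sp (fun k => G k j1) (mem_univ q))
    (sup_le (le_sp (fun k => G k j1) (mem_univ q0)) (hC j1)) i0 iq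
    (indep_of_indep_of_le_right k0 hJ) (indep_of_indep_of_le_right k1 hJ)
    (fun w hw => o1 j0 ▸ (hG.fr q).f2 j0 w hw) (fun w hw => o1 j1 ▸ (hG.fr q).f2 j1 w hw)
    hρ hρ' ha (o2 j1 ▸ ha')
  refine ⟨κ[A | Oc G q0 j1], (hG.fr q0).f2 j1 A hA, cond hA _, fun a h1 h2 => ?_⟩
  have e1 := e (pr a T) (a j0)
    (K.prod T a fun j _ => K.mono (h1 j) (le_sp _ (mem_univ j)))
    (K.prod T a fun j hj => K.mono (h2 j) (o2 j ▸ sup_le_sup (le_sp _ (mem_univ j))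
      (le_sp (fun j => sup (fun k => G k j) S) hj))) (h1 j0) (o2 j0 ▸ h2 j0)
  have e2 := (hG.fr q0).f3 (Function.update a j1 A) (fun k => by
    by_cases c : k = j1
    · subst c
      simpa using hA
    · simpa [c] using h1 k) j0 j1
  have u0 : Function.update a j1 A j0 = a j0 := Function.update_of_ne hj.symm _ _
  have uT : ∀ x, ∏ k ∈ T, Function.update a j1 A k x = pr a T x := fun x =>
    prod_congr rfl fun k hk => by rw [Function.update_of_ne (ne_of_mem_erase hk)]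
  have p0 : ∀ x, pr (Function.update a j1 A) (univ.erase j0) x = A x * pr a T x := fun x => by
    rw [pr, ← mul_prod_erase _ _ (show j1 ∈ univ.erase j0 by simp [hj]), Function.update_self,
      uT]
  have p1 : ∀ x, pr (Function.update a j1 A) (univ.erase j1) x = a j0 x * pr a T x := fun x => by
    rw [pr, ← mul_prod_erase _ _ (show j0 ∈ univ.erase j1 by simp [hj.symm]), u0,
      erase_right_comm, uT]
  simp only [p0, p1, u0, Function.update_self] at e2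
  rw [icongr (K.self ((hG.fr q0).le j0) (h2 j0))] at e2
  rw [e1]
  exact (iring fun x => mul_assoc _ _ _).trans (e2.trans (iring fun x => by ring))

end mult

theorem HGrid.gd_CG (h : HGrid κ G) {q0 j0 q : ι} (hq : q ≠ q0) {ρ ρ' : ι → Ω → ℂ}
    (hρ : ∀ k, BM κ (G k j0) (ρ k)) (hρ' : ∀ k, BM κ (G k j0) (ρ' k)) {a : Ω → ℂ}
    (ha : BM κ m0 a) : Gd κ G q0 j0 (CG κ G q0 j0 q ρ ρ' a) := by
  have h1 : BM κ m0 (pr ρ ((univ.erase q0).erase q)) := BM.pr fun k _ => (hρ k).mono (h.le k j0)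
  have h2 : BM κ m0 (pr ρ' ((univ.erase q0).erase q)) := BM.pr fun k _ => (hρ' k).mono (h.le k j0)
  refine ⟨Cop_bm _ _ (h.le q j0) h1 h2 ha, ?_⟩
  refine dual_bm (h.le q0 j0) (h.oc_le q0 j0) ((h.fr q0).f2 j0) (BM.mul ?_ ?_)
  · exact (BM.pr_sup (p := fun k => G k j0) fun k _ => hρ' k).mono
      (sup_mono' _ (erase_subset _ _))
  · exact ((ha.mul h1).ce (G q j0)).mono
      (le_sup' (fun k => G k j0) (mem_erase.2 ⟨hq, mem_univ q⟩))

theorem HGrid.mult (h : HGrid κ G) {q0 j0 q j1 : ι} (hq : q ≠ q0) (hj : j1 ≠ j0)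
    {ρ ρ' : ι → Ω → ℂ} (hρ : ∀ k, BM κ (G k j0) (ρ k)) (hρ' : ∀ k, BM κ (G k j0) (ρ' k))
    {a1 : Ω → ℂ} (ha1 : Gd κ G q0 j1 a1) :
    ∃ A, Gd κ G q0 j1 A ∧ ∀ (x : Ω → ℂ) (a : ι → Ω → ℂ), Gd κ G q0 j0 x →
      (∀ j, Gd κ G q0 j (a j)) → a j1 = a1 →
      ∫ ω, CG κ G q0 j0 q ρ ρ' x ω * pr a (univ.erase j0) ω ∂κ =
        ∫ ω, x ω * pr (Function.update a j1 A) (univ.erase j0) ω ∂κ := by
  obtain ⟨A, h1, h2, h3⟩ := h.mult0 hq hj
    (BM.pr_sup (p := fun k => G k j0) fun k _ => hρ k)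
    (BM.pr_sup (p := fun k => G k j0) fun k _ => hρ' k) ha1.1 ha1.2
  refine ⟨A, ⟨h1, h2⟩, fun x a hx ha e => ?_⟩
  have h4 := h3 (Function.update a j0 x) (fun j => (gd_update ha hx j).1)
    (fun j => (gd_update ha hx j).2)
  rw [Function.update_self, pr_update _ (by simp)] at h4
  simp only [pr_erase _ (mem_erase.2 ⟨hj, mem_univ j1⟩), Function.update_self, e, ← mul_assoc]
  rw [pr_update _ (by simp)]
  exact h4

/-- the column projection keeps the functions orthogonal to the row -/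
theorem HGrid.qc_perp (h : HGrid κ G) (hc : 3 ≤ Fintype.card ι) {q0 j0 : ι} {y : Ω → ℂ}
    (hy : BM κ (G q0 j0) y) (hp : Perp κ (Orow G q0 j0) y) :
    Perp κ (Orow G q0 j0) (κ[y | Oc G q0 j0]) := by
  obtain ⟨j1, hj1, -⟩ := exists_third hc j0 j0
  refine perp_pr (h.le q0) ((hy.ce _).mono (h.oc_le q0 j0)) fun a ha => ?_
  simp only [pr_erase a (mem_erase.2 ⟨hj1, mem_univ j1⟩)]
  rw [(h.fr q0).move hj1 hy (ha j1) ha]
  refine hp _ (BM.mul ?_ ?_)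
  · exact ((h.fr q0).f2 j1 _ (ha j1)).mono (le_sup' (G q0) (mem_erase.2 ⟨hj1, mem_univ j1⟩))
  · exact (BM.pr_sup (p := G q0) fun k _ => ha k).mono (sup_mono' _ (erase_subset _ _))

omit [Fintype ι] [DecidableEq ι] [IsProbabilityMeasure κ] in
theorem perp_conj {m : MeasurableSpace Ω} {y : Ω → ℂ} (hp : Perp κ m y) :
    Perp κ m fun ω => (starRingEnd ℂ) (y ω) := fun c hc => by
  have := congrArg (starRingEnd ℂ) (hp _ hc.conj)
  rw [← @integral_conj Ω m0 κ ℂ _ _] at this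
  simpa using this

omit [Fintype ι] [DecidableEq ι] in
/-- a function that kills the orthogonal complement of `O` in `A` is `O`-measurable -/
theorem bm_of_kill {A O : MeasurableSpace Ω} (hA : A ≤ m0) (hO : O ≤ m0) {z : Ω → ℂ}
    (hz : BM κ A z) (h : ∫ ω, z ω * (starRingEnd ℂ) (z ω - (κ[z | O]) ω) ∂κ = 0) : BM κ O z := by
  have h0 := hz.mono hA
  have h1 : BM κ m0 fun ω => z ω - (κ[z | O]) ω := h0.sub ((hz.ce O).mono hO)
  have h2 := perp_conj (perp_sub_ce hO h0) _ (hz.ce O)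
  refine (hz.ce O).congr ?_
  have h3 := eq_zero_of_int_conj h1 (by
    rw [int_sub_mul h0 ((hz.ce O).mono hO) h1.conj, h, zero_sub, neg_eq_zero, ← h2]
    exact integral_congr_ae (Eventually.of_forall fun ω => mul_comm _ _))
  filter_upwards [h3] with ω hω
  exact (sub_eq_zero.1 hω).symm

/-- the column projection keeps the functions determined by the row -/
theorem HGrid.qc_row (h : HGrid κ G) (hc : 3 ≤ Fintype.card ι) {q0 j0 : ι} {x : Ω → ℂ}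
    (hx : BM κ (G q0 j0) x) (hx' : BM κ (Orow G q0 j0) x) :
    BM κ (Orow G q0 j0) (κ[x | Oc G q0 j0]) := by
  have hle := h.le q0 j0
  have hz := (h.fr q0).f2 j0 x hx
  have hy := (hz.sub (h.f2c q0 j0 _ hz)).conj
  refine bm_of_kill hle (h.or_le q0 j0) hz ?_
  rw [int_ce_symm (h.oc_le q0 j0) (hx.mono hle) (hy.mono hle),
    ← h.qc_perp hc hy (perp_conj (perp_sub_ce (h.or_le q0 j0) (hz.mono hle))) x hx']
  exact integral_congr_ae (Eventually.of_forall fun ω => mul_comm _ _)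

/-- the row projection keeps the functions determined by the column -/
theorem HGrid.qr_gd (h : HGrid κ G) (hc : 3 ≤ Fintype.card ι) {q0 j0 : ι} {z : Ω → ℂ}
    (hz : Gd κ G q0 j0 z) : Gd κ G q0 j0 (κ[z | Orow G q0 j0]) := by
  have hle := h.le q0 j0
  have hO := h.or_le q0 j0
  have hC := h.oc_le q0 j0
  have hx := h.f2c q0 j0 z hz.1
  have hx' := hz.1.ce (Orow G q0 j0)
  have h1 := h.qc_row hc hx hx'
  have hy := hz.1.sub hx
  have h2 := h.qc_perp hc hy (perp_sub_ce hO (hz.1.mono hle))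
  refine ⟨hx, (hx.ce (Oc G q0 j0)).congr (ae_eq_of_tests hO h1 hx' fun c hc' => ?_)⟩
  have e1 := h2 c hc'
  have e2 : ∫ ω, (κ[fun ω => z ω - (κ[z | Orow G q0 j0]) ω | Oc G q0 j0]) ω * c ω ∂κ =
      ∫ ω, (z ω - (κ[κ[z | Orow G q0 j0] | Oc G q0 j0]) ω) * c ω ∂κ := by
    refine integral_congr_ae ?_
    filter_upwards [ce_sub (hz.1.mono hle) (hx.mono hle) (Oc G q0 j0), hz.2.ce_self hC]
      with ω a1 a2
    rw [a1, a2]
  rw [e2, int_sub_mul (hz.1.mono hle) (h1.mono hO) (hc'.mono hO), sub_eq_zero] at e1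
  rw [← e1, int_ce_mul hO (hz.1.mono hle) hc']

theorem HGrid.cg_perp (h : HGrid κ G) (hc : 3 ≤ Fintype.card ι) {q0 j0 q : ι} (hq : q ≠ q0)
    {ρ ρ' : ι → Ω → ℂ} (hρ : ∀ k, BM κ (G k j0) (ρ k)) (hρ' : ∀ k, BM κ (G k j0) (ρ' k))
    {y : Ω → ℂ} (hy : Gd κ G q0 j0 y) (hp : Perp κ (Orow G q0 j0) y) :
    Perp κ (Orow G q0 j0) (CG κ G q0 j0 q ρ ρ' y) := by
  obtain ⟨j1, hj1, -⟩ := exists_third hc j0 j0
  have hle := h.le q0 j0
  have g1 := h.gd_CG hq hρ hρ' (hy.1.mono hle)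
  refine perp_pr (h.le q0) (g1.1.mono hle) fun a ha => ?_
  rw [(h.fr q0).all g1.1 g1.2 ha]
  set b : ι → Ω → ℂ := fun k => κ[a k | Oc G q0 k] with hb
  have gb : ∀ k, Gd κ G q0 k (b k) := fun k => ⟨(h.fr q0).f2 k _ (ha k), (ha k).ce _⟩
  obtain ⟨A, hA, eA⟩ := h.mult hq hj1 hρ hρ' (gb j1)
  rw [eA y b hy gb rfl]
  exact hp _ (BM.pr_sup (p := G q0) fun k _ => (gd_update gb hA k).1)

/-- the operators at the corner keep the functions determined by row and column -/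
theorem HGrid.cg_row (h : HGrid κ G) (hc : 3 ≤ Fintype.card ι) {q0 j0 q : ι} (hq : q ≠ q0)
    {ρ ρ' : ι → Ω → ℂ} (hρ : ∀ k, BM κ (G k j0) (ρ k)) (hρ' : ∀ k, BM κ (G k j0) (ρ' k))
    {v : Ω → ℂ} (hv : BM κ (G q0 j0) v) (hv' : BM κ (Orow G q0 j0) v) :
    BM κ (Orow G q0 j0) (CG κ G q0 j0 q ρ ρ' v) := by
  have hle := h.le q0 j0
  have hO := h.or_le q0 j0
  have hz := h.gd_CG hq hρ hρ' (hv.mono hle)
  have hx := h.qr_gd hc hz
  have hy : Gd κ G q0 j0 fun ω => (starRingEnd ℂ) (CG κ G q0 j0 q ρ ρ' v ω -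
      (κ[CG κ G q0 j0 q ρ ρ' v | Orow G q0 j0]) ω) :=
    ⟨(hz.1.sub hx.1).conj, (hz.2.sub hx.2).conj⟩
  refine bm_of_kill hle hO hz.1 ?_
  refine (Cop_symm hle (h.le q j0)
    (BM.pr (S := (univ.erase q0).erase q) fun k _ => (hρ k).mono (h.le k j0))
    (BM.pr (S := (univ.erase q0).erase q) fun k _ => (hρ' k).mono (h.le k j0)) hv hy.1).trans ?_
  exact h.cg_perp hc hq hρ' hρ hy (perp_conj (perp_sub_ce hO (hz.1.mono hle))) v hv'

theorem HGrid.comm (h : HGrid κ G) (hc : 3 ≤ Fintype.card ι) {q0 j0 q q' : ι}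
    (hq : q ≠ q0) (hq' : q' ≠ q0) {ρ ρ' τ τ' : ι → Ω → ℂ} (hρ : ∀ k, BM κ (G k j0) (ρ k))
    (hρ' : ∀ k, BM κ (G k j0) (ρ' k)) (hτ : ∀ k, BM κ (G k j0) (τ k))
    (hτ' : ∀ k, BM κ (G k j0) (τ' k)) {c : Ω → ℂ} (hc1 : Gd κ G q0 j0 c)
    (hc2 : BM κ (Orow G q0 j0) c) :
    CG κ G q0 j0 q ρ ρ' (CG κ G q0 j0 q' τ τ' c) =ᵐ[κ]
      CG κ G q0 j0 q' τ τ' (CG κ G q0 j0 q ρ ρ' c) := by
  obtain ⟨j1, hj1, -⟩ := exists_third hc j0 j0
  obtain ⟨j2, hj2, hj12⟩ := exists_third hc j0 j1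
  have hle := h.le q0 j0
  have g1 := h.gd_CG hq hρ hρ' (hc1.1.mono hle)
  have g2 := h.gd_CG hq' hτ hτ' (hc1.1.mono hle)
  have g3 := h.gd_CG hq hρ hρ' (g2.1.mono hle)
  have g4 := h.gd_CG hq' hτ hτ' (g1.1.mono hle)
  have r1 := h.cg_row hc hq hρ hρ' hc1.1 hc2
  have r2 := h.cg_row hc hq' hτ hτ' hc1.1 hc2
  have r3 := h.cg_row hc hq hρ hρ' g2.1 r2
  have r4 := h.cg_row hc hq' hτ hτ' g1.1 r1
  have hp : Perp κ (Orow G q0 j0) (fun ω => CG κ G q0 j0 q ρ ρ' (CG κ G q0 j0 q' τ τ' c) ω -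
      CG κ G q0 j0 q' τ τ' (CG κ G q0 j0 q ρ ρ' c) ω) := by
    refine perp_pr (h.le q0) ((g3.1.sub g4.1).mono hle) fun a ha => ?_
    rw [(h.fr q0).all (g3.1.sub g4.1) (g3.2.sub g4.2) ha]
    set b : ι → Ω → ℂ := fun k => κ[a k | Oc G q0 k] with hb
    have gb : ∀ k, Gd κ G q0 k (b k) := fun k => ⟨(h.fr q0).f2 k _ (ha k), (ha k).ce _⟩
    obtain ⟨A, hA, eA⟩ := h.mult hq hj1 hρ hρ' (gb j1)
    obtain ⟨B, hB, eB⟩ := h.mult hq' hj2 hτ hτ' (gb j2)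
    rw [int_sub_mul (g3.1.mono hle) (g4.1.mono hle) (BM.pr fun k _ => (gb k).1.mono (h.le q0 k)),
      eA _ b g2 gb rfl, eB _ _ hc1 (gd_update gb hA) (Function.update_of_ne hj12 _ _),
      eB _ b g1 gb rfl, eA _ _ hc1 (gd_update gb hB) (Function.update_of_ne hj12.symm _ _),
      Function.update_comm hj12, sub_self]
  filter_upwards [hp.eq_zero (h.or_le q0 j0) (r3.sub r4)] with ω hω
  exact sub_eq_zero.1 hω

/-- transfer of a member of a tuple to another point of the line -/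
theorem tup_move {p : ι → MeasurableSpace Ω} {χ : ι → Ω → ℂ} (hχ : Tup κ p χ)
    (hle : ∀ j, p j ≤ m0) (hI : LInd κ p) {i q : ι} (hq : q ≠ i) {ρ : ι → Ω → ℂ}
    (hρ : ∀ k, BM κ (p k) (ρ k)) : ∃ lam : ℂ,
      κ[fun ω => χ i ω * pr ρ ((univ.erase i).erase q) ω | p q] =ᵐ[κ]
        fun ω => lam * (starRingEnd ℂ) (χ q ω) := by
  obtain ⟨γ, hγ⟩ := hχ.ident
  have hS : sup p ((univ.erase i).erase q) ≤ m0 := sup_le' fun k _ => hle k
  have h1 : BM κ (sup p ((univ.erase i).erase q)) fun ω =>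
      γ * (starRingEnd ℂ) (pr χ ((univ.erase i).erase q) ω) * pr ρ ((univ.erase i).erase q) ω :=
    ((BM.pr_sup fun k _ => hχ.bm k).conj.cmul γ).mul (BM.pr_sup fun k _ => hρ k)
  have hI1 : Indep (sup p ((univ.erase i).erase q)) (p q) κ := by
    rw [erase_right_comm]; exact (hI.one hq.symm).symm
  refine ⟨∫ ω, γ * (starRingEnd ℂ) (pr χ ((univ.erase i).erase q) ω) *
    pr ρ ((univ.erase i).erase q) ω ∂κ, ?_⟩
  have e : (fun ω => χ i ω * pr ρ ((univ.erase i).erase q) ω) =ᵐ[κ] fun ω =>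
      γ * (starRingEnd ℂ) (pr χ ((univ.erase i).erase q) ω) * pr ρ ((univ.erase i).erase q) ω *
        (starRingEnd ℂ) (χ q ω) := by
    filter_upwards [hγ] with ω hω
    rw [← hω.2.2.2.2.2 i q hq]
    linear_combination (-(χ i ω * pr ρ ((univ.erase i).erase q) ω)) * mul_conj_uni (hω.2.1 q)
  filter_upwards [condExp_congr_ae (m := p q) e,
    ce_mul' (hle q) (h1.mono hS) (hχ.bm q).conj, ce_indep hS (hle q) hI1 h1] with ω a1 a2 a3
  rw [a1, a2, a3]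

omit [DecidableEq ι] [IsProbabilityMeasure κ] in
theorem tup_conj {p : ι → MeasurableSpace Ω} {χ : ι → Ω → ℂ} (hχ : Tup κ p χ) :
    Tup κ p fun j ω => (starRingEnd ℂ) (χ j ω) := by
  have h1 : Tup κ p fun _ _ => (1 : ℂ) :=
    ⟨fun _ => aestronglyMeasurable_const, fun _ => Eventually.of_forall fun _ => norm_one,
      1, Eventually.of_forall fun _ => by simp⟩
  simpa only [one_mul] using h1.mul_conj hχ

/-- members of tuples are eigenvectors -/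
theorem tup_eig {p : ι → MeasurableSpace Ω} {χ : ι → Ω → ℂ} (hχ : Tup κ p χ)
    (hle : ∀ j, p j ≤ m0) (hI : LInd κ p) {i q : ι} (hq : q ≠ i) {ρ ρ' : ι → Ω → ℂ}
    (hρ : ∀ k, BM κ (p k) (ρ k)) (hρ' : ∀ k, BM κ (p k) (ρ' k)) : ∃ lam : ℂ,
      Cop κ (p i) (p q) (pr ρ ((univ.erase i).erase q)) (pr ρ' ((univ.erase i).erase q)) (χ i)
        =ᵐ[κ] fun ω => lam * χ i ω := by
  obtain ⟨l1, e1⟩ := tup_move hχ hle hI hq hρ
  obtain ⟨l2, e2⟩ := tup_move (tup_conj hχ) hle hI hq.symm hρ'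
  rw [erase_right_comm] at e2
  have hb : BM κ m0 fun ω => (starRingEnd ℂ) (χ q ω) * pr ρ' ((univ.erase i).erase q) ω :=
    ((hχ.bm q).conj.mono (hle q)).mul (BM.pr fun k _ => (hρ' k).mono (hle k))
  refine ⟨l1 * l2, ?_⟩
  have e3 : (fun ω => pr ρ' ((univ.erase i).erase q) ω *
      (κ[fun ω => χ i ω * pr ρ ((univ.erase i).erase q) ω | p q]) ω) =ᵐ[κ]
      fun ω => l1 * ((starRingEnd ℂ) (χ q ω) * pr ρ' ((univ.erase i).erase q) ω) := by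
    filter_upwards [e1] with ω a1
    rw [a1]; ring
  unfold Cop
  filter_upwards [condExp_congr_ae (m := p i) e3, ce_cmul (hle i) l1 hb, e2] with ω a1 a2 a3
  rw [a1, a2, a3, Complex.conj_conj, mul_assoc]

section eig

open Eig

omit [Fintype ι] [DecidableEq ι] in
/-- EIG with orthogonality conditions in place of the mean -/
theorem eig2 {T S N : Type} {m : MeasurableSpace Ω} (m' : T → MeasurableSpace Ω)
    (o : S → MeasurableSpace Ω) (w : N → Ω → ℂ) (ρ ρ' : T → Ω → ℂ) (U : (Ω → ℂ) → Prop)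
    (hm : m ≤ m0) (hm' : ∀ τ, m' τ ≤ m0) (ho : ∀ σ, o σ ≤ m0) (hI : ∀ τ, Indep m (m' τ) κ)
    (hρ : ∀ τ, BM κ m0 (ρ τ)) (hρ' : ∀ τ, BM κ m0 (ρ' τ)) (hw : ∀ n, BM κ m0 (w n))
    (hU : ∀ a, U a ↔ BM κ m a ∧ (∀ n, ∫ ω, a ω * w n ω ∂κ = 0) ∧ ∀ σ, BM κ (o σ) a)
    (h1 : ∀ τ a, U a → U (Cop κ m (m' τ) (ρ τ) (ρ' τ) a))
    (h2 : ∀ τ τ' a, U a →
      Cop κ m (m' τ) (ρ τ) (ρ' τ) (Cop κ m (m' τ') (ρ τ') (ρ' τ') a) =ᵐ[κ]
        Cop κ m (m' τ') (ρ τ') (ρ' τ') (Cop κ m (m' τ) (ρ τ) (ρ' τ) a))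
    (τ0 : T) (f : Ω → ℂ) (he : ∀ ω, ρ' τ0 ω = (starRingEnd ℂ) (ρ τ0 ω)) (hf : U f)
    (hf0 : ¬ (∀ᵐ ω ∂κ, (κ[fun ω => f ω * ρ τ0 ω | m' τ0]) ω = 0)) :
    ∃ v, U v ∧ ¬ (∀ᵐ ω ∂κ, v ω = 0) ∧
      ∀ τ, ∃ lam : ℂ, ∀ᵐ ω ∂κ, Cop κ m (m' τ) (ρ τ) (ρ' τ) v ω = lam * v ω := by
  have hUc : ∀ a b : Ω → ℂ, U a → a =ᵐ[κ] b → U b := fun a b ha e => by
    rw [hU] at ha ⊢
    exact ⟨K.congr ha.1 e, fun n => Mult.icongr e (w n) ▸ ha.2.1 n,
      fun σ => K.congr (ha.2.2 σ) e⟩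
  have hint : ∀ n (x : Lp ℂ 2 κ), innerSL ℂ (tl (hw n).conj) x = ∫ ω, x ω * w n ω ∂κ :=
    fun n x => by
      rw [innerSL_apply_apply, inn _ _ (tl_coe (hw n).conj) EventuallyEq.rfl]
      simp only [Complex.conj_conj, mul_comm]
  set U' : Submodule ℂ (Lp ℂ 2 κ) :=
    Bm m κ ⊓ (⨅ n, (innerSL ℂ (tl (hw n).conj)).ker) ⊓ ⨅ σ, Bm (o σ) κ with hU'
  have hUU : ∀ x : Lp ℂ 2 κ, x ∈ U' ↔ U x := fun x => by
    rw [hU, hU', Submodule.mem_inf, Submodule.mem_inf, Submodule.mem_iInf, Submodule.mem_iInf,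
      and_assoc]
    simp only [LinearMap.mem_ker, ContinuousLinearMap.coe_coe, hint]
    rfl
  have hUm : U' ≤ Bm m κ := inf_le_left.trans inf_le_left
  obtain ⟨C, hCd⟩ : ∃ C : T → Lp ℂ 2 κ →L[ℂ] Lp ℂ 2 κ,
      ∀ τ x, C τ x = Mo hm (hρ' τ) (Mo (hm' τ) (hρ τ) x) :=
    ⟨fun τ => Mo hm (hρ' τ) ∘L Mo (hm' τ) (hρ τ), fun _ _ => rfl⟩
  have hC : ∀ τ (x : Lp ℂ 2 κ) (a : Ω → ℂ), x =ᵐ[κ] a →
      C τ x =ᵐ[κ] Cop κ m (m' τ) (ρ τ) (ρ' τ) a := fun τ x a e =>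
    hCd τ x ▸ Cop_coe hm (hm' τ) (hρ τ) (hρ' τ) x e
  have hVm : ∀ x ∈ U'.topologicalClosure, AEStronglyMeasurable[m] (x : Lp ℂ 2 κ) κ := fun x hx =>
    closure_minimal (fun y hy => (hUm hy).1) (isClosed_aestronglyMeasurable hm) hx
  have hf' := K.mono ((hU f).1 hf).1 hm
  obtain ⟨v, hv, hv0, ⟨lam, hl0, hl⟩, hv1⟩ := spec C U'
    (fun τ y hy => (hUU _).2 (hUc _ _ (h1 τ y ((hUU y).1 hy)) (hC τ y y EventuallyEq.rfl).symm))
    (fun τ τ' y hy => Lp.ext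
      (((hC τ _ _ (hC τ' y y EventuallyEq.rfl)).trans (h2 τ τ' y ((hUU y).1 hy))).trans
        (hC τ' _ _ (hC τ y y EventuallyEq.rfl)).symm)) τ0 (Mo (hm' τ0) (hρ τ0)) (Mo hm (hρ' τ0))
    (hCd τ0) (fun x y hy => hCd τ0 x ▸ inn_Cop hm (hm' τ0) (hρ τ0) (hρ' τ0) he x y (hVm y hy))
    (compact hm (hm' τ0) (hI τ0) (hρ τ0) U' hUm) ((hUU _).2 (hUc _ _ hf (tl_coe hf').symm))
    fun a1 => by
      have a2 := Mo_coe (hm' τ0) (hρ τ0) (tl hf')
      rw [a1] at a2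
      refine hf0 (((condExp_congr_ae ((tl_coe hf').mono fun ω hω => ?_)).symm.trans a2.symm).trans
        (Lp.coeFn_zero _ _ _))
      simp only [hω]
  have hev : ∀ τ (a : ℂ), C τ v = a • v → C τ v =ᵐ[κ] fun ω => a * v ω := fun τ a e => by
    rw [e]
    exact Lp.coeFn_smul _ _
  have hb : BM κ m v := by
    have a1 := K.cond (K.mul (K.mono (bm_Mo hm (hm' τ0) (hI τ0) (hρ τ0) v (hVm v hv)) (hm' τ0))
      (hρ' τ0)) m
    have a2 := K.congr a1 ((Mo_coe hm (hρ' τ0) _).symm.trans (hCd τ0 v ▸ hev τ0 lam hl))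
    simpa only [inv_mul_cancel_left₀ hl0] using K.mul (K.const lam⁻¹) a2
  refine ⟨v, (hU _).2 ⟨hb, fun n => ?_, fun σ => K.of hb ?_⟩,
    fun e => hv0 (Lp.ext (EventuallyEq.trans e (Lp.coeFn_zero _ _ _).symm)),
    fun τ => (hv1 τ).imp fun a ha => (hC τ _ _ EventuallyEq.rfl).symm.trans (hev τ a ha)⟩
  · rw [← hint]
    exact closure_minimal (fun y hy => (Submodule.mem_iInf _).1 hy.1.2 n)
      (innerSL ℂ (tl (hw n).conj)).isClosed_ker hv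
  · exact closure_minimal (fun y hy => (((hU _).1 ((hUU y).1 hy)).2.2 σ).1)
      (isClosed_aestronglyMeasurable (ho σ)) hv

end eig

/-- FSPAN -/
theorem fspan (h : HGrid κ G) (hc : 3 ≤ Fintype.card ι) {q0 j0 : ι} {f : Ω → ℂ}
    (hf : BM κ (G q0 j0) f) (hfc : BM κ (Oc G q0 j0) f) (hfr : BM κ (Orow G q0 j0) f)
    (hne : ¬ ∀ᵐ ω ∂κ, f ω = 0) : ∃ χ : ι → Ω → ℂ, Tup κ (fun k => G k j0) χ ∧
      ∫ ω, f ω * (starRingEnd ℂ) (χ q0 ω) ∂κ ≠ 0 := by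
  by_contra hcon0
  push Not at hcon0
  have hle := h.le q0 j0
  have hcol : ∀ k, G k j0 ≤ m0 := fun k => h.le k j0
  have hL := (h.colLine j0).ind
  obtain ⟨q1, hq1, -⟩ := exists_third hc q0 q0
  obtain ⟨ρ1, hρ1, hne1⟩ : ∃ ρ : ι → Ω → ℂ, (∀ k, BM κ (G k j0) (ρ k)) ∧ ¬ ∀ᵐ ω ∂κ,
      (κ[fun ω => f ω * pr ρ ((univ.erase q0).erase q1) ω | G q1 j0]) ω = 0 := by
    by_contra hcon
    push Not at hcon
    have hp := perp_sup_pr (p := fun k => G k j0) (S := (univ.erase q0).erase q1) (hcol q1) hcol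
      (hf.mono hle) fun a ρ ha hρ => by
        have := perp_of_ce (hcol q1) ((hf.mono hle).mul (BM.pr fun k _ => (hρ k).mono (hcol k)))
          (hcon ρ hρ) a ha
        rw [← this]
        exact integral_congr_ae (Eventually.of_forall fun ω => by simp only; ring)
    rw [← sup_erase' (fun k => G k j0) (mem_erase.2 ⟨hq1, mem_univ q1⟩)] at hp
    exact hne (hp.eq_zero (h.oc_le q0 j0) hfc)
  let T := {τ : ι × (ι → Ω → ℂ) × (ι → Ω → ℂ) //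
    τ.1 ≠ q0 ∧ (∀ k, BM κ (G k j0) (τ.2.1 k)) ∧ ∀ k, BM κ (G k j0) (τ.2.2 k)}
  let N := {χ : ι → Ω → ℂ // Tup κ (fun k => G k j0) χ}
  let o : Bool → MeasurableSpace Ω := fun σ => if σ then Oc G q0 j0 else Orow G q0 j0
  have ho : ∀ a, (∀ σ, BM κ (o σ) a) ↔ BM κ (Oc G q0 j0) a ∧ BM κ (Orow G q0 j0) a := fun a =>
    ⟨fun x => ⟨x true, x false⟩, fun x σ => by cases σ; exacts [x.2, x.1]⟩
  obtain ⟨v, ⟨hv1, hv2, hv3⟩, hv0, hv⟩ := eig2 (T := T) (N := N) (m := G q0 j0)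
    (fun τ => G τ.1.1 j0) o (fun n => n.1 q0) (fun τ => pr τ.1.2.1 ((univ.erase q0).erase τ.1.1))
    (fun τ => pr τ.1.2.2 ((univ.erase q0).erase τ.1.1))
    (fun a => BM κ (G q0 j0) a ∧ (∀ n : N, ∫ ω, a ω * n.1 q0 ω ∂κ = 0) ∧ ∀ σ, BM κ (o σ) a) hle
    (fun τ => hcol _) (fun σ => by cases σ; exacts [h.or_le q0 j0, h.oc_le q0 j0])
    (fun τ => by
      obtain ⟨k, h1, h2⟩ := exists_third hc q0 τ.1.1
      exact hL.pair τ.2.1.symm h1 h2)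
    (fun τ => BM.pr fun k _ => (τ.2.2.1 k).mono (hcol k))
    (fun τ => BM.pr fun k _ => (τ.2.2.2 k).mono (hcol k)) (fun n => (n.2.bm q0).mono hle)
    (fun a => Iff.rfl)
    (by
      rintro ⟨⟨q, ρ, ρ'⟩, hq, hρ, hρ'⟩ a ⟨h1, h2, h3⟩
      have g := h.gd_CG hq hρ hρ' (h1.mono hle)
      refine ⟨g.1, fun n => ?_, (ho _).2 ⟨g.2, h.cg_row hc hq hρ hρ' h1 ((ho _).1 h3).2⟩⟩
      obtain ⟨lam, e⟩ := tup_eig n.2 hcol hL hq hρ' hρ
      refine (Cop_symm hle (hcol q) (BM.pr fun k _ => (hρ k).mono (hcol k))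
        (BM.pr fun k _ => (hρ' k).mono (hcol k)) h1 (n.2.bm q0)).trans ?_
      rw [Mult.icongr e a]
      have : ∫ ω, lam * n.1 q0 ω * a ω ∂κ = lam * ∫ ω, a ω * n.1 q0 ω ∂κ := by
        rw [← integral_const_mul]
        exact Mult.iring fun ω => by ring
      rw [this, h2 n, mul_zero])
    (by
      rintro ⟨⟨q, ρ, ρ'⟩, hq, hρ, hρ'⟩ ⟨⟨q', τ, τ'⟩, hq', hτ, hτ'⟩ a ⟨h1, -, h3⟩
      exact h.comm hc hq hq' hρ hρ' hτ hτ' ⟨h1, ((ho _).1 h3).1⟩ ((ho _).1 h3).2)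
    ⟨(q1, ρ1, fun k ω => (starRingEnd ℂ) (ρ1 k ω)), hq1, hρ1, fun k => (hρ1 k).conj⟩ f
    (fun ω => pr_conj _ _ ω)
    ⟨hf, fun n => by simpa only [Complex.conj_conj] using hcon0 _ (tup_conj n.2),
      (ho _).2 ⟨hfc, hfr⟩⟩ hne1
  obtain ⟨t, ht, χ, hχ, e⟩ := rank1 Ω m0 κ ι _ (h.colLine j0) hc q0 v hv1 ((ho _).1 hv3).1 hv0
    (fun q hq ρ ρ' hρ hρ' => hv ⟨(q, ρ, ρ'), hq, hρ, hρ'⟩)
  have e2 := hv2 ⟨_, tup_conj hχ⟩
  simp only [e, map_mul] at e2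
  refine hv0 (eq_zero_of_int_conj (hv1.mono hle) ?_)
  have e3 : ∫ ω, v ω * ((starRingEnd ℂ) t * (starRingEnd ℂ) (v ω)) ∂κ =
      (starRingEnd ℂ) t * ∫ ω, v ω * (starRingEnd ℂ) (v ω) ∂κ := by
    rw [← integral_const_mul]
    exact Mult.iring fun ω => by ring
  rw [e3] at e2
  exact (mul_eq_zero.1 e2).resolve_left (by simpa using ht)

end T3F
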