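import Pool.Agent.MP_154433_an.t3.SpecG

/-! Row GMix: domination of two slots with the same label, and of coincidences of types. -/

set_option autoImplicit false
set_option linter.unusedVariables false
set_option warn.classDefReducibility false

open MeasureTheory ProbabilityTheory Filter Topology Function Finset ComplexConjugate
open scoped BigOperators
open Fib27 (BM sup pr Oc Orow F23 LInd Mem)

noncomputable section

namespace T3x

namespace GMixx

theorem av_const (ν : Wt) (M : ℕ) (a : ℝ) : ν.av M (fun _ => a) = a := by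
  rw [Wt.av, ← Finset.sum_smul, ν.one, one_smul]

theorem av2_one (ν : Wt) (M : ℕ) (b : Bool) (φ : ℤ → ℝ) :
    ν.av2 M (fun l => φ (if b then l.2.1 else l.2.2)) = ν.av M φ := by
  cases b <;> simp [Wt.av2, av_const]

theorem ce_ind (X : Sys) (D : MeasurableSpace X.X) {A : Set X.X} (hA : MeasurableSet[X.ms] A) :
    X.μ[A.indicator fun _ => (1 : ℂ) | D] =ᵐ[X.μ]
      fun x => (((X.μ[A.indicator fun _ => (1 : ℝ) | D]) x : ℝ) : ℂ) := by
  have hi : Integrable (A.indicator fun _ => (1 : ℝ)) X.μ := (integrable_const _).indicator hA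
  have h := Complex.ofRealCLM.comp_condExp_comm (m := D) hi
  have e : (Complex.ofRealCLM ∘ A.indicator fun _ => (1 : ℝ)) = A.indicator fun _ => (1 : ℂ) := by
    funext x
    by_cases hx : x ∈ A <;> simp [hx]
  rw [e] at h
  exact h.symm

/-- coincidence of types on a finite set of indices -/
def Dk {Ω Y κ : Type} (a1 a2 : Ω → Y) (t t' : Y → κ → Prop) (A A' : Set Y) (K : Finset κ) :
    Set Ω := {x | a1 x ∈ A ∧ a2 x ∈ A' ∧ ∀ i ∈ K, (t (a1 x) i ↔ t' (a2 x) i)}

theorem dk_meas {Ω Y κ : Type} [MeasurableSpace Ω] [MeasurableSpace Y] {a1 a2 : Ω → Y}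
    {t t' : Y → κ → Prop} {A A' : Set Y} (K : Finset κ) (h1 : Measurable a1) (h2 : Measurable a2)
    (ht : ∀ i, MeasurableSet {y | t y i}) (ht' : ∀ i, MeasurableSet {y | t' y i})
    (hA : MeasurableSet A) (hA' : MeasurableSet A') : MeasurableSet (Dk a1 a2 t t' A A' K) := by
  have e : Dk a1 a2 t t' A A' K = a1 ⁻¹' A ∩ (a2 ⁻¹' A' ∩
      ⋂ i ∈ (K : Set κ), {x | a1 x ∈ {y | t y i} ↔ a2 x ∈ {y | t' y i}}) := by
    ext x
    simp [Dk]
  rw [e]
  exact (h1 hA).inter ((h2 hA').inter (MeasurableSet.biInter K.countable_toSet fun i _ =>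
    MeasurableSet.iff (h1 (ht i)) (h2 (ht' i))))

theorem dk_insert {Ω Y κ : Type} [MeasurableSpace Ω] [MeasurableSpace Y] [DecidableEq κ]
    (μ : Measure Ω) [IsProbabilityMeasure μ] {a1 a2 : Ω → Y}
    {t t' : Y → κ → Prop} {A A' : Set Y} (K : Finset κ) (i : κ) (h1 : Measurable a1)
    (h2 : Measurable a2) (ht : ∀ i, MeasurableSet {y | t y i})
    (ht' : ∀ i, MeasurableSet {y | t' y i}) (hA : MeasurableSet A) (hA' : MeasurableSet A') :
    μ.real (Dk a1 a2 t t' A A' (insert i K)) =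
      μ.real (Dk a1 a2 t t' (A ∩ {y | t y i}) (A' ∩ {y | t' y i}) K) +
        μ.real (Dk a1 a2 t t' (A ∩ {y | t y i}ᶜ) (A' ∩ {y | t' y i}ᶜ) K) := by
  rw [← measureReal_union _ (dk_meas K h1 h2 ht ht' (hA.inter (ht i).compl)
    (hA'.inter (ht' i).compl))]
  · refine congrArg _ (Set.ext fun x => ?_)
    simp only [Dk, Set.mem_union, Set.mem_ofPred_eq, Set.mem_inter_iff, Set.mem_compl_iff,
      Finset.forall_mem_insert]
    tauto
  · exact Set.disjoint_left.2 fun x hx hx' => hx'.1.2 hx.1.2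

end GMixx

open GMixx in
theorem xMixL : MixL := by
  intro f ν U X L s s' hU erg hne hs A A' hA hA'
  have hr : s'.1 - s.1 ≠ 0 := fun h => hne (Prod.ext (sub_eq_zero.1 h).symm hs)
  obtain ⟨a, ha, hle⟩ := (f.mix ν erg).dom X (s'.1 - s.1) A A' hr hA hA'
  have m1 : ∀ l, MeasurableSet (X.Tz (rho s l) ⁻¹' A) := fun l => (f.t.mp X _).measurable hA
  have m2 : ∀ l, MeasurableSet (X.Tz (rho s' l) ⁻¹' A') := fun l => (f.t.mp X _).measurable hA'
  have hl := f.lc.hs_lim L _ fun l => (m1 l).inter (m2 l)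
  rw [f.lc.hs_inter L _ _ m1 m2,
    measureReal_congr ((f.lc.hs_slot L s A hA).inter (f.lc.hs_slot L s' A' hA'))] at hl
  have e : ∀ l : Lab, X.μ.real (X.Tz (rho s l) ⁻¹' A ∩ X.Tz (rho s' l) ⁻¹' A') =
      X.μ.real (A ∩ X.Tz ((s'.1 - s.1) * (if s.2 then l.2.1 else l.2.2)) ⁻¹' A') := fun l => by
    rw [← (f.t.mp X (rho s l)).measureReal_preimage
      (hA.inter ((f.t.mp X _).measurable hA')).nullMeasurableSet]
    refine congrArg _ (Set.ext fun x => ?_)
    have e1 : rho s' l = (s'.1 - s.1) * (if s.2 then l.2.1 else l.2.2) + rho s l := by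
      rw [rho, rho, ← hs]
      ring
    simp only [Set.mem_inter_iff, Set.mem_preimage]
    rw [e1, f.t.add]
  simp only [e] at hl
  simp only [av2_one ν _ s.2 fun d => X.μ.real (A ∩ X.Tz ((s'.1 - s.1) * d) ⁻¹' A')] at hl
  rw [tendsto_nhds_unique hl (ha.mono_left hU)]
  refine hle.trans (le_of_eq (congrArg _ ?_))
  rw [integral_congr_ae (g := fun x => (((X.μ[A.indicator fun _ => (1 : ℝ) | Inv X]) x *
    (X.μ[A'.indicator fun _ => (1 : ℝ) | Inv X]) x : ℝ) : ℂ)), integral_complex_ofReal,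
    Complex.ofReal_re]
  filter_upwards [ce_ind X (Inv X) hA, ce_ind X (Inv X) hA'] with x e1 e2
  rw [e1, e2, Complex.ofReal_mul]

open GMixx in
theorem xDom : DomS := by
  intro Ω Ω' Y κ _ _ _ _ μ μ' _ _ a1 a2 b1 b2 r t t' S h1 h2 h3 h4 ht ht' hS hd h0
  classical
  have key : ∀ (K : Finset κ) (A A' : Set Y), MeasurableSet A → MeasurableSet A' →
      μ.real (Dk a1 a2 t t' A A' K) ≤ r * μ'.real (Dk b1 b2 t t' A A' K) := by
    intro K
    induction K using Finset.induction_on with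
    | empty =>
      intro A A' hA hA'
      simpa [Dk, Set.inter_def] using hd A A' hA hA'
    | insert i K hi ih =>
      intro A A' hA hA'
      rw [dk_insert μ K i h1 h2 ht ht' hA hA', dk_insert μ' K i h3 h4 ht ht' hA hA', mul_add]
      exact add_le_add (ih _ _ (hA.inter (ht i)) (hA'.inter (ht' i)))
        (ih _ _ (hA.inter (ht i).compl) (hA'.inter (ht' i).compl))
  have hl := tendsto_measure_iInter_atTop (μ := μ') (s := Dk b1 b2 t t' S Set.univ)
    (fun K => (dk_meas K h3 h4 ht ht' hS MeasurableSet.univ).nullMeasurableSet)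
    (fun K K' h x hx => ⟨hx.1, hx.2.1, fun i hi => hx.2.2 i (h hi)⟩) ⟨∅, measure_ne_top _ _⟩
  have e : (⋂ K, Dk b1 b2 t t' S Set.univ K) = {x | b1 x ∈ S ∧ t (b1 x) = t' (b2 x)} := by
    ext x
    simp only [Set.mem_iInter]
    refine ⟨fun h => ⟨(h ∅).1, funext fun i => propext ((h {i}).2.2 i (mem_singleton_self i))⟩,
      fun h K => ⟨h.1, trivial, fun i _ => by rw [h.2]⟩⟩
  rw [e, h0] at hl
  have hl' := ((ENNReal.tendsto_toReal ENNReal.zero_ne_top).comp hl).const_mul r
  rw [ENNReal.toReal_zero, mul_zero] at hl'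
  refine (measureReal_eq_zero_iff (measure_ne_top _ _)).1
    (le_antisymm (ge_of_tendsto' hl' fun K => ?_) measureReal_nonneg)
  refine le_trans (measureReal_mono fun x hx => ?_) (key K S Set.univ hS MeasurableSet.univ)
  exact ⟨hx.1, trivial, fun i _ => by rw [hx.2]⟩

end T3x

end
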