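import Pool.Agent.MP_154433_an.t3.Spec

/-! Commuting squares for lifts of embeddings to the lines. -/

set_option autoImplicit false
set_option linter.unusedVariables false
set_option warn.classDefReducibility false

open MeasureTheory ProbabilityTheory Filter Topology Function Finset ComplexConjugate
open scoped BigOperators
open Fib27 (BM sup pr Perp)

noncomputable section

namespace T3x

namespace LfDAux

variable {ν : Wt} {U : Ultrafilter ℕ}

theorem mp_meas {Ω Ω' : Type} {m0 : MeasurableSpace Ω} {m0' : MeasurableSpace Ω'}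
    {μ : Measure Ω} {μ' : Measure Ω'} {p : Ω → Ω'} (hp : MeasurePreserving p μ μ') :
    Measurable p := hp.measurable

theorem mp_ae {Ω Ω' : Type} {m0 : MeasurableSpace Ω} {m0' : MeasurableSpace Ω'}
    {μ : Measure Ω} {μ' : Measure Ω'} {p : Ω → Ω'} (hp : MeasurePreserving p μ μ')
    {f g : Ω' → ℂ} (h : f =ᵐ[μ'] g) : (fun x => f (p x)) =ᵐ[μ] fun x => g (p x) :=
  hp.quasiMeasurePreserving.ae_eq_comp h

theorem fam_mono {Ω : Type} {B B' : MeasurableSpace Ω} (h : B ≤ B') {F : Lab × Ω → ℂ}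
    (hF : F ∈ FamS B) : F ∈ FamS B' :=
  ⟨fun l => (hF.1 l).mono h le_rfl, hF.2⟩

theorem fam_one {Ω : Type} (B : MeasurableSpace Ω) : (fun _ => (1 : ℂ)) ∈ FamS B :=
  ⟨fun _ => measurable_const, 1, fun _ => by simp⟩

theorem fam_mul {Ω : Type} {B : MeasurableSpace Ω} {F G : Lab × Ω → ℂ} (hF : F ∈ FamS B)
    (hG : G ∈ FamS B) : (fun s => F s * G s) ∈ FamS B := by
  obtain ⟨h1, C, hC⟩ := hF
  obtain ⟨h2, D, hD⟩ := hG
  refine ⟨fun l => (h1 l).mul (h2 l), C * D, fun s => ?_⟩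
  rw [norm_mul]
  exact mul_le_mul (hC s) (hD s) (norm_nonneg _) ((norm_nonneg _).trans (hC s))

theorem fam_cj {Ω : Type} {B : MeasurableSpace Ω} {F : Lab × Ω → ℂ} (hF : F ∈ FamS B) :
    (fun s => conj (F s)) ∈ FamS B := by
  obtain ⟨h1, C, hC⟩ := hF
  refine ⟨fun l => Complex.continuous_conj.measurable.comp (h1 l), C, fun s => ?_⟩
  rw [RCLike.norm_conj]
  exact hC s

theorem fam_prod {Ω ι : Type} {B : MeasurableSpace Ω} {F : ι → Lab × Ω → ℂ} (S : Finset ι)
    (hF : ∀ k ∈ S, F k ∈ FamS B) : (fun s => ∏ k ∈ S, F k s) ∈ FamS B := by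
  classical
  induction S using Finset.induction_on with
  | empty => simpa using fam_one B
  | insert j S hj ih =>
    simp only [Finset.prod_insert hj]
    exact fam_mul (hF j (mem_insert_self _ _)) (ih fun k hk => hF k (mem_insert_of_mem hk))

theorem fam_bm {Ω : Type} {B m0 : MeasurableSpace Ω} (μ : Measure Ω) {F : Lab × Ω → ℂ}
    (hF : F ∈ FamS B) (l : Lab) : BM μ B fun x => F (l, x) := by
  obtain ⟨h1, C, hC⟩ := hF
  exact ⟨(h1 l).stronglyMeasurable.aestronglyMeasurable, C, Eventually.of_forall fun x => hC _⟩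

theorem hat_prod {X : Sys} (L : Ln ν U X) {ι : Type} {F : ι → Lab × X.X → ℂ} (S : Finset ι)
    (hF : ∀ k ∈ S, F k ∈ FamS X.ms) (w : L.W.X) :
    L.hat (fun s => ∏ k ∈ S, F k s) w = ∏ k ∈ S, L.hat (F k) w := by
  classical
  induction S using Finset.induction_on with
  | empty => simpa using (L.ch w).const 1
  | insert j S hj ih =>
    simp only [Finset.prod_insert hj]
    have h2 := fun k hk => hF k (mem_insert_of_mem (b := j) hk)
    rw [← ih h2]
    exact (L.ch w).mul _ (hF j (mem_insert_self _ _)) _ (fam_prod S h2)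

theorem hat_meas {X : Sys} (L : Ln ν U X) {B : MeasurableSpace X.X} {F : Lab × X.X → ℂ}
    (hF : F ∈ FamS B) : Measurable[L.shp B] (L.hat F) := by
  refine measurable_iff_comap_le.2 (le_trans ?_ le_sup_left)
  exact le_iSup₂_of_le (f := fun G (_ : G ∈ FamS B) =>
    MeasurableSpace.comap (L.hat G) inferInstance) F hF le_rfl

theorem hat_meas0 {X : Sys} (L : Ln ν U X) {F : Lab × X.X → ℂ}
    (hF : F ∈ FamS X.ms) : Measurable[L.W.ms] (L.hat F) := by
  refine measurable_iff_comap_le.2 ?_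
  rw [L.gn]
  exact le_iSup₂_of_le (f := fun G (_ : G ∈ FamS X.ms) =>
    MeasurableSpace.comap (L.hat G) inferInstance) F hF le_rfl

theorem hat_bd {X : Sys} (L : Ln ν U X) {F : Lab × X.X → ℂ} (hF : F ∈ FamS X.ms) :
    ∃ C : ℝ, ∀ w, ‖L.hat F w‖ ≤ C := by
  obtain ⟨C, hC⟩ := hF.2
  exact ⟨C, fun w => (L.ch w).bdd F hF C hC⟩

theorem hat_bm {X : Sys} (L : Ln ν U X) {B : MeasurableSpace X.X} (hB : B ≤ X.ms)
    {F : Lab × X.X → ℂ} (hF : F ∈ FamS B) : BM L.W.μ (L.shp B) (L.hat F) := by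
  obtain ⟨C, hC⟩ := hat_bd L (fam_mono hB hF)
  exact ⟨(hat_meas L hF).stronglyMeasurable.aestronglyMeasurable, C, Eventually.of_forall hC⟩

/-- tests against internal functions are enough -/
theorem perp_hat (b : Bas) (lb : LfB) {X : Sys} (L : Ln ν U X) {B : MeasurableSpace X.X}
    (hB : Fac X B) {g : L.W.X → ℂ} (hg : BM L.W.μ L.W.ms g)
    (h : ∀ F ∈ FamS B, ∫ w, g w * L.hat F w ∂L.W.μ = 0) : Perp L.W.μ (L.shp B) g := by
  have h1 := b.d.perp L.W.μ (L.hat '' FamS B) ?_ ?_ ?_ ?_ g hg.integrable ?_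
  · have e : gen (L.hat '' FamS B) id = gen (FamS B) L.hat := by
      simp only [gen, iSup_image, id]
    rw [e] at h1
    exact Fib27.perp_of_ce (lb.fac L B hB).le hg h1
  · rintro _ ⟨F, hF, rfl⟩
    exact ⟨hat_meas0 L (fam_mono hB.le hF), hat_bd L (fam_mono hB.le hF)⟩
  · exact ⟨_, ⟨_, fam_one B, rfl⟩, Eventually.of_forall fun w => (L.ch w).const 1⟩
  · rintro _ ⟨F, hF, rfl⟩ _ ⟨G, hG, rfl⟩
    exact ⟨_, ⟨_, fam_mul hF hG, rfl⟩, Eventually.of_forall fun w =>
      (L.ch w).mul F (fam_mono hB.le hF) G (fam_mono hB.le hG)⟩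
  · rintro _ ⟨F, hF, rfl⟩
    exact ⟨_, ⟨_, fam_cj hF, rfl⟩, Eventually.of_forall fun w =>
      (L.ch w).cj F (fam_mono hB.le hF)⟩
  · rintro _ ⟨F, hF, rfl⟩
    exact h F hF

/-- the pull-back of an internal base along a lift -/
theorem pull_shp (b : Bas) (la : LfA) (lb : LfB) {X' X : Sys} (L' : Ln ν U X') (L : Ln ν U X)
    {p : X'.X → X.X} {Lp : L'.W.X → L.W.X} (hp : Emb X' X p) (hL : IsLift L' L p Lp)
    {B : MeasurableSpace X.X} (hB : Fac X B) :
    pull L'.W.μ Lp (L.shp B) = L'.shp (pull X'.μ p B) := by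
  have hY := b.t.fpull X' X p B hp hB
  refine le_antisymm (la.shp L' L p Lp B _ hp hL hB hY le_rfl) (sup_le ?_ le_sup_right)
  refine iSup₂_le fun F' hF' => ?_
  obtain ⟨h1, C, hC⟩ := hF'
  have hC0 : ∀ s, ‖F' s‖ ≤ max C 0 := fun s => (hC s).trans (le_max_left _ _)
  have h2 : ∀ l : Lab, ∃ f' : X.X → ℂ, Measurable[B] f' ∧ (∀ x, ‖f' x‖ ≤ max C 0) ∧
      (fun x => F' (l, x)) =ᵐ[X'.μ] fun x => f' (p x) := fun l =>
    b.a.fact B X'.μ p _ _ (le_sup_left.trans hY.le) (le_max_right _ _)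
      (h1 l).stronglyMeasurable.aestronglyMeasurable (Eventually.of_forall fun x => hC0 _)
  choose f hf1 hf2 hf3 using h2
  have hF : (fun z : Lab × X.X => f z.1 z.2) ∈ FamS B := ⟨hf1, _, fun s => hf2 _ _⟩
  have hF0 := fam_mono hB.le hF
  have hF1 : F' ∈ FamS X'.ms := fam_mono hY.le ⟨h1, C, hC⟩
  have hG : (fun z : Lab × X'.X => f z.1 (p z.2)) ∈ FamS X'.ms :=
    ⟨fun l => ((hf1 l).mono hB.le le_rfl).comp (mp_meas hp.mp), _, fun s => hf2 _ _⟩
  have e : L'.hat F' =ᵐ[L'.W.μ] fun w => L.hat (fun z : Lab × X.X => f z.1 z.2) (Lp w) :=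
    (lb.congr L' F' hF1 _ hG hf3).trans (hL.hat _ hF0).symm
  have hle : (L.shp B).comap Lp ≤ L'.W.ms :=
    le_sup_left.trans (b.a.pull_le _ L'.W.μ L.W.μ Lp hL.emb.mp (lb.fac L B hB).le)
  rintro A ⟨s, hs, rfl⟩
  refine (b.a.mem _ L'.W.μ hle _).2 ⟨hat_meas0 L' hF1 hs, _, ⟨_, hat_meas L hF hs, rfl⟩, ?_⟩
  filter_upwards [e] with w hw
  exact congrArg (· ∈ s) hw

theorem pull_top (b : Bas) (la : LfA) (lb : LfB) {X' X : Sys} (L' : Ln ν U X') (L : Ln ν U X)
    {p : X'.X → X.X} {Lp : L'.W.X → L.W.X} (hp : Emb X' X p) (hL : IsLift L' L p Lp) :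
    pull L'.W.μ Lp L.W.ms = L'.shp (pull X'.μ p X.ms) := by
  rw [← pull_shp b la lb L' L hp hL (b.t.top X), lb.top]

theorem cp_shp (b : Bas) (lb : LfB) {X : Sys} (L : Ln ν U X) {Y D C : MeasurableSpace X.X}
    (hY : Fac X Y) (hD : Fac X D) (hC : Fac X C) (hDC : D ≤ C) (h : CP Y D C X.μ) :
    CP (L.shp Y) (L.shp D) (L.shp C) L.W.μ := by
  have hY' := (lb.fac L Y hY).le
  have hD' := (lb.fac L D hD).le
  have hC' := (lb.fac L C hC).le
  intro f hf
  have hf0 := hf.mono hY'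
  refine Fib27.ce_eq_of_tests hC' hf0 ((hf.ce _).mono (lb.mono L D C hDC)) fun c hc => ?_
  have hc0 := hc.mono hC'
  have hc1 := (hc.ce (L.shp D)).mono hD'
  have h1 : Perp L.W.μ (L.shp Y) fun w => c w - (L.W.μ[c | L.shp D]) w := by
    refine perp_hat b lb L hY (hc0.sub hc1) fun F hF => ?_
    have hF0 := fam_mono hY.le hF
    have hFb := (hat_bm L hY.le hF).mono hY'
    obtain ⟨F', hF', e⟩ := lb.cex X D hD F hF0
    have e1 := lb.ce L D hD F hF0 F' hF' e
    have e2 := lb.ce L C hC F hF0 F' (fam_mono hDC hF') fun l =>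
      (e l).trans (h _ (fam_bm X.μ hF l)).symm
    rw [Fib27.int_sub_mul hc0 hc1 hFb, Fib27.int_ce_symm hD' hc0 hFb,
      ← Fib27.int_mul_ce hC' hc hFb, sub_eq_zero]
    refine integral_congr_ae ?_
    filter_upwards [e1, e2] with w a a'
    rw [a, a']
  have h2 := h1 f hf
  rw [Fib27.int_sub_mul hc0 hc1 hf0, sub_eq_zero, Fib27.int_ce_symm hD' hc0 hf0] at h2
  simpa only [mul_comm] using h2

theorem cind_shp (b : Bas) (lb : LfB) {X : Sys} (L : Ln ν U X) {ι : Type}
    {B : MeasurableSpace X.X} {Y : ι → MeasurableSpace X.X} {S : Finset ι} (hB : Fac X B)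
    (hY : ∀ i, Fac X (Y i)) (h : CInd B Y S X.μ) :
    CInd (L.shp B) (fun i => L.shp (Y i)) S L.W.μ := by
  classical
  have hB' := (lb.fac L B hB).le
  have hY' := fun i => (lb.fac L (Y i) (hY i)).le
  have key : ∀ (T : Finset ι) (f : ι → L.W.X → ℂ), (∀ k ∈ S, BM L.W.μ (L.shp (Y k)) (f k)) →
      (∀ k ∈ S, k ∉ T → ∃ F ∈ FamS (Y k), f k = L.hat F) →
      L.W.μ[pr f S | L.shp B] =ᵐ[L.W.μ] fun x => ∏ k ∈ S, (L.W.μ[f k | L.shp B]) x := by
    intro T
    induction T using Finset.induction_on with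
    | empty =>
      intro f _ hf
      choose! F hF eF using fun k hk => hf k hk (notMem_empty k)
      have hF0 := fun k hk => fam_mono (hY k).le (hF k hk)
      choose! F' hF' eF' using fun k (hk : k ∈ S) => lb.cex X B hB (F k) (hF0 k hk)
      have e1 : pr f S = L.hat fun s => ∏ k ∈ S, F k s := by
        funext w
        rw [hat_prod L S hF0]
        exact Finset.prod_congr rfl fun k hk => by rw [eF k hk]
      have e2 := lb.ce L B hB _ (fam_prod S hF0) _ (fam_prod S hF') fun l => by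
        have a := h (fun k x => F k (l, x)) fun k hk => fam_bm X.μ (hF k hk) l
        refine EventuallyEq.trans ?_ a.symm
        filter_upwards [(Finset.eventually_all S).2 fun k hk => eF' k hk l] with x hx
        exact Finset.prod_congr rfl hx
      rw [e1]
      filter_upwards [e2, (Finset.eventually_all S).2 fun k hk =>
        lb.ce L B hB _ (hF0 k hk) _ (hF' k hk) (eF' k hk)] with w a a'
      rw [a, hat_prod L S fun k hk => fam_mono hB.le (hF' k hk)]
      exact Finset.prod_congr rfl fun k hk => by rw [eF k hk, a' k hk]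
    | insert j T hj ih =>
      intro f hf hf'
      by_cases hjS : j ∈ S
      swap
      · refine ih f hf fun k hk hkT => hf' k hk ?_
        simp only [mem_insert, not_or]
        exact ⟨by rintro rfl; exact hjS hk, hkT⟩
      have hf0 := fun k hk => (hf k hk).mono (hY' k)
      have hE : ∀ (g : ι → L.W.X → ℂ) (R : Finset ι),
          (∀ k ∈ R, BM L.W.μ L.W.ms (g k)) →
          BM L.W.μ (L.shp B) (pr (fun k => L.W.μ[g k | L.shp B]) R) :=
        fun g R hg => BM.pr fun k hk => (hg k hk).ce _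
      refine Fib27.ce_eq_of_tests hB' (BM.pr hf0) (hE f S hf0) fun c hc => ?_
      have hc0 := hc.mono hB'
      have hr0 : ∀ k ∈ S.erase j, BM L.W.μ L.W.ms (f k) := fun k hk => hf0 k (mem_of_mem_erase hk)
      have hA : BM L.W.μ L.W.ms fun w => pr f (S.erase j) w * c w := (BM.pr hr0).mul hc0
      have hBm : BM L.W.μ (L.shp B) fun w =>
          pr (fun k => L.W.μ[f k | L.shp B]) (S.erase j) w * c w := (hE f _ hr0).mul hc
      -- the two sides for an arbitrary function in slot `j`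
      have s1 : ∀ u : L.W.X → ℂ, ∫ w, pr (update f j u) S w * c w ∂L.W.μ =
          ∫ w, (pr f (S.erase j) w * c w) * u w ∂L.W.μ := fun u => by
        refine integral_congr_ae (Eventually.of_forall fun w => ?_)
        simp only [Fib27.pr_erase _ hjS w, Fib27.pr_update f (notMem_erase j S), update_self]
        ring
      have s2 : ∀ u : L.W.X → ℂ, BM L.W.μ L.W.ms u →
          ∫ w, (∏ k ∈ S, (L.W.μ[update f j u k | L.shp B]) w) * c w ∂L.W.μ =
          ∫ w, (pr (fun k => L.W.μ[f k | L.shp B]) (S.erase j) w * c w) * u w ∂L.W.μ :=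
        fun u hu => by
          rw [← Fib27.int_mul_ce hB' hBm hu]
          refine integral_congr_ae (Eventually.of_forall fun w => ?_)
          simp only [← Finset.mul_prod_erase S _ hjS, update_self, pr]
          rw [Finset.prod_congr rfl fun k hk => by rw [update_of_ne (ne_of_mem_erase hk)]]
          ring
      have h1 : Perp L.W.μ (L.shp (Y j)) fun w => pr f (S.erase j) w * c w -
          pr (fun k => L.W.μ[f k | L.shp B]) (S.erase j) w * c w := by
        refine perp_hat b lb L (hY j) (hA.sub (hBm.mono hB')) fun F hF => ?_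
        have hFb := hat_bm L (hY j).le hF
        have hu : ∀ k ∈ S, BM L.W.μ (L.shp (Y k)) (update f j (L.hat F) k) := fun k hk => by
          by_cases e : k = j
          · subst e
            rw [update_self]
            exact hFb
          · rw [update_of_ne e]
            exact hf k hk
        have h2 := ih (update f j (L.hat F)) hu fun k hk hkT => by
          by_cases e : k = j
          · subst e
            exact ⟨F, hF, update_self _ _ _⟩
          · rw [update_of_ne e]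
            exact hf' k hk (by simp [e, hkT])
        rw [Fib27.int_sub_mul hA (hBm.mono hB') (hFb.mono (hY' j)), ← s1,
          ← s2 _ (hFb.mono (hY' j)), sub_eq_zero,
          ← Fib27.int_ce_mul hB' (BM.pr fun k hk => (hu k hk).mono (hY' k)) hc]
        refine integral_congr_ae ?_
        filter_upwards [h2] with w hw
        rw [hw]
      have h3 := h1 (f j) (hf j hjS)
      rw [Fib27.int_sub_mul hA (hBm.mono hB') (hf0 j hjS), ← s1, ← s2 _ (hf0 j hjS), sub_eq_zero,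
        update_eq_self] at h3
      exact h3
  exact fun f hf => key S f hf fun k hk hk' => absurd hk hk'

theorem rep_bm (b : Bas) {Ω : Type} {B m0 : MeasurableSpace Ω} {μ : Measure Ω} {f : Ω → ℂ}
    (hf : BM μ B f) : ∃ f' : Ω → ℂ, Measurable[B] f' ∧ (∃ C : ℝ, ∀ x, ‖f' x‖ ≤ C) ∧ f =ᵐ[μ] f' := by
  obtain ⟨h1, C, hC⟩ := hf
  obtain ⟨f', a1, a2, a3⟩ := b.a.rep B μ f (max C 0) (le_max_right _ _) h1
    (hC.mono fun x hx => hx.trans (le_max_left _ _))
  exact ⟨f', a1, ⟨_, a2⟩, a3⟩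

/-- conditional expectation of a slot function over the internal base -/
theorem ce_slot (b : Bas) (lb : LfB) {X : Sys} (L : Ln ν U X) {Y : MeasurableSpace X.X}
    (hY : Fac X Y) (s : Slot) {g : X.X → ℂ} (hg : BM X.μ X.ms g) :
    L.W.μ[fun w => g (L.π s w) | L.shp Y] =ᵐ[L.W.μ] fun w => (X.μ[g | Y]) (L.π s w) := by
  obtain ⟨g1, a1, ⟨C, a2⟩, a3⟩ := rep_bm b hg
  obtain ⟨g2, c1, ⟨D, c2⟩, c3⟩ := rep_bm b (hg.ce Y)
  have q := (L.emb s).mp
  have hF : (fun z : Lab × X.X => g1 (X.Tz (rho s z.1) z.2)) ∈ FamS X.ms :=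
    ⟨fun l => a1.comp (mp_meas (b.t.mp X (rho s l))), C, fun z => a2 _⟩
  have hF' : (fun z : Lab × X.X => g2 (X.Tz (rho s z.1) z.2)) ∈ FamS Y :=
    ⟨fun l => c1.comp (measurable_iff_comap_le.2 (b.t.inv X Y (rho s l) hY).le), D,
      fun z => c2 _⟩
  have e := lb.ce L Y hY _ hF _ hF' fun l => by
    have q' := b.t.mp X (rho s l)
    have e1 := b.t.ce X Y (rho s l) g hY hg.integrable
    exact (mp_ae q' c3).symm.trans (e1.symm.trans (condExp_congr_ae (mp_ae q' a3)))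
  have e1 := L.slot s g1 ⟨a1, C, a2⟩
  have e2 := L.slot s g2 ⟨c1.mono hY.le le_rfl, D, c2⟩
  exact (condExp_congr_ae ((mp_ae q a3).trans e1)).trans
    (e.trans (e2.symm.trans (mp_ae q c3).symm))

theorem int_comp {Ω Ω' : Type} {m0 : MeasurableSpace Ω} {m0' : MeasurableSpace Ω'}
    {μ : Measure Ω} {μ' : Measure Ω'} {p : Ω → Ω'} (hp : MeasurePreserving p μ μ') {f : Ω' → ℂ}
    (hf : BM μ' m0' f) : ∫ x, f (p x) ∂μ = ∫ y, f y ∂μ' := by
  rw [← hp.map_eq, integral_map hp.measurable.aemeasurable (by rw [hp.map_eq]; exact hf.1)]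

theorem fact_bm (b : Bas) {Ω Ω' : Type} {m0 : MeasurableSpace Ω} {m0' : MeasurableSpace Ω'}
    {μ : Measure Ω} {μ' : Measure Ω'} {p : Ω → Ω'} (hp : MeasurePreserving p μ μ') {f : Ω → ℂ}
    (hf : BM μ (pull μ p m0') f) : ∃ f' : Ω' → ℂ, BM μ' m0' f' ∧ f =ᵐ[μ] fun x => f' (p x) := by
  obtain ⟨h1, C, hC⟩ := hf
  obtain ⟨f', a1, a2, a3⟩ := b.a.fact m0' μ p f (max C 0) hp.measurable.comap_le
    (le_max_right _ _) h1 (hC.mono fun x hx => hx.trans (le_max_left _ _))
  exact ⟨f', ⟨a1.stronglyMeasurable.aestronglyMeasurable, _, Eventually.of_forall a2⟩, a3⟩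

theorem cs1 (b : Bas) (la : LfA) (lb : LfB) {X' X : Sys} (L' : Ln ν U X') (L : Ln ν U X)
    {p : X'.X → X.X} {Lp : L'.W.X → L.W.X} (s : Slot) (hp : Emb X' X p) (hL : IsLift L' L p Lp)
    {g : X'.X → ℂ} {g0 : X.X → ℂ} (hg : BM X'.μ X'.ms g)
    (e : (fun x => g0 (p x)) =ᵐ[X'.μ] X'.μ[g | pull X'.μ p X.ms]) :
    L'.W.μ[fun w => g (L'.π s w) | pull L'.W.μ Lp L.W.ms] =ᵐ[L'.W.μ]
      fun w => g0 (p (L'.π s w)) := by
  rw [pull_top b la lb L' L hp hL]
  exact (ce_slot b lb L' (b.t.fpull X' X p _ hp (b.t.top X)) s hg).trans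
    ((L'.emb s).mp.quasiMeasurePreserving.ae_eq_comp e).symm

theorem cs2 (b : Bas) (la : LfA) (lb : LfB) {X' X : Sys} (L' : Ln ν U X') (L : Ln ν U X)
    {p : X'.X → X.X} {Lp : L'.W.X → L.W.X} (s : Slot) (hp : Emb X' X p) (hL : IsLift L' L p Lp)
    {g : L.W.X → ℂ} {g0 : X.X → ℂ} (hg : BM L.W.μ L.W.ms g) (hg0 : BM X.μ X.ms g0)
    (e : (fun w => g0 (L.π s w)) =ᵐ[L.W.μ] L.W.μ[g | L.P s]) :
    L'.W.μ[fun w => g (Lp w) | L'.P s] =ᵐ[L'.W.μ] fun w => g0 (p (L'.π s w)) := by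
  have m1 := (L'.emb s).mp
  have m2 := (L.emb s).mp
  have m3 := hL.emb.mp
  have m4 := hp.mp
  have l1 : L'.P s ≤ L'.W.ms := b.a.pull_le _ _ _ _ m1 le_rfl
  have l2 : L.P s ≤ L.W.ms := b.a.pull_le _ _ _ _ m2 le_rfl
  have l3 : pull L'.W.μ Lp L.W.ms ≤ L'.W.ms := b.a.pull_le _ _ _ _ m3 le_rfl
  have l4 : pull X'.μ p X.ms ≤ X'.ms := b.a.pull_le _ _ _ _ m4 le_rfl
  have g1 := b.a.bm_comp _ _ _ Lp g m3 hg
  have g2 := b.a.bm_comp _ _ _ p g0 m4 hg0
  have g3 := b.a.bm_comp _ _ _ (L'.π s) _ m1 (g2.mono l4)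
  refine Fib27.ce_eq_of_tests l1 (g1.mono l3) g3 fun c hc => ?_
  obtain ⟨c', hc', e1⟩ := fact_bm b m1 hc
  obtain ⟨c0, hc0, e2⟩ := fact_bm b m4 (hc'.ce (pull X'.μ p X.ms))
  have e3 := cs1 b la lb L' L s hp hL hc' e2.symm
  have e4 := b.a.keq_fun X.ms L'.W.μ X.μ _ _ c0 (m2.comp m3) (m4.comp m1)
    (la.slot L' L p Lp s hp hL) hc0.1
  have g4 := b.a.bm_comp _ _ _ (L.π s) c0 m2 hc0
  have g5 := b.a.bm_comp _ _ _ (L'.π s) c' m1 hc'
  calc ∫ w, g (Lp w) * c w ∂L'.W.μ = ∫ w, g (Lp w) * c' (L'.π s w) ∂L'.W.μ :=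
        integral_congr_ae (by filter_upwards [e1] with w hw; rw [hw])
    _ = ∫ w, g (Lp w) * c0 (L.π s (Lp w)) ∂L'.W.μ := by
        rw [← Fib27.int_mul_ce l3 g1 (g5.mono l1)]
        refine integral_congr_ae ?_
        filter_upwards [e3, e4] with w a a'
        rw [a]
        exact congrArg _ a'.symm
    _ = ∫ w, g w * c0 (L.π s w) ∂L.W.μ := int_comp m3 (hg.mul (g4.mono l2))
    _ = ∫ w, g0 (L.π s w) * c0 (L.π s w) ∂L.W.μ := by
        rw [← Fib27.int_ce_mul l2 hg g4]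
        refine integral_congr_ae ?_
        filter_upwards [e] with w a
        rw [← a]
    _ = ∫ x, g0 x * c0 x ∂X.μ := int_comp m2 (hg0.mul hc0)
    _ = ∫ x, g0 (p x) * c0 (p x) ∂X'.μ := (int_comp m4 (hg0.mul hc0)).symm
    _ = ∫ x, g0 (p x) * c' x ∂X'.μ := by
        rw [← Fib27.int_mul_ce l4 g2 hc']
        refine integral_congr_ae ?_
        filter_upwards [e2] with x a
        rw [a]
    _ = ∫ w, g0 (p (L'.π s w)) * c' (L'.π s w) ∂L'.W.μ :=
        (int_comp m1 ((g2.mono l4).mul hc')).symm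
    _ = _ := integral_congr_ae (by filter_upwards [e1] with w hw; rw [hw])

end LfDAux

open LfDAux

theorem lfD : LfDR := fun b la lb =>
  { cs := fun L' L p Lp s hp hL g g0 hg _ e => cs1 b la lb L' L s hp hL hg e
    cs' := fun L' L p Lp s hp hL g g0 hg hg0 e => cs2 b la lb L' L s hp hL hg hg0 e
    base := fun L' L p Lp B B' hp hL hB hB' hle h => by
      rw [pull_top b la lb L' L hp hL, pull_shp b la lb L' L hp hL hB]
      exact cp_shp b lb L' (b.t.fpull _ _ p _ hp (b.t.top _)) (b.t.fpull _ _ p _ hp hB) hB' hle h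
    cind := fun L' L ι p Lp S B' hp hL hB' h => by
      simp only [fun i => pull_top b la lb L' L (hp i) (hL i)]
      exact cind_shp b lb L' hB' (fun i => b.t.fpull _ _ (p i) _ (hp i) (b.t.top _)) h }

end T3x

end
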