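import Pool.Agent.MP_154433_an.t3.Spec
import Pool.Agent.MP_154433_an.t3.FSpan

/-! Statements of the rows that lead from the global half grid to the fibres and back. -/

set_option autoImplicit false
set_option linter.unusedVariables false
set_option warn.classDefReducibility false

open MeasureTheory ProbabilityTheory Filter Topology Function Finset ComplexConjugate
open scoped BigOperators
open Fib27 (BM sup pr Oc Orow F23 LInd Mem)

noncomputable section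

namespace T3x

theorem fspanS : FSpanS := by
  intro Ω m0 κ _ ι _ _ G h hc q0 j0 f h1 h2 h3
  obtain ⟨χ, hχ, e⟩ := T3F.fspan ⟨h.le, h.rows, h.cols, h.fr, h.f2r⟩ hc h1.1 h1.2 h2 h3
  exact ⟨χ q0, ⟨χ, hχ, rfl⟩, e⟩

/-- the sigma-algebra generated by a map -/
abbrev cm {X Zs : Type} [m : MeasurableSpace Zs] (Z : X → Zs) : MeasurableSpace X := m.comap Z

/-- a countably generated sigma-algebra is generated by a countable algebra of sets -/
theorem cg_alg {Ω : Type} (Q : MeasurableSpace Ω) (h : @MeasurableSpace.CountablyGenerated Ω Q) :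
    ∃ 𝒜 : Set (Set Ω), 𝒜.Countable ∧ IsSetAlgebra 𝒜 ∧ Q = MeasurableSpace.generateFrom 𝒜 :=
  ⟨generateSetAlgebra (@MeasurableSpace.countableGeneratingSet Ω Q h),
    countable_generateSetAlgebra (@MeasurableSpace.countable_countableGeneratingSet Ω Q h),
    isSetAlgebra_generateSetAlgebra, by
      rw [generateFrom_generateSetAlgebra_eq,
        @MeasurableSpace.generateFrom_countableGeneratingSet Ω Q h]⟩

/-- tests against a generating pi-system that contains the whole space suffice -/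
theorem perp_pi {Ω : Type} {Q : MeasurableSpace Ω} {m0 : MeasurableSpace Ω} {κ : Measure Ω}
    [IsProbabilityMeasure κ] (hQ : Q ≤ m0) {𝒜 : Set (Set Ω)} (hA : IsPiSystem 𝒜)
    (hu : Set.univ ∈ 𝒜) (hg : Q = MeasurableSpace.generateFrom 𝒜) {g : Ω → ℂ} (hb : BM κ m0 g)
    (h : ∀ s ∈ 𝒜, ∫ x, g x * s.indicator (fun _ => (1 : ℂ)) x ∂κ = 0) : Fib27.Perp κ Q g := by
  have hi := hb.integrable
  have e : ∀ s, MeasurableSet[Q] s →
      ∫ x, g x * s.indicator (fun _ => (1 : ℂ)) x ∂κ = ∫ x in s, g x ∂κ := fun s hs => by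
    rw [← integral_indicator (hQ s hs)]
    refine integral_congr_ae (Eventually.of_forall fun x => ?_)
    by_cases hx : x ∈ s <;> simp [hx]
  have h' : ∀ s ∈ 𝒜, ∫ x in s, g x ∂κ = 0 := fun s hs => by
    rw [← e s (hg ▸ MeasurableSpace.measurableSet_generateFrom hs)]
    exact h s hs
  have h0 : ∫ ω, g ω ∂κ = 0 := by simpa using h' _ hu
  have key : ∀ S, MeasurableSet[Q] S → ∫ ω in S, g ω ∂κ = 0 := by
    refine MeasurableSpace.induction_on_inter (m := Q)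
      (C := fun S _ => ∫ ω in S, g ω ∂κ = 0) hg hA (by simp) h' (fun S hS e => ?_)
      fun f hd hf e => ?_
    · have := integral_add_compl (hQ _ hS) hi
      rwa [e, h0, zero_add] at this
    · rw [integral_iUnion (fun i => hQ _ (hf i)) hd hi.integrableOn]
      simp [e]
  exact Fib27.perp_of_ce hQ hb (ae_eq_condExp_of_forall_setIntegral_eq hQ hi
    (fun _ _ _ => integrableOn_zero) (fun S hS _ => by simp [key S hS])
    aestronglyMeasurable_zero).symm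

/-- transfer between the global space and the fibres -/
structure FK : Prop where
  int : ∀ {X Ω Zs : Type} [MeasurableSpace X] [MeasurableSpace Ω] [StandardBorelSpace Ω]
    [Nonempty Ω] [MeasurableSpace Zs] (μ : Measure X) [IsProbabilityMeasure μ] (W : X → Ω)
    (Z : X → Zs), Measurable W → Measurable Z → ∀ h ∈ Bdd (Zs × Ω),
    μ[fun x => h (Z x, W x) | cm Z] =ᵐ[μ] fun x => ∫ ω, h (Z x, ω) ∂condDistrib W Z μ (Z x)
  eq : ∀ {X Ω Zs : Type} [MeasurableSpace X] [MeasurableSpace Ω] [StandardBorelSpace Ω]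
    [Nonempty Ω] [MeasurableSpace Zs] (μ : Measure X) [IsProbabilityMeasure μ] (W : X → Ω)
    (Z : X → Zs), Measurable W → Measurable Z → ∀ h ∈ Bdd (Zs × Ω), ∀ h' ∈ Bdd (Zs × Ω),
    (∀ ψ, BM μ (cm Z) ψ → ∫ x, ψ x * h (Z x, W x) ∂μ = ∫ x, ψ x * h' (Z x, W x) ∂μ) →
    ∀ᵐ z ∂μ.map Z, ∫ ω, h (z, ω) ∂condDistrib W Z μ z = ∫ ω, h' (z, ω) ∂condDistrib W Z μ z
  rep : ∀ {X Ω Zs : Type} (Q : MeasurableSpace Ω) [MeasurableSpace X] [m1 : MeasurableSpace Ω]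
    [MeasurableSpace Zs] (μ : Measure X) (W : X → Ω) (Z : X → Zs) (g : X → ℂ) (C : ℝ), Q ≤ m1 →
    0 ≤ C → AEStronglyMeasurable[Q.comap W ⊔ cm Z] g μ → (∀ᵐ x ∂μ, ‖g x‖ ≤ C) →
    ∃ h : Zs × Ω → ℂ, Measurable h ∧ (∀ y, ‖h y‖ ≤ C) ∧ (∀ z, Measurable[Q] fun ω => h (z, ω)) ∧
      g =ᵐ[μ] fun x => h (Z x, W x)
  ce : ∀ {X Ω Zs : Type} (Q : MeasurableSpace Ω) [MeasurableSpace X] [m1 : MeasurableSpace Ω]
    [StandardBorelSpace Ω] [Nonempty Ω] [MeasurableSpace Zs] (μ : Measure X)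
    [IsProbabilityMeasure μ] (W : X → Ω) (Z : X → Zs), Measurable W → Measurable Z → Q ≤ m1 →
    @MeasurableSpace.CountablyGenerated Ω Q → ∀ a ∈ Bdd (Zs × Ω), ∀ h ∈ Bdd (Zs × Ω),
    (∀ z, Measurable[Q] fun ω => h (z, ω)) →
    μ[fun x => a (Z x, W x) | Q.comap W ⊔ cm Z] =ᵐ[μ] (fun x => h (Z x, W x)) →
    ∀ᵐ z ∂μ.map Z, (condDistrib W Z μ z)[fun ω => a (z, ω) | Q] =ᵐ[condDistrib W Z μ z]
      fun ω => h (z, ω)
  ae : ∀ {X Ω Zs : Type} [MeasurableSpace X] [MeasurableSpace Ω] [StandardBorelSpace Ω]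
    [Nonempty Ω] [MeasurableSpace Zs] (μ : Measure X) [IsProbabilityMeasure μ] (W : X → Ω)
    (Z : X → Zs), Measurable W → Measurable Z → ∀ h h' : Zs × Ω → ℂ, Measurable h →
    Measurable h' → ((∀ᵐ x ∂μ, h (Z x, W x) = h' (Z x, W x)) ↔
      ∀ᵐ z ∂μ.map Z, ∀ᵐ ω ∂condDistrib W Z μ z, h (z, ω) = h' (z, ω))

/-- a countable model of a half grid over the same base -/
def GAS : Prop := ∀ {Ω ι : Type} [Fintype ι] [DecidableEq ι] (β : MeasurableSpace Ω)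
  (G : ι → ι → MeasurableSpace Ω) (q j : ι) {m0 : MeasurableSpace Ω} (μ : Measure Ω)
  [IsProbabilityMeasure μ] (h : Ω → ℂ), HG β G μ → VV β G q j μ h →
  ∃ W : Ω → Cf ι, Measurable W ∧ (∀ q' j', (PC q' j').comap W ≤ G q' j') ∧
    HG β (fun q' j' => (PC q' j').comap W) μ ∧ VV β (fun q' j' => (PC q' j').comap W) q j μ h

/-- conditional independence becomes independence on the fibres -/
def GBS : Prop := ∀ {X Ω Zs ι : Type} [Fintype ι] [DecidableEq ι] (p : ι → MeasurableSpace Ω)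
  [MeasurableSpace X] [m1 : MeasurableSpace Ω] [StandardBorelSpace Ω] [Nonempty Ω]
  [MeasurableSpace Zs] (μ : Measure X) [IsProbabilityMeasure μ] (W : X → Ω) (Z : X → Zs),
  Measurable W → Measurable Z → (∀ k, p k ≤ m1) →
  (∀ k, @MeasurableSpace.CountablyGenerated Ω (p k)) →
  CLine (cm Z) (fun k => (p k).comap W) μ → ∀ᵐ z ∂μ.map Z, LInd (condDistrib W Z μ z) p

/-- F2 on the fibres -/
def G2S : Prop := ∀ {X Ω Zs : Type} (P O : MeasurableSpace Ω)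
  [MeasurableSpace X] [m1 : MeasurableSpace Ω] [StandardBorelSpace Ω] [Nonempty Ω]
  [MeasurableSpace Zs] (μ : Measure X) [IsProbabilityMeasure μ] (W : X → Ω) (Z : X → Zs),
  Measurable W → Measurable Z → P ≤ m1 → O ≤ m1 → @MeasurableSpace.CountablyGenerated Ω P →
  @MeasurableSpace.CountablyGenerated Ω O →
  (∀ a, BM μ (P.comap W) a → BM μ (P.comap W ⊔ cm Z) (μ[a | O.comap W ⊔ cm Z])) →
  ∀ᵐ z ∂μ.map Z, ∀ a, BM (condDistrib W Z μ z) P a →
    BM (condDistrib W Z μ z) P ((condDistrib W Z μ z)[a | O])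

/-- F3 on the fibres -/
def G3S : Prop := ∀ {X Ω Zs ι : Type} [Fintype ι] [DecidableEq ι] (p o : ι → MeasurableSpace Ω)
  [MeasurableSpace X] [m1 : MeasurableSpace Ω] [StandardBorelSpace Ω] [Nonempty Ω]
  [MeasurableSpace Zs] (μ : Measure X) [IsProbabilityMeasure μ] (W : X → Ω) (Z : X → Zs),
  Measurable W → Measurable Z → (∀ k, p k ≤ m1) → (∀ k, o k ≤ m1) →
  (∀ k, @MeasurableSpace.CountablyGenerated Ω (p k)) →
  (∀ k, @MeasurableSpace.CountablyGenerated Ω (o k)) →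
  (∀ (a : ι → X → ℂ) (ψ : X → ℂ), (∀ k, BM μ ((p k).comap W) (a k)) → BM μ (cm Z) ψ → ∀ j j',
    ∫ x, ψ x * ((μ[a j | (o j).comap W ⊔ cm Z]) x * pr a (univ.erase j) x) ∂μ =
      ∫ x, ψ x * ((μ[a j' | (o j').comap W ⊔ cm Z]) x * pr a (univ.erase j') x) ∂μ) →
  ∀ᵐ z ∂μ.map Z, ∀ a : ι → Ω → ℂ, (∀ k, BM (condDistrib W Z μ z) (p k) (a k)) → ∀ j j',
    ∫ ω, ((condDistrib W Z μ z)[a j | o j]) ω * pr a (univ.erase j) ω ∂condDistrib W Z μ z =
      ∫ ω, ((condDistrib W Z μ z)[a j' | o j']) ω * pr a (univ.erase j') ω ∂condDistrib W Z μ z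

/-- selection of labels in one fibre -/
def GFS : Prop := ∀ (Ω : Type) (m0 : MeasurableSpace Ω) (κ : Measure Ω) [IsProbabilityMeasure κ]
  (ι : Type) [Fintype ι] [DecidableEq ι] (G : ι → ι → MeasurableSpace Ω), HGrid κ G →
  3 ≤ Fintype.card ι → ∀ (q j : ι) (h : Ω → ℂ) (C : ℝ) (v : ℕ → ι → Ω → ℂ),
  Fib27.Gd κ G q j h → BM κ (Orow G q j) h → ¬ h =ᵐ[κ] 0 → (∀ᵐ x ∂κ, ‖h x‖ ≤ C) →
  (∀ i k, AEStronglyMeasurable (v i k) κ ∧ ∀ x, ‖v i k x‖ ≤ 1) →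
  (∀ χ : ι → Ω → ℂ, (∀ k, AEStronglyMeasurable[G k j] (χ k) κ ∧ ∀ᵐ x ∂κ, ‖χ k x‖ ≤ 1) →
    ∀ ε : ℝ, 0 < ε → ∃ i, ∀ k, ∫ x, ‖v i k x - χ k x‖ ^ 2 ∂κ ≤ ε) →
  ∃ i0 n : ℕ, C * (1 / (100 + n : ℝ)) < ‖∫ x, h x * conj (v i0 q x) ∂κ‖ ∧
    ∀ n' : ℕ, ∃ i, 1 - (1 / 4 : ℝ) ^ n' ≤ ‖∫ x, pr (v i) univ x ∂κ‖ ∧
      ∀ k, ∫ x, ‖v i k x - v i0 k x‖ ^ 2 ∂κ ≤ (1 / (100 + n : ℝ)) ^ 2

def GAR : Prop := Bas → GAS
def GBR : Prop := FK → GBS
def G2R : Prop := FK → G2S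
def G3R : Prop := FK → G3S
def GG3R : Prop := FK → GAS → GBS → G2S → G3S → LabS → GFS → GGS

end T3x

end
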