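import Pool.Agent.MP_154433_an.t3.Spec

/-! Statements of the sub-rows of section 4 (the bundle of groups). -/

set_option autoImplicit false
set_option linter.unusedVariables false
set_option warn.classDefReducibility false

open MeasureTheory ProbabilityTheory Filter Topology Function Finset ComplexConjugate
open scoped BigOperators
open Fib27 (BM sup pr Oc Orow F23 LInd Mem)
open Pool.Agent.MP_154433_an.SG (Uni ufn)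

noncomputable section

namespace T3x

/-! ### calculus for the functions `ψ` -/

/-- factors of a context -/
structure CtxC (c : Ctx) : Prop where
  facB : Fac c.X c.B
  facS : Fac c.W (c.L.shp c.B)
  kc2 : KC c.W c.B2
  le2 : c.L.shp c.B ≤ c.B2
  kcβ : KC c.W2 c.β
  embπ : ∀ k, Emb c.W c.X (c.π k)
  embA : ∀ k, Emb c.W2 c.W (c.A k)
  embB : ∀ k, Emb c.W2 c.W (c.Bc k)
  facP : ∀ k, Fac c.W (c.P k)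
  slot : ∀ k, pull c.W.μ (c.π k) c.B ≤ c.L.shp c.B
  /-- preimages of sets of the base -/
  pre : ∀ k (A : Set c.X.X), MeasurableSet[c.B] A → MeasurableSet[c.L.shp c.B] (c.π k ⁻¹' A)
  nt : ∀ k (g : c.X.X → ℂ), MeasurableSet[c.L.shp c.B] (c.Nt k g)
  two : ∃ i1 i2 : c.ι, i1 ≠ i2 ∧ (c.sl i1).2 = (c.sl i2).2
  ce : c.GI → ∀ k (f : c.X.X → ℂ), BM c.X.μ c.X.ms f →
    c.W.μ[fun w => f (c.π k w) | c.B2] =ᵐ[c.W.μ] fun w => (c.X.μ[f | c.B]) (c.π k w)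

/-- the group law and the shift -/
structure PsC (X : Sys) (B : MeasurableSpace X.X) {V : Type} [AddCommGroup V] (sg : AddAut V)
    (ψ : V → X.X → ℂ) : Prop where
  bm : ∀ v, BM X.μ X.ms (ψ v)
  zero : ψ 0 =ᵐ[X.μ] fun _ => 1
  neg : ∀ v, ψ (-v) =ᵐ[X.μ] fun x => conj (ψ v x)
  sub : ∀ v v', ψ (v - v') =ᵐ[X.μ] fun x => ψ v x * conj (ψ v' x)
  sum : ∀ (κ : Type) (S : Finset κ) (v : κ → V),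
    ψ (∑ k ∈ S, v k) =ᵐ[X.μ] fun x => ∏ k ∈ S, ψ (v k) x
  shz : ∀ (n : ℤ) v, ψ ((n • sg) v) =ᵐ[X.μ] fun x => ψ v (X.Tz n x)
  n0 : ∀ᵐ x ∂X.μ, x ∈ Th B X.μ (ψ 0)
  nsub : ∀ v v', ∀ᵐ x ∂X.μ, x ∈ Th B X.μ (ψ v) → x ∈ Th B X.μ (ψ v') → x ∈ Th B X.μ (ψ (v - v'))
  nsh : ∀ (n : ℤ) v, ∀ᵐ x ∂X.μ, x ∈ Th B X.μ (ψ ((n • sg) v)) ↔ X.Tz n x ∈ Th B X.μ (ψ v)
  /-- the part of `ψ v` off the trivial set has mean zero -/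
  off : ∀ v, X.μ[(Th B X.μ (ψ v))ᶜ.indicator (ψ v) | B] =ᵐ[X.μ] 0

/-- tuples of the functions `ψ` in the line -/
structure FfC (c : Ctx) {V : Type} [AddCommGroup V] (sg : AddAut V) (ψ : V → c.X.X → ℂ) :
    Prop where
  um1 : ∀ k a, Um (c.P k) c.W.μ fun w => ψ a (c.π k w)
  um2 : ∀ k a, Um (c.P k ⊔ c.B2) c.W.μ fun w => ψ a (c.π k w)
  um3 : ∀ k a, Um c.W.ms c.W.μ fun w => ψ a (c.π k w)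
  um : ∀ v, Um c.W.ms c.W.μ (c.FF ψ v)
  zero : c.FF ψ 0 =ᵐ[c.W.μ] fun _ => 1
  add : ∀ v v', c.FF ψ (v + v') =ᵐ[c.W.μ] fun w => c.FF ψ v w * c.FF ψ v' w
  sub : ∀ v v', c.FF ψ (v - v') =ᵐ[c.W.μ] fun w => c.FF ψ v w * conj (c.FF ψ v' w)
  single : ∀ k a, c.FF ψ (Pi.single k a) =ᵐ[c.W.μ] fun w => ψ a (c.π k w)
  shz : ∀ (n : ℤ) v, c.FF ψ (fun k => (n • sg) (v k)) =ᵐ[c.W.μ] fun w => c.FF ψ v (c.W.Tz n w)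
  tm : ∀ v, MeasurableSet[c.B2] (c.ΘV ψ v)
  t0 : ∀ᵐ w ∂c.W.μ, w ∈ c.ΘV ψ 0
  tadd : ∀ᵐ w ∂c.W.μ, ∀ v v', w ∈ c.ΘV ψ v → w ∈ c.ΘV ψ v' → w ∈ c.ΘV ψ (v + v')
  tsub : ∀ᵐ w ∂c.W.μ, ∀ v v', w ∈ c.ΘV ψ v → w ∈ c.ΘV ψ v' → w ∈ c.ΘV ψ (v - v')
  tsh : ∀ n : ℤ, ∀ᵐ w ∂c.W.μ, ∀ v,
    w ∈ c.ΘV ψ (fun k => (n • sg) (v k)) ↔ c.W.Tz n w ∈ c.ΘV ψ v
  um' : MeasurableSet[c.B2] (c.UU ψ)
  ush : ∀ n : ℤ, ∀ᵐ w ∂c.W.μ, w ∈ c.UU ψ ↔ c.W.Tz n w ∈ c.UU ψ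
  tsingle : c.GI → ∀ᵐ w ∂c.W.μ, ∀ k a, w ∈ c.ΘV ψ (Pi.single k a) ↔ w ∉ c.Nt k (ψ a)

structure GC : Prop where
  ctx : ∀ c : Ctx, CtxC c
  ps : ∀ (X : Sys) B (V : Type) [AddCommGroup V] (sg : AddAut V) (ψ : V → X.X → ℂ), Fac X B →
    Psi X B sg ψ → PsC X B sg ψ
  ff : ∀ (c : Ctx) (V : Type) [AddCommGroup V] [Countable V] (sg : AddAut V)
    (ψ : V → c.X.X → ℂ), Psi c.X c.B sg ψ → FfC c sg ψ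

def CtxR : Prop := Fd → ∀ c : Ctx, CtxC c
def PscR : Prop := Fd → Rc → ∀ (X : Sys) B (V : Type) [AddCommGroup V] (sg : AddAut V)
  (ψ : V → X.X → ℂ), Fac X B → Psi X B sg ψ → PsC X B sg ψ
def FfR : Prop := Fd → Rc → ∀ (c : Ctx) (V : Type) [AddCommGroup V] [Countable V] (sg : AddAut V)
  (ψ : V → c.X.X → ℂ), CtxC c → PsC c.X c.B sg ψ → Psi c.X c.B sg ψ → FfC c sg ψ

/-! ### calculus for partners and types -/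

structure ZvC (c : Ctx) (𝒱 : Subgroup (Uni c.X.X)) (s : 𝒱 ≃* 𝒱) : Prop where
  um : ∀ (g : c.ι → Uni c.X.X) k, Um (c.P k ⊔ c.B2) c.W.μ (c.up g k)
  umP : ∀ g : c.ι → Uni c.X.X, Um c.W.ms c.W.μ (pr (c.up g) univ)
  cnt : {g' : c.ι → Uni c.X.X | ∀ k, g' k ∈ 𝒱}.Countable
  tm : ∀ g : c.ι → Uni c.X.X, MeasurableSet[c.B2] (c.Θ (c.up g))
  meas : ∀ q g, MeasurableSet[c.B2] (c.ZV 𝒱 q g)
  sh : ∀ q (g : 𝒱), c.ZV 𝒱 q (s g).1 =ᵐ[c.W.μ] c.W.T ⁻¹' c.ZV 𝒱 q g.1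
  one : ∀ q, ∀ᵐ w ∂c.W.μ, w ∈ c.ZV 𝒱 q 1
  mul : ∀ q g g', ∀ᵐ w ∂c.W.μ, w ∈ c.ZV 𝒱 q g → w ∈ c.ZV 𝒱 q g' → w ∈ c.ZV 𝒱 q (g * g')
  inv : ∀ q g, ∀ᵐ w ∂c.W.μ, w ∈ c.ZV 𝒱 q g → w ∈ c.ZV 𝒱 q g⁻¹
  onn : c.GI → ∀ q g, ∀ᵐ w ∂c.W.μ, w ∈ c.ZV 𝒱 q g →
    ‖(c.X.μ[ufn g | c.B]) (c.π q w)‖ = 0 ∨ ‖(c.X.μ[ufn g | c.B]) (c.π q w)‖ = 1
  /-- nontriviality spreads over a tuple -/
  nt : c.GI → ∀ (g : c.ι → Uni c.X.X) j k, ∀ᵐ w ∂c.W.μ, w ∈ c.Θ (c.up g) →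
    (w ∈ c.Nt j (ufn (g j)) ↔ w ∈ c.Nt k (ufn (g k)))

/-- the maps of the extension -/
structure HtC {c : Ctx} (H : c.Hat) : Prop where
  embp : Emb H.X1 c.X H.p
  embe : ∀ a, Emb H.X1 c.W (H.e a ∘ H.p1)
  com : ∀ a, KEq H.X1.μ c.X.ms (c.π a.2 ∘ H.e a ∘ H.p1) H.p
  embL : Emb H.L1.W c.W H.Lp
  embπ : ∀ k, Emb H.L1.W H.X1 (H.π k)
  sq : ∀ k, KEq H.L1.W.μ c.X.ms (c.π k ∘ H.Lp) (H.p ∘ H.π k)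
  fac1 : Fac H.X1 H.B1
  b2 : pull H.L1.W.μ H.Lp c.B2 ≤ H.L1.B2 H.B1
  ce : ∀ f : c.X.X → ℂ, BM c.X.μ c.X.ms f →
    H.X1.μ[fun x => f (H.p x) | H.B1] =ᵐ[H.X1.μ] fun x => (c.X.μ[f | c.B]) (H.p x)
  /-- the second copy is the same in all slots -/
  frz : ∀ j k, KEq H.L1.W.μ H.Xh.ms (H.p2 ∘ H.π j) (H.p2 ∘ H.π k)
  frzT : KEq H.X1.μ H.Xh.ms (H.p2 ∘ H.X1.T) H.p2

structure ZC : Prop where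
  zv : ∀ (c : Ctx) 𝒱 s, c.Exh 𝒱 s → ZvC c 𝒱 s
  ht : ∀ (c : Ctx) (H : c.Hat), HtC H

def ZvR : Prop := Fd → Rc → GC → ∀ (c : Ctx) 𝒱 s, c.Exh 𝒱 s → ZvC c 𝒱 s
def HtR : Prop := Fd → SatA → GC → ∀ (c : Ctx) (H : c.Hat), HtC H

/-! ### the extension -/

def HatA : Prop := Fd → GC → ∀ (c : Ctx) (i0 : c.ι), c.GI → ∃ (Xh : Sys)
  (e : ℕ × c.ι → Xh.X → c.W.X) (Bh : MeasurableSpace Xh.X),
  IsRP (fun _ : ℕ × c.ι => c.W) c.X c.X.ms (fun a => c.π a.2) (0, i0) Xh e ∧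
  Adm Xh Bh c.X c.B (c.π i0 ∘ e (0, i0)) ∧ ∀ a, pull Xh.μ (e a) c.B2 ≤ Bh

def HatB : Prop := Fd → ∀ (Xh : Sys) (Bh : MeasurableSpace Xh.X), Nice Xh → KC Xh Bh →
  ∃ (X1 : Sys) (p1 p2 : X1.X → Xh.X) (B1 : MeasurableSpace X1.X), Emb X1 Xh.frz p2 ∧
    KEq X1.μ (Inv Xh) p1 p2 ∧ (∀ f g, BM Xh.μ Xh.ms f → BM Xh.μ Xh.ms g →
      ∫ x, f (p1 x) * g (p2 x) ∂X1.μ = ∫ y, (Xh.μ[f | Inv Xh]) y * (Xh.μ[g | Inv Xh]) y ∂Xh.μ) ∧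
    Adm X1 B1 Xh Bh p1 ∧ pull X1.μ p2 Xh.ms ≤ B1

/-! ### types -/

def TyA : Prop := Fd → GC → ZC → ∀ (c : Ctx) (H : c.Hat) 𝒱 s, c.CL → c.Exh 𝒱 s →
  ∀ (g : c.ι → Uni c.X.X) (j k : c.ι), (∀ i, g i ∈ 𝒱) → ∀ᵐ w ∂H.L1.W.μ,
    H.Lp w ∈ c.Θ (c.up g) → H.τ 𝒱 (g j) (H.p1 (H.π j w)) = H.τ 𝒱 (g k) (H.p1 (H.π k w))

/-- a set that no sample meets is not met by the line -/
def TyB : Prop := Fd → GC → ZC → ∀ (c : Ctx) (H : c.Hat) (q : c.ι) (D : Set c.W.X),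
  MeasurableSet D → ∀ᵐ w ∂H.L1.W.μ, H.Lp w ∈ D → ∃ i : ℕ, H.e (i, q) (H.p1 (H.π q w)) ∈ D

/-- two slots with the same label are dominated by the product over the invariant factor -/
def MixL : Prop := Fd → ∀ (ν : Wt) (U : Ultrafilter ℕ) (X : Sys) (L : Ln ν U X) (s s' : Slot),
  (U : Filter ℕ) ≤ atTop → ERG ν → s ≠ s' → s.2 = s'.2 → ∀ A A' : Set X.X, MeasurableSet A →
  MeasurableSet A' → L.W.μ.real (L.π s ⁻¹' A ∩ L.π s' ⁻¹' A') ≤ |((s'.1 - s.1 : ℤ) : ℝ)| *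
    (∫ x, (X.μ[A.indicator fun _ => (1 : ℂ) | Inv X]) x *
      (X.μ[A'.indicator fun _ => (1 : ℂ) | Inv X]) x ∂X.μ).re

/-- domination on rectangles passes to the coincidence of types -/
def DomS : Prop := ∀ (Ω Ω' Y κ : Type) [MeasurableSpace Ω] [MeasurableSpace Ω']
  [MeasurableSpace Y] [Countable κ] (μ : Measure Ω) (μ' : Measure Ω') [IsProbabilityMeasure μ]
  [IsProbabilityMeasure μ'] (a1 a2 : Ω → Y) (b1 b2 : Ω' → Y) (r : ℝ) (t t' : Y → κ → Prop)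
  (S : Set Y), Measurable a1 → Measurable a2 → Measurable b1 → Measurable b2 →
  (∀ i, MeasurableSet {y | t y i}) → (∀ i, MeasurableSet {y | t' y i}) → MeasurableSet S →
  (∀ A A' : Set Y, MeasurableSet A → MeasurableSet A' →
    μ.real (a1 ⁻¹' A ∩ a2 ⁻¹' A') ≤ r * μ'.real (b1 ⁻¹' A ∩ b2 ⁻¹' A')) →
  μ' {x | b1 x ∈ S ∧ t (b1 x) = t' (b2 x)} = 0 → μ {x | a1 x ∈ S ∧ t (a1 x) = t' (a2 x)} = 0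

def PosB : Prop := Fd → GC → ZC → MixL → DomS → ∀ (c : Ctx) (H : c.Hat) 𝒱 s
  (g : c.ι → Uni c.X.X), c.GI → c.Exh 𝒱 s → H.Ty 𝒱 → (∀ k, g k ∈ 𝒱) → c.T5 g →
  ∃ j k, H.Pos 𝒱 g j k

/-! ### the functions `ψ` -/

def Ctx.Hat.HH {c : Ctx} (H : c.Hat) (𝒱 : Subgroup (Uni c.X.X)) (g0 : Uni c.X.X) (g : 𝒱) :
    Set H.X1.X :=
  {x | (∃ a, H.τ 𝒱 g0 (H.p2 x) a) ∧ ∀ a, H.τ 𝒱 g0 (H.p2 x) a → H.τ 𝒱 g.1 (H.p1 x) a}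

open Classical in
def Ctx.Hat.psi {c : Ctx} (H : c.Hat) (𝒱 : Subgroup (Uni c.X.X)) (g0 : Uni c.X.X)
    (v : 𝒱 →₀ ℤ) (x : H.X1.X) : ℂ :=
  v.prod fun g n => (if x ∈ H.HH 𝒱 g0 g then ufn g.1 (H.p x) else 1) ^ n

def PsiA : Prop := Fd → GC → ZC → ∀ (c : Ctx) (H : c.Hat) 𝒱 s (g0 : Uni c.X.X), c.Exh 𝒱 s →
  (∀ g, MeasurableSet[H.B1] (H.HH 𝒱 g0 g)) ∧ (∀ v, Um H.X1.ms H.X1.μ (H.psi 𝒱 g0 v)) ∧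
  (∀ v v' x, H.psi 𝒱 g0 (v + v') x = H.psi 𝒱 g0 v x * H.psi 𝒱 g0 v' x) ∧
  ∀ v, H.psi 𝒱 g0 (Finsupp.domCongr s.toEquiv v) =ᵐ[H.X1.μ] fun x => H.psi 𝒱 g0 v (H.X1.T x)

def PsiB : Prop := Fd → Rc → GC → ZC → PsiA → ∀ (c : Ctx) (H : c.Hat) 𝒱 s (g0 : Uni c.X.X),
  c.GI → c.Exh 𝒱 s → ∀ v, ∀ᵐ x ∂H.X1.μ, ‖(H.X1.μ[H.psi 𝒱 g0 v | H.B1]) x‖ = 0 ∨
    ‖(H.X1.μ[H.psi 𝒱 g0 v | H.B1]) x‖ = 1

def BunB : Prop := GC → ZC → BunR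

/-! ### passing to the hull -/

/-- over `C` every function is determined on a set of `D` and has mean zero off it -/
def PQ (Y : Sys) (D : MeasurableSpace Y.X) {α : Type} (F : α → Y.X → ℂ) (R : α → Set Y.X)
    (C : MeasurableSpace Y.X) : Prop :=
  ∀ a, ∃ S : Set Y.X, MeasurableSet[D] S ∧ Y.μ[F a | C] =ᵐ[Y.μ] S.indicator (F a) ∧
    Y.μ (S ∩ R a) = 0

def OnhK : Prop := Fd → ∀ (Y : Sys) (D C : MeasurableSpace Y.X) (α : Type) (F : α → Y.X → ℂ)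
  (R : α → Set Y.X) (d : ℕ → α → α), Nice Y → Fac Y D → Fac Y C → D ≤ C →
  (∀ a, Um Y.ms Y.μ (F a)) → (∀ a, MeasurableSet[D] (R a)) →
  (∀ (n : ℕ) a, F (d n a) =ᵐ[Y.μ] fun y => F a (Y.Tz n y) * conj (F a y)) →
  (∀ a, Tendsto (fun N : ℕ => (N : ℝ)⁻¹ * ∑ n ∈ range N, Y.μ.real (R a \ R (d n a)))
    atTop (𝓝 0)) → PQ Y D F R C → PQ Y D F R (KK Y C)

def OnhC : Prop := Fd → ∀ (Y : Sys) (D : MeasurableSpace Y.X) (α : Type) (F : α → Y.X → ℂ)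
  (R : α → Set Y.X) (𝒞 : Set (MeasurableSpace Y.X)), Fac Y D → (∀ a, Um Y.ms Y.μ (F a)) →
  𝒞.Nonempty → IsChain (· ≤ ·) 𝒞 → (∀ C ∈ 𝒞, Fac Y C ∧ D ≤ C ∧ PQ Y D F R C) →
  PQ Y D F R (sSup 𝒞)

/-- decay along the integers -/
def DecS : Prop := Fd → Rc → GC → ∀ (X : Sys) B (V : Type) [AddCommGroup V] (sg : AddAut V)
  (ψ : V → X.X → ℂ), Nice X → KC X B → Psi X B sg ψ → ∀ a, Tendsto (fun N : ℕ => (N : ℝ)⁻¹ *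
    ∑ n ∈ range N, X.μ.real (Th B X.μ (ψ (((n : ℤ) • sg) a - a)) \ Th B X.μ (ψ a))) atTop (𝓝 0)

/-- exact relations -/
def RelA : Prop := Fd → Rc → GC → ∀ (c : Ctx) (V : Type) [AddCommGroup V] [Countable V]
  (sg : AddAut V) (ψ : V → c.X.X → ℂ), Psi c.X c.B sg ψ → ∀ v : c.ι → V,
  (Th (c.L.shp c.B) c.W.μ (c.FF ψ v) =ᵐ[c.W.μ]
    c.L.hs fun l => Th c.B c.X.μ (ψ (∑ k, (rho (c.sl k) l • sg) (v k)))) ∧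
  c.W.μ[c.FF ψ v | c.L.shp c.B] =ᵐ[c.W.μ]
    (Th (c.L.shp c.B) c.W.μ (c.FF ψ v)).indicator (c.FF ψ v)

def RelC : Prop := Fd → Rc → GC → ∀ (c : Ctx) (V : Type) [AddCommGroup V] [Countable V]
  (sg : AddAut V) (ψ : V → c.X.X → ℂ), Psi c.X c.B sg ψ → ∀ a a', Nl c.ν c.U c.X fun l =>
    Th c.B c.X.μ (ψ (((l.2.1 - l.2.2) • sg) a - a')) \ Th c.B c.X.μ (ψ a')

def OnhB : Prop := GC → OnhK → OnhC → DecS → RelA → OnhR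

/-! ### steps -/

def StpA : Prop := Fd → Rc → GC → ∀ (c : Ctx) (V : Type) [AddCommGroup V] [Countable V]
  (sg : AddAut V) (ψ : V → c.X.X → ℂ) (i1 i2 : c.ι), i1 ≠ i2 → c.GI → Psi c.X c.B sg ψ →
  (∀ a a' b b', (c.SV ψ i1 i2 a a' ∩ c.SV ψ i1 i2 b b' : Set c.W.X) ≤ᵐ[c.W.μ]
    c.SV ψ i1 i2 (a - b) (a' - b')) ∧ c.SV ψ i1 i2 0 0 =ᵐ[c.W.μ] c.UU ψ ∧
  (∀ a a', ∀ᵐ w ∂c.W.μ, w ∈ c.UU ψ → w ∉ c.Nt i1 (ψ a) → w ∉ c.Nt i2 (ψ a') →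
    w ∈ c.SV ψ i1 i2 a a') ∧
  (∀ (v : c.ι → V) (j k : c.ι), ∀ᵐ w ∂c.W.μ, w ∈ c.ΘV ψ v →
    (w ∈ c.Nt j (ψ (v j)) ↔ w ∈ c.Nt k (ψ (v k)))) ∧
  ∀ a a', c.SV ψ i1 i2 (sg a) (sg a') =ᵐ[c.W.μ] c.W.T ⁻¹' c.SV ψ i1 i2 a a'

/-- all rows and one column are tuples, hence all columns -/
def FlatM (c : Ctx) {V : Type} (ψ : V → c.X.X → ℂ) : Prop :=
  ∀ (m : c.ι → c.ι → V) (j0 j : c.ι), ∀ᵐ x ∂c.W2.μ, (∀ k, c.A k x ∈ c.ΘV ψ (m k)) →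
    c.Bc j0 x ∈ c.ΘV ψ (fun k => m k j0) → c.Bc j x ∈ c.ΘV ψ fun k => m k j

def FlatR : Prop := Fd → Rc → GC → ∀ (c : Ctx) (V : Type) [AddCommGroup V] [Countable V]
  (sg : AddAut V) (ψ : V → c.X.X → ℂ), c.GI → Psi c.X c.B sg ψ → FlatM c ψ

def StpB : Prop := Fd → GC → ∀ (c : Ctx) (V : Type) [AddCommGroup V] [Countable V]
  (sg : AddAut V) (ψ : V → c.X.X → ℂ) (i1 i2 : c.ι), i1 ≠ i2 → Psi c.X c.B sg ψ → FlatM c ψ →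
  ∀ a b a' b', ∀ᵐ x ∂c.W2.μ, c.A i1 x ∈ c.SV ψ i1 i2 a b → c.A i2 x ∈ c.SV ψ i1 i2 a' b' →
    (c.Bc i1 x ∈ c.SV ψ i1 i2 a a' ↔ c.Bc i2 x ∈ c.SV ψ i1 i2 b b')

/-! ### from the line to the finite level -/

/-- the internal sets, recentred at the first slot -/
def rec1 (c : Ctx) {V : Type} (A : V → V → Lab → Set c.X.X) (i1 : c.ι) (l : Lab) (a a' : V) :
    Set c.X.X := c.X.Tz (-rho (c.sl i1) l) ⁻¹' A a a' l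

def stp (c : Ctx) (i1 i2 : c.ι) (l : Lab) : ℤ := rho (c.sl i2) l - rho (c.sl i1) l

/-- the sets `A` describe the steps -/
def Desc (c : Ctx) {V : Type} (ψ : V → c.X.X → ℂ) (i1 i2 : c.ι)
    (A : V → V → Lab → Set c.X.X) : Prop :=
  (∀ a a' l, MeasurableSet (A a a' l)) ∧ ∀ a a', c.SV ψ i1 i2 a a' =ᵐ[c.W.μ] c.L.hs (A a a')

def AlgA : Prop := Fd → Rc → GC → ∀ (c : Ctx) (V : Type) [AddCommGroup V] [Countable V]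
  (sg : AddAut V) (ψ : V → c.X.X → ℂ) (i1 i2 : c.ι) (A : V → V → Lab → Set c.X.X),
  c.Stp sg ψ i1 i2 → Desc c ψ i1 i2 A →
  (∀ a a' b b', Nl c.ν c.U c.X fun l =>
    (rec1 c A i1 l a a' ∩ rec1 c A i1 l b b') \ rec1 c A i1 l (a - b) (a' - b')) ∧
  (∀ a a', Nl c.ν c.U c.X fun l => (rec1 c A i1 l 0 0 ∩ Th c.B c.X.μ (ψ a) ∩
    c.X.Tz (stp c i1 i2 l) ⁻¹' Th c.B c.X.μ (ψ a')) \ rec1 c A i1 l a a') ∧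
  (∀ a a', Nl c.ν c.U c.X fun l => rec1 c A i1 l a a' ∩
    {y | ¬ (y ∈ Th c.B c.X.μ (ψ a) ↔ c.X.Tz (stp c i1 i2 l) y ∈ Th c.B c.X.μ (ψ a'))}) ∧
  ∀ a a', Nl c.ν c.U c.X fun l =>
    {y | ¬ (y ∈ rec1 c A i1 l (sg a) (sg a') ↔ c.X.T y ∈ rec1 c A i1 l a a')}

def AlgT : Prop := Fd → Rc → GC → ∀ (c : Ctx) (V : Type) [AddCommGroup V] [Countable V]
  (sg : AddAut V) (ψ : V → c.X.X → ℂ) (i1 i2 : c.ι) (A : V → V → Lab → Set c.X.X),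
  c.Stp sg ψ i1 i2 → Desc c ψ i1 i2 A → ∀ (a : V) (ε : ℝ), 0 < ε → ∃ F : Finset V,
  ∀ᶠ M in (c.U : Filter ℕ),
    (c.ν.av2 M fun l => c.X.μ.real (rec1 c A i1 l 0 0 \ ⋃ a' ∈ F, rec1 c A i1 l a a')) ≤ ε ∧
    (c.ν.av2 M fun l => c.X.μ.real (rec1 c A i1 l 0 0 \ ⋃ a' ∈ F, rec1 c A i1 l a' a)) ≤ ε

def AlgB : Prop := Fd → Rc → GC → ∀ (c : Ctx) (V : Type) [AddCommGroup V] [Countable V]
  (sg : AddAut V) (ψ : V → c.X.X → ℂ) (i1 i2 : c.ι) (A : V → V → Lab → Set c.X.X),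
  c.Stp sg ψ i1 i2 → Desc c ψ i1 i2 A → ∀ a b a' b', ∃ φ : Lab → ℝ,
  Tendsto (fun M => c.ν.av2 M φ) c.U (𝓝 0) ∧ ∀ l,
    Tendsto (fun M => c.ν.av2 M fun l' => c.X.μ.real {y | y ∈ rec1 c A i1 l' a b ∧
      y ∈ rec1 c A i1 l' ((stp c i1 i2 l • sg) a') ((stp c i1 i2 l • sg) b') ∧
      ¬ (y ∈ rec1 c A i1 l a a' ↔ c.X.Tz (stp c i1 i2 l') y ∈ rec1 c A i1 l b b')}) c.U (𝓝 (φ l))

def AlgC : Prop := GC → AlgA → AlgT → AlgB → AlgIR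

end T3x

end
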